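import Pool.Agent.P.MP_29cb78_nt.E.KIface

/-!
The embeddings of a complex cubic field, and large units that are congruent to one.
-/

namespace Pool.Agent.P.MP_29cb78_nt.E

open Filter Topology MeasureTheory Set NumberField NumberField.InfinitePlace
open scoped Classical Real Matrix

noncomputable section

theorem k_emb : K_EMB := by
  intro k _ _ h3 h1
  have h2 : nrRealPlaces k = 1 := by
    have := card_add_two_mul_card_eq_rank k
    omega
  obtain ⟨⟨w, hw⟩, uw⟩ := Fintype.card_eq_one_iff.1 h2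
  obtain ⟨⟨v, hv⟩, uv⟩ := Fintype.card_eq_one_iff.1 h1
  have nr : ¬ComplexEmbedding.IsReal v.embedding := isComplex_iff.1 hv
  have re : ∀ φ : k →+* ℂ, ComplexEmbedding.IsReal φ → φ = w.embedding := fun φ h => by
    have := congrArg Subtype.val (uw ⟨mk φ, isReal_mk_iff.2 h⟩)
    rw [← embedding_mk_eq_of_isReal h]
    exact congrArg _ this
  have all : ∀ φ : k →+* ℂ, φ = w.embedding ∨ φ = v.embedding ∨
      φ = ComplexEmbedding.conjugate v.embedding := fun φ => by
    by_cases h : ComplexEmbedding.IsReal φ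
    · exact Or.inl (re φ h)
    · have : mk φ = v := congrArg Subtype.val (uv ⟨mk φ, φ, h, rfl⟩)
      rw [← mk_embedding v, eq_comm, mk_eq_iff] at this
      exact Or.inr (this.imp Eq.symm Eq.symm)
  have hr : ComplexEmbedding.IsReal w.embedding := isReal_iff.1 hw
  refine ⟨embedding_of_isReal hw, v.embedding, h3, ?_, fun φ => ?_, fun x => ?_, fun x hx => ?_,
    fun B => ?_⟩
  · rw [Units.rank, card_eq_nrRealPlaces_add_nrComplexPlaces, h1, h2]
  · have := re (Complex.ofRealHom.comp φ) (ComplexEmbedding.isReal_iff.2 (by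
      ext x
      simp))
    ext x
    apply Complex.ofReal_injective
    rw [embedding_of_isReal_apply, ← this]
    rfl
  · have e1 := Algebra.norm_eq_prod_embeddings ℚ ℂ x
    rw [← Fintype.prod_equiv (RingHom.equivRatAlgHom k ℂ) (fun f => f x) (fun φ => φ x)
      fun _ => by simp [RingHom.equivRatAlgHom_apply]] at e1
    have e2 : (Finset.univ : Finset (k →+* ℂ)) =
        {w.embedding, v.embedding, ComplexEmbedding.conjugate v.embedding} := by
      ext φ
      simpa using all φ
    have n1 : w.embedding ≠ v.embedding := fun h => nr (h ▸ hr)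
    have n2 : w.embedding ≠ ComplexEmbedding.conjugate v.embedding := fun h =>
      nr (ComplexEmbedding.isReal_conjugate_iff.1 (h ▸ hr))
    have n3 : v.embedding ≠ ComplexEmbedding.conjugate v.embedding := fun h =>
      nr (ComplexEmbedding.isReal_iff.2 h.symm)
    rw [e2, Finset.prod_insert (by simp [n1, n2]), Finset.prod_pair n3,
      ComplexEmbedding.conjugate_coe_eq, Complex.mul_conj', ← embedding_of_isReal_apply hw,
      eq_ratCast] at e1
    apply Complex.ofReal_injective
    push_cast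
    exact e1
  · let F : IntermediateField ℚ k :=
      (RingHom.eqLocusField (ComplexEmbedding.conjugate v.embedding) v.embedding).toIntermediateField
        fun q => by simp
    rcases (IntermediateField.isSimpleOrder_of_finrank_prime ℚ k
      (h3 ▸ Nat.prime_three)).eq_bot_or_eq_top F with h | h
    · have : x ∈ F := Complex.conj_eq_iff_im.2 hx
      rw [h, IntermediateField.mem_bot] at this
      obtain ⟨c, hc⟩ := this
      exact ⟨c, by rw [← hc, eq_ratCast]⟩
    · refine absurd (ComplexEmbedding.isReal_iff.2 (RingHom.ext fun y => ?_)) nr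
      have : y ∈ F := h ▸ IntermediateField.mem_top
      exact this
  · refine ((Embeddings.finite_of_norm_le k ℂ B).preimage
      (RingOfIntegers.coe_injective (K := k)).injOn).subset fun x hx =>
      ⟨x.isIntegral_coe, fun φ => ?_⟩
    rcases all φ with rfl | rfl | rfl
    · rw [← embedding_of_isReal_apply hw, Complex.norm_real]
      exact hx.1
    · exact hx.2
    · rw [ComplexEmbedding.conjugate_coe_eq, Complex.norm_conj]
      exact hx.2

theorem k_unit : K_UNIT := by
  intro k _ _ ρ σ E I hI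
  have h0 : ∀ η : (𝓞 k)ˣ, ρ (η : 𝓞 k) * ρ ((η⁻¹ : (𝓞 k)ˣ) : 𝓞 k) = 1 := fun η => by
    rw [← map_mul, ← map_mul, Units.mul_inv, map_one, map_one]
  have h1 : Infinite (𝓞 k)ˣ := by
    rw [← not_finite_iff_infinite]
    intro hf
    have h2 := Units.finrank_eq k
    rw [E.rk, (Module.finrank_eq_zero_iff (R := ℤ)).2 fun x =>
      ⟨(Nat.card (Additive (𝓞 k)ˣ) : ℤ), Int.natCast_ne_zero.2 Nat.card_pos.ne', by
        rw [natCast_zsmul, card_nsmul_eq_zero']⟩] at h2
    exact zero_ne_one h2
  obtain ⟨η, hη⟩ : ∃ η : (𝓞 k)ˣ, 1 < ρ (η : 𝓞 k) ^ 2 := by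
    by_contra hc
    push Not at hc
    refine Set.infinite_univ (((E.fin 1).preimage (Units.val_injective (α := 𝓞 k)).injOn).subset
      fun η _ => ?_)
    have a1 := hc η
    have a2 := hc η⁻¹
    have a3 := h0 η
    have a4 : ρ (η : 𝓞 k) ^ 2 = 1 := by
      have : ρ (η : 𝓞 k) ^ 2 * ρ ((η⁻¹ : (𝓞 k)ˣ) : 𝓞 k) ^ 2 = 1 := by rw [← mul_pow, a3, one_pow]
      nlinarith [sq_nonneg (ρ (η : 𝓞 k)), sq_nonneg (ρ ((η⁻¹ : (𝓞 k)ˣ) : 𝓞 k))]
    have a5 : |ρ (η : 𝓞 k)| = 1 := by
      rwa [← sq_abs, pow_eq_one_iff_of_nonneg (abs_nonneg _) two_ne_zero] at a4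
    have a6 := congrArg (fun q : ℚ => (q : ℝ)) (Units.norm k η)
    simp only [Rat.cast_abs, Rat.cast_one, E.norm, abs_mul] at a6
    refine ⟨a5.le, ?_⟩
    have a7 : |‖σ (η : 𝓞 k)‖ ^ 2| = 1 := by
      rw [← a6]
      exact (one_mul _).symm.trans (congrArg (· * _) a5.symm)
    rw [abs_of_nonneg (sq_nonneg _)] at a7
    nlinarith [norm_nonneg (σ (η : 𝓞 k))]
  have := I.finiteQuotientOfFreeOfNeBot hI
  obtain ⟨j, hj⟩ := pow_unbounded_of_one_lt 6 hη
  have hM : 0 < Nat.card (𝓞 k ⧸ I)ˣ := Nat.card_pos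
  refine ⟨η ^ (Nat.card (𝓞 k ⧸ I)ˣ * (2 * j)), ?_, ?_⟩
  · rw [← Ideal.Quotient.eq, map_one]
    have := congrArg Units.val
      (pow_card_eq_one' (x := Units.map (Ideal.Quotient.mk I).toMonoidHom η))
    rw [Units.val_pow_eq_pow_val] at this
    rw [Units.val_pow_eq_pow_val, map_pow, pow_mul]
    exact (congrArg (· ^ (2 * j)) this).trans (one_pow _)
  · rw [Units.val_pow_eq_pow_val, RingOfIntegers.coe_eq_algebraMap, map_pow, map_pow, mul_left_comm,
      pow_mul]
    exact hj.trans_le (pow_le_pow_right₀ hη.le (Nat.le_mul_of_pos_left j hM))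

end

end Pool.Agent.P.MP_29cb78_nt.E
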