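import Pool.Agent.P.MP_29cb78_nt.E.KIface

/-! Generators in a fundamental domain, and the ideals of a narrow ray class. -/

namespace Pool.Agent.P.MP_29cb78_nt.E

open Filter Topology Set NumberField
open scoped Classical Real

namespace KFib

lemma emb {G : Type} [CommGroup G] (P : Subgroup G) (φ : G →* ℝ) {u : G} (hu : u ∈ P)
    (h1 : 1 < φ u) {X Y : ℝ} (hX : 0 < X) (hY : 0 < Y) :
    Nonempty ({η // η ∈ P ∧ 1 ≤ X * φ η ∧ X * φ η < φ u} ↪
      {η // η ∈ P ∧ 1 ≤ Y * φ η ∧ Y * φ η < φ u}) := by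
  have h0 : 0 < φ u := one_pos.trans h1
  have pos : ∀ η : {η // η ∈ P ∧ 1 ≤ X * φ η ∧ X * φ η < φ u}, 0 < Y * φ η := fun η =>
    mul_pos hY ((mul_pos_iff_of_pos_left hX).1 (one_pos.trans_le η.2.2.1))
  choose k hk using fun η => exists_mem_Ico_zpow (pos η) h1
  refine ⟨⟨fun η => ⟨η * u ^ (-k η), P.mul_mem η.2.1 (P.zpow_mem hu _), ?_, ?_⟩,
    fun η η' h => ?_⟩⟩
  · rw [map_mul, map_zpow, zpow_neg, ← mul_assoc, ← div_eq_mul_inv, one_le_div (zpow_pos h0 _)]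
    exact (hk η).1
  · rw [map_mul, map_zpow, zpow_neg, ← mul_assoc, ← div_eq_mul_inv, div_lt_iff₀ (zpow_pos h0 _),
      mul_comm (φ u), ← zpow_add_one₀ h0.ne']
    exact (hk η).2
  · have e : (η : G) = η' * u ^ (k η - k η') := by
      have := congrArg Subtype.val h
      simp only at this
      rw [sub_eq_add_neg, add_comm, zpow_add, ← mul_assoc, ← this, mul_assoc, ← zpow_add,
        neg_add_cancel, zpow_zero, mul_one]
    generalize k η - k η' = m at e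
    have e2 : X * φ η = X * φ η' * φ u ^ m := by rw [e, map_mul, map_zpow, mul_assoc]
    obtain ⟨-, a1, a2⟩ := η.2
    obtain ⟨-, b1, b2⟩ := η'.2
    have hp := zpow_pos h0 m
    have c1 : φ u ^ m < φ u ^ (1 : ℤ) := by rw [zpow_one]; nlinarith
    have c2 : φ u ^ (0 : ℤ) < φ u ^ (m + 1) := by
      rw [zpow_zero, zpow_add_one₀ h0.ne']; nlinarith
    rw [zpow_lt_zpow_iff_right₀ h1] at c1 c2
    obtain rfl : m = 0 := by omega
    exact Subtype.ext (by simpa using e)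

/-- The units that are congruent to one. -/
def un {R : Type} [CommRing R] (f : Ideal R) : Subgroup Rˣ :=
  (Units.map (Ideal.Quotient.mk f).toMonoidHom).ker

lemma mem_un {R : Type} [CommRing R] {f : Ideal R} {η : Rˣ} : η ∈ un f ↔ (η : R) - 1 ∈ f := by
  rw [un, MonoidHom.mem_ker, Units.ext_iff, ← Ideal.Quotient.eq]
  rfl

end KFib

open KFib in
theorem k_fib : K_FIB := by
  intro k _ _ ρ σ hE f c ν u hν hνc hu h1
  let φ : (𝓞 k)ˣ →* ℝ := (ρ.comp (algebraMap (𝓞 k) k)).toMonoidHom.comp (Units.coeHom _)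
  have hφ : ∀ η : (𝓞 k)ˣ, φ η = ρ (η : 𝓞 k) := fun _ => rfl
  refine ⟨Nat.card {η // η ∈ un f ∧ 1 ≤ 1 * φ η ∧ 1 * φ η < φ u}, Nat.card_ne_zero.2
    ⟨⟨⟨1, one_mem _, by simp, by simpa [hφ] using h1⟩⟩, ?_⟩, fun β₀ hβ hp => ?_⟩
  · have := (hE.fin (ρ (u : 𝓞 k))).to_subtype
    refine Finite.of_injective (β := {x : 𝓞 k | |ρ x| ≤ ρ (u : 𝓞 k) ∧ ‖σ x‖ ≤ ρ (u : 𝓞 k)})
      (fun η => ⟨(η.1 : 𝓞 k), ?_, ?_⟩) fun η η' h =>
        Subtype.ext (Units.ext (congrArg Subtype.val h))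
    · obtain ⟨-, a1, a2⟩ := η.2
      rw [one_mul, hφ] at a1 a2
      rw [abs_of_pos (by linarith)]
      exact a2.le
    · obtain ⟨-, a1, -⟩ := η.2
      rw [one_mul, hφ] at a1
      have a2 : |ρ (η.1 : 𝓞 k) * ‖σ (η.1 : 𝓞 k)‖ ^ 2| = 1 := by
        rw [← hE.norm]; exact_mod_cast Units.norm k η.1
      rw [abs_of_nonneg (by positivity)] at a2
      have a3 : ‖σ (η.1 : 𝓞 k)‖ ^ 2 ≤ 1 := by nlinarith [sq_nonneg ‖σ (η.1 : 𝓞 k)‖]
      exact ((sq_le_one_iff₀ (norm_nonneg _)).1 a3).trans h1.le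
  · obtain ⟨e⟩ := Function.Embedding.antisymm (emb (un f) φ (mem_un.2 hu) h1 one_pos hp).some
      (emb (un f) φ (mem_un.2 hu) h1 hp one_pos).some
    rw [Nat.card_congr e]
    have hc : β₀ ∈ c := by simpa using c.add_mem (Ideal.mul_le_right hβ) hνc
    have hf : β₀ - 1 ∈ f := by simpa using f.add_mem (Ideal.mul_le_left hβ) hν
    have h0 : β₀ ≠ 0 := by rintro rfl; simp at hp
    have hm : ∀ η : (𝓞 k)ˣ, ρ ((β₀ * η : 𝓞 k) : k) = ρ β₀ * φ η := fun η => by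
      rw [hφ, ← map_mul]; rfl
    have key : ∀ η : {η // η ∈ un f ∧ 1 ≤ ρ β₀ * φ η ∧ ρ β₀ * φ η < φ u},
        β₀ * η.1 - ν ∈ f * c ∧ 1 ≤ ρ (β₀ * η.1 : 𝓞 k) ∧ ρ (β₀ * η.1 : 𝓞 k) < ρ (u : 𝓞 k) ∧
          Ideal.span {β₀ * η.1} = Ideal.span {β₀} := fun η => by
      refine ⟨?_, by rw [hm]; exact η.2.2.1, by rw [hm]; exact η.2.2.2,
        Ideal.span_singleton_mul_right_unit η.1.isUnit _⟩
      convert (f * c).add_mem (Ideal.mul_mem_mul (mem_un.1 η.2.1) hc) hβ using 1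
      ring
    refine (Nat.card_congr (Equiv.ofBijective (fun η => ⟨β₀ * η.1, key η⟩)
      ⟨fun η η' h => ?_, fun β => ?_⟩)).symm
    · exact Subtype.ext (Units.ext (mul_left_cancel₀ h0 (congrArg Subtype.val h)))
    · obtain ⟨β, b1, b2, b3, b4⟩ := β
      obtain ⟨η, rfl⟩ := Ideal.span_singleton_eq_span_singleton.1 b4.symm
      refine ⟨⟨η, mem_un.2 ?_, by rwa [← hm], by rwa [← hm]⟩, rfl⟩
      convert f.sub_mem (Ideal.mul_le_left ((f * c).sub_mem b1 hβ))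
        (f.mul_mem_left ((η : 𝓞 k) - 1) hf) using 1
      ring

theorem k_cls : K_CLS := by
  intro k _ _ ρ σ hE f b hf0 hf1 hb0 hco
  obtain ⟨ν₀, h0b, g, hg, hsum⟩ := Ideal.isCoprime_iff_exists.1 hco
  have hN : Ideal.absNorm (b * f) ≠ 0 := by
    rw [Ne, Ideal.absNorm_eq_zero_iff]; exact mul_ne_zero hb0 hf0
  obtain ⟨M, hM⟩ := exists_nat_gt (-ρ ν₀)
  have hm : ((M * Ideal.absNorm (b * f) : ℕ) : 𝓞 k) ∈ b * f := by
    rw [Nat.cast_mul]; exact Ideal.mul_mem_left _ _ (Ideal.absNorm_mem _)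
  set ν : 𝓞 k := ν₀ + (M * Ideal.absNorm (b * f) : ℕ) with hνd
  have hνb : ν ∈ b := b.add_mem h0b (Ideal.mul_le_left hm)
  have hνf : ν - 1 ∈ f := by
    convert f.sub_mem (Ideal.mul_le_right hm) hg using 1
    rw [hνd, ← hsum]; ring
  have hνp : 0 < ρ ν := by
    have h1 : (M : ℝ) ≤ (M * Ideal.absNorm (b * f) : ℕ) := by
      exact_mod_cast Nat.le_mul_of_pos_right _ (Nat.pos_of_ne_zero hN)
    have h2 : ρ ν = ρ ν₀ + (M * Ideal.absNorm (b * f) : ℕ) := by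
      change (ρ.comp (algebraMap (𝓞 k) k)) ν = (ρ.comp (algebraMap (𝓞 k) k)) ν₀ + _
      rw [hνd, map_add, map_natCast]
    linarith
  clear_value ν
  have hν0 : ν ≠ 0 := by rintro rfl; simp at hνp
  obtain ⟨c, hc⟩ := Ideal.dvd_iff_le.2 ((Ideal.span_singleton_le_iff_mem b).2 hνb)
  have hc0 : c ≠ ⊥ := by
    rintro rfl
    rw [Ideal.mul_bot, Ideal.span_singleton_eq_bot] at hc
    exact hν0 hc
  have hνc : ν ∈ c := Ideal.mul_le_right (hc ▸ Ideal.mem_span_singleton_self ν)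
  have last : ∀ β : 𝓞 k, β - ν ∈ f * c → β ∈ c := fun β h => by
    simpa using c.add_mem (Ideal.mul_le_right h) hνc
  refine ⟨c, ν, hc0, hνf, hνc, fun h => hf1 ?_, fun I => ⟨?_, ?_⟩, fun β h => ?_⟩
  · rw [← Ideal.span_singleton_le_iff_mem, hc, ← Ideal.dvd_iff_le,
      mul_dvd_mul_iff_right hc0, Ideal.dvd_iff_le] at h
    rw [Ideal.eq_top_iff_one, ← hsum]
    exact f.add_mem (h h0b) hg
  · rintro ⟨x, y, h1, h2, h3, h4⟩
    have hy : y ≠ 0 := by rintro rfl; simpa using h3 ρ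
    have h5 : Ideal.span {y} * (I * c) = Ideal.span {x * ν} := by
      rw [← mul_assoc, h4, mul_assoc, ← hc, Ideal.span_singleton_mul_span_singleton]
    obtain ⟨β, hβ⟩ := Ideal.mem_span_singleton.1
      (Ideal.mul_le_left (h5 ▸ Ideal.mem_span_singleton_self (x * ν)))
    rw [hβ, ← Ideal.span_singleton_mul_span_singleton] at h5
    have h6 := mul_left_cancel₀ (by simpa using hy) h5
    have h7 : β ∈ c := Ideal.mul_le_right (h6 ▸ Ideal.mem_span_singleton_self β)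
    obtain ⟨a, ha, g', hg', hs⟩ := Ideal.isCoprime_iff_exists.1 h1
    obtain ⟨y', rfl⟩ := Ideal.mem_span_singleton.1 ha
    refine ⟨β, ?_, ?_, h6⟩
    · convert (f * c).add_mem ((f * c).mul_mem_left y' (Ideal.mul_mem_mul h2 hνc))
        (Ideal.mul_mem_mul hg' (c.sub_mem h7 hνc)) using 1
      linear_combination (-(β - ν)) * hs - y' * hβ
    · have h8 : ρ x * ρ ν = ρ y * ρ β := by
        have := congrArg (ρ.comp (algebraMap (𝓞 k) k)) hβ
        rwa [map_mul, map_mul] at this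
      have h9 : 0 < ρ y ^ 2 * ρ β := by
        have := mul_pos (h3 ρ) hνp
        rw [mul_right_comm, h8] at this
        linarith
      exact pos_of_mul_pos_left (mul_comm _ (ρ β) ▸ h9) (sq_nonneg _)
  · rintro ⟨β, h1, h2, h3⟩
    refine ⟨β, ν, Ideal.isCoprime_iff_exists.2 ⟨ν, Ideal.mem_span_singleton_self ν, 1 - ν,
      by simpa using f.neg_mem hνf, by ring⟩, Ideal.mul_le_left h1, fun φ => ?_, ?_⟩
    · rw [hE.uniq φ]; exact mul_pos h2 hνp
    · rw [hc, ← h3]; ring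
  · obtain ⟨I, hI⟩ := Ideal.dvd_iff_le.2 ((Ideal.span_singleton_le_iff_mem c).2 (last β h))
    exact ⟨I, by rw [hI, mul_comm]⟩

end Pool.Agent.P.MP_29cb78_nt.E
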