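import Pool.Agent.P.MP_29cb78_nt.E.KIface
import Pool.Agent.P.MP_29cb78_nt.Diri

/-! The zeta function of a narrow ray class as a sum over a fundamental domain. -/

namespace Pool.Agent.P.MP_29cb78_nt.E

open NumberField
open scoped Classical

namespace KZeta

theorem fib {B C : Type} (π : B → C) {e : ℕ} (he : e ≠ 0)
    (h : ∀ c, Nat.card {b // π b = c} = e) {g : C → ℂ} (hg : Summable fun c => ‖g c‖) :
    ∑' b, g (π b) = (∑' c, g c) * e := by
  have hf : ∀ c, Finite {b // π b = c} := fun c => Nat.finite_of_card_ne_zero (by rwa [h])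
  have h1 := tsum_mul_tsum_of_summable_norm hg (g := fun _ : Fin e => (1 : ℂ)) .of_finite
  simp only [tsum_fintype, Finset.sum_const, Finset.card_univ, Fintype.card_fin, nsmul_eq_mul,
    mul_one] at h1
  rw [h1, ← (Equiv.sigmaFiberEquiv π).tsum_eq, ← ((Equiv.sigmaCongrRight fun c =>
    Finite.equivFinOfCardEq (h c)).trans (Equiv.sigmaEquivProd C (Fin e))).tsum_eq]
  exact tsum_congr fun x => congrArg g x.2.2

theorem nrm {k : Type} [Field k] [NumberField k] {ρ : k →+* ℝ} {σ : k →+* ℂ} (h : Emb ρ σ)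
    (β : 𝓞 k) (hβ : 0 < ρ β) : ρ β * ‖σ β‖ ^ 2 = Ideal.absNorm (Ideal.span {β}) := by
  have h1 := h.norm β
  rw [← Algebra.coe_norm_int] at h1
  rw [Ideal.absNorm_span_singleton, Nat.cast_natAbs, Int.cast_abs, ← h1, Rat.cast_intCast,
    abs_of_nonneg]
  rw [Rat.cast_intCast] at h1
  rw [h1]
  positivity

end KZeta

theorem k_zeta (h1 : K_FIB) : K_ZETA := by
  intro k _ _ ρ σ hE f b c ν u r hc hν hνc hu hρ hr hN hI
  obtain ⟨e, he, hfib⟩ := h1 k ρ σ hE f c ν u hν hνc hu hρ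
  refine ⟨e, he, fun s hs => ?_⟩
  obtain ⟨d1, -, d3⟩ := diri k s hs
  choose π hπ using hI
  have uq : ∀ {I I' : Ideal (𝓞 k)}, I * c = I' * c → I = I' := mul_right_cancel₀ hc
  let B := {β : 𝓞 k // β - ν ∈ f * c ∧ 1 ≤ ρ β ∧ ρ β < ρ (u : 𝓞 k)}
  let p : B → {I // NRay f I b} := fun β =>
    ⟨π β β.2.1, (hN _).2 ⟨β, β.2.1, one_pos.trans_le β.2.2.1, hπ _ _⟩⟩
  have hp : ∀ I, Nat.card {β // p β = I} = e := fun I => by
    obtain ⟨β₀, b1, b2, b3⟩ := (hN _).1 I.2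
    rw [← hfib β₀ b1 b2]
    refine Nat.card_congr ((Equiv.subtypeSubtypeEquivSubtypeExists _ _).trans
      (Equiv.subtypeEquivRight fun β => ⟨fun ⟨x, y⟩ => ⟨x.1, x.2.1, x.2.2, ?_⟩,
        fun x => ⟨⟨x.1, x.2.1, x.2.2.1⟩, Subtype.ext (uq ?_)⟩⟩))
    · rw [← b3, ← y]; exact (hπ _ x.1).symm
    · exact ((hπ _ x.1).trans x.2.2.2).trans b3.symm
  have hm : ∀ β : 𝓞 k, σ β - σ ν ∈ latt σ (f * c) ↔ β - ν ∈ f * c := fun β => by
    refine ⟨fun ⟨x, hx, h⟩ => ?_, fun h => ⟨_, h, by simp⟩⟩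
    have : algebraMap _ k x = algebraMap _ k (β - ν) := σ.injective (by simpa using h)
    rwa [← RingOfIntegers.coe_injective this]
  let E : B → {z : ℂ // z - σ ν ∈ latt σ (f * c) ∧ 1 ≤ r z ∧ r z < ρ (u : 𝓞 k)} := fun β =>
    ⟨σ β.1, (hm _).2 β.2.1, by rw [hr]; exact β.2.2⟩
  have hEb : Function.Bijective E := by
    refine ⟨fun x y h => Subtype.ext (RingOfIntegers.coe_injective
      (σ.injective (congrArg Subtype.val h))), fun ⟨z, ⟨x, hx, h⟩, h2⟩ => ?_⟩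
    obtain rfl : z = σ ((x + ν : 𝓞 k) : k) := by rw [← sub_add_cancel z (σ ν), ← h]; simp
    exact ⟨⟨x + ν, by simpa using hx, by rwa [hr] at h2⟩, rfl⟩
  have hc' : (Ideal.absNorm c : ℂ) ≠ 0 := by simpa [Ideal.absNorm_eq_zero_iff] using hc
  have hz : Zv (latt σ (f * c)) (σ ν) r (ρ (u : 𝓞 k)) s =
      (∑' β : B, (Ideal.absNorm (p β).1 : ℂ) ^ (-s)) * (Ideal.absNorm c : ℂ) ^ (-s) := by
    rw [Zv, ← (Equiv.ofBijective E hEb).tsum_eq, ← tsum_mul_right]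
    refine tsum_congr fun β => ?_
    change ((r (σ β.1) * ‖σ β.1‖ ^ 2 : ℝ) : ℂ) ^ (-s) = (Ideal.absNorm (π β β.2.1) : ℂ) ^ (-s) * _
    rw [hr, KZeta.nrm hE _ (one_pos.trans_le β.2.2.1), ← hπ _ β.2.1, map_mul,
      ← Complex.natCast_mul_natCast_cpow, Complex.ofReal_natCast, Nat.cast_mul]
  have he' : (e : ℂ) ≠ 0 := by exact_mod_cast he
  have h2 : (Ideal.absNorm c : ℂ) ^ s ≠ 0 := by simp [hc']
  rw [hz, KZeta.fib p he hp (g := fun I => (Ideal.absNorm I.1 : ℂ) ^ (-s)) (d1.subtype _), rayZ, d3,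
    Lser, Complex.cpow_neg (Ideal.absNorm c : ℂ) s]
  erw [tsum_subtype {I | NRay f I b} fun I => (Ideal.absNorm I : ℂ) ^ (-s)]
  field_simp
  exact tsum_congr fun I => by simp [Set.indicator_apply]

end Pool.Agent.P.MP_29cb78_nt.E
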