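import Pool.Agent.P.MP_29cb78_nt.E.KIface

/-!
Gaussian sums at small scales.
-/

namespace Pool.Agent.P.MP_29cb78_nt.E

open Filter Topology MeasureTheory Set
open scoped Classical Real Matrix

noncomputable section

theorem k_est : K_EST := by
  intro ι _ _ M K
  set Q : ℝ := (Fintype.card ι : ℝ) ^ 2 * M ^ 2 + 1 with hQ
  have hQ0 : 0 < Q := by positivity
  set a : ℝ := π / (4 * Q) with ha
  have ha0 : 0 < a := by positivity
  have hs : Summable fun k : {k : ι → ℤ // k ≠ 0} => Real.exp (-a * ∑ i, (k.1 i : ℝ) ^ 2) :=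
    (Theta.summable_pi ha0).subtype _
  refine ⟨K.factorial / a ^ K * ∑' k : {k : ι → ℤ // k ≠ 0}, Real.exp (-a * ∑ i, (k.1 i : ℝ) ^ 2),
    fun t ht B hB hM => ?_⟩
  have ht0 := ht.1
  have h1 : Real.exp (-(a / t ^ 2)) ≤ K.factorial / a ^ K * t ^ K := by
    have h := Real.pow_div_factorial_le_exp (a / t ^ 2) (by positivity) K
    have h2 : (t ^ 2) ^ K ≤ t ^ K :=
      pow_le_pow_left₀ (by positivity) (by nlinarith [ht.2]) K
    rw [Real.exp_neg]
    refine (inv_anti₀ (by positivity) h).trans ?_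
    rw [div_pow, inv_div, div_div_eq_mul_div, mul_div_right_comm]
    gcongr
  have key : ∀ k : {k : ι → ℤ // k ≠ 0},
      Real.exp (-(π / 2) * ∑ j, ((B⁻¹)ᵀ.mulVec (Theta.cst k.1) j) ^ 2) ≤
        K.factorial / a ^ K * t ^ K * Real.exp (-a * ∑ i, (k.1 i : ℝ) ^ 2) := by
    rintro ⟨k, hk⟩
    refine le_trans ?_ (mul_le_mul_of_nonneg_right h1 (Real.exp_pos _).le)
    rw [← Real.exp_add, Real.exp_le_exp]
    set y := (B⁻¹)ᵀ.mulVec (Theta.cst k) with hy
    have e : Theta.cst k = Bᵀ.mulVec y := by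
      rw [hy, Matrix.mulVec_mulVec, ← Matrix.transpose_mul,
        Matrix.nonsing_inv_mul B (isUnit_iff_ne_zero.mpr hB), Matrix.transpose_one,
        Matrix.one_mulVec]
    have hY : 0 ≤ ∑ j, y j ^ 2 := Finset.sum_nonneg fun j _ => sq_nonneg _
    have h2 : ∀ i, (k i : ℝ) ^ 2 ≤ Fintype.card ι * (M * t) ^ 2 * ∑ j, y j ^ 2 := fun i => by
      have e2 : (k i : ℝ) = ∑ j, B j i * y j := congrFun e i
      rw [e2]
      refine (Finset.sum_mul_sq_le_sq_mul_sq _ _ _).trans (mul_le_mul_of_nonneg_right ?_ hY)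
      refine (Finset.sum_le_card_nsmul _ _ ((M * t) ^ 2) fun j _ => ?_).trans (by simp)
      rw [← sq_abs]
      exact pow_le_pow_left₀ (abs_nonneg _) (hM j i) 2
    have h3 : ∑ i, (k i : ℝ) ^ 2 ≤ Q * t ^ 2 * ∑ j, y j ^ 2 := by
      refine (Finset.sum_le_card_nsmul _ _ _ fun i _ => h2 i).trans ?_
      rw [Finset.card_univ, nsmul_eq_mul, hQ]
      nlinarith [mul_nonneg (sq_nonneg t) hY]
    have h4 : 1 ≤ ∑ i, (k i : ℝ) ^ 2 := by
      obtain ⟨i, hi⟩ := Function.ne_iff.1 hk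
      refine le_trans ?_ (Finset.single_le_sum (f := fun i => (k i : ℝ) ^ 2)
        (fun i _ => sq_nonneg _) (Finset.mem_univ i))
      have : 1 ≤ (k i) ^ 2 := (one_le_sq_iff_one_le_abs _).2 (Int.one_le_abs hi)
      exact_mod_cast this
    have h5 : t ^ 2 ≤ 1 := by nlinarith [ht.2]
    have h6 : 1 + t ^ 2 * ∑ i, (k i : ℝ) ^ 2 ≤ 2 * (Q * t ^ 2 * ∑ j, y j ^ 2) := by nlinarith
    have h7 : a / t ^ 2 + a * ∑ i, (k i : ℝ) ^ 2 =
        a / t ^ 2 * (1 + t ^ 2 * ∑ i, (k i : ℝ) ^ 2) := by field_simp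
    have h8 : π / 2 * ∑ j, y j ^ 2 = a / t ^ 2 * (2 * (Q * t ^ 2 * ∑ j, y j ^ 2)) := by
      rw [ha]
      field_simp
      ring
    have h9 := mul_le_mul_of_nonneg_left h6 (show 0 ≤ a / t ^ 2 by positivity)
    simp only
    linarith
  have hs' := hs.mul_left (K.factorial / a ^ K * t ^ K)
  refine ((Summable.of_nonneg_of_le (fun k => (Real.exp_pos _).le) key hs').tsum_le_tsum key
    hs').trans (le_of_eq ?_)
  rw [tsum_mul_left]
  ring

namespace KIso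

lemma core (h1 : K_POIS) (h2 : K_EST) (ι : Type) [Fintype ι] [DecidableEq ι] (M d : ℝ) (K : ℕ)
    (hd : 0 < d) : ∃ C : ℝ, ∀ t ∈ Ioc (0 : ℝ) 1, ∀ B : Matrix ι ι ℝ, (∀ i j, |B i j| ≤ M) →
      d ≤ |B.det| → ∀ x : ι → ℝ, (Summable fun n : ι → ℤ => Theta.G (t • B) (x + Theta.cst n)) ∧
      |∑' n : ι → ℤ, Theta.G (t • B) (x + Theta.cst n) - (t ^ Fintype.card ι * |B.det|)⁻¹| ≤
        C * t ^ K ∧
      ∀ j, (Summable fun n : ι → ℤ =>
          (t • B).mulVec (x + Theta.cst n) j * Theta.G (t • B) (x + Theta.cst n)) ∧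
        |∑' n : ι → ℤ, (t • B).mulVec (x + Theta.cst n) j * Theta.G (t • B) (x + Theta.cst n)| ≤
          C * t ^ K := by
  obtain ⟨C, hC⟩ := h2 ι M (K + Fintype.card ι)
  refine ⟨C / d, fun t ht B hM hB x => ?_⟩
  have ht0 := ht.1
  have e : |(t • B).det| = t ^ Fintype.card ι * |B.det| := by
    rw [Matrix.det_smul, abs_mul, abs_of_pos (by positivity)]
  have hB0 : 0 < |B.det| := hd.trans_le hB
  have h0 : (t • B).det ≠ 0 := by
    rw [← abs_pos, e]
    positivity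
  have h3 := hC t ht (t • B) h0 fun i j => by
    rw [Matrix.smul_apply, smul_eq_mul, abs_mul, abs_of_pos ht0, mul_comm]
    exact mul_le_mul_of_nonneg_right (hM i j) ht0.le
  have h4 : 0 ≤ C := by
    have : 0 ≤ dual (t • B) := tsum_nonneg fun _ => (Real.exp_pos _).le
    exact nonneg_of_mul_nonneg_left (this.trans h3) (by positivity)
  have h5 : |(t • B).det|⁻¹ * dual (t • B) ≤ C / d * t ^ K := by
    refine (mul_le_mul_of_nonneg_left h3 (by positivity)).trans ?_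
    have e2 : (t ^ Fintype.card ι * |B.det|)⁻¹ * (C * t ^ (K + Fintype.card ι)) =
        C / |B.det| * t ^ K := by
      rw [pow_add]
      field_simp
    rw [e, e2]
    gcongr
  obtain ⟨h6, h7⟩ := h1 ι (t • B) x h0
  refine ⟨Theta.summable_G _ h0 x, ?_, fun j => ⟨(h7 j).1, (h7 j).2.trans h5⟩⟩
  rw [← e]
  exact h6.trans h5

end KIso

theorem k_iso1 (h1 : K_POIS) (h2 : K_EST) : K_ISO1 := by
  intro κ K hκ
  obtain ⟨C, hC⟩ := KIso.core h1 h2 (Fin 1) κ κ K hκ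
  refine ⟨C, fun t ht x => ?_⟩
  obtain ⟨h3, h4, -⟩ := hC t ht !![κ] (by simp [abs_of_pos hκ]) (by simp [abs_of_pos hκ]) ![x]
  have e : ∀ n : Fin 1 → ℤ, Theta.G (t • !![κ]) (![x] + Theta.cst n) =
      (fun k : ℤ => Real.exp (-π * (κ * t * (x + k)) ^ 2)) (Equiv.funUnique (Fin 1) ℤ n) := by
    intro n
    simp [Theta.G, Theta.cst, Matrix.mulVec, dotProduct]
    ring
  simp only [e] at h3 h4
  refine ⟨(Equiv.funUnique (Fin 1) ℤ).summable_iff.1 h3, ?_⟩
  rw [Equiv.tsum_eq (Equiv.funUnique (Fin 1) ℤ)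
    fun k : ℤ => Real.exp (-π * (κ * t * (x + k)) ^ 2)] at h4
  simpa [abs_of_pos hκ, mul_comm] using h4

theorem k_iso2 (h1 : K_POIS) (h2 : K_EST) : K_ISO2 := by
  intro γ β K hγ
  set B : Matrix (Fin 2) (Fin 2) ℝ := !![γ.re, β.re; γ.im, β.im] with hB
  have h0 : B.det ≠ 0 := by
    rw [hB, Matrix.det_fin_two_of]
    intro h
    apply hγ
    rw [Complex.div_im, ← sub_div]
    have : β.im * γ.re - β.re * γ.im = 0 := by linarith
    rw [this, zero_div]
  obtain ⟨M, hM⟩ := (Set.finite_range fun p : Fin 2 × Fin 2 => |B p.1 p.2|).bddAbove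
  obtain ⟨C, hC⟩ := KIso.core h1 h2 (Fin 2) M |B.det| K (abs_pos.2 h0)
  refine ⟨|B.det|⁻¹, C, fun t ht ζ => ?_⟩
  obtain ⟨h3, h4, -⟩ := hC t ht B (fun i j => hM ⟨(i, j), rfl⟩) le_rfl (B⁻¹.mulVec ![ζ.re, ζ.im])
  have e : ∀ n : Fin 2 → ℤ, Theta.G (t • B) (B⁻¹.mulVec ![ζ.re, ζ.im] + Theta.cst n) =
      (fun p : ℤ × ℤ => Real.exp (-π * t ^ 2 * ‖ζ + p.1 * γ + p.2 * β‖ ^ 2))
        (finTwoArrowEquiv ℤ n) := by
    intro n
    rw [Theta.G, Matrix.smul_mulVec, Matrix.mulVec_add, Matrix.mulVec_mulVec,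
      Matrix.mul_nonsing_inv B (isUnit_iff_ne_zero.mpr h0), Matrix.one_mulVec]
    simp [hB, Theta.cst, dotProduct, Complex.sq_norm, Complex.normSq_apply]
    ring
  simp only [e] at h3 h4
  refine ⟨(finTwoArrowEquiv ℤ).summable_iff.1 h3, ?_⟩
  rw [Equiv.tsum_eq (finTwoArrowEquiv ℤ)
    fun p : ℤ × ℤ => Real.exp (-π * t ^ 2 * ‖ζ + p.1 * γ + p.2 * β‖ ^ 2), Fintype.card_fin,
    mul_inv, mul_comm (t ^ 2)⁻¹, ← div_eq_mul_inv] at h4
  exact h4

theorem k_iso3 (h1 : K_POIS) (h2 : K_EST) : K_ISO3 := by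
  intro M d K hd
  obtain ⟨C, hC⟩ := KIso.core h1 h2 (Fin 3) M d K hd
  refine ⟨2 * C, fun t ht r z x hr hz hdet => ?_⟩
  set B : Matrix (Fin 3) (Fin 3) ℝ := Matrix.of ![r, fun i => (z i).re, fun i => (z i).im] with hB
  obtain ⟨-, h4, h5⟩ := hC t ht B (fun i j => by
    fin_cases i
    · exact hr j
    · exact (Complex.abs_re_le_norm _).trans (hz j)
    · exact (Complex.abs_im_le_norm _).trans (hz j)) hdet x
  have e0 : ∀ n : Z3, (t • B).mulVec (x + Theta.cst n) 0 = t * lr r x n := fun n => by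
    simp [hB, lr, Theta.cst, Matrix.mulVec, dotProduct, Finset.mul_sum, mul_assoc]
  have e1 : ∀ n : Z3, (t • B).mulVec (x + Theta.cst n) 1 = t * (lc z x n).re := fun n => by
    simp [hB, lc, Theta.cst, Matrix.mulVec, dotProduct, Finset.mul_sum, mul_assoc]
  have e2 : ∀ n : Z3, (t • B).mulVec (x + Theta.cst n) 2 = t * (lc z x n).im := fun n => by
    simp [hB, lc, Theta.cst, Matrix.mulVec, dotProduct, Finset.mul_sum, mul_assoc]
  have e : ∀ n : Z3, Theta.G (t • B) (x + Theta.cst n) =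
      Real.exp (-π * (t * lr r x n) ^ 2) * Real.exp (-π * t ^ 2 * ‖lc z x n‖ ^ 2) := fun n => by
    rw [Theta.G, Fin.sum_univ_three, e0, e1, e2, ← Real.exp_add, Complex.sq_norm,
      Complex.normSq_apply]
    congr 1
    ring
  have hC0 : 0 ≤ C * t ^ K := (abs_nonneg _).trans h4
  obtain ⟨-, a0⟩ := h5 0
  obtain ⟨s1, a1⟩ := h5 1
  obtain ⟨s2, a2⟩ := h5 2
  simp only [e, e0, e1, e2, Fintype.card_fin] at h4 a0 s1 a1 s2 a2
  refine ⟨h4.trans (by linarith), ?_, fun w => ?_⟩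
  · simp only [mul_assoc] at a0 ⊢
    linarith
  · have e3 : ∀ n : Z3, t * (w * lc z x n).re * Real.exp (-π * (t * lr r x n) ^ 2) *
        Real.exp (-π * t ^ 2 * ‖lc z x n‖ ^ 2) =
        w.re * (t * (lc z x n).re * (Real.exp (-π * (t * lr r x n) ^ 2) *
          Real.exp (-π * t ^ 2 * ‖lc z x n‖ ^ 2))) -
        w.im * (t * (lc z x n).im * (Real.exp (-π * (t * lr r x n) ^ 2) *
          Real.exp (-π * t ^ 2 * ‖lc z x n‖ ^ 2))) := fun n => by
      rw [Complex.mul_re]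
      ring
    simp only [e3]
    rw [(s1.mul_left _).tsum_sub (s2.mul_left _), tsum_mul_left, tsum_mul_left]
    refine (abs_sub _ _).trans ?_
    rw [abs_mul, abs_mul]
    have b1 := mul_le_mul (Complex.abs_re_le_norm w) a1 (abs_nonneg _) (norm_nonneg _)
    have b2 := mul_le_mul (Complex.abs_im_le_norm w) a2 (abs_nonneg _) (norm_nonneg _)
    linarith

end

end Pool.Agent.P.MP_29cb78_nt.E
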