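import Pool.Agent.P.MP_29cb78_nt.E.KIface

/-!
Poisson summation with a shift.
-/

namespace Pool.Agent.P.MP_29cb78_nt.E

open Filter Topology MeasureTheory Set
open scoped Classical Real Matrix

noncomputable section

namespace KPois

open Theta

variable {ι : Type} [Fintype ι] [DecidableEq ι]

lemma det_ne (B : Matrix ι ι ℝ) (hB : B.det ≠ 0) : ((B⁻¹)ᵀ).det ≠ 0 := by
  rw [Matrix.det_transpose]
  exact (Matrix.isUnit_nonsing_inv_det B (isUnit_iff_ne_zero.mpr hB)).ne_zero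

lemma sumG (B : Matrix ι ι ℝ) (hB : B.det ≠ 0) (x : ι → ℝ) {a : ℝ} (ha : 0 < a) :
    Summable fun n : ι → ℤ => Real.exp (-a * ∑ j, (B.mulVec (x + cst n) j) ^ 2) := by
  have hs : 0 < Real.sqrt (a / π) := Real.sqrt_pos.2 (by positivity)
  have h := summable_G (Real.sqrt (a / π) • B)
    (by rw [Matrix.det_smul]; exact mul_ne_zero (pow_ne_zero _ hs.ne') hB) x
  convert h using 2 with n
  rw [G]
  congr 1
  simp only [Matrix.smul_mulVec, Pi.smul_apply, smul_eq_mul, mul_pow,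
    Real.sq_sqrt (show 0 ≤ a / π by positivity), ← Finset.mul_sum]
  field_simp

lemma poisson (B : Matrix ι ι ℝ) (hB : B.det ≠ 0) (x : ι → ℝ) :
    HasSum (fun k : ι → ℤ => |B.det|⁻¹ * G (B⁻¹)ᵀ (cst k) * Real.cos (2 * π * (cst k ⬝ᵥ x)))
      (∑' m : ι → ℤ, G B (x + cst m)) := by
  let f : C(UnitAddTorus ι, ℂ) := ⟨FT B, FT_cont B hB⟩
  have hco : ∀ n, UnitAddTorus.mFourierCoeff f n = ((|B.det|⁻¹ * G (B⁻¹)ᵀ (cst n) : ℝ) : ℂ) :=
    fun n => coeff B hB n
  have hsum : Summable (UnitAddTorus.mFourierCoeff f) := by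
    rw [funext hco]
    have h := summable_G _ (det_ne B hB) 0
    simp only [zero_add] at h
    exact Complex.summable_ofReal.mpr (h.mul_left _)
  have h := UnitAddTorus.hasSum_mFourier_series_apply_of_summable hsum
    (fun i => (x i : UnitAddCircle))
  have hf0 : f (fun i => (x i : UnitAddCircle)) = ((∑' m : ι → ℤ, G B (x + cst m) : ℝ) : ℂ) := by
    change FT B _ = _
    rw [FT_mk, F, Complex.ofReal_tsum]
  rw [hf0] at h
  have h2 := Complex.hasSum_re h
  rw [Complex.ofReal_re] at h2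
  convert h2 using 2 with k
  rw [hco, smul_eq_mul, Complex.re_ofReal_mul]
  congr 1
  simp only [UnitAddTorus.mFourier, ContinuousMap.coe_mk, fourier_coe_apply, ← Complex.exp_sum]
  rw [← Complex.exp_ofReal_mul_I_re]
  congr 2
  simp only [dotProduct, cst]
  push_cast
  simp only [Finset.mul_sum, Finset.sum_mul]
  refine Finset.sum_congr rfl fun i _ => ?_
  ring

lemma le_dual (B : Matrix ι ι ℝ) (hB : B.det ≠ 0) {f : (ι → ℤ) → ℝ} {a C : ℝ} (hf : HasSum f a)
    (h0 : f 0 = 0)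
    (hb : ∀ k, |f k| ≤ C * Real.exp (-(π / 2) * ∑ j, ((B⁻¹)ᵀ.mulVec (cst k) j) ^ 2)) :
    |a| ≤ C * dual B := by
  have h1 : HasSum (f ∘ ((↑) : {k : ι → ℤ | k ≠ 0} → ι → ℤ)) a := by
    refine (hasSum_subtype_iff_of_support_subset ?_).2 hf
    intro k hk hk0
    exact hk (by rw [hk0, h0])
  have h2 := sumG _ (det_ne B hB) 0 (a := π / 2) (by positivity)
  simp only [zero_add] at h2
  have h3 := ((h2.subtype {k : ι → ℤ | k ≠ 0}).hasSum).mul_left C
  exact h1.norm_le_of_bounded h3 fun k => hb k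

lemma dual_nonneg (B : Matrix ι ι ℝ) : 0 ≤ dual B := tsum_nonneg fun _ => (Real.exp_pos _).le

lemma abs_mul_exp {y S : ℝ} (h : y ^ 2 ≤ S) :
    |y| * Real.exp (-π * S) ≤ Real.exp (-(π / 2) * S) := by
  have h1 : |y| ≤ Real.exp (π / 2 * S) := by
    have h2 := Real.add_one_le_exp (π / 2 * S)
    have h3 := Real.pi_gt_three
    have h4 : |y| ^ 2 ≤ S := by rwa [sq_abs]
    nlinarith [sq_nonneg (|y| / 2 - 1), sq_nonneg |y|]
  calc |y| * Real.exp (-π * S) ≤ Real.exp (π / 2 * S) * Real.exp (-π * S) := by gcongr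
    _ = _ := by rw [← Real.exp_add]; congr 1; ring

omit [DecidableEq ι] in
lemma sq_le (v : ι → ℝ) (j : ι) : v j ^ 2 ≤ ∑ i, v i ^ 2 :=
  Finset.single_le_sum (f := fun i => v i ^ 2) (fun _ _ => sq_nonneg _) (Finset.mem_univ j)

lemma even (B : Matrix ι ι ℝ) (hB : B.det ≠ 0) (x : ι → ℝ) :
    |∑' n : ι → ℤ, G B (x + cst n) - |B.det|⁻¹| ≤ |B.det|⁻¹ * dual B := by
  have h := (poisson B hB x).sub (hasSum_ite_eq (0 : ι → ℤ) (|B.det|⁻¹))
  have hc : cst (0 : ι → ℤ) = 0 := by funext i; simp [cst]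
  refine le_dual B hB h ?_ fun k => ?_
  · simp [hc, G]
  · split_ifs with hk
    · subst hk
      simp [hc, G]
    · rw [sub_zero, abs_mul, abs_mul, abs_of_nonneg (inv_nonneg.2 (abs_nonneg _)),
        abs_of_pos (G_pos _ _), mul_assoc]
      gcongr
      refine (mul_le_of_le_one_right (G_pos _ _).le (Real.abs_cos_le_one _)).trans ?_
      apply Real.exp_le_exp.2
      have : 0 ≤ ∑ j, ((B⁻¹)ᵀ.mulVec (cst k) j) ^ 2 := Finset.sum_nonneg fun _ _ => sq_nonneg _
      nlinarith [Real.pi_pos]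

lemma sum_shift (v : ι → ℝ) (j : ι) (s : ℝ) :
    ∑ i, (v + s • Pi.single (M := fun _ => ℝ) j 1) i ^ 2 = ∑ i, v i ^ 2 + 2 * s * v j + s ^ 2 := by
  have : ∀ i, (v + s • Pi.single (M := fun _ => ℝ) j 1) i ^ 2 =
      v i ^ 2 + if i = j then 2 * s * v j + s ^ 2 else 0 := by
    intro i
    by_cases h : i = j
    · subst h; simp; ring
    · simp [h]
  simp only [this, Finset.sum_add_distrib, Finset.sum_ite_eq', Finset.mem_univ, if_true]
  ring

lemma odd (B : Matrix ι ι ℝ) (hB : B.det ≠ 0) (x : ι → ℝ) (j : ι) :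
    |∑' n : ι → ℤ, B.mulVec (x + cst n) j * G B (x + cst n)| ≤ |B.det|⁻¹ * dual B := by
  set h : ι → ℝ := B⁻¹.mulVec (Pi.single j 1) with hh
  have hBh : B.mulVec h = Pi.single j 1 := by
    rw [hh, Matrix.mulVec_mulVec, Matrix.mul_nonsing_inv B (isUnit_iff_ne_zero.mpr hB),
      Matrix.one_mulVec]
  have hkh : ∀ k : ι → ℤ, cst k ⬝ᵥ h = (B⁻¹)ᵀ.mulVec (cst k) j := by
    intro k
    rw [hh, Matrix.dotProduct_mulVec, Matrix.mulVec_transpose, dotProduct_single, mul_one]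
  set v : (ι → ℤ) → ι → ℝ := fun n => B.mulVec (x + cst n) with hv
  set g : (ι → ℤ) → ℝ → ℝ := fun n s =>
    Real.exp (-π * (∑ i, v n i ^ 2 + 2 * s * v n j + s ^ 2)) with hg
  have hgG : ∀ n s, G B (x + s • h + cst n) = g n s := by
    intro n s
    rw [G, add_right_comm, Matrix.mulVec_add, Matrix.mulVec_smul, hBh, sum_shift]
  have hd : HasDerivAt (fun s => ∑' n, g n s) (∑' n, g n 0 * (-π * (2 * v n j + 2 * 0))) 0 := by
    refine hasDerivAt_tsum_of_isPreconnected (t := Ioo (-1 : ℝ) 1) (y₀ := 0)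
      (g' := fun n s => g n s * (-π * (2 * v n j + 2 * s)))
      (u := fun n => 2 * π * Real.exp (π / 2) * Real.exp (-(π / 4) * ∑ i, v n i ^ 2))
      ((sumG B hB x (a := π / 4) (by positivity)).mul_left _) isOpen_Ioo isPreconnected_Ioo
      (fun n s _ => ?_) (fun n s hs => ?_) (by simp) ?_ (by simp)
    · refine HasDerivAt.exp (HasDerivAt.const_mul _ ?_)
      have h1 := (((hasDerivAt_id s).const_mul 2).mul_const (v n j)).const_add (∑ i, v n i ^ 2)
      exact (h1.add (hasDerivAt_pow 2 s)).congr_deriv (by simp)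
    · have h1 : (v n j + s) ^ 2 ≤ ∑ i, v n i ^ 2 + 2 * s * v n j + s ^ 2 := by
        nlinarith [sq_le (v n) j]
      have h2 := abs_mul_exp h1
      have h3 : s ^ 2 ≤ 1 := by nlinarith [hs.1, hs.2]
      have h4 : Real.exp (-(π / 2) * (∑ i, v n i ^ 2 + 2 * s * v n j + s ^ 2)) ≤
          Real.exp (π / 2) * Real.exp (-(π / 4) * ∑ i, v n i ^ 2) := by
        rw [← Real.exp_add]
        apply Real.exp_le_exp.2
        have h5 : (∑ i, v n i ^ 2) / 2 - 1 ≤ ∑ i, v n i ^ 2 + 2 * s * v n j + s ^ 2 := by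
          nlinarith [sq_le (v n) j, sq_nonneg (v n j + 2 * s)]
        nlinarith [Real.pi_pos]
      have h6 : g n s * (-π * (2 * v n j + 2 * s)) = -(2 * π) * ((v n j + s) * g n s) := by ring
      rw [h6, Real.norm_eq_abs, abs_mul, abs_neg, abs_of_pos (by positivity : 0 < 2 * π), abs_mul,
        abs_of_pos (Real.exp_pos _), mul_assoc (2 * π)]
      exact mul_le_mul_of_nonneg_left (h2.trans h4) (by positivity)
    · have := summable_G B hB x
      simpa only [← hgG, zero_smul, add_zero] using this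
  have hlip : ∀ s : ℝ, ‖(∑' n, g n s) - ∑' n, g n 0‖ ≤
      2 * π * (|B.det|⁻¹ * dual B) * ‖s - 0‖ := by
    intro s
    have h1 := (poisson B hB (x + s • h)).sub (poisson B hB (x + (0 : ℝ) • h))
    simp only [hgG] at h1
    have hc : cst (0 : ι → ℤ) = 0 := by funext i; simp [cst]
    have h2 := le_dual B hB (C := 2 * π * |B.det|⁻¹ * |s|) h1 (by simp [hc]) fun k => by
      have h3 := Real.abs_cos_sub_cos_le (2 * π * (cst k ⬝ᵥ (x + s • h)))
        (2 * π * (cst k ⬝ᵥ (x + (0 : ℝ) • h)))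
      have h4 : 2 * π * (cst k ⬝ᵥ (x + s • h)) - 2 * π * (cst k ⬝ᵥ (x + (0 : ℝ) • h)) =
          2 * π * s * (B⁻¹)ᵀ.mulVec (cst k) j := by
        rw [← hkh]
        simp only [dotProduct_add, dotProduct_smul, smul_eq_mul]
        ring
      rw [h4, abs_mul, abs_mul, abs_of_pos (by positivity : 0 < 2 * π)] at h3
      have h5 := abs_mul_exp (sq_le ((B⁻¹)ᵀ.mulVec (cst k)) j)
      rw [← mul_sub, abs_mul, abs_mul, abs_of_nonneg (inv_nonneg.2 (abs_nonneg _)),
        abs_of_pos (G_pos _ _)]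
      calc _ ≤ |B.det|⁻¹ * G (B⁻¹)ᵀ (cst k) * (2 * π * |s| * |(B⁻¹)ᵀ.mulVec (cst k) j|) := by
            have := G_pos (B⁻¹)ᵀ (cst k)
            gcongr
        _ = 2 * π * |B.det|⁻¹ * |s| * (|(B⁻¹)ᵀ.mulVec (cst k) j| * G (B⁻¹)ᵀ (cst k)) := by ring
        _ ≤ _ := mul_le_mul_of_nonneg_left h5 (by positivity)
    rw [sub_zero, Real.norm_eq_abs, Real.norm_eq_abs]
    linarith
  have hD := dual_nonneg B
  have h7 := hd.le_of_lip' (by positivity) (Eventually.of_forall hlip)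
  have h8 : ∑' n, g n 0 * (-π * (2 * v n j + 2 * 0)) =
      -(2 * π) * ∑' n : ι → ℤ, B.mulVec (x + cst n) j * G B (x + cst n) := by
    rw [← tsum_mul_left]
    refine tsum_congr fun n => ?_
    rw [← hgG, zero_smul, add_zero]
    ring
  rw [h8, Real.norm_eq_abs, abs_mul, abs_neg, abs_of_pos (by positivity : 0 < 2 * π)] at h7
  exact le_of_mul_le_mul_left h7 (by positivity)

end KPois

theorem k_pois : K_POIS := by
  intro ι _ _ B x hB
  refine ⟨KPois.even B hB x, fun j => ⟨?_, KPois.odd B hB x j⟩⟩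
  refine Summable.of_norm_bounded (KPois.sumG B hB x (a := π / 2) (by positivity)) fun n => ?_
  rw [Real.norm_eq_abs, abs_mul, abs_of_pos (Theta.G_pos _ _)]
  exact KPois.abs_mul_exp (KPois.sq_le _ j)

end

end Pool.Agent.P.MP_29cb78_nt.E
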