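import Pool.Agent.P.MP_29cb78_nt.E.Basic

/-!
The normalised values are algebraic.
-/

namespace Pool.Agent.P.MP_29cb78_nt.E

open scoped Classical

noncomputable section

namespace Alg

/-- The logarithmic derivative. -/
def ld (D : Derivation ℚ ℂ ℂ) (z : ℂ) : ℂ := D z / z

variable (D : Derivation ℚ ℂ ℂ)

lemma ld_mul {x y : ℂ} (hx : x ≠ 0) (hy : y ≠ 0) : ld D (x * y) = ld D x + ld D y := by
  simp only [ld, Derivation.leibniz, smul_eq_mul]
  field_simp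
  ring

lemma ld_one : ld D 1 = 0 := by simp [ld]

lemma ld_inv {x : ℂ} (hx : x ≠ 0) : ld D x⁻¹ = -ld D x := by
  have := ld_mul D hx (inv_ne_zero hx)
  rw [mul_inv_cancel₀ hx, ld_one] at this
  linear_combination -this

lemma ld_div {x y : ℂ} (hx : x ≠ 0) (hy : y ≠ 0) : ld D (x / y) = ld D x - ld D y := by
  rw [div_eq_mul_inv, ld_mul D hx (inv_ne_zero hy), ld_inv D hy]; ring

lemma ld_pow {x : ℂ} (hx : x ≠ 0) (n : ℕ) : ld D (x ^ n) = n * ld D x := by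
  induction n with
  | zero => simp [ld_one]
  | succ n ih => rw [pow_succ, ld_mul D (pow_ne_zero _ hx) hx, ih]; push_cast; ring

lemma ld_zpow {x : ℂ} (hx : x ≠ 0) (n : ℤ) : ld D (x ^ n) = n * ld D x := by
  obtain ⟨m, rfl | rfl⟩ := n.eq_nat_or_neg
  · simp [ld_pow D hx]
  · simp [ld_inv D (pow_ne_zero _ hx), ld_pow D hx]

/-- Half the logarithmic derivative of the exponential. -/
def lx : ℂ →+ ℂ := AddMonoidHom.mk' (fun z => ld D (Complex.exp z) / 2) fun x y => by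
  rw [Complex.exp_add, ld_mul D (Complex.exp_ne_zero _) (Complex.exp_ne_zero _)]; ring

lemma kap_comm {H : Type} [AddCommGroup H] (d : H → ℂ) (s x y : H) : kap d s x y = kap d s y x := by
  simp only [kap]
  rw [show s + y + x = s + x + y by abel, show s + y - x = s - x + y by abel,
    show s - y + x = s + x - y by abel, show s - y - x = s - x - y by abel]
  ring

lemma avg {H : Type} [AddCommGroup H] (X : Finset H) (a c : ℂ) (μ d : H → ℂ) (s₁ s₂ s₃ w : H)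
    (Φ : H → H → H → ℂ) (hc : c ≠ 0)
    (h₃ : ∀ x ∈ X, ∀ y ∈ X, ∑ z ∈ X, μ z * Φ x y z = c * Face a s₁ s₂ s₃ w x y)
    (h₁ : ∀ y ∈ X, ∀ z ∈ X, ∑ x ∈ X, μ x * Φ x y z = c * Face a s₂ s₃ s₁ w y z)
    (h₂ : ∀ z ∈ X, ∀ x ∈ X, ∑ y ∈ X, μ y * Φ x y z = c * Face a s₃ s₁ s₂ w z x)
    (h₀ : ∀ x ∈ X, ∀ y ∈ X, ∑ z ∈ X, μ z * Φ x y z * EE d s₁ s₂ s₃ w x y z = 0) :
    Tm X a μ d s₁ s₂ s₃ w + Tm X a μ d s₂ s₃ s₁ w + Tm X a μ d s₃ s₁ s₂ w = 0 := by
  apply mul_left_cancel₀ hc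
  have e₃ : c * Tm X a μ d s₁ s₂ s₃ w = ∑ x ∈ X, ∑ y ∈ X, ∑ z ∈ X, μ x * μ y * μ z * Φ x y z *
      (kap d s₁ w x + kap d s₃ x y - d (s₃ + s₃)) := by
    rw [Tm, Finset.mul_sum]
    refine Finset.sum_congr rfl fun x hx => ?_
    rw [Finset.mul_sum]
    refine Finset.sum_congr rfl fun y hy => ?_
    have := h₃ x hx y hy
    calc _ = μ x * μ y * (c * Face a s₁ s₂ s₃ w x y) *
          (kap d s₁ w x + kap d s₃ x y - d (s₃ + s₃)) := by ring
      _ = _ := by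
        rw [← this, Finset.mul_sum, Finset.sum_mul]
        exact Finset.sum_congr rfl fun z _ => by ring
  have e₁ : c * Tm X a μ d s₂ s₃ s₁ w = ∑ x ∈ X, ∑ y ∈ X, ∑ z ∈ X, μ x * μ y * μ z * Φ x y z *
      (kap d s₂ w y + kap d s₁ y z - d (s₁ + s₁)) := by
    rw [Finset.sum_comm, Tm, Finset.mul_sum]
    refine Finset.sum_congr rfl fun y hy => ?_
    rw [Finset.sum_comm, Finset.mul_sum]
    refine Finset.sum_congr rfl fun z hz => ?_
    have := h₁ y hy z hz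
    calc _ = μ y * μ z * (c * Face a s₂ s₃ s₁ w y z) *
          (kap d s₂ w y + kap d s₁ y z - d (s₁ + s₁)) := by ring
      _ = _ := by
        rw [← this, Finset.mul_sum, Finset.sum_mul]
        exact Finset.sum_congr rfl fun x _ => by ring
  have e₂ : c * Tm X a μ d s₃ s₁ s₂ w = ∑ x ∈ X, ∑ y ∈ X, ∑ z ∈ X, μ x * μ y * μ z * Φ x y z *
      (kap d s₃ w z + kap d s₂ z x - d (s₂ + s₂)) := by
    rw [Tm, Finset.sum_comm, Finset.mul_sum]
    refine Finset.sum_congr rfl fun x hx => ?_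
    rw [Finset.sum_comm, Finset.mul_sum]
    refine Finset.sum_congr rfl fun z hz => ?_
    have := h₂ z hz x hx
    calc _ = μ z * μ x * (c * Face a s₃ s₁ s₂ w z x) *
          (kap d s₃ w z + kap d s₂ z x - d (s₂ + s₂)) := by ring
      _ = _ := by
        rw [← this, Finset.mul_sum, Finset.sum_mul]
        exact Finset.sum_congr rfl fun y _ => by ring
  rw [mul_add, mul_add, e₃, e₁, e₂, mul_zero, ← Finset.sum_add_distrib, ← Finset.sum_add_distrib]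
  refine Finset.sum_eq_zero fun x hx => ?_
  rw [← Finset.sum_add_distrib, ← Finset.sum_add_distrib]
  refine Finset.sum_eq_zero fun y hy => ?_
  rw [← Finset.sum_add_distrib, ← Finset.sum_add_distrib]
  have := h₀ x hx y hy
  calc _ = μ x * μ y * ∑ z ∈ X, μ z * Φ x y z * EE d s₁ s₂ s₃ w x y z := by
        rw [Finset.mul_sum]
        refine Finset.sum_congr rfl fun z _ => ?_
        rw [EE, kap_comm d s₂ z x]
        ring
    _ = 0 := by rw [this, mul_zero]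

lemma Gen_cyc {H : Type} [AddCommGroup H] {s₁ s₂ s₃ w : H} (h : Gen s₁ s₂ s₃ w) :
    Gen s₂ s₃ s₁ w :=
  ⟨by rw [← h.sum]; abel, h.hw, h.g₂, h.g₃, h.g₁, h.d₂, h.d₃, h.d₁⟩

variable {S : Setup}

lemma KK_comm (F : S.A → ℂ) (s x y : S.A) : S.KK F s x y = S.KK F s y x := by
  simp only [Setup.KK]
  rw [show s + y + x = s + x + y by abel, show s + y - x = s - x + y by abel,
    show s - y + x = s + x - y by abel, show s - y - x = s - x - y by abel]
  ring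

lemma Φ_cyc (F : S.A → ℂ) (s₁ s₂ s₃ w x y z : S.A) :
    S.Φ F s₂ s₃ s₁ w y z x = S.Φ F s₁ s₂ s₃ w x y z := by
  simp only [Setup.Φ]
  rw [KK_comm F s₂ z x, KK_comm F s₃ y x]
  ring

lemma KK_ne {F : S.A → ℂ} (hF : ∀ x, F x ≠ 0) (s x y : S.A) : S.KK F s x y ≠ 0 := by
  simp [Setup.KK, hF]

lemma Face_alg {H : Type} [AddCommGroup H] {a : ℂ} (ha : IsAlgebraic ℚ a) (s₁ s₂ s₃ w x y : H) :
    IsAlgebraic ℚ (Face a s₁ s₂ s₃ w x y) := by
  rw [Face]
  refine (ha.pow _).sub ?_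
  split_ifs
  · exact ha.mul ((ha.sub isAlgebraic_one).pow _)
  · exact isAlgebraic_zero

lemma μ_alg (g : ℂ ⧸ S.L) : IsAlgebraic ℚ (S.μ g) := by
  rw [Setup.μ]
  refine IsAlgebraic.add ?_ ?_ <;> split_ifs
  · simpa using (S.ε_alg.sub isAlgebraic_one).inv
  · exact isAlgebraic_zero
  · simpa using (S.ε_alg.add isAlgebraic_one).inv
  · exact isAlgebraic_zero

end Alg

open Alg

theorem alg_thm (hth : S_TH) (hfb : S_FB) (hgrp : S_GRP) (hst6 : S_ST6) (hcval : S_CVAL)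
    (hface1 : S_FACE1) (hface2 : S_FACE2) (hup : S_UP) (hgauge : S_GAUGE) (hrig1 : S_RIG1)
    (hrig2 : S_RIG2) (hder : S_DER) : S_ALG := by
  intro S hcount G hG v hv hvL
  have hT := hth S
  have hF := hfb S hT G hG
  obtain ⟨⟨XP, XQ, X, hX, hfs⟩, hrepP, hrepQ, hclsP, -, -, -, h3⟩ := hgrp S
  obtain ⟨hfs, hne⟩ := hfs hcount
  obtain ⟨c, hc⟩ := hst6 S hT G hG hF
  have hcv := hcval S hT G hG hF c hc
  obtain ⟨hU1, hU2, hU3, hU4, hU5, hU6, hU7⟩ := hup S hT G hG hF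
  have ha : IsAlgebraic ℚ S.ε⁻¹ := S.ε_alg.inv
  have hf0 : IsAlgebraic ℚ (S.fb G 0) := by
    have h := hF.reflD 0 (by simp [Setup.Diag])
    rw [neg_zero, if_pos S.lat_zero, ← sq] at h
    refine IsAlgebraic.of_pow two_pos ?_
    rw [h]
    simpa [Setup.χ] using ha
  have hcne : c ≠ 0 := by rw [hcv]; simpa using hF.ne 0
  have hcalg : IsAlgebraic ℚ c := by
    rw [hcv]
    refine IsAlgebraic.mul ?_ hf0
    simpa using (isAlgebraic_natCast (R := ℚ) (A := ℂ) 2).neg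
  -- all faces
  have hface : ∀ s₁ s₂ s₃ w : S.A, S.Diag s₁ → S.Diag s₂ → S.Diag s₃ → S.Diag w →
      s₁ + s₂ + s₃ = 0 → Gen (S.cls s₁) (S.cls s₂) (S.cls s₃) (S.cls w) → ∀ x ∈ X, ∀ y ∈ X,
      ∑ z ∈ X, S.μ z * S.Φ (S.fb G) s₁ s₂ s₃ w (S.rep x) (S.rep y) (S.rep z) =
        c * Face S.ε⁻¹ (S.cls s₁) (S.cls s₂) (S.cls s₃) (S.cls w) x y := by
    intro s₁ s₂ s₃ w h₁ h₂ h₃ hw hs hg x hx y hy
    by_cases ht : Nz (S.cls s₁) (S.cls w) x ≠ 0 ∧ Nz (S.cls s₂) (S.cls w) y ≠ 0 ∧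
        Nz (S.cls s₃) x y ≠ 0
    · rw [hcv]
      exact hface2 S hT G hG hF hcount s₁ s₂ s₃ w X h₁ h₂ h₃ hw hs hg hX x hx y hy ht.1 ht.2.1 ht.2.2
    · rw [hface1 S hT G hF c hc s₁ s₂ s₃ w X h₁ h₂ h₃ hw hs hg hX x hx y hy ht, Face, if_neg ht,
        sub_zero]
  have hrep : ∀ g ∈ X, (S.Diag (S.rep g) ∨ S.Anti (S.rep g)) ∧ S.cls (S.rep g) = g := by
    intro g hg
    by_cases hp : g ∈ S.Gp
    · exact ⟨Or.inl (hrepP g hp).1, (hrepP g hp).2⟩
    · have hq := ((hX g).1 hg).resolve_left hp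
      exact ⟨Or.inr (hrepQ g hq hp).1, (hrepQ g hq hp).2.1⟩
  have hV : ∀ x, S.Diag x ∨ S.Anti x → x ∈ S.V := fun x hx => hx.elim (fun h => (hU3 x h).1) (hU4 x)
  refine hder.1 _ fun D => ?_
  have hD0 : ∀ z, IsAlgebraic ℚ z → D z = 0 := fun z hz => hder.2 z D hz
  -- the gauge
  set d₀ : S.V → ℂ := fun x => ld D (S.UU G x) / 2 with hd₀
  set d : S.V → ℂ := fun x => (6 * (S.N : ℂ) ^ 3)⁻¹ * ∑ j : Fin 4, cc S.N j * d₀ (tt S.N j • x)
    with hd
  set Λ : AddSubgroup S.V := (S.L.comap S.x₁).comap S.V.subtype with hΛ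
  obtain ⟨hdo, hdp, hdE⟩ := hgauge S.V Λ S.N d₀ d S.N_ne (fun x => hU6 x x.2) (fun x => by
      have h1 := (hU1 x x.2).1
      have h2 := (hU1 _ (-x).2).1
      have h3 := ld_mul D h1 h2
      have h4 : ld D (S.UU G x * S.UU G (-x : S.V)) = 0 := by
        have h5 : D (S.UU G x * S.UU G (-x : S.V)) = 0 := hD0 _ (hU1 x x.2).2
        rw [ld, h5, zero_div]
      simp only [hd₀]
      linear_combination (h4 - h3) / 2)
    (fun ω hω => by
      obtain ⟨b, l, c', hb, h⟩ := hU2 ω hω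
      refine ⟨b.compr₂ (lx D), (lx D).comp l, lx D c', fun x y => by simp [hb x y], fun x => ?_⟩
      have h1 : d₀ (x + ω) = ld D (S.UU G (x + ω)) / 2 := rfl
      have h2 : lx D (b x x + l x + c') = ld D (Complex.exp (b x x + l x + c')) / 2 := rfl
      rw [h1, h x, ld_mul D (Complex.exp_ne_zero _) (hU1 x x.2).1]
      simp only [map_add] at h2
      simp only [AddMonoidHom.compr₂_apply, AddMonoidHom.comp_apply, hd₀]
      linear_combination -h2)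
    (fun _ => rfl)
  set db : ℂ ⧸ S.L → ℂ := fun g => if h : ∃ x : S.V, S.cls x = g then d h.choose else 0 with hdb
  have hdb1 : ∀ x : S.V, db (S.cls x) = d x := by
    intro x
    have h : ∃ y : S.V, S.cls y = S.cls x := ⟨x, rfl⟩
    simp only [hdb, dif_pos h]
    have h2 : h.choose - x ∈ Λ := by
      have : S.Lat ((h.choose : S.A) - x) := by
        rw [← S.cls_eq_zero, map_sub, h.choose_spec, sub_self]
      exact this
    have := hdp _ h2 x
    rwa [add_sub_cancel] at this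
  have hdbo : ∀ g, db (-g) = -db g := by
    intro g
    by_cases h : ∃ x : S.V, S.cls x = g
    · obtain ⟨x, rfl⟩ := h
      have := hdb1 (-x)
      rw [hdo, ← hdb1] at this
      simpa using this
    · have h' : ¬ ∃ x : S.V, S.cls x = -g := fun ⟨x, hx⟩ => h ⟨-x, by simp [hx]⟩
      simp only [hdb, dif_neg h, dif_neg h', neg_zero]
  have hkap : ∀ s x y : S.V, kap db (S.cls s) (S.cls x) (S.cls y) = kap d s x y := by
    intro s x y
    simp only [kap, ← hdb1, AddSubgroup.coe_add, AddSubgroup.coe_sub, map_add, map_sub]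
  have hEE : ∀ s₁ s₂ s₃ w x y z : S.V, EE db (S.cls s₁) (S.cls s₂) (S.cls s₃) (S.cls w) (S.cls x)
      (S.cls y) (S.cls z) = EE d s₁ s₂ s₃ w x y z := by
    intro s₁ s₂ s₃ w x y z
    simp only [EE, hkap, ← hdb1, AddSubgroup.coe_add, map_add]
  have hldK : ∀ s x y : S.V, S.Diag s → S.Diag x ∨ S.Anti x → S.Diag y ∨ S.Anti y →
      ld D (S.KK (S.fb G) s x y) = kap d₀ s x y := by
    intro s x y hs hx hy
    have h1 := ld_pow D (KK_ne hF.ne (s : S.A) x y) 2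
    rw [← hU7 _ _ _ hs hx hy, Setup.KK] at h1
    have n1 := (hU1 _ (s + x + y).2).1
    have n2 := (hU1 _ (s + x - y).2).1
    have n3 := (hU1 _ (s - x + y).2).1
    have n4 := (hU1 _ (s - x - y).2).1
    simp only [AddSubgroup.coe_add, AddSubgroup.coe_sub] at n1 n2 n3 n4
    rw [ld_mul D (mul_ne_zero (mul_ne_zero n1 n2) n3) n4, ld_mul D (mul_ne_zero n1 n2) n3,
      ld_mul D n1 n2] at h1
    simp only [kap, hd₀, AddSubgroup.coe_add, AddSubgroup.coe_sub]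
    push_cast at h1
    linear_combination -h1 / 2
  have hldD : ∀ x : S.V, S.Diag x → ld D (S.fb G x) = d₀ x := by
    intro x hx
    simp only [hd₀]
    rw [(hU3 _ hx).2, ld_pow D (hF.ne _)]
    push_cast
    ring
  have hdiag2 : ∀ x : S.A, S.Diag x → S.Diag (x + x) := fun x hx => by
    simp only [Setup.Diag, map_add] at hx ⊢
    rw [hx]
  -- the averaged relation
  have hrel : ∀ s₁ ∈ S.Gp, ∀ s₂ ∈ S.Gp, ∀ s₃ ∈ S.Gp, ∀ w ∈ S.Gp, Gen s₁ s₂ s₃ w →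
      chw XQ S.ε⁻¹ (1 / (S.ε + 1)) db w s₁ + chw XQ S.ε⁻¹ (1 / (S.ε + 1)) db w s₂ +
        chw XQ S.ε⁻¹ (1 / (S.ε + 1)) db w s₃ = 0 := by
    intro s₁ hs₁ s₂ hs₂ s₃ hs₃ w hw hg
    have h1 := hrig1 _ _ _ XP XQ X _ _ _ _ db hfs hdbo s₁ hs₁ s₂ hs₂ s₃ hs₃ w hw hg
    obtain ⟨a₁, c₁⟩ := hrepP s₁ hs₁
    obtain ⟨a₂, c₂⟩ := hrepP s₂ hs₂
    obtain ⟨aw, cw⟩ := hrepP w hw
    set t₁ := S.rep s₁
    set t₂ := S.rep s₂
    set tw := S.rep w
    have a₃ : S.Diag (-(t₁ + t₂)) := by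
      simp only [Setup.Diag, map_add, map_neg] at a₁ a₂ ⊢
      rw [a₁, a₂]
    have c₃ : S.cls (-(t₁ + t₂)) = s₃ := by
      rw [map_neg, map_add, c₁, c₂]
      exact neg_eq_of_add_eq_zero_right hg.sum
    set t₃ := -(t₁ + t₂) with ht₃
    have hsum : t₁ + t₂ + t₃ = 0 := by rw [ht₃]; abel
    have hg' : Gen (S.cls t₁) (S.cls t₂) (S.cls t₃) (S.cls tw) := by rwa [c₁, c₂, c₃, cw]
    have f₃ := hface t₁ t₂ t₃ tw a₁ a₂ a₃ aw hsum hg'
    have f₁ := hface t₂ t₃ t₁ tw a₂ a₃ a₁ aw (by rw [← hsum]; abel) (Gen_cyc hg')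
    have f₂ := hface t₃ t₁ t₂ tw a₃ a₁ a₂ aw (by rw [← hsum]; abel) (Gen_cyc (Gen_cyc hg'))
    rw [c₁, c₂, c₃, cw] at f₁ f₂ f₃
    have h2 := avg X S.ε⁻¹ c S.μ db s₁ s₂ s₃ w
      (fun x y z => S.Φ (S.fb G) t₁ t₂ t₃ tw (S.rep x) (S.rep y) (S.rep z)) hcne f₃
      (fun y hy z hz => by simpa only [Φ_cyc] using f₁ y hy z hz)
      (fun z hz x hx => by
        have := f₂ z hz x hx
        simpa only [← Φ_cyc _ t₃ t₁ t₂] using this)
      (fun x hx y hy => by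
        have h0 := congrArg D (f₃ x hx y hy)
        rw [hD0 _ (hcalg.mul (Face_alg ha _ _ _ _ _ _)), map_sum] at h0
        rw [← h0]
        refine Finset.sum_congr rfl fun z hz => ?_
        obtain ⟨bx, cx⟩ := hrep x hx
        obtain ⟨by', cy⟩ := hrep y hy
        obtain ⟨bz, cz⟩ := hrep z hz
        have e1 := hEE ⟨t₁, (hU3 _ a₁).1⟩ ⟨t₂, (hU3 _ a₂).1⟩ ⟨t₃, (hU3 _ a₃).1⟩ ⟨tw, (hU3 _ aw).1⟩
          ⟨_, hV _ bx⟩ ⟨_, hV _ by'⟩ ⟨_, hV _ bz⟩
        rw [hdE _ _ _ _ _ _ _ (Subtype.ext hsum)] at e1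
        simp only [c₁, c₂, c₃, cw, cx, cy, cz] at e1
        have k := KK_ne hF.ne
        have e2 : ld D (S.Φ (S.fb G) t₁ t₂ t₃ tw (S.rep x) (S.rep y) (S.rep z)) =
            EE db s₁ s₂ s₃ w x y z := by
          rw [e1, EE, ← hldK _ _ _ a₁ (Or.inl aw) bx, ← hldK _ _ _ a₂ (Or.inl aw) by',
            ← hldK _ _ _ a₃ (Or.inl aw) bz, ← hldK _ _ _ a₃ bx by', ← hldK _ _ _ a₁ by' bz,
            ← hldK _ _ _ a₂ bx bz, ← hldD _ (hdiag2 _ a₁), ← hldD _ (hdiag2 _ a₂),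
            ← hldD _ (hdiag2 _ a₃), Setup.Φ, ld_div D (by simp [k]) (by simp [hF.ne]),
            ld_mul D (by simp [k]) (k _ _ _), ld_mul D (by simp [k]) (k _ _ _),
            ld_mul D (by simp [k]) (k _ _ _), ld_mul D (by simp [k]) (k _ _ _),
            ld_mul D (k _ _ _) (k _ _ _), ld_mul D (by simp [hF.ne]) (hF.ne _),
            ld_mul D (hF.ne _) (hF.ne _)]
          rfl
        have hΦ : S.Φ (S.fb G) t₁ t₂ t₃ tw (S.rep x) (S.rep y) (S.rep z) ≠ 0 := by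
          simp [Setup.Φ, k, hF.ne]
        rw [← e2, Derivation.leibniz, hD0 _ (μ_alg z), ld]
        simp only [smul_eq_mul]
        field_simp
        ring)
    rw [h2] at h1
    linear_combination -h1 / 4
  have hzero := hrig2 _ _ _ XP XQ X _ _ _ _ db hfs hdbo hne h3 hrel
  -- the point `v`
  have hm : v / 2 - S.ε * (v / 2) ∈ S.L := by
    convert S.L.neg_mem hv using 1
    ring
  set u := S.pt (v / 2) (v / 2) with hu
  have hu1 : S.x₁ u = v / 2 := S.x₁_pt hm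
  have hu2 : S.x₂ u = v / 2 := S.x₂_pt hm
  have hud : S.Diag u := by rw [Setup.Diag, hu1, hu2]
  have h4 := hzero _ (hclsP u hud)
  rw [two_nsmul, ← map_add] at h4
  have h5 := hdb1 ⟨u + u, (hU3 _ (hdiag2 u hud)).1⟩
  simp only [h4, hd] at h5
  have hN : (6 * (S.N : ℂ) ^ 3)⁻¹ ≠ 0 := by
    have : (S.N : ℂ) ≠ 0 := by exact_mod_cast S.N_ne
    simp [this]
  have h6 := (mul_eq_zero.1 h5.symm).resolve_left hN
  have hNv : (S.N : ℂ) * v ∈ S.L := by
    have := hU6 _ (hU3 _ (hdiag2 u hud)).1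
    simpa [Setup.Lat, hu1, ← mul_add] using this
  have hpt : ∀ j, S.pt (tt S.N j * v) (tt S.N j * v) = tt S.N j • (u + u) := by
    intro j
    rw [← S.pt_self (tt S.N j • (u + u))]
    simp [hu1, hu2, ← mul_add]
  have hnl : ∀ j, ¬ S.Lat (tt S.N j • (u + u)) := by
    intro j h
    apply hvL
    have h1 : (tt S.N j : ℂ) * v ∈ S.L := by simpa [Setup.Lat, hu1, ← mul_add] using h
    have h2 := S.L.sub_mem h1 (S.L.nsmul_mem hNv j)
    convert h2 using 1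
    simp only [tt, nsmul_eq_mul]
    push_cast
    ring
  have hval : ∀ j, G (S.pt (tt S.N j * v) (tt S.N j * v) + S.p) = S.fb G (tt S.N j • (u + u)) := by
    intro j
    rw [hpt, Setup.fb, if_neg (hnl j)]
  have hdg : ∀ j, S.Diag (tt S.N j • (u + u)) := by
    intro j
    simp [Setup.Diag, hu1, hu2]
  have h7 : ld D (S.al G v) = 0 := by
    rw [← h6, Setup.al]
    simp only [hval, Fin.prod_univ_four, Fin.sum_univ_four]
    have k : ∀ j, S.fb G (tt S.N j • (u + u)) ^ cc S.N j ≠ 0 := fun j => zpow_ne_zero _ (hF.ne _)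
    rw [ld_mul D (mul_ne_zero (mul_ne_zero (k _) (k _)) (k _)) (k _),
      ld_mul D (mul_ne_zero (k _) (k _)) (k _), ld_mul D (k _) (k _)]
    simp only [ld_zpow D (hF.ne _)]
    rw [← hldD _ (hdg 0), ← hldD _ (hdg 1), ← hldD _ (hdg 2), ← hldD _ (hdg 3)]
    rfl
  have h8 : S.al G v ≠ 0 := by
    rw [Setup.al]
    exact Finset.prod_ne_zero_iff.2 fun j _ => by rw [hval]; exact zpow_ne_zero _ (hF.ne _)
  rw [ld, div_eq_zero_iff] at h7
  exact h7.resolve_right h8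

end

end Pool.Agent.P.MP_29cb78_nt.E
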