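import Pool.Agent.P.MP_29cb78_nt.E.Basic

/-! The beta integral in its domain of convergence. -/

namespace Pool.Agent.P.MP_29cb78_nt.E

open Filter Topology
open scoped Classical Real

namespace Bcon

variable {S : Setup} {G : S.A → ℂ}

lemma h_lt {t : Fin 6 → S.A} (hs : ∑ j, t j = S.p + S.q) (hp : ∀ j, 0 < S.h (t j)) {j l : Fin 6}
    (h : j ≠ l) : S.h (t j + t l) < S.h S.p + S.h S.q := by
  rw [← map_add S.h S.p, ← hs, map_sum, map_add, ← Finset.sum_pair (f := fun j => S.h (t j)) h]
  obtain ⟨k, hk⟩ : ∃ k, k ∉ ({j, l} : Finset (Fin 6)) := by revert j l; decide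
  exact Finset.sum_lt_sum_of_subset (Finset.subset_univ _) (Finset.mem_univ k) hk (hp k)
    fun i _ _ => (hp i).le

lemma not_pole {x : S.A} (h : 0 < S.h x) : ¬ S.Pole x := fun c => c.h_le.not_gt h

lemma PG_ne (hG : S.GH G) {t : Fin 6 → S.A} (hs : ∑ j, t j = S.p + S.q)
    (hp : ∀ j, 0 < S.h (t j)) : S.PG G t ≠ 0 :=
  Finset.prod_ne_zero_iff.2 fun j _ => Finset.prod_ne_zero_iff.2 fun l hl =>
    hG.ne_zero (not_pole (by rw [map_add]; exact add_pos (hp j) (hp l))) fun c =>
      c.le_h.not_gt (h_lt hs hp (Finset.mem_Ioi.1 hl).ne)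

lemma lin (htame : S_TAME) (hosec : S_OSEC) (hT : S.TH) (hG : S.GH G) {Λ} (hΛ : S.LamAPI Λ)
    {t : Fin 6 → S.A} (hs : ∑ j, t j = S.p + S.q) (hp : ∀ j, 0 < S.h (t j)) :
    Λ (S.II G t) (fun y => 0 < S.h y) = S.Lin (S.II G t) := by
  have h4 := (hosec S hT).2.2.2.2
  refine hΛ.lin _ (htame S hT G hG 6 4 4 t 1 1 _ _ _ (by decide) (by simpa using hs) rfl rfl h4 h4
    ⟨fun ω hω x => by rw [map_add, S.h_Ω hω, add_zero], fun j y c => ?_, fun j y c => ?_⟩)
    fun x hx => ?_
  · have := c.h_le
    rw [map_add] at this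
    linarith [hp j]
  · have := c.h_le
    rw [map_sub] at this
    linarith [hp j]
  · have hd := hT.diff
    refine (Finset.analyticAt_fun_prod _ fun j _ => (hG.analyticAt_add (y := x) (not_pole ?_)).mul
      (hG.analyticAt_sub (y := x) (not_pole ?_))).mul (Differentiable.analyticAt ?_ 0)
    · simpa [hx] using hp j
    · simpa [hx] using hp j
    · simp only [map_add, S.x₁_ι, S.x₂_ι]
      fun_prop

/-- parameters with five small heights -/
def Sm (S : Setup) (t : Fin 6 → S.A) : Prop := ∑ j, t j = S.p + S.q ∧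
  ∀ j, j ≠ 5 → 0 < S.h (t j) ∧ S.h (t j) < S.h S.q / 5

lemma Sm.pos {t : Fin 6 → S.A} (h : Sm S t) (j : Fin 6) : 0 < S.h (t j) := by
  by_cases c : j = 5
  · have := congrArg S.h h.1
    rw [map_sum, map_add, Fin.sum_univ_six] at this
    have := S.h_p_pos
    rw [c]
    linarith [(h.2 0 (by decide)).2, (h.2 1 (by decide)).2, (h.2 2 (by decide)).2,
      (h.2 3 (by decide)).2, (h.2 4 (by decide)).2]
  · exact (h.2 j c).1

lemma const (hbmove : S_BMOVE) (hT : S.TH) (hG : S.GH G) {Λ} (hΛ : S.LamAPI Λ)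
    (A : Finset (Fin 6)) : ∀ t t', Sm S t → Sm S t' → (∀ j ∉ A, j ≠ 5 → t j = t' j) →
    Λ (S.II G t) (fun y => 0 < S.h y) / S.PG G t =
      Λ (S.II G t') (fun y => 0 < S.h y) / S.PG G t' := by
  induction A using Finset.induction_on with
  | empty =>
    intro t t' h h' e
    obtain rfl : t = t' := by
      have k := h.1.trans h'.1.symm
      rw [Fin.sum_univ_six, Fin.sum_univ_six, e 0 (by simp) (by decide), e 1 (by simp) (by decide),
        e 2 (by simp) (by decide), e 3 (by simp) (by decide), e 4 (by simp) (by decide),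
        add_right_inj] at k
      funext j
      by_cases c : j = 5
      exacts [c ▸ k, e j (by simp) c]
    rfl
  | insert a A _ ih =>
    intro t t' h h' e
    by_cases c : a = 5
    · exact ih t t' h h' fun j hj hj' => e j (by simp [hj, hj', c]) hj'
    have k : Sm S (t + Pi.single a (t' a - t a) - Pi.single 5 (t' a - t a)) := by
      refine ⟨by simp [Finset.sum_sub_distrib, Finset.sum_add_distrib, h.1], fun j hj => ?_⟩
      by_cases b : j = a
      · simpa [b, c] using h'.2 a c
      · simpa [b, hj] using h.2 j hj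
    refine (hbmove S hT G hG Λ hΛ t _ a 5 c h.1 k.1 h.pos k.pos (fun j h1 h2 => by simp [h1, h2])
      ?_).trans (ih _ t' k h' fun j hj hj' => ?_)
    · have h4 : (Finset.univ \ {a, 5} : Finset (Fin 6)).card = 4 := by
        rw [Finset.card_univ_sdiff, Finset.card_pair c]; rfl
      have := Finset.sum_le_card_nsmul (Finset.univ \ {a, 5}) (fun j => S.h (t j)) (S.h S.q / 5)
        fun j hj => (h.2 j (by simp at hj; exact hj.2)).2.le
      rw [h4, nsmul_eq_mul] at this
      push_cast at this
      linarith [S.h_q_pos]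
    · by_cases b : j = a
      · simp [b, c]
      · simpa [b, hj'] using e j (by simp [hj, b]) hj'

end Bcon

open Bcon

theorem bcon_thm (hbmove : S_BMOVE) (hbhol : S_BHOL) (htame : S_TAME) (hosec : S_OSEC) :
    S_BCON := by
  intro S hT G hG Λ hΛ
  obtain ⟨C, hC⟩ : ∃ C, ∀ t, Sm S t → Λ (S.II G t) (fun y => 0 < S.h y) / S.PG G t = C := by
    by_cases c : ∃ t, Sm S t
    · obtain ⟨t', h'⟩ := c
      exact ⟨_, fun t h => const hbmove hT hG hΛ Finset.univ t t' h h' (by simp)⟩
    · exact ⟨0, fun t h => (c ⟨t, h⟩).elim⟩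
  refine ⟨C, fun t hs hp => ?_⟩
  set m : Fin 6 → ℝ := fun j => (if j = 5 then S.h S.p + S.h S.q else 0) - S.h (t j) with hm
  set u : Fin 6 → ℂ := fun j => Complex.I * S.γ / S.ε * m j with hu
  have hh : ∀ z j, S.h (t j + S.ι (z * u j)) = S.h (t j) + z.re * m j := fun z j => by
    have := S.γ_ne
    have := S.ε_ne
    rw [map_add, S.h_ι, show S.ε * (z * u j) / S.γ = Complex.I * (z * m j) by
      simp only [hu]; field_simp]
    simp
  have hs' : ∀ z, ∑ j, (t j + S.ι (z * u j)) = S.p + S.q := fun z => by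
    have : ∑ j, m j = 0 := by
      simp only [hm, Finset.sum_sub_distrib, ← map_sum, hs]; simp
    rw [Finset.sum_add_distrib, hs, ← map_sum, ← Finset.mul_sum, ← Finset.mul_sum,
      ← Complex.ofReal_sum, this]
    simp
  have hlt : ∀ j, S.h (t j) < S.h S.p + S.h S.q := fun j => by
    obtain ⟨l, hl⟩ := exists_ne j
    have := h_lt hs hp hl
    rw [map_add] at this
    linarith [hp l]
  have hU : IsOpen {z : ℂ | ∀ j, 0 < S.h (t j + S.ι (z * u j))} := by
    simp only [hh, Set.ofPred_forall]
    exact isOpen_iInter_of_finite fun j => isOpen_lt continuous_const (by fun_prop)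
  have hc : Convex ℝ {z : ℂ | ∀ j, 0 < S.h (t j + S.ι (z * u j))} := by
    simp only [hh, Set.ofPred_forall, ← neg_lt_iff_pos_add']
    exact convex_iInter fun j => convex_halfSpace_gt
      ⟨fun x y => by simp [add_mul], fun c x => by simp [mul_assoc]⟩ _
  have hsm : ∀ z : ℂ, 17 / 20 < z.re → z.re < 1 → Sm S fun j => t j + S.ι (z * u j) :=
    fun z h1 h2 => ⟨hs' z, fun j hj => by
      have := hp j
      have := hlt j
      have := S.h_p_lt
      have := S.h_q_pos
      simp only [hh, hm, if_neg hj]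
      constructor <;> nlinarith⟩
  have ha : AnalyticOnNhd ℂ (fun z => S.Lin (S.II G fun j => t j + S.ι (z * u j)) -
      C * S.PG G fun j => t j + S.ι (z * u j)) {z | ∀ j, 0 < S.h (t j + S.ι (z * u j))} := by
    refine ((hbhol S hT G hG t u).analyticOnNhd hU).sub fun z hz => analyticAt_const.mul ?_
    refine Finset.analyticAt_fun_prod _ fun j _ => Finset.analyticAt_fun_prod _ fun l _ => ?_
    have e : ∀ z, t j + S.ι (z * u j) + (t l + S.ι (z * u l)) = t j + t l + S.ι (z * (u j + u l)) :=
      fun z => by rw [mul_add, map_add]; abel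
    simp only [e]
    refine (hG.analyticAt (t j + t l) (z * (u j + u l)) (not_pole ?_)).fun_comp_of_eq
      (f := fun z => z * (u j + u l)) (by fun_prop) rfl
    rw [← e, map_add]
    exact add_pos (hz j) (hz l)
  have := ha.eqOn_zero_of_preconnected_of_eventuallyEq_zero hc.isPreconnected (z₀ := 9 / 10)
    (hsm _ (by norm_num) (by norm_num)).pos (by
      have : IsOpen {z : ℂ | 17 / 20 < z.re ∧ z.re < 1} :=
        (isOpen_lt continuous_const Complex.continuous_re).inter
          (isOpen_lt Complex.continuous_re continuous_const)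
      filter_upwards [this.mem_nhds ⟨by norm_num, by norm_num⟩] with z hz
      have k := hsm z hz.1 hz.2
      rw [← lin htame hosec hT hG hΛ k.1 k.pos, ← hC _ k, div_mul_cancel₀ _ (PG_ne hG k.1 k.pos),
        sub_self]
      rfl) (x := 0) (by simpa using hp)
  rw [lin htame hosec hT hG hΛ hs hp]
  simpa [sub_eq_zero] using this

end Pool.Agent.P.MP_29cb78_nt.E
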