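import Pool.Agent.P.MP_29cb78_nt.E.Osec

/-!
The kernel as an entire odd function of each variable.
-/

namespace Pool.Agent.P.MP_29cb78_nt.E

open Filter Topology

namespace Bent

variable {S : Setup}

lemma dsec {d : ℕ} {f : ℂ → ℂ} (hf : S.Sec d f) {m : ℂ} (hm : m ∈ S.M) (z : ℂ) :
    deriv f (z + m) = S.mult m z ^ d * (deriv f z + d * S.η m * f z) := by
  have h1 : HasDerivAt (fun z => S.mult m z ^ d) (d * S.η m * S.mult m z ^ d) z := by
    have e : ∀ z, S.mult m z ^ d =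
        (deriv S.ϑ m / deriv S.ϑ 0) ^ d * Complex.exp (d * S.η m * z) := fun z => by
      rw [Setup.mult, mul_pow, ← Complex.exp_nat_mul, mul_assoc]
    simp only [e]
    refine (((hasDerivAt_id z).const_mul _).cexp.const_mul _).congr_deriv ?_
    simp only [id]
    ring
  rw [← deriv_comp_add_const, funext (hf.2 m hm), (h1.fun_mul (hf.1 z).hasDerivAt).deriv]
  ring

lemma zt_neg (T : S.TH) (z : ℂ) : S.zt (-z) = -S.zt z := by
  have a := deriv_comp_neg S.ϑ z
  simp only [T.odd, deriv.fun_neg] at a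
  rw [Setup.zt, Setup.zt, T.odd, ← neg_inj.1 a, div_neg]

lemma zt_add (T : S.TH) {m z : ℂ} (hm : m ∈ S.M) (hz : z ∉ S.M) :
    S.zt (z + m) = S.zt z + S.η m := by
  have h1 := T.mult_ne m hm z
  have h2 := mt (T.zero_iff z).1 hz
  rw [Setup.zt, Setup.zt, dsec (d := 1) ⟨T.diff, by simpa using T.shift⟩ hm, T.shift m hm]
  field_simp
  simp

lemma fin (T : S.TH) {d : ℕ} (a : ℂ) {f B : ℂ → ℂ} (hf : Differentiable ℂ f)
    (e : ∀ y, y - a ∉ S.M → y + a ∉ S.M → B y = f y) (odd : ∀ y, B (-y) = -B y)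
    (sh : ∀ m ∈ S.M, ∀ y, y - a ∉ S.M → y + a ∉ S.M → B (y + m) = S.mult m y ^ d * B y) :
    S.Sec d f ∧ ∀ y, f (-y) = -f y := by
  have hc := hf.continuous
  have ext : ∀ u v : ℂ → ℂ, Continuous u → Continuous v →
      (∀ y, y - a ∉ S.M → y + a ∉ S.M → u y = v y) → ∀ y, u y = v y := fun u v hu hv h y => by
    refine tendsto_nhds_unique_of_eventuallyEq (l := 𝓝[≠] y)
      ((hu.tendsto y).mono_left nhdsWithin_le_nhds) ((hv.tendsto y).mono_left nhdsWithin_le_nhds) ?_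
    filter_upwards [((Homeomorph.subRight a).map_punctured_nhds_eq y).le (T.disc _),
      ((Homeomorph.addRight a).map_punctured_nhds_eq y).le (T.disc _)] with z h1 h2
    exact h z h1 h2
  refine ⟨⟨hf, fun m hm => ext _ _ (by fun_prop) (by unfold Setup.mult; fun_prop) fun y h1 h2 => ?_⟩,
    ext _ _ (by fun_prop) (by fun_prop) fun y h1 h2 => ?_⟩
  · rw [← e y h1 h2, ← sh m hm y h1 h2, e]
    · exact fun h => h1 (by simpa [add_sub_right_comm] using S.M.sub_mem h hm)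
    · exact fun h => h2 (by simpa [add_right_comm y m a] using S.M.sub_mem h hm)
  · rw [← e y h1 h2, ← odd, e]
    · exact fun h => h2 (by simpa [add_comm] using S.M.neg_mem h)
    · exact fun h => h1 (by simpa [sub_eq_add_neg, add_comm] using S.M.neg_mem h)

end Bent

open Bent in
theorem bent_thm (hosec : S_OSEC) : S_BENT := by
  classical
  intro S T d σ hd hd0 hσ
  obtain ⟨hP, hN, hM⟩ := (hosec S T).2.2.1 d σ hd hσ
  have hN2 : ∀ m ∈ S.M, ∀ z, S.PP σ (-(z + m)) = S.mult m z ^ d * S.PP σ (-z) := hN.2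
  have hE : S.Sec d fun u => S.PP σ u + S.PP σ (-u) :=
    ⟨hP.1.add hN.1, fun m hm z => by simp only [hP.2 m hm, hN2 m hm, mul_add]⟩
  have hdc : (d : ℂ) ≠ 0 := Nat.cast_ne_zero.2 hd0
  have gd : Differentiable ℂ (S.GG σ) := (hE.1.deriv).div_const _
  have go : ∀ y, S.GG σ (-y) = -S.GG σ y := fun y => by
    have a := deriv_comp_neg (fun u => S.PP σ u + S.PP σ (-u)) y
    simp only [neg_neg, add_comm (S.PP σ (-_))] at a
    rw [Setup.GG, Setup.GG, a, neg_div, neg_neg]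
  have gs : ∀ m ∈ S.M, ∀ y, S.GG σ (y + m) =
      S.mult m y ^ d * (S.GG σ y + S.η m * (S.PP σ y + S.PP σ (-y))) := fun m hm y => by
    rw [Setup.GG, Setup.GG, dsec hE hm]
    field_simp
  have td := T.diff
  have td' := T.diff.deriv
  have z0 : ∀ z, z ∉ S.M → S.ϑ z * S.zt z = deriv S.ϑ z := fun z hz =>
    mul_div_cancel₀ _ (mt (T.zero_iff z).1 hz)
  refine ⟨fun y₁ y₂ => ?_, fun y₂ _ => ?_, fun a => ?_⟩
  · rw [Setup.BB, Setup.BB, ← neg_sub y₁ y₂, zt_neg T, add_comm y₂ y₁]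
    ring
  · have hP1 := hP.1
    have hN1 := hN.1
    have hM1 := hM.1
    obtain ⟨h₁, d₁, e₁⟩ := Osec.quot (f := fun y => S.PP σ y * S.PP σ (-y₂) - S.PP σ (-y) * S.PP σ y₂)
      (g := fun y => S.ϑ (y - y₂)) (by fun_prop) (by fun_prop)
      (fun z hz => by rw [deriv_comp_sub_const]; exact T.deriv_ne _ ((T.zero_iff _).1 hz))
      fun z hz => by
        have a := hP.2 _ ((T.zero_iff _).1 hz) y₂
        have b := hN.2 _ ((T.zero_iff _).1 hz) y₂
        simp only [add_sub_cancel] at a b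
        rw [a, b]
        ring
    obtain ⟨h₂, d₂, e₂⟩ := Osec.quot (f := fun y => S.PP σ y * S.PP σ y₂ - S.PP σ (-y) * S.PP σ (-y₂))
      (g := fun y => S.ϑ (y + y₂)) (by fun_prop) (by fun_prop)
      (fun z hz => by rw [deriv_comp_add_const]; exact T.deriv_ne _ ((T.zero_iff _).1 hz))
      fun z hz => by
        have a := hP.2 _ ((T.zero_iff _).1 hz) (-y₂)
        have b := hN.2 _ ((T.zero_iff _).1 hz) (-y₂)
        simp only [neg_add_cancel_comm_assoc, neg_neg] at a b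
        rw [a, b]
        ring
    have e : ∀ y, y - y₂ ∉ S.M → y + y₂ ∉ S.M → S.BB σ y y₂ = h₁ y * deriv S.ϑ (y - y₂) -
        h₂ y * deriv S.ϑ (y + y₂) + S.Pm σ y * S.GG σ y₂ + S.GG σ y * S.Pm σ y₂ := fun y h1 h2 => by
      rw [Setup.BB, e₁ y, e₂ y, ← z0 _ h1, ← z0 _ h2]
      ring
    obtain ⟨r1, r2⟩ := fin T (d := d) y₂ (by fun_prop) e (fun y => by
      rw [Setup.BB, Setup.BB, go, show -y - y₂ = -(y + y₂) by ring, show -y + y₂ = -(y - y₂) by ring,
        zt_neg T, zt_neg T]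
      simp only [Setup.Pm, neg_neg]
      ring) fun m hm y h1 h2 => by
        rw [Setup.BB, Setup.BB, gs m hm, add_sub_right_comm, add_right_comm y m, zt_add T hm h1,
          zt_add T hm h2, hP.2 m hm, hN2 m hm, hM.2 m hm]
        simp only [Setup.Pm]
        ring
    exact ⟨_, r1, r2, e⟩
  · have p : ∀ y, S.PP σ y = S.ϑ (σ a + y) * ∏ j ∈ Finset.univ.erase a, S.ϑ (σ j + y) := fun y =>
      (Finset.mul_prod_erase _ (fun j => S.ϑ (σ j + y)) (Finset.mem_univ a)).symm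
    have t0 : S.ϑ 0 = 0 := (T.zero_iff 0).2 S.M.zero_mem
    have e : ∀ y, σ a - y ∉ S.M → σ a + y ∉ S.M →
        S.PP σ (-y) * S.zt (σ a - y) - S.PP σ y * S.zt (σ a + y) + S.GG σ y =
        deriv S.ϑ (σ a - y) * ∏ j ∈ Finset.univ.erase a, S.ϑ (σ j + -y) -
          deriv S.ϑ (σ a + y) * ∏ j ∈ Finset.univ.erase a, S.ϑ (σ j + y) + S.GG σ y :=
      fun y h1 h2 => by
        rw [p y, p (-y), ← z0 _ h1, ← z0 _ h2, ← sub_eq_add_neg]
        ring
    have c : ∀ y, y - σ a ∉ S.M → σ a - y ∉ S.M := fun y h k => h (by simpa using S.M.neg_mem k)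
    obtain ⟨r1, r2⟩ := fin T (d := d) (σ a) (by fun_prop)
      (fun y h1 h2 => e y (c y h1) (add_comm y (σ a) ▸ h2)) (fun y => by
        rw [go, neg_neg, sub_neg_eq_add, ← sub_eq_add_neg (σ a) y]
        ring) fun m hm y h1 h2 => by
        rw [gs m hm, ← add_assoc, show σ a - (y + m) = σ a - y + -m by ring,
          zt_add T (S.M.neg_mem hm) (c y h1), zt_add T hm (add_comm y (σ a) ▸ h2), hP.2 m hm,
          hN2 m hm, map_neg]
        ring
    refine ⟨_, r1, r2, fun y h1 h2 => ?_, fun b hb h => ?_⟩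
    · have q : S.PP σ (-σ a) = 0 := by rw [p, add_neg_cancel, t0, zero_mul]
      rw [← e y h1 h2, Setup.BB]
      simp only [Setup.Pm, q]
      ring
    · rw [Finset.prod_eq_zero (Finset.mem_erase.2 ⟨hb, Finset.mem_univ b⟩) (by simpa using t0),
        p (σ b), ← z0 _ h]
      ring

end Pool.Agent.P.MP_29cb78_nt.E
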