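import Pool.Agent.P.MP_29cb78_nt.E.Basic

/-!
The beta integral with a free parameter.
-/

namespace Pool.Agent.P.MP_29cb78_nt.E

open Filter Topology
open scoped Classical Real

noncomputable section

namespace Beta

variable {S : Setup}

lemma nat_ind {Q : (Fin 6 → ℕ) → Prop} (h0 : Q 0) (hs : ∀ m b, Q m → Q (m + Pi.single b 1))
    (m : Fin 6 → ℕ) : Q m := by
  induction h : ∑ j, m j generalizing m with
  | zero =>
    have : m = 0 := funext fun j => (Finset.sum_eq_zero_iff.1 h) j (Finset.mem_univ j)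
    rwa [this]
  | succ n ih =>
    obtain ⟨b, -, hb⟩ := Finset.exists_ne_zero_of_sum_ne_zero (h.trans_ne n.succ_ne_zero)
    have e : m = (m - Pi.single b 1 : Fin 6 → ℕ) + Pi.single b 1 := by
      funext j
      by_cases hj : j = b
      · subst hj
        simp only [Pi.add_apply, Pi.sub_apply, Pi.single_eq_same]
        omega
      · simp [hj]
    rw [e]
    refine hs _ b (ih _ ?_)
    rw [e] at h
    simp only [Pi.add_apply, Finset.sum_add_distrib, Finset.sum_pi_single', Finset.mem_univ,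
      if_true] at h
    omega

/-- Shifted parameters. -/
def T (t : Fin 6 → S.A) (k : Fin 6 → ℤ) : Fin 6 → S.A := fun j => t j + k j • S.p

lemma T_single (t : Fin 6 → S.A) (k : Fin 6 → ℤ) (a : Fin 6) :
    T t (k + Pi.single a 1) = T t k + Pi.single a S.p := by
  funext j
  by_cases hj : j = a
  · subst hj
    simp [T, add_zsmul, add_assoc]
  · simp [T, hj]

lemma T_sum (t : Fin 6 → S.A) (k : Fin 6 → ℤ) :
    ∑ j, T t k j = ∑ j, t j + (∑ j, k j) • S.p := by
  simp only [T, Finset.sum_add_distrib, Finset.sum_smul]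

lemma T_sep {t : Fin 6 → S.A} {cl : S.A → Prop} (h : S.Sep t cl)
    (hp : ∀ y, cl (y + S.p) ↔ cl y) (k : Fin 6 → ℤ) : S.Sep (T t k) cl := by
  have h1 : Function.Periodic cl S.p := fun y => propext (hp y)
  refine ⟨h.clper, fun j y hy => ?_, fun j y hy => ?_⟩
  · rw [← h1.zsmul (k j) y]
    exact h.lower j _ (by convert hy using 1; simp only [T]; abel)
  · rw [← h1.zsmul (-k j) y]
    exact h.upper j _ (by convert hy using 1; simp only [T, neg_zsmul]; abel)

lemma zero_mono {x : S.A} {i i' : ℤ} (hi : i ≤ i') (h : S.Zero (x + i • S.p)) :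
    S.Zero (x + i' • S.p) := by
  rw [S.zero_iff, S.lat_add_iff (S.lat_p.zsmul _)] at h ⊢
  simp only [map_add, map_zsmul, S.x₁_p, S.x₂_p, S.a_lam, smul_zero, add_zero] at h ⊢
  have : (i : ℚ) ≤ i' := by exact_mod_cast hi
  simp only [zsmul_eq_mul, mul_one] at h ⊢
  exact ⟨h.1, by linarith [h.2.1], h.2.2⟩

lemma reg_II (hT : S.TH) {G : S.A → ℂ} (hG : S.GH G) {t : Fin 6 → S.A} {x : S.A}
    (h : ∀ j, ¬ S.Pole (t j + x) ∧ ¬ S.Pole (t j - x)) : S.Reg (S.II G t) x := by
  refine Setup.Reg.of_analyticAt ?_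
  have e : S.sl (S.II G t) x = fun z =>
      (∏ j, (S.sl (fun u => G (t j + u)) x z * S.sl (fun u => G (t j - u)) x z)) *
        (S.ϑ (2 * (S.x₁ x + S.ε * z)) * S.ϑ (2 * (S.x₂ x + z))) := by
    funext z
    simp [Setup.sl, Setup.II, Setup.WW]
  rw [e]
  refine (Finset.analyticAt_fun_prod _ fun j _ =>
    (hG.analyticAt_add (h j).1).mul (hG.analyticAt_sub (h j).2)).mul (AnalyticAt.mul ?_ ?_)
  · exact (hT.diff.comp (by fun_prop : Differentiable ℂ fun z => 2 * (S.x₁ x + S.ε * z))).analyticAt 0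
  · exact (hT.diff.comp (by fun_prop : Differentiable ℂ fun z => 2 * (S.x₂ x + z))).analyticAt 0

lemma recl (htame : S_TAME) (hosec : S_OSEC) (hT : S.TH) {G : S.A → ℂ} (hG : S.GH G)
    {Λ : (S.A → ℂ) → (S.A → Prop) → ℂ} (hΛ : S.LamAPI Λ) {t : Fin 6 → S.A}
    (ht : ∑ j, t j = S.p + S.q) {cl cl' : S.A → Prop} (h : S.Sep t cl) (h' : S.Sep t cl') :
    Λ (S.II G t) cl = Λ (S.II G t) cl' := by
  have hs := (hosec S hT).2.2.2.2
  have key : ∀ cl, S.Sep t cl → S.Tame (S.II G t) cl := fun cl h =>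
    htame S hT G hG 6 4 4 t 1 1 _ _ cl (by decide) (by simpa using ht) rfl rfl hs hs h
  refine hΛ.recl_eq (key cl h) (key cl' h') fun x hx => ?_
  by_contra hc
  refine hx (reg_II hT hG fun j => ⟨fun hp => hc ?_, fun hp => hc ?_⟩)
  · exact iff_of_false (h.lower j x hp) (h'.lower j x hp)
  · exact iff_of_true (h.upper j x hp) (h'.upper j x hp)

end Beta

open Beta in
theorem beta_thm (hbcon : S_BCON) (hbsh : S_BSH) (htame : S_TAME) (hosec : S_OSEC) : S_BETA := by
  intro S hT G hG Λ hΛ
  obtain ⟨C, hC⟩ := hbcon S hT G hG Λ hΛ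
  refine ⟨C, fun t cl ht hfree hsep hp => ?_⟩
  set good : (Fin 6 → ℤ) → Prop := fun k => Λ (S.II G (T t k)) cl = C * S.PG G (T t k) with hgood
  have step : ∀ (k : Fin 6 → ℤ) (a b : Fin 6), ∑ j, k j = -1 →
      (∀ j, j ≠ a → j ≠ b → S.x₁ (T t k j + T t k b) ∉ S.M) →
      good (k + Pi.single b 1) → good (k + Pi.single a 1) := by
    intro k a b hk hne h
    by_cases hab : a = b
    · rwa [hab]
    obtain ⟨h1, h2⟩ := hbsh S hT G hG Λ hΛ (T t k) a b cl hab
      (by rw [T_sum, ht, hk]; simp) (T_sep hsep hp k)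
    have h3 : (∏ j ∈ Finset.univ \ {a, b}, S.ϑ (S.x₁ (T t k j + T t k b))) ≠ 0 :=
      Finset.prod_ne_zero_iff.2 fun j hj e => by
        simp only [Finset.mem_sdiff, Finset.mem_univ, Finset.mem_insert, Finset.mem_singleton,
          true_and, not_or] at hj
        exact hne j hj.1 hj.2 ((hT.zero_iff _).1 e)
    simp only [hgood, T_single] at h ⊢
    apply mul_left_cancel₀ h3
    rw [h1, h]
    linear_combination -C * h2
  set D : (Fin 6 → ℕ) → Fin 6 → ℤ := fun m j => m j - (Pi.single 0 (∑ l, (m l : ℤ)) : Fin 6 → ℤ) j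
    with hD
  have D0 : D 0 = 0 := by funext j; simp [hD]
  have Ds : ∀ m, ∑ j, D m j = 0 := fun m => by simp [hD, Finset.sum_pi_single']
  have Dn : ∀ m j, j ≠ 0 → D m j = m j := fun m j hj => by simp [hD, hj]
  have Da : ∀ m b, D (m + Pi.single b 1) = D m + Pi.single b 1 - Pi.single 0 1 := by
    intro m b
    have h1 : ∀ j, (((Pi.single b 1 : Fin 6 → ℕ) j : ℕ) : ℤ) = (Pi.single b 1 : Fin 6 → ℤ) j :=
      fun j => by by_cases hj : j = b <;> simp [hj]
    funext j
    simp only [hD, Pi.add_apply, Pi.sub_apply, Nat.cast_add, Finset.sum_add_distrib, h1,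
      Finset.sum_pi_single', Finset.mem_univ, if_true, Pi.single_add]
    ring
  have raise : ∀ k : Fin 6 → ℤ, ∑ j, k j = 0 → good k → ∀ m, good (k + D m) := by
    intro k hk h
    refine nat_ind (by rwa [D0, add_zero]) fun m b ih => ?_
    have := step (k + D m - Pi.single 0 1) b 0
      (by simp [Finset.sum_add_distrib, hk, Ds, Finset.sum_pi_single'])
      (fun j _ hj hM => hfree j hj ?_) (by rwa [sub_add_cancel])
    · rw [Da]
      convert this using 1
      abel
    · have h1 : S.Lat _ := hM.1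
      have h2 := (h1.sub (S.lat_p.zsmul ((k + D m - Pi.single 0 1 : Fin 6 → ℤ) j))).sub
        (S.lat_p.zsmul ((k + D m - Pi.single 0 1 : Fin 6 → ℤ) 0))
      convert h2 using 1
      simp only [T]
      abel
  have lower : ∀ k : Fin 6 → ℤ, ∑ j, k j = 0 → good k →
      (∀ j l, j ≠ 0 → l ≠ 0 → ¬ S.Zero (T t k j + T t k l)) → ∀ m, good (k - D m) := by
    intro k hk h hz
    refine nat_ind (by rwa [D0, sub_zero]) fun m b ih => ?_
    by_cases hb : b = 0
    · rwa [Da, hb, add_sub_cancel_right]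
    have := step (k - D m - Pi.single b 1) 0 b
      (by simp [hk, Ds, Finset.sum_pi_single'])
      (fun j hj hjb hM => hz j b hj hb ?_) (by rwa [sub_add_cancel])
    · rw [Da]
      convert this using 1
      abel
    · have h1 := (T_sep hsep hp (k - D m - Pi.single b 1)).not_pole j b
      have h2 : S.Lat _ := hM.1
      have h3 := (S.mem_M.1 hM).2
      rw [S.pole_iff, not_and, not_and] at h1
      have h4 := h1 h2 h3.le
      obtain ⟨i, hi⟩ := S.a_exists (S.lat_iff.1 h2)
      have h5 : S.Zero (T t (k - D m - Pi.single b 1) j + T t (k - D m - Pi.single b 1) b +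
          (1 : ℤ) • S.p) := by
        rw [S.zero_iff, one_zsmul, S.lat_add_iff S.lat_p, map_add S.x₁ _ S.p, map_add S.a, h3,
          map_add S.x₂ _ S.p, S.x₁_p, S.x₂_p, S.a_lam, add_zero, hi]
        rw [hi] at h4
        have : i < 0 := by exact_mod_cast not_le.1 h4
        refine ⟨h2, by norm_num, ?_⟩
        exact_mod_cast (by omega : i ≤ -1)
      have h6 := zero_mono (i' := m j + m b + 1) (by omega) h5
      convert h6 using 1
      simp only [T, Pi.sub_apply, Dn m j hj, Dn m b hb, Pi.single_eq_same,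
        Pi.single_eq_of_ne hjb, sub_zsmul, add_zsmul, sub_zero]
      abel
  have hp0 := S.h_p_pos
  have hp1 := S.h_p_lt
  set k₁ : Fin 6 → ℤ := fun j => 1 - ⌈S.h (t j) / S.h S.p⌉ with hk₁
  set k : Fin 6 → ℤ := k₁ - Pi.single 0 (∑ j, k₁ j) with hk
  have hks : ∑ j, k j = 0 := by simp [hk, Finset.sum_pi_single']
  have hh : ∀ j, j ≠ 0 → 0 < S.h (T t k j) ∧ S.h (T t k j) ≤ S.h S.p := by
    intro j hj
    have h1 := Int.le_ceil (S.h (t j) / S.h S.p)
    have h2 := Int.ceil_lt_add_one (S.h (t j) / S.h S.p)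
    rw [div_le_iff₀ hp0] at h1
    rw [← sub_lt_iff_lt_add, lt_div_iff₀ hp0] at h2
    simp only [T, hk, hk₁, Pi.sub_apply, Pi.single_eq_of_ne hj, sub_zero, map_add, map_zsmul,
      zsmul_eq_mul]
    push_cast
    constructor <;> linarith
  have hs : ∑ j, T t k j = S.p + S.q := by rw [T_sum, ht, hks]; simp
  have hpos : ∀ j, 0 < S.h (T t k j) := by
    intro j
    by_cases hj : j = 0
    · have := congrArg S.h hs
      rw [map_sum, Fin.sum_univ_six, map_add] at this
      rw [hj]
      linarith [(hh 1 (by decide)).2, (hh 2 (by decide)).2, (hh 3 (by decide)).2,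
        (hh 4 (by decide)).2, (hh 5 (by decide)).2]
    · exact (hh j hj).1
  have hsep' : S.Sep (T t k) fun y => 0 < S.h y := by
    refine ⟨fun ω hω x => by simp [S.h_Ω hω], fun j y hy => ?_, fun j y hy => ?_⟩
    · have := hy.h_le
      rw [map_add] at this
      linarith [hpos j]
    · have := hy.h_le
      rw [map_sub] at this
      linarith [hpos j]
  have g0 : good k := (recl htame hosec hT hG hΛ hs (T_sep hsep hp k) hsep').trans (hC _ hs hpos)
  have g1 := lower k hks g0 (fun j l hj hl hz => by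
    have := hz.le_h
    rw [map_add] at this
    linarith [(hh j hj).2, (hh l hl).2]) fun j => (k j).toNat
  have g2 := raise _ (by simp [hks, Ds]) g1 fun j => (-k j).toNat
  have e : k - D (fun j => (k j).toNat) + D (fun j => (-k j).toNat) = 0 := by
    funext j
    by_cases hj : j = 0
    · subst hj
      simp only [Fin.sum_univ_six] at hks
      simp only [hD, Pi.add_apply, Pi.sub_apply, Pi.single_eq_same, Fin.sum_univ_six, Pi.zero_apply]
      omega
    · simp only [Pi.add_apply, Pi.sub_apply, Dn _ j hj, Pi.zero_apply]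
      omega
  have e' : T t 0 = t := by funext j; simp [T]
  rw [e] at g2
  simpa only [hgood, e'] using g2

end

end Pool.Agent.P.MP_29cb78_nt.E
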