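import Pool.Agent.P.MP_29cb78_nt.E.Basic

/-!
Holomorphic dependence of the beta integral on the parameters.
-/

namespace Pool.Agent.P.MP_29cb78_nt.E

open Filter Topology MeasureTheory Set Metric
open scoped Classical Real

noncomputable section

namespace Bhol

open Setup

lemma diff_integral {F : ℂ × ℂ → ℂ} {U : Set ℂ} (hU : IsOpen U)
    (hF : ∀ z ∈ U, ∀ u : ℝ, AnalyticAt ℂ F (z, u)) :
    DifferentiableOn ℂ (fun z => ∫ u in (0 : ℝ)..1, F (z, u)) U := by
  intro z₀ hz₀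
  obtain ⟨r, hr, hsub⟩ := Metric.nhds_basis_closedBall.mem_iff.1 (hU.mem_nhds hz₀)
  have hc : Continuous fun p : ℂ × ℝ => (p.1, (p.2 : ℂ)) := by fun_prop
  have c0 : ∀ z ∈ U, Continuous fun u : ℝ => F (z, u) := fun z hz =>
    continuous_iff_continuousAt.2 fun u =>
      ContinuousAt.comp (f := fun u : ℝ => (z, (u : ℂ))) (hF z hz u).continuousAt (by fun_prop)
  have c1 : ∀ z ∈ U, ∀ u : ℝ,
      ContinuousAt (fun p : ℂ × ℝ => fderiv ℂ F (p.1, p.2) (1, 0)) (z, u) := fun z hz u =>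
    ContinuousAt.clm_apply (ContinuousAt.comp (f := fun p : ℂ × ℝ => (p.1, (p.2 : ℂ)))
      (hF z hz u).fderiv.continuousAt hc.continuousAt) continuousAt_const
  have c2 : Continuous fun u : ℝ => fderiv ℂ F (z₀, u) (1, 0) :=
    continuous_iff_continuousAt.2 fun u =>
      ContinuousAt.comp (f := fun u : ℝ => (z₀, u)) (c1 z₀ hz₀ u) (by fun_prop)
  obtain ⟨C, hC⟩ := ((isCompact_closedBall z₀ r).prod (isCompact_uIcc (a := (0 : ℝ)) (b := 1))
    ).exists_bound_of_continuousOn (f := fun p : ℂ × ℝ => fderiv ℂ F (p.1, p.2) (1, 0))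
    fun p hp => (c1 p.1 (hsub hp.1) p.2).continuousWithinAt
  have key := (intervalIntegral.hasDerivAt_integral_of_dominated_loc_of_deriv_le (μ := volume)
    (a := 0) (b := 1) (F := fun z (u : ℝ) => F (z, u))
    (F' := fun z (u : ℝ) => fderiv ℂ F (z, u) (1, 0)) (bound := fun _ => C)
    (closedBall_mem_nhds z₀ hr)
    ((hU.eventually_mem hz₀).mono fun x hx => (c0 x hx).aestronglyMeasurable)
    ((c0 z₀ hz₀).intervalIntegrable _ _) c2.aestronglyMeasurable
    (Eventually.of_forall fun θ hθ x hx => hC (x, θ) ⟨hx, uIoc_subset_uIcc hθ⟩)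
    intervalIntegrable_const (Eventually.of_forall fun θ _ x hx => by
      have h1 : HasDerivAt (fun x : ℂ => (x, (θ : ℂ))) (1, 0) x :=
        (hasDerivAt_id x).prodMk (hasDerivAt_const x _)
      exact (hF x (hsub hx) θ).differentiableAt.hasFDerivAt.comp_hasDerivAt x h1)).2
  exact key.differentiableAt.differentiableWithinAt

variable {S : Setup}

lemma h_line (j : ℕ) (u : ℝ) : S.h (j • S.q + S.ι (S.γ / S.ε * (u - j * S.τq))) = 0 := by
  have := S.γ_ne
  have := S.ε_ne
  have e : S.w (j • S.q + S.ι (S.γ / S.ε * (u - j * S.τq))) = u := by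
    simp only [map_add, map_nsmul, w_q, w_ι, nsmul_eq_mul]
    field_simp
    ring
  rw [h_def, e]
  simp

lemma an_comp {G : S.A → ℂ} (hG : S.GH G) (x : S.A) {φ : ℂ × ℂ → ℂ} {p : ℂ × ℂ}
    (hφ : AnalyticAt ℂ φ p) (h : 0 < S.h (x + S.ι (φ p))) :
    AnalyticAt ℂ (fun r => G (x + S.ι (φ r))) p :=
  AnalyticAt.comp (g := S.sl G x) (hG.analyticAt x _ fun hp => absurd hp.h_le (not_le.2 h)) hφ

end Bhol

open Bhol Setup in
theorem bhol_thm : S_BHOL := by
  intro S hT G hG t u
  have hU : IsOpen {z : ℂ | ∀ j, 0 < S.h (t j + S.ι (z * u j))} := by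
    rw [Set.ofPred_forall]
    refine isOpen_iInter_of_finite fun j => isOpen_lt continuous_const ?_
    simp only [map_add]
    exact continuous_const.add (S.continuous_h_ι.comp (by fun_prop))
  unfold Setup.Lin
  refine DifferentiableOn.fun_sum fun k _ => ?_
  refine diff_integral (F := fun r : ℂ × ℂ => S.II G (fun j => t j + S.ι (r.1 * u j))
    (k • S.q + S.ι (S.γ / S.ε * (r.2 - k * S.τq)))) hU fun z hz v => ?_
  have hϑ : ∀ x, AnalyticAt ℂ S.ϑ x := hT.diff.analyticAt
  have a1 : AnalyticAt ℂ (fun r : ℂ × ℂ => S.γ / S.ε * (r.2 - k * S.τq)) (z, v) :=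
    analyticAt_const.mul (analyticAt_snd.sub analyticAt_const)
  have a2 : ∀ c, AnalyticAt ℂ (fun r : ℂ × ℂ => r.1 * c) (z, v) := fun c =>
    analyticAt_fst.mul analyticAt_const
  unfold Setup.II Setup.WW
  refine AnalyticAt.mul (Finset.analyticAt_fun_prod _ fun j _ => AnalyticAt.mul ?_ ?_)
    (AnalyticAt.mul ?_ ?_)
  · have e : ∀ r : ℂ × ℂ, t j + S.ι (r.1 * u j) + (k • S.q + S.ι (S.γ / S.ε * (r.2 - k * S.τq))) =
        t j + k • S.q + S.ι (r.1 * u j + S.γ / S.ε * (r.2 - k * S.τq)) := fun r => by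
      rw [map_add]; abel
    simp only [e]
    refine an_comp hG _ ((a2 _).add a1) ?_
    rw [← e (z, v), map_add, h_line, add_zero]
    exact hz j
  · have e : ∀ r : ℂ × ℂ, t j + S.ι (r.1 * u j) - (k • S.q + S.ι (S.γ / S.ε * (r.2 - k * S.τq))) =
        t j - k • S.q + S.ι (r.1 * u j - S.γ / S.ε * (r.2 - k * S.τq)) := fun r => by
      rw [map_sub]; abel
    simp only [e]
    refine an_comp hG _ ((a2 _).sub a1) ?_
    rw [← e (z, v), map_sub, h_line, sub_zero]
    exact hz j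
  · simp only [map_add, x₁_ι]
    exact AnalyticAt.comp (g := S.ϑ) (hϑ _)
      (analyticAt_const.mul (analyticAt_const.add (analyticAt_const.mul a1)))
  · simp only [map_add, x₂_ι]
    exact AnalyticAt.comp (g := S.ϑ) (hϑ _) (analyticAt_const.mul (analyticAt_const.add a1))

end

end Pool.Agent.P.MP_29cb78_nt.E
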