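import Pool.Agent.P.MP_29cb78_nt.E.Basic

/-!
Liouville's theorem on a strip.
-/

namespace Pool.Agent.P.MP_29cb78_nt.E

open Filter Topology
open scoped Classical Real

noncomputable section

namespace Bliou

open Setup

variable {S : Setup} {F : S.A → ℂ} {H : ℝ}

lemma step_nat (hp : ∀ x, 0 < S.h x → S.h (x + S.p) < H → F (x + S.p) = F x) (k : ℕ) :
    ∀ x, 0 < S.h x → S.h (x + k • S.p) < H → F (x + k • S.p) = F x := by
  induction k with
  | zero => intro x _ _; simp
  | succ k ih =>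
    intro x h0 h1
    have hk := mul_nonneg (Nat.cast_nonneg (α := ℝ) k) S.h_p_pos.le
    have hpp := S.h_p_pos
    have e : x + (k + 1) • S.p = x + k • S.p + S.p := by rw [succ_nsmul, add_assoc]
    rw [e] at h1 ⊢
    have h2 : S.h (x + k • S.p) < H := by
      rw [map_add] at h1
      linarith
    have h3 : 0 < S.h (x + k • S.p) := by
      rw [map_add, map_nsmul, nsmul_eq_mul]
      linarith
    rw [hp _ h3 h1, ih x h0 h2]

lemma step_int (hp : ∀ x, 0 < S.h x → S.h (x + S.p) < H → F (x + S.p) = F x) (x : S.A)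
    (k l : ℤ) (h0 : 0 < S.h (x + k • S.p)) (h1 : S.h (x + k • S.p) < H)
    (h2 : 0 < S.h (x + l • S.p)) (h3 : S.h (x + l • S.p) < H) :
    F (x + k • S.p) = F (x + l • S.p) := by
  wlog hkl : k ≤ l generalizing k l
  · exact (this l k h2 h3 h0 h1 (le_of_not_ge hkl)).symm
  obtain ⟨n, rfl⟩ := Int.le.dest hkl
  have e : x + (k + n) • S.p = x + k • S.p + n • S.p := by
    rw [add_zsmul, natCast_zsmul, add_assoc]
  rw [e] at h3 ⊢
  exact (step_nat hp n _ h0 h3).symm

lemma exists_strip (hH : S.h S.p < H) (x : S.A) :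
    ∃ k : ℤ, 0 < S.h (x + k • S.p) ∧ S.h (x + k • S.p) < H := by
  have hp := S.h_p_pos
  refine ⟨⌊-S.h x / S.h S.p⌋ + 1, ?_, ?_⟩
  · have := Int.lt_floor_add_one (-S.h x / S.h S.p)
    rw [div_lt_iff₀ hp] at this
    rw [map_add, map_zsmul, zsmul_eq_mul]
    push_cast
    linarith
  · have := Int.floor_le (-S.h x / S.h S.p)
    rw [le_div_iff₀ hp] at this
    rw [map_add, map_zsmul, zsmul_eq_mul]
    push_cast
    linarith

end Bliou

open Bliou in
theorem bliou_thm : S_BLIOU := by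
  intro S hT F H hH hd hΩ hp
  choose K hK0 hK1 using exists_strip (S := S) hH
  set Ft : S.A → ℂ := fun x => F (x + K x • S.p) with hFt
  have hk : ∀ x (k : ℤ), 0 < S.h (x + k • S.p) → S.h (x + k • S.p) < H →
      Ft x = F (x + k • S.p) := fun x k h0 h1 => step_int hp x _ _ (hK0 x) (hK1 x) h0 h1
  have hpi : ∀ x (k : ℤ), Ft (x + k • S.p) = Ft x := by
    intro x k
    have e : x + k • S.p + (K x - k) • S.p = x + K x • S.p := by
      rw [sub_zsmul]; abel
    rw [hk (x + k • S.p) (K x - k) (by rw [e]; exact hK0 x) (by rw [e]; exact hK1 x), e]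
  have hΩi : ∀ ω ∈ S.Ω, ∀ x, Ft (x + ω) = Ft x := by
    intro ω hω x
    have e : x + ω + K x • S.p = x + K x • S.p + ω := by abel
    have e' : S.h (x + ω + K x • S.p) = S.h (x + K x • S.p) := by
      rw [e, map_add, S.h_Ω hω, add_zero]
    rw [hk (x + ω) (K x) (by rw [e']; exact hK0 x) (by rw [e']; exact hK1 x), e,
      hΩ ω hω _ (hK0 x) (hK1 x)]
  have hdiff : Differentiable ℂ fun z => Ft (S.ι z) := by
    intro z₀
    set k := K (S.ι z₀)
    have hc : Continuous fun z => S.h (S.ι z + k • S.p) := by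
      simp only [map_add]
      exact S.continuous_h_ι.add continuous_const
    have e0 : ∀ᶠ z in 𝓝 z₀, 0 < S.h (S.ι z + k • S.p) :=
      (hc.tendsto z₀).eventually (lt_mem_nhds (hK0 _))
    have e1 : ∀ᶠ z in 𝓝 z₀, S.h (S.ι z + k • S.p) < H :=
      (hc.tendsto z₀).eventually (gt_mem_nhds (hK1 _))
    have h1 : DifferentiableAt ℂ (fun z => S.sl F (S.ι z₀ + k • S.p) (z - z₀)) z₀ := by
      refine DifferentiableAt.comp z₀ (g := S.sl F (S.ι z₀ + k • S.p)) ?_ (by fun_prop)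
      rw [sub_self]
      exact hd _ (hK0 _) (hK1 _)
    refine h1.congr_of_eventuallyEq ?_
    filter_upwards [e0, e1] with z h0 h1
    rw [hk _ k h0 h1, Setup.sl]
    congr 1
    rw [map_sub]
    abel
  have hper : ∀ m ∈ S.M, ∀ z, Ft (S.ι (z + m)) = Ft (S.ι z) := by
    intro m hm z
    obtain ⟨h1, -, h2⟩ := S.pt_mem_Ω S.M.zero_mem hm
    obtain ⟨m', hm', e⟩ := S.exists_p (S.pt 0 m)
    rw [h2] at e
    have h3 := (S.pt_mem_Ω hm' S.M.zero_mem).1
    have e' : S.ι (z + m) = S.ι z + (-S.n (S.pt 0 m)) • S.p + (S.pt 0 m - S.pt m' 0) := by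
      rw [map_add, neg_zsmul]
      nth_rewrite 2 [e]
      abel
    rw [e', hΩi _ (S.Ω.sub_mem h1 h3), hpi]
  have hF : ∀ x, 0 < S.h x → S.h x < H → F x = Ft (S.ι (S.x₂ x)) := by
    intro x h0 h1
    obtain ⟨m, hm, e⟩ := S.exists_p x
    have h2 := hk x 0 (by simpa using h0) (by simpa using h1)
    rw [zero_zsmul, add_zero] at h2
    rw [← h2]
    conv_lhs => rw [e]
    rw [hΩi _ (S.pt_mem_Ω hm S.M.zero_mem).1, hpi]
  intro x y hx0 hx1 hy0 hy1
  rw [hF x hx0 hx1, hF y hy0 hy1]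
  exact hT.liou _ hdiff hper _ _

end

end Pool.Agent.P.MP_29cb78_nt.E
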