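import Pool.Agent.P.MP_29cb78_nt.E.Basic

namespace Pool.Agent.P.MP_29cb78_nt.E

open Finset Filter Topology

namespace Bmove

variable {S : Setup} {G : S.A → ℂ} {s : Fin 6 → S.A} {Λ : (S.A → ℂ) → (S.A → Prop) → ℂ}

theorem not_pole {x : S.A} (h : 0 < S.h x) : ¬ S.Pole x := fun hp => absurd hp.h_le (not_le.2 h)

theorem sep (h : ∀ j, 0 < S.h (s j)) : S.Sep s fun y => 0 < S.h y where
  clper ω hω x := by rw [map_add, S.h_Ω hω, add_zero]
  lower j y hp := by
    have := hp.h_le
    rw [map_add] at this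
    linarith [h j]
  upper j y hp := by
    have := hp.h_le
    rw [map_sub] at this
    linarith [h j]

theorem tame (htame : S_TAME) (hosec : S_OSEC) (hT : S.TH) (hG : S.GH G)
    (hs : ∑ j, s j = S.p + S.q) (h : ∀ j, 0 < S.h (s j)) :
    S.Tame (S.II G s) fun y => 0 < S.h y :=
  htame S hT G hG 6 4 4 s 1 1 _ _ _ (by decide) (by simpa using hs) rfl rfl (hosec S hT).2.2.2.2
    (hosec S hT).2.2.2.2 (sep h)

theorem analytic (hT : S.TH) (hG : S.GH G) (h : ∀ j, 0 < S.h (s j)) (x : S.A) (hx : S.h x = 0) :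
    AnalyticAt ℂ (S.sl (S.II G s) x) 0 := by
  have h1 : AnalyticAt ℂ (fun z => ∏ j, (S.sl (fun u => G (s j + u)) x z *
      S.sl (fun u => G (s j - u)) x z)) 0 :=
    analyticAt_fun_prod _ fun j _ =>
      (hG.analyticAt_add (not_pole (by rw [map_add, hx, add_zero]; exact h j))).mul
        (hG.analyticAt_sub (not_pole (by rw [map_sub, hx, sub_zero]; exact h j)))
  have h2 : Differentiable ℂ fun z => S.ϑ (2 * (S.x₁ x + S.ε * z)) * S.ϑ (2 * (S.x₂ x + z)) := by
    have := hT.diff
    fun_prop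
  exact h1.mul (h2.analyticAt 0)

theorem pair_ne (hG : S.GH G) (hs : ∑ j, s j = S.p + S.q) (h : ∀ j, 0 < S.h (s j)) {j l : Fin 6}
    (hjl : j ≠ l) : G (s j + s l) ≠ 0 := by
  refine hG.ne_zero (not_pole (by rw [map_add]; exact add_pos (h j) (h l))) fun hz => ?_
  have h1 := hz.le_h
  have h2 := sum_sdiff (f := fun i => S.h (s i)) (subset_univ {j, l})
  have h3 : 0 < ∑ i ∈ univ \ {j, l}, S.h (s i) := sum_pos (fun i _ => h i) 
    ((by decide : ∀ j l : Fin 6, (univ \ {j, l} : Finset (Fin 6)).Nonempty) j l)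
  rw [sum_pair hjl, ← map_sum S.h s univ, hs] at h2
  simp only [map_add] at h1 h2
  linarith

theorem PG_ne (hG : S.GH G) (hs : ∑ j, s j = S.p + S.q) (h : ∀ j, 0 < S.h (s j)) :
    S.PG G s ≠ 0 :=
  prod_ne_zero_iff.2 fun _ _ => prod_ne_zero_iff.2 fun _ hl => pair_ne hG hs h (mem_Ioi.1 hl).ne

theorem diff (hbhol : S_BHOL) (htame : S_TAME) (hosec : S_OSEC) (hT : S.TH) (hG : S.GH G)
    (hΛ : S.LamAPI Λ) (hs : ∑ j, s j = S.p + S.q) (h : ∀ j, 0 < S.h (s j)) {u : Fin 6 → ℂ}
    (hu : ∑ j, u j = 0) : DifferentiableAt ℂ (fun z =>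
      Λ (S.II G fun j => s j + S.ι (z * u j)) (fun y => 0 < S.h y) /
        S.PG G fun j => s j + S.ι (z * u j)) 0 := by
  have h1 : {z | ∀ j, 0 < S.h (s j + S.ι (z * u j))} ∈ 𝓝 (0 : ℂ) :=
    eventually_all.2 fun j => by
      have : Continuous fun z : ℂ => S.h (s j) + S.h (S.ι (z * u j)) :=
        continuous_const.add (S.continuous_h_ι.comp (by fun_prop))
      simpa using this.continuousAt.eventually (lt_mem_nhds (by simpa using h j))
  refine DifferentiableAt.div (((hbhol S hT G hG s u).differentiableAt h1).congr_of_eventuallyEq ?_)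
    ?_ (by simpa using PG_ne hG hs h)
  · filter_upwards [h1] with z hz
    refine hΛ.lin _ (tame htame hosec hT hG ?_ hz) (analytic hT hG hz)
    rw [sum_add_distrib, hs, ← map_sum, ← mul_sum, hu, mul_zero, map_zero, add_zero]
  · refine DifferentiableAt.fun_finsetProd fun j _ => .fun_finsetProd fun l _ => ?_
    have h2 : (fun z => G (s j + S.ι (z * u j) + (s l + S.ι (z * u l)))) =
        S.sl G (s j + s l) ∘ fun z => z * (u j + u l) := funext fun z => by
      simp only [Setup.sl, Function.comp, mul_add, map_add, add_add_add_comm]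
    rw [h2]
    refine DifferentiableAt.comp _ (hG.analyticAt _ _ ?_).differentiableAt (by fun_prop)
    simpa using not_pole (by rw [map_add]; exact add_pos (h j) (h l))

end Bmove

open Bmove in
theorem bmove_thm (hgper : S_GPER) (hbsh : S_BSH) (hbhol : S_BHOL) (hbliou : S_BLIOU)
    (htame : S_TAME) (hosec : S_OSEC) : S_BMOVE := by
  intro S hT G hG Λ hΛ t t' a b hab hs hs' h h' ho hq
  let T : S.A → Fin 6 → S.A := fun x => t + Pi.single a (x - t a) - Pi.single b (x - t a)
  have Ta : ∀ x, T x a = x := fun x => by simp [T, hab]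
  have Tb : ∀ x, T x b = t a + t b - x := fun x => by
    simp only [T, Pi.sub_apply, Pi.add_apply, Pi.single_eq_of_ne hab.symm, Pi.single_eq_same]
    abel
  have To : ∀ x j, j ≠ a → j ≠ b → T x j = t j := fun x j h1 h2 => by simp [T, h1, h2]
  have Tadd : ∀ x y, T (x + y) = T x + Pi.single a y - Pi.single b y := fun x y => by
    simp only [T, add_sub_right_comm x, Pi.single_add]
    abel
  have Ts : ∀ x, ∑ j, T x j = S.p + S.q := fun x => by
    simp [T, sum_add_distrib, hs]
  have Th : ∀ x, 0 < S.h x → S.h x < S.h (t a + t b) → ∀ j, 0 < S.h (T x j) := fun x h1 h2 j => by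
    by_cases ha : j = a
    · rwa [ha, Ta]
    by_cases hb : j = b
    · rw [hb, Tb, map_sub]
      linarith
    · rw [To x j ha hb]
      exact h j
  have split : ∀ s : Fin 6 → S.A, ∑ j, s j = S.p + S.q → (∀ j, j ≠ a → j ≠ b → s j = t j) →
      ∑ j ∈ univ \ {a, b}, t j + (s a + s b) = S.p + S.q := fun s h1 h2 => by
    rw [← h1, ← sum_sdiff (subset_univ {a, b}), sum_pair hab]
    congr 1
    exact sum_congr rfl fun j hj => (h2 j (fun e => by simp [e] at hj) fun e => by simp [e] at hj).symm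
  have e1 := split t hs fun _ _ _ => rfl
  have e2 : t' a + t' b = t a + t b := add_left_cancel ((split t' hs' ho).trans e1.symm)
  have e3 : T (t a) = t := by simp [T]
  have e4 : T (t' a) = t' := funext fun j => by
    by_cases ha : j = a
    · rw [ha, Ta]
    by_cases hb : j = b
    · rw [hb, Tb, ← e2, add_sub_cancel_left]
    · rw [To _ j ha hb, ho j ha hb]
  have := hbliou S hT (fun x => Λ (S.II G (T x)) (fun y => 0 < S.h y) / S.PG G (T x))
    (S.h (t a + t b)) ?_ (fun x h1 h2 => ?_) (fun ω hω x h1 h2 => ?_) (fun x h1 h2 => ?_) (t a) (t' a)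
    (h a) (by rw [map_add]; linarith [h b]) (h' a) (by rw [← e2, map_add]; linarith [h' b])
  · rwa [e3, e4] at this
  · have := congrArg S.h e1
    rw [map_add, map_sum, map_add S.h S.p] at this
    linarith
  · have e : ∀ z, T (x + S.ι z) =
        fun j => T x j + S.ι (z * (Pi.single a 1 - Pi.single b 1 : Fin 6 → ℂ) j) := fun z => by
      funext j
      simp only [Tadd, Pi.sub_apply, Pi.add_apply, Pi.single_apply, mul_sub, map_sub, add_sub_assoc]
      split_ifs <;> simp
    have := diff hbhol htame hosec hT hG hΛ (Ts x) (Th x h1 h2)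
      (u := Pi.single a 1 - Pi.single b 1) (by simp)
    simp only [← e] at this
    exact this
  · obtain ⟨c, hc, c1, c2⟩ := hgper S hT G hG (T x) a b hab (Ts x) ω hω
    have : S.II G (T x + Pi.single a ω - Pi.single b ω) = fun y => c * S.II G (T x) y :=
      funext fun y => by rw [Setup.II, c1, mul_assoc, Setup.II]
    simp only [Tadd]
    rw [this, hΛ.smul _ _ c (tame htame hosec hT hG (Ts x) (Th x h1 h2)), c2, mul_div_mul_left _ _ hc]
  · have hp := S.h_p_pos
    rw [map_add] at h2
    have h3 := Th x h1 (by linarith)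
    have h4 := Th (x + S.p) (by rw [map_add]; linarith) (by rwa [map_add])
    have h5 : ∀ j, 0 < S.h ((T x - Pi.single b S.p : Fin 6 → S.A) j) := fun j => by
      by_cases hb : j = b
      · rw [hb, Pi.sub_apply, Pi.single_eq_same, Tb, map_sub, map_sub]
        linarith
      · rw [Pi.sub_apply, Pi.single_eq_of_ne hb, sub_zero]
        exact h3 j
    have h6 : ∑ j, (T x - Pi.single b S.p : Fin 6 → S.A) j = S.q := by simp [Ts]
    obtain ⟨b1, b2⟩ := hbsh S hT G hG Λ hΛ _ a b _ hab h6 (sep h5)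
    rw [sub_add_cancel, sub_add_eq_add_sub, ← Tadd] at b1 b2
    have hA : ∏ j ∈ univ \ {a, b}, S.ϑ (S.x₁ ((T x - Pi.single b S.p : Fin 6 → S.A) j +
        (T x - Pi.single b S.p : Fin 6 → S.A) b)) ≠ 0 := prod_ne_zero_iff.2 fun j hj h0 => by
      have hb : j ≠ b := fun e => by simp [e] at hj
      have := hG.shp _ (not_pole (by rw [map_add]; exact add_pos (h5 j) (h5 b)))
      rw [h0, zero_mul, Pi.sub_apply, Pi.sub_apply, Pi.single_eq_same, Pi.single_eq_of_ne hb,
        sub_zero, add_assoc, sub_add_cancel] at this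
      exact pair_ne hG (Ts x) h3 hb this
    rw [div_eq_div_iff (PG_ne hG (Ts _) h4) (PG_ne hG (Ts x) h3)]
    refine mul_left_cancel₀ hA ?_
    rw [← mul_assoc, b1, mul_left_comm, b2]
    ring

end Pool.Agent.P.MP_29cb78_nt.E
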