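import Pool.Agent.P.MP_29cb78_nt.E.Basic

/-!
The difference equation of the beta integral.
-/

namespace Pool.Agent.P.MP_29cb78_nt.E

open Filter Topology Finset

namespace Bsh

variable {S : Setup} {G : S.A → ℂ} {d : ℕ}

lemma pairs (u : Fin d → ℂ) (a : Fin d) :
    ∏ j, ∏ l ∈ Ioi j, ((if j = a then u l else 1) * if l = a then u j else 1) =
      ∏ j ∈ univ.erase a, u j := by
  simp only [prod_mul_distrib, prod_ite_eq', prod_ite_irrel, prod_const_one, mem_univ, if_true,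
    mem_Ioi]
  rw [← prod_filter, filter_gt_eq_Iio, ← prod_union (by simp [disjoint_left]; omega)]
  congr 1
  ext j
  simp only [mem_union, mem_Ioi, mem_Iio, mem_erase, mem_univ, and_true]
  omega

lemma pg (hG : S.GH G) {t : Fin d → S.A} {cl : S.A → Prop} (h : S.Sep t cl) (a : Fin d) :
    S.PG G (t + Pi.single a S.p) = S.PG G t * ∏ j ∈ univ.erase a, S.ϑ (S.x₁ (t j + t a)) := by
  rw [← pairs, Setup.PG, Setup.PG, ← prod_mul_distrib]
  refine prod_congr rfl fun j _ => ?_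
  rw [← prod_mul_distrib]
  refine prod_congr rfl fun l hl => ?_
  have hl := (mem_Ioi.1 hl).ne
  have := hG.shp _ (h.not_pole j l)
  by_cases h1 : j = a
  · subst h1
    simp only [Pi.add_apply, Pi.single_eq_same, Pi.single_eq_of_ne hl.symm, add_zero, if_true,
      if_neg hl.symm, add_right_comm _ S.p, this, add_comm (t l) (t j)]
    ring
  by_cases h2 : l = a
  · subst h2
    simp only [Pi.add_apply, Pi.single_eq_same, Pi.single_eq_of_ne hl, add_zero, if_true,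
      if_neg hl, ← add_assoc, this]
    ring
  simp [h1, h2]

lemma ww (hG : S.GH G) (t : Fin d → S.A) (a : Fin d) {y : S.A} (h1 : ¬ S.Pole (t a + y))
    (h2 : ¬ S.Pole (t a - y)) : S.WW G (t + Pi.single a S.p) y =
      S.WW G t y * (S.ϑ (S.x₁ (t a) + S.x₁ y) * S.ϑ (S.x₁ (t a) - S.x₁ y)) := by
  rw [Setup.WW, Setup.WW, ← mul_prod_erase _ _ (mem_univ a), ← mul_prod_erase _ _ (mem_univ a),
    prod_congr rfl fun j hj => show _ = G (t j + y) * G (t j - y) by
      rw [Pi.add_apply, Pi.single_eq_of_ne (ne_of_mem_erase hj), add_zero]]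
  rw [Pi.add_apply, Pi.single_eq_same, add_right_comm, add_sub_right_comm, hG.shp _ h1,
    hG.shp _ h2, map_add, map_sub]
  ring

lemma split (u : Fin d → ℂ) {a b : Fin d} (h : a ≠ b) :
    ∏ j ∈ univ.erase a, u j = u b * ∏ j ∈ univ \ {a, b}, u j := by
  rw [← mul_prod_erase _ _ (mem_erase.2 ⟨h.symm, mem_univ b⟩)]
  congr 2
  ext j
  simp [and_comm]

end Bsh

open Bsh in
theorem bsh_thm (hosec : S_OSEC) (ht1 : S_T1) (htame : S_TAME) (hex : S_EX) : S_BSH := by
  intro S T G hG Λ hΛ t a b cl hab hs hc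
  refine ⟨?_, by
    rw [pg hG hc, pg hG hc, split _ hab, split _ hab.symm, pair_comm b a, add_comm (t b)]
    ring⟩
  obtain ⟨-, -, o3, o4, o5⟩ := hosec S T
  have s0 : ∑ j, S.x₁ (t j) = 0 := by rw [← map_sum, hs, S.x₁_q]
  have tm : ∀ f, S.Sec 6 f → S.Tame (fun y => S.WW G t y * (f (S.x₁ y) * S.ϑ (2 * S.x₂ y))) cl :=
    fun f hf => htame S T G hG 6 6 4 t 0 1 f _ cl (by decide) (by simpa using hs) rfl rfl hf o5 hc
  have e : ∀ c, Λ (fun y => S.WW G t y * (S.ff (S.x₁ (t c)) (S.x₁ y) * S.ϑ (2 * S.x₂ y))) cl =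
      Λ (S.II G (t + Pi.single c S.p)) cl := fun c => hΛ.congr _ _ _ (tm _ (o4 _))
    (Setup.AE.of_eventually (fun y => ¬ S.Pole (t c + y) ∧ ¬ S.Pole (t c - y))
      (fun x => (T.not_pole_add _ x).and (T.not_pole_sub _ x)) fun y hy => by
        rw [Setup.II, ww hG t c hy.1 hy.2, Setup.ff]
        ring)
  have z := (hex S T G hG Λ hΛ 6 4 t 1 _ cl (by decide) rfl o5 hc).1 (by simpa using hs)
  rw [← sub_eq_zero, ← e, ← e, ← hΛ.smul _ _ _ (tm _ (o4 _)), ← hΛ.smul _ _ _ (tm _ (o4 _)),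
    ← hΛ.sub ((tm _ (o4 _)).smul _) ((tm _ (o4 _)).smul _),
    ← mul_zero (S.ϑ (S.x₁ (t a) - S.x₁ (t b))), ← z,
    ← hΛ.smul _ _ _ (tm _ (o3 6 _ (by decide) s0).2.2)]
  congr 1
  funext y
  simp only [map_add]
  linear_combination (-(S.WW G t y * S.ϑ (2 * S.x₂ y))) * ht1 S T _ a b s0 hab (S.x₁ y)

end Pool.Agent.P.MP_29cb78_nt.E
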