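import Pool.Agent.P.MP_29cb78_nt.E.Basic

namespace Pool.Agent.P.MP_29cb78_nt.E

open Finset
open scoped Classical

namespace Conv

variable {S : Setup} {G : S.A → ℂ} {d : ℕ} {t : Fin d → S.A} {e : Equiv.Perm (Fin d)}
  {k : Fin d → ℤ} {θ : ℂ → ℚ}

theorem x₁_T (i : ℤ) : S.x₁ (i • (S.p - S.q)) = i * S.lam := by simp
theorem x₂_T (i : ℤ) : S.x₂ (i • (S.p - S.q)) = i * S.lam := by simp
theorem x₁_U (i : ℤ) : S.x₁ (i • (S.p + S.q)) = i * S.lam := by simp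
theorem x₂_U (i : ℤ) : S.x₂ (i • (S.p + S.q)) = -(i * S.lam) := by simp

theorem lam_mul (i : ℤ) : i * S.lam ∈ S.L := zsmul_eq_mul S.lam i ▸ S.L.zsmul_mem S.lam_mem i

theorem lat_T (i : ℤ) : S.Lat (i • (S.p - S.q)) := (S.lat_p.sub S.lat_q).zsmul i
theorem lat_U (i : ℤ) : S.Lat (i • (S.p + S.q)) := (S.lat_p.add S.lat_q).zsmul i

theorem cls_eq {x y : S.A} : S.cls x = S.cls y ↔ S.Lat (x - y) := by
  rw [← S.cls_eq_zero, map_sub, sub_eq_zero]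

theorem cls_add {x y : S.A} (hy : S.Lat y) : S.cls (x + y) = S.cls x := by
  rw [map_add, S.cls_eq_zero.2 hy, add_zero]

theorem mem_Kr {c : ℂ} {g : ℂ ⧸ S.L} : g ∈ S.Kr c ↔ ∃ z : ℂ, c * z ∈ S.L ∧ (z : ℂ ⧸ S.L) = g :=
  Iff.rfl

theorem thr_eq (h : S.Thr t θ) {x y : S.A} (hl : S.Lat (x - y)) : θ (S.x₂ x) = θ (S.x₂ y) := by
  rw [← h.per (S.x₂ y) _ (S.lat_iff.1 hl), map_sub, add_sub_cancel]

theorem kk_int {x y : S.A} (hl : S.Lat (x - y)) : ∃ i : ℤ, S.kk x = S.kk y + i := by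
  obtain ⟨i, hi⟩ := S.a_exists (S.lat_iff.1 hl)
  refine ⟨-i, ?_⟩
  simp only [map_sub] at hi
  simp only [S.kk_def, Int.cast_neg]
  linarith

/-- The two windows. -/
def B₁ (S : Setup) (θ : ℂ → ℚ) (y : S.A) : Prop :=
  S.x₁ y - S.x₂ y ∈ S.M ∧ θ (S.x₂ y) - 1 ≤ S.kk y ∧ S.kk y < θ (S.x₂ y)

def B₂ (S : Setup) (θ : ℂ → ℚ) (y : S.A) : Prop :=
  S.x₁ y + S.x₂ y ∈ S.M ∧ θ (S.x₂ y) ≤ S.kk y ∧ S.kk y < θ (S.x₂ y) + 1

theorem int_eq {i n : ℤ} (h1 : (n : ℚ) - 1 < i) (h2 : (i : ℚ) < n + 1) : (i : ℚ) = n := by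
  have h3 : n - 1 < i := by exact_mod_cast h1
  have h4 : i < n + 1 := by exact_mod_cast h2
  exact_mod_cast (by omega : i = n)

theorem uniq₁ (h : S.Thr t θ) {x y : S.A} (hx : B₁ S θ x) (hy : B₁ S θ y) (hl : S.Lat (x - y)) :
    x - y ∈ S.Ω := by
  obtain ⟨i, hi⟩ := kk_int hl
  have h1 := thr_eq h hl
  have h2 := int_eq (i := i) (n := 0) (by push_cast; linarith [hx.2.1, hy.2.2])
    (by push_cast; linarith [hx.2.2, hy.2.1])
  have h3 := (S.mem_M.1 hx.1).2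
  have h4 := (S.mem_M.1 hy.1).2
  simp only [S.kk_def, h2, Int.cast_zero, map_sub] at hi h3 h4
  refine S.mem_Ω.2 ⟨S.mem_M.2 ⟨hl, ?_⟩, S.mem_M.2 ⟨S.lat_iff.1 hl, ?_⟩⟩ <;>
    simp only [map_sub] <;> linarith

theorem uniq₂ (h : S.Thr t θ) {x y : S.A} (hx : B₂ S θ x) (hy : B₂ S θ y) (hl : S.Lat (x - y)) :
    x - y ∈ S.Ω := by
  obtain ⟨i, hi⟩ := kk_int hl
  have h1 := thr_eq h hl
  have h2 := int_eq (i := i) (n := 0) (by push_cast; linarith [hx.2.1, hy.2.2])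
    (by push_cast; linarith [hx.2.2, hy.2.1])
  have h3 := (S.mem_M.1 hx.1).2
  have h4 := (S.mem_M.1 hy.1).2
  simp only [S.kk_def, h2, Int.cast_zero, map_add] at hi h3 h4
  refine S.mem_Ω.2 ⟨S.mem_M.2 ⟨hl, ?_⟩, S.mem_M.2 ⟨S.lat_iff.1 hl, ?_⟩⟩ <;>
    simp only [map_sub] <;> linarith

theorem lift₁ (h : S.Thr t θ) (g : ℂ ⧸ S.L) :
    ∃ y, g ∈ S.Gp → S.Diag y ∧ S.cls y = g ∧ B₁ S θ (y + S.hT) := by
  by_cases hg : g ∈ S.Gp
  swap
  · exact ⟨0, fun h => absurd h hg⟩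
  obtain ⟨z, hz, rfl⟩ := mem_Kr.1 hg
  have h0 : z - S.ε * z ∈ S.L := by simpa [sub_mul] using S.L.neg_mem hz
  have h1 := S.x₁_pt h0
  have h2 := S.x₂_pt h0
  generalize S.pt z z = r at h1 h2
  let i : ℤ := ⌊S.kk (r + S.hT) - θ (S.x₂ (r + S.hT))⌋ + 1
  have h3 : θ (S.x₂ (r + i • (S.p - S.q) + S.hT)) = θ (S.x₂ (r + S.hT)) :=
    thr_eq h (by simpa using lat_T i)
  have h4 : S.kk (r + i • (S.p - S.q) + S.hT) = S.kk (r + S.hT) - i := by simp; ring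
  refine ⟨r + i • (S.p - S.q), fun _ => ⟨by simp [Setup.Diag, h1, h2], ?_, by simp [h1, h2], ?_, ?_⟩⟩
  · rw [cls_add (lat_T i), ← h1]; rfl
  · rw [h3, h4]
    simp only [i, Int.cast_add, Int.cast_one]
    linarith [Int.floor_le (S.kk (r + S.hT) - θ (S.x₂ (r + S.hT)))]
  · rw [h3, h4]
    simp only [i, Int.cast_add, Int.cast_one]
    linarith [Int.lt_floor_add_one (S.kk (r + S.hT) - θ (S.x₂ (r + S.hT)))]

theorem lift₂ (h : S.Thr t θ) (g : ℂ ⧸ S.L) :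
    ∃ y, g ∈ S.Gm → S.Anti y ∧ S.cls y = g ∧ B₂ S θ (y + S.hU) := by
  by_cases hg : g ∈ S.Gm
  swap
  · exact ⟨0, fun h => absurd h hg⟩
  obtain ⟨z, hz, rfl⟩ := mem_Kr.1 hg
  have h0 : z - S.ε * -z ∈ S.L := by simpa [add_mul, add_comm] using hz
  have h1 := S.x₁_pt h0
  have h2 := S.x₂_pt h0
  generalize S.pt z (-z) = r at h1 h2
  let i : ℤ := ⌈θ (S.x₂ (r + S.hU)) - S.kk (r + S.hU)⌉
  have h3 : θ (S.x₂ (r + i • (S.p + S.q) + S.hU)) = θ (S.x₂ (r + S.hU)) :=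
    thr_eq h (by simpa using lat_U (S := S) i)
  have h4 : S.kk (r + i • (S.p + S.q) + S.hU) = S.kk (r + S.hU) + i := by simp; ring
  refine ⟨r + i • (S.p + S.q), fun _ => ⟨by simp [Setup.Anti, h1, h2, add_comm], ?_, ?_, ?_, ?_⟩⟩
  · rw [cls_add (lat_U i), ← h1]; rfl
  · convert S.M.zero_mem using 1
    simp [h1, h2]
    ring
  · rw [h3, h4]
    linarith [Int.le_ceil (θ (S.x₂ (r + S.hU)) - S.kk (r + S.hU))]
  · rw [h3, h4]
    linarith [Int.ceil_lt_add_one (θ (S.x₂ (r + S.hU)) - S.kk (r + S.hU))]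

theorem cls_mem₁ {x : S.A} (h : S.x₁ x - S.x₂ x ∈ S.L) : S.cls (x - S.hT) ∈ S.Gp := by
  refine mem_Kr.2 ⟨_, ?_, rfl⟩
  have := S.L.sub_mem (S.L.sub_mem (S.mul_mem h) (S.diff_mem x)) (S.half_mem S.lam_mem)
  convert this using 1
  simp only [map_sub, S.x₁_hT]
  ring

theorem cls_mem₂ {x : S.A} (h : S.x₁ x + S.x₂ x ∈ S.L) : S.cls (x - S.hU) ∈ S.Gm := by
  refine mem_Kr.2 ⟨_, ?_, rfl⟩
  have := S.L.sub_mem (S.L.add_mem (S.mul_mem h) (S.diff_mem x)) S.hU_mem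
  convert this using 1
  simp only [map_sub, S.x₁_hU]
  ring

theorem reps {Y : Finset (ℂ ⧸ S.L)} {y : ℂ ⧸ S.L → S.A} {c : S.A} {B : S.A → Prop}
    (h1 : ∀ g ∈ Y, S.cls (y g) = g ∧ B (y g + c)) (h2 : ∀ x, B x → S.cls (x - c) ∈ Y)
    (h3 : ∀ x x', B x → B x' → S.Lat (x - x') → x - x' ∈ S.Ω) :
    S.Reps (Y.image fun g => y g + c) B ∧
      ∀ f : S.A → ℂ, ∑ x ∈ Y.image fun g => y g + c, f x = ∑ g ∈ Y, f (y g + c) := by
  have h4 : ∀ g ∈ Y, ∀ g' ∈ Y, S.Lat (y g + c - (y g' + c)) → g = g' := fun g hg g' hg' h => by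
    rw [add_sub_add_right_eq_sub, ← cls_eq, (h1 g hg).1, (h1 g' hg').1] at h
    exact h
  refine ⟨⟨?_, ?_, fun x hx => ⟨_, mem_image_of_mem _ (h2 x hx), ?_⟩⟩,
    fun f => sum_image fun g hg g' hg' h => h4 g hg g' hg' ?_⟩
  · simp only [mem_image]
    rintro _ ⟨g, hg, rfl⟩
    exact (h1 g hg).2
  · simp only [mem_image]
    rintro _ ⟨g, hg, rfl⟩ _ ⟨g', hg', rfl⟩ h
    rw [h4 g hg g' hg' (S.lat_Ω h)]
  · refine h3 _ _ hx (h1 _ (h2 x hx)).2 ?_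
    rw [add_comm, ← sub_sub, ← cls_eq, (h1 _ (h2 x hx)).1]
  · rw [show y g + c = y g' + c from h, sub_self]
    exact S.lat_zero

theorem x₁_sh (j : Fin d) : S.x₁ (S.sh t k j) = S.x₁ (t j) + S.lam / 2 + k j * S.lam := by
  simp [Setup.sh]

theorem x₂_sh (j : Fin d) : S.x₂ (S.sh t k j) = S.x₂ (t j) + S.lam / 2 + k j * S.lam := by
  simp [Setup.sh]

theorem fb_eq {x : S.A} (h : ¬ S.Lat x) : G (x + S.p) = S.fb G x := by rw [Setup.fb, if_neg h]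

theorem raw₁ (hF : S.FB G) (hA : S.Adm t e) (j : Fin d) {y : S.A} (hy : S.Diag y)
    (h : S.Lat (t j + y) → S.a (S.x₂ (t j + y)) < 0) : G (t j + y + S.p) = S.fb G (t j + y) := by
  rcases hA.tw j with h1 | h1
  · have h2 : S.Diag (t j + y) := by
      rw [Setup.Diag] at *
      rw [map_add, map_add, h1, hy]
    exact hF.raw _ h2 fun hl => h2 ▸ h hl
  · refine fb_eq fun hl => h1.1 ?_
    have := S.L.sub_mem hl (S.lat_iff.1 hl)
    rwa [map_add, map_add, show S.x₁ y = S.x₂ y from hy, add_sub_add_right_eq_sub] at this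

theorem drop₁ (hF : S.FB G) (hA : S.Adm t e) (hk : ∀ j, k (e j) = k j) {y : S.A} (hy : S.Diag y) :
    ∏ j, S.fb G (t j + y + k j • (S.p - S.q)) = ∏ j, S.fb G (t j + y) := by
  rw [← div_eq_one_iff_eq (prod_ne_zero_iff.2 fun j _ => hF.ne _), ← prod_div_distrib]
  refine prod_involution (fun j _ => e j) (fun j _ => ?_) (fun j _ h he => h ?_)
    (fun _ _ => mem_univ _) fun j _ => hA.inv j
  · rw [div_mul_div_comm, hk, hF.tsh, div_self (mul_ne_zero (hF.ne _) (hF.ne _))]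
    · rw [map_add, map_add, hA.sw₁, hy]
    · rw [map_add, map_add, hA.sw₂, hy]
  · rw [hF.tshD, div_self (hF.ne _)]
    have := hA.sw₁ j
    rw [show e j = j from he] at this
    rw [Setup.Diag, map_add, map_add, this, hy]

theorem drop₂ (hF : S.FB G) (hA : S.Adm t e) (hk : ∀ j, k (e j) = k j) {y : S.A} (hy : S.Anti y) :
    ∏ j, (S.fb G (t j + y + k j • (S.p - S.q)) * S.fb G (t j - y + k j • (S.p - S.q))) =
      S.WW (S.fb G) t y := by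
  rw [Setup.WW, prod_mul_distrib, prod_mul_distrib,
    ← Equiv.prod_comp e fun j => S.fb G (t j - y + k j • (S.p - S.q)),
    ← Equiv.prod_comp e fun j => S.fb G (t j - y), ← prod_mul_distrib, ← prod_mul_distrib]
  refine prod_congr rfl fun j _ => ?_
  rw [hk, hF.tsh]
  · rw [map_add, map_sub, hA.sw₁, hy, sub_neg_eq_add]
  · rw [map_add, map_sub, hA.sw₂, hy, sub_eq_add_neg]

theorem term₁ (hF : S.FB G) (hA : S.Adm t e) (hk : ∀ j, k (e j) = k j) (h : S.Thr (S.sh t k) θ)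
    {y : S.A} (hy : S.Diag y) (hB : B₁ S θ (y + S.hT)) :
    ∏ j, (G (S.sh t k j + (y + S.hT) + S.q) * G (S.sh t k j - (y + S.hT) + S.p)) =
      S.WW (S.fb G) t y := by
  have hy' : S.Diag (-y) := by rw [Setup.Diag, map_neg, map_neg, hy]
  have hD : ∀ {z : S.A} (i : ℤ), S.Diag z → S.Diag (z + i • (S.p - S.q)) := fun {z} i hz => by
    rw [Setup.Diag, map_add, map_add, x₁_T, x₂_T, hz]
  simp only [Setup.WW, sub_eq_add_neg (t _)]
  rw [prod_mul_distrib, prod_mul_distrib, ← drop₁ hF hA hk hy, ← drop₁ hF hA hk hy']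
  congr 1 <;> refine prod_congr rfl fun j _ => ?_
  · have e1 : S.sh t k j + (y + S.hT) = t j + (y + k j • (S.p - S.q)) + (S.p - S.q) := by
      rw [Setup.sh, ← S.hT_add_hT]; abel
    rw [e1, add_assoc _ _ S.q, sub_add_cancel, raw₁ hF hA j (hD _ hy) fun hl => ?_, add_assoc]
    have h1 := h.lower j (y + S.hT) (e1 ▸ hl.add (S.lat_p.sub S.lat_q))
    have h2 := congrArg (fun z => S.a (S.x₂ z)) e1
    have h3 := hB.2.1
    simp only [map_add _ _ (S.p - S.q), map_add _ (S.sh t k j), map_sub, S.x₂_p, S.x₂_q, map_zero,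
      map_neg, S.a_lam, map_add S.a] at h2
    rw [S.kk_def] at h3
    linarith
  · have e1 : S.sh t k j - (y + S.hT) = t j + (-y + k j • (S.p - S.q)) := by
      rw [Setup.sh]; abel
    rw [e1, raw₁ hF hA j (hD _ hy') fun hl => ?_, add_assoc]
    have h1 := h.upper j (y + S.hT) (e1 ▸ hl)
    have h3 := hB.2.2
    rw [S.kk_def] at h3
    rw [← e1, map_sub, map_sub]
    linarith

theorem diag_of (hA : S.Adm t e) (j : Fin d) {y : S.A} (hy : S.x₁ y + S.x₂ y ∈ S.L)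
    (hl : S.Lat (t j + y)) : S.Diag (t j) := by
  refine (hA.tw j).resolve_right fun h => h.2 ?_
  convert S.L.sub_mem (S.L.add_mem hl (S.lat_iff.1 hl)) hy using 1
  simp only [map_add]
  ring

theorem term₂ (hF : S.FB G) (hA : S.Adm t e) (hk : ∀ j, k (e j) = k j) {y : S.A} (hy : S.Anti y)
    (h2 : 2 * S.x₁ y ∉ S.L) :
    ∏ j, (G (S.sh t k j + (y + S.hU)) * G (S.sh t k j - (y + S.hU) + S.p + S.q)) =
      S.WW (S.fb G) t y := by
  have key : ∀ (j : Fin d) (z : S.A), S.Anti z → 2 * S.x₁ z ∉ S.L →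
      ¬ S.Lat (t j + z + k j • (S.p - S.q)) := fun j z hz h hl => h <| by
    rw [S.lat_add_iff (lat_T _)] at hl
    have h3 : S.x₁ (t j) = _ := diag_of hA j (by rw [hz, neg_add_cancel]; exact S.L.zero_mem) hl
    convert S.L.sub_mem hl (S.lat_iff.1 hl) using 1
    rw [map_add, map_add, h3, hz]
    ring
  rw [← drop₂ hF hA hk hy]
  refine prod_congr rfl fun j _ => ?_
  rw [← fb_eq (key j y hy h2), sub_eq_add_neg (t j),
    ← fb_eq (key j (-y) (by rw [Setup.Anti, map_neg, map_neg, hy]) (by simpa using h2))]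
  congr 2
  · rw [Setup.sh, ← S.hT_add_hU, ← S.hU_sub_hT]; abel
  · rw [Setup.sh, ← S.hT_add_hU, ← S.hU_sub_hT]; abel

theorem merge (hm : S_MERGE) (hT : S.TH) (hG : S.GH G) (hd : Even d) (hA : S.Adm t e)
    (hs : ∑ j, S.sh t k j = 0) (h : S.Thr (S.sh t k) θ) {y y' : S.A} (hB : B₂ S θ y)
    (hB' : B₁ S θ y') (hl : S.Lat (y - y')) (h2 : S.Lat (y + y)) :
    ∏ j, (G (S.sh t k j + y) * G (S.sh t k j - y + S.p + S.q)) =
      ∏ j, (G (S.sh t k j + y' + S.q) * G (S.sh t k j - y' + S.p)) := by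
  obtain ⟨i, hi⟩ := kk_int hl
  have h1 := thr_eq h hl
  have h3 := int_eq (i := i) (n := 1) (by push_cast; linarith [hB.2.1, hB'.2.2])
    (by push_cast; linarith [hB.2.2, hB'.2.1])
  have h4 := (S.mem_M.1 hB.1).2
  have h5 := (S.mem_M.1 hB'.1).2
  have h6 := hB.2.1
  have h7 := hB.2.2
  have key : ∀ j, S.Lat (S.sh t k j + y) → S.a (S.x₁ (S.sh t k j)) = S.a (S.x₂ (S.sh t k j)) ∧
      S.a (S.x₂ (S.sh t k j)) + S.a (S.x₂ y) ≤ -1 ∧
      S.a (S.x₂ (S.sh t k j)) - S.a (S.x₂ y) ≤ 0 := fun j hj => by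
    have hj' : S.Lat (S.sh t k j - y) := by simpa using hj.sub h2
    have h8 : S.x₁ (t j) = _ := diag_of hA j (y := S.hT + k j • (S.p - S.q) + y) (by
      convert S.L.add_mem (lam_mul (2 * k j + 1)) hB.1.1 using 1
      simp only [map_add, x₁_T, x₂_T, S.x₁_hT, S.x₂_hT]
      push_cast
      ring) (by simpa only [Setup.sh, add_assoc] using hj)
    obtain ⟨m, hm⟩ := S.a_exists (S.lat_iff.1 hj)
    obtain ⟨n, hn⟩ := S.a_exists (S.lat_iff.1 hj')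
    have h9 := h.lower j y hj
    have h10 := h.upper j y hj'
    rw [S.kk_def] at h6 h7
    simp only [map_add, map_sub] at hm hn
    have h11 : m < 0 := by exact_mod_cast (by linarith : (m : ℚ) < 0)
    have h12 : n < 1 := by exact_mod_cast (by linarith : (n : ℚ) < 1)
    refine ⟨by rw [x₁_sh, x₂_sh, h8], ?_, ?_⟩
    · rw [hm]; exact_mod_cast (by omega : m ≤ -1)
    · rw [hn]; exact_mod_cast (by omega : n ≤ 0)
  refine hm S hT G hG d _ y y' hd hs hB.1 hB'.1 hl (by rw [hi, h3]; simp) (fun j hj => ?_)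
    fun j hj => ?_
  · obtain ⟨k1, k2, k3⟩ := key j hj
    simp only [S.kk_def, h3, Int.cast_one, map_add, map_sub] at hi h4 h5 ⊢
    exact ⟨by linarith, by linarith, by linarith⟩
  · obtain ⟨k1, k2, k3⟩ := key j (by simpa [add_assoc] using hj.add h2)
    simp only [S.kk_def, h3, Int.cast_one, map_add, map_sub] at hi h4 h5 ⊢
    exact ⟨by linarith, by linarith, by linarith⟩

end Conv

open Conv in
theorem conv_thm (htel : S_TEL) (hgrp : S_GRP) (hiper : S_IPER) (hmerge : S_MERGE) : S_CONV := by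
  intro S hT G hG hF Λ hΛ d t e k θ X hd hd0 hA hk hs h hX
  obtain ⟨-, g1, g2, -, -, -, g6, -⟩ := hgrp S
  choose y₁ hy₁ using lift₁ h
  choose y₂ hy₂ using lift₂ h
  have hP : ∀ g, g ∈ X.filter (· ∈ S.Gp) ↔ g ∈ S.Gp := fun g => by
    rw [mem_filter, hX]; tauto
  have hQ : ∀ g, g ∈ X.filter (· ∈ S.Gm) ↔ g ∈ S.Gm := fun g => by
    rw [mem_filter, hX]; tauto
  obtain ⟨r1, s1⟩ := reps (fun g hg => (hy₁ g ((hP g).1 hg)).2)
    (fun x hx => (hP _).2 (cls_mem₁ hx.1.1)) fun x x' => uniq₁ h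
  obtain ⟨r2, s2⟩ := reps (fun g hg => (hy₂ g ((hQ g).1 hg)).2)
    (fun x hx => (hQ _).2 (cls_mem₂ hx.1.1)) fun x x' => uniq₂ h
  obtain ⟨a1, a2⟩ := htel S hT G hG Λ hΛ d (S.sh t k) (fun j => S.x₁ (S.sh t k j)) θ _ _ hd hd0 hs
    (by rw [← map_sum, hs, map_zero]) (fun y => ⟨rfl, by
      rw [Setup.PP, Setup.PP, ← Equiv.prod_comp e]
      simp only [x₁_sh, x₂_sh, hA.sw₁, hk]⟩) h r1 r2
  have t1 : ∀ g ∈ S.Gp, ∏ j, (G (S.sh t k j + (y₁ g + S.hT) + S.q) *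
      G (S.sh t k j - (y₁ g + S.hT) + S.p)) = S.WW (S.fb G) t (S.rep g) := fun g hg => by
    obtain ⟨b1, b2, b3⟩ := hy₁ g hg
    rw [term₁ hF hA hk h b1 b3]
    exact hiper S hT G hG hF d t e hd hA _ _
      (by simpa [Setup.Lat] using cls_eq.1 (b2.trans (g1 g hg).2.symm)) (.inl ⟨b1, (g1 g hg).1⟩)
  have t2 : ∀ g ∈ S.Gm, ∏ j, (G (S.sh t k j + (y₂ g + S.hU)) *
      G (S.sh t k j - (y₂ g + S.hU) + S.p + S.q)) = S.WW (S.fb G) t (S.rep g) := fun g hg => by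
    obtain ⟨b1, b2, b3⟩ := hy₂ g hg
    have h2 : S.Lat (y₂ g + y₂ g) ↔ g ∈ S.Gp := by
      rw [g6 g hg, ← S.cls_eq_zero, map_add, b2, two_nsmul]
    by_cases hg' : g ∈ S.Gp
    · obtain ⟨c1, c2, c3⟩ := hy₁ g hg'
      rw [← t1 g hg']
      refine merge hmerge hT hG hd hA hs h b3 c3 ?_ ?_
      · rw [add_sub_add_comm, S.hU_sub_hT]
        exact (cls_eq.1 (b2.trans c2.symm)).add S.lat_q
      · rw [add_add_add_comm, S.hU_add_hU]
        exact (h2.2 hg').add (S.lat_p.add S.lat_q)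
    · have h3 : 2 * S.x₁ (y₂ g) ∉ S.L := fun h3 => hg' (h2.1 (by simpa [Setup.Lat, two_mul] using h3))
      obtain ⟨c1, c2, -⟩ := g2 g hg hg'
      rw [term₂ hF hA hk b1 h3]
      exact hiper S hT G hG hF d t e hd hA _ _
        (by simpa [Setup.Lat] using cls_eq.1 (b2.trans c2.symm)) (.inr ⟨b1, c1, h3⟩)
  refine ⟨a1, ?_⟩
  rw [a2, s1, s2, sum_congr rfl fun g hg => by rw [t1 g ((hP g).1 hg)],
    sum_congr (s₁ := X.filter (· ∈ S.Gm)) rfl fun g hg => by rw [t2 g ((hQ g).1 hg)],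
    sum_filter, sum_filter, ← sum_add_distrib]
  congr 1
  refine sum_congr rfl fun g _ => ?_
  rw [Setup.μ]
  split_ifs <;> ring

end Pool.Agent.P.MP_29cb78_nt.E
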