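import Pool.Agent.P.MP_29cb78_nt.E.Basic

/-!
The constant in the identity with six parameters.
-/

namespace Pool.Agent.P.MP_29cb78_nt.E

open Filter Topology
open scoped Classical Real

namespace Cval

variable (S : Setup)

lemma third {z : ℂ} (hz : z ∈ S.L) : ∃ x : S.A, S.x₁ x = z / 3 ∧ S.Diag x := by
  have h : z / 3 - S.ε * (z / 3) ∈ S.L := by
    convert S.L.neg_mem (S.L.add_mem (S.six z hz) (S.six z hz)) using 1
    ring
  exact ⟨_, S.x₁_pt h, (S.x₁_pt h).trans (S.x₂_pt h).symm⟩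

lemma dvd {i j k : ℤ} (h : (i * S.lam + j * S.γ + k * S.β) / 3 ∈ S.L) : 3 ∣ i ∧ 3 ∣ j ∧ 3 ∣ k := by
  obtain ⟨i', j', k', h⟩ := (S.mem_L _).1 h
  have h1 : ((i - 3 * i' : ℤ) : ℂ) * S.lam + (j - 3 * j' : ℤ) * S.γ + (k - 3 * k' : ℤ) * S.β = 0 := by
    push_cast
    linear_combination 3 * h
  have h2 := S.a_comb (i - 3 * i') (j - 3 * j') (k - 3 * k')
  rw [h1, map_zero, eq_comm, Int.cast_eq_zero] at h2
  have hγ := S.γ_ne
  have h3 : ((j - 3 * j' : ℤ) : ℂ) + (k - 3 * k' : ℤ) * (S.β / S.γ) = 0 := by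
    rw [h2] at h1
    field_simp
    simpa [mul_comm] using h1
  have h4 := congrArg Complex.im h3
  rw [Complex.add_im, Complex.intCast_im, zero_add, ← Complex.ofReal_intCast, Complex.im_ofReal_mul,
    Complex.zero_im, mul_eq_zero_iff_right S.βγ_pos.ne', Int.cast_eq_zero] at h4
  rw [h4, Int.cast_zero, zero_mul, add_zero, Int.cast_eq_zero] at h3
  omega

variable {S}

lemma adm {d : ℕ} {t : Fin d → S.A} (h : ∀ j, S.Diag (t j)) (hs : ∑ j, t j = 0) : S.Adm t 1 :=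
  ⟨h, fun j => (h j).symm, fun _ => rfl, fun _ _ => rfl, fun j => Or.inl (h j), fun j _ _ => h j, hs⟩

lemma dadd {x y : S.A} (hx : S.Diag x) (hy : S.Diag y) : S.Diag (x + y) := by
  simp only [Setup.Diag, map_add] at *
  rw [hx, hy]

lemma dneg {x : S.A} (hx : S.Diag x) : S.Diag (-x) := by simpa [Setup.Diag] using hx

lemma chi (x y : S.A) : S.χ (x + y) * S.χ (x + -y) = 1 := by
  rw [S.χ_add, S.χ_add, S.χ_neg, mul_mul_mul_comm, S.χ_sq, S.χ_sq, one_mul]

end Cval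

open Cval in
theorem cval_thm (hgrp : S_GRP) (hst4 : S_ST4) (hiper : S_IPER) : S_CVAL := by
  intro S hT G hG hF c h6
  obtain ⟨⟨-, -, X, hX, -⟩, g1, g2, g3, -, g4, -⟩ := hgrp S
  obtain ⟨a, a1, a2⟩ := third S S.lam_mem
  obtain ⟨b, b1, b2⟩ := third S S.γ_memL
  obtain ⟨e, e1, e2⟩ := third S S.β_memL
  have nl : ∀ (i j k : ℤ) (x : S.A), x = i • a + j • b + k • e → ¬ (3 ∣ i ∧ 3 ∣ j ∧ 3 ∣ k) →
      ¬ S.Lat x := by
    rintro i j k _ rfl h h'
    refine h (dvd S ?_)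
    convert h' using 1
    simp only [Setup.Lat, map_add, map_zsmul, a1, b1, e1, zsmul_eq_mul, add_div, mul_div_assoc]
  obtain ⟨v, hv⟩ : ∃ v, v = b + -e := ⟨_, rfl⟩
  have v2 : S.Diag v := hv ▸ dadd b2 (dneg e2)
  have vv : ¬ S.Lat (v + v) := nl 0 2 (-2) _ (by rw [hv]; module) (by decide)
  have f2 := dneg (dadd (dadd a2 b2) e2)
  have d4 : ∀ j, S.Diag (![a, b, e, -(a + b + e)] j) := fun j => by fin_cases j <;> assumption
  have s4 : ∑ j, ![a, b, e, -(a + b + e)] j = 0 := by simp [Fin.sum_univ_four]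
  have n1 := nl 2 0 0 (a + a) (by module) (by decide)
  have n2 := nl 1 1 0 (a + b) (by module) (by decide)
  have n3 := nl 1 0 1 (a + e) (by module) (by decide)
  have n4 := nl 0 (-1) (-1) (a + -(a + b + e)) (by module) (by decide)
  have n5 := nl 1 1 (-1) (a + v) (by rw [hv]; module) (by decide)
  have n6 := nl 1 (-1) 1 (a + -v) (by rw [hv]; module) (by decide)
  have n7 := nl 0 1 1 (b + e) (by module) (by decide)
  have k4 := hst4 S hT G hG hF _ X d4 s4 (fun l => by fin_cases l <;> assumption) hX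
  have nv2 := dneg v2
  have k6 := h6 ![a, b, e, -(a + b + e), v, -v] 1 X
    (adm (fun j => by fin_cases j <;> assumption) (by simp [Fin.sum_univ_six])) a2 b2
    (fun l => by fin_cases l <;> assumption) hX
  obtain ⟨W, hW⟩ : ∃ W, W = S.WW (S.fb G) ![a, b, e, -(a + b + e)] := ⟨_, rfl⟩
  have w1 : ∀ y, S.WW (S.fb G) ![a, b, e, -(a + b + e), v, -v] y = W y *
      (S.fb G (v + y) * S.fb G (-(v + y)) * (S.fb G (v + -y) * S.fb G (-(v + -y)))) := fun y => by
    simp only [hW, Setup.WW, Fin.prod_univ_succ, Fin.prod_univ_zero, Matrix.cons_val_zero,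
      Matrix.cons_val_succ, neg_add, neg_neg, sub_eq_add_neg]
    ring
  have w2 : S.PG (S.fb G) ![a, b, e, -(a + b + e), v, -v] = W v * S.fb G 0 *
      (S.fb G (a + b) * S.fb G (-(a + b)) * (S.fb G (a + e) * S.fb G (-(a + e))) *
        (S.fb G (b + e) * S.fb G (-(b + e)))) := by
    simp only [hW, Setup.WW, Setup.PG, Fin.prod_univ_succ, Fin.prod_univ_zero, Fin.prod_Ioi_zero,
      Fin.prod_Ioi_succ, Matrix.cons_val_zero, Matrix.cons_val_succ, sub_eq_add_neg, add_neg_cancel,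
      show a + -(a + b + e) = -(b + e) by abel, show b + -(a + b + e) = -(a + e) by abel,
      show e + -(a + b + e) = -(a + b) by abel]
    ring
  have w3 : ∀ y, S.Diag y → W (S.rep (S.cls y)) = W y := fun y hy => by
    obtain ⟨r1, r2⟩ := g1 _ (g3 y hy)
    exact hW ▸ hiper S hT G hG hF 4 _ 1 (by decide) (adm d4 s4) _ _
      (QuotientAddGroup.eq_iff_sub_mem.1 r2) (Or.inl ⟨r1, hy⟩)
  have w4 : W (-v) = W v := by
    simp only [hW, Setup.WW, sub_eq_add_neg, neg_neg, mul_comm]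
  have w5 : W v ≠ 0 := hW ▸ Finset.prod_ne_zero_iff.2 fun j _ => mul_ne_zero (hF.ne _) (hF.ne _)
  have c2 : S.cls v ≠ S.cls (-v) := fun h =>
    vv (S.cls_eq_zero.1 (by rw [map_add]; exact eq_neg_iff_add_eq_zero.1 (h.trans (map_neg _ _))))
  have m1 : ∀ y, S.Diag y → ¬ S.Lat (y + y) → S.μ (S.cls y) = 1 / (S.ε - 1) := fun y hy h => by
    rw [Setup.μ, if_pos (g3 y hy), if_neg fun h' => h (S.cls_eq_zero.1
      (by rw [map_add, ← two_nsmul]; exact (g4 _ (g3 y hy)).1 h')), add_zero]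
  have br : ∀ g ∈ X, S.fb G (v + S.rep g) * S.fb G (-(v + S.rep g)) *
      (S.fb G (v + -S.rep g) * S.fb G (-(v + -S.rep g))) =
      1 + ((if S.cls v = g then S.ε⁻¹ - 1 else 0) + if S.cls (-v) = g then S.ε⁻¹ - 1 else 0) := by
    intro g hg
    by_cases hp : g ∈ S.Gp
    · obtain ⟨r1, r2⟩ := g1 g hp
      rw [hF.reflD _ (dadd v2 r1), hF.reflD _ (dadd v2 (dneg r1)), mul_mul_mul_comm, chi, one_mul]
      have q1 : S.Lat (v + S.rep g) ↔ S.cls (-v) = g := by
        rw [← S.cls_eq_zero, map_add, r2, map_neg, add_eq_zero_iff_neg_eq]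
      have q2 : S.Lat (v + -S.rep g) ↔ S.cls v = g := by
        rw [← S.cls_eq_zero, map_add, map_neg, r2, add_neg_eq_zero]
      simp only [q1, q2]
      split_ifs with p1 p2
      · exact (c2 (p2.trans p1.symm)).elim
      all_goals ring
    · obtain ⟨r1, r2, r3⟩ := g2 g (((hX g).1 hg).resolve_left hp) hp
      rw [if_neg fun h : S.cls v = g => hp (h ▸ g3 _ v2),
        if_neg fun h : S.cls (-v) = g => hp (h ▸ g3 _ nv2)]
      have x1 : S.x₂ (v + S.rep g) = S.x₁ (v + -S.rep g) := by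
        simp only [map_add, map_neg, show S.x₁ v = _ from v2, show S.x₁ (S.rep g) = _ from r1,
          neg_neg]
      have x2 : S.x₂ (v + -S.rep g) = S.x₁ (v + S.rep g) := by
        simp only [map_add, map_neg, show S.x₁ v = _ from v2, show S.x₁ (S.rep g) = _ from r1]
      have l0 : S.Lat (v + S.rep g) ↔ S.Lat (v + -S.rep g) := by rw [S.lat_iff, x1]; rfl
      have l1 : ¬ S.Lat (v + S.rep g) := fun h => r3 (by
        simpa [Setup.Lat, two_mul] using h.sub (l0.1 h))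
      have l2 := l0.not.1 l1
      have y1 := hF.refl _ l1
      have y2 := hF.refl _ l2
      rw [x1] at y1
      rw [x2] at y2
      refine mul_right_cancel₀ (mul_ne_zero (mt (hT.zero_iff _).1 fun h => l1 h.1)
        (mt (hT.zero_iff _).1 fun h => l2 h.1)) ?_
      linear_combination (S.fb G (v + -S.rep g) * S.fb G (-(v + -S.rep g)) *
        S.ϑ (S.x₁ (v + S.rep g))) * y1 + S.χ (v + S.rep g) * S.ϑ (S.x₁ (v + S.rep g)) * y2 +
        S.ϑ (S.x₁ (v + S.rep g)) * S.ϑ (S.x₁ (v + -S.rep g)) * chi v (S.rep g)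
  rw [w2, hF.reflD _ (dadd a2 b2), hF.reflD _ (dadd a2 e2), hF.reflD _ (dadd b2 e2), if_neg n2,
    if_neg n3, if_neg n7, Finset.sum_congr rfl fun g hg => by rw [w1, br g hg]] at k6
  rw [← hW] at k4
  simp only [mul_add, mul_one, mul_ite, mul_zero, Finset.sum_add_distrib, k4, Finset.sum_ite_eq,
    (hX _).2 (Or.inl (g3 _ v2)), (hX _).2 (Or.inl (g3 _ nv2)), if_true, w3 _ v2, w3 _ nv2, w4,
    m1 _ v2 vv, m1 _ nv2 fun h => vv (by simpa using h.neg), S.χ_add] at k6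
  have z := hF.reflD 0 rfl
  rw [neg_zero, if_pos S.lat_zero, show S.χ 0 = 1 by simp [Setup.χ]] at z
  have u : 1 / (S.ε - 1) * (S.ε⁻¹ - 1) = -S.ε⁻¹ := by
    have := S.ε_sub_ne
    have := S.ε_ne
    field_simp
    ring
  refine mul_right_cancel₀ (mul_ne_zero w5 (hF.ne 0)) ?_
  linear_combination -k6 + 2 * W v * u + 2 * W v * z - c * W v * S.fb G 0 *
    (S.χ b * S.χ b * (S.χ e * S.χ e) * S.χ_sq a + S.χ e * S.χ e * S.χ_sq b + S.χ_sq e)

end Pool.Agent.P.MP_29cb78_nt.E
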