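import Pool.Agent.P.MP_29cb78_nt.E.Iface

/-!
Algebraic numbers are the common constants of all derivations.
-/

namespace Pool.Agent.P.MP_29cb78_nt.E

namespace Der

open MvPolynomial

open scoped IntermediateField.algebraAdjoinAdjoin in
theorem basis {K F ι : Type} [Field K] [CharZero K] [Field F] [Algebra K F] {b : ι → F}
    (hb : IsTranscendenceBasis K b) :
    ∃ B : Module.Basis ι F (KaehlerDifferential K F),
      ∀ i, B i = KaehlerDifferential.D K F (b i) := by
  letI : Algebra (MvPolynomial ι K) (Algebra.adjoin K (Set.range b)) :=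
    hb.1.aevalEquiv.toRingEquiv.toRingHom.toAlgebra
  letI : Algebra (MvPolynomial ι K) F := (aeval b : MvPolynomial ι K →ₐ[K] F).toRingHom.toAlgebra
  haveI : IsScalarTower (MvPolynomial ι K) (Algebra.adjoin K (Set.range b)) F :=
    IsScalarTower.of_algebraMap_eq fun p => (hb.1.algebraMap_aevalEquiv p).symm
  haveI : IsScalarTower K (MvPolynomial ι K) F :=
    IsScalarTower.of_algebraMap_eq fun a => ((aeval b : MvPolynomial ι K →ₐ[K] F).commutes a).symm
  haveI : Algebra.FormallyEtale (MvPolynomial ι K) (Algebra.adjoin K (Set.range b)) :=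
    Algebra.FormallyEtale.of_equiv
      (AlgEquiv.ofRingEquiv (f := hb.1.aevalEquiv.toRingEquiv) fun _ => rfl)
  haveI : Algebra.FormallyEtale (Algebra.adjoin K (Set.range b))
      (IntermediateField.adjoin K (Set.range b)) :=
    Algebra.FormallyEtale.of_isLocalization (nonZeroDivisors _)
  haveI := hb.isAlgebraic_field
  haveI : CharZero (IntermediateField.adjoin K (Set.range b)) :=
    charZero_of_injective_algebraMap (algebraMap K _).injective
  haveI : Algebra.FormallyEtale (IntermediateField.adjoin K (Set.range b)) F :=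
    Algebra.FormallyEtale.of_isSeparable _ F
  haveI : Algebra.FormallyEtale (Algebra.adjoin K (Set.range b)) F :=
    Algebra.FormallyEtale.comp _ (IntermediateField.adjoin K (Set.range b)) _
  haveI : Algebra.FormallyEtale (MvPolynomial ι K) F :=
    Algebra.FormallyEtale.comp _ (Algebra.adjoin K (Set.range b)) _
  refine ⟨((KaehlerDifferential.mvPolynomialBasis K ι).baseChange F).map
    (KaehlerDifferential.tensorKaehlerEquivOfFormallyEtale K (MvPolynomial ι K) F), fun i => ?_⟩
  rw [Module.Basis.map_apply, Module.Basis.baseChange_apply,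
    KaehlerDifferential.mvPolynomialBasis_apply, ← LinearEquiv.eq_symm_apply,
    ← KaehlerDifferential.tensorKaehlerEquivOfFormallyEtale_symm_D_algebraMap]
  congr 2
  exact aeval_X b i

end Der

theorem der_thm : S_DER := by
  refine ⟨fun z h => by_contra fun hz => ?_, fun z D hz => ?_⟩
  · have h1 : AlgebraicIndepOn ℚ id ({z} : Set ℂ) := algebraicIndependent_unique_type_iff.2 hz
    obtain ⟨t, h2, h3⟩ := exists_isTranscendenceBasis_superset h1
    obtain ⟨B, hB⟩ := Der.basis h3
    exact one_ne_zero (((congrArg (B.constr ℂ fun _ => (1 : ℂ)) (hB ⟨z, h2 rfl⟩).symm).trans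
      (B.constr_basis ℂ _ _)).symm.trans
      (h (KaehlerDifferential.linearMapEquivDerivation ℚ ℂ (B.constr ℂ fun _ => 1))))
  · have h1 := D.map_aeval (minpoly ℚ z) z
    rw [minpoly.aeval, map_zero, smul_eq_mul] at h1
    exact (mul_eq_zero.1 h1.symm).resolve_left
      ((minpoly.irreducible hz.isIntegral).separable.aeval_derivative_ne_zero (minpoly.aeval ℚ z))

end Pool.Agent.P.MP_29cb78_nt.E
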