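import Pool.Agent.P.MP_29cb78_nt.E.TameAux1

/-! Exact terms do not contribute. -/

namespace Pool.Agent.P.MP_29cb78_nt.E

theorem ex_thm (hosec : S_OSEC) (htame : S_TAME) : S_EX := by
  intro S hT G hG Λ hΛ d d' t β f cl hd hd' hf hs
  refine ⟨fun ht => ?_, fun ht => ?_⟩
  · have h1 := ((hosec S hT).2.2.1 d (fun j => S.x₁ (t j)) hd (by rw [← map_sum, ht]; simp)).2.1
    have h2 := (Tame.exa (g := fun y => f (S.x₂ y)) hT hG hΛ S.p S.x₁ hG.shp
      (fun _ h => h.of_add_p) hs (fun _ => rfl) (Tame.an₂ hf.1)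
      (htame S hT G hG d d d' t 0 β _ f cl hd (by simpa using ht) rfl hd' h1 hf hs).per).2
    simpa only [Setup.Pm, sub_mul, map_add, S.x₂_p, add_zero] using h2
  · have h1 := ((hosec S hT).2.2.1 d (fun j => S.x₂ (t j)) hd (by rw [← map_sum, ht]; simp)).2.1
    have h2 := (Tame.exa (g := fun y => f (S.x₁ y)) hT hG hΛ S.q S.x₂ hG.shq
      (fun _ h => h.of_add_q) hs (fun _ => rfl) (Tame.an₁ hf.1) (by
        simpa only [mul_comm (f _)] using
          (htame S hT G hG d d' d t β 0 f _ cl hd (by simpa using ht) hd' rfl hf h1 hs).per)).2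
    simpa only [Setup.Pm, sub_mul, map_add, S.x₁_q, add_zero, mul_comm (f _)] using h2

end Pool.Agent.P.MP_29cb78_nt.E
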