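import Pool.Agent.P.MP_29cb78_nt.E.Basic

/-!
Faces that are not triangles.
-/

namespace Pool.Agent.P.MP_29cb78_nt.E

open scoped Classical

namespace Face1

variable {S : Setup}

lemma two_mem {s : S.A} : 2 * S.x₁ s ∈ S.L ↔ 2 • S.cls s = 0 := by
  rw [← map_nsmul, S.cls_eq_zero, Setup.Lat, map_nsmul, nsmul_eq_mul, Nat.cast_ofNat]

lemma adm_of {d : ℕ} (T b : Fin d → S.A) (σ : Fin d → Fin d) (hσ : ∀ j, σ (σ j) = j)
    (K : ∀ j, S.Diag (T j) ∨ (S.x₁ (T j) - S.x₂ (T j) ∉ S.L ∧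
      S.x₁ (T j) + S.x₂ (T j) = 2 * S.x₁ (b j) ∧ S.x₁ (T (σ j)) = S.x₂ (T j) ∧
      S.x₂ (T (σ j)) = S.x₁ (T j)))
    (B : ∀ j l, 2 • (S.cls (b j) + S.cls (b l)) ≠ 0) (hs : ∑ j, T j = 0) :
    ∃ e, S.Adm T e := by
  have hi : Function.Involutive fun j => if S.Diag (T j) then j else σ j := by
    intro j
    by_cases h : S.Diag (T j)
    · simp only [if_pos h]
    · obtain ⟨-, -, h3, h4⟩ := (K j).resolve_left h
      have : ¬ S.Diag (T (σ j)) := fun k => h (by rw [Setup.Diag, ← h3, ← h4]; exact k.symm)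
      simp only [if_neg h, if_neg this, hσ]
  refine ⟨hi.toPerm, fun j => ?_, fun j => ?_, hi, fun j h => if_pos h, fun j => ?_,
    fun j l h => ?_, hs⟩
  · by_cases h : S.Diag (T j)
    · rw [Function.Involutive.coe_toPerm, if_pos h]
      exact h
    · rw [Function.Involutive.coe_toPerm, if_neg h]
      exact ((K j).resolve_left h).2.2.1
  · by_cases h : S.Diag (T j)
    · rw [Function.Involutive.coe_toPerm, if_pos h]
      exact h.symm
    · rw [Function.Involutive.coe_toPerm, if_neg h]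
      exact ((K j).resolve_left h).2.2.2
  · refine (K j).imp_right fun ⟨h1, h2, _⟩ => ⟨h1, fun k => B j j ?_⟩
    rw [h2, two_mem] at k
    rw [nsmul_add, k, add_zero]
  · by_contra k
    obtain ⟨h1, h2, -⟩ := (K j).resolve_left k
    have a1 : S.x₁ (T j) + S.x₁ (T l) ∈ S.L := by simpa only [Setup.Lat, map_add] using h
    have a2 : S.x₂ (T j) + S.x₂ (T l) ∈ S.L := by simpa only [map_add] using S.lat_iff.1 h
    rcases K l with k' | ⟨-, k', -⟩
    · refine h1 ?_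
      have := S.L.sub_mem a1 a2
      rwa [show S.x₁ (T l) = S.x₂ (T l) from k', add_sub_add_right_eq_sub] at this
    · refine B j l ?_
      have := S.L.add_mem a1 a2
      rw [add_add_add_comm, h2, k', ← mul_add, ← map_add] at this
      rw [← map_add]
      exact two_mem.1 this

lemma pair {s x : S.A} (hs : S.Diag s) (hx : S.Diag x ∨ (S.Anti x ∧ 2 * S.x₁ x ∉ S.L)) :
    (S.Diag (s + x) ∨ (S.x₁ (s + x) - S.x₂ (s + x) ∉ S.L ∧
      S.x₁ (s + x) + S.x₂ (s + x) = 2 * S.x₁ s ∧ S.x₁ (s - x) = S.x₂ (s + x) ∧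
      S.x₂ (s - x) = S.x₁ (s + x))) ∧
    (S.Diag (s - x) ∨ (S.x₁ (s - x) - S.x₂ (s - x) ∉ S.L ∧
      S.x₁ (s - x) + S.x₂ (s - x) = 2 * S.x₁ s ∧ S.x₁ (s + x) = S.x₂ (s - x) ∧
      S.x₂ (s + x) = S.x₁ (s - x))) := by
  simp only [Setup.Diag, Setup.Anti, map_add, map_sub] at *
  rcases hx with hx | ⟨hx, h2⟩
  · exact ⟨Or.inl (by rw [hs, hx]), Or.inl (by rw [hs, hx])⟩
  · refine ⟨Or.inr ⟨fun k => h2 ?_, ?_, ?_, ?_⟩, Or.inr ⟨fun k => h2 ?_, ?_, ?_, ?_⟩⟩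
    · rwa [show S.x₁ s + S.x₁ x - (S.x₂ s + S.x₂ x) = 2 * S.x₁ x by
        linear_combination hs - hx] at k
    · linear_combination hx - hs
    · linear_combination hs - hx
    · linear_combination -hs - hx
    · rw [show S.x₁ s - S.x₁ x - (S.x₂ s - S.x₂ x) = -(2 * S.x₁ x) by
        linear_combination hs + hx] at k
      exact neg_mem_iff.1 k
    · linear_combination -hx - hs
    · linear_combination hs + hx
    · linear_combination hx - hs

lemma pg_six (F : S.A → ℂ) (t : Fin 6 → S.A) : S.PG F t =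
    F (t 0 + t 1) * F (t 0 + t 2) * F (t 0 + t 3) * F (t 0 + t 4) * F (t 0 + t 5) *
    (F (t 1 + t 2) * F (t 1 + t 3) * F (t 1 + t 4) * F (t 1 + t 5)) *
    (F (t 2 + t 3) * F (t 2 + t 4) * F (t 2 + t 5)) * (F (t 3 + t 4) * F (t 3 + t 5)) *
    F (t 4 + t 5) := by
  have h0 : Finset.Ioi (0 : Fin 6) = {1, 2, 3, 4, 5} := by decide
  have h1 : Finset.Ioi (1 : Fin 6) = {2, 3, 4, 5} := by decide
  have h2 : Finset.Ioi (2 : Fin 6) = {3, 4, 5} := by decide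
  have h3 : Finset.Ioi (3 : Fin 6) = {4, 5} := by decide
  have h4 : Finset.Ioi (4 : Fin 6) = {5} := by decide
  have h5 : Finset.Ioi (5 : Fin 6) = ∅ := by decide
  rw [Setup.PG, Fin.prod_univ_six, h0, h1, h2, h3, h4, h5]
  simp [mul_assoc]

lemma two_ne {H : Type} [AddCommGroup H] {s : H} (h : 4 • s ≠ 0) : 2 • s ≠ 0 := fun k =>
  h (by rw [show (4 : ℕ) = 2 * 2 from rfl, mul_smul, k, smul_zero])

lemma core (hkref : S_KREF) (hT : S.TH) {G : S.A → ℂ} (hF : S.FB G) {c : ℂ} (hc : ST6 S G c)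
    {s₁ s₂ s₃ w x y : S.A} {X : Finset (ℂ ⧸ S.L)} (d₁ : S.Diag s₁) (d₂ : S.Diag s₂)
    (d₃ : S.Diag s₃) (dw : S.Diag w) (hs : s₁ + s₂ + s₃ = 0) (g₁ : 4 • S.cls s₁ ≠ 0)
    (g₂ : 4 • S.cls s₂ ≠ 0) (g₃ : 4 • S.cls s₃ ≠ 0) (gw : 2 • (S.cls s₃ + S.cls w) ≠ 0)
    (hX : S.IsX X) (hx : S.Diag x ∨ (S.Anti x ∧ 2 * S.x₁ x ∉ S.L))
    (hy : S.Diag y ∨ (S.Anti y ∧ 2 * S.x₁ y ∉ S.L))
    (f₁ : S.cls s₁ - S.cls w - S.cls x ≠ 0) (f₂ : S.cls s₁ - S.cls w + S.cls x ≠ 0)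
    (f₃ : S.cls s₂ - S.cls w - S.cls y ≠ 0) (f₄ : S.cls s₂ - S.cls w + S.cls y ≠ 0) :
    ∑ z ∈ X, S.μ z * S.Φ (S.fb G) s₁ s₂ s₃ w x y (S.rep z) =
      c * S.ε⁻¹ ^ (Nz (S.cls s₁) (S.cls w) (S.cls x) + Nz (S.cls s₂) (S.cls w) (S.cls y) +
        Nz (S.cls s₃) (S.cls x) (S.cls y)) := by
  have h3 : s₃ = -s₁ - s₂ := by rw [← sub_eq_zero, ← hs]; abel
  have e32 : ∀ u v, s₃ + u + (s₂ + v) = -s₁ + u + v := fun u v => by rw [h3]; abel
  have e31 : ∀ u v, s₃ + u + (s₁ + v) = -s₂ + u + v := fun u v => by rw [h3]; abel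
  have e21 : ∀ u v, s₂ + u + (s₁ + v) = -s₃ + u + v := fun u v => by rw [h3]; abel
  have ess : ∀ s u : S.A, s + u + (s + -u) = s + s := fun s u => by abel
  have same : ∀ s : ℂ ⧸ S.L, 4 • s ≠ 0 → 2 • (s + s) ≠ 0 := fun s h k =>
    h (by rw [← k]; abel)
  have diff : ∀ a b k : S.A, a + b + k = 0 → 4 • S.cls k ≠ 0 → 2 • (S.cls a + S.cls b) ≠ 0 :=
    fun a b k e h h' => two_ne h (by
      rw [← map_add, eq_neg_of_add_eq_zero_left e, map_neg, neg_nsmul, neg_eq_zero] at h'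
      exact h')
  have b12 := diff s₁ s₂ s₃ hs g₃
  have b21 := diff s₂ s₁ s₃ (by rw [← hs]; abel) g₃
  have b13 := diff s₁ s₃ s₂ (by rw [← hs]; abel) g₂
  have b31 := diff s₃ s₁ s₂ (by rw [← hs]; abel) g₂
  have b23 := diff s₂ s₃ s₁ (by rw [← hs]; abel) g₁
  have b32 := diff s₃ s₂ s₁ (by rw [← hs]; abel) g₁
  have b11 := same _ g₁
  have b22 := same _ g₂
  have b33 := same _ g₃
  have d0 : S.Diag (s₃ + w) := by
    rw [Setup.Diag, map_add, map_add, show S.x₁ s₃ = _ from d₃, show S.x₁ w = _ from dw]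
  have d1 : S.Diag (s₃ - w) := by
    rw [Setup.Diag, map_sub, map_sub, show S.x₁ s₃ = _ from d₃, show S.x₁ w = _ from dw]
  obtain ⟨e, he⟩ := adm_of ![s₃ + w, s₃ - w, s₂ + x, s₂ - x, s₁ + y, s₁ - y]
    ![s₃, s₃, s₂, s₂, s₁, s₁] ![1, 0, 3, 2, 5, 4] (by decide)
    (fun j => by
      fin_cases j
      exacts [Or.inl d0, Or.inl d1, (pair d₂ hx).1, (pair d₂ hx).2, (pair d₁ hy).1,
        (pair d₁ hy).2])
    (fun j l => by fin_cases j <;> fin_cases l <;> assumption)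
    (by
      rw [Fin.sum_univ_six]
      change s₃ + w + (s₃ - w) + (s₂ + x) + (s₂ - x) + (s₁ + y) + (s₁ - y) = 0
      rw [h3]
      abel)
  have free : ∀ (u : S.A) (g : ℂ ⧸ S.L), g ≠ 0 → S.cls u = g ∨ S.cls u = -g → ¬ S.Lat u :=
    fun u g hg h k => by
      rw [S.cls_eq_zero.2 k] at h
      exact hg (h.elim Eq.symm fun h => neg_eq_zero.1 h.symm)
  have key := hc _ e X he d0 d1 (fun l => by
    fin_cases l
    · exact free (s₃ + w + (s₃ + w)) _ gw (Or.inl (by simp only [map_add]; abel))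
    · exact free (s₃ + w + (s₃ - w)) _ (two_ne g₃) (Or.inl (by simp only [map_add, map_sub]; abel))
    · exact free (s₃ + w + (s₂ + x)) _ f₁
        (Or.inr (by simp only [h3, map_add, map_sub, map_neg]; abel))
    · exact free (s₃ + w + (s₂ - x)) _ f₂
        (Or.inr (by simp only [h3, map_add, map_sub, map_neg]; abel))
    · exact free (s₃ + w + (s₁ + y)) _ f₃
        (Or.inr (by simp only [h3, map_add, map_sub, map_neg]; abel))
    · exact free (s₃ + w + (s₁ - y)) _ f₄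
        (Or.inr (by simp only [h3, map_add, map_sub, map_neg]; abel))) hX
  have hW : ∀ z, S.WW (S.fb G) ![s₃ + w, s₃ - w, s₂ + x, s₂ - x, s₁ + y, s₁ - y] z =
      S.KK (S.fb G) s₃ w z * S.KK (S.fb G) s₂ x z * S.KK (S.fb G) s₁ y z := fun z => by
    rw [Setup.WW, Fin.prod_univ_six]
    simp only [Setup.KK, Matrix.cons_val]
    ring
  have hP : S.PG (S.fb G) ![s₃ + w, s₃ - w, s₂ + x, s₂ - x, s₁ + y, s₁ - y] =
      S.fb G (s₁ + s₁) * S.fb G (s₂ + s₂) * S.fb G (s₃ + s₃) * (S.KK (S.fb G) (-s₁) w x *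
        S.KK (S.fb G) (-s₂) w y * S.KK (S.fb G) (-s₃) x y) := by
    rw [pg_six]
    simp only [Setup.KK, Matrix.cons_val, sub_eq_add_neg, e32, e31, e21, ess]
    ring
  have k₁ := hkref S hT G hF s₁ w x d₁ (fun k => two_ne g₁ (two_mem.1 k)) (Or.inl dw) hx
  have k₂ := hkref S hT G hF s₂ w y d₂ (fun k => two_ne g₂ (two_mem.1 k)) (Or.inl dw) hy
  have k₃ := hkref S hT G hF s₃ x y d₃ (fun k => two_ne g₃ (two_mem.1 k)) hx hy
  have n₁ := hF.ne (s₁ + s₁)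
  have n₂ := hF.ne (s₂ + s₂)
  have n₃ := hF.ne (s₃ + s₃)
  have hΦ : ∑ z ∈ X, S.μ z * S.Φ (S.fb G) s₁ s₂ s₃ w x y (S.rep z) =
      S.KK (S.fb G) s₁ w x * S.KK (S.fb G) s₂ w y * S.KK (S.fb G) s₃ x y /
        (S.fb G (s₁ + s₁) * S.fb G (s₂ + s₂) * S.fb G (s₃ + s₃)) * ∑ z ∈ X, S.μ z *
        S.WW (S.fb G) ![s₃ + w, s₃ - w, s₂ + x, s₂ - x, s₁ + y, s₁ - y] (S.rep z) := by
    rw [Finset.mul_sum]
    refine Finset.sum_congr rfl fun z _ => ?_
    rw [hW, Setup.Φ]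
    ring
  rw [hΦ, key, hP, pow_add, pow_add, ← k₁, ← k₂, ← k₃]
  field_simp

lemma kk_neg (F : S.A → ℂ) (s w x : S.A) : S.KK F s (-w) x = S.KK F s w x := by
  simp only [Setup.KK, sub_neg_eq_add, ← sub_eq_add_neg]
  ring

lemma nz_neg {H : Type} [AddCommGroup H] (s w x : H) : Nz s (-w) x = Nz s w x := by
  simp only [Nz, sub_neg_eq_add, ← sub_eq_add_neg]
  ring

lemma nz_ne {H : Type} [AddCommGroup H] {s x y : H} :
    Nz s x y ≠ 0 ↔ (s + x + y = 0 ∨ s + x - y = 0) ∨ (s - x + y = 0 ∨ s - x - y = 0) := by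
  simp only [Nz, ne_eq, Nat.add_eq_zero_iff, ite_eq_right_iff, one_ne_zero, imp_false]
  tauto

lemma excl {H : Type} [AddCommGroup H] {s w x : H} (hw : 2 • w ≠ 0) (hs : 2 • s ≠ 0)
    (h : s - w + x = 0 ∨ s - w - x = 0) (h' : s + w + x = 0 ∨ s + w - x = 0) : False := by
  rcases h with h | h <;> rcases h' with h' | h'
  · exact hw (by linear_combination (norm := abel1) h' - h)
  · exact hs (by linear_combination (norm := abel1) h' + h)
  · exact hs (by linear_combination (norm := abel1) h' + h)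
  · exact hw (by linear_combination (norm := abel1) h' - h)

lemma third {H : Type} [AddCommGroup H] {s₁ s₂ s₃ w x y : H} (hs : s₁ + s₂ + s₃ = 0)
    (h : s₁ - w + x = 0 ∨ s₁ - w - x = 0) (h' : s₂ + w + y = 0 ∨ s₂ + w - y = 0) :
    Nz s₃ x y ≠ 0 := by
  rw [nz_ne]
  rcases h with h | h <;> rcases h' with h' | h'
  · exact Or.inr (Or.inr (by linear_combination (norm := abel1) hs - h - h'))
  · exact Or.inr (Or.inl (by linear_combination (norm := abel1) hs - h - h'))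
  · exact Or.inl (Or.inr (by linear_combination (norm := abel1) hs - h - h'))
  · exact Or.inl (Or.inl (by linear_combination (norm := abel1) hs - h - h'))

end Face1

open Face1 in
theorem face1_thm (hgrp : S_GRP) (hkref : S_KREF) : S_FACE1 := by
  intro S hT G hF c hc s₁ s₂ s₃ w X d₁ d₂ d₃ dw hs g hX x hx y hy hn
  obtain ⟨-, r1, r2, -⟩ := hgrp S
  have spin : ∀ z ∈ X, S.cls (S.rep z) = z ∧
      (S.Diag (S.rep z) ∨ (S.Anti (S.rep z) ∧ 2 * S.x₁ (S.rep z) ∉ S.L)) := fun z hz => by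
    by_cases h : z ∈ S.Gp
    · exact ⟨(r1 z h).2, Or.inl (r1 z h).1⟩
    · obtain ⟨a, b, c⟩ := r2 z (((hX z).1 hz).resolve_left h) h
      exact ⟨b, Or.inr ⟨a, c⟩⟩
  obtain ⟨cx, sx⟩ := spin x hx
  obtain ⟨cy, sy⟩ := spin y hy
  by_cases hf : (S.cls s₁ - S.cls w + x = 0 ∨ S.cls s₁ - S.cls w - x = 0) ∨
      (S.cls s₂ - S.cls w + y = 0 ∨ S.cls s₂ - S.cls w - y = 0)
  · have hf' : ¬ ((S.cls s₁ + S.cls w + x = 0 ∨ S.cls s₁ + S.cls w - x = 0) ∨
        (S.cls s₂ + S.cls w + y = 0 ∨ S.cls s₂ + S.cls w - y = 0)) := by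
      rintro (k | k) <;> rcases hf with h | h
      · exact excl g.hw (two_ne g.g₁.1) h k
      · refine hn ⟨nz_ne.2 (Or.inl k), nz_ne.2 (Or.inr h),
          third (w := -S.cls w) g.sum ?_ ?_⟩
        · rwa [sub_neg_eq_add]
        · rwa [← sub_eq_add_neg]
      · exact hn ⟨nz_ne.2 (Or.inr h), nz_ne.2 (Or.inl k), third g.sum h k⟩
      · exact excl g.hw (two_ne g.g₂.1) h k
    simp only [not_or] at hf'
    have dw' : S.Diag (-w) := by
      rw [Setup.Diag, map_neg, map_neg, show S.x₁ w = _ from dw]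
    have := core hkref hT hF hc d₁ d₂ d₃ dw' hs g.g₁.1 g.g₂.1 g.g₃.1
      (by rw [map_neg, ← sub_eq_add_neg]; exact g.g₃.2.2) hX sx sy
      (by rw [map_neg, sub_neg_eq_add, cx]; exact hf'.1.2)
      (by rw [map_neg, sub_neg_eq_add, cx]; exact hf'.1.1)
      (by rw [map_neg, sub_neg_eq_add, cy]; exact hf'.2.2)
      (by rw [map_neg, sub_neg_eq_add, cy]; exact hf'.2.1)
    simpa only [Setup.Φ, kk_neg, map_neg, nz_neg, cx, cy] using this
  · simp only [not_or] at hf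
    have := core hkref hT hF hc d₁ d₂ d₃ dw hs g.g₁.1 g.g₂.1 g.g₃.1 g.g₃.2.1 hX sx sy
      (by rw [cx]; exact hf.1.2) (by rw [cx]; exact hf.1.1) (by rw [cy]; exact hf.2.2)
      (by rw [cy]; exact hf.2.1)
    rwa [cx, cy] at this

end Pool.Agent.P.MP_29cb78_nt.E
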