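import Pool.Agent.P.MP_29cb78_nt.E.Basic

/-!
The value of a triangular face.
-/

namespace Pool.Agent.P.MP_29cb78_nt.E

open Filter Topology
open scoped Classical Real

noncomputable section

namespace Face2

section Abs

variable {H : Type} [AddCommGroup H]

/-- Equality up to sign. -/
def PM (x u : H) : Prop := x = u ∨ x = -u

lemma Nz_neg_left (s x y : H) : Nz s (-x) y = Nz s x y := by
  unfold Nz
  rw [show s + -x + y = s - x + y by abel, show s + -x - y = s - x - y by abel,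
    show s - -x + y = s + x + y by abel, show s - -x - y = s + x - y by abel]
  ring

lemma Nz_neg_right (s x y : H) : Nz s x (-y) = Nz s x y := by
  unfold Nz
  rw [show s + x + -y = s + x - y by abel, show s + x - -y = s + x + y by abel,
    show s - x + -y = s - x - y by abel, show s - x - -y = s - x + y by abel]
  ring

lemma Nz_pm_left {s x u y : H} (h : PM x u) : Nz s x y = Nz s u y := by
  rcases h with rfl | rfl
  · rfl
  · exact Nz_neg_left _ _ _

lemma Nz_pm_right {s x y u : H} (h : PM y u) : Nz s x y = Nz s x u := by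
  rcases h with rfl | rfl
  · rfl
  · exact Nz_neg_right _ _ _

lemma two_ne {s : H} (h : 4 • s ≠ 0) : 2 • s ≠ 0 := fun h2 =>
  h (by rw [show 4 • s = 2 • s + 2 • s by abel, h2, add_zero])

lemma gen_neg {s₁ s₂ s₃ w : H} (g : Gen s₁ s₂ s₃ w) : Gen s₁ s₂ s₃ (-w) := by
  have h1 : ∀ s : H, Gen1 s w → Gen1 s (-w) := fun s h =>
    ⟨h.1, by simpa [sub_eq_add_neg] using h.2.2, by simpa using h.2.1⟩
  have h2 : ∀ s : H, Gen2 s w → Gen2 s (-w) := fun s h =>
    ⟨by simpa [sub_eq_add_neg] using h.2, by simpa using h.1⟩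
  exact ⟨g.sum, by simpa using g.hw, h1 _ g.g₁, h1 _ g.g₂, h1 _ g.g₃, h2 _ g.d₁, h2 _ g.d₂,
    h2 _ g.d₃⟩

lemma pm_of_Nz {s w x : H} (h : Nz s w x ≠ 0) : PM x (s + w) ∨ PM x (s - w) := by
  by_contra hc
  simp only [PM, not_or] at hc
  obtain ⟨⟨h1, h2⟩, h3, h4⟩ := hc
  apply h
  unfold Nz
  rw [if_neg fun e => h2 (by linear_combination (norm := abel) e),
    if_neg fun e => h1 (by linear_combination (norm := abel) -e),
    if_neg fun e => h4 (by linear_combination (norm := abel) e),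
    if_neg fun e => h3 (by linear_combination (norm := abel) -e)]

lemma Nz_same {s₁ s₂ s₃ w : H} (g : Gen s₁ s₂ s₃ w) : Nz s₃ (s₁ + w) (s₂ + w) = 0 := by
  have hs := g.sum
  unfold Nz
  rw [if_neg fun e => g.hw (by linear_combination (norm := abel) e - hs),
    if_neg fun e => two_ne g.g₂.1 (by linear_combination (norm := abel) hs - e),
    if_neg fun e => two_ne g.g₁.1 (by linear_combination (norm := abel) hs - e),
    if_neg fun e => g.g₃.2.2 (by linear_combination (norm := abel) e + hs)]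

lemma cases_pm {s₁ s₂ s₃ w x y : H} (g : Gen s₁ s₂ s₃ w) (h1 : Nz s₁ w x ≠ 0)
    (h2 : Nz s₂ w y ≠ 0) (h3 : Nz s₃ x y ≠ 0) :
    (PM x (s₁ + w) ∧ PM y (s₂ - w)) ∨ (PM x (s₁ + -w) ∧ PM y (s₂ - -w)) := by
  rcases pm_of_Nz h1 with a | a <;> rcases pm_of_Nz h2 with b | b
  · exact (h3 (by rw [Nz_pm_left a, Nz_pm_right b, Nz_same g])).elim
  · exact Or.inl ⟨a, b⟩
  · exact Or.inr ⟨by simpa [sub_eq_add_neg] using a, by simpa using b⟩
  · refine (h3 ?_).elim
    rw [Nz_pm_left a, Nz_pm_right b, sub_eq_add_neg, sub_eq_add_neg, Nz_same (gen_neg g)]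

lemma face_neg (a : ℂ) (s₁ s₂ s₃ w x y : H) :
    Face a s₁ s₂ s₃ (-w) x y = Face a s₁ s₂ s₃ w x y := by
  simp only [Face, Nz_neg_left]

lemma face_val (a : ℂ) {s₁ s₂ s₃ w x y : H} (g : Gen s₁ s₂ s₃ w) (hx : PM x (s₁ + w))
    (hy : PM y (s₂ - w)) : Face a s₁ s₂ s₃ w x y = 2 * a ^ 2 - a := by
  have hs := g.sum
  have h1 : Nz s₁ w x = 1 := by
    rw [Nz_pm_right hx]
    unfold Nz
    rw [if_neg fun e => g.g₁.2.1 (by linear_combination (norm := abel) e), if_pos (by abel),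
      if_neg fun e => two_ne g.g₁.1 (by linear_combination (norm := abel) e),
      if_neg fun e => g.hw (by linear_combination (norm := abel) -e)]
  have h2 : Nz s₂ w y = 1 := by
    rw [Nz_pm_right hy]
    unfold Nz
    rw [if_neg fun e => two_ne g.g₂.1 (by linear_combination (norm := abel) e),
      if_neg fun e => g.hw (by linear_combination (norm := abel) e),
      if_neg fun e => g.g₂.2.2 (by linear_combination (norm := abel) e), if_pos (by abel)]
  have h3 : Nz s₃ x y = 1 := by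
    rw [Nz_pm_left hx, Nz_pm_right hy]
    unfold Nz
    rw [if_pos (by linear_combination (norm := abel) hs),
      if_neg fun e => g.g₂.2.2 (by linear_combination (norm := abel) hs - e),
      if_neg fun e => g.g₁.2.1 (by linear_combination (norm := abel) hs - e),
      if_neg fun e => two_ne g.g₃.1 (by linear_combination (norm := abel) e + hs)]
  simp only [Face, h1, h2, h3]
  rw [if_pos (by simp)]
  ring

variable {P Q : AddSubgroup H} {XP XQ X : Finset H} {a μp μm : ℂ} {μ : H → ℂ}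

lemma sum_mu (F : FinSys P Q XP XQ X a μp μm μ) : ∑ z ∈ X, μ z = 2 + 2 * a := by
  have h1 : X.filter (· ∈ P) = XP := by
    ext g
    simp only [Finset.mem_filter, F.mem_X, F.mem_P]
    tauto
  have h2 : X.filter (· ∈ Q) = XQ := by
    ext g
    simp only [Finset.mem_filter, F.mem_X, F.mem_Q]
    tauto
  simp only [F.hμ, Finset.sum_add_distrib]
  rw [← Finset.sum_filter, ← Finset.sum_filter, h1, h2, Finset.sum_const, Finset.sum_const,
    nsmul_eq_mul, nsmul_eq_mul, F.count]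

lemma sum_pm (F : FinSys P Q XP XQ X a μp μm μ) {u : H} (hu : u ∈ P) (h2 : 2 • u ≠ 0) :
    ∑ z ∈ X, μ z * (if PM z u then a - 1 else 0) = -2 * a := by
  have hm : ∀ v ∈ P, 2 • v ≠ 0 → μ v = μp := fun v hv h => by
    rw [F.hμ, if_pos hv, if_neg (fun h' => h ((F.tors_P v hv).1 h')), add_zero]
  have hne : u ≠ -u := fun e => h2 (by linear_combination (norm := abel) e)
  have h1 : X.filter (fun z => PM z u) = {u, -u} := by
    ext g
    rw [Finset.mem_filter, F.mem_X, Finset.mem_insert, Finset.mem_singleton]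
    refine ⟨fun h => h.2, fun h => ⟨Or.inl ?_, h⟩⟩
    rcases h with rfl | rfl
    · exact hu
    · exact P.neg_mem hu
  simp only [mul_ite, mul_zero]
  rw [← Finset.sum_filter, h1, Finset.sum_pair hne, hm u hu h2,
    hm (-u) (P.neg_mem hu) (by simpa using h2)]
  linear_combination (-2) * F.hp

lemma not_both {z u v : H} (h1 : u + v ≠ 0) (h2 : u - v ≠ 0) : ¬ (PM z u ∧ PM z v) := by
  rintro ⟨a | a, b | b⟩
  · exact h2 (by linear_combination (norm := abel) b - a)
  · exact h1 (by linear_combination (norm := abel) b - a)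
  · exact h1 (by linear_combination (norm := abel) a - b)
  · exact h2 (by linear_combination (norm := abel) a - b)

lemma sum_val (F : FinSys P Q XP XQ X a μp μm μ) {s₁ s₂ s₃ w : H} (g : Gen s₁ s₂ s₃ w)
    (h₁ : s₁ ∈ P) (h₂ : s₂ ∈ P) (h₃ : s₃ ∈ P) (hw : w ∈ P) :
    ∑ z ∈ X, μ z * ((if PM z (s₃ + w) then a else 1) * (if PM z (s₃ - w) then a else 1) *
      (if PM z (s₁ - s₂ + w) then a else 1)) = 2 - 4 * a := by
  have hs := g.sum
  have e1 := sum_pm F (P.add_mem h₃ hw) g.g₃.2.1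
  have e2 := sum_pm F (P.sub_mem h₃ hw) g.g₃.2.2
  have e3 := sum_pm F (P.add_mem (P.sub_mem h₁ h₂) hw) g.d₃.1
  have key : ∀ z, (if PM z (s₃ + w) then a else 1) * (if PM z (s₃ - w) then a else 1) *
      (if PM z (s₁ - s₂ + w) then a else 1) = 1 + (if PM z (s₃ + w) then a - 1 else 0) +
      (if PM z (s₃ - w) then a - 1 else 0) + (if PM z (s₁ - s₂ + w) then a - 1 else 0) := by
    intro z
    have n12 : ¬ (PM z (s₃ + w) ∧ PM z (s₃ - w)) := not_both
      (fun e => two_ne g.g₃.1 (by linear_combination (norm := abel) e))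
      (fun e => g.hw (by linear_combination (norm := abel) e))
    have n13 : ¬ (PM z (s₃ + w) ∧ PM z (s₁ - s₂ + w)) := not_both
      (fun e => g.g₂.2.2 (by linear_combination (norm := abel) hs - e))
      (fun e => two_ne g.g₁.1 (by linear_combination (norm := abel) hs - e))
    have n23 : ¬ (PM z (s₃ - w) ∧ PM z (s₁ - s₂ + w)) := not_both
      (fun e => two_ne g.g₂.1 (by linear_combination (norm := abel) hs - e))
      (fun e => g.g₁.2.1 (by linear_combination (norm := abel) hs - e))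
    by_cases a1 : PM z (s₃ + w) <;> by_cases a2 : PM z (s₃ - w) <;>
      by_cases a3 : PM z (s₁ - s₂ + w) <;> simp only [a1, a2, a3, if_true, if_false] <;>
      first | tauto | ring
  simp only [key, mul_add, mul_one, Finset.sum_add_distrib]
  rw [sum_mu F, e1, e2, e3]
  ring

end Abs

variable {S : Setup} {G : S.A → ℂ}

lemma diag_add {x y : S.A} (hx : S.Diag x) (hy : S.Diag y) : S.Diag (x + y) := by
  unfold Setup.Diag at *
  rw [map_add, map_add, hx, hy]

lemma diag_neg {x : S.A} (hx : S.Diag x) : S.Diag (-x) := by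
  unfold Setup.Diag at *
  rw [map_neg, map_neg, hx]

lemma diag_sub {x y : S.A} (hx : S.Diag x) (hy : S.Diag y) : S.Diag (x - y) := by
  unfold Setup.Diag at *
  rw [map_sub, map_sub, hx, hy]

lemma lat_cls {x : S.A} : S.Lat x ↔ S.cls x = 0 := (QuotientAddGroup.eq_zero_iff _).symm

/-- The admissible lifts. -/
def OK (S : Setup) (z : S.A) : Prop := S.Diag z ∨ (S.Anti z ∧ 2 * S.x₁ z ∉ S.L)

lemma not_lat {u z : S.A} (hu : S.Diag u) (hz : S.Anti z) (h2 : 2 * S.x₁ z ∉ S.L) :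
    ¬ S.Lat (u + z) := fun h => h2 (by
  have h' := S.L.sub_mem h (S.lat_iff.1 h)
  unfold Setup.Diag at hu
  unfold Setup.Anti at hz
  convert h' using 1
  rw [map_add, map_add, hu, hz]
  ring)

lemma anti_neg {z : S.A} (hz : S.Anti z) : S.Anti (-z) := by
  unfold Setup.Anti at *
  rw [map_neg, map_neg, hz]

lemma not_lat' {u z : S.A} (hu : S.Diag u) (hz : S.Anti z) (h2 : 2 * S.x₁ z ∉ S.L) :
    ¬ S.Lat (u - z) := by
  rw [sub_eq_add_neg]
  exact not_lat hu (anti_neg hz) (by simpa using h2)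

lemma adm {a b c w y z : S.A} (ha : S.Diag a) (hb : S.Diag b) (hc : S.Diag c) (hw : S.Diag w)
    (hy : S.Diag y) (hs : a + b + c = 0) (h4 : 4 • S.cls c ≠ 0) (hz : OK S z) :
    ∃ e, S.Adm ![a + w, a - w, b + y, b - y, c + z, c - z] e := by
  have hsum : ∑ j, ![a + w, a - w, b + y, b - y, c + z, c - z] j = 0 := by
    simp only [Fin.sum_univ_succ, Matrix.cons_val_zero, Matrix.cons_val_succ, Fin.sum_univ_zero]
    linear_combination (norm := abel) hs + hs
  have d0 := diag_add ha hw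
  have d1 := diag_sub ha hw
  have d2 := diag_add hb hy
  have d3 := diag_sub hb hy
  rcases hz with hz | ⟨hz, h2⟩
  · have hd : ∀ j, S.Diag (![a + w, a - w, b + y, b - y, c + z, c - z] j) := by
      intro j
      fin_cases j
      exacts [d0, d1, d2, d3, diag_add hc hz, diag_sub hc hz]
    exact ⟨1, fun j => hd j, fun j => (hd j).symm, fun _ => rfl, fun _ _ => rfl,
      fun j => Or.inl (hd j), fun j _ _ => hd j, hsum⟩
  · have hc4 : 4 * S.x₁ c ∉ S.L := fun h => h4 (by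
      rw [← map_nsmul, ← lat_cls]
      simpa [Setup.Lat] using h)
    have hc2 : 2 * S.x₁ c ∉ S.L := fun h => hc4 (by
      convert S.L.add_mem h h using 1
      ring)
    have hc' : S.x₁ c = S.x₂ c := hc
    have hz' : S.x₁ z = -S.x₂ z := hz
    have e1 : S.x₁ (c - z) = S.x₂ (c + z) := by rw [map_sub, map_add, hc', hz']; ring
    have e2 : S.x₁ (c + z) = S.x₂ (c - z) := by rw [map_sub, map_add, hc', hz']; ring
    have t4 : S.x₁ (c + z) - S.x₂ (c + z) ∉ S.L ∧ S.x₁ (c + z) + S.x₂ (c + z) ∉ S.L := by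
      constructor
      · convert h2 using 2
        rw [map_add, map_add, hc', hz']; ring
      · convert hc2 using 2
        rw [map_add, map_add, hc', hz']; ring
    have t5 : S.x₁ (c - z) - S.x₂ (c - z) ∉ S.L ∧ S.x₁ (c - z) + S.x₂ (c - z) ∉ S.L := by
      constructor
      · rw [← neg_mem_iff]
        convert h2 using 2
        rw [map_sub, map_sub, hc', hz']; ring
      · convert hc2 using 2
        rw [map_sub, map_sub, hc', hz']; ring
    have nd4 : ¬ S.Diag (c + z) := fun h => t4.1 (by rw [h, sub_self]; exact S.L.zero_mem)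
    have nd5 : ¬ S.Diag (c - z) := fun h => t5.1 (by rw [h, sub_self]; exact S.L.zero_mem)
    have l4 : ∀ d, S.Diag d → ¬ S.Lat (c + z + d) := fun d hd h =>
      not_lat (diag_add hc hd) hz h2 (by convert h using 1; abel)
    have l5 : ∀ d, S.Diag d → ¬ S.Lat (c - z + d) := fun d hd h =>
      not_lat' (diag_add hc hd) hz h2 (by convert h using 1; abel)
    have l44 : ¬ S.Lat (c + z + (c + z)) := fun h => hc4 (by
      convert S.L.add_mem h (S.lat_iff.1 h) using 1
      simp only [map_add]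
      rw [hc', hz']; ring)
    have l55 : ¬ S.Lat (c - z + (c - z)) := fun h => hc4 (by
      convert S.L.add_mem h (S.lat_iff.1 h) using 1
      simp only [map_add, map_sub]
      rw [hc', hz']; ring)
    have l45 : ¬ S.Lat (c + z + (c - z)) := fun h => hc2 (by
      have h' : S.x₁ (c + z + (c - z)) ∈ S.L := h
      convert h' using 1
      simp only [map_add, map_sub]
      ring)
    have l54 : ¬ S.Lat (c - z + (c + z)) := by rw [add_comm]; exact l45
    refine ⟨Equiv.swap 4 5, fun j => ?_, fun j => ?_, fun j => Equiv.swap_apply_self _ _ _,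
      fun j => ?_, fun j => ?_, fun j l => ?_, hsum⟩
    · fin_cases j
      exacts [d0, d1, d2, d3, e1, e2]
    · fin_cases j
      exacts [d0.symm, d1.symm, d2.symm, d3.symm, e2.symm, e1.symm]
    · fin_cases j
      exacts [fun _ => rfl, fun _ => rfl, fun _ => rfl, fun _ => rfl, fun h => (nd4 h).elim,
        fun h => (nd5 h).elim]
    · fin_cases j
      exacts [Or.inl d0, Or.inl d1, Or.inl d2, Or.inl d3, Or.inr t4, Or.inr t5]
    · fin_cases j
      · exact fun _ => d0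
      · exact fun _ => d1
      · exact fun _ => d2
      · exact fun _ => d3
      · intro h
        exfalso
        fin_cases l
        exacts [l4 _ d0 h, l4 _ d1 h, l4 _ d2 h, l4 _ d3 h, l44 h, l45 h]
      · intro h
        exfalso
        fin_cases l
        exacts [l5 _ d0 h, l5 _ d1 h, l5 _ d2 h, l5 _ d3 h, l54 h, l55 h]

lemma KK_comm (F : S.A → ℂ) (s x y : S.A) : S.KK F s x y = S.KK F s y x := by
  unfold Setup.KK
  rw [show s + x + y = s + y + x by abel, show s + x - y = s - y + x by abel,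
    show s - x + y = s + y - x by abel, show s - x - y = s - y - x by abel]
  ring

lemma KK_neg (F : S.A → ℂ) (s x y : S.A) : S.KK F s x (-y) = S.KK F s x y := by
  unfold Setup.KK
  rw [show s + x + -y = s + x - y by abel, show s + x - -y = s + x + y by abel,
    show s - x + -y = s - x - y by abel, show s - x - -y = s - x + y by abel]
  ring

lemma WW_eq (F : S.A → ℂ) (a b c w y z x : S.A) :
    S.WW F ![a + w, a - w, b + y, b - y, c + z, c - z] x =
      S.KK F a w x * S.KK F b y x * S.KK F c z x := by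
  simp only [Setup.WW, Setup.KK, Fin.prod_univ_succ, Matrix.cons_val_zero, Matrix.cons_val_succ,
    Fin.prod_univ_zero]
  ring

lemma move (hiper : S_IPER) (hT : S.TH) (hG : S.GH G) (hF : S.FB G) {a b c w y z x x' : S.A}
    (ha : S.Diag a) (hb : S.Diag b) (hc : S.Diag c) (hw : S.Diag w) (hy : S.Diag y)
    (hs : a + b + c = 0) (h4 : 4 • S.cls c ≠ 0) (hz : OK S z) (hx : S.Diag x) (hx' : S.Diag x')
    (h : PM (S.cls x) (S.cls x')) :
    S.KK (S.fb G) a w x * S.KK (S.fb G) b y x * S.KK (S.fb G) c z x =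
      S.KK (S.fb G) a w x' * S.KK (S.fb G) b y x' * S.KK (S.fb G) c z x' := by
  obtain ⟨e, he⟩ := adm ha hb hc hw hy hs h4 hz
  have key : ∀ u u' : S.A, S.Diag u → S.Diag u' → S.cls u = S.cls u' →
      S.KK (S.fb G) a w u * S.KK (S.fb G) b y u * S.KK (S.fb G) c z u =
      S.KK (S.fb G) a w u' * S.KK (S.fb G) b y u' * S.KK (S.fb G) c z u' := by
    intro u u' hu hu' h
    rw [← WW_eq, ← WW_eq]
    refine hiper S hT G hG hF 6 _ e (by decide) he u u' ?_ (Or.inl ⟨hu, hu'⟩)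
    rw [← map_sub]
    exact lat_cls.2 (by rw [map_sub, h, sub_self])
  rcases h with h | h
  · exact key x x' hx hx' h
  · rw [key x (-x') hx (diag_neg hx') (by rw [h, map_neg]), KK_neg, KK_neg, KK_neg]

lemma refl_two (hF : S.FB G) {u : S.A} (hu : S.Diag u) (h : 2 • S.cls u ≠ 0) :
    S.fb G (u + u) * S.fb G (-(u + u)) = 1 := by
  rw [hF.reflD _ (diag_add hu hu), S.χ_add, S.χ_sq, if_neg, one_mul]
  rw [lat_cls, map_add, ← two_nsmul]
  exact h

lemma refl_four (hT : S.TH) (hF : S.FB G) {u z : S.A} (hu : S.Diag u) (h : 2 • S.cls u ≠ 0)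
    (hz : OK S z) :
    S.fb G (u + z) * S.fb G (u - z) * S.fb G (-(u - z)) * S.fb G (-(u + z)) =
      if PM (S.cls z) (S.cls u) then S.ε⁻¹ else 1 := by
  have hχ : S.χ (u + z) * S.χ (u - z) = 1 := by
    rw [← S.χ_add, show u + z + (u - z) = u + u by abel, S.χ_add, S.χ_sq]
  have p1 : S.Lat (u + z) ↔ S.cls z = -S.cls u := by
    rw [lat_cls, map_add, add_comm, add_eq_zero_iff_eq_neg]
  have p2 : S.Lat (u - z) ↔ S.cls z = S.cls u := by
    rw [lat_cls, map_sub, sub_eq_zero, eq_comm]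
  rcases hz with hz | ⟨hz, h2⟩
  · have e1 := hF.reflD _ (diag_add hu hz)
    have e2 := hF.reflD _ (diag_sub hu hz)
    have : S.fb G (u + z) * S.fb G (u - z) * S.fb G (-(u - z)) * S.fb G (-(u + z)) =
        (if S.Lat (u + z) then S.ε⁻¹ else 1) * if S.Lat (u - z) then S.ε⁻¹ else 1 := by
      calc _ = (S.fb G (u + z) * S.fb G (-(u + z))) * (S.fb G (u - z) * S.fb G (-(u - z))) := by
            ring
        _ = _ := by
            rw [e1, e2]
            linear_combination ((if S.Lat (u + z) then S.ε⁻¹ else 1) *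
              if S.Lat (u - z) then S.ε⁻¹ else 1) * hχ
    rw [this, p1, p2, PM]
    by_cases a1 : S.cls z = -S.cls u <;> by_cases a2 : S.cls z = S.cls u
    · exact (h (by linear_combination (norm := abel) a1 - a2)).elim
    · rw [if_pos a1, if_neg a2, if_pos (Or.inr a1), mul_one]
    · rw [if_neg a1, if_pos a2, if_pos (Or.inl a2), one_mul]
    · rw [if_neg a1, if_neg a2, if_neg (by tauto), one_mul]
  · have n1 := not_lat hu hz h2
    have n2 := not_lat' hu hz h2
    have e1 := hF.refl _ n1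
    have e2 := hF.refl _ n2
    have hu' : S.x₁ u = S.x₂ u := hu
    have hz' : S.x₁ z = -S.x₂ z := hz
    have c1 : S.x₂ (u + z) = S.x₁ (u - z) := by rw [map_sub, map_add, hu', hz']; ring
    have c2 : S.x₂ (u - z) = S.x₁ (u + z) := by rw [map_sub, map_add, hu', hz']; ring
    rw [c1] at e1
    rw [c2] at e2
    have t1 : S.ϑ (S.x₁ (u + z)) ≠ 0 := fun e => n1 ((hT.zero_iff _).1 e).1
    have t2 : S.ϑ (S.x₁ (u - z)) ≠ 0 := fun e => n2 ((hT.zero_iff _).1 e).1
    rw [if_neg (by rw [PM, ← p1, ← p2]; tauto)]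
    apply mul_right_cancel₀ (mul_ne_zero t1 t2)
    calc _ = (S.fb G (u + z) * S.fb G (-(u + z)) * S.ϑ (S.x₁ (u - z))) *
          (S.fb G (u - z) * S.fb G (-(u - z)) * S.ϑ (S.x₁ (u + z))) := by ring
      _ = _ := by
        rw [e1, e2]
        linear_combination (S.ϑ (S.x₁ (u + z)) * S.ϑ (S.x₁ (u - z))) * hχ

lemma phi_val (hT : S.TH) (hF : S.FB G) {s₁ s₂ s₃ w z : S.A} (h₁ : S.Diag s₁) (h₂ : S.Diag s₂)
    (h₃ : S.Diag s₃) (hw : S.Diag w) (hs : s₁ + s₂ + s₃ = 0)
    (g : Gen (S.cls s₁) (S.cls s₂) (S.cls s₃) (S.cls w)) (hz : OK S z) :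
    S.Φ (S.fb G) s₁ s₂ s₃ w (s₁ + w) (s₂ - w) z = S.ε⁻¹ * S.fb G 0 *
      ((if PM (S.cls z) (S.cls s₃ + S.cls w) then S.ε⁻¹ else 1) *
        (if PM (S.cls z) (S.cls s₃ - S.cls w) then S.ε⁻¹ else 1) *
        (if PM (S.cls z) (S.cls s₁ - S.cls s₂ + S.cls w) then S.ε⁻¹ else 1)) := by
  have r0 : S.fb G 0 * S.fb G 0 = S.ε⁻¹ := by
    have := hF.reflD 0 (by simp [Setup.Diag])
    rw [neg_zero, if_pos (by simp [Setup.Lat])] at this
    simpa [Setup.χ] using this
  have r1 := refl_two hF (diag_add h₁ hw) (by rw [map_add]; exact g.g₁.2.1)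
  have r2 := refl_two hF (diag_sub h₂ hw) (by rw [map_sub]; exact g.g₂.2.2)
  have r3 := refl_two hF hw g.hw
  have f1 := refl_four hT hF (diag_add h₃ hw) (by rw [map_add]; exact g.g₃.2.1) hz
  have f2 := refl_four hT hF (diag_sub h₃ hw) (by rw [map_sub]; exact g.g₃.2.2) hz
  have f3 := refl_four hT hF (diag_add (diag_sub h₁ h₂) hw)
    (by rw [map_add, map_sub]; exact g.d₃.1) hz
  rw [map_add] at f1
  rw [map_sub] at f2
  rw [map_add, map_sub] at f3
  rw [← f1, ← f2, ← f3, ← r0]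
  have n1 := hF.ne (s₁ + s₁)
  have n2 := hF.ne (s₂ + s₂)
  have n3 := hF.ne (s₃ + s₃)
  rw [Setup.Φ, div_eq_iff (mul_ne_zero (mul_ne_zero n1 n2) n3)]
  unfold Setup.KK
  rw [show s₁ + w - (s₁ + w) = 0 by abel, show s₁ - w + (s₁ + w) = s₁ + s₁ by abel,
    show s₁ - w - (s₁ + w) = -(w + w) by abel,
    show s₂ + w + (s₂ - w) = s₂ + s₂ by abel, show s₂ + w - (s₂ - w) = w + w by abel,
    show s₂ - w - (s₂ - w) = 0 by abel,
    show s₃ + (s₁ + w) + (s₂ - w) = 0 by linear_combination (norm := abel) hs,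
    show s₃ + (s₁ + w) - (s₂ - w) = -(s₂ - w + (s₂ - w)) by linear_combination (norm := abel) hs,
    show s₃ - (s₁ + w) + (s₂ - w) = -(s₁ + w + (s₁ + w)) by linear_combination (norm := abel) hs,
    show s₃ - (s₁ + w) - (s₂ - w) = s₃ + s₃ by linear_combination (norm := abel) -hs,
    show s₁ + (s₂ - w) + z = -(s₃ + w - z) by linear_combination (norm := abel) hs,
    show s₁ + (s₂ - w) - z = -(s₃ + w + z) by linear_combination (norm := abel) hs,
    show s₁ - (s₂ - w) + z = s₁ - s₂ + w + z by abel,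
    show s₁ - (s₂ - w) - z = s₁ - s₂ + w - z by abel,
    show s₂ + (s₁ + w) + z = -(s₃ - w - z) by linear_combination (norm := abel) hs,
    show s₂ + (s₁ + w) - z = -(s₃ - w + z) by linear_combination (norm := abel) hs,
    show s₂ - (s₁ + w) + z = -(s₁ - s₂ + w - z) by abel,
    show s₂ - (s₁ + w) - z = -(s₁ - s₂ + w + z) by abel]
  calc _ = (S.fb G (s₁ + w + (s₁ + w)) * S.fb G (-(s₁ + w + (s₁ + w)))) *
        (S.fb G (s₂ - w + (s₂ - w)) * S.fb G (-(s₂ - w + (s₂ - w)))) *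
        (S.fb G (w + w) * S.fb G (-(w + w))) * (S.fb G 0 * S.fb G 0 * S.fb G 0 *
        (S.fb G (s₃ + w + z) * S.fb G (s₃ + w - z) * S.fb G (-(s₃ + w - z)) *
          S.fb G (-(s₃ + w + z)) *
        (S.fb G (s₃ - w + z) * S.fb G (s₃ - w - z) * S.fb G (-(s₃ - w - z)) *
          S.fb G (-(s₃ - w + z))) *
        (S.fb G (s₁ - s₂ + w + z) * S.fb G (s₁ - s₂ + w - z) * S.fb G (-(s₁ - s₂ + w - z)) *
          S.fb G (-(s₁ - s₂ + w + z)))) *
        (S.fb G (s₁ + s₁) * S.fb G (s₂ + s₂) * S.fb G (s₃ + s₃))) := by ring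
    _ = _ := by rw [r1, r2, r3]; ring

lemma core (hgrp : S_GRP) (hiper : S_IPER) (hT : S.TH) (hG : S.GH G) (hF : S.FB G)
    (hC : S.Count) {s₁ s₂ s₃ w : S.A} {X : Finset (ℂ ⧸ S.L)} (h₁ : S.Diag s₁) (h₂ : S.Diag s₂)
    (h₃ : S.Diag s₃) (hw : S.Diag w) (hs : s₁ + s₂ + s₃ = 0)
    (g : Gen (S.cls s₁) (S.cls s₂) (S.cls s₃) (S.cls w)) (hX : S.IsX X) {x y : ℂ ⧸ S.L}
    (hx : PM x (S.cls s₁ + S.cls w)) (hy : PM y (S.cls s₂ - S.cls w)) :
    ∑ z ∈ X, S.μ z * S.Φ (S.fb G) s₁ s₂ s₃ w (S.rep x) (S.rep y) (S.rep z) =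
      -2 * S.fb G 0 * Face S.ε⁻¹ (S.cls s₁) (S.cls s₂) (S.cls s₃) (S.cls w) x y := by
  obtain ⟨⟨XP, XQ, X', hX', hfs⟩, hP, hQ, hD, -⟩ := hgrp S
  obtain ⟨F, -⟩ := hfs hC
  obtain rfl : X = X' := Finset.ext fun g => (hX g).trans (hX' g).symm
  have pm : ∀ {v u : ℂ ⧸ S.L}, PM v u → u ∈ S.Gp → v ∈ S.Gp := by
    rintro v u (rfl | rfl) hu
    exacts [hu, S.Gp.neg_mem hu]
  obtain ⟨dx, cx⟩ := hP x (pm hx (S.Gp.add_mem (hD _ h₁) (hD _ hw)))
  obtain ⟨dy, cy⟩ := hP y (pm hy (S.Gp.sub_mem (hD _ h₂) (hD _ hw)))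
  have key : ∀ z ∈ X, S.μ z * S.Φ (S.fb G) s₁ s₂ s₃ w (S.rep x) (S.rep y) (S.rep z) =
      S.ε⁻¹ * S.fb G 0 * (S.μ z * ((if PM z (S.cls s₃ + S.cls w) then S.ε⁻¹ else 1) *
        (if PM z (S.cls s₃ - S.cls w) then S.ε⁻¹ else 1) *
        (if PM z (S.cls s₁ - S.cls s₂ + S.cls w) then S.ε⁻¹ else 1))) := by
    intro z hz
    have hz' : OK S (S.rep z) ∧ S.cls (S.rep z) = z := by
      by_cases hp : z ∈ S.Gp
      · exact ⟨Or.inl (hP z hp).1, (hP z hp).2⟩
      · obtain ⟨a, b, c⟩ := hQ z (((hX z).1 hz).resolve_left hp) hp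
        exact ⟨Or.inr ⟨a, c⟩, b⟩
    have m1 := move hiper hT hG hF h₁ h₃ h₂ hw dy (by linear_combination (norm := abel) hs)
      g.g₂.1 hz'.1 dx (diag_add h₁ hw) (by rw [cx, map_add]; exact hx)
    have m2 := move hiper hT hG hF h₂ h₃ h₁ hw (diag_add h₁ hw)
      (by linear_combination (norm := abel) hs) g.g₁.1 hz'.1 dy (diag_sub h₂ hw)
      (by rw [cy, map_sub]; exact hy)
    have v := phi_val hT hF h₁ h₂ h₃ hw hs g hz'.1
    rw [hz'.2] at v
    have : S.Φ (S.fb G) s₁ s₂ s₃ w (S.rep x) (S.rep y) (S.rep z) =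
        S.Φ (S.fb G) s₁ s₂ s₃ w (s₁ + w) (s₂ - w) (S.rep z) := by
      unfold Setup.Φ
      congr 1
      rw [KK_comm _ s₃ (S.rep y), KK_comm _ s₂ (S.rep z), KK_comm _ s₃ (S.rep y),
        KK_comm _ s₂ (S.rep z)] at m1
      rw [KK_comm _ s₁ (S.rep z), KK_comm _ s₁ (S.rep z)] at m2
      linear_combination (S.KK (S.fb G) s₂ w (S.rep y) * S.KK (S.fb G) s₃ w (S.rep z) *
        S.KK (S.fb G) s₁ (S.rep y) (S.rep z)) * m1 + (S.KK (S.fb G) s₁ w (s₁ + w) *
        S.KK (S.fb G) s₃ w (S.rep z) * S.KK (S.fb G) s₂ (s₁ + w) (S.rep z)) * m2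
    rw [this, v]
    ring
  rw [Finset.sum_congr rfl key, ← Finset.mul_sum,
    sum_val F g (hD _ h₁) (hD _ h₂) (hD _ h₃) (hD _ hw), face_val _ g hx hy]
  ring

end Face2

open Face2 in
theorem face2_thm (hgrp : S_GRP) (hiper : S_IPER) : S_FACE2 := by
  intro S hT G hG hF hC s₁ s₂ s₃ w X h₁ h₂ h₃ hw hs g hX x _ y _ n1 n2 n3
  rcases cases_pm g n1 n2 n3 with ⟨hx, hy⟩ | ⟨hx, hy⟩
  · exact core hgrp hiper hT hG hF hC h₁ h₂ h₃ hw hs g hX hx hy
  · have := core hgrp hiper hT hG hF hC h₁ h₂ h₃ (diag_neg hw) hs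
      (by rw [map_neg]; exact gen_neg g) hX (by rw [map_neg]; exact hx)
      (by rw [map_neg]; exact hy)
    rw [map_neg, face_neg] at this
    rw [← this]
    refine Finset.sum_congr rfl fun z _ => ?_
    simp only [Setup.Φ, KK_comm _ _ (-w), KK_neg, KK_comm _ _ w]

end

end Pool.Agent.P.MP_29cb78_nt.E
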