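import Pool.Agent.P.MP_29cb78_nt.E.Bent

/-!
The addition formula for the logarithmic derivative of the theta function.
-/

namespace Pool.Agent.P.MP_29cb78_nt.E

open Filter Topology

namespace Fs

variable {S : Setup}

lemma mm (m a z : ℂ) : S.mult m (z + a) * S.mult m (z - a) = S.mult m z ^ 2 := by
  rw [add_comm z a, show z - a = -a + z by ring, Osec.mult_add, Osec.mult_add, mul_neg,
    Complex.exp_neg]
  field_simp

lemma secH (T : S.TH) (a : ℂ) : S.Sec 2 fun z => S.ϑ (z + a) * S.ϑ (z - a) := by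
  have D := T.diff
  refine ⟨by fun_prop, fun m hm z => ?_⟩
  simp only [add_right_comm z m a, add_sub_right_comm z m a, T.shift m hm, ← mm m a z]
  ring

lemma secW (T : S.TH) (a : ℂ) : S.Sec 2 fun z =>
    deriv S.ϑ (z - a) * S.ϑ (z + a) - deriv S.ϑ (z + a) * S.ϑ (z - a) := by
  have D := T.diff
  have D' := T.diff.deriv
  have d := fun {m : ℂ} (hm : m ∈ S.M) (z : ℂ) =>
    Bent.dsec (d := 1) ⟨T.diff, by simpa using T.shift⟩ hm z
  refine ⟨by fun_prop, fun m hm z => ?_⟩
  simp only [add_right_comm z m a, add_sub_right_comm z m a, T.shift m hm, ← mm m a z, d hm]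
  ring

lemma core (T : S.TH) (a X Y : ℂ) (h1 : X + a ∉ S.M) (h2 : X - a ∉ S.M) (h3 : Y + a ∉ S.M)
    (h4 : Y - a ∉ S.M) :
    (S.zt (X - a) + S.zt (Y + a) - S.zt (X + a) - S.zt (Y - a)) *
      (S.ϑ (X + a) * S.ϑ (X - a) * S.ϑ (Y + a) * S.ϑ (Y - a)) =
    -deriv S.ϑ 0 * (S.ϑ (X - Y) * S.ϑ (2 * a) * S.ϑ (X + Y)) := by
  have D := T.diff
  have z0 : S.ϑ 0 = 0 := (T.zero_iff 0).2 S.M.zero_mem
  have zt : ∀ z, z ∉ S.M → deriv S.ϑ z = S.ϑ z * S.zt z := fun z hz =>
    (mul_div_cancel₀ _ (mt (T.zero_iff z).1 hz)).symm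
  by_cases ha : 2 * a ∈ S.M
  · rw [(T.zero_iff _).2 ha, show X + a = X - a + 2 * a by ring,
      show Y + a = Y - a + 2 * a by ring, Bent.zt_add T ha h2, Bent.zt_add T ha h4]
    ring
  have sH := secH T a
  have sK := secH T Y
  have sW := secW T a
  have sD : S.Sec 2 fun z => (deriv S.ϑ (z - a) * S.ϑ (z + a) - deriv S.ϑ (z + a) * S.ϑ (z - a) +
      (S.zt (Y + a) - S.zt (Y - a)) * (S.ϑ (z + a) * S.ϑ (z - a))) * (S.ϑ (Y + a) * S.ϑ (Y - a)) +
      deriv S.ϑ 0 * S.ϑ (2 * a) * (S.ϑ (z + Y) * S.ϑ (z - Y)) :=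
    ⟨((sW.1.add (sH.1.const_mul _)).mul_const _).add (sK.1.const_mul _), fun m hm z => by
      have a1 := sH.2 m hm z
      have a2 := sK.2 m hm z
      have a3 := sW.2 m hm z
      simp only at a1 a2 a3 ⊢
      rw [a1, a2, a3]
      ring⟩
  have s1 : Osec.Simp fun z => S.ϑ (z + a) := fun z hz => by
    rw [deriv_comp_add_const]
    exact T.deriv_ne _ ((T.zero_iff _).1 hz)
  have s2 : Osec.Simp fun z => S.ϑ (z - a) := fun z hz => by
    rw [deriv_comp_sub_const]
    exact T.deriv_ne _ ((T.zero_iff _).1 hz)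
  obtain ⟨c, hc⟩ := Osec.prop T sD sH (Osec.simp_mul (by fun_prop) (by fun_prop) s1 s2
    fun z k1 k2 => ha (by
      have := S.M.sub_mem ((T.zero_iff _).1 k1) ((T.zero_iff _).1 k2)
      rwa [show z + a - (z - a) = 2 * a by ring] at this)) fun z hz => by
    rcases mul_eq_zero.1 hz with k | k
    · have e := sD.2 _ ((T.zero_iff _).1 k) (-a)
      rw [show -a + (z + a) = z by ring] at e
      refine e.trans ?_
      simp only [neg_add_cancel, z0, show -a - a = -(2 * a) by ring,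
        show -a - Y = -(Y + a) by ring, show -a + Y = Y - a by ring, T.odd]
      ring
    · have e := sD.2 _ ((T.zero_iff _).1 k) a
      rw [show a + (z - a) = z by ring] at e
      refine e.trans ?_
      simp only [sub_self, z0, show a + a = 2 * a by ring,
        show a - Y = -(Y - a) by ring, show a + Y = Y + a by ring, T.odd]
      ring
  have c0 : c = 0 := by
    have e := hc Y
    simp only [sub_self, z0, zt _ h3, zt _ h4] at e
    refine (mul_eq_zero.1 (?_ : c * (S.ϑ (Y + a) * S.ϑ (Y - a)) = 0)).resolve_right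
      (mul_ne_zero (mt (T.zero_iff _).1 h3) (mt (T.zero_iff _).1 h4))
    rw [← e]
    ring
  have e := hc X
  simp only [c0, zero_mul, zt _ h1, zt _ h2] at e
  linear_combination e

end Fs

theorem fs_thm : S_FS := by
  intro S T
  refine ⟨-deriv S.ϑ 0, fun x y u v h1 h2 h3 h4 => ?_⟩
  have e1 : ∀ t : ℂ, t + (u + v) / 2 + (u - v) / 2 = t + u := fun t => by ring
  have e2 : ∀ t : ℂ, t + (u + v) / 2 - (u - v) / 2 = t + v := fun t => by ring
  have := Fs.core T ((u - v) / 2) (x + (u + v) / 2) (y + (u + v) / 2) (by rwa [e1]) (by rwa [e2])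
    (by rwa [e1]) (by rwa [e2])
  rw [e1, e1, e2, e2, show x + (u + v) / 2 - (y + (u + v) / 2) = x - y by ring,
    show 2 * ((u - v) / 2) = u - v by ring,
    show x + (u + v) / 2 + (y + (u + v) / 2) = x + y + u + v by ring] at this
  exact this

end Pool.Agent.P.MP_29cb78_nt.E
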