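import Pool.Agent.P.MP_29cb78_nt.E.Iface

/-! Removing the polynomial part. -/

namespace Pool.Agent.P.MP_29cb78_nt.E

namespace Gauge

variable {H : Type} [AddCommGroup H]

/-- the shift by `ω` changes `d` by a quadratic function -/
def Sh (d : H → ℂ) (ω : H) : Prop :=
  ∃ (b : H →+ H →+ ℂ) (c : ℂ), (∀ x y, b x y = b y x) ∧
    (∀ x, d (x + ω) = d x + (b x x + b x ω + c)) ∧ ∀ x, d (x - ω) = d x - (b x x - b x ω + c)

lemma sh_of {d : H → ℂ} {ω : H} (hodd : ∀ x, d (-x) = -d x) (b : H →+ H →+ ℂ) (l : H →+ ℂ)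
    (c : ℂ) (hb : ∀ x y, b x y = b y x) (h : ∀ x, d (x + ω) = d x + (b x x + l x + c)) :
    Sh d ω := by
  have hm : ∀ x, d (x - ω) = d x - (b x x - l x + c) := fun x => by
    have h1 := h (-x)
    rw [show -x + ω = -(x - ω) by abel, hodd, hodd] at h1
    simp only [map_neg, AddMonoidHom.neg_apply, neg_neg] at h1
    linear_combination -h1
  have key : ∀ x, 2 * l x + l ω = 2 * b x ω + b ω ω := fun x => by
    have h1 := hm (x + ω)
    rw [add_sub_cancel_right, h] at h1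
    simp only [map_add, AddMonoidHom.add_apply] at h1
    rw [hb ω x] at h1
    linear_combination -h1
  have hl : ∀ x, l x = b x ω := fun x => by
    have h0 := key 0
    simp only [map_zero, AddMonoidHom.zero_apply] at h0
    linear_combination (key x - h0) / 2
  exact ⟨b, c, hb, fun x => by rw [h, hl], fun x => by rw [hm, hl]⟩

lemma kap_comm (d : H → ℂ) (s x y : H) : kap d s x y = kap d s y x := by
  unfold kap
  rw [show s + y + x = s + x + y by abel, show s + y - x = s - x + y by abel,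
    show s - y + x = s + x - y by abel, show s - y - x = s - x - y by abel]
  ring

section
variable {d : H → ℂ} {ω : H} {b : H →+ H →+ ℂ} {c : ℂ} (hb : ∀ x y, b x y = b y x)
  (hp : ∀ x, d (x + ω) = d x + (b x x + b x ω + c))
  (hm : ∀ x, d (x - ω) = d x - (b x x - b x ω + c))
include hb hp hm

lemma kap_left (s x y : H) : kap d s (x + ω) y = kap d s x y + (8 * b s x + 4 * b s ω) := by
  unfold kap
  rw [show s + (x + ω) + y = s + x + y + ω by abel, show s + (x + ω) - y = s + x - y + ω by abel,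
    show s - (x + ω) + y = s - x + y - ω by abel, show s - (x + ω) - y = s - x - y - ω by abel,
    hp, hp, hm, hm]
  simp only [map_add, map_sub, AddMonoidHom.add_apply, AddMonoidHom.sub_apply]
  rw [hb x s]
  ring

lemma kap_right (s x y : H) : kap d s x (y + ω) = kap d s x y + (8 * b s y + 4 * b s ω) := by
  rw [kap_comm, kap_left hb hp hm, kap_comm]

omit hb hm in
lemma kap_add (s x y : H) : kap d (s + ω) x y =
    kap d s x y + (4 * b s s + 4 * b x x + 4 * b y y + 4 * b s ω + 4 * c) := by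
  unfold kap
  rw [show s + ω + x + y = s + x + y + ω by abel, show s + ω + x - y = s + x - y + ω by abel,
    show s + ω - x + y = s - x + y + ω by abel, show s + ω - x - y = s - x - y + ω by abel,
    hp, hp, hp, hp]
  simp only [map_add, map_sub, AddMonoidHom.add_apply, AddMonoidHom.sub_apply]
  ring

omit hb hp in
lemma kap_sub (s x y : H) : kap d (s - ω) x y =
    kap d s x y - (4 * b s s + 4 * b x x + 4 * b y y - 4 * b s ω + 4 * c) := by
  unfold kap
  rw [show s - ω + x + y = s + x + y - ω by abel, show s - ω + x - y = s + x - y - ω by abel,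
    show s - ω - x + y = s - x + y - ω by abel, show s - ω - x - y = s - x - y - ω by abel,
    hm, hm, hm, hm]
  simp only [map_add, map_sub, AddMonoidHom.add_apply, AddMonoidHom.sub_apply]
  ring

omit hm in
lemma dbl_add (s : H) : d (s + ω + (s + ω)) =
    d (s + s) + (8 * b s s + 8 * b s ω + 2 * b ω ω + 2 * c) := by
  rw [show s + ω + (s + ω) = s + s + ω + ω by abel, hp, hp]
  simp only [map_add, AddMonoidHom.add_apply]
  rw [hb ω s]
  ring

omit hp in
lemma dbl_sub (s : H) : d (s - ω + (s - ω)) =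
    d (s + s) - (8 * b s s - 8 * b s ω + 2 * b ω ω + 2 * c) := by
  rw [show s - ω + (s - ω) = s + s - ω - ω by abel, hm, hm]
  simp only [map_add, map_sub, AddMonoidHom.add_apply, AddMonoidHom.sub_apply]
  rw [hb ω s]
  ring

omit hm in
lemma shift_nat (u : ℕ) (y : H) : d (y + u • ω) =
    d y + (u * (b y y + c) + u ^ 2 * b y ω + (u ^ 3 - u) / 3 * b ω ω) := by
  induction u with
  | zero => simp
  | succ u ih =>
    rw [succ_nsmul, ← add_assoc, hp, ih]
    simp only [map_add, map_nsmul, AddMonoidHom.add_apply, AddMonoidHom.nsmul_apply, nsmul_eq_mul]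
    rw [hb ω y]
    push_cast
    ring

end

lemma sum_zero (b : H →+ H →+ ℂ) {s₁ s₂ s₃ : H} (hs : s₁ + s₂ + s₃ = 0) (x : H) :
    b s₁ x + b s₂ x + b s₃ x = 0 := by
  rw [← AddMonoidHom.add_apply, ← AddMonoidHom.add_apply, ← map_add, ← map_add, hs, map_zero,
    AddMonoidHom.zero_apply]

variable {d : H → ℂ} {ω s₁ s₂ s₃ : H}

lemma ee_w (h : Sh d ω) (hs : s₁ + s₂ + s₃ = 0) (w x y z : H) :
    EE d s₁ s₂ s₃ (w + ω) x y z = EE d s₁ s₂ s₃ w x y z := by
  obtain ⟨b, c, hb, hp, hm⟩ := h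
  simp only [EE, kap_left hb hp hm]
  linear_combination 8 * sum_zero b hs w + 4 * sum_zero b hs ω

lemma ee_x (h : Sh d ω) (hs : s₁ + s₂ + s₃ = 0) (w x y z : H) :
    EE d s₁ s₂ s₃ w (x + ω) y z = EE d s₁ s₂ s₃ w x y z := by
  obtain ⟨b, c, hb, hp, hm⟩ := h
  simp only [EE, kap_left hb hp hm, kap_right hb hp hm]
  linear_combination 8 * sum_zero b hs x + 4 * sum_zero b hs ω

lemma ee_y (h : Sh d ω) (hs : s₁ + s₂ + s₃ = 0) (w x y z : H) :
    EE d s₁ s₂ s₃ w x (y + ω) z = EE d s₁ s₂ s₃ w x y z := by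
  obtain ⟨b, c, hb, hp, hm⟩ := h
  simp only [EE, kap_left hb hp hm, kap_right hb hp hm]
  linear_combination 8 * sum_zero b hs y + 4 * sum_zero b hs ω

lemma ee_z (h : Sh d ω) (hs : s₁ + s₂ + s₃ = 0) (w x y z : H) :
    EE d s₁ s₂ s₃ w x y (z + ω) = EE d s₁ s₂ s₃ w x y z := by
  obtain ⟨b, c, hb, hp, hm⟩ := h
  simp only [EE, kap_right hb hp hm]
  linear_combination 8 * sum_zero b hs z + 4 * sum_zero b hs ω

lemma ee_13 (h : Sh d ω) (s₁ s₂ s₃ w x y z : H) :
    EE d (s₁ + ω) s₂ (s₃ - ω) w x y z = EE d s₁ s₂ s₃ w x y z := by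
  obtain ⟨b, c, hb, hp, hm⟩ := h
  simp only [EE, kap_add hp, kap_sub hm, dbl_add hb hp, dbl_sub hb hm]
  ring

lemma ee_23 (h : Sh d ω) (s₁ s₂ s₃ w x y z : H) :
    EE d s₁ (s₂ + ω) (s₃ - ω) w x y z = EE d s₁ s₂ s₃ w x y z := by
  obtain ⟨b, c, hb, hp, hm⟩ := h
  simp only [EE, kap_add hp, kap_sub hm, dbl_add hb hp, dbl_sub hb hm]
  ring

lemma ee_smul (m : ℤ) (h : ∀ x : H, Sh d (m • x)) (hs : s₁ + s₂ + s₃ = 0) (w x y z : H) :
    EE d ((1 + m) • s₁) ((1 + m) • s₂) ((1 + m) • s₃) ((1 + m) • w) ((1 + m) • x) ((1 + m) • y)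
      ((1 + m) • z) = EE d s₁ s₂ s₃ w x y z := by
  have e : s₃ + m • s₃ = s₃ - m • s₂ - m • s₁ := by
    have : m • s₃ = -(m • s₁) - m • s₂ := by
      rw [show s₃ = -s₁ - s₂ by rw [← sub_eq_zero, ← hs]; abel, smul_sub, smul_neg]
    rw [this]; abel
  simp only [add_smul, one_smul]
  rw [e, ee_13 (h _), ee_23 (h _), ee_w (h _) hs, ee_x (h _) hs, ee_y (h _) hs, ee_z (h _) hs]

lemma sum0 (N : ℕ) : ∑ j : Fin 4, (cc N j : ℂ) = 6 * (N : ℂ) ^ 3 := by
  simp [Fin.sum_univ_four, cc, tt]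
  ring

lemma sum1 (N : ℕ) : ∑ j : Fin 4, (cc N j : ℂ) * (tt N j : ℂ) = 0 := by
  simp [Fin.sum_univ_four, cc, tt]
  ring

lemma sum3 (N : ℕ) : ∑ j : Fin 4, (cc N j : ℂ) * (tt N j : ℂ) ^ 3 = 0 := by
  simp [Fin.sum_univ_four, cc, tt]
  ring

end Gauge

open Gauge in
theorem gauge_thm : S_GAUGE := by
  intro H _ Λ N d₀ d hN hΛ hodd hq hd
  have hsh : ∀ ω ∈ Λ, Sh d₀ ω := fun ω hω => by
    obtain ⟨b, l, c, hb, h⟩ := hq ω hω
    exact sh_of hodd b l c hb h
  refine ⟨fun x => ?_, fun ω hω x => ?_, fun s₁ s₂ s₃ w x y z hs => ?_⟩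
  · simp only [hd, smul_neg, hodd, mul_neg, Finset.sum_neg_distrib]
  · obtain ⟨b, c, hb, hp, -⟩ := hsh ω hω
    have key : ∀ j : Fin 4, d₀ (tt N j • (x + ω)) = d₀ (tt N j • x) +
        ((tt N j : ℂ) * (c - b ω ω / 3) + (tt N j : ℂ) ^ 3 * (b x x + b x ω + b ω ω / 3)) := by
      intro j
      have e : tt N j = ((1 + (j : ℕ) * N : ℕ) : ℤ) := by simp [tt]
      rw [e, smul_add, natCast_zsmul, natCast_zsmul, shift_nat hb hp]
      simp only [map_nsmul, AddMonoidHom.nsmul_apply, nsmul_eq_mul, Int.cast_natCast]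
      ring
    rw [hd, hd]
    congr 1
    have h1 := sum1 N
    have h3 := sum3 N
    simp only [key, Fin.sum_univ_four] at h1 h3 ⊢
    linear_combination (c - b ω ω / 3) * h1 + (b x x + b x ω + b ω ω / 3) * h3
  · have key : ∀ j : Fin 4, EE d₀ (tt N j • s₁) (tt N j • s₂) (tt N j • s₃) (tt N j • w)
        (tt N j • x) (tt N j • y) (tt N j • z) = EE d₀ s₁ s₂ s₃ w x y z := fun j =>
      ee_smul (((j : ℕ) : ℤ) * N) (fun a => hsh _ (by
        rw [mul_smul, natCast_zsmul a N]; exact Λ.zsmul_mem (hΛ a) _)) hs w x y z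
    have lin : EE d s₁ s₂ s₃ w x y z = (6 * (N : ℂ) ^ 3)⁻¹ * ∑ j : Fin 4, cc N j *
        EE d₀ (tt N j • s₁) (tt N j • s₂) (tt N j • s₃) (tt N j • w)
          (tt N j • x) (tt N j • y) (tt N j • z) := by
      simp only [EE, kap, hd, smul_add, smul_sub, Fin.sum_univ_four]
      ring
    have hN' : (6 * (N : ℂ) ^ 3) ≠ 0 :=
      mul_ne_zero (by norm_num) (pow_ne_zero _ (Nat.cast_ne_zero.2 hN))
    simp only [lin, key]
    rw [← Finset.sum_mul, sum0, ← mul_assoc, inv_mul_cancel₀ hN', one_mul]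

end Pool.Agent.P.MP_29cb78_nt.E
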