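import Pool.Agent.P.MP_29cb78_nt.E.Basic

/-!
The normalised gamma function exists.
-/

namespace Pool.Agent.P.MP_29cb78_nt.E

open Filter Topology
open scoped Classical Real

noncomputable section

namespace Gh

/-- Functions with vanishing third differences are quadratic. -/
lemma quad {H : Type} [AddCommGroup H] (Q : H → ℂ)
    (h : ∀ x y z, Q (x + y + z) + Q x + Q y + Q z = Q (x + y) + Q (x + z) + Q (y + z) + Q 0) :
    ∃ (b : H →+ H →+ ℂ) (l : H →+ ℂ) (c : ℂ), (∀ x y, b x y = b y x) ∧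
      ∀ x, Q x = b x x + l x + c := by
  let b : H →+ H →+ ℂ := AddMonoidHom.mk' (fun x => AddMonoidHom.mk'
    (fun y => (Q (x + y) - Q x - Q y + Q 0) / 2) fun y z => by
      rw [← add_assoc]
      linear_combination h x y z / 2) fun x y => by
    ext z
    change (Q (x + y + z) - Q (x + y) - Q z + Q 0) / 2 =
      (Q (x + z) - Q x - Q z + Q 0) / 2 + (Q (y + z) - Q y - Q z + Q 0) / 2
    linear_combination h x y z / 2
  have hb : ∀ x y, b x y = (Q (x + y) - Q x - Q y + Q 0) / 2 := fun _ _ => rfl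
  have hs : ∀ x y, b x y = b y x := fun x y => by
    rw [hb, hb, add_comm y x]
    ring
  refine ⟨b, AddMonoidHom.mk' (fun x => Q x - b x x - Q 0) fun x y => ?_, Q 0, hs, fun x => ?_⟩
  · simp only [map_add, AddMonoidHom.add_apply, hs y x]
    rw [hb x y]
    ring
  · change Q x = b x x + (Q x - b x x - Q 0) + Q 0
    ring

/-- The cubic correction. -/
def cub {H : Type} [AddCommGroup H] (b : H →+ H →+ ℂ) (φ : H →+ ℂ) (q : H) (c : ℂ) (x : H) : ℂ :=
  -((φ x - 1 / 2) * (b x x - b x q + b q q / 4) - (φ x - 1 / 2) ^ 2 * (b x q - b q q / 2) +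
    (φ x - 1 / 2) ^ 3 * b q q / 3) + (b q q / 12 - c) * (φ x - 1 / 2)

lemma poly (f g A₀ A₁ A₂ B₀ B₁ k e c : ℂ) : ∃ c₀ c₁ c₂ c₃ : ℂ, ∀ j : ℤ,
    -((f + j * g) * (A₀ + j * A₁ + j ^ 2 * A₂) - (f + j * g) ^ 2 * (B₀ + j * B₁) +
      (f + j * g) ^ 3 * k / 3) + e * (f + j * g) + c = c₀ + c₁ * j + c₂ * j ^ 2 + c₃ * j ^ 3 :=
  ⟨-(f * A₀ - f ^ 2 * B₀ + f ^ 3 * k / 3) + e * f + c,
    -(f * A₁ + g * A₀ - f ^ 2 * B₁ - 2 * f * g * B₀ + f ^ 2 * g * k) + e * g,
    -(f * A₂ + g * A₁ - 2 * f * g * B₁ - g ^ 2 * B₀ + f * g ^ 2 * k),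
    -(g * A₂ - g ^ 2 * B₁ + g ^ 3 * k / 3), fun j => by ring⟩

end Gh

open Gh in
theorem gh_thm (hth : S_TH) (hdn : S_DN) (hpsi : S_PSI) (hghq : S_GHQ) (hghp : S_GHP)
    (hthq : S_THQ) : S_GH := by
  intro S
  have hT := hth S
  have hD := hdn S
  obtain ⟨nc, ψ, hψ, hre⟩ := hpsi S hT
  obtain ⟨b, c, hs, hp, ⟨l, hl⟩, hq⟩ := hghq S hT hD nc ψ hψ hre
  have hlam := S.lam_ne
  let φ : S.A →+ ℂ := AddMonoidHom.mk' (fun x => -S.x₂ x / S.lam) fun x y => by
    rw [map_add]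
    ring
  have hφ : ∀ x, φ x = -S.x₂ x / S.lam := fun _ => rfl
  have φp : φ S.p = 0 := by simp [hφ]
  have φq : φ S.q = 1 := by simp [hφ, hlam]
  have φι : ∀ z, φ (S.ι z) = -z / S.lam := fun z => by simp [hφ]
  have hp' : ∀ x, b x S.p = 0 := fun x => by rw [hs, hp]
  set k : ℂ := (nc - 1 : ℤ) * (π * Complex.I) / 2 with hk
  let P : S.A → ℂ := fun x => cub b φ S.q c x + k
  have Pp : ∀ x, P (x + S.p) = P x := fun x => by
    simp only [P, cub, map_add, AddMonoidHom.add_apply, φp, hp, hp', add_zero]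
  have Pq : ∀ x, P (x + S.q) = P x - (b x x + c) := fun x => by
    simp only [P, cub, map_add, AddMonoidHom.add_apply, φq, hs S.q x]
    ring
  have Pr : ∀ x, P (x + S.p) + P (S.q - x) = (nc - 1 : ℤ) * (π * Complex.I) := fun x => by
    rw [Pp]
    simp only [P, cub, map_sub, AddMonoidHom.sub_apply, φq, hs S.q x, hk]
    ring
  have ψ0 : ∀ x, ψ x ≠ 0 := fun x => by
    obtain ⟨c₀, c₁, c₂, h⟩ := hψ.expq x
    have := h 0
    rw [map_zero, add_zero] at this
    rw [this]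
    exact Complex.exp_ne_zero _
  refine ⟨fun x => S.Den (S.p + S.q - x) * ψ x * Complex.exp (P x) / S.Den x,
    ⟨fun x => S.Den (S.p + S.q - x) * ψ x * Complex.exp (P x), S.Den, fun _ => rfl, fun x => ?_,
      hD.diff, hD.zero_iff, fun x => ?_⟩, fun x hx => ?_, fun x hx => ?_, fun x h1 h2 => ?_,
    fun ω hω => ?_, nc, P, fun x y => ?_, fun x hx => ?_⟩
  · obtain ⟨c₀, c₁, c₂, h⟩ := hψ.expq x
    have e1 : ∀ z, S.Den (S.p + S.q - (x + S.ι z)) = S.sl S.Den (S.p + S.q - x) (-z) := fun z => by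
      simp only [Setup.sl, map_neg]
      congr 1
      abel
    obtain ⟨K, e2⟩ : ∃ K, ∀ z, l (S.ι z) = z * K := ⟨l (S.ι 1), fun z => by
      rw [← hl, hs, hl, one_mul]⟩
    have hd := hD.diff (S.p + S.q - x)
    have e3 : S.sl (fun x => S.Den (S.p + S.q - x) * ψ x * Complex.exp (P x)) x = fun z =>
        S.sl S.Den (S.p + S.q - x) (-z) * Complex.exp (c₀ + c₁ * z + c₂ * z ^ 2) *
          Complex.exp (P (x + S.ι z)) := by
      funext z
      rw [← e1, ← h]
      rfl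
    rw [e3]
    simp only [P, cub, map_add, AddMonoidHom.add_apply, φι, hs x (S.ι _), hl, e2]
    fun_prop
  · rw [mul_eq_zero, mul_eq_zero, hD.zero_iff]
    simp [ψ0, Setup.Zero]
  · have h0 : S.Den x ≠ 0 := fun h => hx ((hD.zero_iff x).1 h)
    have h1 := hD.shp x
    have h2 := hD.shp (S.q - x)
    have h3 := hψ.shp x
    have e1 : S.p + S.q - (x + S.p) = S.q - x := by abel
    have e2 : S.q - x + S.p = S.p + S.q - x := by abel
    rw [e2] at h2
    rw [h1] at h0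
    obtain ⟨h4, h5⟩ := mul_ne_zero_iff.1 h0
    simp only [e1, Pp]
    rw [h2, h1]
    rw [Setup.θw] at h3
    field_simp
    linear_combination S.Den (S.p + S.q - x) * h3
  · have h0 : S.Den x ≠ 0 := fun h => hx ((hD.zero_iff x).1 h)
    have h1 := hD.shq x
    have h2 := hD.shq (S.p - x)
    have h3 := hq x
    have e1 : S.p + S.q - (x + S.q) = S.p - x := by abel
    have e2 : S.p - x + S.q = S.p + S.q - x := by abel
    rw [e2] at h2
    rw [h1] at h0
    obtain ⟨h4, h5⟩ := mul_ne_zero_iff.1 h0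
    simp only [e1, Pq]
    rw [h2, h1, Complex.exp_sub]
    rw [Setup.θw] at h3
    have := Complex.exp_ne_zero (b x x + c)
    field_simp
    linear_combination S.Den (S.p + S.q - x) * h3
  · have e1 : S.p + S.q - (x + S.p) = S.q - x := by abel
    have e2 : S.p + S.q - (S.q - x) = x + S.p := by abel
    have h3 : S.Den (x + S.p) ≠ 0 := fun h => h1 ((hD.zero_iff _).1 h)
    have h4 : S.Den (S.q - x) ≠ 0 := fun h => h2 (by
      rw [Setup.Zero, e1]
      exact (hD.zero_iff _).1 h)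
    have h5 := hre (x + S.p)
    have h6 : Complex.exp (P (x + S.p)) * Complex.exp (P (S.q - x)) = (-1) ^ (nc - 1) := by
      rw [← Complex.exp_add, Pr, Complex.exp_int_mul, Complex.exp_pi_mul_I]
    have h7 : S.χ x = (-1) ^ (S.n (x + S.p) - nc) * (-1) ^ (nc - 1) := by
      rw [← zpow_add₀ (by norm_num), map_add, S.n_p, Setup.χ]
      congr 1
      ring
    rw [e1] at h5
    simp only [e1, e2]
    rw [h7, ← h5, ← h6]
    field_simp
  · obtain ⟨b₁, l₁, c₁, hs₁, h₁⟩ := hghp S hT hD nc ψ hψ ω hω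
    obtain ⟨b₂, l₂, c₂, hs₂, h₂⟩ := quad
      (fun x => b₁ x x + l₁ x + c₁ + (P (x + ω) - P x)) fun x y z => by
        simp only [P, cub, map_add, map_zero, AddMonoidHom.add_apply, AddMonoidHom.zero_apply,
          hs₁ y x, hs₁ z x, hs₁ z y, hs y x, hs z x, hs z y, hs ω x, hs ω y, hs ω z]
        ring
    refine ⟨b₂, l₂, c₂, hs₂, fun x => ?_⟩
    have e1 : S.p + S.q - (x + ω) = S.p + S.q - x + -ω := by abel
    simp only [e1]
    rw [hD.per ω hω, hD.per _ (S.Ω.neg_mem hω), h₁, ← h₂, Complex.exp_add (_ + c₁),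
      Complex.exp_sub]
    have := Complex.exp_ne_zero (P x)
    field_simp
  · have e : ∀ j : ℤ, P (x + j • y) =
        -((φ x - 1 / 2 + j * φ y) * (b x x - b x S.q + b S.q S.q / 4 +
            j * (2 * b x y - b y S.q) + j ^ 2 * b y y) -
          (φ x - 1 / 2 + j * φ y) ^ 2 * (b x S.q - b S.q S.q / 2 + j * b y S.q) +
          (φ x - 1 / 2 + j * φ y) ^ 3 * b S.q S.q / 3) +
        (b S.q S.q / 12 - c) * (φ x - 1 / 2 + j * φ y) + k := fun j => by
      simp only [P, cub, map_add, map_zsmul, AddMonoidHom.add_apply, AddMonoidHom.zsmul_apply,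
        zsmul_eq_mul, hs y x]
      ring
    simp only [e]
    exact poly _ _ _ _ _ _ _ _ _ _
  · simp only [hψ.one x hx, Setup.Gam]
    ring

end

end Pool.Agent.P.MP_29cb78_nt.E
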