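import Pool.Agent.P.MP_29cb78_nt.E.Ghq

/-! The multipliers of the correcting factor. -/

namespace Pool.Agent.P.MP_29cb78_nt.E

open Ghq

namespace Ghp

variable {S : Setup}

/-- Quadratic functions. -/
def QF (f : S.A → ℂ) : Prop := ∃ (b : S.A →+ S.A →+ ℂ) (l : S.A →+ ℂ) (c : ℂ),
  (∀ x y, b x y = b y x) ∧ ∀ x, f x = b x x + l x + c

lemma QF.add {f g : S.A → ℂ} (h : QF f) (k : QF g) : QF fun x => f x + g x := by
  obtain ⟨b, l, c, h1, h2⟩ := h
  obtain ⟨b', l', c', k1, k2⟩ := k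
  refine ⟨b + b', l + l', c + c', fun x y => ?_, fun x => ?_⟩
  · simp only [AddMonoidHom.add_apply, h1 x, k1 x]
  · simp only [AddMonoidHom.add_apply, h2, k2]; ring

lemma QF.smul {f : S.A → ℂ} (h : QF f) (k : ℂ) : QF fun x => k * f x := by
  obtain ⟨b, l, c, h1, h2⟩ := h
  refine ⟨k • b, k • l, k * c, fun x y => ?_, fun x => ?_⟩
  · simp only [AddMonoidHom.smul_apply, h1 x]
  · simp only [AddMonoidHom.smul_apply, h2, smul_eq_mul]; ring

lemma QF.shift {f : S.A → ℂ} (h : QF f) (y : S.A) : QF fun x => f (x + y) := by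
  obtain ⟨b, l, c, h1, h2⟩ := h
  refine ⟨b, l + b y + b y, b y y + l y + c, h1, fun x => ?_⟩
  simp only [AddMonoidHom.add_apply, h2, map_add, h1 x y]
  ring

lemma QF.mul (l l' : S.A →+ ℂ) (a a' : ℂ) : QF fun x => (l x + a) * (l' x + a') := by
  have sy : ∀ x y, (l x * l' y + l y * l' x) / 2 = (l y * l' x + l x * l' y) / 2 :=
    fun x y => by ring
  refine ⟨bil (fun x y => (l x * l' y + l y * l' x) / 2) (fun x y z => by
    simp only [map_add]; ring) sy, a' • l + a • l', a * a', sy, fun x => ?_⟩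
  simp only [bil, AddMonoidHom.mk'_apply, AddMonoidHom.add_apply, AddMonoidHom.smul_apply,
    smul_eq_mul]
  ring

lemma QF.form {B : ℂ →+ ℂ →+ ℂ} (hB : ∀ x y, B x y = B y x) (l : S.A →+ ℂ) :
    QF fun x => B (l x) (l x) :=
  ⟨bil (fun x y => B (l x) (l y)) (fun x y z => by simp only [map_add]) fun _ _ => hB _ _, 0, 0,
    fun _ _ => hB _ _, fun x => by simp [bil]⟩

end Ghp

open Ghp in
theorem ghp_thm (hthq : S_THQ) (hrho : S_RHO) : S_GHP := by
  intro S T D nc ψ P ω hω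
  obtain ⟨g, q1, q2⟩ := hthq S T
  obtain ⟨B, B1, B2⟩ := T.quad
  have rho := hrho S T D nc ψ P B B2
  have nψ := ne P.expq
  have nq := ne q1
  have cψ := ct P.expq
  have cq := ct q1
  have u1 : ∀ {x}, Gnr S x → S.θw S.q x ≠ 0 := fun h =>
    right_ne_zero_of_mul (q2 _ ▸ mt (T.zero_iff _).1 h.1)
  have a1 : ∀ x, ψ (x + S.p) = g x * ψ x := ext T (cψ.add _) (cq.mul cψ) fun x h => by
    refine mul_right_cancel₀ (u1 h) ?_
    rw [P.shp, q2]
    ring
  obtain ⟨m, hm, o, o0, o1, rfl⟩ : ∃ m ∈ S.M, ∃ o ∈ S.Ω, S.x₁ o = 0 ∧ ω = o + S.pt m 0 := by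
    obtain ⟨h0, h1, -⟩ := S.pt_mem_Ω hω.1 S.M.zero_mem
    exact ⟨_, hω.1, _, S.Ω.sub_mem hω h0, by rw [map_sub, h1, sub_self], (sub_add_cancel _ _).symm⟩
  have a2 : ∀ x, g (x + o) = g x := ext T (cq.add _) cq fun x h => by
    have e := q2 (x + o)
    rw [map_add, o1, add_zero, D.θper _ o0, q2] at e
    exact (mul_right_cancel₀ (u1 h) e).symm
  have a3 : Function.Periodic (fun x => ψ (x + o) / ψ x) S.p := fun x => by
    simp only [add_right_comm x S.p, a1, a2]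
    exact mul_div_mul_left _ _ (nq x)
  obtain ⟨a, a', a'', e1⟩ := P.expq o
  obtain ⟨b, b', b'', e2⟩ := P.expq 0
  simp only [zero_add] at e2
  let ν : S.A →+ ℂ := (Int.castAddHom ℂ).comp S.n
  obtain ⟨β, l, c, h1, h2⟩ := (((QF.mul ν (S.η m • S.x₁) (-nc) (B m m)).add
    ((QF.mul ν ν (-nc) (1 - nc)).smul (-(S.η m * S.lam / 2)))).shift o).add
    (((QF.mul (S.η.comp (mx S)) ((ν o * S.ε) • S.x₂) 0
      (S.lam * (ν o * nc - (ν o ^ 2 + ν o) / 2))).add ((QF.form B1 (mx S)).smul (ν o))).add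
      ((QF.mul S.x₂ ((a'' - b'') • S.x₂) 0 (a' - b')).add (QF.mul 0 0 1 (a - b))))
  refine ⟨β, l, c, h1, fun x => ?_⟩
  obtain ⟨k, hk, hx⟩ := S.exists_p x
  have em : mx S x = k := by
    have := congrArg S.x₁ hx
    simp only [map_add, map_zsmul, (S.pt_mem_Ω hk S.M.zero_mem).2.1, Setup.x₁_ι, Setup.x₁_p,
      zsmul_eq_mul] at this
    rw [mx_def, this]
    ring
  have a4 := a3.zsmul (S.n x) (S.ι (S.x₂ x))
  have a5 := rho k hk (S.ι (S.x₂ x) + S.n x • S.p)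
  have a6 := rho k hk (S.ι (S.x₂ x) + S.n x • S.p + o)
  simp only [add_comm (S.ι _) o, e1, e2, ← Complex.exp_sub] at a4
  rw [add_right_comm, ← hx, (div_eq_iff (nψ _)).1 a4, ← mul_assoc, ← Complex.exp_add] at a6
  rw [← hx, ← inv_mul_eq_iff_eq_mul₀ (Complex.exp_ne_zero _), ← Complex.exp_neg] at a5
  rw [← add_assoc, rho m hm, a6, ← a5, ← h2, ← mul_assoc, ← mul_assoc, ← Complex.exp_add,
    ← Complex.exp_add]
  congr 2
  simp only [ν, em, o1, map_add, map_zsmul, AddMonoidHom.comp_apply, AddMonoidHom.smul_apply,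
    Int.coe_castAddHom, Setup.x₁_ι, Setup.x₁_p, Setup.n_ι, Setup.n_p, smul_eq_mul, zsmul_eq_mul,
    AddMonoidHom.zero_apply]
  push_cast
  ring

end Pool.Agent.P.MP_29cb78_nt.E
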