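import Pool.Agent.P.MP_29cb78_nt.E.Basic

/-!
Periodicity in the parameters.
-/

namespace Pool.Agent.P.MP_29cb78_nt.E

open scoped Classical

noncomputable section

namespace Gper

lemma sum_split {M : Type} [AddCommMonoid M] {a b : Fin 6} (hab : a ≠ b) (f : Fin 6 → M) :
    ∑ j, f j = f a + f b + ∑ j ∈ Finset.univ \ {a, b}, f j := by
  rw [← Finset.sum_sdiff (Finset.subset_univ {a, b}), Finset.sum_pair hab, add_comm]

end Gper

open Gper

theorem gper_thm (hqd : S_QD) : S_GPER := by
  intro S hT G hG t a b hab hs ω hω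
  obtain ⟨Q, hQ⟩ := hqd S hT G hG ω hω
  obtain ⟨B, l, c, hb, hf⟩ := hQ.form
  set t' : Fin 6 → S.A := t + Pi.single a ω - Pi.single b ω with ht'
  have ea : t' a = t a + ω := by simp [ht', hab]
  have eb : t' b = t b - ω := by simp [ht', hab.symm]
  have ej : ∀ j, j ≠ a → j ≠ b → t' j = t j := fun j h1 h2 => by simp [ht', h1, h2]
  set u := t b - ω with hu
  have pa : ∀ x, G (t a + ω + x) = Complex.exp (Q (t a + x)) * G (t a + x) := fun x => by
    rw [add_right_comm, hQ.per]
  have pb : ∀ x, G (u + x) = Complex.exp (-Q (u + x)) * G (t b + x) := fun x => by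
    rw [show t b + x = u + x + ω by rw [hu]; abel, hQ.per, ← mul_assoc, ← Complex.exp_add]
    simp
  refine ⟨Complex.exp (2 * B (t a) (t a) - 2 * B u u + 2 * l (t a) - 2 * l u),
    Complex.exp_ne_zero _, fun y => ?_, ?_⟩
  · have h : ∀ f : Fin 6 → ℂ, ∏ j, f j = f a * f b * ∏ j ∈ Finset.univ \ {a, b}, f j := fun f => by
      rw [← Finset.prod_sdiff (Finset.subset_univ {a, b}), Finset.prod_pair hab, mul_comm]
    rw [Setup.WW, Setup.WW, h, h fun j => G (t j + y) * G (t j - y), ea, eb,
      Finset.prod_congr rfl (g := fun j => G (t j + y) * G (t j - y)) fun j hj => by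
        simp only [Finset.mem_sdiff, Finset.mem_insert, Finset.mem_singleton, not_or] at hj
        rw [ej j hj.2.1 hj.2.2]]
    simp only [sub_eq_add_neg _ y, pa, pb]
    have : 2 * B (t a) (t a) - 2 * B u u + 2 * l (t a) - 2 * l u =
        Q (t a + y) + Q (t a + -y) + -Q (u + y) + -Q (u + -y) := by
      simp only [hf, map_add, map_neg, AddMonoidHom.add_apply, AddMonoidHom.neg_apply]
      ring
    rw [this]
    simp only [Complex.exp_add]
    ring
  · set g : Fin 6 → Fin 6 → ℂ := fun j k =>
      if k = a ∧ j ≠ b then Q (t a + t j) else if k = b ∧ j ≠ a then -Q (u + t j) else 0 with hg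
    have h1 : ∀ j k, j ≠ k → G (t' j + t' k) = Complex.exp (g k j + g j k) * G (t j + t k) := by
      have aux : ∀ k, k ≠ a → G (t' a + t' k) = Complex.exp (g k a + g a k) * G (t a + t k) := by
        intro k hk
        by_cases hkb : k = b
        · subst hkb
          rw [ea, eb]
          simp only [hg, hab, hab.symm, ne_eq, not_true_eq_false, and_false, false_and, if_false,
            add_zero, Complex.exp_zero, one_mul, hu]
          congr 1
          abel
        · rw [ea, ej k hk hkb, pa]
          simp [hg, hk, hkb]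
      have aux2 : ∀ k, k ≠ a → k ≠ b →
          G (t' b + t' k) = Complex.exp (g k b + g b k) * G (t b + t k) := by
        intro k hk hkb
        rw [eb, ej k hk hkb, pb]
        simp [hg, hk, hkb, hab.symm]
      intro j k hjk
      by_cases hja : j = a
      · subst hja; exact aux k hjk.symm
      by_cases hka : k = a
      · subst hka; rw [add_comm, aux j hja, add_comm (g j k), add_comm (t k)]
      by_cases hjb : j = b
      · subst hjb; exact aux2 k hka hjk.symm
      by_cases hkb : k = b
      · subst hkb; rw [add_comm, aux2 j hja hjb, add_comm (g j k), add_comm (t k)]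
      rw [ej j hja hjb, ej k hka hkb]
      simp [hg, hja, hka, hjb, hkb]
    have h2 : S.PG G t' = Complex.exp (∑ j, ∑ k ∈ Finset.Ioi j, (g k j + g j k)) * S.PG G t := by
      rw [Setup.PG, Setup.PG, Complex.exp_sum, ← Finset.prod_mul_distrib]
      refine Finset.prod_congr rfl fun j _ => ?_
      rw [Complex.exp_sum, ← Finset.prod_mul_distrib]
      exact Finset.prod_congr rfl fun k hk => h1 j k (Finset.mem_Ioi.1 hk).ne
    rw [h2, Finset.sum_sum_Ioi_add_eq_sum_sum_off_diag]
    congr 1
    have ca : ∑ k ∈ ({a} : Finset (Fin 6))ᶜ, g k a = ∑ k ∈ Finset.univ \ {a, b}, Q (t a + t k) := by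
      rw [← Finset.sum_subset (s₁ := Finset.univ \ {a, b}) (fun k hk => by simp at hk ⊢; tauto)
        (fun k h1 h2 => by
          have : k = b := by simp at h1 h2; tauto
          simp [hg, this, hab])]
      exact Finset.sum_congr rfl fun k hk => by
        simp only [Finset.mem_sdiff, Finset.mem_insert, Finset.mem_singleton, not_or] at hk
        simp [hg, hk.2.2]
    have cb : ∑ k ∈ ({b} : Finset (Fin 6))ᶜ, g k b =
        ∑ k ∈ Finset.univ \ {a, b}, -Q (u + t k) := by
      rw [← Finset.sum_subset (s₁ := Finset.univ \ {a, b}) (fun k hk => by simp at hk ⊢; tauto)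
        (fun k h1 h2 => by
          have : k = a := by simp at h1 h2; tauto
          simp [hg, this, hab.symm])]
      exact Finset.sum_congr rfl fun k hk => by
        simp only [Finset.mem_sdiff, Finset.mem_insert, Finset.mem_singleton, not_or] at hk
        simp [hg, hk.2.1, hab.symm]
    have cc : ∑ j ∈ Finset.univ \ {a, b}, ∑ k ∈ ({j} : Finset (Fin 6))ᶜ, g k j = 0 :=
      Finset.sum_eq_zero fun j hj => Finset.sum_eq_zero fun k _ => by
        simp only [Finset.mem_sdiff, Finset.mem_insert, Finset.mem_singleton, not_or] at hj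
        simp [hg, hj.2.1, hj.2.2]
    rw [sum_split hab, ca, cb, cc, add_zero, ← Finset.sum_add_distrib]
    have hr : ∑ k ∈ Finset.univ \ {a, b}, t k = S.p + S.q - ω - t a - u := by
      rw [← hs, sum_split hab, hu]; abel
    have hcard : (Finset.univ \ {a, b} : Finset (Fin 6)).card = 4 := by
      rw [Finset.card_sdiff_of_subset (Finset.subset_univ _), Finset.card_pair hab]; rfl
    have e1 : ∀ k, Q (t a + t k) + -Q (u + t k) = (Q (t a) - Q u) + 2 * B (t a - u) (t k) := by
      intro k
      simp only [hf, map_add, map_sub, AddMonoidHom.add_apply, AddMonoidHom.sub_apply,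
        hb (t k) (t a), hb (t k) u]
      ring
    simp only [e1, Finset.sum_add_distrib, ← Finset.mul_sum, ← map_sum, hr, Finset.sum_const, hcard]
    have s1 := hQ.sym (t a)
    have s2 := hQ.sym u
    set R := S.p + S.q - ω
    have e2 : 4 • (Q (t a) - Q u) + 2 * B (t a - u) (R - t a - u) =
        2 * B (t a) (t a) - 2 * B u u + 2 * l (t a) - 2 * l u +
          (Q (t a) + Q (R - u) - (Q u + Q (R - t a))) := by
      simp only [hf, map_sub, AddMonoidHom.sub_apply, hb (t a) R, hb u R, hb (t a) u, nsmul_eq_mul]
      push_cast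
      ring
    rw [e2, Complex.exp_add, Complex.exp_sub (Q _ + _), Complex.exp_add (Q _), Complex.exp_add (Q _),
      s1, s2, show S.χ ω * Complex.exp (Q (R - t a)) * Complex.exp (Q (R - u)) =
        S.χ ω * Complex.exp (Q (R - u)) * Complex.exp (Q (R - t a)) by ring, div_self, mul_one]
    rw [← s2]
    exact mul_ne_zero (Complex.exp_ne_zero _) (Complex.exp_ne_zero _)

end

end Pool.Agent.P.MP_29cb78_nt.E
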