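import Pool.Agent.P.MP_29cb78_nt.E.Basic

/-!
The two finite groups.
-/

namespace Pool.Agent.P.MP_29cb78_nt.E

open scoped Classical

namespace Grp

variable (S : Setup)

lemma mk_mem {e : ℂ} (he : ∀ z ∈ S.L, e * z ∈ S.L) (z : ℂ) :
    (z : ℂ ⧸ S.L) ∈ S.Kr e ↔ e * z ∈ S.L := by
  refine ⟨?_, fun h => ⟨z, h, rfl⟩⟩
  rintro ⟨y, hy, h⟩
  have := S.L.add_mem (show e * y ∈ S.L from hy) (he _ (QuotientAddGroup.eq.1 h))
  rwa [show e * y + e * (-y + z) = e * z by ring] at this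

lemma mk_p (z : ℂ) : (z : ℂ ⧸ S.L) ∈ S.Gp ↔ (S.ε - 1) * z ∈ S.L :=
  mk_mem S (fun z hz => by rw [sub_one_mul]; exact S.L.sub_mem (S.mul_mem hz) hz) z

lemma mk_m (z : ℂ) : (z : ℂ ⧸ S.L) ∈ S.Gm ↔ (S.ε + 1) * z ∈ S.L :=
  mk_mem S (fun z hz => by rw [add_one_mul]; exact S.L.add_mem (S.mul_mem hz) hz) z

lemma two (z : ℂ) : 2 • (z : ℂ ⧸ S.L) = 0 ↔ 2 * z ∈ S.L := by
  rw [← QuotientAddGroup.mk_nsmul, QuotientAddGroup.eq_zero_iff, nsmul_eq_mul, Nat.cast_ofNat]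

lemma fin : {g : ℂ ⧸ S.L | g ∈ S.Gp ∨ g ∈ S.Gm}.Finite := by
  have hN : (0 : ℤ) < S.N := by exact_mod_cast Nat.pos_of_ne_zero S.N_ne
  have hN' : (S.N : ℂ) ≠ 0 := by exact_mod_cast S.N_ne
  refine (((Set.finite_Ico (0 : ℤ) S.N).prod ((Set.finite_Ico (0 : ℤ) S.N).prod
    (Set.finite_Ico (0 : ℤ) S.N))).image fun c : ℤ × ℤ × ℤ =>
      (((c.1 * S.lam + c.2.1 * S.γ + c.2.2 * S.β) / S.N : ℂ) : ℂ ⧸ S.L)).subset fun g hg => ?_
  obtain ⟨z, rfl⟩ := QuotientAddGroup.mk_surjective g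
  have h : (S.ε ^ 2 - 1) * z ∈ S.L := by
    rcases hg with h | h
    · have h := (mk_p S z).1 h
      have := S.L.add_mem (S.mul_mem h) h
      rwa [show S.ε * ((S.ε - 1) * z) + (S.ε - 1) * z = (S.ε ^ 2 - 1) * z by ring] at this
    · have h := (mk_m S z).1 h
      have := S.L.sub_mem (S.mul_mem h) h
      rwa [show S.ε * ((S.ε + 1) * z) - (S.ε + 1) * z = (S.ε ^ 2 - 1) * z by ring] at this
  obtain ⟨i, j, k, e⟩ := (S.mem_L _).1 (S.N_mul z h)
  have m : ∀ i : ℤ, i % S.N ∈ Set.Ico (0 : ℤ) S.N := fun i =>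
    ⟨Int.emod_nonneg _ hN.ne', Int.emod_lt_of_pos _ hN⟩
  have d : ∀ i : ℤ, (i : ℂ) = S.N * (i / S.N : ℤ) + (i % S.N : ℤ) := fun i => by
    exact_mod_cast (Int.mul_ediv_add_emod i S.N).symm
  refine ⟨(i % S.N, j % S.N, k % S.N), ⟨m i, m j, m k⟩,
    QuotientAddGroup.eq.2 ((S.mem_L _).2 ⟨i / S.N, j / S.N, k / S.N, ?_⟩)⟩
  rw [d i, d j, d k] at e
  field_simp
  linear_combination e

lemma indep {i j k : ℤ} (h : i * S.lam + j * S.γ + k * S.β = 0) : i = 0 ∧ j = 0 ∧ k = 0 := by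
  have hi : i = 0 := by
    have := S.a_comb i j k
    rw [h, map_zero] at this
    exact_mod_cast this.symm
  have hγ := S.γ_ne
  have e : (j : ℂ) + k * (S.β / S.γ) = 0 := by
    rw [hi] at h
    field_simp
    linear_combination h
  have hk : k = 0 := by
    have := congrArg Complex.im e
    simpa [S.βγ_pos.ne'] using this
  refine ⟨hi, ?_, hk⟩
  simpa [hk] using e

lemma three (s w : ℂ ⧸ S.L) : ∃ u ∈ S.Gp, 3 • u = 0 ∧ u ∉ AddSubgroup.closure {s, w} := by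
  have k : ∀ z ∈ S.L, ((z / 3 : ℂ) : ℂ ⧸ S.L) ∈ S.Gp ∧ 3 • ((z / 3 : ℂ) : ℂ ⧸ S.L) = 0 := by
    intro z hz
    refine ⟨(mk_p S _).2 ?_, ?_⟩
    · have := S.L.add_mem (S.six z hz) (S.six z hz)
      rwa [show (S.ε - 1) * z / 6 + (S.ε - 1) * z / 6 = (S.ε - 1) * (z / 3) by ring] at this
    · rw [← QuotientAddGroup.mk_nsmul, QuotientAddGroup.eq_zero_iff, nsmul_eq_mul, Nat.cast_ofNat,
        mul_div_cancel₀ _ three_ne_zero]
      exact hz
  by_contra hc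
  push Not at hc
  obtain ⟨a0, b0, e0⟩ := AddSubgroup.mem_closure_pair.1 (hc _ (k _ S.lam_mem).1 (k _ S.lam_mem).2)
  obtain ⟨a1, b1, e1⟩ := AddSubgroup.mem_closure_pair.1 (hc _ (k _ S.γ_memL).1 (k _ S.γ_memL).2)
  obtain ⟨a2, b2, e2⟩ := AddSubgroup.mem_closure_pair.1 (hc _ (k _ S.β_memL).1 (k _ S.β_memL).2)
  have dv : ∀ (n : ℕ) (c0 c1 c2 : ℤ), c0 * a0 + c1 * a1 + c2 * a2 = 0 →
      c0 * b0 + c1 * b1 + c2 * b2 = 0 → 3 ^ n ∣ c0 ∧ 3 ^ n ∣ c1 ∧ 3 ^ n ∣ c2 := by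
    intro n
    induction n with
    | zero => simp
    | succ n ih =>
      intro c0 c1 c2 h1 h2
      have z : c0 • ((S.lam / 3 : ℂ) : ℂ ⧸ S.L) + c1 • ((S.γ / 3 : ℂ) : ℂ ⧸ S.L) +
          c2 • ((S.β / 3 : ℂ) : ℂ ⧸ S.L) = 0 := by
        rw [← e0, ← e1, ← e2]
        calc _ = (c0 * a0 + c1 * a1 + c2 * a2) • s + (c0 * b0 + c1 * b1 + c2 * b2) • w := by module
          _ = 0 := by simp [h1, h2]
      simp only [← QuotientAddGroup.mk_zsmul, ← QuotientAddGroup.mk_add,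
        QuotientAddGroup.eq_zero_iff, zsmul_eq_mul] at z
      obtain ⟨i, j, l, e⟩ := (S.mem_L _).1 z
      obtain ⟨f0, f1, f2⟩ := indep S (i := c0 - 3 * i) (j := c1 - 3 * j) (k := c2 - 3 * l)
        (by push_cast; linear_combination 3 * e)
      obtain rfl := sub_eq_zero.1 f0
      obtain rfl := sub_eq_zero.1 f1
      obtain rfl := sub_eq_zero.1 f2
      obtain ⟨g0, g1, g2⟩ := ih i j l (by linarith) (by linarith)
      simp only [pow_succ']
      exact ⟨mul_dvd_mul_left _ g0, mul_dvd_mul_left _ g1, mul_dvd_mul_left _ g2⟩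
  have z : ∀ c : ℤ, (∀ n : ℕ, 3 ^ n ∣ c) → c = 0 := fun c h =>
    Int.eq_zero_of_abs_lt_dvd (h c.natAbs) (by
      rw [Int.abs_eq_natAbs]; exact_mod_cast Nat.lt_pow_self (by norm_num))
  have li : LinearIndependent ℤ ![(a0, b0), (a1, b1), (a2, b2)] := by
    rw [Fintype.linearIndependent_iff]
    intro c h i
    simp only [Fin.sum_univ_three, Matrix.cons_val_zero, Matrix.cons_val_one, Matrix.cons_val,
      Prod.smul_mk, smul_eq_mul, Prod.mk_add_mk, Prod.mk_eq_zero] at h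
    fin_cases i
    · exact z _ fun n => (dv n _ _ _ h.1 h.2).1
    · exact z _ fun n => (dv n _ _ _ h.1 h.2).2.1
    · exact z _ fun n => (dv n _ _ _ h.1 h.2).2.2
  simpa using li.fintype_card_le_finrank

lemma ineq (n : ℕ) : 1 + S.ε⁻¹ ^ 2 ≠ n * (1 / (S.ε + 1)) ^ 2 := by
  intro h
  have h0 := S.ε_ne
  have h1 := S.ε_add_ne
  have e : (S.ε + S.ε⁻¹ + 1) ^ 2 = ((√(n + 1) : ℝ) : ℂ) ^ 2 := by
    rw [← Complex.ofReal_pow, Real.sq_sqrt (by positivity)]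
    push_cast
    field_simp at h ⊢
    linear_combination h
  have im : (S.ε + S.ε⁻¹ + 1).im = 0 := by
    rcases sq_eq_sq_iff_eq_or_eq_neg.1 e with k | k <;> rw [k] <;> simp
  have p : 0 < Complex.normSq S.ε := Complex.normSq_pos.2 h0
  have q : Complex.normSq S.ε < 1 := by
    rw [Complex.normSq_eq_norm_sq]
    exact pow_lt_one₀ (norm_nonneg _) S.ε_norm two_ne_zero
  simp only [Complex.add_im, Complex.inv_im, Complex.one_im, add_zero] at im
  field_simp at im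
  rw [mul_zero] at im
  rcases mul_eq_zero.1 im with k | k
  · exact S.ε_im k
  · linarith

end Grp

open Grp in
theorem grp_thm : S_GRP := by
  intro S
  have t1 : ∀ g ∈ S.Gp, g ∈ S.Gm ↔ 2 • g = 0 := fun g hg => by
    obtain ⟨z, rfl⟩ := QuotientAddGroup.mk_surjective g
    rw [mk_m, two, show (S.ε + 1) * z = (S.ε - 1) * z + 2 * z by ring]
    exact S.L.add_mem_cancel_left ((mk_p S z).1 hg)
  have t2 : ∀ g ∈ S.Gm, g ∈ S.Gp ↔ 2 • g = 0 := fun g hg => by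
    obtain ⟨z, rfl⟩ := QuotientAddGroup.mk_surjective g
    rw [mk_p, two, show (S.ε - 1) * z = (S.ε + 1) * z + -(2 * z) by ring,
      S.L.add_mem_cancel_left ((mk_m S z).1 hg), neg_mem_iff]
  refine ⟨?_, fun g hg => ?_, fun g hg hg' => ?_, fun x hx => (mk_p S _).2 ?_,
    fun x hx => (mk_m S _).2 ?_, t1, t2, three S⟩
  · have fp : (S.Gp : Set (ℂ ⧸ S.L)).Finite := (fin S).subset fun _ => Or.inl
    have fm : (S.Gm : Set (ℂ ⧸ S.L)).Finite := (fin S).subset fun _ => Or.inr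
    have h0 := S.ε_ne
    have h1 := S.ε_add_ne
    have h2 := S.ε_sub_ne
    refine ⟨fp.toFinset, fm.toFinset, (fin S).toFinset, fun g => by simp, fun hc =>
      ⟨⟨by simp, by simp, by simp, t1, t2, fun _ => rfl, by field_simp, by field_simp,
        inv_ne_zero h0, ?_⟩, ineq S _⟩⟩
    rw [← Set.ncard_eq_toFinset_card _ fp, ← Set.ncard_eq_toFinset_card _ fm, mul_one_div,
      mul_one_div, ← div_eq_mul_inv]
    exact hc
  · have h : g.out - S.ε * g.out ∈ S.L := by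
      have := S.L.neg_mem ((mk_p S g.out).1 (by rwa [QuotientAddGroup.out_eq']))
      rwa [show -((S.ε - 1) * g.out) = g.out - S.ε * g.out by ring] at this
    rw [Setup.rep, if_pos hg]
    exact ⟨(S.x₁_pt h).trans (S.x₂_pt h).symm,
      (congrArg QuotientAddGroup.mk (S.x₁_pt h)).trans g.out_eq'⟩
  · have h : g.out - S.ε * -g.out ∈ S.L := by
      have := (mk_m S g.out).1 (by rwa [QuotientAddGroup.out_eq'])
      rwa [show (S.ε + 1) * g.out = g.out - S.ε * -g.out by ring] at this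
    rw [Setup.rep, if_neg hg']
    refine ⟨by rw [Setup.Anti, S.x₁_pt h, S.x₂_pt h, neg_neg],
      (congrArg QuotientAddGroup.mk (S.x₁_pt h)).trans g.out_eq', fun k => hg' ((t2 g hg).2 ?_)⟩
    rwa [S.x₁_pt h, ← two, QuotientAddGroup.out_eq'] at k
  · have := S.L.neg_mem (S.diff_mem x)
    rwa [← hx, show -(S.x₁ x - S.ε * S.x₁ x) = (S.ε - 1) * S.x₁ x by ring] at this
  · have := S.diff_mem x
    rwa [show S.x₁ x - S.ε * S.x₂ x = (S.ε + 1) * S.x₁ x by rw [hx]; ring] at this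

end Pool.Agent.P.MP_29cb78_nt.E
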