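import Pool.Agent.P.MP_29cb78_nt.E.Basic

/-! Reflection for an edge. -/

namespace Pool.Agent.P.MP_29cb78_nt.E

open Filter Topology
open scoped Classical Real

namespace Kref

variable (S : Setup)

lemma chi (s x y : S.A) :
    S.χ (s + x + y) * S.χ (s + x - y) * S.χ (s - x + y) * S.χ (s - x - y) = 1 := by
  rw [← S.χ_add, ← S.χ_add, ← S.χ_add,
    show s + x + y + (s + x - y) + (s - x + y) + (s - x - y) = (s + s) + (s + s) by abel,
    S.χ_add, S.χ_sq]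

lemma split (F : S.A → ℂ) (s x y : S.A) : S.KK F s x y * S.KK F (-s) x y =
    F (s + x + y) * F (-(s + x + y)) * (F (s + x - y) * F (-(s + x - y))) *
      (F (s - x + y) * F (-(s - x + y))) * (F (s - x - y) * F (-(s - x - y))) := by
  rw [Setup.KK, Setup.KK, show -s + x + y = -(s - x - y) by abel,
    show -s + x - y = -(s - x + y) by abel, show -s - x + y = -(s + x - y) by abel,
    show -s - x - y = -(s + x + y) by abel]
  ring

lemma nz (s x y : S.A) : S.ε⁻¹ ^ Nz (S.cls s) (S.cls x) (S.cls y) =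
    (if S.Lat (s + x + y) then S.ε⁻¹ else 1) * (if S.Lat (s + x - y) then S.ε⁻¹ else 1) *
      (if S.Lat (s - x + y) then S.ε⁻¹ else 1) * (if S.Lat (s - x - y) then S.ε⁻¹ else 1) := by
  simp only [Nz, pow_add, ← map_add, ← map_sub, S.cls_eq_zero, pow_ite, pow_one, pow_zero]

lemma free {S : Setup} (hT : S.TH) {G : S.A → ℂ} (hF : S.FB G) {s x y : S.A}
    (h1 : ¬ S.Lat (s + x + y)) (h2 : ¬ S.Lat (s + x - y)) (h3 : ¬ S.Lat (s - x + y))
    (h4 : ¬ S.Lat (s - x - y))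
    (h : S.ϑ (S.x₁ (s + x + y)) * S.ϑ (S.x₁ (s + x - y)) * S.ϑ (S.x₁ (s - x + y)) *
      S.ϑ (S.x₁ (s - x - y)) = S.ϑ (S.x₂ (s + x + y)) * S.ϑ (S.x₂ (s + x - y)) *
      S.ϑ (S.x₂ (s - x + y)) * S.ϑ (S.x₂ (s - x - y))) :
    S.KK (S.fb G) s x y * S.KK (S.fb G) (-s) x y = S.ε⁻¹ ^ Nz (S.cls s) (S.cls x) (S.cls y) := by
  have ne : ∀ {u}, ¬ S.Lat u → S.ϑ (S.x₂ u) ≠ 0 := fun hu h0 =>
    hu (S.lat_iff.2 ((hT.zero_iff _).1 h0).1)
  rw [nz, split, if_neg h1, if_neg h2, if_neg h3, if_neg h4, eq_div_of_mul_eq (ne h1) (hF.refl _ h1),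
    eq_div_of_mul_eq (ne h2) (hF.refl _ h2), eq_div_of_mul_eq (ne h3) (hF.refl _ h3),
    eq_div_of_mul_eq (ne h4) (hF.refl _ h4), div_mul_div_comm, div_mul_div_comm, div_mul_div_comm,
    div_eq_iff (mul_ne_zero (mul_ne_zero (mul_ne_zero (ne h1) (ne h2)) (ne h3)) (ne h4)), ← h]
  linear_combination (S.ϑ (S.x₁ (s + x + y)) * S.ϑ (S.x₁ (s + x - y)) * S.ϑ (S.x₁ (s - x + y)) *
      S.ϑ (S.x₁ (s - x - y))) * chi S s x y

lemma nsub {S : Setup} {u : S.A} {z : ℂ} (hz : z ∉ S.L)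
    (h : S.x₁ u - S.x₂ u = z ∨ S.x₂ u - S.x₁ u = z ∨ S.x₁ u + S.x₂ u = z) : ¬ S.Lat u := by
  intro hu
  have h2 := S.lat_iff.1 hu
  rcases h with rfl | rfl | rfl
  exacts [hz (S.L.sub_mem hu h2), hz (S.L.sub_mem h2 hu), hz (S.L.add_mem hu h2)]

end Kref

open Kref in
theorem kref_thm : S_KREF := by
  intro S hT G hF s x y hs hs2 hx hy
  replace hs : S.x₁ s = S.x₂ s := hs
  rcases hx with hx | ⟨hx, hx2⟩ <;> rcases hy with hy | ⟨hy, hy2⟩
  · replace hx : S.x₁ x = S.x₂ x := hx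
    replace hy : S.x₁ y = S.x₂ y := hy
    rw [nz, split, hF.reflD _ (by simp [Setup.Diag, hs, hx, hy]),
      hF.reflD _ (by simp [Setup.Diag, hs, hx, hy]), hF.reflD _ (by simp [Setup.Diag, hs, hx, hy]),
      hF.reflD _ (by simp [Setup.Diag, hs, hx, hy])]
    linear_combination ((if S.Lat (s + x + y) then S.ε⁻¹ else 1) *
      (if S.Lat (s + x - y) then S.ε⁻¹ else 1) * (if S.Lat (s - x + y) then S.ε⁻¹ else 1) *
      (if S.Lat (s - x - y) then S.ε⁻¹ else 1)) * chi S s x y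
  · replace hx : S.x₁ x = S.x₂ x := hx
    replace hy : S.x₁ y = -S.x₂ y := hy
    refine free hT hF (nsub hy2 (Or.inl ?_)) (nsub hy2 (Or.inr (Or.inl ?_)))
      (nsub hy2 (Or.inl ?_)) (nsub hy2 (Or.inr (Or.inl ?_))) ?_
    all_goals simp only [map_add, map_sub, hs, hx, hy, sub_neg_eq_add, ← sub_eq_add_neg]
    all_goals ring
  · replace hx : S.x₁ x = -S.x₂ x := hx
    replace hy : S.x₁ y = S.x₂ y := hy
    refine free hT hF (nsub hx2 (Or.inl ?_)) (nsub hx2 (Or.inl ?_))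
      (nsub hx2 (Or.inr (Or.inl ?_))) (nsub hx2 (Or.inr (Or.inl ?_))) ?_
    all_goals simp only [map_add, map_sub, hs, hx, hy, sub_neg_eq_add, ← sub_eq_add_neg]
    all_goals ring
  · replace hx : S.x₁ x = -S.x₂ x := hx
    replace hy : S.x₁ y = -S.x₂ y := hy
    refine free hT hF (nsub hs2 (Or.inr (Or.inr ?_))) (nsub hs2 (Or.inr (Or.inr ?_)))
      (nsub hs2 (Or.inr (Or.inr ?_))) (nsub hs2 (Or.inr (Or.inr ?_))) ?_
    all_goals simp only [map_add, map_sub, hs, hx, hy, sub_neg_eq_add, ← sub_eq_add_neg]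
    all_goals ring

end Pool.Agent.P.MP_29cb78_nt.E
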