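import Pool.Agent.P.MP_29cb78_nt.E.Basic

/-!
The contour integral on the group.
-/

namespace Pool.Agent.P.MP_29cb78_nt.E

open Filter Topology
open scoped Classical Real

noncomputable section

namespace Lam

variable (S : Setup)

/-- The point of the component `j` with coordinate `u`. -/
def P (j : ℤ) (u : ℂ) : S.A := j • S.q + S.ι (S.γ / S.ε * (u - j * S.τq))

lemma c_ne : S.γ / S.ε ≠ 0 := div_ne_zero S.γ_ne S.ε_ne

lemma w_P (j : ℤ) (u : ℂ) : S.w (P S j u) = u := by
  have := S.γ_ne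
  have := S.ε_ne
  simp only [P, map_add, map_zsmul, S.w_q, S.w_ι, zsmul_eq_mul]
  field_simp
  ring

lemma ν_P (j : ℤ) (u : ℂ) : S.ν (P S j u) = j := by simp [P]

lemma h_P (j : ℤ) (u : ℂ) : S.h (P S j u) = u.im := by rw [S.h_def, w_P]

lemma P_add (j : ℤ) (u z : ℂ) : P S j (u + z) = P S j u + S.ι (S.γ / S.ε * z) := by
  rw [P, P, add_assoc, ← map_add]
  congr 2
  ring

lemma loc (f : S.A → ℂ) (j : ℤ) (x : ℂ) :
    (fun u => f (P S j u)) = S.sl f (P S j x) ∘ fun u => S.γ / S.ε * (u - x) := by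
  funext u
  rw [Function.comp_apply, Setup.sl, ← P_add, add_sub_cancel]

lemma tend (x : ℂ) : Tendsto (fun u => S.γ / S.ε * (u - x)) (𝓝[≠] x) (𝓝[≠] 0) := by
  refine tendsto_nhdsWithin_iff.2 ⟨?_, ?_⟩
  · have : Continuous fun u : ℂ => S.γ / S.ε * (u - x) := by fun_prop
    simpa using (this.tendsto x).mono_left nhdsWithin_le_nhds
  · filter_upwards [self_mem_nhdsWithin] with z hz
    exact mul_ne_zero (c_ne S) (sub_ne_zero.2 hz)

variable {S}

lemma ae {f g : S.A → ℂ} (e : S.AE f g) (j : ℤ) (x : ℂ) :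
    (fun u => f (P S j u)) =ᶠ[𝓝[≠] x] fun u => g (P S j u) := by
  rw [loc S f j x, loc S g j x]
  exact (tend S x).eventually (e _)

lemma tame {f : S.A → ℂ} {cl : S.A → Prop} (hf : S.Tame f cl) (j : ℤ) :
    Tame1 (fun u => f (P S j u)) fun u => cl (P S j u) where
  mer x := by
    rw [loc S f j x]
    exact MeromorphicAt.comp_analyticAt (by simpa using hf.mer (P S j x)) (by fun_prop)
  per x := by
    have := ae (hf.per _ S.ι_γ_mem) j x
    simpa only [P_add, mul_one] using this
  clper x := by rw [P_add, mul_one]; exact hf.clper _ S.ι_γ_mem _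
  bdd := by
    obtain ⟨R, hR⟩ := hf.bdd
    refine ⟨R, fun x hx => ?_⟩
    rw [← h_P S j x]
    refine hR _ fun ⟨c, hc⟩ => hx ⟨c, ?_⟩
    rw [loc S f j x]
    exact hc.comp (tend S x)

lemma term_shift {Λ : (ℂ → ℂ) → (ℂ → Prop) → ℂ} (hΛ : Lam1 Λ) {f : S.A → ℂ} {cl : S.A → Prop}
    (hf : S.Tame f cl) (y : S.A) {j j' : ℤ} (hd : (S.s : ℤ) ∣ j + S.ν y - j') :
    Λ (fun u => f (P S j u + y)) (fun u => cl (P S j u + y)) =
      Λ (fun u => f (P S j' u)) fun u => cl (P S j' u) := by
  have hω : P S j 0 + y - P S j' (S.w y) ∈ S.Ω :=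
    S.Ω_iff.2 ⟨⟨0, by simp [w_P]⟩, by simpa [ν_P] using hd⟩
  set ω := P S j 0 + y - P S j' (S.w y) with hω'
  have e : ∀ u, P S j u + y = P S j' (u + S.w y) + ω := fun u => by
    have h1 := P_add S j 0 u
    have h2 := P_add S j' (S.w y) u
    rw [zero_add] at h1
    rw [add_comm u, h1, h2, hω']
    abel
  have ht := hf.congr (hf.per ω hω).symm
  have h1 := hΛ.shift _ _ (S.w y) (tame ht j')
  have h2 := hΛ.congr _ _ _ (tame ht j') (ae (hf.per ω hω) j')
  rw [← h2, ← h1]
  simp only [e, hf.clper ω hω]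

lemma sum_per {V : ℤ → ℂ} {s : ℕ} (h : ∀ j, V (j + s) = V j) (k : ℤ) :
    ∑ j ∈ Finset.range s, V (j + k) = ∑ j ∈ Finset.range s, V j := by
  have step : ∀ k : ℤ, ∑ j ∈ Finset.range s, V (j + (k + 1)) =
      ∑ j ∈ Finset.range s, V (j + k) := fun k => by
    have h1 := Finset.sum_range_succ (fun j : ℕ => V (j + k)) s
    rw [Finset.sum_range_succ', add_comm (s : ℤ), h, Nat.cast_zero, zero_add] at h1
    rw [← add_right_cancel h1]
    refine Finset.sum_congr rfl fun j _ => ?_
    congr 1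
    push_cast
    ring
  induction k using Int.induction_on with
  | zero => simp
  | succ k ih => rw [step, ih]
  | pred k ih => rw [← step, sub_add_cancel, ih]

end Lam

open Lam in
theorem lam_thm (hlam1 : S_LAM1) : S_LAM := by
  obtain ⟨Λ, hΛ⟩ := hlam1
  intro S
  refine ⟨fun f cl => ∑ j ∈ Finset.range S.s, Λ (fun u => f (P S j u)) fun u => cl (P S j u),
    fun f g cl hf e => ?_, fun f g cl hf hg => ?_, fun f cl c hf => ?_,
    fun f cl y hf => ?_, fun f cl cl' F r hf hf' hi hs hF => ?_, fun f hf ha => ?_⟩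
  · exact Finset.sum_congr rfl fun j _ => hΛ.congr _ _ _ (tame hf j) (ae e j)
  · rw [← Finset.sum_add_distrib]
    exact Finset.sum_congr rfl fun j _ => hΛ.add _ _ _ (tame hf j) (tame hg j)
  · rw [Finset.mul_sum]
    exact Finset.sum_congr rfl fun j _ => hΛ.smul _ _ c (tame hf j)
  · rw [← sum_per (V := fun j => Λ (fun u => f (P S j u)) fun u => cl (P S j u)) (s := S.s)
      (fun j => by simpa using term_shift hΛ hf 0 (j := j + S.s) (j' := j) (by simp)) (S.ν y)]
    exact Finset.sum_congr rfl fun j _ => term_shift hΛ hf y (by simp)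
  · choose jj hj1 hj2 _ using S.exists_comp
    have hju : ∀ (y : S.A) (j : ℕ), j < S.s → (S.s : ℤ) ∣ S.ν y - j → jj y = j := by
      intro y j h1 h2
      have h3 := dvd_sub h2 (hj2 y)
      have h4 := hj1 y
      have h5 := Int.eq_zero_of_abs_lt_dvd h3 (by rw [abs_lt]; constructor <;> omega)
      omega
    have hinj : ∀ j : ℕ, ∀ a ∈ F.filter (fun y => jj y = j), ∀ b ∈ F.filter (fun y => jj y = j),
        (∃ k : ℤ, S.w a - S.w b = k) → a = b := by
      intro j a ha b hb e
      rw [Finset.mem_filter] at ha hb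
      refine hi a ha.1 b hb.1 (S.Ω_iff.2 ⟨by simpa using e, ?_⟩)
      have h3 := dvd_sub (hj2 a) (hj2 b)
      rw [ha.2, hb.2] at h3
      simpa using h3
    have hinj' : ∀ j : ℕ, Set.InjOn S.w (F.filter (fun y => jj y = j) : Finset S.A) :=
      fun j a ha b hb e => hinj j a ha b hb ⟨0, by simp [e]⟩
    have key : ∀ j ∈ Finset.range S.s,
        (Λ (fun u => f (P S j u)) fun u => cl (P S j u)) -
          (Λ (fun u => f (P S j u)) fun u => cl' (P S j u)) =
        S.κ * ∑ y ∈ F.filter (fun y => jj y = j), r y := by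
      intro j hj
      rw [Finset.mem_range] at hj
      rw [hΛ.recl _ _ _ ((F.filter fun y => jj y = j).image S.w)
        (fun u => (S.γ / S.ε)⁻¹ *
          r (Function.invFunOn S.w (F.filter (fun y => jj y = j) : Finset S.A) u))
        (tame hf j) (tame hf' j) ?_ ?_ ?_]
      · rw [Finset.sum_image (hinj' j), Finset.mul_sum, Finset.mul_sum]
        refine Finset.sum_congr rfl fun y hy => ?_
        rw [(hinj' j).leftInvOn_invFunOn hy, Setup.κ, inv_div]
        ring
      · intro x hx y hy e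
        obtain ⟨a, ha, rfl⟩ := Finset.mem_image.1 hx
        obtain ⟨b, hb, rfl⟩ := Finset.mem_image.1 hy
        rw [hinj j a ha b hb e]
      · intro x hx
        have hn : ¬ S.Reg f (P S j x) := fun ⟨c, hc⟩ => hx ⟨c, by
          rw [loc S f j x]
          exact hc.comp (tend S x)⟩
        refine (hs _ hn).imp_right fun ⟨y, hy, e⟩ => ?_
        obtain ⟨e1, e2⟩ := S.Ω_iff.1 e
        rw [map_sub, w_P] at e1
        rw [map_sub, ν_P] at e2
        exact ⟨S.w y, Finset.mem_image_of_mem _ (Finset.mem_filter.2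
          ⟨hy, hju y j hj (dvd_sub_comm.1 e2)⟩), e1⟩
      · intro u hu
        obtain ⟨y, hy, rfl⟩ := Finset.mem_image.1 hu
        rw [(hinj' j).leftInvOn_invFunOn hy]
        rw [Finset.mem_filter] at hy
        have hω : P S j (S.w y) - y ∈ S.Ω := S.Ω_iff.2 ⟨⟨0, by simp [w_P]⟩, by
          rw [map_sub, ν_P, ← hy.2]
          exact dvd_sub_comm.1 (hj2 y)⟩
        have e : P S j (S.w y) = y + (P S j (S.w y) - y) := by abel
        obtain ⟨h1, h2, h3⟩ := hF y hy.1
        refine ⟨by rw [e, hf.clper _ hω]; exact h1, by rw [e, hf'.clper _ hω]; exact h2, ?_⟩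
        have ht := tend S 0
        refine ((h3.comp ht).const_mul (S.γ / S.ε)⁻¹).congr' ?_
        filter_upwards [ht.eventually (hf.per _ hω y)] with z hz
        simp only [Setup.sl, sub_zero] at hz
        simp only [Function.comp_apply, Setup.sl, sub_zero, ← hz, P_add]
        rw [← mul_assoc, ← mul_assoc, inv_mul_cancel₀ (c_ne S), one_mul]
        congr 2
        abel
    rw [← Finset.sum_sub_distrib, Finset.sum_congr rfl key, ← Finset.mul_sum,
      Finset.sum_fiberwise_of_maps_to fun y _ => Finset.mem_range.2 (hj1 y)]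
  · refine Finset.sum_congr rfl fun j _ => ?_
    have ht := tame hf j
    simp only [h_P] at ht ⊢
    rw [hΛ.lin _ ht fun x => ?_]
    · simp only [P, natCast_zsmul, Int.cast_natCast]
    · rw [loc S f j x]
      exact AnalyticAt.comp_of_eq (ha _ (by simp [h_P])) (by fun_prop) (by simp)

end

end Pool.Agent.P.MP_29cb78_nt.E
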