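import Pool.Agent.P.MP_29cb78_nt.E.Iface

/-!
Construction of the contour integral in the plane.
-/

namespace Pool.Agent.P.MP_29cb78_nt.E

open Filter Topology MeasureTheory
open scoped Classical Real

noncomputable section

namespace Lam1

variable {f g : ℂ → ℂ} {cl : ℂ → Prop}

/-! ### Locally finite sets -/

lemma fin_cpt {p : ℂ → Prop} (hp : ∀ x, ∀ᶠ z in 𝓝[≠] x, p z) {K : Set ℂ} (hK : IsCompact K) :
    {z ∈ K | ¬ p z}.Finite := by
  obtain ⟨t, -, ht⟩ := hK.elim_nhds_subcover (fun x => {z | z ∈ ({x}ᶜ : Set ℂ) → p z})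
    fun x _ => eventually_nhdsWithin_iff.1 (hp x)
  refine t.finite_toSet.subset fun z hz => ?_
  obtain ⟨x, hx, h⟩ := Set.mem_iUnion₂.1 (ht hz.1)
  by_cases e : z = x
  · rw [e]; exact hx
  · exact absurd (h e) hz.2

lemma ctb {p : ℂ → Prop} (hp : ∀ x, ∀ᶠ z in 𝓝[≠] x, p z) : {z | ¬ p z}.Countable := by
  refine (Set.countable_iUnion fun n : ℕ =>
    (fin_cpt hp (isCompact_closedBall (0 : ℂ) n)).countable).mono fun z hz => ?_
  obtain ⟨n, hn⟩ := exists_nat_ge ‖z‖
  exact Set.mem_iUnion.2 ⟨n, by simpa using hn, hz⟩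

lemma line_ae {p : ℂ → Prop} (hp : ∀ x, ∀ᶠ z in 𝓝[≠] x, p z) (c : ℂ) :
    ∀ᵐ u : ℝ, p (u + c) := by
  have hi : Function.Injective fun u : ℝ => (u : ℂ) + c := fun u v h =>
    Complex.ofReal_injective (add_right_cancel h)
  exact ae_iff.2 (((ctb hp).preimage hi).measure_zero volume)

lemma tr (x y : ℂ) : Tendsto (fun z => z + y) (𝓝[≠] x) (𝓝[≠] (x + y)) := by
  refine tendsto_nhdsWithin_iff.2 ⟨?_, ?_⟩
  · exact ((continuous_add_const y).tendsto x).mono_left nhdsWithin_le_nhds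
  · filter_upwards [self_mem_nhdsWithin] with z hz h
    exact hz (add_right_cancel h)

/-! ### Regular points -/

lemma reg_congr {x : ℂ} (h : f =ᶠ[𝓝[≠] x] g) (hr : Reg1 f x) : Reg1 g x :=
  let ⟨c, hc⟩ := hr
  ⟨c, hc.congr' h⟩

lemma reg_shift {x y : ℂ} : Reg1 (fun z => g (z + y)) x ↔ Reg1 g (x + y) := by
  refine ⟨fun ⟨c, hc⟩ => ⟨c, ?_⟩, fun ⟨c, hc⟩ => ⟨c, hc.comp (tr x y)⟩⟩
  have h := tr (x + y) (-y)
  rw [add_neg_cancel_right] at h
  simpa [Function.comp_def] using hc.comp h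

lemma reg_add {x : ℂ} (hf : Reg1 f x) (hg : Reg1 g x) : Reg1 (fun z => f z + g z) x :=
  let ⟨c, hc⟩ := hf
  let ⟨d, hd⟩ := hg
  ⟨c + d, hc.add hd⟩

lemma reg_mul {x : ℂ} (a : ℂ) (hf : Reg1 f x) : Reg1 (fun z => a * f z) x :=
  let ⟨c, hc⟩ := hf
  ⟨a * c, hc.const_mul a⟩

lemma reg_of_an {x : ℂ} (h : AnalyticAt ℂ g x) : Reg1 g x :=
  ⟨g x, h.continuousAt.tendsto.mono_left nhdsWithin_le_nhds⟩

lemma ev_reg (hm : ∀ x, MeromorphicAt g x) (x : ℂ) : ∀ᶠ z in 𝓝[≠] x, Reg1 g z :=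
  (hm x).eventually_analyticAt.mono fun _ => reg_of_an

/-- Periodicity outside a discrete set. -/
def Per (g : ℂ → ℂ) : Prop := ∀ x, (fun z => g (z + 1)) =ᶠ[𝓝[≠] x] g

lemma per_int (hp : Per g) (k : ℤ) : ∀ x, (fun z => g (z + k)) =ᶠ[𝓝[≠] x] g := by
  induction k using Int.induction_on with
  | zero => intro x; simp
  | succ k ih =>
    intro x
    filter_upwards [(tr x ((k : ℤ) : ℂ)).eventually (hp _), ih x] with z h1 h2
    rw [← h2, ← h1]
    push_cast
    rw [add_assoc]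
  | pred k ih =>
    intro x
    filter_upwards [(tr x ((-(k : ℤ) - 1 : ℤ) : ℂ)).eventually (hp _), ih x] with z h1 h2
    rw [← h2, ← h1]
    congr 1
    push_cast
    ring

lemma reg_int (hp : Per g) {x y : ℂ} (h : ∃ k : ℤ, x - y = k) : Reg1 g x ↔ Reg1 g y := by
  obtain ⟨k, hk⟩ := h
  rw [show x = y + k by rw [← hk]; ring, ← reg_shift]
  exact ⟨reg_congr (per_int hp k y), reg_congr (per_int hp k y).symm⟩

lemma res_int (h0 : S_RES0) (hp : Per g) {x y : ℂ} (h : ∃ k : ℤ, x - y = k) :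
    res g x = res g y := by
  obtain ⟨k, hk⟩ := h
  rw [show x = y + k by rw [← hk]; ring, ← h0.2.2.2.2.1]
  exact h0.2.1 _ _ _ (per_int hp k y)

lemma cl_int (hc : ∀ x, cl (x + 1) ↔ cl x) {x y : ℂ} (h : ∃ k : ℤ, x - y = k) :
    cl x ↔ cl y := by
  obtain ⟨k, hk⟩ := h
  have h1 : Function.Periodic cl 1 := fun x => propext (hc x)
  have h2 := h1.int_mul k y
  rw [show x = y + k * 1 by rw [mul_one, ← hk]; ring, h2]

lemma im_int {x y : ℂ} (h : ∃ k : ℤ, x - y = k) : x.im = y.im := by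
  obtain ⟨k, hk⟩ := h
  have := congrArg Complex.im hk
  simpa [sub_eq_zero] using this

lemma symm_int {x y : ℂ} (h : ∃ k : ℤ, x - y = k) : ∃ k : ℤ, y - x = k := by
  obtain ⟨k, hk⟩ := h
  exact ⟨-k, by push_cast; rw [← hk]; ring⟩

lemma trans_int {x y z : ℂ} (h : ∃ k : ℤ, x - y = k) (h' : ∃ k : ℤ, y - z = k) :
    ∃ k : ℤ, x - z = k := by
  obtain ⟨k, hk⟩ := h
  obtain ⟨l, hl⟩ := h'
  exact ⟨k + l, by push_cast; rw [← hk, ← hl]; ring⟩

/-! ### Line integrals -/

/-- The integral over a horizontal line. -/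
def LI (g : ℂ → ℂ) (r : ℝ) : ℂ := ∫ u in (0 : ℝ)..1, g (u + r * Complex.I)

lemma int_congr (h : ∀ x, f =ᶠ[𝓝[≠] x] g) (c : ℂ) (a b : ℝ) :
    ∫ u in a..b, f (u + c) = ∫ u in a..b, g (u + c) :=
  intervalIntegral.integral_congr_ae ((line_ae h c).mono fun _ hu _ => hu)

lemma exists_nf (hm : ∀ x, MeromorphicAt g x) : ∃ g' : ℂ → ℂ, (∀ x, g' =ᶠ[𝓝[≠] x] g) ∧
    ∀ c : ℂ, (∀ x : ℂ, x.im = c.im → Reg1 g x) → Continuous fun u : ℝ => g' (u + c) := by
  have hM : MeromorphicOn g Set.univ := fun x _ => hm x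
  have he : ∀ x, toMeromorphicNFOn g Set.univ =ᶠ[𝓝[≠] x] g := fun x =>
    hM.toMeromorphicNFOn_eq_self_on_nhdsNE (Set.mem_univ x)
  refine ⟨toMeromorphicNFOn g Set.univ, he, fun c hc => continuous_iff_continuousAt.2 fun u => ?_⟩
  have h1 := meromorphicNFOn_toMeromorphicNFOn g Set.univ (Set.mem_univ ((u : ℂ) + c))
  have h2 : AnalyticAt ℂ (toMeromorphicNFOn g Set.univ) ((u : ℂ) + c) := by
    rw [← h1.meromorphicOrderAt_nonneg_iff_analyticAt,
      ← tendsto_nhds_iff_meromorphicOrderAt_nonneg h1.meromorphicAt]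
    exact reg_congr (he _).symm (hc _ (by simp))
  exact ContinuousAt.comp (f := fun u : ℝ => (u : ℂ) + c) h2.continuousAt (by fun_prop)

lemma li_int (hm : ∀ x, MeromorphicAt g x) {r : ℝ} (hr : ∀ x : ℂ, x.im = r → Reg1 g x) :
    IntervalIntegrable (fun u : ℝ => g (u + r * Complex.I)) volume 0 1 := by
  obtain ⟨g', h1, h2⟩ := exists_nf hm
  refine ((h2 (r * Complex.I) (by simpa using hr)).intervalIntegrable 0 1).congr_ae ?_
  exact ae_restrict_of_ae (line_ae h1 _)

lemma li_shift (hm : ∀ x, MeromorphicAt g x) (hp : Per g) {r : ℝ}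
    (hr : ∀ x : ℂ, x.im = r → Reg1 g x) (y : ℂ) :
    LI (fun z => g (z + y)) (r - y.im) = LI g r := by
  obtain ⟨g', h1, h2⟩ := exists_nf hm
  have hc := h2 (r * Complex.I) (by simpa using hr)
  have hper : Function.Periodic (fun u : ℝ => g' (u + r * Complex.I)) 1 := by
    have h3 : ∀ x, (fun z => g' (z + 1)) =ᶠ[𝓝[≠] x] g' := fun x => by
      filter_upwards [(tr x 1).eventually (h1 _), hp x, h1 x] with z e1 e2 e3
      rw [e1, e2, e3]
    have h4 : (fun u : ℝ => g' (((u + 1 : ℝ) : ℂ) + r * Complex.I)) =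
        fun u : ℝ => g' (u + r * Complex.I) := by
      rw [← (hc.comp (continuous_add_const 1)).ae_eq_iff_eq volume hc |>.1 ?_]
      · rfl
      · filter_upwards [line_ae h3 (r * Complex.I)] with u hu
        rw [← hu, Function.comp_apply]
        congr 1
        push_cast
        ring
    exact fun u => congrFun h4 u
  have e1 : ∀ u : ℝ, (u : ℂ) + ((r - y.im : ℝ) : ℂ) * Complex.I + y =
      u + (y.re + r * Complex.I) := fun u => by
    conv_lhs => rw [← Complex.re_add_im y]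
    simp only [Complex.add_im, Complex.ofReal_im, Complex.mul_im, Complex.ofReal_re, Complex.I_im,
      Complex.I_re]
    push_cast
    ring
  have e2 : ∀ u : ℝ, (u : ℂ) + (y.re + r * Complex.I) = ((u + y.re : ℝ) : ℂ) + r * Complex.I :=
    fun u => by push_cast; ring
  simp only [LI, e1]
  rw [← int_congr h1, ← int_congr h1]
  simp only [e2]
  rw [intervalIntegral.integral_comp_add_right (fun u : ℝ => g' (u + r * Complex.I)), zero_add,
    add_comm, hper.intervalIntegral_add_eq y.re 0, zero_add]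

/-! ### Admissible data -/

/-- A line below all upper poles, and representatives of the lower poles above it. -/
structure Adm (g : ℂ → ℂ) (cl : ℂ → Prop) (r : ℝ) (F : Finset ℂ) : Prop where
  line : ∀ x : ℂ, x.im = r → Reg1 g x
  low : ∀ x : ℂ, x.im < r → cl x → Reg1 g x
  mem : ∀ x ∈ F, r < x.im ∧ (cl x → Reg1 g x)
  inj : ∀ x ∈ F, ∀ y ∈ F, (∃ k : ℤ, x - y = k) → x = y
  surj : ∀ x : ℂ, r < x.im → ¬ Reg1 g x → ¬ cl x → ∃ y ∈ F, ∃ k : ℤ, x - y = k

/-- The value attached to admissible data. -/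
def val (g : ℂ → ℂ) (r : ℝ) (F : Finset ℂ) : ℂ :=
  LI g r - 2 * π * Complex.I * ∑ x ∈ F, res g x

lemma val_same (h0 : S_RES0) (hm : ∀ x, MeromorphicAt g x) (hp : Per g) {r : ℝ}
    {F F' : Finset ℂ} (h : Adm g cl r F) (h' : Adm g cl r F') : val g r F = val g r F' := by
  have key : ∀ {F F' : Finset ℂ}, Adm g cl r F → Adm g cl r F' → ∀ x ∈ F, res g x ≠ 0 →
      ∃ y ∈ F', ∃ k : ℤ, x - y = k := fun h h' x hx hr => by
    have hn : ¬ Reg1 g x := fun hc => hr (h0.2.2.2.2.2.2.1 g x (hm x) hc)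
    exact h'.surj x (h.mem x hx).1 hn fun hc => hn ((h.mem x hx).2 hc)
  choose i hi hk using key h h'
  simp only [val]
  congr 2
  refine Finset.sum_bij_ne_zero i hi (fun a ha ha' b hb hb' e => ?_) (fun b hb hb' => ?_)
    fun a ha ha' => res_int h0 hp (hk a ha ha')
  · exact h.inj a ha b hb (trans_int (hk a ha ha') (symm_int (e ▸ hk b hb hb')))
  · obtain ⟨a, ha, e⟩ := key h' h b hb hb'
    have ha' : res g a ≠ 0 := by rwa [← res_int h0 hp e]
    exact ⟨a, ha, ha', h'.inj _ (hi a ha ha') b hb (symm_int (trans_int e (hk a ha ha')))⟩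

lemma val_lt (h0 : S_RES0) (hs : S_STRIP) (hm : ∀ x, MeromorphicAt g x) (hp : Per g) {r r' : ℝ}
    {F F' : Finset ℂ} (h : Adm g cl r F) (h' : Adm g cl r' F') (hr : r < r') :
    val g r F = val g r' F' := by
  have h1 : Adm g cl r' (F.filter fun x => r' < x.im) := by
    refine ⟨h'.line, h'.low, fun x hx => ?_, fun x hx y hy => ?_, fun x hx hn hc => ?_⟩
    · rw [Finset.mem_filter] at hx
      exact ⟨hx.2, (h.mem x hx.1).2⟩
    · exact h.inj x (Finset.mem_filter.1 hx).1 y (Finset.mem_filter.1 hy).1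
    · obtain ⟨y, hy, e⟩ := h.surj x (hr.trans hx) hn hc
      exact ⟨y, Finset.mem_filter.2 ⟨hy, im_int e ▸ hx⟩, e⟩
  have h2 := hs g r r' (F.filter fun x => x.im < r') hm hp hr
    (fun x hx => hx.elim (h.line x) (h'.line x))
    (fun x hx => ⟨(h.mem x (Finset.mem_filter.1 hx).1).1, (Finset.mem_filter.1 hx).2⟩)
    (fun x hx y hy => h.inj x (Finset.mem_filter.1 hx).1 y (Finset.mem_filter.1 hy).1)
    (fun x hx hx' hn => by
      obtain ⟨y, hy, e⟩ := h.surj x hx hn fun hc => hn (h'.low x hx' hc)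
      exact ⟨y, Finset.mem_filter.2 ⟨hy, im_int e ▸ hx'⟩, e⟩)
  have h3 : ∑ x ∈ F, res g x = ∑ x ∈ F.filter (fun x => x.im < r'), res g x +
      ∑ x ∈ F.filter (fun x => r' < x.im), res g x := by
    rw [Finset.sum_filter, Finset.sum_filter, ← Finset.sum_add_distrib]
    refine Finset.sum_congr rfl fun x _ => ?_
    rcases lt_trichotomy x.im r' with e | e | e
    · simp [e, e.not_gt]
    · simp [h0.2.2.2.2.2.2.1 g x (hm x) (h'.line x e)]
    · simp [e, e.not_gt]
  rw [← val_same h0 hm hp h1 h']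
  simp only [val, LI]
  rw [h3]
  linear_combination h2

lemma val_eq (h0 : S_RES0) (hs : S_STRIP) (hm : ∀ x, MeromorphicAt g x) (hp : Per g) {r r' : ℝ}
    {F F' : Finset ℂ} (h : Adm g cl r F) (h' : Adm g cl r' F') : val g r F = val g r' F' := by
  rcases lt_trichotomy r r' with e | rfl | e
  · exact val_lt h0 hs hm hp h h' e
  · exact val_same h0 hm hp h h'
  · exact (val_lt h0 hs hm hp h' h e).symm

/-- Common admissible data for two functions, with a line as low as we wish. -/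
lemma exists_adm (hf : Tame1 f cl) (hg : Tame1 g cl) (R₀ : ℝ) : ∃ (r : ℝ) (F : Finset ℂ),
    r < R₀ ∧ (∀ x ∈ F, ¬ cl x) ∧ Adm f cl r F ∧ Adm g cl r F := by
  obtain ⟨R₁, h₁⟩ := hf.bdd
  obtain ⟨R₂, h₂⟩ := hg.bdd
  have hp : ∀ x, ∀ᶠ z in 𝓝[≠] x, Reg1 f z ∧ Reg1 g z := fun x =>
    (ev_reg hf.mer x).and (ev_reg hg.mer x)
  obtain ⟨r, hr1, hr2⟩ := (((ctb hp).image Complex.im).dense_compl ℝ).exists_mem_open
    (isOpen_Iio (a := min R₀ (min (-R₁) (-R₂)))) Set.nonempty_Iio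
  simp only [Set.mem_Iio, lt_min_iff] at hr2
  have hl : ∀ x : ℂ, x.im = r → Reg1 f x ∧ Reg1 g x := fun x hx => by
    by_contra h
    exact hr1 ⟨x, h, hx⟩
  have hK : IsCompact (Set.Icc (0 : ℝ) 1 ×ℂ Set.Icc r (max R₁ R₂)) :=
    isCompact_Icc.reProdIm isCompact_Icc
  have hfin : {x : ℂ | (0 ≤ x.re ∧ x.re < 1) ∧ (r < x.im ∧ x.im < max R₁ R₂) ∧ ¬ cl x ∧
      ¬ (Reg1 f x ∧ Reg1 g x)}.Finite :=
    (fin_cpt hp hK).subset fun x hx =>
      ⟨⟨⟨hx.1.1, hx.1.2.le⟩, hx.2.1.1.le, hx.2.1.2.le⟩, hx.2.2.2⟩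
  have hinj : ∀ x ∈ hfin.toFinset, ∀ y ∈ hfin.toFinset, (∃ k : ℤ, x - y = k) → x = y := by
    rintro x hx y hy ⟨k, hk⟩
    rw [Set.Finite.mem_toFinset] at hx hy
    have e := congrArg Complex.re hk
    simp only [Complex.sub_re, Complex.intCast_re] at e
    have e1 : (k : ℝ) < 1 := by linarith [hx.1.2, hy.1.1]
    have e2 : (-1 : ℝ) < k := by linarith [hx.1.1, hy.1.2]
    have e3 : k = 0 := by
      have a1 : k < 1 := by exact_mod_cast e1
      have a2 : -1 < k := by exact_mod_cast e2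
      omega
    rw [e3, Int.cast_zero] at hk
    exact sub_eq_zero.1 hk
  have hsurj : ∀ x : ℂ, r < x.im → ¬ (Reg1 f x ∧ Reg1 g x) → ¬ cl x →
      ∃ y ∈ hfin.toFinset, ∃ k : ℤ, x - y = k := by
    intro x hx hn hc
    have e : ∃ k : ℤ, x - (x - (⌊x.re⌋ : ℤ)) = k := ⟨⌊x.re⌋, by ring⟩
    refine ⟨x - (⌊x.re⌋ : ℤ), (Set.Finite.mem_toFinset _).2 ⟨?_, ?_, ?_, ?_⟩, e⟩
    · simp only [Complex.sub_re, Complex.intCast_re]
      exact ⟨by linarith [Int.floor_le x.re], by linarith [Int.lt_floor_add_one x.re]⟩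
    · rw [← im_int e]
      refine ⟨hx, ?_⟩
      rcases not_and_or.1 hn with h | h
      · exact ((h₁ x h).2 hc).trans_le (le_max_left _ _)
      · exact ((h₂ x h).2 hc).trans_le (le_max_right _ _)
    · rwa [← cl_int hf.clper e]
    · rwa [← reg_int hf.per e, ← reg_int hg.per e]
  have hmem : ∀ x ∈ hfin.toFinset, r < x.im ∧ ¬ cl x := fun x hx => by
    rw [Set.Finite.mem_toFinset] at hx
    exact ⟨hx.2.1.1, hx.2.2.1⟩
  refine ⟨r, hfin.toFinset, hr2.1, fun x hx => (hmem x hx).2,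
    ⟨fun x hx => (hl x hx).1, fun x hx hc => ?_,
      fun x hx => ⟨(hmem x hx).1, fun hc => absurd hc (hmem x hx).2⟩, hinj,
      fun x hx hn => hsurj x hx fun h => hn h.1⟩,
    ⟨fun x hx => (hl x hx).2, fun x hx hc => ?_,
      fun x hx => ⟨(hmem x hx).1, fun hc => absurd hc (hmem x hx).2⟩, hinj,
      fun x hx hn => hsurj x hx fun h => hn h.2⟩⟩
  · by_contra hn
    linarith [(h₁ x hn).1 hc, hr2.2.1]
  · by_contra hn
    linarith [(h₂ x hn).1 hc, hr2.2.2]

lemma Adm.mono {r : ℝ} {F : Finset ℂ} {u : ℂ → ℂ} (hf : Adm f cl r F) (hg : Adm g cl r F)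
    (h : ∀ x, Reg1 f x → Reg1 g x → Reg1 u x) : Adm u cl r F := by
  refine ⟨fun x hx => h x (hf.line x hx) (hg.line x hx),
    fun x hx hc => h x (hf.low x hx hc) (hg.low x hx hc),
    fun x hx => ⟨(hf.mem x hx).1, fun hc => h x ((hf.mem x hx).2 hc) ((hg.mem x hx).2 hc)⟩,
    hf.inj, fun x hx hn hc => ?_⟩
  by_cases h1 : Reg1 f x
  · exact hg.surj x hx (fun h2 => hn (h x h1 h2)) hc
  · exact hf.surj x hx h1 hc

/-- The functional. -/
def Lm (g : ℂ → ℂ) (cl : ℂ → Prop) : ℂ :=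
  Classical.epsilon fun v => ∃ r F, Adm g cl r F ∧ v = val g r F

lemma lm_eq (h0 : S_RES0) (hs : S_STRIP) (hm : ∀ x, MeromorphicAt g x) (hp : Per g) {r : ℝ}
    {F : Finset ℂ} (h : Adm g cl r F) : Lm g cl = val g r F := by
  obtain ⟨r', F', h', e⟩ := Classical.epsilon_spec
    (p := fun v => ∃ r F, Adm g cl r F ∧ v = val g r F) ⟨_, r, F, h, rfl⟩
  exact e.trans (val_eq h0 hs hm hp h' h)

end Lam1

open Lam1 in
theorem lam1_thm (hres0 : S_RES0) (hstrip : S_STRIP) : S_LAM1 := by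
  refine ⟨Lm, fun f g cl hf e => ?_, fun f g cl hf hg => ?_, fun f cl c hf => ?_,
    fun f cl y hf => ?_, fun f cl cl' F ρ hf hf' hi hs hF => ?_, fun f hf ha => ?_⟩
  · obtain ⟨r, F, -, -, h, -⟩ := exists_adm hf hf 0
    have hp : Per g := fun x => by
      filter_upwards [(tr x 1).eventually (e _), hf.per x, e x] with z e1 e2 e3
      rw [← e1, e2, e3]
    rw [lm_eq hres0 hstrip hf.mer hf.per h, lm_eq hres0 hstrip
      (fun x => (hf.mer x).congr (e x)) hp (h.mono h fun x hx _ => reg_congr (e x) hx)]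
    simp only [val, LI, int_congr e, fun x => hres0.2.1 f g x (e x)]
  · obtain ⟨r, F, -, -, h, h'⟩ := exists_adm hf hg 0
    have hp : Per fun x => f x + g x := fun x => by
      filter_upwards [hf.per x, hg.per x] with z e1 e2
      rw [e1, e2]
    rw [lm_eq hres0 hstrip hf.mer hf.per h, lm_eq hres0 hstrip hg.mer hg.per h',
      lm_eq hres0 hstrip (fun x => (hf.mer x).fun_add (hg.mer x)) hp
        (h.mono h' fun x => reg_add)]
    simp only [val, LI, fun x => hres0.2.2.1 f g x (hf.mer x) (hg.mer x),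
      intervalIntegral.integral_add (li_int hf.mer h.line) (li_int hg.mer h'.line),
      Finset.sum_add_distrib]
    ring
  · obtain ⟨r, F, -, -, h, -⟩ := exists_adm hf hf 0
    have hp : Per fun x => c * f x := fun x => by
      filter_upwards [hf.per x] with z e1
      rw [e1]
    rw [lm_eq hres0 hstrip hf.mer hf.per h,
      lm_eq hres0 hstrip (fun x => (MeromorphicAt.const c x).fun_mul (hf.mer x)) hp
        (h.mono h fun x hx _ => reg_mul c hx)]
    simp only [val, LI, fun x => hres0.2.2.2.1 f x c (hf.mer x),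
      intervalIntegral.integral_const_mul, ← Finset.mul_sum]
    ring
  · obtain ⟨r, F, -, -, h, -⟩ := exists_adm hf hf 0
    have hp : Per fun x => f (x + y) := fun x => by
      filter_upwards [(tr x y).eventually (hf.per _)] with z e1
      rw [← e1, add_right_comm]
    have h' : Adm (fun x => f (x + y)) (fun x => cl (x + y)) (r - y.im) (F.image fun x => x - y) := by
      refine ⟨fun x hx => ?_, fun x hx hc => ?_, fun x hx => ?_, fun x hx z hz e => ?_,
        fun x hx hn hc => ?_⟩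
      · exact reg_shift.2 (h.line _ (by rw [Complex.add_im]; linarith))
      · exact reg_shift.2 (h.low _ (by rw [Complex.add_im]; linarith) hc)
      · obtain ⟨a, ha, rfl⟩ := Finset.mem_image.1 hx
        rw [reg_shift, sub_add_cancel, Complex.sub_im]
        exact ⟨by linarith [(h.mem a ha).1], (h.mem a ha).2⟩
      · obtain ⟨a, ha, rfl⟩ := Finset.mem_image.1 hx
        obtain ⟨b, hb, rfl⟩ := Finset.mem_image.1 hz
        rw [sub_sub_sub_cancel_right] at e
        rw [h.inj a ha b hb e]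
      · obtain ⟨z, hz, k, e⟩ := h.surj (x + y) (by rw [Complex.add_im]; linarith)
          (fun h => hn (reg_shift.2 h)) hc
        exact ⟨z - y, Finset.mem_image_of_mem _ hz, k, by rw [← e]; ring⟩
    rw [lm_eq hres0 hstrip hf.mer hf.per h, lm_eq hres0 hstrip
      (fun x => meromorphicAt_fun_comp_add_const_iff_meromorphicAt.2 (hf.mer _)) hp h']
    simp only [val, li_shift hf.mer hf.per h.line, hres0.2.2.2.2.1]
    rw [Finset.sum_image fun a _ b _ e => sub_left_injective e]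
    simp only [sub_add_cancel]
  · obtain ⟨R, hR⟩ := hf.bdd
    obtain ⟨R', hR'⟩ := hf'.bdd
    obtain ⟨r, F₀, hr, hF₀, h, -⟩ := exists_adm hf hf (min (-R) (-R'))
    rw [lt_min_iff] at hr
    have hd : ∀ x ∈ F₀, ∀ y ∈ F, ¬ ∃ k : ℤ, x - y = k := fun x hx y hy e =>
      hF₀ x hx ((cl_int hf.clper e).2 (hF y hy).1)
    have h' : Adm f cl' r (F₀ ∪ F.filter fun x => ¬ Reg1 f x) := by
      refine ⟨h.line, fun x hx hc => ?_, fun x hx => ?_, fun x hx y hy e => ?_,
        fun x hx hn hc => ?_⟩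
      · by_contra hn
        linarith [(hR' x hn).1 hc, hr.2]
      · rcases Finset.mem_union.1 hx with hx | hx
        · refine ⟨(h.mem x hx).1, fun hc => ?_⟩
          by_contra hn
          rcases hs x hn with e | ⟨y, hy, e⟩
          · exact hF₀ x hx (e.2 hc)
          · exact hd x hx y hy e
        · rw [Finset.mem_filter] at hx
          exact ⟨hr.1.trans ((hR x hx.2).1 (hF x hx.1).1), fun hc => absurd hc (hF x hx.1).2.1⟩
      · rcases Finset.mem_union.1 hx with hx | hx <;> rcases Finset.mem_union.1 hy with hy | hy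
        · exact h.inj x hx y hy e
        · exact absurd e (hd x hx y (Finset.mem_filter.1 hy).1)
        · exact absurd (symm_int e) (hd y hy x (Finset.mem_filter.1 hx).1)
        · exact hi x (Finset.mem_filter.1 hx).1 y (Finset.mem_filter.1 hy).1 e
      · rcases hs x hn with e | ⟨y, hy, e⟩
        · obtain ⟨y, hy, e'⟩ := h.surj x hx hn fun hc' => hc (e.1 hc')
          exact ⟨y, Finset.mem_union_left _ hy, e'⟩
        · exact ⟨y, Finset.mem_union_right _
            (Finset.mem_filter.2 ⟨hy, by rwa [← reg_int hf.per e]⟩), e⟩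
    have hdis : Disjoint F₀ (F.filter fun x => ¬ Reg1 f x) := Finset.disjoint_left.2
      fun x hx hx' => hd x hx x (Finset.mem_filter.1 hx').1 ⟨0, by simp⟩
    have hsum : ∑ y ∈ F.filter (fun x => ¬ Reg1 f x), res f y = ∑ y ∈ F, ρ y := by
      rw [Finset.sum_filter]
      refine Finset.sum_congr rfl fun y hy => ?_
      rw [← hres0.2.2.2.2.2.1 f y _ (hf.mer y) (hF y hy).2.2]
      split_ifs with hn
      · exact (hres0.2.2.2.2.2.2.1 f y (hf.mer y) hn).symm
      · rfl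
    rw [lm_eq hres0 hstrip hf.mer hf.per h, lm_eq hres0 hstrip hf.mer hf.per h']
    simp only [val, Finset.sum_union hdis, hsum]
    ring
  · have h : Adm f (fun x => 0 < x.im) 0 ∅ := by
      refine ⟨fun x hx => ?_, fun x hx hc => absurd hc hx.not_gt, by simp, by simp,
        fun x hx _ hc => absurd hx hc⟩
      have e : x = (x.re : ℂ) := Complex.ext rfl hx
      rw [e]
      exact reg_of_an (ha _)
    rw [lm_eq hres0 hstrip hf.mer hf.per h]
    simp [val, LI]

end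

end Pool.Agent.P.MP_29cb78_nt.E
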