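import Pool.Agent.P.MP_29cb78_nt.E.Basic

/-! The two contributions of a point of order two agree. -/

namespace Pool.Agent.P.MP_29cb78_nt.E

open Finset

namespace Merge

variable {S : Setup} {G : S.A → ℂ} {d : ℕ}

/-- The shifted symmetric product. -/
noncomputable def FF (G : S.A → ℂ) (t : Fin d → S.A) (y : S.A) : ℂ :=
  ∏ j, (G (t j + y) * G (t j - y + S.p + S.q))

lemma per (hwper : S_WPER) (hT : S.TH) (hG : S.GH G) {t : Fin d → S.A} (hd : Even d)
    (ht : ∑ j, t j = 0) {ω : S.A} (hω : ω ∈ S.Ω) (y : S.A) : FF G t (y + ω) = FF G t y := by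
  have e : ∀ y, FF G t y = S.WW G (fun j => t j + S.hU) (y - S.hU) := fun y =>
    prod_congr rfl fun j _ => by
      rw [add_assoc _ S.p, ← S.hU_add_hU]
      dsimp only
      congr 2 <;> abel
  obtain ⟨k, hk⟩ := id hd
  have := hwper S hT G hG d (fun j => t j + S.hU) k k hd (by
    rw [sum_add_distrib, ht, sum_const, card_univ, Fintype.card_fin, hk, ← nsmul_add,
      ← S.hU_add_hU, add_nsmul, nsmul_add, zero_add]) ω hω (y - S.hU)
  rw [two_mul, ← hk] at this
  rw [e, e, add_sub_right_comm]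
  exact mul_right_cancel₀ (mul_ne_zero (pow_ne_zero _ (hT.mult_ne _ hω.1 _))
    (pow_ne_zero _ (hT.mult_ne _ hω.2 _))) this

lemma step (hG : S.GH G) {t : Fin d → S.A} {u : S.A}
    (h1 : ∀ j, S.Lat (t j + u) → S.a (S.x₂ (t j + u)) < 0)
    (h2 : ∀ j, S.Lat (t j - u) → S.a (S.x₂ (t j - u)) ≤ 0) :
    FF G t (u + S.p) * S.PP (fun j => S.x₁ (t j)) (-S.x₁ u) =
      FF G t u * S.PP (fun j => S.x₁ (t j)) (S.x₁ u) := by
  simp only [FF, Setup.PP, ← prod_mul_distrib]
  refine prod_congr rfl fun j _ => ?_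
  have a1 := hG.shp (t j + u) fun b => by
    obtain ⟨b1, -, b2⟩ := S.pole_iff.1 b
    exact (h1 j b1).not_ge b2
  have a2 := hG.shp (t j - u + S.q) fun b => by
    obtain ⟨b1, -, b2⟩ := S.pole_iff.1 b
    have := h2 j ((S.lat_add_iff S.lat_q).1 b1)
    rw [map_add, S.x₂_q, map_add, map_neg, S.a_lam] at b2
    linarith
  rw [← add_assoc, a1, add_right_comm (t j - u), a2,
    show t j - (u + S.p) + S.p + S.q = t j - u + S.q by abel]
  simp only [map_add, S.x₁_q, add_zero, sub_eq_add_neg, map_neg]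
  ring

lemma sum_eq (a : ℂ) (N : ℕ) : ∑ i ∈ range N, (a - 2 * i) = N * a - N * (N - 1) := by
  induction N with
  | zero => simp
  | succ N ih => rw [sum_range_succ, ih]; push_cast; ring

lemma prod_eq (hT : S.TH) {P : ℂ → ℂ} (hd : Even d) (hP : S.Sec d P) {η : ℂ} {N : ℕ}
    (hm : 2 * η + (N - 1) * S.lam ∈ S.M) :
    ∏ i ∈ range N, P (η + i * S.lam) = ∏ i ∈ range N, P (-(η + i * S.lam)) := by
  obtain ⟨k, rfl⟩ := hd
  have e : ∀ i ∈ range N, P (η + (N - 1 - i : ℕ) * S.lam) = Complex.exp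
      (k * S.η (2 * η + (N - 1) * S.lam) * S.lam * (N - 1 - 2 * i)) * P (-(η + i * S.lam)) := by
    intro i hi
    have := mem_range.1 hi
    have h := hP.2 _ hm (-(η + i * S.lam))
    rw [← two_mul, pow_mul, hT.mult_sq _ hm, ← Complex.exp_nat_mul] at h
    rw [Nat.cast_sub (by omega), Nat.cast_sub (by omega)]
    refine (congrArg P (by push_cast; ring)).trans (h.trans ?_)
    congr 2
    ring
  rw [← prod_range_reflect, prod_congr rfl e, prod_mul_distrib, ← Complex.exp_sum, ← mul_sum, sum_eq]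
  simp

lemma main (hT : S.TH) (hG : S.GH G) {t : Fin d → S.A} (hd : Even d)
    (hP : S.Sec d (S.PP fun j => S.x₁ (t j))) {u : S.A} {N : ℕ}
    (h1 : ∀ j, S.Lat (t j + u) → S.a (S.x₂ (t j + u)) < 0)
    (h2 : ∀ j, S.Lat (t j - u) → S.a (S.x₂ (t j - u)) ≤ 0 ∧ S.a (S.x₁ (t j - u)) < 0)
    (hm : 2 * S.x₁ u + (N - 1) * S.lam ∈ S.M) : FF G t (u + N • S.p) = FF G t u := by
  have key : ∀ n : ℕ, FF G t (u + n • S.p) *
      ∏ i ∈ range n, S.PP (fun j => S.x₁ (t j)) (-(S.x₁ u + i * S.lam)) =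
      FF G t u * ∏ i ∈ range n, S.PP (fun j => S.x₁ (t j)) (S.x₁ u + i * S.lam) := fun n => by
    induction n with
    | zero => simp
    | succ n ih =>
      have := step hG (t := t) (u := u + n • S.p) (fun j b => by
        rw [← add_assoc] at b ⊢
        simpa using h1 j ((S.lat_add_iff (S.lat_p.nsmul n)).1 b)) fun j b => by
        simpa using (h2 j (by simpa [← sub_sub] using b.add (S.lat_p.nsmul n))).1
      simp only [map_add, map_nsmul, S.x₁_p, nsmul_eq_mul] at this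
      rw [prod_range_succ, prod_range_succ, succ_nsmul, ← add_assoc]
      linear_combination (∏ i ∈ range n, S.PP (fun j => S.x₁ (t j)) (-(S.x₁ u + i * S.lam))) * this +
        S.PP (fun j => S.x₁ (t j)) (S.x₁ u + n * S.lam) * ih
  have := key N
  rw [prod_eq hT hd hP hm] at this
  refine mul_right_cancel₀ (prod_ne_zero_iff.2 fun i _ => prod_ne_zero_iff.2 fun j _ b => ?_) this
  obtain ⟨b1, b2⟩ := S.mem_M.1 ((hT.zero_iff _).1 b)
  have e : S.x₁ (t j - u) = S.x₁ (t j) + -(S.x₁ u + i * S.lam) + i * S.lam := by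
    rw [map_sub]; ring
  have := (h2 j (by
    rw [Setup.Lat, e]
    exact S.L.add_mem b1 (by simpa using S.L.nsmul_mem S.lam_mem i))).2
  rw [e, map_add, b2, S.a_nat_mul, S.a_lam] at this
  linarith [Nat.cast_nonneg (α := ℚ) i]

end Merge

open Merge in
theorem merge_thm (hwper : S_WPER) (hosec : S_OSEC) : S_MERGE := by
  intro S hT G hG d t y y' hd ht m1 m2 hl hk h1 h2
  have hP := ((hosec S hT).2.2.1 d (fun j => S.x₁ (t j)) hd (by rw [← map_sum, ht, map_zero])).1
  have l1 : S.Lat (y' + S.q - y) := by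
    have := S.lat_q.sub hl
    rwa [show S.q - (y - y') = y' + S.q - y by abel] at this
  have e1 := S.eq_red (y' + S.q - y)
  have hω := S.red_mem l1
  have e2 : S.a (S.x₂ (y' + S.q - y)) = 0 := by
    have : S.kk (y' + S.q - y) = 0 := by simp [hk]
    rwa [S.kk_def, neg_eq_zero] at this
  rw [e2, Int.floor_zero, zero_smul, sub_zero] at e1
  generalize S.red (y' + S.q - y) = ω at e1 hω
  generalize ⌊S.a (S.x₁ (y' + S.q - y))⌋ = n at e1
  have e3 : y' + S.q = y + n • S.p + ω := by rw [sub_eq_iff_eq_add.1 e1]; abel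
  have e4 : S.x₁ y' = S.x₁ y + n * S.lam + S.x₁ ω := by simpa using congrArg S.x₁ e3
  have e5 : S.x₂ y' = S.x₂ y + S.x₂ ω + S.lam := by
    have := congrArg S.x₂ e3
    simp at this
    linear_combination this
  have hm : 2 * S.x₁ y + (n - 1) * S.lam ∈ S.M := by
    have := S.M.add_mem (S.M.sub_mem (S.M.add_mem m1 m2) hω.1) hω.2
    rwa [show S.x₁ y + S.x₂ y + (S.x₁ y' - S.x₂ y') - S.x₁ ω + S.x₂ ω =
      2 * S.x₁ y + (n - 1) * S.lam by rw [e4, e5]; ring] at this
  have e6 : ∏ j, (G (t j + y' + S.q) * G (t j - y' + S.p)) = FF G t (y' + S.q) :=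
    prod_congr rfl fun j _ => by congr 2 <;> abel
  rw [e6, e3, per hwper hT hG hd ht hω]
  obtain ⟨N, rfl | rfl⟩ := n.eq_nat_or_neg
  · rw [natCast_zsmul]
    exact (main hT hG hd hP (fun j b => (h1 j b).1) (fun j b => ⟨(h2 j b).1, (h2 j b).2.1⟩)
      (by simpa using hm)).symm
  · have := main hT hG hd hP (u := y + (-(N : ℤ)) • S.p) (N := N) (fun j b => by
      rw [← add_assoc] at b ⊢
      simpa using (h1 j ((S.lat_add_iff (S.lat_p.zsmul _)).1 b)).1) (fun j b => by
      have b' := h2 j (by simpa [← sub_sub] using b.add (S.lat_p.zsmul (-(N : ℤ))))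
      refine ⟨by simpa using b'.1, b'.2.2.trans_eq' ?_⟩
      have := (S.mem_M.1 hω.1).2
      simp [e4, this]) (by
      refine (congrArg (· ∈ S.M) ?_).mp hm
      simp
      ring)
    rw [← this, neg_smul, natCast_zsmul, neg_add_cancel_right]
    rfl

end Pool.Agent.P.MP_29cb78_nt.E
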