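import Pool.Agent.P.MP_29cb78_nt.E.Iface

/-!
Odd sections of degree four and six.
-/

namespace Pool.Agent.P.MP_29cb78_nt.E

open Filter Topology

namespace Osec

/-- All zeros are simple. -/
def Simp (g : ℂ → ℂ) : Prop := ∀ z, g z = 0 → deriv g z ≠ 0

lemma quot {f g : ℂ → ℂ} (hf : Differentiable ℂ f) (hg : Differentiable ℂ g) (sg : Simp g)
    (h0 : ∀ z, g z = 0 → f z = 0) : ∃ h : ℂ → ℂ, Differentiable ℂ h ∧ ∀ z, f z = h z * g z := by
  classical
  refine ⟨fun z => if g z = 0 then deriv f z / deriv g z else f z / g z, fun z => ?_, fun z => ?_⟩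
  · by_cases hz : g z = 0
    · have d1 : DifferentiableAt ℂ (dslope f z) z :=
        ((Complex.differentiableOn_dslope (s := Set.univ) univ_mem).2
          hf.differentiableOn).differentiableAt univ_mem
      have d2 : DifferentiableAt ℂ (dslope g z) z :=
        ((Complex.differentiableOn_dslope (s := Set.univ) univ_mem).2
          hg.differentiableOn).differentiableAt univ_mem
      have n2 : dslope g z z ≠ 0 := by rw [dslope_same]; exact sg z hz
      refine (d1.div d2 n2).congr_of_eventuallyEq ?_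
      filter_upwards [d2.continuousAt.eventually_ne n2] with u hu
      by_cases uz : u = z
      · subst uz; simp [hz]
      have e1 := sub_smul_dslope f z u
      have e2 := sub_smul_dslope g z u
      rw [h0 z hz, sub_zero, smul_eq_mul] at e1
      rw [hz, sub_zero, smul_eq_mul] at e2
      have n3 : u - z ≠ 0 := sub_ne_zero.2 uz
      have n4 : g u ≠ 0 := e2 ▸ mul_ne_zero n3 hu
      simp only [n4, if_false, Pi.div_apply]
      rw [← e1, ← e2, mul_div_mul_left _ _ n3]
    · refine ((hf z).div (hg z) hz).congr_of_eventuallyEq ?_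
      filter_upwards [(hg z).continuousAt.eventually_ne hz] with u hu
      simp [hu]
  · by_cases hz : g z = 0
    · simp [hz, h0 z hz]
    · simp [hz]

lemma simp_mul {f g : ℂ → ℂ} (hf : Differentiable ℂ f) (hg : Differentiable ℂ g) (sf : Simp f)
    (sg : Simp g) (h : ∀ z, f z = 0 → g z ≠ 0) : Simp fun z => f z * g z := by
  intro z hz
  rw [deriv_fun_mul (hf z) (hg z)]
  rcases mul_eq_zero.1 hz with k | k
  · simpa [k] using ⟨sf z k, h z k⟩
  · simpa [k] using ⟨fun j => h z j k, sg z k⟩

variable {S : Setup}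

lemma prop (T : S.TH) {d : ℕ} {f g : ℂ → ℂ} (hf : S.Sec d f) (hg : S.Sec d g) (sg : Simp g)
    (h0 : ∀ z, g z = 0 → f z = 0) : ∃ c : ℂ, ∀ y, f y = c * g y := by
  obtain ⟨h, dh, e⟩ := quot hf.1 hg.1 sg h0
  refine ⟨h 0, fun y => (e y).trans (congrArg (· * g y) (T.liou h dh (fun m hm z => ?_) y 0))⟩
  have k : ∀ u, (h (u + m) - h u) * g u = 0 := fun u => by
    have a := hf.2 m hm u
    rw [e, e u, hg.2 m hm u] at a
    refine mul_left_cancel₀ (pow_ne_zero d (T.mult_ne m hm u)) ?_
    linear_combination a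
  by_cases hz : g z = 0
  · have d1 : DifferentiableAt ℂ (fun u => h (u + m) - h u) z := by fun_prop
    have := deriv_fun_mul d1 (hg.1 z)
    simp only [k, deriv_const', hz, mul_zero, zero_add] at this
    exact sub_eq_zero.1 ((mul_eq_zero.1 this.symm).resolve_right (sg z hz))
  · exact sub_eq_zero.1 ((mul_eq_zero.1 (k z)).resolve_right hz)

lemma mult_add (m s y : ℂ) : S.mult m (s + y) = S.mult m y * Complex.exp (S.η m * s) := by
  rw [Setup.mult, Setup.mult, mul_add, Complex.exp_add]; ring

lemma mult_neg (T : S.TH) (m z : ℂ) : S.mult (-m) (-z) = S.mult m z := by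
  have e : deriv S.ϑ (-m) = deriv S.ϑ m := by
    have a := deriv_comp_neg S.ϑ m
    simp only [T.odd, deriv.fun_neg] at a
    exact (neg_inj.1 a).symm
  rw [Setup.mult, Setup.mult, e, map_neg, neg_mul_neg]

lemma sec_neg (T : S.TH) {d : ℕ} {f : ℂ → ℂ} (hf : S.Sec d f) : S.Sec d fun y => f (-y) :=
  ⟨hf.1.comp differentiable_neg, fun m hm z => by
    simp only [neg_add]
    rw [hf.2 _ (S.M.neg_mem hm), mult_neg T]⟩

lemma sec_pp (T : S.TH) {d : ℕ} (σ : Fin d → ℂ) (h : ∑ j, σ j = 0) : S.Sec d (S.PP σ) := by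
  refine ⟨?_, fun m hm z => ?_⟩
  · have := T.diff
    unfold Setup.PP
    fun_prop
  · simp only [Setup.PP, ← add_assoc, T.shift m hm, mult_add, Finset.prod_mul_distrib,
      Finset.prod_const, Finset.card_univ, Fintype.card_fin, ← Complex.exp_sum, ← Finset.mul_sum, h]
    simp

lemma sec_two (T : S.TH) : S.Sec 4 fun y => S.ϑ (2 * y) :=
  ⟨T.diff.comp (by fun_prop), fun m hm z => by
    have : 2 * m ∈ S.M := by rw [two_mul]; exact S.M.add_mem hm hm
    simp only [mul_add]
    rw [T.shift _ this, T.mult_two m hm]⟩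

lemma sec_ff (T : S.TH) (α : ℂ) : S.Sec 6 (S.ff α) := by
  refine ⟨?_, fun m hm z => ?_⟩
  · have := T.diff
    unfold Setup.ff
    fun_prop
  · have a := (sec_pp T ![α, -α] (by simp)).2 m hm z
    have b := (sec_two T).2 m hm z
    simp only [Setup.PP, Fin.prod_univ_two, Matrix.cons_val_zero, Matrix.cons_val_one] at a
    have o : ∀ u, S.ϑ (α - u) = -S.ϑ (-α + u) := fun u => by
      rw [← T.odd]; congr 1; ring
    simp only [Setup.ff, o, b]
    linear_combination (-(S.mult m z ^ 4 * S.ϑ (2 * z))) * a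

lemma van {k : ℕ} (T : S.TH) {f : ℂ → ℂ} (hf : S.Sec (2 * k) f) (o : ∀ y, f (-y) = -f y) {y : ℂ}
    (hy : 2 * y ∈ S.M) : f y = 0 := by
  have a := hf.2 _ hy (-y)
  rw [pow_mul, T.mult_sq _ hy, o, show -y + 2 * y = y by ring,
    show 2 * -y + 2 * y = 0 by ring] at a
  simp only [mul_zero, Complex.exp_zero, one_pow, one_mul] at a
  linear_combination a / 2

lemma simp_two (T : S.TH) : Simp fun y => S.ϑ (2 * y) := fun z hz => by
  rw [deriv_comp_mul_left, smul_eq_mul]
  exact mul_ne_zero two_ne_zero (T.deriv_ne _ ((T.zero_iff _).1 hz))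

end Osec

open Osec in
theorem osec_thm : S_OSEC := by
  intro S T
  refine ⟨fun f hf o => prop T hf (sec_two T) (simp_two T) fun z hz =>
      van (k := 2) T hf o ((T.zero_iff _).1 hz), fun f α hf o ha f0 => ?_,
    fun d σ _ h => ⟨sec_pp T σ h, sec_neg T (sec_pp T σ h), ?_⟩, sec_ff T, sec_two T⟩
  · have D := T.diff
    have s1 : Simp fun y => S.ϑ (α + y) := fun z hz => by
      rw [deriv_comp_const_add]
      exact T.deriv_ne _ ((T.zero_iff _).1 hz)
    have s2 : Simp fun y => S.ϑ (α - y) := fun z hz => by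
      rw [deriv_comp_const_sub]
      exact neg_ne_zero.2 (T.deriv_ne _ ((T.zero_iff _).1 hz))
    refine prop T hf (sec_ff T α) (simp_mul (by fun_prop) (by fun_prop)
      (simp_mul (by fun_prop) (by fun_prop) s1 s2 fun z h1 h2 => ha ?_) (simp_two T)
      fun z h1 h2 => ha ?_) fun z hz => ?_
    · have := S.M.add_mem ((T.zero_iff _).1 h1) ((T.zero_iff _).1 h2)
      rwa [show α + z + (α - z) = 2 * α by ring] at this
    · have h2 := (T.zero_iff _).1 h2
      rcases mul_eq_zero.1 h1 with k | k
      · have k := (T.zero_iff _).1 k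
        have := S.M.sub_mem (S.M.add_mem k k) h2
        rwa [show α + z + (α + z) - 2 * z = 2 * α by ring] at this
      · have k := (T.zero_iff _).1 k
        have := S.M.add_mem (S.M.add_mem k k) h2
        rwa [show α - z + (α - z) + 2 * z = 2 * α by ring] at this
    · rcases mul_eq_zero.1 hz with k | k
      · rcases mul_eq_zero.1 k with k | k
        · have a := hf.2 _ ((T.zero_iff _).1 k) (-α)
          rwa [o, f0, neg_zero, mul_zero, show -α + (α + z) = z by ring] at a
        · have a := hf.2 _ (S.M.neg_mem ((T.zero_iff _).1 k)) α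
          rwa [f0, mul_zero, show α + -(α - z) = z by ring] at a
      · exact van (k := 3) T hf o ((T.zero_iff _).1 k)
  · have a := sec_pp T σ h
    have b := sec_neg T a
    refine ⟨a.1.sub b.1, fun m hm z => ?_⟩
    have b2 := b.2 m hm z
    simp only [Setup.Pm, a.2 m hm z, b2]
    ring

end Pool.Agent.P.MP_29cb78_nt.E
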