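import Pool.Agent.P.MP_29cb78_nt.E.Basic

/-! The correcting factor. -/

namespace Pool.Agent.P.MP_29cb78_nt.E

open Filter Topology

namespace Psi

/-- The product of `a j` from `0` to `k`. -/
noncomputable def zp (a : ℤ → ℂ) (k : ℤ) : ℂ :=
  (∏ j ∈ Finset.range k.toNat, a j) / ∏ j ∈ Finset.range (-k).toNat, a (-(j + 1))

lemma zp_zero (a : ℤ → ℂ) : zp a 0 = 1 := by simp [zp]

lemma zp_succ {a : ℤ → ℂ} (ha : ∀ j, a j ≠ 0) (k : ℤ) : zp a (k + 1) = a k * zp a k := by
  rcases le_or_gt 0 k with h | h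
  · obtain ⟨n, rfl⟩ := Int.eq_ofNat_of_zero_le h
    have e1 : ((n : ℤ) + 1).toNat = n + 1 := by omega
    have e2 : (-((n : ℤ) + 1)).toNat = 0 := by omega
    have e3 : (-(n : ℤ)).toNat = 0 := by omega
    simp only [zp, e1, e2, e3, Int.toNat_natCast, Finset.prod_range_succ, Finset.range_zero,
      Finset.prod_empty, div_one, mul_comm]
  · obtain ⟨n, rfl⟩ : ∃ n : ℕ, k = -(n + 1) := ⟨(-k - 1).toNat, by omega⟩
    have e1 : (-((n : ℤ) + 1) + 1).toNat = 0 := by omega
    have e2 : (-(-((n : ℤ) + 1) + 1)).toNat = n := by omega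
    have e3 : (-((n : ℤ) + 1)).toNat = 0 := by omega
    have e4 : (-(-((n : ℤ) + 1))).toNat = n + 1 := by omega
    simp only [zp, e1, e2, e3, e4, Finset.prod_range_succ, Finset.range_zero, Finset.prod_empty]
    have := ha (-(n + 1))
    field_simp

lemma level (S : Setup) (nc : ℤ) {P : S.A → Prop} (h0 : ∀ x, S.n x = nc → P x)
    (hs : ∀ x, P (x + S.p) ↔ P x) (x : S.A) : P x := by
  have : ∀ k : ℤ, ∀ x, S.n x = nc + k → P x := fun k => by
    induction k using Int.induction_on with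
    | zero => exact fun x hx => h0 x (by simpa using hx)
    | succ k ih =>
      intro x hx
      have := (hs _).2 (ih (x - S.p) (by rw [map_sub, S.n_p]; omega))
      rwa [sub_add_cancel] at this
    | pred k ih => exact fun x hx => (hs _).1 (ih (x + S.p) (by rw [map_add, S.n_p]; omega))
  exact this (S.n x - nc) x (by ring)

lemma ne {S : Setup} {g : S.A → ℂ} (hg : S.ExpQ g) (x : S.A) : g x ≠ 0 := by
  obtain ⟨a, b, c, h⟩ := hg x
  have := h 0
  rw [map_zero, add_zero] at this
  rw [this]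
  exact Complex.exp_ne_zero _

lemma cont {S : Setup} {g : S.A → ℂ} (hg : S.ExpQ g) (x : S.A) :
    Continuous fun z => g (x + S.ι z) := by
  obtain ⟨a, b, c, h⟩ := hg x
  simp only [h]
  fun_prop

lemma refl {S : Setup} (hT : S.TH) {g : S.A → ℂ} (hg : S.ExpQ g)
    (h : ∀ x, S.ϑ (S.x₁ x) = g x * S.θw S.q x) (x : S.A) : g (S.q - x) = -g x := by
  have k : ∀ y, S.x₁ y ∉ S.M → g (S.q - y) + g y = 0 := fun y hy => by
    have a1 := h y
    have a2 := h (S.q - y)
    have a3 : S.θw S.q (S.q - y) = S.θw S.q y := by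
      simp only [Setup.θw, sub_sub_cancel, mul_comm]
    have a4 : S.θw S.q y ≠ 0 := fun e => hy ((hT.zero_iff _).1 (by rw [a1, e, mul_zero]))
    rw [a3, map_sub, S.x₁_q, zero_sub, hT.odd, a1] at a2
    exact (mul_eq_zero.1 (by linear_combination -a2)).resolve_right a4
  have c1 : Continuous fun z => g (S.q - (x + S.ι z)) + g (x + S.ι z) := by
    refine Continuous.add ?_ (cont hg x)
    convert (cont hg (S.q - x)).comp continuous_neg using 2 with z
    simp only [Function.comp, map_neg]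
    congr 1
    abel
  have c2 := tendsto_nhds_unique ((c1.tendsto 0).mono_left (nhdsWithin_le_nhds (s := {0}ᶜ)))
    (tendsto_const_nhds.congr' ((hT.disc_affine (S.x₁ x) S.ε_ne).mono fun z hz =>
      (k _ (by simpa using hz)).symm))
  simp only [map_zero, add_zero] at c2
  linear_combination c2

end Psi

open Psi in
theorem psi_thm (hthq : S_THQ) (_hdn : S_DN) : S_PSI := by
  intro S hT
  obtain ⟨g, hg, h⟩ := hthq S hT
  obtain ⟨k, hk⟩ := S.n_q_odd
  obtain ⟨ψ, h1, h2⟩ : ∃ ψ : S.A → ℂ, (∀ x, S.n x = k + 1 → ψ x = 1) ∧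
      ∀ x, ψ (x + S.p) = g x * ψ x := by
    refine ⟨fun x => zp (fun j => g (x - (S.n x - (k + 1)) • S.p + j • S.p)) (S.n x - (k + 1)),
      fun x hx => by simp only [hx, sub_self, zp_zero], fun x => ?_⟩
    have e1 : S.n (x + S.p) - (k + 1) = S.n x - (k + 1) + 1 := by rw [map_add, S.n_p]; ring
    have e2 : x + S.p - (S.n x - (k + 1) + 1) • S.p = x - (S.n x - (k + 1)) • S.p := by
      rw [add_zsmul, one_zsmul]; abel
    simp only [e1, e2]
    rw [zp_succ fun j => ne hg _, sub_add_cancel]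
  refine ⟨k + 1, ψ, ⟨by omega, level S (k + 1) (fun x hx => ⟨0, 0, 0, fun z => ?_⟩) fun x => ?_,
    h1, fun x => by rw [h2, h]; ring⟩, level S (k + 1) (fun x hx => ?_) fun x => ?_⟩
  · rw [h1 _ (by simpa using hx)]; simp
  · obtain ⟨a, b, c, e⟩ := hg x
    simp only [add_right_comm x S.p, h2, e]
    constructor
    · rintro ⟨a', b', c', e'⟩
      refine ⟨a' - a, b' - b, c' - c, fun z => mul_left_cancel₀
        (Complex.exp_ne_zero (a + b * z + c * z ^ 2)) ?_⟩
      rw [e', ← Complex.exp_add]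
      congr 1; ring
    · rintro ⟨a', b', c', e'⟩
      refine ⟨a' + a, b' + b, c' + c, fun z => ?_⟩
      rw [e', ← Complex.exp_add]
      congr 1; ring
  · rw [h1 x hx, h1 _ (by rw [map_sub, map_add, S.n_p]; omega), hx]; simp
  · have e1 : S.p + S.q - (x + S.p) = S.q - x := by abel
    have e2 : S.p + S.q - x = S.q - x + S.p := by abel
    have e3 : S.n (x + S.p) - (k + 1) = S.n x - (k + 1) + 1 := by rw [map_add, S.n_p]; ring
    rw [e1, e2, e3, h2, h2, refl hT hg h, zpow_add_one₀ (by norm_num)]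
    constructor <;> intro e <;> linear_combination -e

end Pool.Agent.P.MP_29cb78_nt.E
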