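import Pool.Agent.P.MP_29cb78_nt.E.Iface

/-!
Properties of the residue.
-/

namespace Pool.Agent.P.MP_29cb78_nt.E

open Filter Topology Metric Set
open scoped Real

namespace Res0

lemma ev {P : ℂ → Prop} {x : ℂ} (h : ∀ᶠ z in 𝓝[≠] x, P z) :
    ∀ᶠ r in 𝓝[>] (0 : ℝ), 0 < r ∧ ∀ z ∈ closedBall x r \ {x}, P z := by
  obtain ⟨R, hR, h⟩ := Metric.eventually_nhds_iff.1 (eventually_nhdsWithin_iff.1 h)
  filter_upwards [Ioo_mem_nhdsGT hR] with r hr
  exact ⟨hr.1, fun z hz => h (lt_of_le_of_lt hz.1 hr.2) hz.2⟩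

lemma sph {x : ℂ} {r : ℝ} (hr : 0 < r) : sphere x r ⊆ closedBall x r \ {x} :=
  fun _ hz => ⟨sphere_subset_closedBall hz, ne_of_mem_sphere hz hr.ne'⟩

lemma res_eq {g : ℂ → ℂ} {x c : ℂ}
    (h : ∀ᶠ r in 𝓝[>] (0 : ℝ), (∮ z in C(x, r), g z) = 2 * π * Complex.I * c) : res g x = c := by
  refine Tendsto.limUnder_eq (tendsto_const_nhds.congr' (h.mono fun r hr => ?_))
  simp only [hr, inv_mul_cancel_left₀ Complex.two_pi_I_ne_zero]

lemma main {g : ℂ → ℂ} {x : ℂ} (hg : MeromorphicAt g x) :
    ∀ᶠ r in 𝓝[>] (0 : ℝ), (∮ z in C(x, r), g z) = 2 * π * Complex.I * res g x := by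
  obtain ⟨R, hR, h⟩ := (ev hg.eventually_analyticAt).exists
  have e : ∀ᶠ r in 𝓝[>] (0 : ℝ), (∮ z in C(x, r), g z) =
      2 * π * Complex.I * ((2 * π * Complex.I)⁻¹ * ∮ z in C(x, R), g z) := by
    filter_upwards [Ioo_mem_nhdsGT hR] with r hr
    have s : closedBall x R \ ball x r ⊆ closedBall x R \ {x} :=
      fun z hz => ⟨hz.1, fun e => hz.2 (e ▸ mem_ball_self hr.1)⟩
    rw [mul_inv_cancel_left₀ Complex.two_pi_I_ne_zero]
    exact (Complex.circleIntegral_eq_of_differentiable_on_annulus_off_countable hr.1 hr.2.le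
      countable_empty (fun z hz => (h z (s hz)).continuousAt.continuousWithinAt) fun z hz =>
        (h z (s ⟨ball_subset_closedBall hz.1.1, fun e => hz.1.2 (ball_subset_closedBall e)⟩)
          ).differentiableAt).symm
  rwa [res_eq e]

lemma int {g : ℂ → ℂ} {x : ℂ} (hg : MeromorphicAt g x) :
    ∀ᶠ r in 𝓝[>] (0 : ℝ), CircleIntegrable g x r :=
  (ev hg.eventually_analyticAt).mono fun _ hr => ContinuousOn.circleIntegrable hr.1.le
    fun z hz => (hr.2 z (sph hr.1 hz)).continuousAt.continuousWithinAt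

lemma simple {f : ℂ → ℂ} {x c : ℂ} (hf : MeromorphicAt f x)
    (h : Tendsto (fun z => (z - x) * f z) (𝓝[≠] x) (𝓝 c)) : res f x = c := by
  refine res_eq ((ev hf.eventually_analyticAt).mono fun r hr => ?_)
  have a : ∀ z ∈ closedBall x r \ {x}, AnalyticAt ℂ (fun z => (z - x) * f z) z :=
    fun z hz => (analyticAt_id.sub analyticAt_const).mul (hr.2 z hz)
  rw [← smul_eq_mul _ c,
    ← Complex.circleIntegral_sub_center_inv_smul_of_differentiable_on_off_countable_of_tendsto hr.1
      countable_empty (fun z hz => (a z hz).continuousAt.continuousWithinAt)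
      (fun z hz => (a z ⟨ball_subset_closedBall hz.1.1, hz.1.2⟩).differentiableAt) h]
  refine circleIntegral.integral_congr hr.1.le fun z hz => ?_
  simp only [smul_eq_mul, inv_mul_cancel_left₀ (sub_ne_zero.2 (ne_of_mem_sphere hz hr.1.ne'))]

end Res0

open Res0 in
theorem res0_thm : S_RES0 := by
  refine ⟨fun g x hg => main hg, fun f g x h => ?_, fun f g x hf hg => res_eq ?_,
    fun f x c hf => res_eq ?_, fun f x y => ?_, fun f x r hf h => simple hf ?_,
    fun f x hf ⟨c, h⟩ => simple hf ?_, fun f x hf => res_eq ?_⟩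
  · unfold res limUnder
    rw [Filter.map_congr ((ev h).mono fun r hr => ?_)]
    rw [circleIntegral.integral_congr hr.1.le fun z hz => hr.2 z (sph hr.1 hz)]
  · filter_upwards [main hf, main hg, int hf, int hg] with r h1 h2 h3 h4
    rw [circleIntegral.integral_add h3 h4, h1, h2, mul_add]
  · filter_upwards [main hf] with r h1
    rw [circleIntegral.integral_const_mul, h1, mul_left_comm]
  · unfold res
    congr 1
    funext r
    simp only [circleIntegral, deriv_circleMap, circleMap, add_right_comm x _ y]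
  · have t : Tendsto (fun z => z - x) (𝓝[≠] x) (𝓝[≠] 0) :=
      tendsto_nhdsWithin_iff.2 ⟨((continuous_sub_right x).tendsto' x 0 (sub_self x)).mono_left
        nhdsWithin_le_nhds, eventually_nhdsWithin_of_forall fun z hz => sub_ne_zero.2 hz⟩
    simpa [Function.comp_def] using h.comp t
  · simpa using (((continuous_sub_right x).tendsto' x 0 (sub_self x)).mono_left
      nhdsWithin_le_nhds).mul h
  · filter_upwards [ev hf.eventually_analyticAt] with r hr
    rw [mul_zero]
    exact circleIntegral.integral_eq_zero_of_hasDerivWithinAt hr.1.le fun z hz =>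
      (hr.2 z (sph hr.1 hz)).differentiableAt.hasDerivAt.hasDerivWithinAt

end Pool.Agent.P.MP_29cb78_nt.E
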