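import Pool.Agent.P.MP_29cb78_nt.E.Iface

namespace Pool.Agent.P.MP_29cb78_nt.E

namespace Res4

variable {S : Setup} {d : ℕ} {f g : ℂ → ℂ}

theorem sec_add (hf : S.Sec d f) (hg : S.Sec d g) : S.Sec d fun y => f y + g y :=
  ⟨hf.1.add hg.1, fun m hm z => by simp only [hf.2 m hm, hg.2 m hm, mul_add]⟩

theorem sec_mul (c : ℂ) (hf : S.Sec d f) : S.Sec d fun y => c * f y :=
  ⟨hf.1.const_mul c, fun m hm z => by simp only [hf.2 m hm, mul_left_comm]⟩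

theorem PP_ne (h : S.TH) {σ : Fin d → ℂ} {y : ℂ} (hy : ∀ j, σ j + y ∉ S.M) : S.PP σ y ≠ 0 :=
  Finset.prod_ne_zero_iff.2 fun j _ h0 => hy j ((h.zero_iff _).1 h0)

theorem PP_neg (h : S.TH) (σ : Fin d → ℂ) (a : Fin d) : S.PP σ (-σ a) = 0 :=
  Finset.prod_eq_zero (Finset.mem_univ a) ((h.zero_iff _).2 (by simp))

theorem Pm_self (h : S.TH) (σ : Fin d → ℂ) (a : Fin d) : S.Pm σ (σ a) = S.PP σ (σ a) := by
  rw [Setup.Pm, PP_neg h, sub_zero]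

theorem Pm_odd (σ : Fin d → ℂ) (y : ℂ) : S.Pm σ (-y) = -S.Pm σ y := by
  simp [Setup.Pm]

end Res4

open Res4 in
theorem res4_thm (hosec : S_OSEC) (hbent : S_BENT) : S_RES4 := by
  intro S h σ hσ h0
  obtain ⟨o1, -, o3, -⟩ := hosec S h
  obtain ⟨-, b2, b3⟩ := hbent S h 4 σ (by decide) (by decide) hσ
  obtain ⟨f₀, f1, -, f3, -⟩ := b3 0
  have hP := (o3 4 σ (by decide) hσ).2.2
  obtain ⟨c₄, hc₄⟩ := o1 _ hP (Pm_odd σ)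
  have hp : S.PP σ (σ 0) ≠ 0 := PP_ne h fun j => add_comm (σ 0) _ ▸ h0 j
  have ht : S.ϑ (2 * σ 0) ≠ 0 := fun h1 => h0 0 (two_mul (σ 0) ▸ (h.zero_iff _).1 h1)
  refine ⟨_, sec_add f1 (sec_mul (S.GG σ (σ 0) / S.PP σ (σ 0)) hP), fun y₁ y₂ h1 h2 h3 h4 h5 => ?_⟩
  obtain ⟨f, g1, g2, g3⟩ := b2 y₂ h3
  obtain ⟨c, hc⟩ := o1 f g1 g2
  have e1 := (g3 _ h4 h5).symm.trans (f3 _ h4 h5)
  have e2 := (Pm_self h σ 0).symm.trans (hc₄ _)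
  have e3 : c = c₄ * (f₀ y₂ + S.GG σ (σ 0) / S.PP σ (σ 0) * S.Pm σ y₂) := by
    refine mul_right_cancel₀ ht ?_
    rw [← hc, e1, mul_right_comm, ← e2]
    field_simp
  rw [g3 _ h1 h2, hc, hc₄ y₁, e3]
  ring

end Pool.Agent.P.MP_29cb78_nt.E
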