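import Pool.Agent.P.MP_29cb78_nt.E.Iface

/-!
The kernel for six parameters.
-/

namespace Pool.Agent.P.MP_29cb78_nt.E

open Filter Topology

namespace Res6

variable {S : Setup}

lemma sec_lin {d : ℕ} {f g : ℂ → ℂ} (hf : S.Sec d f) (hg : S.Sec d g) (a b : ℂ) :
    S.Sec d fun y => a * f y + b * g y :=
  ⟨(hf.1.const_mul a).add (hg.1.const_mul b), fun m hm z => by
    simp only [hf.2 m hm z, hg.2 m hm z]; ring⟩

lemma pm_at (T : S.TH) {d : ℕ} (σ : Fin d → ℂ) (a : Fin d) : S.Pm σ (σ a) = S.PP σ (σ a) := by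
  have : S.PP σ (-σ a) = 0 :=
    Finset.prod_eq_zero (Finset.mem_univ a) ((T.zero_iff _).2 (by simp))
  rw [Setup.Pm, this, sub_zero]

lemma pm_odd {d : ℕ} (σ : Fin d → ℂ) (y : ℂ) : S.Pm σ (-y) = -S.Pm σ y := by
  simp [Setup.Pm]

end Res6

open Res6 in
theorem res6_thm (hosec : S_OSEC) (hbent : S_BENT) (hfs : S_FS) : S_RES6 := by
  intro S T
  obtain ⟨c, hc⟩ := hfs S T
  refine ⟨-c, fun σ hs hn h02 h13 => ?_⟩
  obtain ⟨-, o6, osec, off, -⟩ := hosec S T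
  obtain ⟨-, b2, b3⟩ := hbent S T 6 σ (by decide) (by decide) hs
  have sP := (osec 6 σ (by decide) hs).2.2
  have ne : ∀ {z}, z ∉ S.M → S.ϑ z ≠ 0 := fun h k => h ((T.zero_iff _).1 k)
  have two : ∀ j, 2 * σ j ∉ S.M := fun j => by rw [two_mul]; exact hn j j
  have nP : ∀ j, S.PP σ (σ j) ≠ 0 := fun j => Finset.prod_ne_zero_iff.2 fun l _ => ne (hn l j)
  have red : ∀ g, S.Sec 6 g → (∀ y, g (-y) = -g y) → ∀ j, ∃ e : ℂ, ∀ y,
      g y = e * S.ff (σ j) y + g (σ j) / S.PP σ (σ j) * S.Pm σ y := by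
    intro g hg og j
    obtain ⟨e, he⟩ := o6 _ (σ j) (sec_lin hg sP 1 (-(g (σ j) / S.PP σ (σ j))))
      (fun y => by simp only [og, pm_odd]; ring) (two j)
      (by have := nP j; simp only [pm_at T]; field_simp; ring)
    exact ⟨e, fun y => by linear_combination he y⟩
  obtain ⟨f0, s0, o0, e0, v0⟩ := b3 0
  obtain ⟨f2, s2, o2, e2, v2⟩ := b3 2
  obtain ⟨c', hc'⟩ := red _ (sec_lin s2 s0 1 (-1)) (fun y => by simp only [o0, o2]; ring) 1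
  have n02 : S.ff (σ 0) (σ 2) ≠ 0 :=
    mul_ne_zero (mul_ne_zero (ne (hn 0 2)) (ne h02)) (ne (two 2))
  have p0 := nP 0
  have p1 := nP 1
  refine ⟨S.PP σ (σ 2) * c' / S.ff (σ 0) (σ 2),
    fun y => 1 * f0 y + S.GG σ (σ 0) / S.PP σ (σ 0) * S.Pm σ y,
    fun y => (S.PP σ (σ 2) * ((f2 (σ 1) - f0 (σ 1)) / S.PP σ (σ 1)) + S.GG σ (σ 2) -
      S.GG σ (σ 0) * S.PP σ (σ 2) / S.PP σ (σ 0)) / S.ff (σ 0) (σ 2) * S.ff (σ 0) y +
      0 * S.ff (σ 0) y, sec_lin s0 sP _ _, sec_lin (off _) (off _) _ _, ?_, ?_⟩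
  · have a := hc' (σ 3)
    simp only [v0 3 (by decide) (hn 0 3), v2 3 (by decide) (hn 2 3), v0 1 (by decide) (hn 0 1),
      v2 1 (by decide) (hn 2 1), pm_at T] at a
    have a' : c' * S.ff (σ 1) (σ 3) = S.PP σ (σ 3) * (S.zt (σ 0 + σ 3) + S.zt (σ 2 + σ 1) -
        S.zt (σ 0 + σ 1) - S.zt (σ 2 + σ 3)) := by
      field_simp at a
      refine mul_left_cancel₀ p1 ?_
      linear_combination -a
    have b := hc (σ 0) (σ 2) (σ 1) (σ 3) (hn 0 1) (hn 0 3) (hn 2 1) (hn 2 3)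
    have e : σ 0 + σ 2 + σ 1 + σ 3 = -(σ 4 + σ 5) := by
      rw [Fin.sum_univ_six] at hs
      linear_combination hs
    rw [e, T.odd] at b
    rw [div_mul_eq_mul_div, div_eq_iff n02]
    simp only [Setup.PP, Setup.ff, Fin.prod_univ_six, two_mul, add_comm (σ 3) (σ 2),
      add_comm (σ 4) (σ 2), add_comm (σ 5) (σ 2), add_comm (σ 4) (σ 3), add_comm (σ 5) (σ 3),
      add_comm (σ 1) (σ 2)] at a' ⊢
    have m1 := ne (hn 1 3)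
    have m2 := ne (hn 3 3)
    have m3 := ne h13
    have a2 := mul_left_cancel₀ (mul_ne_zero m1 m2) (b := c' * S.ϑ (σ 1 - σ 3))
      (c := S.ϑ (σ 0 + σ 3) * S.ϑ (σ 2 + σ 3) * S.ϑ (σ 3 + σ 4) * S.ϑ (σ 3 + σ 5) *
        (S.zt (σ 0 + σ 3) + S.zt (σ 2 + σ 1) - S.zt (σ 0 + σ 1) - S.zt (σ 2 + σ 3)))
      (by linear_combination a')
    refine mul_left_cancel₀ m3 ?_
    linear_combination (S.ϑ (σ 0 + σ 2) * S.ϑ (σ 2 + σ 2) * S.ϑ (σ 2 + σ 3) * S.ϑ (σ 2 + σ 4) *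
      S.ϑ (σ 2 + σ 5)) * ((S.ϑ (σ 2 + σ 1) * S.ϑ (σ 0 + σ 1)) * a2 +
        (S.ϑ (σ 3 + σ 4) * S.ϑ (σ 3 + σ 5)) * b)
  · intro y₁ y₂ k1 k2 k3 k4
    obtain ⟨g, sg, og, eg⟩ := b2 y₂ k3
    obtain ⟨e, he⟩ := red g sg og 0
    have g0 := (eg _ (k4 0).1 (k4 0).2).symm.trans (e0 y₂ (k4 0).1 (k4 0).2)
    have g2 := (eg _ (k4 2).1 (k4 2).2).symm.trans (e2 y₂ (k4 2).1 (k4 2).2)
    have a := he (σ 2)
    have b := hc' y₂
    rw [g2, g0, pm_at T] at a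
    have ee : e = (S.PP σ (σ 2) * (c' * S.ff (σ 1) y₂ +
        (f2 (σ 1) - f0 (σ 1)) / S.PP σ (σ 1) * S.Pm σ y₂) + (S.GG σ (σ 2) -
        S.GG σ (σ 0) * S.PP σ (σ 2) / S.PP σ (σ 0)) * S.Pm σ y₂) / S.ff (σ 0) (σ 2) := by
      rw [eq_div_iff n02]
      have i0 : S.PP σ (σ 0) / S.PP σ (σ 0) = 1 := div_self p0
      linear_combination -a + S.PP σ (σ 2) * b - S.PP σ (σ 2) * f0 y₂ * i0
    rw [eg y₁ k1 k2, he y₁, g0, ee]
    field_simp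
    ring

end Pool.Agent.P.MP_29cb78_nt.E
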