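import Pool.Agent.P.MP_29cb78_nt.E.Iface

/-!
The averaged relation.
-/

namespace Pool.Agent.P.MP_29cb78_nt.E

open Filter Topology
open scoped Classical Real

noncomputable section

namespace Rig1

variable {H : Type} [AddCommGroup H]

theorem gen_cyc {s₁ s₂ s₃ w : H} (G : Gen s₁ s₂ s₃ w) : Gen s₂ s₃ s₁ w where
  sum := by rw [← G.sum]; abel
  hw := G.hw
  g₁ := G.g₂
  g₂ := G.g₃
  g₃ := G.g₁
  d₁ := G.d₂
  d₂ := G.d₃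
  d₃ := G.d₁

theorem nu_neg {Q : AddSubgroup H} {XQ : Finset H} (hQ : ∀ g, g ∈ XQ ↔ g ∈ Q) {d : H → ℂ}
    (hd : ∀ x, d (-x) = -d x) (v : H) : nu XQ d (-v) = -nu XQ d v := by
  unfold nu
  rw [← Finset.sum_neg_distrib]
  refine Finset.sum_bij' (fun x _ => -x) (fun x _ => -x) ?_ ?_ ?_ ?_ ?_
  · intro x hx
    exact (hQ _).2 (Q.neg_mem ((hQ _).1 hx))
  · intro x hx
    exact (hQ _).2 (Q.neg_mem ((hQ _).1 hx))
  · intro x _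
    exact neg_neg x
  · intro x _
    exact neg_neg x
  · intro x _
    rw [← hd, show -(v + -x) = -v + x by abel]

theorem npm_swap {Q : AddSubgroup H} {XQ : Finset H} (hQ : ∀ g, g ∈ XQ ↔ g ∈ Q) {d : H → ℂ}
    (hd : ∀ x, d (-x) = -d x) (w s t : H) : npm XQ d w (s - t) = -npm XQ d w (t - s) := by
  unfold npm
  rw [show s - t + w = -(t - s - w) by abel, show s - t - w = -(t - s + w) by abel,
    nu_neg hQ hd, nu_neg hQ hd]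
  ring

theorem dpm_swap {d : H → ℂ} (hd : ∀ x, d (-x) = -d x) (w s t : H) :
    dpm d w (s - t) = -dpm d w (t - s) := by
  unfold dpm
  rw [show s - t + w = -(t - s - w) by abel, show s - t - w = -(t - s + w) by abel,
    smul_neg, smul_neg, hd, hd]
  ring

theorem tm_eq (hrigw : S_RIGW) {P Q : AddSubgroup H} {XP XQ X : Finset H} {a μp μm : ℂ}
    {μ : H → ℂ} (d : H → ℂ) (F : FinSys P Q XP XQ X a μp μm μ) {s₁ s₂ s₃ w : H} (h₁ : s₁ ∈ P)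
    (h₂ : s₂ ∈ P) (h₃ : s₃ ∈ P) (hw : w ∈ P) (G : Gen s₁ s₂ s₃ w) :
    Tm X a μ d s₁ s₂ s₃ w =
      ∑ x ∈ X, ∑ y ∈ X, Wt P a μp μ s₁ s₂ s₃ w x y * kap d s₁ w x +
        ∑ x ∈ X, ∑ y ∈ X, Wt P a μp μ s₁ s₂ s₃ w x y * kap d s₃ x y -
        (∑ x ∈ X, ∑ y ∈ X, Wt P a μp μ s₁ s₂ s₃ w x y) * d (2 • s₃) := by
  unfold Tm
  simp only [Finset.sum_mul, ← Finset.sum_add_distrib, ← Finset.sum_sub_distrib]
  refine Finset.sum_congr rfl fun x hx => Finset.sum_congr rfl fun y hy => ?_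
  rw [hrigw H P Q XP XQ X a μp μm μ F s₁ h₁ s₂ h₂ s₃ h₃ w hw G x hx y hy, two_nsmul]
  ring

end Rig1

open Rig1 in
theorem rig1_thm (hrigw : S_RIGW) (hrigb : S_RIGB) (hrigc : S_RIGC) : S_RIG1 := by
  intro H _ P Q XP XQ X a μp μm μ d F hd s₁ h₁ s₂ h₂ s₃ h₃ w hw G
  have G' := gen_cyc G
  have G'' := gen_cyc G'
  obtain ⟨b1, c1⟩ := hrigb H P Q XP XQ X a μp μm μ d F hd s₁ h₁ s₂ h₂ s₃ h₃ w hw G
  obtain ⟨b2, c2⟩ := hrigb H P Q XP XQ X a μp μm μ d F hd s₂ h₂ s₃ h₃ s₁ h₁ w hw G'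
  obtain ⟨b3, c3⟩ := hrigb H P Q XP XQ X a μp μm μ d F hd s₃ h₃ s₁ h₁ s₂ h₂ w hw G''
  rw [tm_eq hrigw d F h₁ h₂ h₃ hw G, tm_eq hrigw d F h₂ h₃ h₁ hw G',
    tm_eq hrigw d F h₃ h₁ h₂ hw G'', b1, b2, b3, c1, c2, c3,
    hrigc H P Q XP XQ X a μp μm μ d F hd s₁ h₁ s₂ h₂ s₃ h₃ w hw G,
    hrigc H P Q XP XQ X a μp μm μ d F hd s₂ h₂ s₃ h₃ s₁ h₁ w hw G',
    hrigc H P Q XP XQ X a μp μm μ d F hd s₃ h₃ s₁ h₁ s₂ h₂ w hw G'',
    npm_swap F.mem_Q hd w s₁ s₃, npm_swap F.mem_Q hd w s₂ s₁, npm_swap F.mem_Q hd w s₃ s₂,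
    dpm_swap hd w s₁ s₃, dpm_swap hd w s₂ s₁, dpm_swap hd w s₃ s₂]
  have e : ∀ s, chw XQ a μm d w s = a * (npm XQ d w s - dpm d w s) -
      ((1 + a ^ 2) * d (2 • s) - XQ.card * μm ^ 2 * nu XQ d s) := by
    intro s
    unfold chw npm dpm
    ring
  rw [e, e, e]
  linear_combination 4 * (npm XQ d w s₁ + npm XQ d w s₂ + npm XQ d w s₃) * F.hm

end

end Pool.Agent.P.MP_29cb78_nt.E
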