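import Pool.Agent.P.MP_29cb78_nt.E.Iface

/-! The averaged relation has only the trivial solution. -/

namespace Pool.Agent.P.MP_29cb78_nt.E

namespace Rig2

variable {H : Type} [AddCommGroup H]

theorem nz {u s w : H} (h3 : 3 • u = 0) (hu : u ∉ AddSubgroup.closure {s, w}) (k a b : ℤ)
    (hk : ¬ 3 ∣ k) : k • u + a • s + b • w ≠ 0 := by
  intro h
  have hs : s ∈ AddSubgroup.closure {s, w} := AddSubgroup.subset_closure (by simp)
  have hw : w ∈ AddSubgroup.closure {s, w} := AddSubgroup.subset_closure (by simp)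
  obtain ⟨m, hm⟩ : ∃ m : ℤ, k * k = 1 + 3 * m := by
    obtain ⟨j, hj | hj⟩ : ∃ j : ℤ, k = 3 * j + 1 ∨ k = 3 * j + 2 := ⟨k / 3, by omega⟩
    · exact ⟨3 * j * j + 2 * j, by rw [hj]; ring⟩
    · exact ⟨3 * j * j + 4 * j + 1, by rw [hj]; ring⟩
  have e : u = (-(k * a)) • s + (-(k * b)) • w := by
    have e1 : (k * k) • u = u + m • (3 • u) := by rw [hm]; module
    rw [h3, smul_zero, add_zero] at e1
    have e2 : (k * k) • u = k • (k • u + a • s + b • w) + (-(k * a)) • s + (-(k * b)) • w := by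
      module
    rw [h, smul_zero, zero_add] at e2
    exact e1.symm.trans e2
  exact hu (e ▸ add_mem (AddSubgroup.zsmul_mem _ hs _) (AddSubgroup.zsmul_mem _ hw _))

theorem tele {s : H} (hs : IsOfFinAddOrder s) (u : H) (g : H → ℂ) {c : ℂ}
    (h : ∀ k : ℤ, c = g (u + k • s + s) - g (u + k • s)) : c = 0 := by
  have h1 := Finset.sum_range_sub (fun k : ℕ => g (u + k • s)) (addOrderOf s)
  rw [addOrderOf_nsmul_eq_zero, zero_nsmul, sub_self,
    Finset.sum_congr rfl (g := fun _ => c) fun k _ => by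
      rw [h k, natCast_zsmul, succ_nsmul, add_assoc]] at h1
  simpa [hs.addOrderOf_pos.ne'] using h1

theorem nu_odd {Q : AddSubgroup H} {XQ : Finset H} (hQ : ∀ g, g ∈ XQ ↔ g ∈ Q) {d : H → ℂ}
    (hd : ∀ x, d (-x) = -d x) (v : H) : nu XQ d (-v) = -nu XQ d v := by
  rw [nu, nu, ← Finset.sum_neg_distrib]
  refine Finset.sum_equiv (Equiv.neg H) (fun g => by simp [hQ]) fun g _ => ?_
  rw [← hd]
  congr 1
  simp only [Equiv.neg_apply]
  abel

end Rig2

open Rig2 in
theorem rig2_thm : S_RIG2 := by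
  intro H _ P Q XP XQ X a μp μm μ d F hd hne hex hrel
  set ψ : H → ℂ := fun v => nu XQ d v - d (2 • v) with hψ
  set φ : H → ℂ := fun v => (1 + a ^ 2) * d (2 • v) - XQ.card * μm ^ 2 * nu XQ d v with hφ
  have hc : ∀ w s, chw XQ a μm d w s = a * (ψ (s + w) + ψ (s - w)) - φ s := fun _ _ => rfl
  have oψ : ∀ v, ψ (-v) = -ψ v := fun v => by
    simp only [hψ, nu_odd F.mem_Q hd, smul_neg, hd]; ring
  have oφ : ∀ v, φ (-v) = -φ v := fun v => by
    simp only [hφ, nu_odd F.mem_Q hd, smul_neg, hd]; ring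
  have oc : ∀ w s, chw XQ a μm d w (-s) = -chw XQ a μm d w s := fun w s => by
    rw [hc, hc, show -s + w = -(s - w) by abel, show -s - w = -(s + w) by abel, oψ, oψ, oφ]; ring
  have fin : ∀ s ∈ P, IsOfFinAddOrder s := fun s hs => by
    have : Finite P := (XP.finite_toSet.subset fun g hg => (F.mem_P g).2 hg).to_subtype
    exact P.subtype.isOfFinAddOrder (isOfFinAddOrder_of_finite (⟨s, hs⟩ : P))
  have s1 : ∀ s ∈ P, ∀ w ∈ P, 2 • w ≠ 0 → Gen1 s w → chw XQ a μm d w s = 0 := by
    intro s hs w hw h2 hg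
    obtain ⟨u, hu, h3, hn⟩ := hex s w
    have z := nz h3 hn
    refine tele (fin s hs) u (chw XQ a μm d w) fun k => ?_
    have ht : u + k • s ∈ P := add_mem hu (P.zsmul_mem hs k)
    have := hrel s hs _ ht (-(u + k • s + s)) (neg_mem (add_mem ht hs)) w hw
      ⟨by abel, h2, hg,
        ⟨fun h => z 4 (4 * k) 0 (by norm_num) (by rw [← h]; module),
          fun h => z 2 (2 * k) 2 (by norm_num) (by rw [← h]; module),
          fun h => z 2 (2 * k) (-2) (by norm_num) (by rw [← h]; module)⟩,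
        ⟨fun h => z (-4) (-4 * k - 4) 0 (by norm_num) (by rw [← h]; module),
          fun h => z (-2) (-2 * k - 2) 2 (by norm_num) (by rw [← h]; module),
          fun h => z (-2) (-2 * k - 2) (-2) (by norm_num) (by rw [← h]; module)⟩,
        ⟨fun h => z 4 (4 * k + 2) 2 (by norm_num) (by rw [← h]; module),
          fun h => z 4 (4 * k + 2) (-2) (by norm_num) (by rw [← h]; module)⟩,
        ⟨fun h => z (-2) (-2 * k - 4) 2 (by norm_num) (by rw [← h]; module),
          fun h => z (-2) (-2 * k - 4) (-2) (by norm_num) (by rw [← h]; module)⟩,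
        ⟨fun h => z (-2) (2 - 2 * k) 2 (by norm_num) (by rw [← h]; module),
          fun h => z (-2) (2 - 2 * k) (-2) (by norm_num) (by rw [← h]; module)⟩⟩
    rw [oc] at this
    linear_combination this
  have s2 : ∀ s ∈ P, 4 • s ≠ 0 → φ s = 0 := by
    intro s hs h4
    obtain ⟨u, hu, h3, hn⟩ := hex s s
    have z := nz h3 hn
    refine tele (fin s hs) u (fun t => a * (ψ t + ψ (t - s))) fun k => ?_
    have := s1 s hs _ (add_mem hu (P.zsmul_mem hs k))
      (fun h => z 2 (2 * k) 0 (by norm_num) (by rw [← h]; module))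
      ⟨h4, fun h => z 2 (2 * k) 2 (by norm_num) (by rw [← h]; module),
        fun h => z (-2) (-2 * k) 2 (by norm_num) (by rw [← h]; module)⟩
    rw [hc, show s - (u + k • s) = -(u + k • s - s) by abel, oψ, add_comm s] at this
    simp only [add_sub_cancel_right]
    linear_combination -this
  intro s hs
  by_cases h4 : 4 • s = 0
  · have := hd (2 • s)
    rw [show -(2 • s : H) = 2 • s by rw [neg_eq_iff_add_eq_zero, ← h4]; module] at this
    linear_combination this / 2
  obtain ⟨u, hu, h3, hn⟩ := hex s s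
  have z := nz h3 hn
  have h2 : 2 • s ≠ 0 := fun h => h4 (by rw [show 4 • s = 2 • (2 • s) by module, h, smul_zero])
  have u4 : 4 • u ≠ 0 := fun h => z 4 0 0 (by norm_num) (by rw [← h]; module)
  have w4 : 4 • (s - u) ≠ 0 := fun h => z (-4) 4 0 (by norm_num) (by rw [← h]; module)
  have a1 := s1 u hu _ (sub_mem hs hu) (fun h => z (-2) 2 0 (by norm_num) (by rw [← h]; module))
    ⟨u4, by rwa [add_sub_cancel], fun h => z 4 (-2) 0 (by norm_num) (by rw [← h]; module)⟩
  have a2 := s1 _ (sub_mem hs hu) u hu (fun h => z 2 0 0 (by norm_num) (by rw [← h]; module))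
    ⟨w4, by rwa [sub_add_cancel], fun h => z (-4) 2 0 (by norm_num) (by rw [← h]; module)⟩
  rw [hc, s2 u hu u4, add_sub_cancel] at a1
  rw [hc, s2 _ (sub_mem hs hu) w4, sub_add_cancel, show s - u - u = -(u - (s - u)) by abel,
    oψ] at a2
  have a3 : ψ s = 0 := by
    refine mul_left_cancel₀ F.a_ne ?_
    linear_combination (a1 + a2) / 2
  have a4 := s2 s hs h4
  simp only [hψ, hφ] at a3 a4
  refine mul_left_cancel₀ (sub_ne_zero.2 hne) ?_
  linear_combination a4 + XQ.card * μm ^ 2 * a3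

end Pool.Agent.P.MP_29cb78_nt.E
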