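import Pool.Agent.P.MP_29cb78_nt.E.Iface

/-!
The total weight and the edge at the fixed spin.
-/

namespace Pool.Agent.P.MP_29cb78_nt.E

open Filter Topology
open scoped Classical Real

noncomputable section

namespace Rigb

variable {H : Type} [AddCommGroup H]

theorem Nz_comm (s x y : H) : Nz s x y = Nz s y x := by
  unfold Nz
  rw [show s + y + x = s + x + y by abel, show s + y - x = s - x + y by abel,
    show s - y + x = s + x - y by abel, show s - y - x = s - x - y by abel]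
  ring

theorem Nz_neg (s x y : H) : Nz s x (-y) = Nz s x y := by
  unfold Nz
  rw [show s + x + -y = s + x - y by abel, show s + x - -y = s + x + y by abel,
    show s - x + -y = s - x - y by abel, show s - x - -y = s - x + y by abel]
  ring

theorem Nz_cast (s x y : H) : (Nz s x y : ℂ) =
    (if y = -(s + x) then 1 else 0) + (if y = s + x then 1 else 0) +
      (if y = -(s - x) then 1 else 0) + (if y = s - x then 1 else 0) := by
  have h1 : (s + x + y = 0) ↔ y = -(s + x) := by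
    rw [eq_neg_iff_add_eq_zero, add_comm y]
  have h2 : (s + x - y = 0) ↔ y = s + x := by
    rw [sub_eq_zero, eq_comm]
  have h3 : (s - x + y = 0) ↔ y = -(s - x) := by
    rw [eq_neg_iff_add_eq_zero, add_comm y]
  have h4 : (s - x - y = 0) ↔ y = s - x := by
    rw [sub_eq_zero, eq_comm]
  unfold Nz
  simp only [h1, h2, h3, h4]
  push_cast
  rfl

/-- A sum against the multiplicity is a sum over four points. -/
theorem sum_Nz {P : AddSubgroup H} {X : Finset H} (hX : ∀ g ∈ P, g ∈ X) {s x : H}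
    (hs : s ∈ P) (hx : x ∈ P) (f : H → ℂ) :
    ∑ y ∈ X, (Nz s x y : ℂ) * f y = f (-(s + x)) + f (s + x) + f (-(s - x)) + f (s - x) := by
  have m1 : s + x ∈ X := hX _ (P.add_mem hs hx)
  have m2 : -(s + x) ∈ X := hX _ (P.neg_mem (P.add_mem hs hx))
  have m3 : s - x ∈ X := hX _ (P.sub_mem hs hx)
  have m4 : -(s - x) ∈ X := hX _ (P.neg_mem (P.sub_mem hs hx))
  simp only [Nz_cast, add_mul, ite_mul, one_mul, zero_mul, Finset.sum_add_distrib,
    Finset.sum_ite_eq', m1, m2, m3, m4, if_true]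

theorem sum_Nz_even {P : AddSubgroup H} {X : Finset H} (hX : ∀ g ∈ P, g ∈ X) {s x : H}
    (hs : s ∈ P) (hx : x ∈ P) (f : H → ℂ) (hf : ∀ y, f (-y) = f y) :
    ∑ y ∈ X, (Nz s x y : ℂ) * f y = 2 * (f (s + x) + f (s - x)) := by
  rw [sum_Nz hX hs hx, hf, hf]
  ring

theorem Nz_notMem {P : AddSubgroup H} {s x y : H} (hs : s ∈ P) (hx : x ∈ P) (hy : y ∉ P) :
    (Nz s x y : ℂ) = 0 := by
  rw [Nz_cast]
  have h1 : y ≠ -(s + x) := fun h => hy (h ▸ P.neg_mem (P.add_mem hs hx))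
  have h2 : y ≠ s + x := fun h => hy (h ▸ P.add_mem hs hx)
  have h3 : y ≠ -(s - x) := fun h => hy (h ▸ P.neg_mem (P.sub_mem hs hx))
  have h4 : y ≠ s - x := fun h => hy (h ▸ P.sub_mem hs hx)
  simp only [h1, h2, h3, h4, if_false, add_zero]

theorem sum_ite_mem {P : AddSubgroup H} {XP X : Finset H} (hP : ∀ g, g ∈ XP ↔ g ∈ P)
    (hX : ∀ g ∈ P, g ∈ X) (f : H → ℂ) :
    ∑ x ∈ X, (if x ∈ P then f x else 0) = ∑ x ∈ XP, f x := by
  rw [← Finset.sum_filter]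
  congr 1
  ext g
  rw [Finset.mem_filter, hP]
  exact ⟨fun h => h.2, fun h => ⟨hX g h, h⟩⟩

variable {P Q : AddSubgroup H} {XP XQ X : Finset H} {a μp μm : ℂ} {μ d : H → ℂ}

theorem memP (F : FinSys P Q XP XQ X a μp μm μ) : ∀ g ∈ P, g ∈ X :=
  fun g hg => (F.mem_X g).2 (Or.inl hg)

theorem memQ (F : FinSys P Q XP XQ X a μp μm μ) : ∀ g ∈ Q, g ∈ X :=
  fun g hg => (F.mem_X g).2 (Or.inr hg)

theorem sum_mu (F : FinSys P Q XP XQ X a μp μm μ) (f : H → ℂ) :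
    ∑ x ∈ X, μ x * f x = μp * ∑ x ∈ XP, f x + μm * ∑ x ∈ XQ, f x := by
  rw [Finset.mul_sum, Finset.mul_sum, ← sum_ite_mem F.mem_P (memP F),
    ← sum_ite_mem F.mem_Q (memQ F), ← Finset.sum_add_distrib]
  refine Finset.sum_congr rfl fun x _ => ?_
  rw [F.hμ]
  split_ifs <;> ring

theorem sum_mu_one (F : FinSys P Q XP XQ X a μp μm μ) : ∑ x ∈ X, μ x = 2 + 2 * a := by
  have h := sum_mu F fun _ => 1
  simp only [mul_one, Finset.sum_const, nsmul_eq_mul] at h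
  rw [h, ← F.count]
  ring

theorem sum_neg {P : AddSubgroup H} {XP : Finset H} (hP : ∀ g, g ∈ XP ↔ g ∈ P) (f : H → ℂ) :
    ∑ x ∈ XP, f (-x) = ∑ x ∈ XP, f x := by
  refine Finset.sum_bij' (fun x _ => -x) (fun x _ => -x) ?_ ?_ ?_ ?_ ?_
  · intro x hx
    exact (hP _).2 (P.neg_mem ((hP _).1 hx))
  · intro x hx
    exact (hP _).2 (P.neg_mem ((hP _).1 hx))
  · intro x _
    exact neg_neg x
  · intro x _
    exact neg_neg x
  · intro x _
    rfl

theorem sum_add {P : AddSubgroup H} {XP : Finset H} (hP : ∀ g, g ∈ XP ↔ g ∈ P) (f : H → ℂ)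
    {v : H} (hv : v ∈ P) : ∑ x ∈ XP, f (v + x) = ∑ x ∈ XP, f x := by
  refine Finset.sum_bij' (fun x _ => v + x) (fun x _ => -v + x) ?_ ?_ ?_ ?_ ?_
  · intro x hx
    exact (hP _).2 (P.add_mem hv ((hP _).1 hx))
  · intro x hx
    exact (hP _).2 (P.add_mem (P.neg_mem hv) ((hP _).1 hx))
  · intro x _
    exact neg_add_cancel_left v x
  · intro x _
    exact add_neg_cancel_left v x
  · intro x _
    rfl

theorem sum_odd {P : AddSubgroup H} {XP : Finset H} (hP : ∀ g, g ∈ XP ↔ g ∈ P)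
    (hd : ∀ x, d (-x) = -d x) {v : H} (hv : v ∈ P) : ∑ x ∈ XP, d (v + x) = 0 := by
  rw [sum_add hP d hv]
  have h := sum_neg hP d
  simp only [hd, Finset.sum_neg_distrib] at h
  linear_combination (-1 / 2 : ℂ) * h

theorem sum_sub {P : AddSubgroup H} {XP : Finset H} (hP : ∀ g, g ∈ XP ↔ g ∈ P) (f : H → ℂ)
    (v : H) : ∑ x ∈ XP, f (v - x) = ∑ x ∈ XP, f (v + x) := by
  simpa only [sub_eq_add_neg] using sum_neg hP fun x => f (v + x)

theorem sum_kap {P : AddSubgroup H} {XP : Finset H} (hP : ∀ g, g ∈ XP ↔ g ∈ P) (d : H → ℂ)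
    (s w : H) : ∑ x ∈ XP, kap d s w x = 2 * npm XP d w s := by
  unfold kap npm nu
  simp only [Finset.sum_add_distrib, sum_sub hP]
  ring

/-- The marginal of the weight. -/
theorem marg (F : FinSys P Q XP XQ X a μp μm μ) {s₁ s₂ s₃ w : H} (h₁ : s₁ ∈ P) (h₂ : s₂ ∈ P)
    (h₃ : s₃ ∈ P) (hw : w ∈ P) (x : H) :
    ∑ y ∈ X, Wt P a μp μ s₁ s₂ s₃ w x y =
      (2 - 2 * a) * μ x - (if x ∈ P then 4 * a * μp else 0) +
        (8 * a ^ 2 - 2 * a - 2 * a ^ 2) * Nz s₁ w x +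
        2 * a ^ 2 * (Nz s₃ (s₂ + w) x + Nz s₃ (s₂ - w) x) -
        Nz s₁ w x * (2 * a ^ 2 * (Nz s₃ x (s₂ + w) + Nz s₃ x (s₂ - w))) := by
  have e1 := sum_mu_one F
  have e2 := sum_Nz (memP F) h₂ hw fun _ => 1
  have e3 := sum_Nz_even (memP F) h₂ hw (fun y => Nz s₃ x y) fun y => by rw [Nz_neg]
  simp only [mul_one] at e2
  rw [Nz_comm s₃ (s₂ + w) x, Nz_comm s₃ (s₂ - w) x]
  by_cases hx : x ∈ P
  · have e4 := sum_Nz (memP F) h₃ hx fun _ => 1
    simp only [mul_one] at e4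
    have : ∀ y, Wt P a μp μ s₁ s₂ s₃ w x y =
        (μ x - a * Nz s₁ w x) * μ y - (μ x - a * Nz s₁ w x) * a * Nz s₂ w y +
          (a ^ 2 * Nz s₁ w x - a * μp) * Nz s₃ x y +
          (a ^ 2 - a ^ 2 * Nz s₁ w x) * (Nz s₂ w y * Nz s₃ x y) := by
      intro y
      unfold Wt
      rw [if_pos hx]
      ring
    simp only [this, Finset.sum_add_distrib, Finset.sum_sub_distrib, ← Finset.mul_sum, e1, e2,
      e3, e4, if_pos hx]
    ring
  · have e4 := Nz_notMem h₁ hw hx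
    have : ∀ y, Wt P a μp μ s₁ s₂ s₃ w x y =
        μ x * μ y - μ x * a * Nz s₂ w y + a ^ 2 * (Nz s₂ w y * Nz s₃ x y) := by
      intro y
      unfold Wt
      rw [if_neg hx, e4]
      ring
    simp only [this, Finset.sum_add_distrib, Finset.sum_sub_distrib, ← Finset.mul_sum, e1, e2,
      e3, e4, if_neg hx]
    ring

theorem two_ne {s : H} (h : 4 • s ≠ 0) : 2 • s ≠ 0 := by
  intro h2
  apply h
  rw [show 4 • s = 2 • s + 2 • s by abel, h2, add_zero]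

theorem Nz_eq {s x y : H} {u₁ u₂ u₃ u₄ : H} (e₁ : s + x + y = u₁) (e₂ : s + x - y = u₂)
    (e₃ : s - x + y = u₃) (e₄ : s - x - y = u₄) (n₂ : u₂ ≠ 0) (n₃ : u₃ ≠ 0) (n₄ : u₄ ≠ 0) :
    (Nz s x y : ℂ) = if u₁ = 0 then 1 else 0 := by
  unfold Nz
  rw [e₁, e₂, e₃, e₄, if_neg n₂, if_neg n₃, if_neg n₄]
  push_cast
  ring

theorem vals {s₁ s₂ s₃ w : H} (G : Gen s₁ s₂ s₃ w) :
    (Nz s₃ (s₁ + w) (s₂ + w) : ℂ) = 0 ∧ (Nz s₃ (s₁ + w) (s₂ - w) : ℂ) = 1 ∧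
      (Nz s₃ (s₁ - w) (s₂ + w) : ℂ) = 1 ∧ (Nz s₃ (s₁ - w) (s₂ - w) : ℂ) = 0 := by
  have hs : s₃ = -(s₁ + s₂) := eq_neg_of_add_eq_zero_right G.sum
  have n₁ := neg_ne_zero.2 (two_ne G.g₁.1)
  have n₂ := neg_ne_zero.2 (two_ne G.g₂.1)
  have n₃ := two_ne G.g₃.1
  refine ⟨?_, ?_, ?_, ?_⟩
  · rw [Nz_eq (u₁ := 2 • w) (by rw [hs]; abel) (by rw [hs]; abel) (by rw [hs]; abel)
      (by rw [hs]; abel) n₂ n₁ G.g₃.2.2, if_neg G.hw]
  · rw [Nz_eq (u₁ := 0) (by rw [hs]; abel) (by rw [hs]; abel) (by rw [hs]; abel)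
      (by rw [hs]; abel) (neg_ne_zero.2 G.g₂.2.2) (neg_ne_zero.2 G.g₁.2.1) n₃, if_pos rfl]
  · rw [Nz_eq (u₁ := 0) (by rw [hs]; abel) (by rw [hs]; abel) (by rw [hs]; abel)
      (by rw [hs]; abel) (neg_ne_zero.2 G.g₂.2.1) (neg_ne_zero.2 G.g₁.2.2) n₃, if_pos rfl]
  · rw [Nz_eq (u₁ := -(2 • w)) (by rw [hs]; abel) (by rw [hs]; abel) (by rw [hs]; abel)
      (by rw [hs]; abel) n₂ n₁ G.g₃.2.1, if_neg (neg_ne_zero.2 G.hw)]

/-- The sum of the weight against an even function of the first spin. -/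
theorem sum_even (F : FinSys P Q XP XQ X a μp μm μ) {s₁ s₂ s₃ w : H} (h₁ : s₁ ∈ P)
    (h₂ : s₂ ∈ P) (h₃ : s₃ ∈ P) (hw : w ∈ P) (G : Gen s₁ s₂ s₃ w) (f : H → ℂ)
    (hf : ∀ y, f (-y) = f y) :
    ∑ x ∈ X, ∑ y ∈ X, Wt P a μp μ s₁ s₂ s₃ w x y * f x =
      (2 - 2 * a) * ∑ x ∈ X, μ x * f x - 4 * a * μp * ∑ x ∈ XP, f x +
        (12 * a ^ 2 - 4 * a) * (f (s₁ + w) + f (s₁ - w)) +
        4 * a ^ 2 * (f (s₃ - (s₂ + w)) + f (s₃ - (s₂ - w))) := by
  have hs : s₃ = -(s₁ + s₂) := eq_neg_of_add_eq_zero_right G.sum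
  obtain ⟨v1, v2, v3, v4⟩ := vals G
  have e1 := sum_ite_mem F.mem_P (memP F) f
  have e2 := sum_Nz_even (memP F) h₁ hw f hf
  have e3 := sum_Nz_even (memP F) h₃ (P.add_mem h₂ hw) f hf
  have e4 := sum_Nz_even (memP F) h₃ (P.sub_mem h₂ hw) f hf
  have e5 := sum_Nz_even (memP F) h₁ hw
    (fun x => ((Nz s₃ x (s₂ + w) : ℂ) + Nz s₃ x (s₂ - w)) * f x) fun x => by
      rw [hf, Nz_comm s₃ (-x), Nz_comm s₃ (-x), Nz_neg, Nz_neg, Nz_comm s₃ _ x,
        Nz_comm s₃ _ x]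
  rw [show s₃ + (s₂ + w) = -(s₁ - w) by rw [hs]; abel, hf] at e3
  rw [show s₃ + (s₂ - w) = -(s₁ + w) by rw [hs]; abel, hf] at e4
  simp only [v1, v2, v3, v4] at e5
  have : ∀ x, ∑ y ∈ X, Wt P a μp μ s₁ s₂ s₃ w x y * f x =
      (2 - 2 * a) * (μ x * f x) - 4 * a * μp * (if x ∈ P then f x else 0) +
        (8 * a ^ 2 - 2 * a - 2 * a ^ 2) * (Nz s₁ w x * f x) +
        2 * a ^ 2 * (Nz s₃ (s₂ + w) x * f x) + 2 * a ^ 2 * (Nz s₃ (s₂ - w) x * f x) -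
        2 * a ^ 2 * (Nz s₁ w x * (((Nz s₃ x (s₂ + w) : ℂ) + Nz s₃ x (s₂ - w)) * f x)) := by
    intro x
    rw [← Finset.sum_mul, marg F h₁ h₂ h₃ hw]
    split_ifs <;> ring
  simp only [this, Finset.sum_add_distrib, Finset.sum_sub_distrib, ← Finset.mul_sum, e1, e2,
    e3, e4, e5]
  ring

end Rigb

open Rigb in
theorem rigb_thm : S_RIGB := by
  intro H _ P Q XP XQ X a μp μm μ d F hd s₁ h₁ s₂ h₂ s₃ h₃ w hw G
  have hs : s₃ = -(s₁ + s₂) := eq_neg_of_add_eq_zero_right G.sum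
  constructor
  · have h := sum_even F h₁ h₂ h₃ hw G (fun _ => 1) fun _ => rfl
    simp only [mul_one, sum_mu_one F, Finset.sum_const, nsmul_eq_mul] at h
    rw [h]
    ring
  · have d0 : d 0 = 0 := by
      have h := hd 0
      rw [neg_zero] at h
      linear_combination (1 / 2 : ℂ) * h
    have hev : ∀ y, kap d s₁ w (-y) = kap d s₁ w y := by
      intro y
      unfold kap
      rw [show s₁ + w + -y = s₁ + w - y by abel, show s₁ + w - -y = s₁ + w + y by abel,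
        show s₁ - w + -y = s₁ - w - y by abel, show s₁ - w - -y = s₁ - w + y by abel]
      ring
    have z : ∑ x ∈ XP, kap d s₁ w x = 0 := by
      rw [sum_kap F.mem_P]
      unfold npm nu
      rw [sum_odd F.mem_P hd (P.add_mem h₁ hw), sum_odd F.mem_P hd (P.sub_mem h₁ hw)]
      ring
    have k1 : kap d s₁ w (s₁ + w) = d (2 • (s₁ + w)) + d (2 • s₁) - d (2 • w) := by
      unfold kap
      rw [show s₁ + w + (s₁ + w) = 2 • (s₁ + w) by abel, show s₁ + w - (s₁ + w) = 0 by abel,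
        show s₁ - w + (s₁ + w) = 2 • s₁ by abel, show s₁ - w - (s₁ + w) = -(2 • w) by abel,
        hd, d0]
      ring
    have k2 : kap d s₁ w (s₁ - w) = d (2 • (s₁ - w)) + d (2 • s₁) + d (2 • w) := by
      unfold kap
      rw [show s₁ + w + (s₁ - w) = 2 • s₁ by abel, show s₁ + w - (s₁ - w) = 2 • w by abel,
        show s₁ - w + (s₁ - w) = 2 • (s₁ - w) by abel, show s₁ - w - (s₁ - w) = 0 by abel, d0]
      ring
    have k3 : kap d s₁ w (s₃ - (s₂ + w)) =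
        -(d (2 • s₂) + d (2 • (s₃ - w)) + d (2 • (s₂ + w)) + d (2 • s₃)) := by
      unfold kap
      rw [show s₁ + w + (s₃ - (s₂ + w)) = -(2 • s₂) by rw [hs]; abel,
        show s₁ + w - (s₃ - (s₂ + w)) = -(2 • (s₃ - w)) by rw [hs]; abel,
        show s₁ - w + (s₃ - (s₂ + w)) = -(2 • (s₂ + w)) by rw [hs]; abel,
        show s₁ - w - (s₃ - (s₂ + w)) = -(2 • s₃) by rw [hs]; abel, hd, hd, hd, hd]
      ring
    have k4 : kap d s₁ w (s₃ - (s₂ - w)) =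
        -(d (2 • (s₂ - w)) + d (2 • s₃) + d (2 • s₂) + d (2 • (s₃ + w))) := by
      unfold kap
      rw [show s₁ + w + (s₃ - (s₂ - w)) = -(2 • (s₂ - w)) by rw [hs]; abel,
        show s₁ + w - (s₃ - (s₂ - w)) = -(2 • s₃) by rw [hs]; abel,
        show s₁ - w + (s₃ - (s₂ - w)) = -(2 • s₂) by rw [hs]; abel,
        show s₁ - w - (s₃ - (s₂ - w)) = -(2 • (s₃ + w)) by rw [hs]; abel, hd, hd, hd, hd]
      ring
    rw [sum_even F h₁ h₂ h₃ hw G _ hev, sum_mu F, z, sum_kap F.mem_Q, k1, k2, k3, k4]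
    unfold dpm
    ring

end

end Pool.Agent.P.MP_29cb78_nt.E
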