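import Pool.Agent.P.MP_29cb78_nt.E.Iface

namespace Pool.Agent.P.MP_29cb78_nt.E

open Finset
open scoped Classical

namespace Rigc

variable {H : Type} [AddCommGroup H] {P Q : AddSubgroup H} {XP XQ X Y : Finset H} {a μp μm : ℂ}
  {μ d : H → ℂ}

theorem sum_shift (hY : ∀ g, g ∈ Y ↔ g ∈ P) {v : H} (hv : v ∈ P) (f : H → ℂ) :
    ∑ x ∈ Y, f (v + x) = ∑ x ∈ Y, f x :=
  sum_equiv (Equiv.addLeft v) (fun x => by simp [hY, P.add_mem_cancel_left hv]) fun _ _ => rfl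

theorem sum_neg (hY : ∀ g, -g ∈ Y ↔ g ∈ Y) (f : H → ℂ) : ∑ x ∈ Y, f (-x) = ∑ x ∈ Y, f x :=
  sum_equiv (Equiv.neg H) (fun x => by simp [hY]) fun _ _ => rfl

theorem sum_sub (hY : ∀ g, g ∈ Y ↔ g ∈ P) (v : H) (f : H → ℂ) :
    ∑ x ∈ Y, f (v - x) = ∑ x ∈ Y, f (v + x) := by
  simpa only [sub_eq_add_neg] using sum_neg (by simp [hY]) fun x => f (v + x)

theorem sum_odd (hY : ∀ g, g ∈ Y ↔ g ∈ P) {v : H} (hv : v ∈ P) {f : H → ℂ}
    (hf : ∀ x, f (-x) = -f x) : ∑ x ∈ Y, f (v + x) = 0 := by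
  have h := sum_neg (Y := Y) (by simp [hY]) f
  simp only [hf, sum_neg_distrib] at h
  rw [sum_shift hY hv]
  linear_combination -h / 2

theorem filter_eq (h : FinSys P Q XP XQ X a μp μm μ) :
    X.filter (· ∈ P) = XP ∧ X.filter (· ∈ Q) = XQ := by
  constructor <;> ext x <;> simp only [mem_filter, h.mem_X, h.mem_P, h.mem_Q] <;> tauto

theorem sum_mu (h : FinSys P Q XP XQ X a μp μm μ) (f : H → ℂ) :
    ∑ x ∈ X, μ x * f x = μp * ∑ x ∈ XP, f x + μm * ∑ x ∈ XQ, f x := by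
  simp only [h.hμ, add_mul, ite_mul, zero_mul, sum_add_distrib, ← sum_filter, (filter_eq h).1,
    (filter_eq h).2, mul_sum]

omit [AddCommGroup H] in
theorem sum_one {p : H → Prop} {c : H} (hc : c ∈ X) (hp : ∀ x, p x ↔ x = c) (f : H → ℂ) :
    ∑ x ∈ X, (if p x then 1 else 0) * f x = f c := by
  rw [sum_eq_single_of_mem c hc fun x _ hx => by simp [hp, hx]]
  simp [hp]

theorem sum_Nz (h : FinSys P Q XP XQ X a μp μm μ) {s t : H} (hs : s ∈ P) (ht : t ∈ P) {f : H → ℂ}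
    (hf : ∀ x, f (-x) = f x) : ∑ x ∈ X, (Nz s t x : ℂ) * f x = 2 * (f (s + t) + f (s - t)) := by
  have hX : ∀ x ∈ P, x ∈ X := fun x hx => (h.mem_X x).2 (.inl hx)
  have h1 := P.add_mem hs ht
  have h2 := P.sub_mem hs ht
  simp only [Nz, Nat.cast_add, Nat.cast_ite, Nat.cast_one, Nat.cast_zero, add_mul, sum_add_distrib]
  rw [sum_one (hX _ (P.neg_mem h1)) fun x => add_eq_zero_iff_eq_neg',
    sum_one (hX _ h1) fun x => sub_eq_zero.trans eq_comm,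
    sum_one (hX _ (P.neg_mem h2)) fun x => add_eq_zero_iff_eq_neg',
    sum_one (hX _ h2) fun x => sub_eq_zero.trans eq_comm, hf, hf]
  ring

theorem kap_eq {s x y p q r t : H} (h1 : s + x + y = p) (h2 : s + x - y = q) (h3 : s - x + y = r)
    (h4 : s - x - y = t) : kap d s x y = d p + d q + d r + d t := by
  rw [kap, h1, h2, h3, h4]

theorem Nz_eq {s x y p q r t : H} (h1 : s + x + y = p) (h2 : s + x - y = q) (h3 : s - x + y = r)
    (h4 : s - x - y = t) : Nz s x y = (if p = 0 then 1 else 0) + (if q = 0 then 1 else 0) +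
      (if r = 0 then 1 else 0) + if t = 0 then 1 else 0 := by
  rw [Nz, h1, h2, h3, h4]

theorem kap_comm (s x y : H) : kap d s x y = kap d s y x := by
  rw [kap_eq (add_right_comm ..) (add_sub_right_comm ..) (sub_add_eq_add_sub ..)
    (sub_right_comm ..), kap]
  ring

theorem Nz_comm (s x y : H) : Nz s x y = Nz s y x := by
  rw [Nz_eq (add_right_comm ..) (add_sub_right_comm ..) (sub_add_eq_add_sub ..)
    (sub_right_comm ..), Nz]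
  ring

theorem kap_neg (s x y : H) : kap d s x (-y) = kap d s x y := by
  simp only [kap, sub_neg_eq_add, ← sub_eq_add_neg]
  ring

theorem Nz_neg (s x y : H) : Nz s x (-y) = Nz s x y := by
  simp only [Nz, sub_neg_eq_add, ← sub_eq_add_neg]
  ring

theorem kap_neg' (s x y : H) : kap d s (-x) y = kap d s x y := by
  rw [kap_comm, kap_neg, kap_comm]

theorem Nz_neg' (s x y : H) : Nz s (-x) y = Nz s x y := by
  rw [Nz_comm, Nz_neg, Nz_comm]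

theorem nu_neg (hQ : ∀ g, g ∈ XQ ↔ g ∈ Q) (hd : ∀ x, d (-x) = -d x) (v : H) :
    nu XQ d (-v) = -nu XQ d v := by
  rw [nu, nu, ← sum_sub hQ, ← sum_neg_distrib]
  exact sum_congr rfl fun x _ => by rw [← hd, neg_add']

/-- The edge weight summed against the weights. -/
theorem sum_mu_kap (h : FinSys P Q XP XQ X a μp μm μ) (s t : H) :
    ∑ x ∈ X, μ x * kap d s t x = 2 * (μp * (∑ x ∈ XP, d (s + t + x) + ∑ x ∈ XP, d (s - t + x)) +
      μm * (nu XQ d (s + t) + nu XQ d (s - t))) := by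
  simp only [sum_mu h, kap, sum_add_distrib, sum_sub h.mem_P, sum_sub h.mem_Q, nu]
  ring

theorem sum_mu_kap' (h : FinSys P Q XP XQ X a μp μm μ) (hd : ∀ x, d (-x) = -d x) {s t : H}
    (hs : s ∈ P) (ht : t ∈ P) :
    ∑ x ∈ X, μ x * kap d s t x = 2 * μm * (nu XQ d (s + t) + nu XQ d (s - t)) := by
  rw [sum_mu_kap h, sum_odd h.mem_P (P.add_mem hs ht) hd, sum_odd h.mem_P (P.sub_mem hs ht) hd]
  ring

theorem sum_mu_mu (h : FinSys P Q XP XQ X a μp μm μ) (hd : ∀ x, d (-x) = -d x) {s : H}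
    (hs : s ∈ P) : ∑ t ∈ X, μ t * ∑ x ∈ X, μ x * kap d s t x =
      4 * (XQ.card * μm ^ 2 * nu XQ d s) := by
  have h0 := sum_odd h.mem_P hs (nu_neg h.mem_Q hd)
  have h1 : ∑ t ∈ XQ, ∑ x ∈ XP, d (s + t + x) = 0 := by
    rw [sum_comm, ← h0]
    simp only [nu, add_right_comm s]
  have h2 : ∑ t ∈ XQ, nu XQ d (s + t) = XQ.card * nu XQ d s := by
    rw [sum_congr rfl (g := fun _ => nu XQ d s), sum_const, nsmul_eq_mul]
    intro t ht
    simpa only [nu, add_assoc] using sum_shift h.mem_Q ((h.mem_Q t).1 ht) fun x => d (s + x)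
  rw [sum_mu h, sum_congr rfl fun t ht => sum_mu_kap' h hd hs ((h.mem_P t).1 ht)]
  simp only [sum_mu_kap h, ← mul_sum, sum_add_distrib]
  rw [sum_sub h.mem_P s (nu XQ d), sum_sub h.mem_Q s (nu XQ d),
    sum_sub h.mem_Q s fun v => ∑ x ∈ XP, d (v + x), h0, h1, h2]
  ring

theorem sum_Nz_kap (h : FinSys P Q XP XQ X a μp μm μ) (hd : ∀ x, d (-x) = -d x) {s t : H}
    (hs : s ∈ P) (ht : t ∈ P) : ∑ y ∈ X, (Nz s t y : ℂ) * kap d s t y =
      2 * (2 * d (2 • s) + d (2 • (s + t)) + d (2 • (s - t))) := by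
  have h0 : d 0 = 0 := by linear_combination (hd 0 - congrArg d neg_zero) / 2
  rw [sum_Nz h hs ht (kap_neg s t),
    kap_eq (p := 2 • (s + t)) (q := 0) (r := 2 • s) (t := -(2 • t)) (by abel) (by abel) (by abel)
      (by abel),
    kap_eq (p := 2 • s) (q := 2 • t) (r := 2 • (s - t)) (t := 0) (by abel) (by abel) (by abel)
      (by abel), hd, h0]
  ring

end Rigc

open Rigc in
theorem rigc_thm : S_RIGC := by
  intro H _ P Q XP XQ X a μp μm μ d h hd s₁ h₁ s₂ h₂ s₃ h₃ w hw hG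
  obtain rfl : s₃ = -(s₁ + s₂) := eq_neg_of_add_eq_zero_right hG.sum
  set s₃ := -(s₁ + s₂) with hs
  have h0 : d 0 = 0 := by linear_combination (hd 0 - congrArg d neg_zero) / 2
  have hν := nu_neg h.mem_Q hd
  let F : H → ℂ := fun t => ∑ x ∈ X, μ x * kap d s₃ t x
  let G : H → ℂ := fun t => ∑ x ∈ X, (Nz s₃ t x : ℂ) * kap d s₃ t x
  have hF : ∀ t, F (-t) = F t := fun t => by simp only [F, kap_neg']
  have hG' : ∀ t, G (-t) = G t := fun t => by simp only [G, kap_neg', Nz_neg']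
  have e2 : ∑ x ∈ X, ∑ y ∈ X, μ x * (Nz s₂ w y * kap d s₃ x y) = ∑ y ∈ X, Nz s₂ w y * F y := by
    rw [sum_comm]
    simp only [F, mul_sum, kap_comm s₃ _, mul_left_comm]
  have e7 : ∑ x ∈ X, ∑ y ∈ X, Nz s₂ w y * (Nz s₃ x y * kap d s₃ x y) =
      ∑ y ∈ X, Nz s₂ w y * G y := by
    rw [sum_comm]
    simp only [G, mul_sum, kap_comm s₃ _, Nz_comm s₃ _]
  have e : ∑ x ∈ X, ∑ y ∈ X, Wt P a μp μ s₁ s₂ s₃ w x y * kap d s₃ x y =
      ∑ x ∈ X, μ x * F x - a * ∑ x ∈ X, ∑ y ∈ X, μ x * (Nz s₂ w y * kap d s₃ x y) -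
      a * ∑ x ∈ X, Nz s₁ w x * F x +
      a ^ 2 * ∑ x ∈ X, Nz s₁ w x * ∑ y ∈ X, Nz s₂ w y * kap d s₃ x y -
      a * μp * ∑ x ∈ XP, G x + a ^ 2 * ∑ x ∈ X, Nz s₁ w x * G x +
      a ^ 2 * ∑ x ∈ X, ∑ y ∈ X, Nz s₂ w y * (Nz s₃ x y * kap d s₃ x y) -
      a ^ 2 * ∑ x ∈ X, Nz s₁ w x * ∑ y ∈ X, Nz s₂ w y * (Nz s₃ x y * kap d s₃ x y) := by
    rw [← (filter_eq h).1, sum_filter]
    simp only [mul_sum, ← sum_add_distrib, ← sum_sub_distrib]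
    refine sum_congr rfl fun x _ => ?_
    by_cases hx : x ∈ P <;>
      simp only [F, G, Wt, hx, if_true, if_false, mul_zero, sub_zero, mul_sum, ← sum_add_distrib,
        ← sum_sub_distrib] <;>
      exact sum_congr rfl fun y _ => by ring
  have e5 : ∑ x ∈ XP, G x = 4 * XP.card * d (2 • s₃) := by
    have h2 : ∀ x, d (2 • -x) = -d (2 • x) := fun x => by rw [smul_neg, hd]
    rw [sum_congr rfl fun t ht => sum_Nz_kap h hd h₃ ((h.mem_P t).1 ht)]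
    simp only [← mul_sum, sum_add_distrib, sum_const, nsmul_eq_mul]
    rw [sum_sub h.mem_P s₃ fun v => d (2 • v), sum_odd (f := fun v => d (2 • v)) h.mem_P h₃ h2]
    ring
  have hFv : ∀ s ∈ P, F (s + w) + F (s - w) =
      2 * μm * (npm XQ d w (s₃ - s) - npm XQ d w (-(s₃ + s))) := fun s hs => by
    simp only [F, sum_mu_kap' h hd h₃ (P.add_mem hs hw), sum_mu_kap' h hd h₃ (P.sub_mem hs hw), npm]
    rw [show -(s₃ + s) + w = -(s₃ + (s - w)) by abel, show -(s₃ + s) - w = -(s₃ + (s + w)) by abel,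
      hν, hν, show s₃ - s + w = s₃ - (s - w) by abel, show s₃ - s - w = s₃ - (s + w) by abel]
    ring
  have hGv : ∀ s ∈ P, G (s + w) + G (s - w) =
      2 * (4 * d (2 • s₃) + dpm d w (s₃ - s) - dpm d w (-(s₃ + s))) := fun s hs => by
    simp only [G, sum_Nz_kap h hd h₃ (P.add_mem hs hw), sum_Nz_kap h hd h₃ (P.sub_mem hs hw), dpm]
    rw [show -(s₃ + s) + w = -(s₃ + (s - w)) by abel, show -(s₃ + s) - w = -(s₃ + (s + w)) by abel,
      smul_neg _ (s₃ + _), smul_neg _ (s₃ + _), hd (2 • (s₃ + _)), hd (2 • (s₃ + _)),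
      show s₃ - s + w = s₃ - (s - w) by abel,
      show s₃ - s - w = s₃ - (s + w) by abel]
    ring
  have n1 : -(s₃ + s₁) = s₂ := by rw [hs]; abel
  have n2 : -(s₃ + s₂) = s₁ := by rw [hs]; abel
  have p1 : s₃ + (s₁ + w) + (s₂ + w) = 2 • w ∧ s₃ + (s₁ + w) - (s₂ + w) = -(2 • s₂) ∧
      s₃ - (s₁ + w) + (s₂ + w) = -(2 • s₁) ∧ s₃ - (s₁ + w) - (s₂ + w) = 2 • (s₃ - w) := by
    refine ⟨?_, ?_, ?_, ?_⟩ <;> rw [hs] <;> abel
  have p2 : s₃ + (s₁ + w) + (s₂ - w) = 0 ∧ s₃ + (s₁ + w) - (s₂ - w) = -(2 • (s₂ - w)) ∧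
      s₃ - (s₁ + w) + (s₂ - w) = -(2 • (s₁ + w)) ∧ s₃ - (s₁ + w) - (s₂ - w) = 2 • s₃ := by
    refine ⟨?_, ?_, ?_, ?_⟩ <;> rw [hs] <;> abel
  have p3 : s₃ + (s₁ - w) + (s₂ + w) = 0 ∧ s₃ + (s₁ - w) - (s₂ + w) = -(2 • (s₂ + w)) ∧
      s₃ - (s₁ - w) + (s₂ + w) = -(2 • (s₁ - w)) ∧ s₃ - (s₁ - w) - (s₂ + w) = 2 • s₃ := by
    refine ⟨?_, ?_, ?_, ?_⟩ <;> rw [hs] <;> abel
  have p4 : s₃ + (s₁ - w) + (s₂ - w) = -(2 • w) ∧ s₃ + (s₁ - w) - (s₂ - w) = -(2 • s₂) ∧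
      s₃ - (s₁ - w) + (s₂ - w) = -(2 • s₁) ∧ s₃ - (s₁ - w) - (s₂ - w) = 2 • (s₃ + w) := by
    refine ⟨?_, ?_, ?_, ?_⟩ <;> rw [hs] <;> abel
  have two : ∀ {s : H}, Gen1 s w → 2 • s ≠ 0 := fun {s} hs h => hs.1 (by
    rw [show 4 • s = 2 • s + 2 • s by abel, h, add_zero])
  rw [e, e2, e7, e5, sum_mu_mu h hd h₃, sum_Nz h h₂ hw hF, sum_Nz h h₁ hw hF, sum_Nz h h₂ hw hG',
    sum_Nz h h₁ hw hG', hFv _ h₁, hFv _ h₂, hGv _ h₁, hGv _ h₂, n1, n2,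
    sum_Nz h h₁ hw fun x => by simp only [kap_neg'],
    sum_Nz h h₁ hw fun x => by simp only [kap_neg', Nz_neg'],
    sum_Nz h h₂ hw (kap_neg _ _), sum_Nz h h₂ hw (kap_neg _ _),
    sum_Nz h h₂ hw fun x => by simp only [kap_neg, Nz_neg],
    sum_Nz h h₂ hw fun x => by simp only [kap_neg, Nz_neg],
    kap_eq p1.1 p1.2.1 p1.2.2.1 p1.2.2.2, kap_eq p2.1 p2.2.1 p2.2.2.1 p2.2.2.2,
    kap_eq p3.1 p3.2.1 p3.2.2.1 p3.2.2.2, kap_eq p4.1 p4.2.1 p4.2.2.1 p4.2.2.2,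
    Nz_eq p1.1 p1.2.1 p1.2.2.1 p1.2.2.2, Nz_eq p2.1 p2.2.1 p2.2.2.1 p2.2.2.2,
    Nz_eq p3.1 p3.2.1 p3.2.2.1 p3.2.2.2, Nz_eq p4.1 p4.2.1 p4.2.2.1 p4.2.2.2]
  simp only [neg_eq_zero, hG.hw, two hG.g₁, two hG.g₂, two hG.g₃, hG.g₁.2.1, hG.g₁.2.2, hG.g₂.2.1,
    hG.g₂.2.2, hG.g₃.2.1, hG.g₃.2.2, if_true, if_false, hd, h0, dpm]
  push_cast
  ring

end Pool.Agent.P.MP_29cb78_nt.E
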