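import Pool.Agent.P.MP_29cb78_nt.E.Iface

/-!
The weight of a pair of spins.
-/

namespace Pool.Agent.P.MP_29cb78_nt.E

open Filter Topology
open scoped Classical Real

noncomputable section

namespace Rigw

variable {H : Type} [AddCommGroup H]

/-- One of the arguments of the edge vanishes. -/
def Van (s x y : H) : Prop := s + x + y = 0 ∨ s + x - y = 0 ∨ s - x + y = 0 ∨ s - x - y = 0

theorem two_ne {s : H} (h : 4 • s ≠ 0) : 2 • s ≠ 0 := by
  intro h2
  apply h
  rw [show 4 • s = 2 • s + 2 • s by abel, h2, add_zero]

theorem Nz_cases {s : H} (hs : 2 • s ≠ 0) (x y : H) :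
    Nz s x y = 0 ∨ Van s x y ∧ ((Nz s x y = 1 ∧ 2 • x ≠ 0 ∧ 2 • y ≠ 0) ∨
      (Nz s x y = 2 ∧ (2 • x = 0 ∨ 2 • y = 0))) := by
  have a14 : s + x + y = 0 → s - x - y = 0 → False := fun h1 h4 =>
    hs (by linear_combination (norm := abel) h1 + h4)
  have a23 : s + x - y = 0 → s - x + y = 0 → False := fun h2 h3 =>
    hs (by linear_combination (norm := abel) h2 + h3)
  unfold Nz Van
  by_cases h1 : s + x + y = 0 <;> by_cases h2 : s + x - y = 0 <;> by_cases h3 : s - x + y = 0 <;>
    by_cases h4 : s - x - y = 0 <;> simp only [h1, h2, h3, h4, if_true, if_false]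
  all_goals first
    | exact (a14 h1 h4).elim
    | exact (a23 h2 h3).elim
    | exact Or.inl trivial
    | skip
  · exact Or.inr ⟨by tauto, Or.inr ⟨trivial, Or.inr (by linear_combination (norm := abel) h1 - h2)⟩⟩
  · exact Or.inr ⟨by tauto, Or.inr ⟨trivial, Or.inl (by linear_combination (norm := abel) h1 - h3)⟩⟩
  · exact Or.inr ⟨by tauto, Or.inl ⟨trivial,
      fun h => h3 (by linear_combination (norm := abel) h1 - h),
      fun h => h2 (by linear_combination (norm := abel) h1 - h)⟩⟩
  · exact Or.inr ⟨by tauto, Or.inr ⟨trivial, Or.inl (by linear_combination (norm := abel) h2 - h4)⟩⟩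
  · exact Or.inr ⟨by tauto, Or.inl ⟨trivial,
      fun h => h4 (by linear_combination (norm := abel) h2 - h),
      fun h => h1 (by linear_combination (norm := abel) h2 + h)⟩⟩
  · exact Or.inr ⟨by tauto, Or.inr ⟨trivial, Or.inr (by linear_combination (norm := abel) h3 - h4)⟩⟩
  · exact Or.inr ⟨by tauto, Or.inl ⟨trivial,
      fun h => h1 (by linear_combination (norm := abel) h3 + h),
      fun h => h4 (by linear_combination (norm := abel) h3 - h)⟩⟩
  · exact Or.inr ⟨by tauto, Or.inl ⟨trivial,
      fun h => h2 (by linear_combination (norm := abel) h4 + h),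
      fun h => h3 (by linear_combination (norm := abel) h4 + h)⟩⟩

theorem Van.symm {s x y : H} (h : Van s x y) : Van s y x := by
  rcases h with h | h | h | h
  · exact Or.inl (by linear_combination (norm := abel) h)
  · exact Or.inr (Or.inr (Or.inl (by linear_combination (norm := abel) h)))
  · exact Or.inr (Or.inl (by linear_combination (norm := abel) h))
  · exact Or.inr (Or.inr (Or.inr (by linear_combination (norm := abel) h)))

theorem Van.mem {P : AddSubgroup H} {s x y : H} (h : Van s x y) (hs : s ∈ P) (hx : x ∈ P) :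
    y ∈ P := by
  rcases h with h | h | h | h
  · rw [show y = -(s + x) by linear_combination (norm := abel) h]
    exact P.neg_mem (P.add_mem hs hx)
  · rw [show y = s + x by linear_combination (norm := abel) -h]
    exact P.add_mem hs hx
  · rw [show y = x - s by linear_combination (norm := abel) h]
    exact P.sub_mem hx hs
  · rw [show y = s - x by linear_combination (norm := abel) -h]
    exact P.sub_mem hs hx

theorem Van.mem' {P : AddSubgroup H} {s x y : H} (h : Van s x y) (hx : x ∈ P) (hy : y ∈ P) :
    s ∈ P := by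
  rcases h with h | h | h | h
  · rw [show s = -(x + y) by linear_combination (norm := abel) h]
    exact P.neg_mem (P.add_mem hx hy)
  · rw [show s = y - x by linear_combination (norm := abel) h]
    exact P.sub_mem hy hx
  · rw [show s = x - y by linear_combination (norm := abel) h]
    exact P.sub_mem hx hy
  · rw [show s = x + y by linear_combination (norm := abel) h]
    exact P.add_mem hx hy

/-- A vanishing argument with a two-torsion spin. -/
theorem Van.two {s x y : H} (h : Van s x y) (hy : 2 • y = 0) :
    2 • (s + x) = 0 ∨ 2 • (s - x) = 0 := by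
  rcases h with h | h | h | h
  · exact Or.inl (by linear_combination (norm := abel) h + h - hy)
  · exact Or.inl (by linear_combination (norm := abel) h + h + hy)
  · exact Or.inr (by linear_combination (norm := abel) h + h - hy)
  · exact Or.inr (by linear_combination (norm := abel) h + h + hy)

theorem Nz_gen {s w : H} (hw : 2 • w ≠ 0) (g : Gen1 s w) (x : H) :
    Nz s w x = 0 ∨ Nz s w x = 1 ∧ Van s w x ∧ 2 • x ≠ 0 := by
  rcases Nz_cases (two_ne g.1) w x with h | ⟨v, h | ⟨_, h | h⟩⟩
  · exact Or.inl h
  · exact Or.inr ⟨h.1, v, h.2.2⟩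
  · exact absurd h hw
  · rcases v.two h with h | h
    · exact absurd h g.2.1
    · exact absurd h g.2.2

/-- Two edges at a spin and a two-torsion spin contradict genericity. -/
theorem no_two {s t u w x y : H} (hsum : s + t + u = 0) (g : Gen1 t w) (g' : Gen2 (u - s) w)
    (v : Van s w x) (v' : Van u x y) (hy : 2 • y = 0) : False := by
  rcases v'.two hy with h | h <;> rcases v with k | k | k | k
  · exact g'.2 (by linear_combination (norm := abel) h - k - k)
  · exact g.2.2 (by linear_combination (norm := abel) hsum + hsum - h - k - k)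
  · exact g'.1 (by linear_combination (norm := abel) h - k - k)
  · exact g.2.1 (by linear_combination (norm := abel) hsum + hsum - h - k - k)
  · exact g.2.2 (by linear_combination (norm := abel) hsum + hsum - h - k - k)
  · exact g'.2 (by linear_combination (norm := abel) h - k - k)
  · exact g.2.1 (by linear_combination (norm := abel) hsum + hsum - h - k - k)
  · exact g'.1 (by linear_combination (norm := abel) h - k - k)

theorem gen2_swap {s t w : H} (g : Gen2 (s - t) w) : Gen2 (t - s) w :=
  ⟨fun h => g.2 (by linear_combination (norm := abel) -h),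
    fun h => g.1 (by linear_combination (norm := abel) -h)⟩

variable {P Q : AddSubgroup H} {XP XQ X : Finset H} {a μp μm : ℂ} {μ : H → ℂ}

theorem mu_gen (F : FinSys P Q XP XQ X a μp μm μ) {x : H} (hx : x ∈ P) (h : 2 • x ≠ 0) :
    μ x = μp := by
  rw [F.hμ, if_pos hx, if_neg fun hq => h ((F.tors_P x hx).1 hq), add_zero]

theorem mu_tor (F : FinSys P Q XP XQ X a μp μm μ) {x : H} (hx : x ∈ P) (h : 2 • x = 0) :
    μ x = μp + μm := by
  rw [F.hμ, if_pos hx, if_pos ((F.tors_P x hx).2 h)]

theorem van_mem (F : FinSys P Q XP XQ X a μp μm μ) {s x y : H} (hs : s ∈ P) (h : 2 • s ≠ 0)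
    (hx : x ∈ X) (hy : y ∈ X) (v : Van s x y) : x ∈ P ∧ y ∈ P := by
  rcases (F.mem_X x).1 hx with hx | hx
  · exact ⟨hx, v.mem hs hx⟩
  · rcases (F.mem_X y).1 hy with hy | hy
    · exact ⟨v.symm.mem hs hy, hy⟩
    · exact absurd ((F.tors_P s hs).1 (v.mem' hx hy)) h

end Rigw

open Rigw in
theorem rigw_thm : S_RIGW := by
  intro H _ P Q XP XQ X a μp μm μ F s₁ h₁ s₂ h₂ s₃ h₃ w hw G x hx y hy
  have hp := F.hp
  have hm := F.hm
  have n₃ := two_ne G.g₃.1
  unfold Face Wt
  rcases Nz_cases n₃ x y with e3 | ⟨v3, ⟨e3, tx, ty⟩ | ⟨e3, t⟩⟩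
  · rcases Nz_gen G.hw G.g₁ x with e1 | ⟨e1, v1, tx⟩ <;>
      rcases Nz_gen G.hw G.g₂ y with e2 | ⟨e2, v2, ty⟩ <;>
      simp only [e1, e2, e3, ne_eq, not_true_eq_false, and_false, if_false, Nat.cast_zero,
        Nat.cast_one, mul_zero, ite_self]
    · ring
    · rw [mu_gen F (v2.mem h₂ hw) ty]
      linear_combination -μ x * hp
    · rw [mu_gen F (v1.mem h₁ hw) tx]
      linear_combination -μ y * hp
    · rw [mu_gen F (v1.mem h₁ hw) tx, mu_gen F (v2.mem h₂ hw) ty]
      linear_combination -(μp * a + μp - a) * hp
  · obtain ⟨px, py⟩ := van_mem F h₃ n₃ hx hy v3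
    rw [mu_gen F px tx, mu_gen F py ty, if_pos px]
    rcases Nz_gen G.hw G.g₁ x with e1 | ⟨e1, -, -⟩ <;>
      rcases Nz_gen G.hw G.g₂ y with e2 | ⟨e2, -, -⟩ <;>
      simp only [e1, e2, e3, ne_eq, not_true_eq_false, and_false, false_and, if_false,
        Nat.cast_zero, Nat.cast_one, one_ne_zero, not_false_eq_true, and_self, if_true]
    · linear_combination -μp * hp
    · linear_combination -(μp * a + μp - a) * hp
    · linear_combination -(μp * a + μp - a) * hp
    · linear_combination (2 * a - μp - 2 * a * μp) * hp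
  · obtain ⟨px, py⟩ := van_mem F h₃ n₃ hx hy v3
    have e1 : Nz s₁ w x = 0 := by
      rcases Nz_gen G.hw G.g₁ x with e1 | ⟨-, v1, tx⟩
      · exact e1
      · rcases t with t | t
        · exact absurd t tx
        · exact (no_two G.sum G.g₂ G.d₂ v1 v3 t).elim
    have e2 : Nz s₂ w y = 0 := by
      rcases Nz_gen G.hw G.g₂ y with e2 | ⟨-, v2, ty⟩
      · exact e2
      · rcases t with t | t
        · exact (no_two (by rw [← G.sum]; abel) G.g₁ (gen2_swap G.d₁) v2 v3.symm t).elim
        · exact absurd t ty
    have hμ : μ x * μ y = μp * (μp + μm) := by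
      rcases t with t | t
      · have ty : 2 • y ≠ 0 := fun ty => by
          rcases v3.two ty with h | h
          · exact n₃ (by linear_combination (norm := abel) h - t)
          · exact n₃ (by linear_combination (norm := abel) h + t)
        rw [mu_tor F px t, mu_gen F py ty, mul_comm]
      · have tx : 2 • x ≠ 0 := fun tx => by
          rcases v3.two t with h | h
          · exact n₃ (by linear_combination (norm := abel) h - tx)
          · exact n₃ (by linear_combination (norm := abel) h + tx)
        rw [mu_gen F px tx, mu_tor F py t]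
    simp only [e1, e2, e3, ne_eq, not_true_eq_false, false_and, if_false, Nat.cast_zero,
      if_pos px, mul_zero, sub_zero, zero_add, add_zero, Nat.cast_ofNat]
    rw [hμ]
    linear_combination -μp * (1 + a) * hp - μp * (1 - a) * hm

end

end Pool.Agent.P.MP_29cb78_nt.E
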