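import Pool.Agent.P.MP_29cb78_nt.E.Basic

/-! The finite identity with four parameters. -/

namespace Pool.Agent.P.MP_29cb78_nt.E

open Filter Topology
open scoped Classical Real

theorem st4_thm (hlam : S_LAM) (hthr : S_THR) (hconv : S_CONV) (hres4 : S_RES4) (hex : S_EX)
    (htame : S_TAME) (hosec : S_OSEC) : S_ST4 := by
  intro S hT G hG hF t X hd hs hl hX
  obtain ⟨Λ, hΛ⟩ := hlam S
  have adm : S.Adm t 1 := ⟨hd, fun j => (hd j).symm, fun _ => rfl, fun _ _ => rfl,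
    fun j => Or.inl (hd j), fun j _ _ => hd j, hs⟩
  obtain ⟨k, θ, hk, hsum, thr, -⟩ := hthr S 2 t 1 even_two adm (hd 0) (hd 1) hl
  obtain ⟨tame, e1⟩ := hconv S hT G hG hF Λ hΛ 4 t 1 k θ X (by decide) (by decide) adm hk hsum
    thr hX
  obtain ⟨α, hα, e2⟩ := hres4 S hT (fun j => S.x₁ (S.sh t k j))
    (by rw [← map_sum, show ∑ j : Fin 4, S.sh t k j = 0 from hsum, map_zero]) (fun j hm => by
      have h1 : S.Lat (S.sh t k 0 + S.sh t k j) := by
        simpa only [Setup.Lat, map_add] using (S.mem_M.1 hm).1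
      have h2 : S.sh t k 0 + S.sh t k j = t 0 + t j + (1 + k 0 + k j) • (S.p - S.q) := by
        rw [add_smul, add_smul, one_smul, ← S.hT_add_hT, Setup.sh, Setup.sh, ← S.hT_add_hT]
        abel
      rw [h2, S.lat_add_iff ((S.lat_p.sub S.lat_q).zsmul _)] at h1
      exact hl j h1)
  have e3 := (hex S hT G hG Λ hΛ 4 4 (S.sh t k) 0 α (S.clT θ) (by decide) rfl hα thr.sep).1
    (by rw [zero_smul]; exact hsum)
  rw [hΛ.congr _ _ _ tame (Setup.AE.of_eventually (fun y => S.x₁ y - S.x₂ y ∉ S.M ∧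
    S.x₁ y + S.x₂ y ∉ S.M ∧ 2 * S.x₂ y ∉ S.M ∧ S.x₁ (S.sh t k 0) - S.x₂ y ∉ S.M ∧
    S.x₁ (S.sh t k 0) + S.x₂ y ∉ S.M) (fun x => ?_) fun y hy => by
      rw [e2 _ _ hy.1 hy.2.1 hy.2.2.1 hy.2.2.2.1 hy.2.2.2.2]), e3] at e1
  · exact (mul_eq_zero.1 e1.symm).resolve_left S.κ_ne
  · filter_upwards [hT.disc_affine (S.x₁ x - S.x₂ x) S.ε_sub_ne,
      hT.disc_affine (S.x₁ x + S.x₂ x) S.ε_add_ne,
      hT.disc_affine (2 * S.x₂ x) (two_ne_zero (α := ℂ)),
      hT.disc_affine (S.x₁ (S.sh t k 0) - S.x₂ x) (c := -1) (by norm_num),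
      hT.disc_affine (S.x₁ (S.sh t k 0) + S.x₂ x) (one_ne_zero (α := ℂ))] with z a1 a2 a3 a4 a5
    simp only [map_add, Setup.x₁_ι, Setup.x₂_ι]
    refine ⟨?_, ?_, ?_, ?_, ?_⟩
    · convert a1 using 2; ring
    · convert a2 using 2; ring
    · convert a3 using 2; ring
    · convert a4 using 2; ring
    · convert a5 using 2; ring

end Pool.Agent.P.MP_29cb78_nt.E
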