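import Pool.Agent.P.MP_29cb78_nt.E.Basic

/-!
The finite identity with six parameters.
-/

namespace Pool.Agent.P.MP_29cb78_nt.E

open Filter Topology
open scoped Classical Real

namespace St6

/-- A product over pairs that is killed by an involution. -/
theorem pairs {n : ℕ} (r : Fin n → Fin n → ℂ) (e : Fin n → Fin n) (he : ∀ a, e (e a) = a)
    (hs : ∀ a b, r a b = r b a) (h1 : ∀ a b, r a b * r (e a) (e b) = 1)
    (h2 : ∀ a b, (e a = a ∧ e b = b) ∨ (e b = a ∧ e a = b) → r a b = 1) :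
    ∏ a, ∏ b ∈ Finset.Ioi a, r a b = 1 := by
  have hi : Function.Injective e := Function.Involutive.injective he
  rw [← Finset.prod_finset_product' (Finset.univ.filter fun x : Fin n × Fin n => x.1 < x.2) _ _
    (by simp)]
  refine Finset.prod_involution
    (fun x _ => if e x.1 < e x.2 then (e x.1, e x.2) else (e x.2, e x.1)) ?_ ?_ ?_ ?_
  · intro x _
    split_ifs
    · exact h1 _ _
    · rw [hs (e x.2)]
      exact h1 _ _
  · intro x _ hr hx
    refine hr (h2 _ _ ?_)
    split_ifs at hx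
    · exact Or.inl (Prod.ext_iff.1 hx)
    · exact Or.inr (Prod.ext_iff.1 hx)
  · intro x hx
    have h := (Finset.mem_filter.1 hx).2
    refine Finset.mem_filter.2 ⟨Finset.mem_univ _, ?_⟩
    split_ifs with c
    · exact c
    · exact lt_of_le_of_ne (not_lt.1 c) fun e' => h.ne (hi e').symm
  · intro x hx
    have h := (Finset.mem_filter.1 hx).2
    by_cases c : e x.1 < e x.2
    · simp only [if_pos c, he, if_pos h]
    · simp only [if_neg c, he, if_neg h.not_gt]

variable {S : Setup} {d : ℕ} {t : Fin d → S.A} {e : Equiv.Perm (Fin d)} {k : Fin d → ℤ}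

theorem sh_add (a b : Fin d) :
    S.sh t k a + S.sh t k b = t a + t b + (k a + k b) • (S.p - S.q) + (S.p - S.q) := by
  rw [Setup.sh, Setup.sh, add_zsmul, ← S.hT_add_hT]
  abel

/-- The shifts cancel in the product over pairs. -/
theorem unshift {G : S.A → ℂ} (hF : S.FB G) (hA : S.Adm t e) (hk : ∀ j, k (e j) = k j) :
    ∏ a, ∏ b ∈ Finset.Ioi a, S.fb G (t a + t b + (k a + k b) • (S.p - S.q)) =
      S.PG (S.fb G) t := by
  have h := pairs (fun a b => S.fb G (t a + t b + (k a + k b) • (S.p - S.q)) / S.fb G (t a + t b))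
    e hA.inv (fun a b => by rw [add_comm (t a), add_comm (k a)]) (fun a b => by
      rw [div_mul_div_comm, hk, hk, hF.tsh _ _ _ (by simp only [map_add, hA.sw₁])
        (by simp only [map_add, hA.sw₂]), div_self (mul_ne_zero (hF.ne _) (hF.ne _))])
    fun a b hab => by
      have h1 : S.x₁ (t (e a) + t (e b)) = S.x₂ (t a + t b) := by simp only [map_add, hA.sw₁]
      have h2 : t (e a) + t (e b) = t a + t b := by
        rcases hab with ⟨u, v⟩ | ⟨u, v⟩ <;> rw [u, v]
        exact add_comm _ _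
      rw [h2] at h1
      rw [hF.tshD _ _ h1, div_self (hF.ne _)]
  simp only [Finset.prod_div_distrib] at h
  exact (div_eq_one_iff_eq (Finset.prod_ne_zero_iff.2 fun a _ =>
    Finset.prod_ne_zero_iff.2 fun b _ => hF.ne _)).1 h

end St6

theorem st6_thm (hlam : S_LAM) (hthr : S_THR) (hconv : S_CONV) (hst6a : S_ST6A) : S_ST6 := by
  intro S hT G hG hF
  obtain ⟨Λ, hΛ⟩ := hlam S
  obtain ⟨c, hc⟩ := hst6a S hT G hG Λ hΛ
  refine ⟨c / S.κ, fun t e X hA d0 d1 hl hX => ?_⟩
  obtain ⟨k, θ, k1, k2, k3, k4, k5⟩ := hthr S 4 t e (by decide) hA d0 d1 hl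
  obtain ⟨c1, c2⟩ := hconv S hT G hG hF Λ hΛ 6 t e k θ X (by decide) (by decide) hA k1 k2 k3 hX
  have hpq := S.lat_p.sub S.lat_q
  have c3 := hc (S.sh t k) e θ k2 (fun j => by simp [Setup.sh, hA.sw₁, k1]) (hA.fix 0 d0)
    (hA.fix 1 d1) (fun l => by
      rw [St6.sh_add, S.lat_add_iff hpq, S.lat_add_iff (hpq.zsmul _)]
      exact hl l) k4 k5 k3 c1
  have c4 : S.PG (fun x => G (x + S.q)) (S.sh t k) = S.PG (S.fb G) t := by
    rw [← St6.unshift hF hA k1]
    refine Finset.prod_congr rfl fun a _ => Finset.prod_congr rfl fun b _ => ?_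
    have e1 := St6.sh_add (t := t) (k := k) a b
    have e2 : S.sh t k a + S.sh t k b + S.q = t a + t b + (k a + k b) • (S.p - S.q) + S.p := by
      rw [e1]
      abel
    show G (S.sh t k a + S.sh t k b + S.q) = _
    rw [e2]
    by_cases hx : S.Lat (t a + t b + (k a + k b) • (S.p - S.q))
    · have h1 := (S.lat_add_iff (hpq.zsmul _)).1 hx
      have h2 : S.Lat (t b + t a) := by rwa [add_comm]
      have da : S.x₁ (t a) = S.x₂ (t a) := hA.lat a b h1
      have db : S.x₁ (t b) = S.x₂ (t b) := hA.lat b a h2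
      refine hF.raw _ (by simp [Setup.Diag, da, db]) fun _ => ?_
      have h3 := congrArg (fun x => S.a (S.x₁ x)) e1
      have h4 := k4 a fun h => hl b (h ▸ h1)
      have h5 := k4 b fun h => hl a (h ▸ h2)
      simp only [map_add S.x₁ _ (S.p - S.q), map_add S.x₁ (S.sh t k a), map_add S.a, map_sub,
        S.x₁_p, S.x₁_q, S.a_lam, map_zero] at h3
      linarith
    · rw [Setup.fb, if_neg hx]
  rw [c2, c4] at c3
  rw [div_mul_eq_mul_div, eq_div_iff S.κ_ne, mul_comm, c3]

end Pool.Agent.P.MP_29cb78_nt.E
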