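import Pool.Agent.P.MP_29cb78_nt.E.Basic

/-! The integral of the kernel for six parameters. -/

namespace Pool.Agent.P.MP_29cb78_nt.E

open Filter Topology
open scoped Classical Real

noncomputable section

namespace St6a

theorem perm_pairs {n : ℕ} (e : Equiv.Perm (Fin n)) (f : Fin n → Fin n → ℂ)
    (hf : ∀ i j, f i j = f j i) :
    ∏ j, ∏ l ∈ Finset.Ioi j, f (e j) (e l) = ∏ j, ∏ l ∈ Finset.Ioi j, f j l := by
  have h1 := e.prod_Ioi_comp_eq_sign_mul_prod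
    (f := fun i j => f i j * (((i : ℕ) : ℂ) - (j : ℕ))) fun i j => by rw [hf i j]; ring
  have h2 := e.prod_Ioi_comp_eq_sign_mul_prod
    (f := fun i j => ((i : ℕ) : ℂ) - (j : ℕ)) fun i j => by ring
  simp only [Finset.prod_mul_distrib] at h1
  have h3 : ∏ i, ∏ j ∈ Finset.Ioi i, ((((e i : Fin n) : ℕ) : ℂ) - (e j : ℕ)) ≠ 0 := by
    refine Finset.prod_ne_zero_iff.2 fun i _ => Finset.prod_ne_zero_iff.2 fun j hj => ?_
    rw [sub_ne_zero, Ne, Nat.cast_inj, Fin.val_inj, e.apply_eq_iff_eq]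
    exact (Finset.mem_Ioi.1 hj).ne
  apply mul_right_cancel₀ h3
  rw [h1, h2]
  ring

theorem pairs6 (f : Fin 6 → Fin 6 → ℂ) : ∏ j, ∏ l ∈ Finset.Ioi j, f j l =
    f 0 1 * (f 0 2 * f 0 3 * f 0 4 * f 0 5) * (f 1 2 * f 1 3 * f 1 4 * f 1 5) *
      (f 2 3 * f 2 4 * f 2 5 * f 3 4 * f 3 5 * f 4 5) := by
  have h0 : Finset.Ioi (0 : Fin 6) = {1, 2, 3, 4, 5} := by decide
  have h1 : Finset.Ioi (1 : Fin 6) = {2, 3, 4, 5} := by decide
  have h2 : Finset.Ioi (2 : Fin 6) = {3, 4, 5} := by decide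
  have h3 : Finset.Ioi (3 : Fin 6) = {4, 5} := by decide
  have h4 : Finset.Ioi (4 : Fin 6) = {5} := by decide
  have h5 : Finset.Ioi (5 : Fin 6) = ∅ := by decide
  rw [Fin.prod_univ_six, h0, h1, h2, h3, h4, h5]
  simp
  ring

variable {S : Setup}

/-- The shifted parameters. -/
def tt (t : Fin 6 → S.A) : Fin 6 → S.A := ![t 0 + S.p, t 1 + S.q, t 2, t 3, t 4, t 5]

theorem tt_sum {t : Fin 6 → S.A} (h : ∑ j, t j = 0) : ∑ j, tt t j = S.p + S.q := by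
  rw [Fin.sum_univ_six] at h ⊢
  rw [← add_zero (S.p + S.q), ← h]
  simp only [tt, Matrix.cons_val]
  abel

theorem tt_pole {t : Fin 6 → S.A} (j : Fin 6) (y : S.A) (h : S.Pole (tt t j + y)) :
    S.Pole (t j + y) := by
  fin_cases j
  · exact Setup.Pole.of_add_p (by rw [add_right_comm]; exact h)
  · exact Setup.Pole.of_add_q (by rw [add_right_comm]; exact h)
  all_goals exact h

theorem tt_sep {t : Fin 6 → S.A} {cl : S.A → Prop} (h : S.Sep t cl) : S.Sep (tt t) cl where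
  clper := h.clper
  lower j y hp := h.lower j y (tt_pole j y hp)
  upper j y hp := h.upper j y (by
    rw [sub_eq_add_neg] at hp ⊢
    exact tt_pole j _ hp)

theorem tt_lat {t : Fin 6 → S.A} (h : ∀ l, ¬ S.Lat (t 0 + t l)) (l : Fin 6) (hl : l ≠ 0) :
    ¬ S.Lat (tt t 0 + tt t l) := by
  intro h1
  have h2 : S.Lat (tt t l - t l) := by
    fin_cases l
    · exact absurd rfl hl
    · simpa [tt] using S.lat_q
    all_goals simpa [tt] using S.lat_zero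
  have h3 := (h1.sub h2).sub S.lat_p
  apply h l
  have e : tt t 0 + tt t l - (tt t l - t l) - S.p = t 0 + t l := by
    simp only [tt, Matrix.cons_val]
    abel
  rwa [e] at h3

theorem ii_ae (hT : S.TH) {G : S.A → ℂ} (hG : S.GH G) (t : Fin 6 → S.A) :
    S.AE (fun y => S.WW G t y * (S.ff (S.x₁ (t 0)) (S.x₁ y) * S.ff (S.x₂ (t 1)) (S.x₂ y)))
      (S.II G (tt t)) := by
  refine Setup.AE.of_eventually (fun y => (¬ S.Pole (t 0 + y) ∧ ¬ S.Pole (t 0 - y)) ∧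
    ¬ S.Pole (t 1 + y) ∧ ¬ S.Pole (t 1 - y)) (fun x =>
      ((hT.not_pole_add _ x).and (hT.not_pole_sub _ x)).and
        ((hT.not_pole_add _ x).and (hT.not_pole_sub _ x))) ?_
  rintro y ⟨⟨h1, h2⟩, h3, h4⟩
  simp only [Setup.II, Setup.WW, Setup.ff, Fin.prod_univ_six, tt, Matrix.cons_val]
  rw [add_right_comm (t 0), add_right_comm (t 1), add_sub_right_comm (t 0),
    add_sub_right_comm (t 1), hG.shp _ h1, hG.shp _ h2, hG.shq _ h3, hG.shq _ h4]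
  simp only [map_add, map_sub]
  ring

theorem pg_eq {G : S.A → ℂ} (hG : S.GH G) {t : Fin 6 → S.A} {e : Equiv.Perm (Fin 6)}
    (he : ∀ j, S.x₁ (t (e j)) = S.x₂ (t j)) (h1 : e 1 = 1)
    (hp : ∀ j l, ¬ S.Pole (t j + t l)) {R c : ℂ}
    (hR : R * S.ϑ (S.x₁ (t 0) + S.x₁ (t 1)) = c * (S.ϑ (S.x₁ (t 2) + S.x₁ (t 3)) *
      S.ϑ (S.x₁ (t 2) + S.x₁ (t 4)) * S.ϑ (S.x₁ (t 2) + S.x₁ (t 5)) *
      S.ϑ (S.x₁ (t 3) + S.x₁ (t 4)) * S.ϑ (S.x₁ (t 3) + S.x₁ (t 5)) *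
      S.ϑ (S.x₁ (t 4) + S.x₁ (t 5)))) :
    R * S.PG G (tt t) = c * S.PG (fun x => G (x + S.q)) t := by
  have h2 := perm_pairs e (fun j l => if j = 1 ∨ l = 1 then 1 else S.ϑ (S.x₁ (t j) + S.x₁ (t l)))
    fun i j => by simp only [or_comm, add_comm]
  have h3 : ∀ j, e j = 1 ↔ j = 1 := fun j => by rw [← e.apply_eq_iff_eq (x := j), h1]
  simp only [h3, he, pairs6] at h2
  simp only [Fin.reduceEq, or_true, true_or, or_self, if_true, if_false, one_mul, mul_one] at h2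
  have h4 : G (t 0 + S.p + (t 1 + S.q)) = S.ϑ (S.x₁ (t 0) + S.x₁ (t 1)) * G (t 0 + t 1 + S.q) := by
    rw [show t 0 + S.p + (t 1 + S.q) = t 0 + t 1 + S.q + S.p by abel,
      hG.shp _ fun h => hp 0 1 h.of_add_q]
    simp
  have h5 : ∀ l, G (t 0 + S.p + t l) = S.ϑ (S.x₁ (t 0) + S.x₁ (t l)) * G (t 0 + t l) := fun l => by
    rw [add_right_comm, hG.shp _ (hp 0 l), map_add]
  have h6 : ∀ j l, G (t j + t l + S.q) = S.ϑ (S.x₂ (t j) + S.x₂ (t l)) * G (t j + t l) :=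
    fun j l => by rw [hG.shq _ (hp j l), map_add]
  simp only [Setup.PG, pairs6, tt, Matrix.cons_val, h4, h5, add_right_comm (t 1) S.q]
  rw [h6 0 2, h6 0 3, h6 0 4, h6 0 5, h6 2 3, h6 2 4, h6 2 5, h6 3 4, h6 3 5, h6 4 5]
  generalize G (t 0 + t 1 + S.q) = g01
  generalize G (t 1 + t 2 + S.q) * G (t 1 + t 3 + S.q) * G (t 1 + t 4 + S.q) *
    G (t 1 + t 5 + S.q) = g1
  linear_combination
    (g01 * g1 * (G (t 0 + t 2) * G (t 0 + t 3) * G (t 0 + t 4) * G (t 0 + t 5)) *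
      (G (t 2 + t 3) * G (t 2 + t 4) * G (t 2 + t 5) * G (t 3 + t 4) * G (t 3 + t 5) *
        G (t 4 + t 5))) * ((S.ϑ (S.x₁ (t 0) + S.x₁ (t 2)) * S.ϑ (S.x₁ (t 0) + S.x₁ (t 3)) *
          S.ϑ (S.x₁ (t 0) + S.x₁ (t 4)) * S.ϑ (S.x₁ (t 0) + S.x₁ (t 5))) * hR - c * h2)

end St6a

open St6a in
theorem st6a_thm (hres6 : S_RES6) (hex : S_EX) (htame : S_TAME) (hbeta : S_BETA)
    (hosec : S_OSEC) : S_ST6A := by
  intro S hT G hG Λ hΛ
  obtain ⟨c, hc⟩ := hres6 S hT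
  obtain ⟨C, hC⟩ := hbeta S hT G hG Λ hΛ
  refine ⟨c * C, fun t e θ hs he _ h1 hl ha hb hθ htm => ?_⟩
  have hσ : ∑ j, S.x₁ (t j) = 0 := by rw [← map_sum, hs, map_zero]
  have hM : ∀ j l, S.x₁ (t j) + S.x₁ (t l) ∉ S.M := fun j l h => by
    by_cases hj : j = 0
    · exact hl l (by rw [Setup.Lat, map_add, ← hj]; exact h.1)
    by_cases hl0 : l = 0
    · exact hl j (by rw [Setup.Lat, map_add, ← hl0, add_comm]; exact h.1)
    have := (S.mem_M.1 h).2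
    rw [map_add] at this
    linarith [ha j hj, ha l hl0]
  have h02 : S.x₁ (t 0) - S.x₁ (t 2) ∉ S.M := fun h => by
    have h2 := (S.mem_M.1 h).2
    have h3 := congrArg S.a hσ
    rw [Fin.sum_univ_six] at h3
    simp only [map_add, map_sub, map_zero] at h2 h3
    linarith [ha 1 (by decide), ha 2 (by decide), ha 3 (by decide), ha 4 (by decide),
      ha 5 (by decide)]
  have h13 : S.x₁ (t 1) - S.x₁ (t 3) ∉ S.M := fun h => by
    have h2 := (S.mem_M.1 h).2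
    rw [map_sub] at h2
    linarith [hb 3 (by decide) (by decide)]
  obtain ⟨R, α, α', hα, hα', hR, hB⟩ := hc (fun j => S.x₁ (t j)) hσ hM h02 h13
  obtain ⟨-, -, hP, hf, -⟩ := hosec S hT
  have hPm := (hP 6 _ (by decide) hσ).2.2
  have hsep := hθ.sep
  have hPP : S.Pm (fun j => S.x₂ (t j)) = S.Pm fun j => S.x₁ (t j) := by
    have : ∀ y, S.PP (fun j => S.x₂ (t j)) y = S.PP (fun j => S.x₁ (t j)) y := fun y => by
      simp only [Setup.PP, ← he]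
      exact Equiv.prod_comp e fun j => S.ϑ (S.x₁ (t j) + y)
    funext y
    simp only [Setup.Pm, this]
  have tm : ∀ f₁ f₂, S.Sec 6 f₁ → S.Sec 6 f₂ →
      S.Tame (fun y => S.WW G t y * (f₁ (S.x₁ y) * f₂ (S.x₂ y))) (S.clT θ) := fun f₁ f₂ k₁ k₂ =>
    htame S hT G hG 6 6 6 t 0 0 f₁ f₂ _ (by decide) (by simp [hs]) rfl rfl k₁ k₂ hsep
  have t1 := tm _ _ (hf (S.x₁ (t 0))) (hf (S.x₁ (t 1)))
  have t2 := tm _ _ hPm hα
  have t3 := tm _ _ hα' hPm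
  have z2 := (hex S hT G hG Λ hΛ 6 6 t 0 α _ (by decide) rfl hα hsep).1 (by simp [hs])
  have z3 := (hex S hT G hG Λ hΛ 6 6 t 0 α' _ (by decide) rfl hα' hsep).2 (by simp [hs])
  rw [hPP] at z3
  have ae := ii_ae hT hG t
  rw [← he 1, h1] at ae
  have hA : S.AE (fun y => S.WW G t y * S.BB (fun j => S.x₁ (t j)) (S.x₁ y) (S.x₂ y))
      fun y => R * (S.WW G t y * (S.ff (S.x₁ (t 0)) (S.x₁ y) * S.ff (S.x₁ (t 1)) (S.x₂ y))) +
        S.WW G t y * (S.Pm (fun j => S.x₁ (t j)) (S.x₁ y) * α (S.x₂ y)) +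
        S.WW G t y * (α' (S.x₁ y) * S.Pm (fun j => S.x₁ (t j)) (S.x₂ y)) := by
    refine Setup.AE.of_eventually (fun y => S.x₁ y - S.x₂ y ∉ S.M ∧ S.x₁ y + S.x₂ y ∉ S.M ∧
      2 * S.x₂ y ∉ S.M ∧ ∀ j, S.x₁ (t j) - S.x₂ y ∉ S.M ∧ S.x₁ (t j) + S.x₂ y ∉ S.M)
      (fun x => ?_) fun y hy => by rw [hB _ _ hy.1 hy.2.1 hy.2.2.1 hy.2.2.2]; ring
    have k : ∀ (u v : ℂ) (f : ℂ → ℂ), v ≠ 0 → (∀ z, f z = u + v * z) →
        ∀ᶠ z in 𝓝[≠] (0 : ℂ), f z ∉ S.M := fun u v f hv h => by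
      simp only [h]
      exact hT.disc_affine u hv
    refine (k (S.x₁ x - S.x₂ x) _ _ S.ε_sub_ne fun z => ?_).and
      ((k (S.x₁ x + S.x₂ x) _ _ S.ε_add_ne fun z => ?_).and
        ((k (2 * S.x₂ x) 2 _ two_ne_zero fun z => ?_).and (eventually_all.2 fun j =>
          (k (S.x₁ (t j) - S.x₂ x) (-1) _ (by norm_num) fun z => ?_).and
            (k (S.x₁ (t j) + S.x₂ x) 1 _ one_ne_zero fun z => ?_))))
    all_goals simp only [map_add, Setup.x₁_ι, Setup.x₂_ι]; ring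
  rw [hΛ.congr _ _ _ htm hA, hΛ.add _ _ _ ((t1.smul R).add t2) t3, hΛ.add _ _ _ (t1.smul R) t2,
    hΛ.smul _ _ R t1, z2, z3, hΛ.congr _ _ _ t1 ae,
    hC (St6a.tt t) _ (tt_sum hs) (tt_lat hl) (tt_sep hsep) (S.clT_add_p θ)]
  linear_combination C * pg_eq hG he h1 hsep.not_pole hR

end

end Pool.Agent.P.MP_29cb78_nt.E
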