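import Pool.Agent.P.MP_29cb78_nt.E.Iface

/-!
The residue theorem on a horizontal strip for periodic meromorphic functions.
-/

namespace Pool.Agent.P.MP_29cb78_nt.E

open Filter Topology Complex Set
open scoped Real

namespace Strip

/-- The integral along a horizontal period. -/
noncomputable def hor (f : ℂ → ℂ) (r : ℝ) : ℂ := ∫ u in (0 : ℝ)..1, f (u + r * I)

theorem hor_congr {f g : ℂ → ℂ} (h : ∀ x, f =ᶠ[𝓝[≠] x] g) (r : ℝ) : hor f r = hor g r := by
  refine intervalIntegral.integral_congr_ae_restrict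
    (ae_restrict_le_codiscreteWithin measurableSet_uIoc
      (mem_codiscreteWithin_iff_forall_mem_nhdsNE.2 fun u _ => mem_of_superset ?_ subset_union_left))
  have ht : Tendsto (fun v : ℝ => (v : ℂ) + r * I) (𝓝[≠] u) (𝓝[≠] (u + r * I)) :=
    tendsto_nhdsWithin_iff.2 ⟨(Continuous.tendsto (by fun_prop) u).mono_left nhdsWithin_le_nhds,
      eventually_nhdsWithin_of_forall fun v hv => by simpa using hv⟩
  exact ht.eventually (h _)

theorem int_of {f : ℂ → ℂ} {r : ℝ} (h : ∀ z : ℂ, z.im = r → AnalyticAt ℂ f z) :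
    IntervalIntegrable (fun u : ℝ => f (u + r * I)) MeasureTheory.volume 0 1 :=
  (continuous_iff_continuousAt.2 fun u => ContinuousAt.comp (f := fun u : ℝ => (u : ℂ) + r * I)
    (h _ (by simp)).continuousAt (by fun_prop)).intervalIntegrable _ _

theorem shift (x c : ℂ) : Tendsto (fun z => z + c) (𝓝[≠] x) (𝓝[≠] (x + c)) :=
  ((Homeomorph.addRight c).map_punctured_nhds_eq x).le

theorem reg_of {f : ℂ → ℂ} {x : ℂ} (h : AnalyticAt ℂ f x) : Reg1 f x :=
  ⟨_, h.continuousAt.tendsto.mono_left nhdsWithin_le_nhds⟩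

theorem reg_int {f : ℂ → ℂ} (hp : ∀ x, (fun z => f (z + 1)) =ᶠ[𝓝[≠] x] f) {y : ℂ} (h : Reg1 f y)
    (k : ℤ) : Reg1 f (y + k) := by
  obtain ⟨c, hc⟩ := h
  refine ⟨c, ?_⟩
  induction k using Int.induction_on with
  | zero => simpa using hc
  | succ k ih =>
    have := (ih.congr' (hp _).symm).comp (shift (y + ((k : ℤ) + 1 : ℤ)) (-1) |>.congr' .rfl |>
      fun h => by simpa [add_assoc] using h)
    simpa [Function.comp_def] using this
  | pred k ih =>
    have := ih.comp (shift (y + (-(k : ℤ) - 1 : ℤ)) 1 |> fun h => by simpa [add_assoc] using h)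
    exact Tendsto.congr' (hp _) (by simpa [Function.comp_def] using this)

/-- The case without poles. -/
theorem base {h : ℂ → ℂ} {r₁ r₂ : ℝ} (hm : ∀ x, MeromorphicAt h x)
    (hp : ∀ x, (fun z => h (z + 1)) =ᶠ[𝓝[≠] x] h) (hr : r₁ < r₂)
    (hreg : ∀ x : ℂ, r₁ ≤ x.im → x.im ≤ r₂ → Reg1 h x) :
    ∃ H : ℂ → ℂ, (∀ x, H =ᶠ[𝓝[≠] x] h) ∧ (∀ x : ℂ, r₁ ≤ x.im → x.im ≤ r₂ → AnalyticAt ℂ H x) ∧
      hor H r₁ = hor H r₂ := by
  have hM : MeromorphicOn h univ := fun x _ => hm x
  have h1 := fun x => hM.toMeromorphicNFOn_eq_self_on_nhdsNE (mem_univ x)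
  set H := toMeromorphicNFOn h univ
  have h2 : ∀ x : ℂ, r₁ ≤ x.im → x.im ≤ r₂ → AnalyticAt ℂ H x := fun x a b => by
    rw [← (meromorphicNFOn_toMeromorphicNFOn h univ
      (mem_univ x)).meromorphicOrderAt_nonneg_iff_analyticAt, meromorphicOrderAt_congr (h1 x),
      ← tendsto_nhds_iff_meromorphicOrderAt_nonneg (hm x)]
    exact hreg x a b
  refine ⟨H, h1, h2, ?_⟩
  have h3 := integral_boundary_rect_eq_zero_of_differentiableOn H ⟨0, r₁⟩ ⟨1, r₂⟩ fun z hz => by
    have := hz.2
    rw [mem_preimage, uIcc_of_le hr.le] at this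
    exact (h2 z this.1 this.2).differentiableAt.differentiableWithinAt
  have h4 : (∫ y : ℝ in r₁..r₂, H ((1 : ℝ) + y * I)) = ∫ y : ℝ in r₁..r₂, H ((0 : ℝ) + y * I) := by
    refine intervalIntegral.integral_congr fun y hy => ?_
    rw [uIcc_of_le hr.le] at hy
    have a := (h2 (y * I + 1) (by simpa using hy.1) (by simpa using hy.2)).continuousAt.tendsto.comp
      ((shift (y * I) 1).mono_right nhdsWithin_le_nhds)
    have b := (h2 (y * I) (by simpa using hy.1) (by simpa using hy.2)).continuousAt.tendsto.mono_left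
      (nhdsWithin_le_nhds (s := {y * I}ᶜ))
    have c := tendsto_nhds_unique_of_eventuallyEq a b
      (by filter_upwards [(shift (y * I) 1).eventually (h1 _), hp (y * I), h1 (y * I)] with z p q t
        using p.trans (q.trans t.symm))
    simpa [add_comm] using c
  simp only [h4] at h3
  rw [hor, hor, ← sub_eq_zero]
  linear_combination h3

/-- The denominator of the kernel. -/
noncomputable def en (x z : ℂ) : ℂ := ee (z - x) - 1

theorem tpi : (2 * π * I : ℂ) ≠ 0 := two_pi_I_ne_zero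

theorem en_deriv (x z : ℂ) : HasDerivAt (en x) (2 * π * I * (en x z + 1)) z := by
  have := ((((hasDerivAt_id z).sub_const x).const_mul (2 * π * I : ℂ)).cexp).sub_const 1
  refine this.congr_deriv ?_
  simp only [en, ee, id]
  ring

theorem en_an (x z : ℂ) : AnalyticAt ℂ (en x) z :=
  Differentiable.analyticAt (fun z => (en_deriv x z).differentiableAt) z

theorem en_per (x z : ℂ) : en x (z + 1) = en x z := by
  rw [en, en, ee, ee, show 2 * π * I * (z + 1 - x) = 2 * π * I * (z - x) + 2 * π * I by ring,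
    exp_add, exp_two_pi_mul_I, mul_one]

theorem en_ne {x z : ℂ} (h : ∀ k : ℤ, z - x ≠ k) : en x z ≠ 0 := fun h0 => by
  obtain ⟨n, hn⟩ := exp_eq_one_iff.1 (sub_eq_zero.1 h0)
  exact h n (mul_left_cancel₀ tpi (hn.trans (mul_comm _ _)))

theorem en_self (x : ℂ) : en x x = 0 := by simp [en, ee]

theorem en_ord (x : ℂ) : meromorphicOrderAt (en x) x = 1 := by
  rw [(en_an x x).meromorphicOrderAt_eq, (en_an x x).analyticOrderAt_eq_one_of_zero_deriv_ne_zero
    (en_self x) (by rw [(en_deriv x x).deriv, en_self]; simp)]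
  rfl

theorem en_ev (x : ℂ) : ∀ᶠ z in 𝓝[≠] x, en x z ≠ 0 :=
  (meromorphicOrderAt_ne_top_iff_eventually_ne_zero (en_an x x).meromorphicAt).1
    (by rw [en_ord]; simp)

theorem off {x z : ℂ} (h : z.im ≠ x.im) (k : ℤ) : z - x ≠ k := fun e => h (by
  have := congrArg im e
  simpa [sub_eq_zero] using this)

theorem geo {q c : ℂ} (hq : ‖q‖ < 1) (hc : c ≠ 0) (h0 : c.re = 0) (h1 : exp c = 1) :
    ∫ u in (0 : ℝ)..1, q * exp (c * u) / (1 - q * exp (c * u)) = 0 := by
  have hs : ∀ u : ℝ, 1 - q * exp (c * u) ∈ slitPlane := fun u => by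
    rw [sub_eq_add_neg]
    refine mem_slitPlane_of_norm_lt_one ?_
    simpa [norm_exp, h0] using hq
  rw [intervalIntegral.integral_eq_sub_of_hasDerivAt
    (f := fun u : ℝ => -log (1 - q * exp (c * u)) / c) (fun u _ => ?_)
    (Continuous.intervalIntegrable (by fun_prop (disch := exact fun u => slitPlane_ne_zero (hs u)))
      _ _)]
  · simp [h1]
  have := ((((((hasDerivAt_id (u : ℂ)).const_mul c).cexp.const_mul q).const_sub 1).clog
    (hs u)).neg.div_const c).comp_ofReal
  refine this.congr_deriv ?_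
  simp only [id]
  field_simp

theorem hor_top {x : ℂ} {r : ℝ} (h : x.im < r) : hor (fun z => (en x z)⁻¹) r = -1 := by
  have hq : ‖ee (r * I - x)‖ < 1 := by
    rw [ee, norm_exp, Real.exp_lt_one_iff]
    simp
    nlinarith [Real.pi_pos]
  have h1 := geo hq tpi (by simp) exp_two_pi_mul_I
  have h2 : ∀ u : ℝ, ee (r * I - x) * exp (2 * π * I * u) = en x (u + r * I) + 1 := fun u => by
    rw [en, ee, ee, ← exp_add, sub_add_cancel]
    congr 1
    ring
  have h3 : ∀ u : ℝ, en x (u + r * I) ≠ 0 := fun u => en_ne (off (by simpa using h.ne'))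
  have h4 : ∀ u : ℝ, (en x (u + r * I) + 1) / (1 - (en x (u + r * I) + 1)) =
      -1 - (en x (u + r * I))⁻¹ := fun u => by
    have := h3 u
    rw [show 1 - (en x (u + r * I) + 1) = -en x (u + r * I) by ring]
    field_simp
    ring
  simp only [h2, h4] at h1
  rw [intervalIntegral.integral_sub (by simp) (int_of (f := fun z => (en x z)⁻¹) fun z hz =>
    (en_an x z).inv (en_ne (off (by rw [hz]; exact h.ne'))))] at h1
  simp only [intervalIntegral.integral_const, sub_zero, one_smul] at h1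
  rw [hor]
  linear_combination -h1

theorem hor_bot {x : ℂ} {r : ℝ} (h : r < x.im) : hor (fun z => (en x z)⁻¹) r = 0 := by
  have hq : ‖ee (x - r * I)‖ < 1 := by
    rw [ee, norm_exp, Real.exp_lt_one_iff]
    simp
    nlinarith [Real.pi_pos]
  rw [← geo hq (neg_ne_zero.2 tpi) (by simp) (by rw [exp_neg, exp_two_pi_mul_I, inv_one]), hor]
  refine intervalIntegral.integral_congr fun u _ => ?_
  have h2 : ee (x - r * I) * exp (-(2 * π * I) * u) = (en x (u + r * I) + 1)⁻¹ := by
    rw [en, ee, ee, ← exp_add, sub_add_cancel, ← exp_neg]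
    congr 1
    ring
  have h3 : en x (u + r * I) ≠ 0 := en_ne (off (by simpa using h.ne))
  have h4 : en x (u + r * I) + 1 ≠ 0 := by
    rw [en, sub_add_cancel]
    exact exp_ne_zero _
  simp only [h2]
  field_simp
  simp [h3]

/-- Periodic functions with poles in one class only, for which the formula holds. -/
structure Ker (r₁ r₂ : ℝ) (x : ℂ) (K : ℂ → ℂ) : Prop where
  an : ∀ z, (∀ k : ℤ, z - x ≠ k) → AnalyticAt ℂ K z
  mer : ∀ z, MeromorphicAt K z
  per : ∀ z, K (z + 1) = K z
  good : hor K r₁ - hor K r₂ = 2 * π * I * res K x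

variable {r₁ r₂ : ℝ} {x : ℂ}

theorem Ker.lin (hres : S_RES0) (h1 : r₁ < x.im) (h2 : x.im < r₂) {K L : ℂ → ℂ} (hK : Ker r₁ r₂ x K)
    (hL : Ker r₁ r₂ x L) (c : ℂ) : Ker r₁ r₂ x fun z => K z + c * L z where
  an z hz := (hK.an z hz).add (analyticAt_const.mul (hL.an z hz))
  mer z := (hK.mer z).add ((MeromorphicAt.const c z).mul (hL.mer z))
  per z := by rw [hK.per, hL.per]
  good := by
    have e : ∀ r : ℝ, r ≠ x.im → hor (fun z => K z + c * L z) r = hor K r + c * hor L r :=
      fun r hr => by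
        rw [hor, intervalIntegral.integral_add (int_of fun z hz => hK.an z (off (hz ▸ hr)))
          ((int_of fun z hz => hL.an z (off (hz ▸ hr))).const_mul c),
          intervalIntegral.integral_const_mul]
        rfl
    rw [e _ h1.ne, e _ h2.ne', hres.2.2.1 K (fun z => c * L z) x (hK.mer x)
      ((MeromorphicAt.const c x).mul (hL.mer x)),
      hres.2.2.2.1 L x c (hL.mer x)]
    linear_combination hK.good + c * hL.good

theorem pow_deriv {z : ℂ} (n : ℕ) (h : en x z ≠ 0) : HasDerivAt (fun z => (en x z)⁻¹ ^ (n + 1))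
    (-(2 * π * I * (n + 1)) * ((en x z)⁻¹ ^ (n + 1) + (en x z)⁻¹ ^ (n + 2))) z := by
  refine (((en_deriv x z).inv h).pow (n + 1)).congr_deriv ?_
  simp only [Pi.inv_apply, Nat.add_sub_cancel, pow_succ]
  generalize (en x z)⁻¹ ^ n = t
  push_cast
  field_simp

theorem ker_pow (hres : S_RES0) (h1 : r₁ < x.im) (h2 : x.im < r₂) (n : ℕ) :
    Ker r₁ r₂ x fun z => (en x z)⁻¹ ^ (n + 1) := by
  have han : ∀ (n : ℕ) z, (∀ k : ℤ, z - x ≠ k) → AnalyticAt ℂ (fun z => (en x z)⁻¹ ^ n) z :=
    fun n z hz => ((en_an x z).inv (en_ne hz)).pow n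
  have hmer : ∀ (n : ℕ) z, MeromorphicAt (fun z => (en x z)⁻¹ ^ n) z :=
    fun n z => (en_an x z).meromorphicAt.inv.pow n
  refine ⟨han _, hmer _, fun z => by rw [en_per], ?_⟩
  induction n with
  | zero =>
    simp only [zero_add, pow_one]
    rw [hor_bot h1, hor_top h2, hres.2.2.2.2.2.1 (fun z => (en x z)⁻¹) x (2 * π * I)⁻¹
      (en_an x x).meromorphicAt.inv,
      mul_inv_cancel₀ tpi, zero_sub, neg_neg]
    have := (hasDerivAt_iff_tendsto_slope_zero.1 (en_deriv x x)).inv₀
      (by rw [en_self]; simp)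
    simpa [en_self] using this.congr fun z => by simp [en_self, mul_comm]
  | succ n ih =>
    have hc : (-(2 * π * I * (n + 1)) : ℂ) ≠ 0 :=
      neg_ne_zero.2 (mul_ne_zero tpi (by exact_mod_cast n.succ_ne_zero))
    have e : ∀ r : ℝ, r ≠ x.im → hor (fun z => (en x z)⁻¹ ^ (n + 1)) r +
        hor (fun z => (en x z)⁻¹ ^ (n + 2)) r = 0 := fun r hr => by
      have i := fun n => int_of fun z hz => han n z (off (x := x) (hz ▸ hr))
      have := intervalIntegral.integral_eq_sub_of_hasDerivAt (a := 0) (b := 1)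
        (f := fun u : ℝ => (en x (u + r * I))⁻¹ ^ (n + 1)) (fun u _ =>
          (HasDerivAt.comp_add_const (u : ℂ) (r * I)
            (pow_deriv n (en_ne (off (by simpa using hr))))).comp_ofReal)
        (((i (n + 1)).add (i (n + 2))).const_mul _)
      rw [intervalIntegral.integral_const_mul, intervalIntegral.integral_add (i _) (i _),
        ofReal_one, ofReal_zero, add_comm 1, en_per, zero_add, sub_self] at this
      exact (mul_eq_zero.1 this).resolve_left hc
    have r0 := hres.2.2.2.2.2.2.2 _ x (hmer (n + 1) x)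
    rw [hres.2.1 _ _ x ((en_ev x).mono fun z hz => (pow_deriv n hz).deriv),
      hres.2.2.2.1 (fun z => (en x z)⁻¹ ^ (n + 1) + (en x z)⁻¹ ^ (n + 2)) x _
        ((hmer _ x).add (hmer _ x)), hres.2.2.1 _ _ x (hmer _ x) (hmer _ x)] at r0
    linear_combination e _ h1.ne - e _ h2.ne' - ih -
      2 * π * I * (mul_eq_zero.1 r0).resolve_left hc

theorem principal (hres : S_RES0) (h1 : r₁ < x.im) (h2 : x.im < r₂) (n : ℕ) :
    ∀ g : ℂ → ℂ, MeromorphicAt g x → 0 ≤ meromorphicOrderAt g x + n →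
      ∃ K, Ker r₁ r₂ x K ∧ Reg1 (fun z => g z - K z) x := by
  have ho : ∀ (n : ℕ) (g : ℂ → ℂ), MeromorphicAt g x →
      meromorphicOrderAt (g * en x ^ n) x = meromorphicOrderAt g x + n := fun n g hg => by
    rw [meromorphicOrderAt_mul hg ((en_an x x).meromorphicAt.pow n),
      meromorphicOrderAt_pow (en_an x x).meromorphicAt, en_ord, mul_one]
  induction n with
  | zero =>
    intro g hg h
    refine ⟨fun _ => 0, ⟨fun _ _ => analyticAt_const, fun z => .const _ z, fun _ => rfl, ?_⟩, ?_⟩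
    · rw [hres.2.2.2.2.2.2.1 _ x (.const _ x) (reg_of analyticAt_const)]
      simp [hor]
    · simpa [Reg1] using (tendsto_nhds_iff_meromorphicOrderAt_nonneg hg).2 (by simpa using h)
  | succ n ih =>
    intro g hg h
    have hk := ker_pow hres h1 h2 n
    obtain ⟨c, hc⟩ := (tendsto_nhds_iff_meromorphicOrderAt_nonneg
      (hg.mul ((en_an x x).meromorphicAt.pow (n + 1)))).2 (by rwa [ho _ g hg])
    have hg' : MeromorphicAt (fun z => g z - c * (en x z)⁻¹ ^ (n + 1)) x :=
      hg.sub ((MeromorphicAt.const c x).mul (hk.mer x))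
    have h3 := (tendsto_zero_iff_meromorphicOrderAt_pos
      (hg'.mul ((en_an x x).meromorphicAt.pow (n + 1)))).1 (by
        have := hc.sub_const c
        rw [sub_self] at this
        refine this.congr' ((en_ev x).mono fun z hz => ?_)
        simp only [Pi.mul_apply, Pi.pow_apply, inv_pow]
        field_simp)
    rw [ho _ _ hg'] at h3
    obtain ⟨K, hK, h4⟩ := ih _ hg' (by
      generalize meromorphicOrderAt (fun z => g z - c * (en x z)⁻¹ ^ (n + 1)) x = o at h3
      cases o with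
      | top => simp
      | coe m => norm_cast at h3 ⊢; omega)
    exact ⟨_, hK.lin hres h1 h2 hk c, by simpa [sub_sub, add_comm] using h4⟩

theorem res_sum (hres : S_RES0) {ι : Type} (F : Finset ι) (K : ι → ℂ → ℂ)
    (h : ∀ y ∈ F, MeromorphicAt (K y) x) :
    res (fun z => ∑ y ∈ F, K y z) x = ∑ y ∈ F, res (K y) x := by
  classical
  induction F using Finset.induction_on with
  | empty => simpa using hres.2.2.2.2.2.2.1 _ x (.const _ x) (reg_of analyticAt_const)
  | insert a F ha ih =>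
    have h' := fun y hy => h y (Finset.mem_insert_of_mem hy)
    simp only [Finset.sum_insert ha]
    rw [hres.2.2.1 _ _ x (h a (Finset.mem_insert_self _ _)) (MeromorphicAt.fun_sum h'), ih h']

end Strip

open Strip in
theorem strip_thm (hres0 : S_RES0) : S_STRIP := by
  classical
  intro g r₁ r₂ F hm hp hr hl hF hinj hpol
  have hex : ∀ x : ℂ, ∃ K, x ∈ F → Ker r₁ r₂ x K ∧ Reg1 (fun z => g z - K z) x := fun x => by
    by_cases hx : x ∈ F
    · obtain ⟨n, hn⟩ : ∃ n : ℕ, 0 ≤ meromorphicOrderAt g x + n := by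
        cases meromorphicOrderAt g x with
        | top => exact ⟨0, by simp⟩
        | coe m => exact ⟨(-m).toNat, by norm_cast; omega⟩
      obtain ⟨K, hK⟩ := principal hres0 (hF x hx).1 (hF x hx).2 n g (hm x) hn
      exact ⟨K, fun _ => hK⟩
    · exact ⟨0, fun h => absurd h hx⟩
  choose K hK using hex
  have hs : ∀ z, MeromorphicAt (fun z => ∑ y ∈ F, K y z) z := fun z =>
    MeromorphicAt.fun_sum fun y hy => (hK y hy).1.mer z
  have hh : ∀ z, MeromorphicAt (fun z => g z - ∑ y ∈ F, K y z) z := fun z => (hm z).sub (hs z)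
  have hhp : ∀ x, (fun z => g (z + 1) - ∑ y ∈ F, K y (z + 1)) =ᶠ[𝓝[≠] x]
      fun z => g z - ∑ y ∈ F, K y z := fun x => (hp x).mono fun z hz => by
    simp only [hz, Finset.sum_congr rfl fun y hy => (hK y hy).1.per z]
  have hoth : ∀ x ∈ F, ∀ y ∈ F.erase x, AnalyticAt ℂ (K y) x := fun x hx y hy =>
    (hK y (Finset.mem_of_mem_erase hy)).1.an x fun k e =>
      Finset.ne_of_mem_erase hy (hinj x hx y (Finset.mem_of_mem_erase hy) ⟨k, e⟩).symm
  have hregF : ∀ x ∈ F, Reg1 (fun z => g z - ∑ y ∈ F, K y z) x := fun x hx => by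
    obtain ⟨c, hc⟩ := (hK x hx).2
    obtain ⟨d, hd⟩ := reg_of (Finset.analyticAt_fun_sum _ (hoth x hx))
    exact ⟨c - d, (hc.sub hd).congr fun z => by rw [← Finset.add_sum_erase _ _ hx]; ring⟩
  obtain ⟨H, h1, h2, h3⟩ := base hh hhp hr fun x a b => by
    by_cases hx : ∃ y ∈ F, ∃ k : ℤ, x - y = k
    · obtain ⟨y, hy, k, e⟩ := hx
      rw [sub_eq_iff_eq_add'.1 e]
      exact reg_int (f := fun z => g z - ∑ y ∈ F, K y z) hhp (hregF y hy) k
    · obtain ⟨c, hc⟩ : Reg1 g x := by_contra fun h =>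
        hx (hpol x (a.lt_of_ne fun e => h (hl x (Or.inl e.symm)))
          (b.lt_of_ne fun e => h (hl x (Or.inr e))) h)
      obtain ⟨d, hd⟩ := reg_of (Finset.analyticAt_fun_sum F fun y hy =>
        (hK y hy).1.an x fun k e => hx ⟨y, hy, k, e⟩)
      exact ⟨c - d, hc.sub hd⟩
  have e : ∀ r : ℝ, r = r₁ ∨ r = r₂ → hor g r = hor H r + ∑ y ∈ F, hor (K y) r := fun r hr' => by
    have i : ∀ y ∈ F, IntervalIntegrable (fun u : ℝ => K y (u + r * I)) MeasureTheory.volume 0 1 :=
      fun y hy => int_of fun z hz => (hK y hy).1.an z (off (by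
        rcases hr' with rfl | rfl
        · exact hz ▸ (hF y hy).1.ne
        · exact hz ▸ (hF y hy).2.ne'))
    rw [hor_congr (g := fun z => H z + ∑ y ∈ F, K y z) (fun x => (h1 x).mono fun z hz => by
      simp only [hz, sub_add_cancel]), hor, intervalIntegral.integral_add (int_of fun z hz => by
        rcases hr' with rfl | rfl
        · exact h2 z hz.ge (hz ▸ hr.le)
        · exact h2 z (hz ▸ hr.le) hz.le) (by simpa [Finset.sum_fn] using IntervalIntegrable.sum _ i),
      intervalIntegral.integral_finsetSum i]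
    rfl
  change hor g r₁ - hor g r₂ = _
  rw [e _ (Or.inl rfl), e _ (Or.inr rfl), h3, add_sub_add_left_eq_sub, ← Finset.sum_sub_distrib,
    Finset.mul_sum]
  refine Finset.sum_congr rfl fun x hx => ?_
  have := hres0.2.2.1 _ _ x (hh x) (hs x)
  simp only [sub_add_cancel] at this
  rw [(hK x hx).1.good, this, hres0.2.2.2.2.2.2.1 _ x (hh x) (hregF x hx), zero_add,
    res_sum hres0 F K fun y hy => (hK y hy).1.mer x, ← Finset.add_sum_erase _ _ hx,
    Finset.sum_eq_zero fun y hy => hres0.2.2.2.2.2.2.1 _ x (hoth x hx y hy).meromorphicAt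
      (reg_of (hoth x hx y hy)), add_zero]

end Pool.Agent.P.MP_29cb78_nt.E
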