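import Pool.Agent.P.MP_29cb78_nt.E.Iface

/-!
The three term relation.
-/

namespace Pool.Agent.P.MP_29cb78_nt.E

open Filter Topology

namespace T1

variable {S : Setup}

lemma split (f : Fin 6 → ℂ) {a b : Fin 6} (h : a ≠ b) :
    ∏ j, f j = f a * f b * ∏ j ∈ Finset.univ \ {a, b}, f j := by
  rw [← Finset.prod_sdiff (Finset.subset_univ {a, b}), Finset.prod_pair h, mul_comm]

lemma gen (hosec : S_OSEC) (H : S.TH) (σ : Fin 6 → ℂ) (a b : Fin 6) (hs : ∑ j, σ j = 0)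
    (hab : a ≠ b) (h1 : 2 * σ a ∉ S.M) (h2 : σ a + σ b ∉ S.M) (h3 : σ a - σ b ∉ S.M)
    (h4 : 2 * σ b ∉ S.M) (y : ℂ) : S.ϑ (σ a - σ b) * S.Pm σ y =
    (∏ j ∈ Finset.univ \ {a, b}, S.ϑ (σ j + σ b)) * S.ff (σ a) y -
      (∏ j ∈ Finset.univ \ {a, b}, S.ϑ (σ j + σ a)) * S.ff (σ b) y := by
  obtain ⟨-, o2, o3, o4, -⟩ := hosec S H
  obtain ⟨-, -, p1, p2⟩ := o3 6 σ (by decide) hs
  have z0 : S.ϑ 0 = 0 := (H.zero_iff 0).2 S.M.zero_mem
  have fo : ∀ α y, S.ff α (-y) = -S.ff α y := fun α y => by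
    simp only [Setup.ff, mul_neg, H.odd, sub_neg_eq_add, ← sub_eq_add_neg]
    ring
  have od : S.ϑ (σ b - σ a) = -S.ϑ (σ a - σ b) := by rw [← H.odd, neg_sub]
  obtain ⟨c, hc⟩ := o2 (fun y => S.ϑ (σ a - σ b) * S.Pm σ y -
    ((∏ j ∈ Finset.univ \ {a, b}, S.ϑ (σ j + σ b)) * S.ff (σ a) y -
      (∏ j ∈ Finset.univ \ {a, b}, S.ϑ (σ j + σ a)) * S.ff (σ b) y)) (σ a)
    ⟨(p1.const_mul _).sub (((o4 _).1.const_mul _).sub ((o4 _).1.const_mul _)), fun m hm z => by
      simp only [p2 m hm, (o4 _).2 m hm]; ring⟩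
    (fun y => by simp only [fo, Setup.Pm, neg_neg]; ring) h1 (by
      simp only [Setup.Pm, Setup.PP, Setup.ff, split _ hab, add_neg_cancel, sub_self, z0, od,
        two_mul]
      ring)
  have hb := hc (σ b)
  have e : c * S.ff (σ a) (σ b) = 0 := by
    rw [← hb]
    simp only [Setup.Pm, Setup.PP, Setup.ff, split _ hab, add_neg_cancel, sub_self, z0, two_mul]
    ring
  have c0 : c = 0 := (mul_eq_zero.1 e).resolve_right (mul_ne_zero (mul_ne_zero
    (mt (H.zero_iff _).1 h2) (mt (H.zero_iff _).1 h3)) (mt (H.zero_iff _).1 h4))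
  simpa [c0, sub_eq_zero] using hc y

lemma ev (H : S.TH) (s k : ℂ) (hk : k ≠ 0) : ∀ᶠ z in 𝓝[≠] (0 : ℂ), s + k * z ∉ S.M :=
  (tendsto_nhdsWithin_iff.2 ⟨((by fun_prop : Continuous fun z : ℂ => s + k * z).tendsto' 0 s
    (by simp)).mono_left nhdsWithin_le_nhds, eventually_nhdsWithin_of_forall fun z hz => by
      simpa [hk] using hz⟩ : Tendsto (fun z => s + k * z) (𝓝[≠] 0) (𝓝[≠] s)).eventually (H.disc s)

end T1

theorem t1_thm (hosec : S_OSEC) : S_T1 := by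
  intro S H σ a b hs hab y
  let w : Fin 6 → ℂ := fun j => (if j = a then 6 else 0) + (if j = b then 12 else 0) - 3
  have wa : w a = 3 := by simp only [w, if_pos, if_neg hab]; norm_num
  have wb : w b = 9 := by simp only [w, if_pos, if_neg hab.symm]; norm_num
  have ws : ∑ j, w j = 0 := by
    simp only [w, Finset.sum_sub_distrib, Finset.sum_add_distrib, Finset.sum_ite_eq']
    norm_num
  have hc := H.diff.continuous
  let τ : ℂ → Fin 6 → ℂ := fun z j => σ j + w j * z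
  have key : (fun z => S.ϑ (τ z a - τ z b) * S.Pm (τ z) y) =ᶠ[𝓝[≠] 0] fun z =>
      (∏ j ∈ Finset.univ \ {a, b}, S.ϑ (τ z j + τ z b)) * S.ff (τ z a) y -
        (∏ j ∈ Finset.univ \ {a, b}, S.ϑ (τ z j + τ z a)) * S.ff (τ z b) y := by
    filter_upwards [T1.ev H (2 * σ a) 6 (by norm_num), T1.ev H (σ a + σ b) 12 (by norm_num),
      T1.ev H (σ a - σ b) (-6) (by norm_num), T1.ev H (2 * σ b) 18 (by norm_num)] with z h1 h2 h3 h4
    exact T1.gen hosec H (τ z) a b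
      (by rw [Finset.sum_add_distrib, hs, ← Finset.sum_mul, ws]; simp) hab
      (by rwa [show 2 * τ z a = 2 * σ a + 6 * z by simp only [τ, wa]; ring])
      (by rwa [show τ z a + τ z b = σ a + σ b + 12 * z by simp only [τ, wa, wb]; ring])
      (by rwa [show τ z a - τ z b = σ a - σ b + -6 * z by simp only [τ, wa, wb]; ring])
      (by rwa [show 2 * τ z b = 2 * σ b + 18 * z by simp only [τ, wb]; ring]) y
  have := tendsto_nhds_unique_of_eventuallyEq
    ((Continuous.tendsto (by simp only [Setup.Pm, Setup.PP, τ]; fun_prop) 0).mono_left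
      nhdsWithin_le_nhds)
    ((Continuous.tendsto (by simp only [Setup.ff, τ]; fun_prop) 0).mono_left nhdsWithin_le_nhds) key
  simpa [τ] using this

end Pool.Agent.P.MP_29cb78_nt.E
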