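import Pool.Agent.P.MP_29cb78_nt.E.TameAux1

/-! Periodic products are tame. -/

namespace Pool.Agent.P.MP_29cb78_nt.E

theorem tame_thm (hwper : S_WPER) : S_TAME := by
  intro S hT G hG d d₁ d₂ t α β f₁ f₂ cl hd ht h₁ h₂ s₁ s₂ hs
  refine Tame.tame0 (g := fun y => f₁ (S.x₁ y) * f₂ (S.x₂ y)) hG
    (fun x => (Tame.an₁ s₁.1 x).mul (Tame.an₂ s₂.1 x)) hs.clper hs.lower hs.upper
    fun ω hω x => .of_forall fun z => ?_
  have h := hwper S hT G hG d t α β hd ht ω hω (x + S.ι z)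
  have n₁ := hT.mult_ne _ hω.1 (S.x₁ (x + S.ι z))
  have n₂ := hT.mult_ne _ hω.2 (S.x₂ (x + S.ι z))
  change S.WW G t (x + S.ι z + ω) * _ = S.WW G t (x + S.ι z) * _
  rw [map_add S.x₁ _ ω, map_add S.x₂ _ ω, s₁.2 _ hω.1, s₂.2 _ hω.2]
  nth_rw 2 [← h₁] at h
  nth_rw 2 [← h₂] at h
  apply mul_right_cancel₀ (mul_ne_zero (pow_ne_zero (2 * α) n₁) (pow_ne_zero (2 * β) n₂))
  linear_combination (f₁ (S.x₁ (x + S.ι z)) * f₂ (S.x₂ (x + S.ι z))) * h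

end Pool.Agent.P.MP_29cb78_nt.E
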