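import Pool.Agent.P.MP_29cb78_nt.E.Thq

/-! The theta product in the direction of `p`. -/

namespace Pool.Agent.P.MP_29cb78_nt.E

open Filter Topology
open scoped Classical Real

noncomputable section

namespace Thp

variable {S : Setup}

/-- Translation by `m` multiplies `f` by the exponential of an affine function. -/
def Aff (f : ℂ → ℂ) (m : ℂ) : Prop := ∃ a b : ℂ, ∀ z, f (z + m) = Complex.exp (a * z + b) * f z

/-- These translations form a group. -/
def affG (f : ℂ → ℂ) : AddSubgroup ℂ where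
  carrier := {m | Aff f m}
  zero_mem' := ⟨0, 0, fun z => by simp⟩
  add_mem' := by
    rintro m m' ⟨a, b, h⟩ ⟨a', b', h'⟩
    refine ⟨a + a', b + (a' * m + b'), fun z => ?_⟩
    rw [← add_assoc, h', h, ← mul_assoc, ← Complex.exp_add]
    congr 2
    ring
  neg_mem' := by
    rintro m ⟨a, b, h⟩
    refine ⟨-a, a * m - b, fun z => ?_⟩
    have h1 := h (z + -m)
    rw [neg_add_cancel_right] at h1
    rw [h1, ← mul_assoc, ← Complex.exp_add,
      show -a * z + (a * m - b) + (a * (z + -m) + b) = 0 by ring, Complex.exp_zero, one_mul]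

theorem deriv_ne {f : ℂ → ℂ} (hf : Differentiable ℂ f) (h0 : f 0 = 0) (h1 : deriv f 0 ≠ 0) {m : ℂ}
    (h : Aff f m) : deriv f m ≠ 0 := by
  obtain ⟨a, b, h⟩ := h
  have h2 : HasDerivAt (fun z => f (z + m)) (deriv f m) 0 :=
    HasDerivAt.comp_add_const 0 m (by simpa using (hf m).hasDerivAt)
  have h3 : DifferentiableAt ℂ (fun z => Complex.exp (a * z + b)) 0 := by fun_prop
  have h4 := h3.hasDerivAt.mul (hf 0).hasDerivAt
  rw [funext h] at h2
  rw [h2.unique h4, h0, mul_zero, zero_add]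
  exact mul_ne_zero (Complex.exp_ne_zero _) h1

theorem quot (hT : S.TH) {f : ℂ → ℂ} (hf : Differentiable ℂ f) (h0 : ∀ z, f z = 0 ↔ z ∈ S.M)
    (h1 : ∀ m ∈ S.M, deriv f m ≠ 0) :
    ∃ u : ℂ → ℂ, Differentiable ℂ u ∧ (∀ z, u z ≠ 0) ∧ ∀ z, S.ϑ z = u z * f z := by
  refine ⟨fun z => if z ∈ S.M then deriv S.ϑ z / deriv f z else S.ϑ z / f z, fun z => ?_,
    fun z => ?_, fun z => ?_⟩
  · by_cases hz : z ∈ S.M
    · have d : ∀ g : ℂ → ℂ, Differentiable ℂ g → DifferentiableAt ℂ (dslope g z) z := fun g hg =>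
        ((Complex.differentiableOn_dslope univ_mem).2 hg.differentiableOn).differentiableAt
          univ_mem
      refine ((d _ hT.diff).div (d _ hf) (by simpa using h1 z hz)).congr_of_eventuallyEq ?_
      have h2 := eventually_nhdsWithin_iff.1 (hT.disc z)
      filter_upwards [h2] with w hw
      by_cases hwz : w = z
      · simp [hwz, hz]
      · have h3 : w - z ≠ 0 := sub_ne_zero.2 hwz
        rw [if_neg (hw hwz), Pi.div_apply, dslope_of_ne _ hwz, dslope_of_ne _ hwz, slope_def_field,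
          slope_def_field, (hT.zero_iff z).2 hz, (h0 z).2 hz, sub_zero, sub_zero,
          div_div_div_cancel_right₀ h3]
    · have h2 : f z ≠ 0 := fun h => hz ((h0 z).1 h)
      refine ((hT.diff z).div (hf z) h2).congr_of_eventuallyEq ?_
      filter_upwards [hf.continuous.continuousAt.eventually_ne h2] with w hw
      rw [if_neg fun h => hw ((h0 w).2 h), Pi.div_apply]
  · beta_reduce
    by_cases hz : z ∈ S.M
    · rw [if_pos hz]
      exact div_ne_zero (hT.deriv_ne z hz) (h1 z hz)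
    · rw [if_neg hz]
      exact div_ne_zero (fun h => hz ((hT.zero_iff z).1 h)) fun h => hz ((h0 z).1 h)
  · beta_reduce
    by_cases hz : z ∈ S.M
    · rw [(hT.zero_iff z).2 hz, (h0 z).2 hz, mul_zero]
    · rw [if_neg hz, div_mul_cancel₀ _ fun h => hz ((h0 z).1 h)]

theorem expq (hT : S.TH) {u : ℂ → ℂ} (hu : Differentiable ℂ u) (h0 : ∀ z, u z ≠ 0)
    (h1 : ∀ m ∈ S.M, Aff u m) :
    ∃ c₀ c₁ c₂ : ℂ, ∀ z, u z = Complex.exp (c₀ + c₁ * z + c₂ * z ^ 2) := by
  have hd : Differentiable ℂ (deriv u) := fun z => (hu.analyticAt z).deriv.differentiableAt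
  set L : ℂ → ℂ := fun z => deriv u z / u z with hL
  have hLd : Differentiable ℂ L := hd.div hu h0
  have hLd' : Differentiable ℂ (deriv L) := fun z => (hLd.analyticAt z).deriv.differentiableAt
  have h2 : ∀ z, deriv L z = deriv L 0 := fun z => hT.liou _ hLd' (fun m hm w => by
    obtain ⟨a, b, h⟩ := h1 m hm
    have h3 : (fun w => L (w + m)) = fun w => a + L w := by
      funext w
      have h4 : HasDerivAt (fun z => u (z + m)) (deriv u (w + m)) w :=
        HasDerivAt.comp_add_const w m (hu _).hasDerivAt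
      have h5 := ((((hasDerivAt_id w).const_mul a).add_const b).cexp).mul (hu w).hasDerivAt
      rw [funext h] at h4
      have h6 := h0 w
      have h7 := Complex.exp_ne_zero (a * w + b)
      simp only [hL]
      rw [h4.unique h5, h]
      simp only [id]
      field_simp
    rw [← deriv_comp_add_const, h3, deriv_const_add]) z 0
  have h3 : ∀ z, L z = L 0 + deriv L 0 * z := fun z => by
    have h4 : ∀ w, HasDerivAt (fun w => L w - deriv L 0 * w) 0 w := fun w => by
      have h5 := (hLd w).hasDerivAt.sub ((hasDerivAt_id w).const_mul (deriv L 0))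
      rw [h2 w, mul_one, sub_self] at h5
      exact h5
    have h6 := is_const_of_deriv_eq_zero (fun w => (h4 w).differentiableAt)
      (fun w => (h4 w).deriv) z 0
    simp only [mul_zero, sub_zero] at h6
    linear_combination h6
  have h4 : ∀ w, HasDerivAt (fun w => u w * Complex.exp (-(L 0 * w + deriv L 0 / 2 * w ^ 2))) 0
      w := fun w => by
    have h5 := (hu w).hasDerivAt.mul ((((hasDerivAt_id w).const_mul (L 0)).add
      ((hasDerivAt_pow 2 w).const_mul (deriv L 0 / 2))).neg.cexp)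
    refine HasDerivAt.congr_deriv h5 ?_
    have h6 : deriv u w = (L 0 + deriv L 0 * w) * u w := by
      rw [← h3, hL, div_mul_cancel₀ _ (h0 w)]
    rw [h6]
    simp only [Pi.neg_apply, Pi.add_apply, id]
    push_cast
    ring
  refine ⟨Complex.log (u 0), L 0, deriv L 0 / 2, fun z => ?_⟩
  have h6 := is_const_of_deriv_eq_zero (fun w => (h4 w).differentiableAt)
    (fun w => (h4 w).deriv) z 0
  simp only [mul_zero, ne_eq, OfNat.ofNat_ne_zero, not_false_eq_true, zero_pow, add_zero, neg_zero,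
    Complex.exp_zero, mul_one] at h6
  rw [add_assoc, Complex.exp_add, Complex.exp_log (h0 0), ← h6, mul_assoc, ← Complex.exp_add,
    neg_add_cancel, Complex.exp_zero, mul_one]

theorem cmp (hT : S.TH) {f : ℂ → ℂ} (hf : Differentiable ℂ f) (h0 : ∀ z, f z = 0 ↔ z ∈ S.M)
    (h1 : deriv f 0 ≠ 0) (h2 : ∀ m ∈ S.M, Aff f m) :
    ∃ c₀ c₁ c₂ : ℂ, ∀ z, S.ϑ z = Complex.exp (c₀ + c₁ * z + c₂ * z ^ 2) * f z := by
  obtain ⟨u, hu, hu0, e⟩ := quot hT hf h0 fun m hm =>
    deriv_ne hf ((h0 0).2 S.M.zero_mem) h1 (h2 m hm)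
  obtain ⟨B, -, hB⟩ := hT.quad
  obtain ⟨c₀, c₁, c₂, h⟩ := expq hT hu hu0 fun m hm => by
    obtain ⟨a, b, h⟩ := h2 m hm
    refine ⟨S.η m - a, B m m - b, fun z => ?_⟩
    have c1 : Continuous fun z => u (z + m) := hu.continuous.comp (by fun_prop)
    have c2 : Continuous fun z => Complex.exp ((S.η m - a) * z + (B m m - b)) * u z :=
      Continuous.mul (by fun_prop) hu.continuous
    refine tendsto_nhds_unique_of_eventuallyEq (l := 𝓝[≠] z)
      ((c1.tendsto z).mono_left nhdsWithin_le_nhds) ((c2.tendsto z).mono_left nhdsWithin_le_nhds) ?_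
    filter_upwards [hT.disc z] with w hw
    have h3 := hT.shift m hm w
    rw [e, e, h, hB m hm] at h3
    have h4 : f w ≠ 0 := fun h => hw ((h0 w).1 h)
    apply mul_right_cancel₀ (mul_ne_zero (Complex.exp_ne_zero (a * w + b)) h4)
    rw [h3, show S.η m * w + B m m = (S.η m - a) * w + (B m m - b) + (a * w + b) by ring,
      Complex.exp_add _ (a * w + b)]
    ring
  exact ⟨c₀, c₁, c₂, fun z => by rw [e, h]⟩

end Thp

theorem thp_thm : S_THP := by
  intro S hT
  have hγ := S.γ_ne
  have hε := S.ε_ne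
  have hτ : 0 < ((S.s : ℂ) * S.τp).im := by
    have : (0 : ℝ) < S.s := by exact_mod_cast S.s_pos
    simpa using mul_pos this S.τp_pos
  have hd := Th.th0_diff hτ
  obtain ⟨c₀, c₁, c₂, h⟩ := Thp.cmp hT (f := fun z => th0 (S.ε * z / S.γ) (S.s * S.τp))
    (hd.comp (by fun_prop)) (fun z => by
      rw [Th.th0_eq_zero hτ, S.mem_M_iff']
      refine exists₂_congr fun j k => ?_
      rw [div_eq_iff hγ, div_mul_eq_mul_div, eq_div_iff hε, mul_comm z, mul_comm S.γ])
    (by
      have h1 : HasDerivAt (fun z => S.ε * z / S.γ) (S.ε * 1 / S.γ) 0 :=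
        ((hasDerivAt_id 0).const_mul S.ε).div_const S.γ
      have h2 := HasDerivAt.comp_of_eq (0 : ℂ) (Th.th0_hasDerivAt hτ) h1 (by simp)
      rw [show (fun z => th0 (S.ε * z / S.γ) (S.s * S.τp)) =
        (fun z => th0 z (S.s * S.τp)) ∘ fun z => S.ε * z / S.γ from rfl, h2.deriv]
      have h3 := Th.G_ne hτ hτ
      have h4 := Real.pi_ne_zero
      simp [*])
    (fun m hm => by
      obtain ⟨j, k, rfl⟩ := S.mem_M_iff'.1 hm
      have h1 : S.γ / S.ε ∈ Thp.affG fun z => th0 (S.ε * z / S.γ) (S.s * S.τp) :=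
        ⟨0, 0, fun z => by
          have := Th.th0_int hτ (S.ε * z / S.γ) 1
          simp only [zero_mul, add_zero, Complex.exp_zero, one_mul]
          rw [← this]
          congr 1
          push_cast
          field_simp⟩
      have h2 : S.γ / S.ε * (S.s * S.τp) ∈ Thp.affG fun z => th0 (S.ε * z / S.γ) (S.s * S.τp) :=
        ⟨-(2 * π * Complex.I * S.ε / S.γ), π * Complex.I, fun z => by
          have := Th.th0_tau hτ (S.ε * z / S.γ)
          simp only
          rw [Complex.exp_add, Complex.exp_pi_mul_I, mul_neg_one,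
            show -(2 * π * Complex.I * S.ε / S.γ) * z = 2 * π * Complex.I * -(S.ε * z / S.γ) by
              ring, ← ee, ← this]
          congr 1
          field_simp⟩
      have h3 := AddSubgroup.add_mem _ (AddSubgroup.zsmul_mem _ h1 j) (AddSubgroup.zsmul_mem _ h2 k)
      rw [zsmul_eq_mul, zsmul_eq_mul, show (j : ℂ) * (S.γ / S.ε) + k * (S.γ / S.ε * (S.s * S.τp)) =
        S.γ / S.ε * (j + k * (S.s * S.τp)) by ring] at h3
      exact h3)
  refine Thq.fin S hT S.x₂ 1 (fun z => by simp) _ c₀ c₁ c₂ h _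
    (fun x => S.γ / S.ε * ((0 : ℤ) + (-(-S.n x / S.s) : ℤ) * (S.s * S.τp)))
    (fun x => S.mem_M_iff'.2 ⟨_, _, rfl⟩) (fun x z => by simp) fun x => ?_
  obtain ⟨i, h1, h2⟩ := Thq.θw_eq S S.p x S.n S.n_p S.dvd_iff (by rw [S.w_p]; exact hτ)
  have h3 : (S.n x : ℂ) + i = S.s * (-(-S.n x / S.s) : ℤ) := by exact_mod_cast h1
  obtain ⟨i', h4⟩ := (S.w_second x).1
  rw [h2, S.w_p, h4, add_right_comm, Th.th0_int hτ, add_assoc, ← add_mul, h3]
  congr 1
  field_simp
  push_cast
  ring

end

end Pool.Agent.P.MP_29cb78_nt.E
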