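import Pool.Agent.P.MP_29cb78_nt.E.Basic

/-!
Good representatives of the parameters.
-/

namespace Pool.Agent.P.MP_29cb78_nt.E

open Filter Topology
open scoped Classical Real

theorem thr_thm : S_THR := by
  rintro S d t e ⟨m, hm⟩ hA h0 h1 hL
  obtain ⟨R, hR⟩ : ∃ R : ℕ, ∀ j, |S.a (S.x₁ (t j))| ≤ R := by
    obtain ⟨B, hB⟩ := (Set.finite_range fun j => |S.a (S.x₁ (t j))|).bddAbove
    obtain ⟨R, h⟩ := exists_nat_ge B
    exact ⟨R, fun j => (hB ⟨j, rfl⟩).trans h⟩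
  obtain ⟨k, hk⟩ : ∃ k : Fin (d + 2) → ℤ, ∀ j, k j =
      if j = 0 then (3 * R + 2 + d * (R + 1) - (m + 1) : ℤ)
      else if j = 1 then -(3 * R + 2 : ℤ) else -(R + 1 : ℤ) := ⟨_, fun _ => rfl⟩
  have e0 : ∀ j, e j = 0 ↔ j = 0 := fun j => e.injective.eq_iff' (hA.fix 0 h0)
  have e1 : ∀ j, e j = 1 ↔ j = 1 := fun j => e.injective.eq_iff' (hA.fix 1 h1)
  have ke : ∀ j, k (e j) = k j := fun j => by simp only [hk, e0, e1]
  have a1 : ∀ j, S.a (S.x₁ (S.sh t k j)) = S.a (S.x₁ (t j)) + 1 / 2 + k j := fun j => by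
    simp [Setup.sh, S.a_half, S.a_lam, S.a_int_mul]
  have a2 : ∀ j, S.a (S.x₂ (S.sh t k j)) = S.a (S.x₁ (S.sh t k (e j))) := fun j => by
    rw [a1, ke, hA.sw₁]
    simp [Setup.sh, S.a_half, S.a_lam, S.a_int_mul]
  have r0 : (0 : ℚ) ≤ R := R.cast_nonneg
  have n1 : ∀ j, j ≠ 0 → S.a (S.x₁ (S.sh t k j)) < 0 := fun j hj => by
    have := (abs_le.1 (hR j)).2
    rw [a1, hk, if_neg hj]
    split_ifs <;> push_cast <;> linarith
  have p0 : 0 < S.a (S.x₂ (S.sh t k 0)) := by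
    have := (abs_le.1 (hR 0)).1
    have : (0 : ℚ) ≤ m := m.cast_nonneg
    have hd : (d : ℚ) = m + m := by exact_mod_cast hm
    rw [a2, hA.fix 0 h0, a1, hk, if_pos rfl]
    push_cast
    nlinarith
  have n2 : ∀ j, j ≠ 0 → S.a (S.x₂ (S.sh t k j)) < 0 := fun j hj =>
    a2 j ▸ n1 _ fun h => hj ((e0 j).1 h)
  have n3 : ∀ j, S.a (S.x₂ (S.sh t k j)) ≤ S.a (S.x₂ (S.sh t k 0)) := fun j =>
    (eq_or_ne j 0).elim (fun h => h ▸ le_rfl) fun h => ((n2 j h).trans p0).le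
  have key : ∀ j, ¬ S.Lat (S.sh t k 0 + S.sh t k j) := fun j h => hL j (by
    convert h.sub ((S.lat_p.sub S.lat_q).zsmul (1 + k 0 + k j)) using 1
    rw [add_zsmul, add_zsmul, one_zsmul, ← S.hT_add_hT]
    simp only [Setup.sh, ← S.hT_add_hT]
    abel)
  refine ⟨k, fun z => if S.x₂ (S.sh t k 0) + z ∈ S.L then S.a (S.x₂ (S.sh t k 0)) + 1 else
    if S.x₂ (S.sh t k 0) - z ∈ S.L then -S.a (S.x₂ (S.sh t k 0)) else 0, ke, ?_,
    ⟨fun z l hl => ?_, ⟨S.a (S.x₂ (S.sh t k 0)) + 1, fun z => ?_⟩, fun j y h => ?_,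
      fun j y h => ?_⟩, n1, fun j j0 j1 => ?_⟩
  · have : ∑ j, k j = -(m + 1 : ℕ) := by
      simp [Fin.sum_univ_succ, hk, Fin.succ_ne_zero, Fin.succ_succ_ne_one]
      ring
    simp only [Setup.sh, Finset.sum_add_distrib, hA.sum, ← Finset.sum_smul, this, Finset.sum_const,
      Finset.card_univ, Fintype.card_fin, ← S.hT_add_hT]
    rw [hm]
    module
  · simp only [← add_assoc, sub_add_eq_sub_sub, sub_eq_add_neg _ l, S.L.add_mem_cancel_right hl,
      S.L.add_mem_cancel_right (S.L.neg_mem hl)]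
  · split_ifs <;> exact abs_le.2 ⟨by linarith, by linarith⟩
  · simp only [← map_add, ← map_sub, ← S.lat_iff]
    split_ifs with b1 b2
    · linarith [n3 j]
    · exact (key j (by simpa using b2.add h)).elim
    · exact n2 j fun hj => b1 (hj ▸ h)
  · simp only [← map_add, ← map_sub, ← S.lat_iff]
    split_ifs with b1 b2
    · exact (key j (by simpa using b1.add h)).elim
    · exact neg_le_neg (n3 j)
    · exact (neg_pos.2 (n2 j fun hj => b2 (hj ▸ h))).le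
  · have := (abs_le.1 (hR j)).1
    have := (abs_le.1 (hR 1)).2
    rw [a1, a1, hk, hk, if_neg j0, if_neg j1, if_neg Fin.zero_ne_one.symm, if_pos rfl]
    push_cast
    linarith

end Pool.Agent.P.MP_29cb78_nt.E
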