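import Pool.Agent.P.MP_29cb78_nt.E.Tj1Aux1

/-! The telescoping term with poles on the antidiagonal. -/

namespace Pool.Agent.P.MP_29cb78_nt.E

theorem tj2_thm (hosec : S_OSEC) (htame : S_TAME) : S_TJ2 := by
  intro S hT G hG Λ hΛ d t σ θ φ k F hd ht hσ hθ hφ hφΩ hF
  have tw := Tj1.tw hosec htame hT hG hd ht (fun y => (hσ y).1) hθ.sep
  obtain ⟨W, hW⟩ : ∃ W : S.A → ℂ, W = fun y => ∏ j, (G (t j + 0 + y) * G (t j + (S.p + S.q) - y)) :=
    ⟨_, rfl⟩
  have e1 : S.AE (fun y => S.WW G t y * (S.PP σ (-S.x₁ y) * S.PP σ (-S.x₂ y))) W := by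
    rw [hW]
    refine Tj1.ae hT G t hσ (fun y => -S.x₁ y) (fun y => -S.x₂ y) fun j y h0 => ?_
    rw [add_zero, add_sub_right_comm, ← add_assoc, hG.shq _ fun h => h0.2 h.of_add_p,
      hG.shp _ h0.2]
    simp only [map_add, map_neg, sub_eq_add_neg, S.x₂_p, add_zero]
    ring
  have e2 : S.AE (fun y => S.WW G t y * (S.PP σ (S.x₁ y) * S.PP σ (S.x₂ y)))
      fun y => W (y + (S.p + S.q)) := by
    rw [hW]
    refine Tj1.ae hT G t hσ S.x₁ S.x₂ fun j y h0 => ?_
    rw [show t j + 0 + (y + (S.p + S.q)) = t j + y + S.p + S.q by abel,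
      show t j + (S.p + S.q) - (y + (S.p + S.q)) = t j - y by abel,
      hG.shq _ fun h => h0.1 h.of_add_p, hG.shp _ h0.1]
    simp only [map_add, S.x₂_p, add_zero]
    ring
  have t1 : S.Tame W (S.clT θ) :=
    (tw (fun y => S.PP σ (-y)) (by simp) (fun y => S.PP σ (-y)) (by simp)).congr e1
  have t2 : S.Tame W fun y => S.clT θ (y - (S.p + S.q)) := by
    have := ((tw _ (by simp) _ (by simp)).congr e2).shift (-(S.p + S.q))
    simpa only [neg_add_cancel_right, ← sub_eq_add_neg, sub_add_cancel] using this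
  have hc : ∀ y, S.clT θ (y - (S.p + S.q)) ↔ θ (S.x₂ y) ≤ S.kk y + -1 := fun y => by
    have := hθ.per (S.x₂ y) _ S.lam_mem
    simp [Setup.clT, sub_eq_add_neg, this]
  have h0 : 0 < S.h S.q + S.h S.p := by linarith [S.h_p_lt, S.h_p_pos]
  obtain ⟨k1, k2, k3⟩ := Tj1.key hT hΛ (S.x₁ + S.x₂) S.ε_add_ne (fun z => by simp; ring)
    (fun ω hω => S.M.add_mem hω.1 hω.2) hφ hφΩ t1 t2
    (Tj1.bnd hθ.bdd 0 h0 (fun y hy => S.h_anti hy) fun y => by rw [add_zero]; rfl)
    (Tj1.bnd hθ.bdd (-1) h0 (fun y hy => S.h_anti hy) hc)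
    (fun x hx => by
      rw [hW] at hx
      obtain ⟨j, hj⟩ := not_forall.1 fun h => hx (Tj1.an hG t 0 (S.p + S.q) x h)
      rcases not_and_or.1 hj with h | h <;> rw [not_not] at h
      · refine iff_of_false (hθ.sep.lower j _ ?_)
          (hθ.sep.lower j _ (Setup.Pole.of_add_p (Setup.Pole.of_add_q ?_))) <;>
          convert h using 1 <;> abel
      · refine iff_of_true (hθ.sep.upper j _ (Setup.Pole.of_add_p (Setup.Pole.of_add_q ?_)))
          (hθ.sep.upper j _ ?_) <;> convert h using 1 <;> abel)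
    (fun x hx => show θ (S.x₂ x) ≤ S.kk x by linarith [(hc x).1 hx]) (F := F) (by
      convert hF using 2 with y
      exact and_congr Iff.rfl (and_congr Iff.rfl (by rw [hc, not_le, add_neg_lt_iff_lt_add])))
  obtain ⟨s1, s2⟩ := hΛ.shift' (S.p + S.q) k2
  refine ⟨_, k1.sub s1, ?_, ?_⟩
  · have := (e1.symm.mul (Setup.AE.refl fun y => S.zt (S.x₁ y + S.x₂ y) - φ y)).sub
      (e2.symm.mul (Setup.AE.refl fun y => S.zt (S.x₁ y + S.x₂ y) - φ (y + (S.p + S.q))))
    convert this using 2 with y y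
    · rw [map_add (S.x₁ + S.x₂), show (S.x₁ + S.x₂) (S.p + S.q) = 0 by simp, add_zero]
      rfl
    · ring
  · rw [hΛ.sub k1 s1, s2, k3, hW]
    simp only [add_zero, add_sub_right_comm _ (S.p + S.q), add_assoc]

end Pool.Agent.P.MP_29cb78_nt.E
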