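import Pool.Agent.P.MP_29cb78_nt.E.TameAux1

/-! The two exact terms of the telescoping identity. -/

namespace Pool.Agent.P.MP_29cb78_nt.E

namespace Tv

variable {S : Setup} {d : ℕ} {σ : Fin d → ℂ}

theorem gg_shift (hd : d ≠ 0) (h₁ : S.Sec d (S.PP σ)) (h₂ : S.Sec d fun y => S.PP σ (-y))
    {m : ℂ} (hm : m ∈ S.M) (z : ℂ) :
    S.GG σ (z + m) = S.mult m z ^ d * (S.GG σ z + S.η m * (S.PP σ z + S.PP σ (-z))) := by
  have h1 : HasDerivAt (S.mult m) (S.mult m z * S.η m) z := by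
    have := (((hasDerivAt_id z).const_mul (S.η m)).cexp).const_mul (deriv S.ϑ m / deriv S.ϑ 0)
    simp only [id, mul_one, ← mul_assoc] at this
    exact this
  have h2 := ((h1.fun_pow d).fun_mul ((h₁.1.fun_add h₂.1) z).hasDerivAt).deriv
  have h3 : (fun z => S.mult m z ^ d * (S.PP σ z + S.PP σ (-z))) =
      fun z => (fun u => S.PP σ u + S.PP σ (-u)) (z + m) := funext fun z => by
    have := h₂.2 m hm z
    simp only at this ⊢
    rw [h₁.2 m hm, this, mul_add]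
  rw [h3, deriv_comp_add_const (fun u => S.PP σ u + S.PP σ (-u))] at h2
  have h4 : (d : ℂ) ≠ 0 := by exact_mod_cast hd
  rw [Setup.GG, Setup.GG, h2, mul_assoc (d : ℂ), ← mul_assoc (_ ^ _), pow_sub_one_mul hd]
  field_simp
  ring

theorem gsec (hd : d ≠ 0) (h₁ : S.Sec d (S.PP σ)) (h₂ : S.Sec d fun y => S.PP σ (-y))
    (x φ : S.A →+ ℂ) (α : ℂ) {ω : S.A} (hω : x ω ∈ S.M) (h : φ ω = S.η (x ω)) (y : S.A) :
    S.GG σ (x (y + ω)) - φ (y + ω) * (S.PP σ (x (y + ω)) + S.PP σ (-x (y + ω))) +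
      α * S.PP σ (x (y + ω)) = S.mult (x ω) (x y) ^ d *
      (S.GG σ (x y) - φ y * (S.PP σ (x y) + S.PP σ (-x y)) + α * S.PP σ (x y)) := by
  have := h₂.2 _ hω (x y)
  simp only at this
  rw [map_add, map_add, gg_shift hd h₁ h₂ hω, h₁.2 _ hω, this, h]
  ring

theorem gan (h₁ : S.Sec d (S.PP σ)) (h₂ : S.Sec d fun y => S.PP σ (-y)) {x φ : S.A →+ ℂ}
    (hx : ∀ {f : ℂ → ℂ}, Differentiable ℂ f → ∀ u, AnalyticAt ℂ (S.sl (fun y => f (x y)) u) 0)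
    (α : ℂ) {k : ℂ} (hφ : ∀ z, φ (S.ι z) = k * z) (u : S.A) : AnalyticAt ℂ (S.sl (fun y =>
      S.GG σ (x y) - φ y * (S.PP σ (x y) + S.PP σ (-x y)) + α * S.PP σ (x y)) u) 0 := by
  have h1 : AnalyticAt ℂ (S.sl φ u) 0 := by
    have : S.sl φ u = fun z => φ u + k * z := by funext z; simp [Setup.sl, hφ]
    rw [this]; fun_prop
  exact ((hx (f := S.GG σ) ((h₁.1.fun_add h₂.1).deriv.div_const _) u).sub
    (h1.mul (hx (h₁.1.fun_add h₂.1) u))).add (hx (h₁.1.const_mul α) u)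

end Tv

theorem tv_thm (hosec : S_OSEC) (hwper : S_WPER) : S_TV := by
  intro S hT G hG Λ hΛ d t σ cl φ k α hd hd0 ht hσ0 hσ hs hφ
  obtain ⟨h₁, h₂, -⟩ := (hosec S hT).2.2.1 d σ hd hσ0
  have hw := hwper S hT G hG d t 0 0 hd (by simpa using ht)
  refine ⟨fun hΩ => ?_, fun hΩ => ?_⟩
  · obtain ⟨k1, k2⟩ := Tame.exa hT hG hΛ S.p S.x₁ hG.shp (fun _ h => h.of_add_p) hs
      (fun y => (hσ y).1) (Tv.gan h₁ h₂ Tame.an₂ α hφ) fun ω hω x => .of_forall fun z => by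
        have := h₂.2 _ hω.1 (S.x₁ (x + S.ι z))
        simp only [Setup.sl] at this ⊢
        rw [Tv.gsec hd0 h₁ h₂ _ _ _ hω.2 (hΩ ω hω), map_add S.x₁ _ ω, this]
        linear_combination (S.PP σ (-S.x₁ (x + S.ι z)) * (S.GG σ (S.x₂ (x + S.ι z)) -
          φ (x + S.ι z) * (S.PP σ (S.x₂ (x + S.ι z)) + S.PP σ (-S.x₂ (x + S.ι z))) +
          α * S.PP σ (S.x₂ (x + S.ι z)))) * hw ω hω (x + S.ι z)
    refine ⟨_, k1, k2, ?_⟩
    simp only [map_add S.x₂, S.x₂_p, add_zero]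
    exact Setup.AE.refl _
  · obtain ⟨k1, k2⟩ := Tame.exa hT hG hΛ S.q S.x₂ hG.shq (fun _ h => h.of_add_q) hs
      (fun y => (hσ y).2) (Tv.gan h₁ h₂ Tame.an₁ α hφ) fun ω hω x => .of_forall fun z => by
        have := h₂.2 _ hω.2 (S.x₂ (x + S.ι z))
        simp only [Setup.sl] at this ⊢
        rw [Tv.gsec hd0 h₁ h₂ _ _ _ hω.1 (hΩ ω hω), map_add S.x₂ _ ω, this]
        linear_combination (S.PP σ (-S.x₂ (x + S.ι z)) * (S.GG σ (S.x₁ (x + S.ι z)) -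
          φ (x + S.ι z) * (S.PP σ (S.x₁ (x + S.ι z)) + S.PP σ (-S.x₁ (x + S.ι z))) +
          α * S.PP σ (S.x₁ (x + S.ι z)))) * hw ω hω (x + S.ι z)
    refine ⟨_, k1, k2, ?_⟩
    simp only [map_add S.x₁, S.x₁_q, add_zero]
    exact Setup.AE.refl _

end Pool.Agent.P.MP_29cb78_nt.E
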