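import Pool.Agent.P.MP_29cb78_nt.E.Basic

/-!
The symmetrised values.
-/

namespace Pool.Agent.P.MP_29cb78_nt.E

open Filter Topology
open scoped Classical Real

noncomputable section

namespace Up

variable {S : Setup}

lemma mem_V {x : S.A} : x ∈ S.V ↔ S.x₂ x - S.ε * S.x₁ x ∈ S.L := Iff.rfl

lemma x₁_sw {x : S.A} (hx : x ∈ S.V) : S.x₁ (S.sw x) = S.x₂ x := S.x₁_pt hx

lemma x₂_sw {x : S.A} (hx : x ∈ S.V) : S.x₂ (S.sw x) = S.x₁ x := S.x₂_pt hx

lemma sw_add {x y : S.A} (hx : x ∈ S.V) (hy : y ∈ S.V) : S.sw (x + y) = S.sw x + S.sw y :=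
  S.ext (by simp [x₁_sw hx, x₁_sw hy, x₁_sw (S.V.add_mem hx hy)])
    (by simp [x₂_sw hx, x₂_sw hy, x₂_sw (S.V.add_mem hx hy)])

lemma sw_neg {x : S.A} (hx : x ∈ S.V) : S.sw (-x) = -S.sw x :=
  S.ext (by simp [x₁_sw hx, x₁_sw (S.V.neg_mem hx)]) (by simp [x₂_sw hx, x₂_sw (S.V.neg_mem hx)])

/-- The transpose as an additive map. -/
def swH (S : Setup) : S.V →+ S.A := AddMonoidHom.mk' (fun x => S.sw x) fun x y => sw_add x.2 y.2

lemma lat_sw {x : S.A} (hx : x ∈ S.V) : S.Lat (S.sw x) ↔ S.Lat x := by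
  rw [S.lat_iff (x := x), Setup.Lat, x₁_sw hx]

lemma lat_V {x : S.A} (hx : S.Lat x) : x ∈ S.V :=
  S.L.sub_mem (S.lat_iff.1 hx) (S.mul_mem hx)

lemma diag_V {x : S.A} (hx : S.Diag x) : x ∈ S.V := by
  have := S.diff_mem x
  rw [Setup.Diag] at hx
  rw [mem_V]
  nth_rewrite 1 [← hx]
  nth_rewrite 2 [hx]
  exact this

lemma anti_V {x : S.A} (hx : S.Anti x) : x ∈ S.V := by
  have := S.L.neg_mem (S.diff_mem x)
  rw [Setup.Anti] at hx
  rw [mem_V]
  convert this using 1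
  rw [hx]
  ring

lemma sw_diag {x : S.A} (hx : S.Diag x) : S.sw x = x :=
  S.ext (by rw [x₁_sw (diag_V hx)]; exact hx.symm) (by rw [x₂_sw (diag_V hx)]; exact hx)

lemma sw_anti {x : S.A} (hx : S.Anti x) : S.sw x = -x :=
  S.ext (by rw [x₁_sw (anti_V hx), map_neg, show S.x₁ x = _ from hx, neg_neg])
    (by rw [x₂_sw (anti_V hx), map_neg]; exact hx)

lemma sw_p : S.sw S.p = -S.q :=
  S.ext (by simp [x₁_sw (lat_V S.lat_p)]) (by simp [x₂_sw (lat_V S.lat_p)])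

lemma sw_q : S.sw S.q = -S.p :=
  S.ext (by simp [x₁_sw (lat_V S.lat_q)]) (by simp [x₂_sw (lat_V S.lat_q)])

lemma x₁_red (x : S.A) : S.x₁ (S.red x) = S.x₁ x - ⌊S.a (S.x₁ x)⌋ * S.lam := by
  simp [Setup.red]

lemma x₂_red (x : S.A) : S.x₂ (S.red x) = S.x₂ x - ⌊S.a (S.x₂ x)⌋ * S.lam := by
  simp [Setup.red, sub_eq_add_neg]

lemma red_sw {x : S.A} (hx : S.Lat x) : S.red (S.sw x) = S.sw (S.red x) := by
  have h1 := lat_V hx
  have h2 := lat_V (S.lat_Ω (S.red_mem hx))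
  exact S.ext (by rw [x₁_red, x₁_sw h2, x₂_red, x₁_sw h1]) (by rw [x₂_red, x₂_sw h2, x₁_red, x₂_sw h1])

lemma red_add {x ω : S.A} (hω : ω ∈ S.Ω) : S.red (x + ω) = S.red x + ω := by
  have h1 := (S.mem_M.1 hω.1).2
  have h2 := (S.mem_M.1 hω.2).2
  simp only [Setup.red, map_add, h1, h2, add_zero]
  abel

lemma sw_Ω {ω : S.A} (hω : ω ∈ S.Ω) : S.sw ω ∈ S.Ω := by
  have h := lat_V (S.lat_Ω hω)
  exact S.mem_Ω.2 ⟨by rw [x₁_sw h]; exact hω.2, by rw [x₂_sw h]; exact hω.1⟩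

/-- Invariance under `p` and `q` gives invariance under all combinations. -/
lemma inv_red {f : S.A → ℂ} (hp : ∀ x ∈ S.V, f (x + S.p) = f x)
    (hq : ∀ x ∈ S.V, f (x + S.q) = f x) {x : S.A} (hx : x ∈ S.V) (i k : ℤ) :
    f (x + i • S.p - k • S.q) = f x := by
  have h1 : Function.Periodic (fun y : S.V => f y) ⟨S.p, lat_V S.lat_p⟩ := fun y => hp y y.2
  have h2 : Function.Periodic (fun y : S.V => f y) ⟨S.q, lat_V S.lat_q⟩ := fun y => hq y y.2
  have h3 := ((h1.zsmul i).sub_period (h2.zsmul k)) ⟨x, hx⟩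
  rw [add_sub_assoc]
  exact h3

lemma quad {ω : S.A} {G Q : S.A → ℂ} (h : S.QD G ω Q) (f : S.V →+ S.A) (a : S.A) :
    ∃ (b : S.V →+ S.V →+ ℂ) (l : S.V →+ ℂ) (c : ℂ), (∀ x y, b x y = b y x) ∧
      ∀ x : S.V, Q (f x + a) = b x x + l x + c := by
  obtain ⟨b, l, c, hb, hQ⟩ := h.form
  refine ⟨(b.comp f).compl₂ f, (b a).comp f + (b a).comp f + l.comp f, b a a + l a + c,
    fun x y => hb _ _, fun x => ?_⟩
  simp only [hQ, map_add, AddMonoidHom.add_apply, AddMonoidHom.compl₂_apply,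
    AddMonoidHom.comp_apply, hb (f x) a]
  ring

variable {G : S.A → ℂ}

lemma UU_p (hF : S.FB G) (x : S.A) (hx : x ∈ S.V) : S.UU G (x + S.p) = S.UU G x := by
  simp only [Setup.UU, sw_add hx (lat_V S.lat_p), sw_p]
  have h1 : S.Lat (S.sw x + -S.q) ↔ S.Lat x := (S.lat_add_iff S.lat_q.neg).trans (lat_sw hx)
  by_cases hl : S.Lat x
  · rw [hF.latp x hl, ← hF.latq _ (h1.2 hl), neg_add_cancel_right]
  · have h2 := hF.shq _ (h1.not.2 hl)
    rw [neg_add_cancel_right] at h2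
    rw [hF.shp x hl, h2]
    simp only [map_add, map_neg, x₂_sw hx, S.x₂_q, neg_neg]
    ring

lemma UU_q (hF : S.FB G) (x : S.A) (hx : x ∈ S.V) : S.UU G (x + S.q) = S.UU G x := by
  simp only [Setup.UU, sw_add hx (lat_V S.lat_q), sw_q]
  have h1 : S.Lat (S.sw x + -S.p) ↔ S.Lat x := (S.lat_add_iff S.lat_p.neg).trans (lat_sw hx)
  by_cases hl : S.Lat x
  · rw [hF.latq x hl, ← hF.latp _ (h1.2 hl), neg_add_cancel_right]
  · have h2 := hF.shp _ (h1.not.2 hl)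
    rw [neg_add_cancel_right] at h2
    rw [hF.shq x hl, h2]
    simp only [map_add, map_neg, x₁_sw hx, S.x₁_p, neg_add_cancel_right]
    ring

lemma UU_Ω {ω : S.A} (hω : ω ∈ S.Ω) {Q Q' : S.A → ℂ} (h : S.QD G ω Q)
    (h' : S.QD G (S.sw ω) Q') (x : S.A) (hx : x ∈ S.V) :
    S.UU G (x + ω) = Complex.exp (Q (x + S.p)) * Complex.exp (Q' (S.sw x + S.p)) * S.UU G x := by
  have hV := lat_V (S.lat_Ω hω)
  have hω' := sw_Ω hω
  simp only [Setup.UU, sw_add hx hV, Setup.fb, S.lat_add_iff (S.lat_Ω hω),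
    S.lat_add_iff (S.lat_Ω hω'), lat_sw hx]
  split_ifs with hl
  · have h0 := lat_V (S.lat_Ω (S.red_mem hl))
    have key := inv_red
      (f := fun x => Complex.exp (Q (x + S.p)) * Complex.exp (Q' (S.sw x + S.p)))
      (fun y hy => by
        have h2 := h'.shq (S.sw y + -S.q + S.p)
        rw [add_right_comm, neg_add_cancel_right] at h2
        simp only [sw_add hy (lat_V S.lat_p), sw_p]
        rw [h.shp (y + S.p), h2]
        simp only [map_add, map_neg, x₂_sw hy, x₂_sw hV, S.x₁_p, S.x₂_q, S.x₂_p, neg_neg, add_zero]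
        ring)
      (fun y hy => by
        simp only [sw_add hy (lat_V S.lat_q), sw_q, neg_add_cancel_right]
        rw [add_right_comm, h.shq (y + S.p), h'.shp]
        simp only [map_add, x₁_sw hy, x₁_sw hV, S.x₂_p, add_zero]
        ring) h0 ⌊S.a (S.x₁ x)⌋ ⌊S.a (S.x₂ x)⌋
    rw [← S.eq_red x] at key
    rw [key, red_add hω, red_add hω', add_right_comm _ ω, add_right_comm _ (S.sw ω), h.per, h'.per,
      red_sw hl, h.shp, h.shq, h'.shp, h'.shq, x₁_sw h0, x₂_sw h0, x₁_sw hV, x₂_sw hV]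
    ring
  · rw [add_right_comm _ ω, add_right_comm _ (S.sw ω), h.per, h'.per]
    ring

lemma UU_alg (hT : S.TH) (hF : S.FB G) {x : S.A} (hx : x ∈ S.V) :
    IsAlgebraic ℚ (S.UU G x * S.UU G (-x)) := by
  refine IsAlgebraic.of_pow two_pos ?_
  simp only [Setup.UU, sw_neg hx]
  by_cases hl : S.Lat x
  · have h0 := S.red_mem hl
    have hV := lat_V (S.lat_Ω h0)
    have h1 := hF.reflL x hl
    have h2 := hF.reflL _ ((lat_sw hx).2 hl)
    rw [red_sw hl, x₁_sw hV, x₂_sw hV] at h2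
    have d1 := hT.deriv_ne _ h0.1
    have d2 := hT.deriv_ne _ h0.2
    have h3 : S.fb G x * S.fb G (S.sw x) * (S.fb G (-x) * S.fb G (-S.sw x)) * S.ε ^ 2 =
        S.χ (S.red x) * S.χ (S.sw (S.red x)) := by
      apply mul_right_cancel₀ (mul_ne_zero d1 d2)
      linear_combination (S.fb G (S.sw x) * S.fb G (-S.sw x) * S.ε *
        deriv S.ϑ (S.x₂ (S.red x))) * h1 + (S.χ (S.red x) * deriv S.ϑ (S.x₂ (S.red x))) * h2
    have h4 : (S.fb G x * S.fb G (S.sw x) * (S.fb G (-x) * S.fb G (-S.sw x))) ^ 2 = S.ε⁻¹ ^ 4 := by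
      have hε := S.ε_ne
      have h5 := congrArg (· ^ 2) h3
      have c1 := S.χ_sq (S.red x)
      have c2 := S.χ_sq (S.sw (S.red x))
      field_simp
      linear_combination h5 + (S.χ (S.sw (S.red x)) ^ 2) * c1 + c2
    rw [h4]
    exact S.ε_alg.inv.pow 4
  · have h1 := hF.refl x hl
    have h2 := hF.refl _ ((lat_sw hx).not.2 hl)
    rw [x₁_sw hx, x₂_sw hx] at h2
    have d1 : S.ϑ (S.x₁ x) ≠ 0 := fun e => hl ((hT.zero_iff _).1 e).1
    have d2 : S.ϑ (S.x₂ x) ≠ 0 := fun e => hl (S.lat_iff.2 ((hT.zero_iff _).1 e).1)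
    have h3 : S.fb G x * S.fb G (S.sw x) * (S.fb G (-x) * S.fb G (-S.sw x)) =
        S.χ x * S.χ (S.sw x) := by
      apply mul_right_cancel₀ (mul_ne_zero d1 d2)
      linear_combination (S.fb G (S.sw x) * S.fb G (-S.sw x) * S.ϑ (S.x₁ x)) * h1 +
        (S.χ x * S.ϑ (S.x₁ x)) * h2
    rw [h3, mul_pow, sq, sq, S.χ_sq, S.χ_sq, mul_one]
    exact isAlgebraic_one

end Up

open Up in
theorem up_thm (hqd : S_QD) : S_UP := by
  intro S hT G hG hF
  refine ⟨fun x hx => ⟨mul_ne_zero (hF.ne _) (hF.ne _), UU_alg hT hF hx⟩, fun ω hω => ?_,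
    fun x hx => ⟨diag_V hx, by rw [Setup.UU, sw_diag hx, sq]⟩, fun x => anti_V, fun x => lat_V,
    fun x hx => ?_, fun s x y hs hx hy => ?_⟩
  · have h0 := S.red_mem hω
    obtain ⟨Q, hQ⟩ := hqd S hT G hG _ h0
    obtain ⟨Q', hQ'⟩ := hqd S hT G hG _ (sw_Ω h0)
    obtain ⟨b, l, c, hb, e⟩ := quad hQ S.V.subtype S.p
    obtain ⟨b', l', c', hb', e'⟩ := quad hQ' (swH S) S.p
    refine ⟨b + b', l + l', c + c', fun x y => by simp [hb x y, hb' x y], fun x => ?_⟩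
    have h1 := inv_red (UU_p hF) (UU_q hF) (S.V.add_mem x.2 (lat_V (S.lat_Ω h0)))
      ⌊S.a (S.x₁ ω)⌋ ⌊S.a (S.x₂ ω)⌋
    have h2 : (x : S.A) + S.red ω + ⌊S.a (S.x₁ ω)⌋ • S.p - ⌊S.a (S.x₂ ω)⌋ • S.q = x + ω := by
      rw [Setup.red]; abel
    rw [← h2, h1, UU_Ω h0 hQ hQ' x x.2, ← Complex.exp_add]
    have e1 : Q (x + S.p) = _ := e x
    have e2 : Q' (S.sw x + S.p) = _ := e' x
    rw [e1, e2]
    simp only [AddMonoidHom.add_apply]
    congr 2
    ring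
  · rw [Setup.Lat, map_nsmul, nsmul_eq_mul]
    apply S.N_mul
    convert S.L.neg_mem (S.L.add_mem (S.diff_mem x) (S.mul_mem hx)) using 1
    ring
  · have h1 := diag_V hs
    have h2 : x ∈ S.V := hx.elim diag_V anti_V
    have h3 : y ∈ S.V := hy.elim diag_V anti_V
    have h2' := S.V.neg_mem h2
    have h3' := S.V.neg_mem h3
    simp only [Setup.KK, Setup.UU, sub_eq_add_neg, sw_add (S.V.add_mem h1 h2) h3,
      sw_add (S.V.add_mem h1 h2) h3', sw_add (S.V.add_mem h1 h2') h3,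
      sw_add (S.V.add_mem h1 h2') h3', sw_add h1 h2, sw_add h1 h2', sw_neg h2, sw_neg h3,
      sw_diag hs]
    rcases hx with hx | hx <;> rcases hy with hy | hy
    · rw [sw_diag hx, sw_diag hy]; ring
    · rw [sw_diag hx, sw_anti hy, neg_neg]; ring
    · rw [sw_anti hx, sw_diag hy, neg_neg]; ring
    · rw [sw_anti hx, sw_anti hy, neg_neg, neg_neg]; ring

end

end Pool.Agent.P.MP_29cb78_nt.E
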