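import Pool.Agent.P.MP_29cb78_nt.E.Basic

/-!
Periodicity of the symmetric products.
-/

namespace Pool.Agent.P.MP_29cb78_nt.E

open scoped Classical

noncomputable section

theorem wper_thm (hqd : S_QD) : S_WPER := by
  intro S hT G hG d t α β hd hs ω hω y
  obtain ⟨Q, hQ⟩ := hqd S hT G hG ω hω
  obtain ⟨b, l, c, hb, hf⟩ := hQ.form
  have a1 : ∀ j, G (t j + (y + ω)) = Complex.exp (Q (t j + y)) * G (t j + y) :=
    fun j => by rw [← add_assoc, hQ.per]
  have a2 : ∀ j, G (t j - y) =
      S.χ ω * Complex.exp (Q (y + S.p + S.q - t j)) * G (t j - (y + ω)) := fun j => by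
    have := hQ.per (t j - (y + ω))
    rw [hQ.sym, show t j - (y + ω) + ω = t j - y by abel,
      show S.p + S.q - ω - (t j - (y + ω)) = y + S.p + S.q - t j by abel] at this
    exact this
  set A := Q (y + S.p) - Q y with hA
  set B := Q (y + S.q) - Q y with hB
  have a3 : ∑ j, Q (t j + y) + (d * A + d * B) + d * (2 * b S.p S.q) =
      ∑ j, Q (y + S.p + S.q - t j) + ((2 * α : ℕ) * A + (2 * β : ℕ) * B) +
        (α + β : ℕ) * (2 * b S.p S.q) := by
    have e1 : ∀ j, Q (t j + y) = Q (y + S.p + S.q - t j) - (A + B + 2 * b S.p S.q) +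
        2 * (b (y + y + S.p + S.q) (t j) + l (t j)) := fun j => by
      simp only [hA, hB, hf, map_add, map_sub, AddMonoidHom.add_apply, AddMonoidHom.sub_apply,
        hb (t j) y, hb (t j) S.p, hb (t j) S.q, hb S.q S.p]
      ring
    simp only [e1, Finset.sum_add_distrib, Finset.sum_sub_distrib, ← Finset.mul_sum, ← map_sum, hs]
    simp only [hA, hB, hf, map_add, map_nsmul, AddMonoidHom.add_apply, hb S.q S.p, hb S.p y,
      hb S.q y, Finset.sum_const, Finset.card_univ, Fintype.card_fin, nsmul_eq_mul]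
    push_cast
    ring
  have eA : Complex.exp A = S.mult (S.x₁ ω) (S.x₁ y) := by
    rw [hA, Complex.exp_sub, hQ.shp, mul_div_cancel_right₀ _ (Complex.exp_ne_zero _)]
  have eB : Complex.exp B = S.mult (S.x₂ ω) (S.x₂ y) := by
    rw [hB, Complex.exp_sub, hQ.shq, mul_div_cancel_right₀ _ (Complex.exp_ne_zero _)]
  have e2 : Complex.exp (2 * b S.p S.q) = 1 := by
    have h1 : Complex.exp (Q (y + S.p + S.q) - Q (y + S.p)) = S.mult (S.x₂ ω) (S.x₂ y) := by
      rw [Complex.exp_sub, hQ.shq, mul_div_cancel_right₀ _ (Complex.exp_ne_zero _)]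
      simp
    have h2 : Q (y + S.p + S.q) - Q (y + S.p) = B + 2 * b S.p S.q := by
      simp only [hB, hf, map_add, AddMonoidHom.add_apply, hb S.q S.p]
      ring
    rw [h2, Complex.exp_add, eB] at h1
    exact mul_left_cancel₀ (hT.mult_ne _ hω.2 _) (h1.trans (mul_one _).symm)
  have a4 := congrArg Complex.exp a3
  simp only [Complex.exp_add, Complex.exp_nat_mul, eA, eB, e2, one_pow, mul_one] at a4
  have a5 : S.χ ω ^ d = 1 := by
    obtain ⟨k, rfl⟩ := hd
    rw [pow_add, ← mul_pow, S.χ_sq, one_pow]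
  simp only [Setup.WW, a1, a2, Finset.prod_mul_distrib, ← Complex.exp_sum,
    Finset.prod_const, Finset.card_univ, Fintype.card_fin, a5]
  linear_combination ((∏ j, G (t j + y)) * ∏ j, G (t j - (y + ω))) * a4

end

end Pool.Agent.P.MP_29cb78_nt.E
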