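import Pool.Agent.P.MP_29cb78_nt.E.Alg
import Pool.Agent.P.MP_29cb78_nt.E.Bcon
import Pool.Agent.P.MP_29cb78_nt.E.Bent
import Pool.Agent.P.MP_29cb78_nt.E.Beta
import Pool.Agent.P.MP_29cb78_nt.E.Bhol
import Pool.Agent.P.MP_29cb78_nt.E.Bliou
import Pool.Agent.P.MP_29cb78_nt.E.Bmove
import Pool.Agent.P.MP_29cb78_nt.E.Bsh
import Pool.Agent.P.MP_29cb78_nt.E.Conv
import Pool.Agent.P.MP_29cb78_nt.E.Cval
import Pool.Agent.P.MP_29cb78_nt.E.Der
import Pool.Agent.P.MP_29cb78_nt.E.Dn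
import Pool.Agent.P.MP_29cb78_nt.E.Ex
import Pool.Agent.P.MP_29cb78_nt.E.Face1
import Pool.Agent.P.MP_29cb78_nt.E.Face2
import Pool.Agent.P.MP_29cb78_nt.E.Fb
import Pool.Agent.P.MP_29cb78_nt.E.Fs
import Pool.Agent.P.MP_29cb78_nt.E.Gauge
import Pool.Agent.P.MP_29cb78_nt.E.Gh
import Pool.Agent.P.MP_29cb78_nt.E.Ghp
import Pool.Agent.P.MP_29cb78_nt.E.Ghq
import Pool.Agent.P.MP_29cb78_nt.E.Gper
import Pool.Agent.P.MP_29cb78_nt.E.Grp
import Pool.Agent.P.MP_29cb78_nt.E.Iper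
import Pool.Agent.P.MP_29cb78_nt.E.Kref
import Pool.Agent.P.MP_29cb78_nt.E.Lam
import Pool.Agent.P.MP_29cb78_nt.E.Lam1
import Pool.Agent.P.MP_29cb78_nt.E.Merge
import Pool.Agent.P.MP_29cb78_nt.E.Osec
import Pool.Agent.P.MP_29cb78_nt.E.Phi
import Pool.Agent.P.MP_29cb78_nt.E.Psi
import Pool.Agent.P.MP_29cb78_nt.E.Qd
import Pool.Agent.P.MP_29cb78_nt.E.Res0
import Pool.Agent.P.MP_29cb78_nt.E.Res4
import Pool.Agent.P.MP_29cb78_nt.E.Res6
import Pool.Agent.P.MP_29cb78_nt.E.Rho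
import Pool.Agent.P.MP_29cb78_nt.E.Rig1
import Pool.Agent.P.MP_29cb78_nt.E.Rig2
import Pool.Agent.P.MP_29cb78_nt.E.Rigb
import Pool.Agent.P.MP_29cb78_nt.E.Rigc
import Pool.Agent.P.MP_29cb78_nt.E.Rigw
import Pool.Agent.P.MP_29cb78_nt.E.St4
import Pool.Agent.P.MP_29cb78_nt.E.St6
import Pool.Agent.P.MP_29cb78_nt.E.St6a
import Pool.Agent.P.MP_29cb78_nt.E.Strip
import Pool.Agent.P.MP_29cb78_nt.E.T1
import Pool.Agent.P.MP_29cb78_nt.E.Tame
import Pool.Agent.P.MP_29cb78_nt.E.Tel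
import Pool.Agent.P.MP_29cb78_nt.E.Th
import Pool.Agent.P.MP_29cb78_nt.E.Thp
import Pool.Agent.P.MP_29cb78_nt.E.Thq
import Pool.Agent.P.MP_29cb78_nt.E.Thr
import Pool.Agent.P.MP_29cb78_nt.E.Tj1
import Pool.Agent.P.MP_29cb78_nt.E.Tj2
import Pool.Agent.P.MP_29cb78_nt.E.Tv
import Pool.Agent.P.MP_29cb78_nt.E.Up
import Pool.Agent.P.MP_29cb78_nt.E.Wper

/-!
Wiring of all pieces: existence of the elliptic gamma function and algebraicity of its real
torsion values.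
-/

namespace Pool.Agent.P.MP_29cb78_nt.E

theorem gh_all : S_GH :=
  gh_thm th_thm dn_thm (psi_thm thq_thm dn_thm) (ghq_thm thq_thm thp_thm (rho_thm thq_thm))
    (ghp_thm thq_thm (rho_thm thq_thm)) thq_thm

theorem tame_all : S_TAME := tame_thm (wper_thm qd_thm)

theorem ex_all : S_EX := ex_thm osec_thm tame_all

theorem lam_all : S_LAM := lam_thm (lam1_thm res0_thm (strip_thm res0_thm))

theorem iper_all : S_IPER := iper_thm qd_thm

theorem conv_all : S_CONV :=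
  conv_thm (tel_thm phi_thm (tj1_thm osec_thm tame_all) (tj2_thm osec_thm tame_all)
    (tv_thm osec_thm (wper_thm qd_thm))) grp_thm iper_all (merge_thm (wper_thm qd_thm) osec_thm)

theorem st4_all : S_ST4 :=
  st4_thm lam_all thr_thm conv_all (res4_thm osec_thm (bent_thm osec_thm)) ex_all tame_all osec_thm

theorem alg_of_bmove (hbmove : S_BMOVE) : S_ALG :=
  alg_thm th_thm fb_thm grp_thm
    (st6_thm lam_all thr_thm conv_all
      (st6a_thm (res6_thm osec_thm (bent_thm osec_thm) fs_thm) ex_all tame_all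
        (beta_thm (bcon_thm hbmove bhol_thm tame_all osec_thm)
          (bsh_thm osec_thm (t1_thm osec_thm) tame_all ex_all) tame_all osec_thm) osec_thm))
    (cval_thm grp_thm st4_all iper_all) (face1_thm grp_thm kref_thm) (face2_thm grp_thm iper_all)
    (up_thm qd_thm) gauge_thm (rig1_thm rigw_thm rigb_thm rigc_thm) rig2_thm der_thm

theorem bmove_all : S_BMOVE :=
  bmove_thm (gper_thm qd_thm) (bsh_thm osec_thm (t1_thm osec_thm) tame_all ex_all) bhol_thm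
    bliou_thm tame_all osec_thm

theorem alg_all : S_ALG := alg_of_bmove bmove_all

end Pool.Agent.P.MP_29cb78_nt.E
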