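import Pool.Agent.P.MP_29cb78_nt.E.Iface

/-!
Elementary facts on the group `A`.
-/

namespace Pool.Agent.P.MP_29cb78_nt.E

open Filter Topology
open scoped Classical Real

noncomputable section

namespace Setup

variable (S : Setup)

lemma ext {x y : S.A} (h₁ : S.x₁ x = S.x₁ y) (h₂ : S.x₂ x = S.x₂ y) : x = y :=
  Subtype.ext (Prod.ext h₁ h₂)

lemma x₁_pt {u v : ℂ} (h : u - S.ε * v ∈ S.L) : S.x₁ (S.pt u v) = u := by
  rw [pt, dif_pos h]; rfl

lemma x₂_pt {u v : ℂ} (h : u - S.ε * v ∈ S.L) : S.x₂ (S.pt u v) = v := by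
  rw [pt, dif_pos h]; rfl

lemma pt_self (x : S.A) : S.pt (S.x₁ x) (S.x₂ x) = x :=
  S.ext (S.x₁_pt (S.diff_mem x)) (S.x₂_pt (S.diff_mem x))

@[simp] lemma x₁_ι (z : ℂ) : S.x₁ (S.ι z) = S.ε * z := rfl

@[simp] lemma x₂_ι (z : ℂ) : S.x₂ (S.ι z) = z := rfl

lemma mul_mem {z : ℂ} (hz : z ∈ S.L) : S.ε * z ∈ S.L := (S.ε_mul z).2 hz

lemma γ_memL : S.γ ∈ S.L := (S.mem_L _).2 ⟨0, 1, 0, by simp⟩

lemma β_memL : S.β ∈ S.L := (S.mem_L _).2 ⟨0, 0, 1, by simp⟩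

lemma p_mem : S.lam - S.ε * 0 ∈ S.L := by simpa using S.lam_mem

lemma q_mem : 0 - S.ε * -S.lam ∈ S.L := by simpa using S.mul_mem S.lam_mem

lemma hT_mem : S.lam / 2 - S.ε * (S.lam / 2) ∈ S.L := by
  convert S.L.neg_mem (S.half_mem S.lam_mem) using 1
  ring

lemma hU_mem : S.lam / 2 - S.ε * -(S.lam / 2) ∈ S.L := by
  convert S.L.add_mem (S.half_mem S.lam_mem) S.lam_mem using 1
  ring

@[simp] lemma x₁_p : S.x₁ S.p = S.lam := S.x₁_pt S.p_mem
@[simp] lemma x₂_p : S.x₂ S.p = 0 := S.x₂_pt S.p_mem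
@[simp] lemma x₁_q : S.x₁ S.q = 0 := S.x₁_pt S.q_mem
@[simp] lemma x₂_q : S.x₂ S.q = -S.lam := S.x₂_pt S.q_mem
@[simp] lemma x₁_hT : S.x₁ S.hT = S.lam / 2 := S.x₁_pt S.hT_mem
@[simp] lemma x₂_hT : S.x₂ S.hT = S.lam / 2 := S.x₂_pt S.hT_mem
@[simp] lemma x₁_hU : S.x₁ S.hU = S.lam / 2 := S.x₁_pt S.hU_mem
@[simp] lemma x₂_hU : S.x₂ S.hU = -(S.lam / 2) := S.x₂_pt S.hU_mem

lemma hT_add_hT : S.hT + S.hT = S.p - S.q := S.ext (by simp) (by simp)

lemma hU_add_hU : S.hU + S.hU = S.p + S.q := S.ext (by simp) (by simp; ring)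

lemma hT_add_hU : S.hT + S.hU = S.p := S.ext (by simp) (by simp)

lemma hU_sub_hT : S.hU - S.hT = S.q := S.ext (by simp) (by simp; ring)

lemma mem_M {z : ℂ} : z ∈ S.M ↔ z ∈ S.L ∧ S.a z = 0 := Iff.rfl

lemma mem_Ω {x : S.A} : x ∈ S.Ω ↔ S.x₁ x ∈ S.M ∧ S.x₂ x ∈ S.M := Iff.rfl

lemma a_comb (i j k : ℤ) : S.a (i * S.lam + j * S.γ + k * S.β) = i := by
  simp only [← zsmul_eq_mul, map_add, map_zsmul, S.a_lam, S.a_γ, S.a_β]
  simp

lemma a_int_mul (i : ℤ) (z : ℂ) : S.a (i * z) = i * S.a z := by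
  rw [← zsmul_eq_mul, map_zsmul, zsmul_eq_mul]

lemma a_nat_mul (i : ℕ) (z : ℂ) : S.a (i * z) = i * S.a z := by
  rw [← nsmul_eq_mul, map_nsmul, nsmul_eq_mul]

lemma a_half (z : ℂ) : S.a (z / 2) = S.a z / 2 := by
  have : S.a z = S.a (z / 2) + S.a (z / 2) := by rw [← map_add]; congr 1; ring
  linarith

lemma a_exists {z : ℂ} (hz : z ∈ S.L) : ∃ i : ℤ, S.a z = i := ⟨_, (S.a_int hz).symm⟩

lemma mem_M_iff {z : ℂ} : z ∈ S.M ↔ ∃ j k : ℤ, z = j * S.γ + k * S.β := by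
  constructor
  · rintro ⟨h1, h2⟩
    obtain ⟨i, j, k, rfl⟩ := (S.mem_L z).1 h1
    have h3 : S.a (i * S.lam + j * S.γ + k * S.β) = 0 := h2
    rw [S.a_comb] at h3
    have : i = 0 := by exact_mod_cast h3
    exact ⟨j, k, by simp [this]⟩
  · rintro ⟨j, k, rfl⟩
    refine S.mem_M.2 ⟨(S.mem_L _).2 ⟨0, j, k, by simp⟩, ?_⟩
    simpa using S.a_comb 0 j k

lemma γ_mem : S.γ ∈ S.M := ⟨S.γ_memL, S.a_γ⟩

lemma β_mem : S.β ∈ S.M := ⟨S.β_memL, S.a_β⟩

lemma γε_mem : S.γ / S.ε ∈ S.M := ⟨S.div_mem S.γ_memL, S.a_γε⟩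

lemma sub_mem_M {z : ℂ} (hz : z ∈ S.L) : z - ⌊S.a z⌋ * S.lam ∈ S.M := by
  refine S.mem_M.2 ⟨S.L.sub_mem hz ?_, ?_⟩
  · rw [← zsmul_eq_mul]; exact S.L.zsmul_mem S.lam_mem _
  · rw [map_sub, S.a_int_mul, S.a_lam, S.a_int hz]; ring

lemma s_ne : (S.s : ℂ) ≠ 0 := by exact_mod_cast S.s_pos.ne'

lemma τp_pos : 0 < S.τp.im := S.hp_pos

lemma τp_lt : 6 * S.τp.im < S.τq.im := S.hp_lt

lemma τq_pos : 0 < S.τq.im := by linarith [S.τp_pos, S.τp_lt]

lemma γ_ne : S.γ ≠ 0 := by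
  intro h
  have := S.τq_pos
  simp [τq, h] at this

lemma lam_ne : S.lam ≠ 0 := by
  intro h
  have := S.a_lam
  simp [h] at this

lemma s_mul_τq : S.s * S.τq = S.β / S.γ := by
  have := S.s_ne
  have := S.γ_ne
  rw [τq]; field_simp

lemma βγ_pos : 0 < (S.β / S.γ).im := by
  rw [← S.s_mul_τq]
  have : (0 : ℝ) < S.s := by exact_mod_cast S.s_pos
  simpa using mul_pos this S.τq_pos

lemma ε_sub_ne : S.ε - 1 ≠ 0 := fun h => S.ε_im (by rw [sub_eq_zero.1 h]; rfl)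

lemma ε_add_ne : S.ε + 1 ≠ 0 := fun h => S.ε_im (by rw [eq_neg_of_add_eq_zero_left h]; simp)

lemma κ_ne : S.κ ≠ 0 := by
  have := S.γ_ne
  have := S.ε_ne
  have := Real.pi_ne_zero
  simp [κ, *]

lemma n_cast (x : S.A) : (S.n x : ℚ) = S.a (S.x₁ x - S.ε * S.x₂ x) := S.a_int (S.diff_mem x)

lemma ν_cast (x : S.A) : (S.ν x : ℚ) = S.a ((S.x₁ x - S.ε * S.x₂ x) / S.ε) :=
  S.a_int (S.div_mem (S.diff_mem x))

@[simp] lemma n_p : S.n S.p = 1 := by
  apply Int.cast_injective (α := ℚ)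
  simp [S.n_cast, S.a_lam]

@[simp] lemma n_ι (z : ℂ) : S.n (S.ι z) = 0 := by
  apply Int.cast_injective (α := ℚ)
  simp [S.n_cast]

@[simp] lemma ν_ι (z : ℂ) : S.ν (S.ι z) = 0 := by
  apply Int.cast_injective (α := ℚ)
  simp [S.ν_cast]

@[simp] lemma ν_q : S.ν S.q = 1 := by
  apply Int.cast_injective (α := ℚ)
  have := S.ε_ne
  rw [S.ν_cast]
  simp [mul_div_cancel_left₀ _ this, S.a_lam]

lemma ν_p : (S.ν S.p : ℚ) = S.a (S.lam / S.ε) := by simp [S.ν_cast]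

lemma n_q_odd : ∃ k : ℤ, S.n S.q = 2 * k + 1 := by
  obtain ⟨k, hk⟩ := S.a_exists (S.half_mem S.lam_mem)
  refine ⟨k, Int.cast_injective (α := ℚ) ?_⟩
  rw [S.a_half] at hk
  have h : S.x₁ S.q - S.ε * S.x₂ S.q = (S.ε - 1) * S.lam + S.lam := by simp; ring
  rw [S.n_cast, h, map_add, S.a_lam]
  push_cast
  linarith

lemma w_def (x : S.A) : S.w x = S.x₁ x / S.γ + S.ν x * S.τq := rfl

lemma h_def (x : S.A) : S.h x = (S.w x).im := rfl

lemma kk_def (x : S.A) : S.kk x = -S.a (S.x₂ x) := rfl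

@[simp] lemma w_ι (z : ℂ) : S.w (S.ι z) = S.ε * z / S.γ := by simp [w_def]

@[simp] lemma w_q : S.w S.q = S.τq := by simp [w_def]

@[simp] lemma w_p : S.w S.p = S.τp := by
  rw [w_def, τp, ← S.ν_p]; simp

@[simp] lemma kk_p : S.kk S.p = 0 := by simp [kk_def]

@[simp] lemma kk_q : S.kk S.q = 1 := by simp [kk_def, S.a_lam]

lemma h_p_pos : 0 < S.h S.p := by rw [h_def, w_p]; exact S.τp_pos

lemma h_p_lt : 6 * S.h S.p < S.h S.q := by rw [h_def, h_def, w_p, w_q]; exact S.τp_lt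

lemma h_q_pos : 0 < S.h S.q := by linarith [S.h_p_pos, S.h_p_lt]

lemma h_ι (z : ℂ) : S.h (S.ι z) = (S.ε * z / S.γ).im := by rw [h_def, w_ι]

lemma continuous_h_ι : Continuous fun z => S.h (S.ι z) := by
  simp only [h_ι]
  fun_prop

lemma χ_add (x y : S.A) : S.χ (x + y) = S.χ x * S.χ y := by
  simp only [χ, map_add]
  exact zpow_add₀ (by norm_num) _ _

lemma χ_sq (x : S.A) : S.χ x * S.χ x = 1 := by
  rw [χ, ← mul_zpow]; simp

lemma χ_neg (x : S.A) : S.χ (-x) = S.χ x := by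
  have h := S.χ_add x (-x)
  have h2 := S.χ_sq x
  have h0 : S.χ 0 = 1 := by simp [χ]
  rw [add_neg_cancel, h0] at h
  linear_combination (-S.χ (-x)) * h2 - S.χ x * h

lemma χ_p : S.χ S.p = -1 := by simp [χ]

lemma χ_q : S.χ S.q = -1 := by
  obtain ⟨k, hk⟩ := S.n_q_odd
  rw [χ, hk]
  exact Odd.neg_one_zpow ⟨k, rfl⟩

@[simp] lemma χ_ι (z : ℂ) : S.χ (S.ι z) = 1 := by simp [χ]

/-! ### Periods -/

lemma ν_of_coord {x : S.A} {j k : ℤ} (h1 : S.x₁ x = j * S.γ + k * S.β) :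
    (S.ν x : ℚ) = -k * S.s - S.a (S.x₂ x) := by
  have := S.ε_ne
  have h : (S.x₁ x - S.ε * S.x₂ x) / S.ε = j * (S.γ / S.ε) + k * (S.β / S.ε) - S.x₂ x := by
    rw [h1]; field_simp
  rw [S.ν_cast, h, map_sub, map_add, S.a_int_mul, S.a_int_mul, S.a_γε, S.a_βε]
  ring

lemma Ω_iff {x : S.A} : x ∈ S.Ω ↔ (∃ i : ℤ, S.w x = i) ∧ (S.s : ℤ) ∣ S.ν x := by
  have hγ := S.γ_ne
  have hs := S.s_mul_τq
  constructor
  · rintro ⟨h1, h2⟩
    obtain ⟨j, k, hjk⟩ := S.mem_M_iff.1 h1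
    have hν : S.ν x = -k * S.s := by
      apply Int.cast_injective (α := ℚ)
      rw [S.ν_of_coord hjk, (S.mem_M.1 h2).2]
      push_cast; ring
    refine ⟨⟨j, ?_⟩, ⟨-k, by rw [hν]; ring⟩⟩
    rw [w_def, hjk, hν]
    push_cast
    have : -(k : ℂ) * S.s * S.τq = -k * (S.β / S.γ) := by rw [← hs]; ring
    rw [this]; field_simp; ring
  · rintro ⟨⟨i, hi⟩, k, hk⟩
    rw [w_def, hk] at hi
    push_cast at hi
    have h1 : S.x₁ x = i * S.γ + (-k : ℤ) * S.β := by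
      have : (S.s : ℂ) * k * S.τq = k * (S.β / S.γ) := by rw [← hs]; ring
      rw [this] at hi
      field_simp at hi
      push_cast
      linear_combination hi
    have hM : S.x₁ x ∈ S.M := S.mem_M_iff.2 ⟨_, _, h1⟩
    refine ⟨hM, ?_, ?_⟩
    · change S.x₂ x ∈ S.L
      rw [← S.ε_mul]
      have := S.L.sub_mem hM.1 (S.diff_mem x)
      simpa using this
    · have h2 := S.ν_of_coord h1
      rw [hk] at h2
      push_cast at h2
      change S.a (S.x₂ x) = 0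
      linarith

lemma h_Ω {x : S.A} (hx : x ∈ S.Ω) : S.h x = 0 := by
  obtain ⟨⟨i, hi⟩, -⟩ := S.Ω_iff.1 hx
  rw [h_def, hi]; simp

lemma kk_Ω {x : S.A} (hx : x ∈ S.Ω) : S.kk x = 0 := by
  rw [kk_def, (S.mem_M.1 hx.2).2]; simp

lemma pt_mem_Ω {m m' : ℂ} (hm : m ∈ S.M) (hm' : m' ∈ S.M) :
    S.pt m m' ∈ S.Ω ∧ S.x₁ (S.pt m m') = m ∧ S.x₂ (S.pt m m') = m' := by
  have h : m - S.ε * m' ∈ S.L := S.L.sub_mem hm.1 (S.mul_mem hm'.1)
  exact ⟨S.mem_Ω.2 ⟨by rwa [S.x₁_pt h], by rwa [S.x₂_pt h]⟩, S.x₁_pt h, S.x₂_pt h⟩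

lemma ι_γ_mem : S.ι (S.γ / S.ε) ∈ S.Ω := by
  refine S.mem_Ω.2 ⟨?_, S.γε_mem⟩
  rw [x₁_ι, mul_div_cancel₀ _ S.ε_ne]
  exact S.γ_mem

/-- Decomposition along `p`. -/
lemma exists_p (x : S.A) : ∃ m ∈ S.M, x = S.ι (S.x₂ x) + S.n x • S.p + S.pt m 0 := by
  have h := S.sub_mem_M (S.diff_mem x)
  obtain ⟨-, h1, h2⟩ := S.pt_mem_Ω h S.M.zero_mem
  refine ⟨_, h, S.ext ?_ ?_⟩
  · simp only [map_add, map_zsmul, h1, x₁_ι, x₁_p, zsmul_eq_mul]
    change _ = _ + (S.n x : ℂ) * _ + (_ - (S.n x : ℂ) * _)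
    ring
  · rw [map_add, h2]; simp

/-- Decomposition along `q`. -/
lemma exists_q (x : S.A) : ∃ m ∈ S.M, x = S.ι (S.x₁ x / S.ε) + S.ν x • S.q + S.pt 0 m := by
  have hε := S.ε_ne
  have h := S.M.neg_mem (S.sub_mem_M (S.div_mem (S.diff_mem x)))
  obtain ⟨-, h1, h2⟩ := S.pt_mem_Ω S.M.zero_mem h
  refine ⟨_, h, S.ext ?_ ?_⟩
  · rw [map_add, h1]; simp [mul_div_cancel₀ _ hε]
  · simp only [map_add, map_zsmul, h2, x₂_ι, x₂_q, zsmul_eq_mul]
    change _ = _ + (S.ν x : ℂ) * _ + -(_ - (S.ν x : ℂ) * _)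
    field_simp
    ring

/-- The points `j q` represent the components. -/
lemma exists_comp (x : S.A) : ∃ j : ℕ, j < S.s ∧ (S.s : ℤ) ∣ S.ν x - j ∧
    x - (j • S.q + S.ι (S.γ / S.ε * (S.w x - j * S.τq))) ∈ S.Ω := by
  have hs : (0 : ℤ) < S.s := by exact_mod_cast S.s_pos
  obtain ⟨j, hj⟩ := Int.eq_ofNat_of_zero_le (Int.emod_nonneg (S.ν x) hs.ne')
  have hd : (S.s : ℤ) ∣ S.ν x - j := by
    rw [← hj]; exact Int.dvd_sub_self_of_emod_eq rfl |>.neg_right |> fun h => by simpa using h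
  refine ⟨j, ?_, hd, S.Ω_iff.2 ⟨⟨0, ?_⟩, ?_⟩⟩
  · have := Int.emod_lt_of_pos (S.ν x) hs
    rw [hj] at this
    exact_mod_cast this
  · have := S.γ_ne
    have := S.ε_ne
    simp only [map_sub, map_add, map_nsmul, w_q, w_ι, nsmul_eq_mul]
    field_simp
    simp
  · simpa using hd

/-- The second form of the coordinate. -/
lemma w_second (x : S.A) : (∃ i : ℤ, S.w x = S.ε * S.x₂ x / S.γ + S.n x * S.τp + i) ∧
    (S.s : ℤ) ∣ S.ν x - S.n x * S.ν S.p := by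
  obtain ⟨m, hm, hx⟩ := S.exists_p x
  obtain ⟨⟨i, hi⟩, hd⟩ := S.Ω_iff.1 (S.pt_mem_Ω hm S.M.zero_mem).1
  constructor
  · refine ⟨i, ?_⟩
    conv_lhs => rw [hx]
    simp [hi]
  · have : S.ν x = S.n x * S.ν S.p + S.ν (S.pt m 0) := by
      conv_lhs => rw [hx]
      simp
    rw [this]; simpa using hd

lemma dvd_iff (x : S.A) : (S.s : ℤ) ∣ S.ν x ↔ (S.s : ℤ) ∣ S.n x := by
  have h1 := (S.w_second x).2
  have h2 := (S.w_second S.q).2
  rw [ν_q] at h2
  constructor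
  · intro h
    have h3 : (S.s : ℤ) ∣ S.n x * S.ν S.p := by simpa using h.sub h1
    have : S.n x = S.n x * (1 - S.n S.q * S.ν S.p) + S.n S.q * (S.n x * S.ν S.p) := by ring
    rw [this]
    exact (h2.mul_left _).add (h3.mul_left _)
  · intro h
    simpa using h1.add (h.mul_right (S.ν S.p))

/-- The second basis of `M`. -/
lemma mem_M_iff' {z : ℂ} : z ∈ S.M ↔ ∃ j k : ℤ, z = S.γ / S.ε * (j + k * (S.s * S.τp)) := by
  have hγ := S.γ_ne
  have hε := S.ε_ne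
  constructor
  · intro hz
    obtain ⟨h0, -, h2⟩ := S.pt_mem_Ω S.M.zero_mem hz
    obtain ⟨⟨i, hi⟩, hd⟩ := S.Ω_iff.1 h0
    obtain ⟨k, hk⟩ := (S.dvd_iff _).1 hd
    obtain ⟨i', hi'⟩ := (S.w_second (S.pt 0 z)).1
    rw [hi, h2, hk] at hi'
    refine ⟨i - i', -k, ?_⟩
    push_cast at hi' ⊢
    field_simp at hi' ⊢
    linear_combination -hi'
  · rintro ⟨j, k, hz⟩
    have : S.ι z - (k * S.s) • S.p ∈ S.Ω := by
      refine S.Ω_iff.2 ⟨⟨j, ?_⟩, ?_⟩
      · simp only [map_sub, map_zsmul, w_ι, w_p, zsmul_eq_mul, hz]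
        push_cast
        field_simp
        ring
      · simp only [map_sub, map_zsmul, ν_ι, smul_eq_mul]
        exact ⟨-k * S.ν S.p, by ring⟩
    simpa using (S.mem_Ω.1 this).2

/-! ### Lattice points -/

lemma lat_iff {x : S.A} : S.Lat x ↔ S.x₂ x ∈ S.L := by
  rw [← S.ε_mul]
  constructor
  · intro h
    simpa using S.L.sub_mem h (S.diff_mem x)
  · intro h
    simpa [Lat] using S.L.add_mem (S.diff_mem x) h

variable {S} in
lemma Lat.add {x y : S.A} (hx : S.Lat x) (hy : S.Lat y) : S.Lat (x + y) := by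
  simpa [Lat] using S.L.add_mem hx hy

variable {S} in
lemma Lat.neg {x : S.A} (hx : S.Lat x) : S.Lat (-x) := by
  simpa [Lat] using hx

variable {S} in
lemma Lat.sub {x y : S.A} (hx : S.Lat x) (hy : S.Lat y) : S.Lat (x - y) := by
  simpa [Lat] using S.L.sub_mem hx hy

variable {S} in
lemma Lat.zsmul {x : S.A} (hx : S.Lat x) (k : ℤ) : S.Lat (k • x) := by
  simpa only [Lat, map_zsmul] using S.L.zsmul_mem hx k

variable {S} in
lemma Lat.nsmul {x : S.A} (hx : S.Lat x) (k : ℕ) : S.Lat (k • x) := by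
  simpa only [Lat, map_nsmul] using S.L.nsmul_mem hx k

lemma lat_add_iff {x y : S.A} (hy : S.Lat y) : S.Lat (x + y) ↔ S.Lat x :=
  ⟨fun h => by simpa using h.sub hy, fun h => h.add hy⟩

lemma lat_p : S.Lat S.p := by simpa [Lat] using S.lam_mem

lemma lat_q : S.Lat S.q := by simp [Lat]

lemma lat_zero : S.Lat 0 := by simp [Lat]

lemma lat_Ω {x : S.A} (hx : x ∈ S.Ω) : S.Lat x := hx.1.1

lemma cls_eq_zero {x : S.A} : S.cls x = 0 ↔ S.Lat x := QuotientAddGroup.eq_zero_iff _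

lemma red_mem {x : S.A} (hx : S.Lat x) : S.red x ∈ S.Ω := by
  refine S.mem_Ω.2 ⟨?_, ?_⟩
  · simpa [red] using S.sub_mem_M hx
  · simpa [red, sub_eq_add_neg] using S.sub_mem_M (S.lat_iff.1 hx)

lemma eq_red (x : S.A) : x = S.red x + ⌊S.a (S.x₁ x)⌋ • S.p - ⌊S.a (S.x₂ x)⌋ • S.q := by
  rw [red]; abel

lemma pole_iff {x : S.A} : S.Pole x ↔ S.Lat x ∧ S.a (S.x₁ x) ≤ 0 ∧ 0 ≤ S.a (S.x₂ x) := by
  constructor
  · rintro ⟨i, k, h⟩
    have h1 := (S.mem_M.1 h.1).2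
    have h2 := (S.mem_M.1 h.2).2
    simp only [map_add, map_nsmul, x₁_p, x₁_q, x₂_p, x₂_q, map_neg, S.a_lam, map_zero] at h1 h2
    simp only [nsmul_eq_mul] at h1 h2
    refine ⟨?_, by linarith [Nat.cast_nonneg (α := ℚ) i], by linarith [Nat.cast_nonneg (α := ℚ) k]⟩
    have := ((S.lat_Ω h).sub (S.lat_q.nsmul k)).sub (S.lat_p.nsmul i)
    simpa using this
  · rintro ⟨h, h1, h2⟩
    obtain ⟨i, hi⟩ := Int.eq_ofNat_of_zero_le (a := -⌊S.a (S.x₁ x)⌋)
      (by rw [← S.a_int h] at h1; exact_mod_cast neg_nonneg.2 h1)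
    obtain ⟨k, hk⟩ := Int.eq_ofNat_of_zero_le (Int.floor_nonneg.2 h2)
    refine ⟨i, k, ?_⟩
    convert S.red_mem h using 1
    rw [red, ← natCast_zsmul, ← natCast_zsmul, ← hi, ← hk, neg_zsmul]
    abel

lemma zero_iff {x : S.A} : S.Zero x ↔ S.Lat x ∧ 1 ≤ S.a (S.x₁ x) ∧ S.a (S.x₂ x) ≤ -1 := by
  rw [Zero, pole_iff]
  have : S.Lat (S.p + S.q - x) ↔ S.Lat x :=
    ⟨fun h => by simpa using (S.lat_p.add S.lat_q).sub h, fun h => (S.lat_p.add S.lat_q).sub h⟩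
  rw [this]
  simp only [map_sub, map_add, x₁_p, x₁_q, x₂_p, x₂_q, map_neg, S.a_lam, map_zero]
  refine and_congr_right fun _ => and_congr ?_ ?_ <;> constructor <;> intro h <;> linarith

lemma h_lat {x : S.A} (hx : S.Lat x) :
    S.h x = S.a (S.x₁ x) * S.h S.p - S.a (S.x₂ x) * S.h S.q := by
  conv_lhs => rw [S.eq_red x]
  rw [map_sub, map_add, S.h_Ω (S.red_mem hx), map_zsmul, map_zsmul, zsmul_eq_mul, zsmul_eq_mul,
    ← S.a_int hx, ← S.a_int (S.lat_iff.1 hx)]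
  simp

lemma h_rat {x : S.A} {k : ℕ} (hk : k ≠ 0) (hx : S.Lat (k • x)) :
    S.h x = S.a (S.x₁ x) * S.h S.p - S.a (S.x₂ x) * S.h S.q := by
  have h := S.h_lat hx
  simp only [map_nsmul] at h
  simp only [nsmul_eq_mul] at h
  push_cast at h
  have hk' : (k : ℝ) ≠ 0 := by exact_mod_cast hk
  apply mul_left_cancel₀ hk'
  linarith

lemma h_diag {y : S.A} (hy : S.x₁ y - S.x₂ y ∈ S.M) : S.h y = S.kk y * (S.h S.q - S.h S.p) := by
  have h1 : (S.ε - 1) * S.x₂ y ∈ S.L := by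
    convert S.L.sub_mem hy.1 (S.diff_mem y) using 1
    ring
  have h2 : S.Lat (S.N • y) := by
    rw [lat_iff, map_nsmul, nsmul_eq_mul]
    apply S.N_mul
    convert S.L.add_mem (S.mul_mem h1) h1 using 1
    ring
  have h3 : S.a (S.x₁ y) = S.a (S.x₂ y) := by
    have := (S.mem_M.1 hy).2
    rw [map_sub] at this
    linarith
  rw [S.h_rat S.N_ne h2, h3, kk_def]
  push_cast
  ring

lemma h_anti {y : S.A} (hy : S.x₁ y + S.x₂ y ∈ S.M) : S.h y = S.kk y * (S.h S.q + S.h S.p) := by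
  have h1 : (S.ε + 1) * S.x₂ y ∈ S.L := by
    convert S.L.sub_mem hy.1 (S.diff_mem y) using 1
    ring
  have h2 : S.Lat (S.N • y) := by
    rw [lat_iff, map_nsmul, nsmul_eq_mul]
    apply S.N_mul
    convert S.L.sub_mem (S.mul_mem h1) h1 using 1
    ring
  have h3 : S.a (S.x₁ y) = -S.a (S.x₂ y) := by
    have := (S.mem_M.1 hy).2
    rw [map_add] at this
    linarith
  rw [S.h_rat S.N_ne h2, h3, kk_def]
  push_cast
  ring

variable {S} in
lemma Pole.h_le {x : S.A} (hx : S.Pole x) : S.h x ≤ 0 := by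
  obtain ⟨i, k, h⟩ := hx
  have := S.h_Ω h
  simp only [map_add, map_nsmul, nsmul_eq_mul] at this
  have h1 := mul_nonneg (Nat.cast_nonneg (α := ℝ) i) S.h_p_pos.le
  have h2 := mul_nonneg (Nat.cast_nonneg (α := ℝ) k) S.h_q_pos.le
  linarith

variable {S} in
lemma Zero.le_h {x : S.A} (hx : S.Zero x) : S.h S.p + S.h S.q ≤ S.h x := by
  have := Pole.h_le hx
  simp only [map_sub, map_add] at this
  linarith

variable {S} in
lemma Pole.of_add_p {x : S.A} (hx : S.Pole (x + S.p)) : S.Pole x := by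
  obtain ⟨i, k, h⟩ := hx
  exact ⟨i + 1, k, by convert h using 1; rw [succ_nsmul]; abel⟩

variable {S} in
lemma Pole.of_add_q {x : S.A} (hx : S.Pole (x + S.q)) : S.Pole x := by
  obtain ⟨i, k, h⟩ := hx
  exact ⟨i, k + 1, by convert h using 1; rw [succ_nsmul]; abel⟩

lemma pole_add_Ω {x ω : S.A} (hω : ω ∈ S.Ω) : S.Pole (x + ω) ↔ S.Pole x := by
  constructor
  · rintro ⟨i, k, h⟩
    exact ⟨i, k, by convert S.Ω.sub_mem h hω using 1; abel⟩
  · rintro ⟨i, k, h⟩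
    exact ⟨i, k, by convert S.Ω.add_mem h hω using 1; abel⟩

lemma pole_zero : S.Pole 0 := ⟨0, 0, by simp⟩

variable {S} in
lemma Sep.not_pole {d : ℕ} {t : Fin d → S.A} {cl : S.A → Prop} (h : S.Sep t cl) (j l : Fin d) :
    ¬ S.Pole (t j + t l) := fun hp =>
  h.lower j (t l) hp (h.upper l (t l) (by simpa using S.pole_zero))

variable {S} in
lemma Thr.sep {d : ℕ} {t : Fin d → S.A} {θ : ℂ → ℚ} (h : S.Thr t θ) : S.Sep t (S.clT θ) where
  clper ω hω x := by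
    simp only [clT, map_add, S.kk_Ω hω, add_zero, h.per _ _ (S.mem_Ω.1 hω).2.1]
  lower j y hp := by
    obtain ⟨h1, -, h3⟩ := S.pole_iff.1 hp
    have := h.lower j y h1
    simp only [map_add] at h3
    simp only [clT, kk_def, not_le]
    linarith
  upper j y hp := by
    obtain ⟨h1, -, h3⟩ := S.pole_iff.1 hp
    have := h.upper j y h1
    simp only [map_sub] at h3
    simp only [clT, kk_def]
    linarith

lemma clT_add_p (θ : ℂ → ℚ) (y : S.A) : S.clT θ (y + S.p) ↔ S.clT θ y := by simp [clT]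

/-! ### Discrete sets, meromorphic functions -/

lemma sl_add (f : S.A → ℂ) (x : S.A) (u z : ℂ) : S.sl f (x + S.ι u) z = S.sl f x (u + z) := by
  simp [sl, add_assoc]

lemma sl_shift (f : S.A → ℂ) (x y : S.A) : S.sl (fun u => f (u + y)) x = S.sl f (x + y) := by
  funext z
  simp only [sl]
  congr 1
  abel

@[simp] lemma sl_zero (f : S.A → ℂ) (x : S.A) : S.sl f x 0 = f x := by simp [sl]

variable {S} in
/-- An affine function with nonzero slope avoids `M` near a point. -/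
lemma TH.disc_affine (hT : S.TH) (u : ℂ) {c : ℂ} (hc : c ≠ 0) :
    ∀ᶠ z in 𝓝[≠] (0 : ℂ), u + c * z ∉ S.M := by
  have h : Tendsto (fun z => u + c * z) (𝓝[≠] (0 : ℂ)) (𝓝[≠] u) := by
    refine tendsto_nhdsWithin_iff.2 ⟨?_, ?_⟩
    · have : Continuous fun z : ℂ => u + c * z := by fun_prop
      simpa using (this.tendsto 0).mono_left nhdsWithin_le_nhds
    · filter_upwards [self_mem_nhdsWithin] with z hz
      simpa [hc] using hz
  exact h.eventually (hT.disc u)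

variable {S} in
/-- The poles form a discrete set. -/
lemma TH.not_pole (hT : S.TH) (x : S.A) {c : ℂ} (hc : c ≠ 0) :
    ∀ᶠ z in 𝓝[≠] (0 : ℂ), ¬ S.Pole (x + S.ι (c * z)) := by
  obtain ⟨K, hK⟩ := exists_nat_gt ((1 - S.h x) / S.h S.q)
  have h1 : ∀ᶠ z in 𝓝[≠] (0 : ℂ), -1 < S.h (S.ι (c * z)) := by
    have : Continuous fun z : ℂ => S.h (S.ι (c * z)) := S.continuous_h_ι.comp (by fun_prop)
    exact ((this.tendsto 0).mono_left nhdsWithin_le_nhds).eventually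
      (lt_mem_nhds (by simp))
  have h2 : ∀ᶠ z in 𝓝[≠] (0 : ℂ), ∀ k ∈ Finset.range K, (S.x₂ x - k * S.lam) + c * z ∉ S.M :=
    (Finset.eventually_all _).2 fun k _ => hT.disc_affine _ hc
  filter_upwards [h1, h2] with z hz1 hz2
  rintro ⟨i, k, h⟩
  have h3 := S.h_Ω h
  simp only [map_add, map_nsmul, nsmul_eq_mul] at h3
  have h4 := mul_nonneg (Nat.cast_nonneg (α := ℝ) i) S.h_p_pos.le
  have hk : k < K := by
    rw [div_lt_iff₀ S.h_q_pos] at hK
    have : (k : ℝ) * S.h S.q < K * S.h S.q := by linarith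
    exact_mod_cast lt_of_mul_lt_mul_right this S.h_q_pos.le
  apply hz2 k (Finset.mem_range.2 hk)
  convert (S.mem_Ω.1 h).2 using 1
  simp
  ring

variable {S} in
lemma TH.not_pole_add (hT : S.TH) (t y : S.A) :
    ∀ᶠ z in 𝓝[≠] (0 : ℂ), ¬ S.Pole (t + (y + S.ι z)) := by
  simpa [add_assoc] using hT.not_pole (t + y) one_ne_zero

variable {S} in
lemma TH.not_pole_sub (hT : S.TH) (t y : S.A) :
    ∀ᶠ z in 𝓝[≠] (0 : ℂ), ¬ S.Pole (t - (y + S.ι z)) := by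
  have := hT.not_pole (t - y) (c := -1) (by norm_num)
  filter_upwards [this] with z hz
  convert hz using 2
  simp only [neg_mul, one_mul, map_neg]
  abel

variable {S} in
lemma TH.not_zero (hT : S.TH) (x : S.A) : ∀ᶠ z in 𝓝[≠] (0 : ℂ), ¬ S.Zero (x + S.ι z) :=
  hT.not_pole_sub _ x

variable {S} in
lemma GH.analyticAt {G : S.A → ℂ} (hG : S.GH G) (x : S.A) (z : ℂ) (hx : ¬ S.Pole (x + S.ι z)) :
    AnalyticAt ℂ (S.sl G x) z := by
  obtain ⟨Nu, De, h1, h2, h3, h4, -⟩ := hG.quot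
  have : S.sl G x = fun u => S.sl Nu x u / S.sl De x u := funext fun u => h1 _
  rw [this]
  exact ((h2 x).analyticAt z).div ((h3 x).analyticAt z) fun h => hx ((h4 _).1 h)

variable {S} in
lemma GH.meromorphicAt {G : S.A → ℂ} (hG : S.GH G) (x : S.A) (z : ℂ) :
    MeromorphicAt (S.sl G x) z := by
  obtain ⟨Nu, De, h1, h2, h3, -, -⟩ := hG.quot
  have : S.sl G x = S.sl Nu x / S.sl De x := funext fun u => h1 _
  rw [this]
  exact ((h2 x).analyticAt z).meromorphicAt.div ((h3 x).analyticAt z).meromorphicAt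

variable {S} in
lemma GH.ne_zero {G : S.A → ℂ} (hG : S.GH G) {x : S.A} (h : ¬ S.Pole x) (h' : ¬ S.Zero x) :
    G x ≠ 0 := by
  obtain ⟨Nu, De, h1, -, -, h4, h5⟩ := hG.quot
  rw [h1]
  exact div_ne_zero (fun e => h' ((h5 _).1 e)) fun e => h ((h4 _).1 e)

variable {S} in
lemma GH.analyticAt_add {G : S.A → ℂ} (hG : S.GH G) {t y : S.A} (h : ¬ S.Pole (t + y)) :
    AnalyticAt ℂ (S.sl (fun u => G (t + u)) y) 0 := by
  have : S.sl (fun u => G (t + u)) y = S.sl G (t + y) := by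
    funext z; simp [sl, add_assoc]
  rw [this]
  exact hG.analyticAt _ 0 (by simpa using h)

variable {S} in
lemma GH.analyticAt_sub {G : S.A → ℂ} (hG : S.GH G) {t y : S.A} (h : ¬ S.Pole (t - y)) :
    AnalyticAt ℂ (S.sl (fun u => G (t - u)) y) 0 := by
  have : S.sl (fun u => G (t - u)) y = S.sl G (t - y) ∘ fun z => -z := by
    funext z
    simp only [sl, Function.comp, map_neg]
    congr 1
    abel
  rw [this]
  exact AnalyticAt.comp_of_eq (hG.analyticAt _ 0 (by simpa using h)) (by fun_prop) (by simp)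

variable {S} in
lemma GH.mer_add {G : S.A → ℂ} (hG : S.GH G) (t : S.A) : S.Mer fun u => G (t + u) := fun y => by
  have : S.sl (fun u => G (t + u)) y = S.sl G (t + y) := by
    funext z; simp [sl, add_assoc]
  rw [this]
  exact hG.meromorphicAt _ 0

variable {S} in
lemma GH.mer_sub {G : S.A → ℂ} (hG : S.GH G) (t : S.A) : S.Mer fun u => G (t - u) := fun y => by
  have : S.sl (fun u => G (t - u)) y = S.sl G (t - y) ∘ fun z => -z := by
    funext z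
    simp only [sl, Function.comp, map_neg]
    congr 1
    abel
  rw [this]
  exact MeromorphicAt.comp_analyticAt (by simpa using hG.meromorphicAt (t - y) 0) (by fun_prop)

variable {S}

lemma AE.refl (f : S.A → ℂ) : S.AE f f := fun _ => EventuallyEq.rfl

lemma AE.symm {f g : S.A → ℂ} (h : S.AE f g) : S.AE g f := fun x => (h x).symm

lemma AE.trans {f g k : S.A → ℂ} (h : S.AE f g) (h' : S.AE g k) : S.AE f k :=
  fun x => (h x).trans (h' x)

lemma AE.shift {f g : S.A → ℂ} (h : S.AE f g) (y : S.A) :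
    S.AE (fun x => f (x + y)) fun x => g (x + y) := fun x => by
  rw [sl_shift, sl_shift]; exact h _

lemma AE.add {f g f' g' : S.A → ℂ} (h : S.AE f g) (h' : S.AE f' g') :
    S.AE (fun x => f x + f' x) fun x => g x + g' x := fun x => (h x).add (h' x)

lemma AE.sub {f g f' g' : S.A → ℂ} (h : S.AE f g) (h' : S.AE f' g') :
    S.AE (fun x => f x - f' x) fun x => g x - g' x := fun x => (h x).sub (h' x)

lemma AE.mul {f g f' g' : S.A → ℂ} (h : S.AE f g) (h' : S.AE f' g') :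
    S.AE (fun x => f x * f' x) fun x => g x * g' x := fun x => (h x).mul (h' x)

/-- Equality outside a set that is avoided near every point. -/
lemma AE.of_eventually {f g : S.A → ℂ} (B : S.A → Prop)
    (hB : ∀ x, ∀ᶠ z in 𝓝[≠] (0 : ℂ), B (x + S.ι z)) (h : ∀ y, B y → f y = g y) : S.AE f g :=
  fun x => (hB x).mono fun _ hz => h _ hz

lemma Reg.congr {f g : S.A → ℂ} {x : S.A} (h : S.Reg f x) (e : S.AE f g) : S.Reg g x :=
  let ⟨c, hc⟩ := h; ⟨c, hc.congr' (e x)⟩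

lemma Reg.add {f g : S.A → ℂ} {x : S.A} (h : S.Reg f x) (h' : S.Reg g x) :
    S.Reg (fun y => f y + g y) x :=
  let ⟨c, hc⟩ := h; let ⟨c', hc'⟩ := h'; ⟨c + c', hc.add hc'⟩

lemma Reg.mul {f g : S.A → ℂ} {x : S.A} (h : S.Reg f x) (h' : S.Reg g x) :
    S.Reg (fun y => f y * g y) x :=
  let ⟨c, hc⟩ := h; let ⟨c', hc'⟩ := h'; ⟨c * c', hc.mul hc'⟩

lemma Reg.of_analyticAt {f : S.A → ℂ} {x : S.A} (h : AnalyticAt ℂ (S.sl f x) 0) : S.Reg f x :=
  ⟨_, h.continuousAt.tendsto.mono_left nhdsWithin_le_nhds⟩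

lemma Tame.congr {f g : S.A → ℂ} {cl : S.A → Prop} (h : S.Tame f cl) (e : S.AE f g) :
    S.Tame g cl where
  mer x := (h.mer x).congr (e x)
  per ω hω := ((e.shift ω).symm.trans (h.per ω hω)).trans e
  clper := h.clper
  bdd := let ⟨R, hR⟩ := h.bdd; ⟨R, fun x hx => hR x fun hr => hx (hr.congr e)⟩

lemma Tame.add {f g : S.A → ℂ} {cl : S.A → Prop} (h : S.Tame f cl) (h' : S.Tame g cl) :
    S.Tame (fun x => f x + g x) cl where
  mer x := (h.mer x).add (h'.mer x)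
  per ω hω := (h.per ω hω).add (h'.per ω hω)
  clper := h.clper
  bdd := by
    obtain ⟨R, hR⟩ := h.bdd
    obtain ⟨R', hR'⟩ := h'.bdd
    refine ⟨max R R', fun x hx => ?_⟩
    have h1 := le_max_left R R'
    have h2 := le_max_right R R'
    by_cases hf : S.Reg f x
    · have := hR' x fun hg => hx (hf.add hg)
      exact ⟨fun c => by linarith [this.1 c], fun c => by linarith [this.2 c]⟩
    · have := hR x hf
      exact ⟨fun c => by linarith [this.1 c], fun c => by linarith [this.2 c]⟩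

lemma Tame.smul {f : S.A → ℂ} {cl : S.A → Prop} (h : S.Tame f cl) (c : ℂ) :
    S.Tame (fun x => c * f x) cl where
  mer x := (MeromorphicAt.const c 0).mul (h.mer x)
  per ω hω := (AE.refl fun _ => c).mul (h.per ω hω)
  clper := h.clper
  bdd := let ⟨R, hR⟩ := h.bdd
    ⟨R, fun x hx => hR x fun hr => hx (Reg.mul ⟨c, tendsto_const_nhds⟩ hr)⟩

lemma Tame.sub {f g : S.A → ℂ} {cl : S.A → Prop} (h : S.Tame f cl) (h' : S.Tame g cl) :
    S.Tame (fun x => f x - g x) cl := by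
  convert h.add (h'.smul (-1)) using 2
  ring

lemma Tame.shift {f : S.A → ℂ} {cl : S.A → Prop} (h : S.Tame f cl) (y : S.A) :
    S.Tame (fun x => f (x + y)) fun x => cl (x + y) where
  mer x := by rw [sl_shift]; exact h.mer _
  per ω hω := by
    have := (h.per ω hω).shift y
    simpa only [add_right_comm _ y ω] using this
  clper ω hω x := by rw [add_right_comm]; exact h.clper ω hω _
  bdd := by
    obtain ⟨R, hR⟩ := h.bdd
    refine ⟨R + |S.h y|, fun x hx => ?_⟩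
    have := hR (x + y) fun hr => hx (by rw [Reg, sl_shift]; exact hr)
    rw [map_add] at this
    exact ⟨fun c => by linarith [this.1 c, le_abs_self (S.h y)],
      fun c => by linarith [this.2 c, neg_abs_le (S.h y)]⟩

lemma LamAPI.sub {Λ : (S.A → ℂ) → (S.A → Prop) → ℂ} (hΛ : S.LamAPI Λ) {f g : S.A → ℂ}
    {cl : S.A → Prop} (h : S.Tame f cl) (h' : S.Tame g cl) :
    Λ (fun x => f x - g x) cl = Λ f cl - Λ g cl := by
  have h1 := hΛ.add f _ cl h (h'.smul (-1))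
  rw [hΛ.smul g cl (-1) h'] at h1
  have : (fun x => f x - g x) = fun x => f x + -1 * g x := by funext x; ring
  rw [this, h1]; ring

/-- Moving the shift from the function to the classification. -/
lemma LamAPI.shift' {Λ : (S.A → ℂ) → (S.A → Prop) → ℂ} (hΛ : S.LamAPI Λ) {f : S.A → ℂ}
    {cl : S.A → Prop} (c : S.A) (h : S.Tame f fun x => cl (x - c)) :
    S.Tame (fun x => f (x + c)) cl ∧ Λ (fun x => f (x + c)) cl = Λ f fun x => cl (x - c) := by
  have h1 := h.shift c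
  have h2 := hΛ.shift f _ c h
  simp only [add_sub_cancel_right] at h1 h2
  exact ⟨h1, h2⟩

/-- Two classifications that agree at the poles give the same integral. -/
lemma LamAPI.recl_eq {Λ : (S.A → ℂ) → (S.A → Prop) → ℂ} (hΛ : S.LamAPI Λ) {f : S.A → ℂ}
    {cl cl' : S.A → Prop} (h : S.Tame f cl) (h' : S.Tame f cl')
    (e : ∀ x, ¬ S.Reg f x → (cl x ↔ cl' x)) : Λ f cl = Λ f cl' := by
  have := hΛ.recl f cl cl' ∅ (fun _ => 0) h h' (by simp) (fun x hx => Or.inl (e x hx)) (by simp)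
  simpa [sub_eq_zero] using this

/-- A difference has integral zero if no pole changes sides. -/
lemma LamAPI.exact {Λ : (S.A → ℂ) → (S.A → Prop) → ℂ} (hΛ : S.LamAPI Λ) {f : S.A → ℂ}
    {cl : S.A → Prop} (c : S.A) (h : S.Tame f cl) (h' : S.Tame f fun x => cl (x - c))
    (e : ∀ x, ¬ S.Reg f x → (cl x ↔ cl (x - c))) :
    S.Tame (fun x => f (x + c) - f x) cl ∧ Λ (fun x => f (x + c) - f x) cl = 0 := by
  obtain ⟨h1, h2⟩ := hΛ.shift' c h'
  exact ⟨h1.sub h, by rw [hΛ.sub h1 h, h2, hΛ.recl_eq h h' e, sub_self]⟩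

end Setup

end

end Pool.Agent.P.MP_29cb78_nt.E
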