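import Mathlib

/-!
Definitions for the algebraicity of the elliptic gamma values attached to complex cubic fields.
-/

namespace Pool.Agent.P.MP_29cb78_nt.E

open Filter Topology
open scoped Classical Real

noncomputable section

/-- `exp (2 π i x)`. -/
def ee (x : ℂ) : ℂ := Complex.exp (2 * π * Complex.I * x)

/-- The short theta product. -/
def th0 (z τ : ℂ) : ℂ := ∏' n : ℕ, ((1 - ee (z + n * τ)) * (1 - ee ((n + 1) * τ - z)))

/-- A lattice of rank three in `ℂ` with a multiplier `ε` and a primitive linear form `a`. -/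
structure Setup where
  L : AddSubgroup ℂ
  a : ℂ →+ ℚ
  ε : ℂ
  lam : ℂ
  γ : ℂ
  β : ℂ
  s : ℕ
  N : ℕ
  mem_L : ∀ z, z ∈ L ↔ ∃ i j k : ℤ, z = i * lam + j * γ + k * β
  a_lam : a lam = 1
  a_γ : a γ = 0
  a_β : a β = 0
  ε_mul : ∀ z, ε * z ∈ L ↔ z ∈ L
  a_γε : a (γ / ε) = 0
  a_βε : a (β / ε) = -s
  s_pos : 0 < s
  hp_pos : 0 < (lam / γ + a (lam / ε) * (β / (s * γ))).im
  hp_lt : 6 * (lam / γ + a (lam / ε) * (β / (s * γ))).im < (β / (s * γ)).im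
  six : ∀ z ∈ L, (ε - 1) * z / 6 ∈ L
  N_ne : N ≠ 0
  N_mul : ∀ z, (ε ^ 2 - 1) * z ∈ L → N * z ∈ L
  ε_im : ε.im ≠ 0
  ε_norm : ‖ε‖ < 1
  ε_alg : IsAlgebraic ℚ ε

namespace Setup

variable (S : Setup)

lemma ε_ne : S.ε ≠ 0 := fun h => S.ε_im (by rw [h]; rfl)

lemma lam_mem : S.lam ∈ S.L := (S.mem_L _).2 ⟨1, 0, 0, by simp⟩

lemma a_int {z : ℂ} (hz : z ∈ S.L) : ((⌊S.a z⌋ : ℤ) : ℚ) = S.a z := by
  obtain ⟨i, j, k, rfl⟩ := (S.mem_L z).1 hz
  have : S.a (i * S.lam + j * S.γ + k * S.β) = i := by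
    simp only [← zsmul_eq_mul, map_add, map_zsmul, S.a_lam, S.a_γ, S.a_β]
    simp
  rw [this, Int.floor_intCast]

lemma div_mem {z : ℂ} (hz : z ∈ S.L) : z / S.ε ∈ S.L := by
  rw [← S.ε_mul, mul_div_cancel₀ _ S.ε_ne]
  exact hz

lemma half_mem {z : ℂ} (hz : z ∈ S.L) : (S.ε - 1) * z / 2 ∈ S.L := by
  have := S.L.nsmul_mem (S.six z hz) 3
  convert this using 1
  simp only [nsmul_eq_mul]
  push_cast
  ring

/-- The group of pairs `(x₁, x₂)` with `x₁ - ε x₂ ∈ L`. -/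
def A : AddSubgroup (ℂ × ℂ) where
  carrier := {x | x.1 - S.ε * x.2 ∈ S.L}
  zero_mem' := by simp
  add_mem' := fun {x y} hx hy => by
    have := S.L.add_mem hx hy
    simp only [Set.mem_ofPred_eq, Prod.fst_add, Prod.snd_add]
    convert this using 1
    ring
  neg_mem' := fun {x} hx => by
    have := S.L.neg_mem hx
    simp only [Set.mem_ofPred_eq, Prod.fst_neg, Prod.snd_neg]
    convert this using 1
    ring

/-- First coordinate. -/
def x₁ : S.A →+ ℂ := (AddMonoidHom.fst ℂ ℂ).comp S.A.subtype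

/-- Second coordinate. -/
def x₂ : S.A →+ ℂ := (AddMonoidHom.snd ℂ ℂ).comp S.A.subtype

lemma diff_mem (x : S.A) : S.x₁ x - S.ε * S.x₂ x ∈ S.L := x.2

/-- The point with the given coordinates, if there is one. -/
def pt (u v : ℂ) : S.A := if h : u - S.ε * v ∈ S.L then ⟨(u, v), h⟩ else 0

/-- The complex direction. -/
def ι : ℂ →+ S.A where
  toFun z := ⟨(S.ε * z, z), by change S.ε * z - S.ε * z ∈ S.L; simp⟩
  map_zero' := Subtype.ext (by simp)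
  map_add' z u := Subtype.ext (by simp [mul_add])

/-- The kernel of `a` on `L`, a lattice in `ℂ`. -/
def M : AddSubgroup ℂ := S.L ⊓ S.a.ker

/-- The period group `M × M`. -/
def Ω : AddSubgroup S.A := S.M.comap S.x₁ ⊓ S.M.comap S.x₂

/-- The level. -/
def n : S.A →+ ℤ := AddMonoidHom.mk' (fun x => ⌊S.a (S.x₁ x - S.ε * S.x₂ x)⌋) fun x y => by
  have h : ∀ x : S.A, ((⌊S.a (S.x₁ x - S.ε * S.x₂ x)⌋ : ℤ) : ℚ) = _ :=
    fun x => S.a_int (S.diff_mem x)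
  apply Int.cast_injective (α := ℚ)
  push_cast
  rw [h, h, h, ← map_add, map_add S.x₁, map_add S.x₂]
  congr 1
  ring

/-- The second level. -/
def ν : S.A →+ ℤ := AddMonoidHom.mk' (fun x => ⌊S.a ((S.x₁ x - S.ε * S.x₂ x) / S.ε)⌋)
  fun x y => by
  have h : ∀ x : S.A, ((⌊S.a ((S.x₁ x - S.ε * S.x₂ x) / S.ε)⌋ : ℤ) : ℚ) = _ :=
    fun x => S.a_int (S.div_mem (S.diff_mem x))
  apply Int.cast_injective (α := ℚ)
  push_cast
  rw [h, h, h, ← map_add, map_add S.x₁, map_add S.x₂]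
  congr 1
  ring

/-- The first shift `(λ, 0)`. -/
def p : S.A := S.pt S.lam 0

/-- The second shift `(0, -λ)`. -/
def q : S.A := S.pt 0 (-S.lam)

/-- The point `(λ / 2, λ / 2)`, half of `p - q`. -/
def hT : S.A := S.pt (S.lam / 2) (S.lam / 2)

/-- The point `(λ / 2, -λ / 2)`, half of `p + q`. -/
def hU : S.A := S.pt (S.lam / 2) (-(S.lam / 2))

/-- The modulus of `q`. -/
def τq : ℂ := S.β / (S.s * S.γ)

/-- The modulus of `p`. -/
def τp : ℂ := S.lam / S.γ + S.a (S.lam / S.ε) * S.τq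

/-- The uniformising coordinate. -/
def w : S.A →+ ℂ := AddMonoidHom.mk' (fun x => S.x₁ x / S.γ + S.ν x * S.τq) fun x y => by
  simp only [map_add]
  push_cast
  ring

/-- The height. -/
def h : S.A →+ ℝ := AddMonoidHom.mk' (fun x => (S.w x).im) fun x y => by
  simp only [map_add, Complex.add_im]

/-- The index in the direction of `q`. -/
def kk : S.A →+ ℚ := -(S.a.comp S.x₂)

/-- Points of `L × L`. -/
def Lat (x : S.A) : Prop := S.x₁ x ∈ S.L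

/-- Points of the diagonal. -/
def Diag (x : S.A) : Prop := S.x₁ x = S.x₂ x

/-- Points of the antidiagonal. -/
def Anti (x : S.A) : Prop := S.x₁ x = -S.x₂ x

/-- The poles of the gamma function. -/
def Pole (x : S.A) : Prop := ∃ i k : ℕ, x + i • S.p + k • S.q ∈ S.Ω

/-- The zeros of the gamma function. -/
def Zero (x : S.A) : Prop := S.Pole (S.p + S.q - x)

/-- The sign character. -/
def χ (x : S.A) : ℂ := (-1) ^ S.n x

/-! ### The gamma function -/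

/-- The exponential on the identity component, extended by zero. -/
def Ex (x : S.A) : ℂ := if (S.s : ℤ) ∣ S.ν x then ee (S.w x) else 0

/-- The double product. -/
def Den (x : S.A) : ℂ := ∏' ik : ℕ × ℕ, (1 - S.Ex (x + ik.1 • S.p + ik.2 • S.q))

/-- The single product in the direction of `c`. -/
def Rw (c x : S.A) : ℂ := ∏' k : ℕ, (1 - S.Ex (x + k • c))

/-- The theta product in the direction of `c`. -/
def θw (c x : S.A) : ℂ := S.Rw c x * S.Rw c (c - x)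

/-- The elliptic gamma function. -/
def Gam (x : S.A) : ℂ := S.Den (S.p + S.q - x) / S.Den x

/-! ### Theta functions of `M` -/

/-- The odd theta function of `M`. -/
def ϑ (z : ℂ) : ℂ := ee (-z / (2 * S.γ)) * th0 (z / S.γ) (S.β / S.γ)

/-- The quasi-periods. -/
def η : ℂ →+ ℂ := AddMonoidHom.mk'
  (fun m => 2 * π * Complex.I * S.a (m / S.ε) / (S.s * S.γ)) fun x y => by
  simp only [add_div, map_add]
  push_cast
  ring

/-- The multiplier of the theta function. -/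
def mult (m z : ℂ) : ℂ := deriv S.ϑ m / deriv S.ϑ 0 * Complex.exp (S.η m * z)

/-- Entire functions with the `d`-th power of the multiplier. -/
def Sec (d : ℕ) (f : ℂ → ℂ) : Prop :=
  Differentiable ℂ f ∧ ∀ m ∈ S.M, ∀ z, f (z + m) = S.mult m z ^ d * f z

/-- The logarithmic derivative. -/
def zt (z : ℂ) : ℂ := deriv S.ϑ z / S.ϑ z

/-- The product of the shifted theta functions. -/
def PP {d : ℕ} (σ : Fin d → ℂ) (y : ℂ) : ℂ := ∏ j, S.ϑ (σ j + y)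

/-- The odd part. -/
def Pm {d : ℕ} (σ : Fin d → ℂ) (y : ℂ) : ℂ := S.PP σ y - S.PP σ (-y)

/-- The derivative of the even part, divided by the degree. -/
def GG {d : ℕ} (σ : Fin d → ℂ) (y : ℂ) : ℂ := deriv (fun u => S.PP σ u + S.PP σ (-u)) y / d

/-- The kernel. -/
def BB {d : ℕ} (σ : Fin d → ℂ) (y₁ y₂ : ℂ) : ℂ :=
  (S.PP σ y₁ * S.PP σ (-y₂) - S.PP σ (-y₁) * S.PP σ y₂) * S.zt (y₁ - y₂) -
    (S.PP σ y₁ * S.PP σ y₂ - S.PP σ (-y₁) * S.PP σ (-y₂)) * S.zt (y₁ + y₂) +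
    S.Pm σ y₁ * S.GG σ y₂ + S.GG σ y₁ * S.Pm σ y₂

/-- An odd section of degree six. -/
def ff (σ y : ℂ) : ℂ := S.ϑ (σ + y) * S.ϑ (σ - y) * S.ϑ (2 * y)

/-- The properties of the theta function. -/
structure TH : Prop where
  diff : Differentiable ℂ S.ϑ
  odd : ∀ z, S.ϑ (-z) = -S.ϑ z
  zero_iff : ∀ z, S.ϑ z = 0 ↔ z ∈ S.M
  deriv_ne : ∀ m ∈ S.M, deriv S.ϑ m ≠ 0
  shift : ∀ m ∈ S.M, ∀ z, S.ϑ (z + m) = S.mult m z * S.ϑ z
  mult_ne : ∀ m ∈ S.M, ∀ z, S.mult m z ≠ 0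
  mult_sq : ∀ m ∈ S.M, ∀ z, S.mult m z ^ 2 = Complex.exp (S.η m * (2 * z + m))
  mult_two : ∀ m ∈ S.M, ∀ z, S.mult (2 * m) (2 * z) = S.mult m z ^ 4
  quad : ∃ B : ℂ →+ ℂ →+ ℂ, (∀ x y, B x y = B y x) ∧
    ∀ m ∈ S.M, ∀ z, S.mult m z = Complex.exp (S.η m * z + B m m)
  liou : ∀ f : ℂ → ℂ, Differentiable ℂ f → (∀ m ∈ S.M, ∀ z, f (z + m) = f z) → ∀ z u, f z = f u
  disc : ∀ z : ℂ, ∀ᶠ u in 𝓝[≠] z, u ∉ S.M

/-! ### The normalised gamma function -/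

/-- The restriction to a complex line. -/
def sl (f : S.A → ℂ) (x : S.A) (z : ℂ) : ℂ := f (x + S.ι z)

/-- Polynomial of degree at most three on every arithmetic progression. -/
def Cubic (f : S.A → ℂ) : Prop :=
  ∀ x y : S.A, ∃ c₀ c₁ c₂ c₃ : ℂ, ∀ j : ℤ, f (x + j • y) = c₀ + c₁ * j + c₂ * j ^ 2 + c₃ * j ^ 3

/-- The properties of the double product. -/
structure DN : Prop where
  diff : ∀ x, Differentiable ℂ (S.sl S.Den x)
  zero_iff : ∀ x, S.Den x = 0 ↔ S.Pole x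
  per : ∀ ω ∈ S.Ω, ∀ x, S.Den (x + ω) = S.Den x
  θper : ∀ ω ∈ S.Ω, ∀ c x, S.θw c (x + ω) = S.θw c x
  shp : ∀ x, S.Den x = S.Den (x + S.p) * S.Rw S.q x
  shq : ∀ x, S.Den x = S.Den (x + S.q) * S.Rw S.p x

/-- The exponential of a quadratic polynomial on every component. -/
def ExpQ (f : S.A → ℂ) : Prop :=
  ∀ x, ∃ c₀ c₁ c₂ : ℂ, ∀ z, f (x + S.ι z) = Complex.exp (c₀ + c₁ * z + c₂ * z ^ 2)

/-- The correcting factor that is trivial on the central level. -/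
structure Psi (nc : ℤ) (ψ : S.A → ℂ) : Prop where
  cen : 2 * nc = 1 + S.n S.q
  expq : S.ExpQ ψ
  one : ∀ x, S.n x = nc → ψ x = 1
  shp : ∀ x, ψ (x + S.p) * S.θw S.q x = S.ϑ (S.x₁ x) * ψ x

/-- The properties of the normalised gamma function. -/
structure GH (G : S.A → ℂ) : Prop where
  quot : ∃ Nu De : S.A → ℂ, (∀ x, G x = Nu x / De x) ∧ (∀ x, Differentiable ℂ (S.sl Nu x)) ∧
    (∀ x, Differentiable ℂ (S.sl De x)) ∧ (∀ x, De x = 0 ↔ S.Pole x) ∧ ∀ x, Nu x = 0 ↔ S.Zero x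
  shp : ∀ x, ¬ S.Pole x → G (x + S.p) = S.ϑ (S.x₁ x) * G x
  shq : ∀ x, ¬ S.Pole x → G (x + S.q) = S.ϑ (S.x₂ x) * G x
  refl : ∀ x, ¬ S.Pole (x + S.p) → ¬ S.Zero (x + S.p) → G (x + S.p) * G (S.q - x) = S.χ x
  per : ∀ ω ∈ S.Ω, ∃ (b : S.A →+ S.A →+ ℂ) (l : S.A →+ ℂ) (c : ℂ), (∀ x y, b x y = b y x) ∧
    ∀ x, G (x + ω) = Complex.exp (b x x + l x + c) * G x
  struct : ∃ (nc : ℤ) (P : S.A → ℂ), S.Cubic P ∧
    ∀ x, S.n x = nc → G x = S.Gam x * Complex.exp (P x)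

/-- The multiplier of the normalised gamma function and its symmetries. -/
structure QD (G : S.A → ℂ) (ω : S.A) (Q : S.A → ℂ) : Prop where
  form : ∃ (b : S.A →+ S.A →+ ℂ) (l : S.A →+ ℂ) (c : ℂ), (∀ x y, b x y = b y x) ∧
    ∀ x, Q x = b x x + l x + c
  per : ∀ x, G (x + ω) = Complex.exp (Q x) * G x
  sym : ∀ x, Complex.exp (Q x) = S.χ ω * Complex.exp (Q (S.p + S.q - ω - x))
  shp : ∀ x, Complex.exp (Q (x + S.p)) = S.mult (S.x₁ ω) (S.x₁ x) * Complex.exp (Q x)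
  shq : ∀ x, Complex.exp (Q (x + S.q)) = S.mult (S.x₂ ω) (S.x₂ x) * Complex.exp (Q x)

/-! ### Contour integrals -/

/-- Meromorphic on every component. -/
def Mer (f : S.A → ℂ) : Prop := ∀ x, MeromorphicAt (S.sl f x) 0

/-- Equality outside a discrete set. -/
def AE (f g : S.A → ℂ) : Prop := ∀ x, S.sl f x =ᶠ[𝓝[≠] 0] S.sl g x

/-- At most a removable singularity. -/
def Reg (f : S.A → ℂ) (x : S.A) : Prop := ∃ c, Tendsto (S.sl f x) (𝓝[≠] 0) (𝓝 c)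

/-- At most a simple pole, with residue `r`. -/
def SRes (f : S.A → ℂ) (x : S.A) (r : ℂ) : Prop :=
  Tendsto (fun z => z * S.sl f x z) (𝓝[≠] 0) (𝓝 r)

/-- A periodic meromorphic function with a classification of its poles into upper poles
(`cl` holds) and lower poles. -/
structure Tame (f : S.A → ℂ) (cl : S.A → Prop) : Prop where
  mer : S.Mer f
  per : ∀ ω ∈ S.Ω, S.AE (fun x => f (x + ω)) f
  clper : ∀ ω ∈ S.Ω, ∀ x, cl (x + ω) ↔ cl x
  bdd : ∃ R : ℝ, ∀ x, ¬ S.Reg f x → (cl x → -R < S.h x) ∧ (¬ cl x → S.h x < R)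

/-- The integral over the points of height zero. -/
def Lin (f : S.A → ℂ) : ℂ :=
  ∑ j ∈ Finset.range S.s, ∫ u in (0 : ℝ)..1, f (j • S.q + S.ι (S.γ / S.ε * (u - j * S.τq)))

/-- The constant in the residue formula. -/
def κ : ℂ := 2 * π * Complex.I * S.ε / S.γ

/-- The integral over a contour that separates the upper poles from the lower poles. -/
structure LamAPI (Λ : (S.A → ℂ) → (S.A → Prop) → ℂ) : Prop where
  congr : ∀ f g cl, S.Tame f cl → S.AE f g → Λ f cl = Λ g cl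
  add : ∀ f g cl, S.Tame f cl → S.Tame g cl → Λ (fun x => f x + g x) cl = Λ f cl + Λ g cl
  smul : ∀ f cl (c : ℂ), S.Tame f cl → Λ (fun x => c * f x) cl = c * Λ f cl
  shift : ∀ f cl (y : S.A), S.Tame f cl → Λ (fun x => f (x + y)) (fun x => cl (x + y)) = Λ f cl
  recl : ∀ f cl cl' (F : Finset S.A) (r : S.A → ℂ), S.Tame f cl → S.Tame f cl' →
    (∀ x ∈ F, ∀ y ∈ F, x - y ∈ S.Ω → x = y) →
    (∀ x, ¬ S.Reg f x → (cl x ↔ cl' x) ∨ ∃ y ∈ F, x - y ∈ S.Ω) →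
    (∀ y ∈ F, cl y ∧ ¬ cl' y ∧ S.SRes f y (r y)) → Λ f cl - Λ f cl' = S.κ * ∑ y ∈ F, r y
  lin : ∀ f, S.Tame f (fun x => 0 < S.h x) → (∀ x, S.h x = 0 → AnalyticAt ℂ (S.sl f x) 0) →
    Λ f (fun x => 0 < S.h x) = S.Lin f

/-- The symmetric product. -/
def WW (G : S.A → ℂ) {d : ℕ} (t : Fin d → S.A) (y : S.A) : ℂ := ∏ j, (G (t j + y) * G (t j - y))

/-- The integrand of the beta integral. -/
def II (G : S.A → ℂ) (t : Fin 6 → S.A) (y : S.A) : ℂ :=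
  S.WW G t y * (S.ϑ (2 * S.x₁ y) * S.ϑ (2 * S.x₂ y))

/-- The product over pairs. -/
def PG (G : S.A → ℂ) {d : ℕ} (t : Fin d → S.A) : ℂ := ∏ j, ∏ l ∈ Finset.Ioi j, G (t j + t l)

/-- The classification separates the two families of poles. -/
structure Sep {d : ℕ} (t : Fin d → S.A) (cl : S.A → Prop) : Prop where
  clper : ∀ ω ∈ S.Ω, ∀ x, cl (x + ω) ↔ cl x
  lower : ∀ j y, S.Pole (t j + y) → ¬ cl y
  upper : ∀ j y, S.Pole (t j - y) → cl y

/-- A threshold for the index in the direction of `q`. -/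
structure Thr {d : ℕ} (t : Fin d → S.A) (θ : ℂ → ℚ) : Prop where
  per : ∀ z, ∀ m ∈ S.L, θ (z + m) = θ z
  bdd : ∃ R : ℚ, ∀ z, |θ z| ≤ R
  lower : ∀ j y, S.Lat (t j + y) → S.a (S.x₂ (t j)) < θ (S.x₂ y)
  upper : ∀ j y, S.Lat (t j - y) → θ (S.x₂ y) ≤ -S.a (S.x₂ (t j))

/-- The classification attached to a threshold. -/
def clT (θ : ℂ → ℚ) (y : S.A) : Prop := θ (S.x₂ y) ≤ S.kk y

/-- `F` is a system of representatives of `B` modulo periods. -/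
structure Reps (F : Finset S.A) (B : S.A → Prop) : Prop where
  mem : ∀ y ∈ F, B y
  inj : ∀ x ∈ F, ∀ y ∈ F, x - y ∈ S.Ω → x = y
  surj : ∀ x, B x → ∃ y ∈ F, x - y ∈ S.Ω

/-! ### The finite system -/

/-- Reduction of a lattice point to a period. -/
def red (x : S.A) : S.A := x - ⌊S.a (S.x₁ x)⌋ • S.p + ⌊S.a (S.x₂ x)⌋ • S.q

/-- The value of the gamma function, with a convention at the lattice points. -/
def fb (G : S.A → ℂ) (x : S.A) : ℂ := if S.Lat x then G (S.red x + S.q) else G (x + S.p)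

/-- The properties of these values. -/
structure FB (G : S.A → ℂ) : Prop where
  ne : ∀ x, S.fb G x ≠ 0
  shp : ∀ x, ¬ S.Lat x → S.fb G (x + S.p) = S.ϑ (S.x₁ x + S.lam) * S.fb G x
  shq : ∀ x, ¬ S.Lat x → S.fb G (x + S.q) = S.ϑ (S.x₂ x) * S.fb G x
  latp : ∀ x, S.Lat x → S.fb G (x + S.p) = S.fb G x
  latq : ∀ x, S.Lat x → S.fb G (x + S.q) = S.fb G x
  refl : ∀ x, ¬ S.Lat x → S.fb G x * S.fb G (-x) * S.ϑ (S.x₂ x) = S.χ x * S.ϑ (S.x₁ x)
  reflL : ∀ x, S.Lat x → S.fb G x * S.fb G (-x) * (S.ε * deriv S.ϑ (S.x₁ (S.red x))) =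
    S.χ (S.red x) * deriv S.ϑ (S.x₂ (S.red x))
  reflD : ∀ x, S.Diag x → S.fb G x * S.fb G (-x) = S.χ x * if S.Lat x then S.ε⁻¹ else 1
  raw : ∀ x, S.Diag x → (S.Lat x → S.a (S.x₁ x) < 0) → G (x + S.p) = S.fb G x
  tshD : ∀ x (k : ℤ), S.Diag x → S.fb G (x + k • (S.p - S.q)) = S.fb G x
  tsh : ∀ x y (k : ℤ), S.x₁ y = S.x₂ x → S.x₂ y = S.x₁ x →
    S.fb G (x + k • (S.p - S.q)) * S.fb G (y + k • (S.p - S.q)) = S.fb G x * S.fb G y

/-- Admissible parameters. -/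
structure Adm {d : ℕ} (t : Fin d → S.A) (e : Equiv.Perm (Fin d)) : Prop where
  sw₁ : ∀ j, S.x₁ (t (e j)) = S.x₂ (t j)
  sw₂ : ∀ j, S.x₂ (t (e j)) = S.x₁ (t j)
  inv : ∀ j, e (e j) = j
  fix : ∀ j, S.Diag (t j) → e j = j
  tw : ∀ j, S.Diag (t j) ∨ (S.x₁ (t j) - S.x₂ (t j) ∉ S.L ∧ S.x₁ (t j) + S.x₂ (t j) ∉ S.L)
  lat : ∀ j l, S.Lat (t j + t l) → S.Diag (t j)
  sum : ∑ j, t j = 0

/-- The shifted parameters. -/
def sh {d : ℕ} (t : Fin d → S.A) (k : Fin d → ℤ) (j : Fin d) : S.A :=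
  t j + S.hT + k j • (S.p - S.q)

/-- The classes killed by `e`. -/
def Kr (e : ℂ) : AddSubgroup (ℂ ⧸ S.L) := (S.L.comap (AddMonoidHom.mulLeft e)).map
  (QuotientAddGroup.mk' S.L)

/-- The classes fixed by `ε`. -/
def Gp : AddSubgroup (ℂ ⧸ S.L) := S.Kr (S.ε - 1)

/-- The classes negated by `ε`. -/
def Gm : AddSubgroup (ℂ ⧸ S.L) := S.Kr (S.ε + 1)

/-- The identity between the orders of the two groups. -/
def Count : Prop :=
  (Nat.card S.Gp : ℂ) / (S.ε - 1) + (Nat.card S.Gm : ℂ) / (S.ε + 1) = 2 + 2 / S.ε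

/-- The class of a point. -/
def cls : S.A →+ ℂ ⧸ S.L := (QuotientAddGroup.mk' S.L).comp S.x₁

/-- A lift of a class to the diagonal or to the antidiagonal. -/
def rep (g : ℂ ⧸ S.L) : S.A := if g ∈ S.Gp then S.pt g.out g.out else S.pt g.out (-g.out)

/-- The weights. -/
def μ (g : ℂ ⧸ S.L) : ℂ :=
  (if g ∈ S.Gp then 1 / (S.ε - 1) else 0) + if g ∈ S.Gm then 1 / (S.ε + 1) else 0

/-- `X` is the union of the two groups. -/
def IsX (X : Finset (ℂ ⧸ S.L)) : Prop := ∀ g, g ∈ X ↔ g ∈ S.Gp ∨ g ∈ S.Gm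

/-- The weight of an edge. -/
def KK (F : S.A → ℂ) (s x y : S.A) : ℂ :=
  F (s + x + y) * F (s + x - y) * F (s - x + y) * F (s - x - y)

/-- The weight of a tetrahedron. -/
def Φ (F : S.A → ℂ) (s₁ s₂ s₃ w x y z : S.A) : ℂ :=
  S.KK F s₁ w x * S.KK F s₂ w y * S.KK F s₃ w z * S.KK F s₃ x y * S.KK F s₁ y z * S.KK F s₂ x z /
    (F (s₁ + s₁) * F (s₂ + s₂) * F (s₃ + s₃))

/-- The points whose transpose is also a point. -/
def V : AddSubgroup S.A where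
  carrier := {x | S.x₂ x - S.ε * S.x₁ x ∈ S.L}
  zero_mem' := by simp
  add_mem' := fun {x y} hx hy => by
    have := S.L.add_mem hx hy
    simp only [Set.mem_ofPred_eq, map_add]
    convert this using 1
    ring
  neg_mem' := fun {x} hx => by
    have := S.L.neg_mem hx
    simp only [Set.mem_ofPred_eq, map_neg]
    convert this using 1
    ring

/-- The transpose. -/
def sw (x : S.A) : S.A := S.pt (S.x₂ x) (S.x₁ x)

/-- The product of the values at a point and at its transpose. -/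
def UU (G : S.A → ℂ) (x : S.A) : ℂ := S.fb G x * S.fb G (S.sw x)

end Setup

/-! ### Residues in the plane -/

/-- The residue. -/
def res (g : ℂ → ℂ) (x : ℂ) : ℂ :=
  limUnder (𝓝[>] (0 : ℝ)) fun r => (2 * π * Complex.I)⁻¹ * ∮ z in C(x, r), g z

/-- At most a removable singularity. -/
def Reg1 (g : ℂ → ℂ) (x : ℂ) : Prop := ∃ c, Tendsto g (𝓝[≠] x) (𝓝 c)

/-- A periodic meromorphic function in the plane with a classification of its poles. -/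
structure Tame1 (g : ℂ → ℂ) (cl : ℂ → Prop) : Prop where
  mer : ∀ x, MeromorphicAt g x
  per : ∀ x, (fun z => g (z + 1)) =ᶠ[𝓝[≠] x] g
  clper : ∀ x, cl (x + 1) ↔ cl x
  bdd : ∃ R : ℝ, ∀ x, ¬ Reg1 g x → (cl x → -R < x.im) ∧ (¬ cl x → x.im < R)

/-- The integral over a contour from `0` to `1` that passes below the upper poles and above the
lower poles. -/
structure Lam1 (Λ : (ℂ → ℂ) → (ℂ → Prop) → ℂ) : Prop where
  congr : ∀ f g cl, Tame1 f cl → (∀ x, f =ᶠ[𝓝[≠] x] g) → Λ f cl = Λ g cl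
  add : ∀ f g cl, Tame1 f cl → Tame1 g cl → Λ (fun x => f x + g x) cl = Λ f cl + Λ g cl
  smul : ∀ f cl (c : ℂ), Tame1 f cl → Λ (fun x => c * f x) cl = c * Λ f cl
  shift : ∀ f cl (y : ℂ), Tame1 f cl → Λ (fun x => f (x + y)) (fun x => cl (x + y)) = Λ f cl
  recl : ∀ f cl cl' (F : Finset ℂ) (r : ℂ → ℂ), Tame1 f cl → Tame1 f cl' →
    (∀ x ∈ F, ∀ y ∈ F, (∃ k : ℤ, x - y = k) → x = y) →
    (∀ x, ¬ Reg1 f x → (cl x ↔ cl' x) ∨ ∃ y ∈ F, ∃ k : ℤ, x - y = k) →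
    (∀ y ∈ F, cl y ∧ ¬ cl' y ∧ Tendsto (fun z => z * f (y + z)) (𝓝[≠] 0) (𝓝 (r y))) →
    Λ f cl - Λ f cl' = 2 * π * Complex.I * ∑ y ∈ F, r y
  lin : ∀ f, Tame1 f (fun x => 0 < x.im) → (∀ x : ℝ, AnalyticAt ℂ f x) →
    Λ f (fun x => 0 < x.im) = ∫ u in (0 : ℝ)..1, f u

/-! ### The extrapolation weights -/

/-- The nodes. -/
def tt (N : ℕ) (j : Fin 4) : ℤ := 1 + (j : ℕ) * N

/-- The weights. -/
def cc (N : ℕ) : Fin 4 → ℤ :=
  ![tt N 1 * tt N 2 * tt N 3, -3 * (tt N 0 * tt N 2 * tt N 3), 3 * (tt N 0 * tt N 1 * tt N 3),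
    -(tt N 0 * tt N 1 * tt N 2)]

/-- The normalised value at the class of `v`. -/
def Setup.al (S : Setup) (G : S.A → ℂ) (v : ℂ) : ℂ :=
  ∏ j : Fin 4, G (S.pt (tt S.N j * v) (tt S.N j * v) + S.p) ^ cc S.N j

/-! ### The abstract finite system -/

section Fin

variable {H : Type} [AddCommGroup H]

/-- The number of vanishing arguments of an edge. -/
def Nz (s x y : H) : ℕ :=
  (if s + x + y = 0 then 1 else 0) + (if s + x - y = 0 then 1 else 0) +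
    (if s - x + y = 0 then 1 else 0) + (if s - x - y = 0 then 1 else 0)

/-- The sum over the arguments of an edge. -/
def kap (d : H → ℂ) (s x y : H) : ℂ :=
  d (s + x + y) + d (s + x - y) + d (s - x + y) + d (s - x - y)

/-- The sum over the arguments of a tetrahedron. -/
def EE (d : H → ℂ) (s₁ s₂ s₃ w x y z : H) : ℂ :=
  kap d s₁ w x + kap d s₂ w y + kap d s₃ w z + kap d s₃ x y + kap d s₁ y z + kap d s₂ x z -
    (d (s₁ + s₁) + d (s₂ + s₂) + d (s₃ + s₃))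

/-- The value of a face. -/
def Face (a : ℂ) (s₁ s₂ s₃ w x y : H) : ℂ :=
  a ^ (Nz s₁ w x + Nz s₂ w y + Nz s₃ x y) -
    if Nz s₁ w x ≠ 0 ∧ Nz s₂ w y ≠ 0 ∧ Nz s₃ x y ≠ 0 then a * (a - 1) ^ 2 else 0

/-- Conditions on one parameter. -/
def Gen1 (s w : H) : Prop := 4 • s ≠ 0 ∧ 2 • (s + w) ≠ 0 ∧ 2 • (s - w) ≠ 0

/-- Conditions on a difference of parameters. -/
def Gen2 (s w : H) : Prop := 2 • (s + w) ≠ 0 ∧ 2 • (s - w) ≠ 0

/-- Generic parameters. -/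
structure Gen (s₁ s₂ s₃ w : H) : Prop where
  sum : s₁ + s₂ + s₃ = 0
  hw : 2 • w ≠ 0
  g₁ : Gen1 s₁ w
  g₂ : Gen1 s₂ w
  g₃ : Gen1 s₃ w
  d₁ : Gen2 (s₂ - s₃) w
  d₂ : Gen2 (s₃ - s₁) w
  d₃ : Gen2 (s₁ - s₂) w

/-- Two finite subgroups with weights. -/
structure FinSys (P Q : AddSubgroup H) (XP XQ X : Finset H) (a μp μm : ℂ) (μ : H → ℂ) :
    Prop where
  mem_P : ∀ g, g ∈ XP ↔ g ∈ P
  mem_Q : ∀ g, g ∈ XQ ↔ g ∈ Q
  mem_X : ∀ g, g ∈ X ↔ g ∈ P ∨ g ∈ Q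
  tors_P : ∀ g ∈ P, g ∈ Q ↔ 2 • g = 0
  tors_Q : ∀ g ∈ Q, g ∈ P ↔ 2 • g = 0
  hμ : ∀ g, μ g = (if g ∈ P then μp else 0) + if g ∈ Q then μm else 0
  hp : μp * (1 - a) = a
  hm : μm * (1 + a) = a
  a_ne : a ≠ 0
  count : XP.card * μp + XQ.card * μm = 2 + 2 * a

/-- The sum over a coset of the second group. -/
def nu (XQ : Finset H) (d : H → ℂ) (v : H) : ℂ := ∑ g ∈ XQ, d (v + g)

/-- The combination that is additive on generic parameters. -/
def chw (XQ : Finset H) (a μm : ℂ) (d : H → ℂ) (w s : H) : ℂ :=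
  a * (nu XQ d (s + w) - d (2 • (s + w)) + (nu XQ d (s - w) - d (2 • (s - w)))) -
    ((1 + a ^ 2) * d (2 • s) - XQ.card * μm ^ 2 * nu XQ d s)

/-- One third of the averaged relation. -/
def Tm (X : Finset H) (a : ℂ) (μ d : H → ℂ) (s₁ s₂ s₃ w : H) : ℂ :=
  ∑ x ∈ X, ∑ y ∈ X, μ x * μ y * Face a s₁ s₂ s₃ w x y *
    (kap d s₁ w x + kap d s₃ x y - d (s₃ + s₃))

/-- The weight of a pair of spins. -/
def Wt (P : AddSubgroup H) (a μp : ℂ) (μ : H → ℂ) (s₁ s₂ s₃ w x y : H) : ℂ :=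
  (μ x - a * Nz s₁ w x) * (μ y - a * Nz s₂ w y) - (if x ∈ P then a * μp * Nz s₃ x y else 0) +
    a ^ 2 * Nz s₃ x y * (Nz s₁ w x + Nz s₂ w y) - a ^ 2 * Nz s₁ w x * Nz s₂ w y * Nz s₃ x y

/-- A symmetric sum of values at doubled points. -/
def dpm (d : H → ℂ) (w s : H) : ℂ := d (2 • (s + w)) + d (2 • (s - w))

/-- A symmetric sum of coset sums. -/
def npm (XQ : Finset H) (d : H → ℂ) (w s : H) : ℂ := nu XQ d (s + w) + nu XQ d (s - w)

end Fin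

end

end Pool.Agent.P.MP_29cb78_nt.E
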