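import Pool.Agent.P.MP_29cb78_nt.E.Defs

/-!
Statements of the pieces of the proof that the elliptic gamma values are algebraic.
-/

namespace Pool.Agent.P.MP_29cb78_nt.E

open Filter Topology
open scoped Classical Real

noncomputable section

/-! ### Theta functions -/

/-- Basic properties of the theta function. -/
def S_TH : Prop := ∀ S : Setup, S.TH

/-- Odd sections of degree four and six, and an addition formula. -/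
def S_OSEC : Prop := ∀ S : Setup, S.TH →
  (∀ f, S.Sec 4 f → (∀ y, f (-y) = -f y) → ∃ c : ℂ, ∀ y, f y = c * S.ϑ (2 * y)) ∧
  (∀ f α, S.Sec 6 f → (∀ y, f (-y) = -f y) → 2 * α ∉ S.M → f α = 0 →
    ∃ c : ℂ, ∀ y, f y = c * S.ff α y) ∧
  (∀ (d : ℕ) (σ : Fin d → ℂ), Even d → ∑ j, σ j = 0 →
    S.Sec d (S.PP σ) ∧ S.Sec d (fun y => S.PP σ (-y)) ∧ S.Sec d (S.Pm σ)) ∧
  (∀ α, S.Sec 6 (S.ff α)) ∧ S.Sec 4 fun y => S.ϑ (2 * y)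

/-- The formula of Frobenius and Stickelberger. -/
def S_FS : Prop := ∀ S : Setup, S.TH → ∃ c : ℂ, ∀ x y u v : ℂ,
  x + u ∉ S.M → x + v ∉ S.M → y + u ∉ S.M → y + v ∉ S.M →
    (S.zt (x + v) + S.zt (y + u) - S.zt (x + u) - S.zt (y + v)) *
      (S.ϑ (x + u) * S.ϑ (x + v) * S.ϑ (y + u) * S.ϑ (y + v)) =
    c * (S.ϑ (x - y) * S.ϑ (u - v) * S.ϑ (x + y + u + v))

/-- The three term relation. -/
def S_T1 : Prop := ∀ S : Setup, S.TH → ∀ (σ : Fin 6 → ℂ) (a b : Fin 6), ∑ j, σ j = 0 → a ≠ b →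
  ∀ y, S.ϑ (σ a - σ b) * S.Pm σ y =
    (∏ j ∈ Finset.univ \ {a, b}, S.ϑ (σ j + σ b)) * S.ff (σ a) y -
      (∏ j ∈ Finset.univ \ {a, b}, S.ϑ (σ j + σ a)) * S.ff (σ b) y

/-- The kernel as an entire odd function of each variable. -/
def S_BENT : Prop := ∀ S : Setup, S.TH → ∀ (d : ℕ) (σ : Fin d → ℂ), Even d → d ≠ 0 →
  ∑ j, σ j = 0 →
  (∀ y₁ y₂, S.BB σ y₁ y₂ = S.BB σ y₂ y₁) ∧
  (∀ y₂, 2 * y₂ ∉ S.M → ∃ f, S.Sec d f ∧ (∀ y, f (-y) = -f y) ∧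
    ∀ y₁, y₁ - y₂ ∉ S.M → y₁ + y₂ ∉ S.M → S.BB σ y₁ y₂ = f y₁) ∧
  ∀ a : Fin d, ∃ f, S.Sec d f ∧ (∀ y, f (-y) = -f y) ∧
    (∀ y, σ a - y ∉ S.M → σ a + y ∉ S.M →
      S.BB σ (σ a) y = S.PP σ (σ a) * f y + S.GG σ (σ a) * S.Pm σ y) ∧
    ∀ b, b ≠ a → σ a + σ b ∉ S.M →
      f (σ b) = S.GG σ (σ b) - S.PP σ (σ b) * S.zt (σ a + σ b)

/-- The kernel for four parameters. -/
def S_RES4 : Prop := ∀ S : Setup, S.TH → ∀ σ : Fin 4 → ℂ, ∑ j, σ j = 0 →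
  (∀ j, σ 0 + σ j ∉ S.M) → ∃ α, S.Sec 4 α ∧
    ∀ y₁ y₂, y₁ - y₂ ∉ S.M → y₁ + y₂ ∉ S.M → 2 * y₂ ∉ S.M → σ 0 - y₂ ∉ S.M → σ 0 + y₂ ∉ S.M →
      S.BB σ y₁ y₂ = S.Pm σ y₁ * α y₂

/-- The kernel for six parameters. -/
def S_RES6 : Prop := ∀ S : Setup, S.TH → ∃ c : ℂ, ∀ σ : Fin 6 → ℂ, ∑ j, σ j = 0 →
  (∀ j l, σ j + σ l ∉ S.M) → σ 0 - σ 2 ∉ S.M → σ 1 - σ 3 ∉ S.M →
  ∃ (R : ℂ) (α α' : ℂ → ℂ), S.Sec 6 α ∧ S.Sec 6 α' ∧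
    R * S.ϑ (σ 0 + σ 1) = c * (S.ϑ (σ 2 + σ 3) * S.ϑ (σ 2 + σ 4) * S.ϑ (σ 2 + σ 5) *
      S.ϑ (σ 3 + σ 4) * S.ϑ (σ 3 + σ 5) * S.ϑ (σ 4 + σ 5)) ∧
    ∀ y₁ y₂, y₁ - y₂ ∉ S.M → y₁ + y₂ ∉ S.M → 2 * y₂ ∉ S.M →
      (∀ j, σ j - y₂ ∉ S.M ∧ σ j + y₂ ∉ S.M) →
      S.BB σ y₁ y₂ = R * (S.ff (σ 0) y₁ * S.ff (σ 1) y₂) + S.Pm σ y₁ * α y₂ + α' y₁ * S.Pm σ y₂

/-! ### The gamma function -/

/-- The double product. -/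
def S_DN : Prop := ∀ S : Setup, S.DN

/-- The theta product in the direction of `q`. -/
def S_THQ : Prop := ∀ S : Setup, S.TH →
  ∃ g, S.ExpQ g ∧ ∀ x, S.ϑ (S.x₁ x) = g x * S.θw S.q x

/-- The theta product in the direction of `p`. -/
def S_THP : Prop := ∀ S : Setup, S.TH →
  ∃ g, S.ExpQ g ∧ ∀ x, S.ϑ (S.x₂ x) = g x * S.θw S.p x

/-- The correcting factor. -/
def S_PSI : Prop := ∀ S : Setup, S.TH → ∃ nc ψ, S.Psi nc ψ ∧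
  ∀ x, ψ x * ψ (S.p + S.q - x) = (-1) ^ (S.n x - nc)

/-- The multiplier of the correcting factor in the first coordinate. -/
def S_RHO : Prop := ∀ S : Setup, S.TH → S.DN → ∀ nc ψ, S.Psi nc ψ → ∀ B : ℂ →+ ℂ →+ ℂ,
  (∀ m ∈ S.M, ∀ z, S.mult m z = Complex.exp (S.η m * z + B m m)) → ∀ m ∈ S.M, ∀ x,
    ψ (x + S.pt m 0) = Complex.exp ((S.n x - nc : ℤ) * (S.η m * S.x₁ x + B m m) -
      S.η m * S.lam * (S.n x - nc : ℤ) * ((S.n x - nc : ℤ) + 1) / 2) * ψ x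

/-- The second difference equation up to a quadratic exponential. -/
def S_GHQ : Prop := ∀ S : Setup, S.TH → S.DN → ∀ nc ψ, S.Psi nc ψ →
  (∀ x, ψ x * ψ (S.p + S.q - x) = (-1) ^ (S.n x - nc)) →
  ∃ (b : S.A →+ S.A →+ ℂ) (c : ℂ), (∀ x y, b x y = b y x) ∧ (∀ x, b S.p x = 0) ∧
    (∃ l : S.A → ℂ, ∀ z y, b (S.ι z) y = z * l y) ∧
    ∀ x, ψ (x + S.q) * S.θw S.p x = Complex.exp (b x x + c) * S.ϑ (S.x₂ x) * ψ x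

/-- The multipliers of the correcting factor. -/
def S_GHP : Prop := ∀ S : Setup, S.TH → S.DN → ∀ nc ψ, S.Psi nc ψ → ∀ ω ∈ S.Ω,
  ∃ (b : S.A →+ S.A →+ ℂ) (l : S.A →+ ℂ) (c : ℂ), (∀ x y, b x y = b y x) ∧
    ∀ x, ψ (x + ω) = Complex.exp (b x x + l x + c) * ψ x

/-- The normalised gamma function exists. -/
def S_GH : Prop := ∀ S : Setup, ∃ G, S.GH G

/-- Symmetries of the multipliers. -/
def S_QD : Prop := ∀ S : Setup, S.TH → ∀ G, S.GH G → ∀ ω ∈ S.Ω, ∃ Q, S.QD G ω Q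

/-- Periodicity of the symmetric products. -/
def S_WPER : Prop := ∀ S : Setup, S.TH → ∀ G, S.GH G → ∀ (d : ℕ) (t : Fin d → S.A) (α β : ℕ),
  Even d → ∑ j, t j = α • S.p + β • S.q → ∀ ω ∈ S.Ω, ∀ y,
    S.WW G t (y + ω) * (S.mult (S.x₁ ω) (S.x₁ y) ^ d * S.mult (S.x₂ ω) (S.x₂ y) ^ d) =
      S.WW G t y * (S.mult (S.x₁ ω) (S.x₁ y) ^ (2 * α) * S.mult (S.x₂ ω) (S.x₂ y) ^ (2 * β))

/-- Periodicity in the parameters. -/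
def S_GPER : Prop := ∀ S : Setup, S.TH → ∀ G, S.GH G → ∀ (t : Fin 6 → S.A) (a b : Fin 6),
  a ≠ b → ∑ j, t j = S.p + S.q → ∀ ω ∈ S.Ω, ∃ c : ℂ, c ≠ 0 ∧
    (∀ y, S.WW G (t + Pi.single a ω - Pi.single b ω) y = c * S.WW G t y) ∧
    S.PG G (t + Pi.single a ω - Pi.single b ω) = c * S.PG G t

/-! ### Contour integrals -/

/-- Properties of the residue. -/
def S_RES0 : Prop :=
  (∀ g x, MeromorphicAt g x →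
    ∀ᶠ r in 𝓝[>] (0 : ℝ), (∮ z in C(x, r), g z) = 2 * π * Complex.I * res g x) ∧
  (∀ f g x, f =ᶠ[𝓝[≠] x] g → res f x = res g x) ∧
  (∀ f g x, MeromorphicAt f x → MeromorphicAt g x →
    res (fun z => f z + g z) x = res f x + res g x) ∧
  (∀ f x (c : ℂ), MeromorphicAt f x → res (fun z => c * f z) x = c * res f x) ∧
  (∀ f x y, res (fun z => f (z + y)) x = res f (x + y)) ∧
  (∀ f x r, MeromorphicAt f x → Tendsto (fun z => z * f (x + z)) (𝓝[≠] 0) (𝓝 r) → res f x = r) ∧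
  (∀ f x, MeromorphicAt f x → Reg1 f x → res f x = 0) ∧
  ∀ f x, MeromorphicAt f x → res (deriv f) x = 0

/-- The residue theorem for a horizontal strip. -/
def S_STRIP : Prop := ∀ (g : ℂ → ℂ) (r₁ r₂ : ℝ) (F : Finset ℂ), (∀ x, MeromorphicAt g x) →
  (∀ x, (fun z => g (z + 1)) =ᶠ[𝓝[≠] x] g) → r₁ < r₂ →
  (∀ x : ℂ, x.im = r₁ ∨ x.im = r₂ → Reg1 g x) →
  (∀ x ∈ F, r₁ < x.im ∧ x.im < r₂) →
  (∀ x ∈ F, ∀ y ∈ F, (∃ k : ℤ, x - y = k) → x = y) →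
  (∀ x : ℂ, r₁ < x.im → x.im < r₂ → ¬ Reg1 g x → ∃ y ∈ F, ∃ k : ℤ, x - y = k) →
  (∫ u in (0 : ℝ)..1, g (u + r₁ * Complex.I)) - (∫ u in (0 : ℝ)..1, g (u + r₂ * Complex.I)) =
    2 * π * Complex.I * ∑ x ∈ F, res g x

/-- The contour integral in the plane. -/
def S_LAM1 : Prop := ∃ Λ, Lam1 Λ

/-- The contour integral on the group. -/
def S_LAM : Prop := ∀ S : Setup, ∃ Λ, S.LamAPI Λ

/-- Periodic products are tame. -/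
def S_TAME : Prop := ∀ S : Setup, S.TH → ∀ G, S.GH G →
  ∀ (d d₁ d₂ : ℕ) (t : Fin d → S.A) (α β : ℕ) (f₁ f₂ : ℂ → ℂ) (cl : S.A → Prop),
    Even d → ∑ j, t j = α • S.p + β • S.q → d₁ + 2 * α = d → d₂ + 2 * β = d →
    S.Sec d₁ f₁ → S.Sec d₂ f₂ → S.Sep t cl →
    S.Tame (fun y => S.WW G t y * (f₁ (S.x₁ y) * f₂ (S.x₂ y))) cl

/-- Exact terms do not contribute. -/
def S_EX : Prop := ∀ S : Setup, S.TH → ∀ G, S.GH G → ∀ Λ, S.LamAPI Λ →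
  ∀ (d d' : ℕ) (t : Fin d → S.A) (β : ℕ) (f : ℂ → ℂ) (cl : S.A → Prop),
    Even d → d' + 2 * β = d → S.Sec d' f → S.Sep t cl →
    (∑ j, t j = β • S.q →
      Λ (fun y => S.WW G t y * (S.Pm (fun j => S.x₁ (t j)) (S.x₁ y) * f (S.x₂ y))) cl = 0) ∧
    (∑ j, t j = β • S.p →
      Λ (fun y => S.WW G t y * (f (S.x₁ y) * S.Pm (fun j => S.x₂ (t j)) (S.x₂ y))) cl = 0)

/-- The difference equation of the beta integral. -/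
def S_BSH : Prop := ∀ S : Setup, S.TH → ∀ G, S.GH G → ∀ Λ, S.LamAPI Λ →
  ∀ (t : Fin 6 → S.A) (a b : Fin 6) (cl : S.A → Prop), a ≠ b → ∑ j, t j = S.q → S.Sep t cl →
    (∏ j ∈ Finset.univ \ {a, b}, S.ϑ (S.x₁ (t j + t b))) *
        Λ (S.II G (t + Pi.single a S.p)) cl =
      (∏ j ∈ Finset.univ \ {a, b}, S.ϑ (S.x₁ (t j + t a))) *
        Λ (S.II G (t + Pi.single b S.p)) cl ∧
    (∏ j ∈ Finset.univ \ {a, b}, S.ϑ (S.x₁ (t j + t b))) * S.PG G (t + Pi.single a S.p) =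
      (∏ j ∈ Finset.univ \ {a, b}, S.ϑ (S.x₁ (t j + t a))) * S.PG G (t + Pi.single b S.p)

/-- Holomorphic dependence on the parameters. -/
def S_BHOL : Prop := ∀ S : Setup, S.TH → ∀ G, S.GH G → ∀ (t : Fin 6 → S.A) (u : Fin 6 → ℂ),
  DifferentiableOn ℂ (fun z => S.Lin (S.II G fun j => t j + S.ι (z * u j)))
    {z | ∀ j, 0 < S.h (t j + S.ι (z * u j))}

/-- Liouville's theorem on a strip. -/
def S_BLIOU : Prop := ∀ S : Setup, S.TH → ∀ (F : S.A → ℂ) (H : ℝ), S.h S.p < H →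
  (∀ x, 0 < S.h x → S.h x < H → DifferentiableAt ℂ (S.sl F x) 0) →
  (∀ ω ∈ S.Ω, ∀ x, 0 < S.h x → S.h x < H → F (x + ω) = F x) →
  (∀ x, 0 < S.h x → S.h (x + S.p) < H → F (x + S.p) = F x) →
  ∀ x y, 0 < S.h x → S.h x < H → 0 < S.h y → S.h y < H → F x = F y

/-- Moving one parameter. -/
def S_BMOVE : Prop := ∀ S : Setup, S.TH → ∀ G, S.GH G → ∀ Λ, S.LamAPI Λ →
  ∀ (t t' : Fin 6 → S.A) (a b : Fin 6), a ≠ b → ∑ j, t j = S.p + S.q → ∑ j, t' j = S.p + S.q →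
    (∀ j, 0 < S.h (t j)) → (∀ j, 0 < S.h (t' j)) → (∀ j, j ≠ a → j ≠ b → t' j = t j) →
    ∑ j ∈ Finset.univ \ {a, b}, S.h (t j) < S.h S.q →
    Λ (S.II G t) (fun y => 0 < S.h y) / S.PG G t = Λ (S.II G t') (fun y => 0 < S.h y) / S.PG G t'

/-- The beta integral in its domain of convergence. -/
def S_BCON : Prop := ∀ S : Setup, S.TH → ∀ G, S.GH G → ∀ Λ, S.LamAPI Λ → ∃ C : ℂ,
  ∀ t : Fin 6 → S.A, ∑ j, t j = S.p + S.q → (∀ j, 0 < S.h (t j)) →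
    Λ (S.II G t) (fun y => 0 < S.h y) = C * S.PG G t

/-- The beta integral with a free parameter. -/
def S_BETA : Prop := ∀ S : Setup, S.TH → ∀ G, S.GH G → ∀ Λ, S.LamAPI Λ → ∃ C : ℂ,
  ∀ (t : Fin 6 → S.A) (cl : S.A → Prop), ∑ j, t j = S.p + S.q →
    (∀ l, l ≠ 0 → ¬ S.Lat (t 0 + t l)) → S.Sep t cl → (∀ y, cl (y + S.p) ↔ cl y) →
    Λ (S.II G t) cl = C * S.PG G t

/-! ### Telescoping -/

/-- Additive functions with the quasi-periods. -/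
def S_PHI : Prop := ∀ S : Setup, ∃ (φ₁ φ₂ : S.A →+ ℂ) (k₁ k₂ : ℂ),
  (∀ z, φ₁ (S.ι z) = k₁ * z ∧ φ₂ (S.ι z) = k₂ * z) ∧
  ∀ ω ∈ S.Ω, φ₁ ω = S.η (S.x₁ ω) ∧ φ₂ ω = S.η (S.x₂ ω)

/-- The term with poles on the diagonal. -/
def S_TJ1 : Prop := ∀ S : Setup, S.TH → ∀ G, S.GH G → ∀ Λ, S.LamAPI Λ →
  ∀ (d : ℕ) (t : Fin d → S.A) (σ : Fin d → ℂ) (θ : ℂ → ℚ) (φ : S.A →+ ℂ) (k : ℂ)
    (F : Finset S.A), Even d → ∑ j, t j = 0 →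
    (∀ y, S.PP σ y = S.PP (fun j => S.x₁ (t j)) y ∧ S.PP σ y = S.PP (fun j => S.x₂ (t j)) y) →
    S.Thr t θ → (∀ z, φ (S.ι z) = k * z) → (∀ ω ∈ S.Ω, φ ω = S.η (S.x₁ ω - S.x₂ ω)) →
    S.Reps F (fun y => S.x₁ y - S.x₂ y ∈ S.M ∧ θ (S.x₂ y) - 1 ≤ S.kk y ∧ S.kk y < θ (S.x₂ y)) →
    ∃ f, S.Tame f (S.clT θ) ∧ S.AE f (fun y => S.WW G t y *
        (S.PP σ (S.x₁ y) * S.PP σ (-S.x₂ y) * (S.zt (S.x₁ y - S.x₂ y) - φ (y + (S.p - S.q))) -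
          S.PP σ (-S.x₁ y) * S.PP σ (S.x₂ y) * (S.zt (S.x₁ y - S.x₂ y) - φ y))) ∧
      Λ f (S.clT θ) =
        S.κ * ∑ y ∈ F, (∏ j, (G (t j + y + S.q) * G (t j - y + S.p))) / (S.ε - 1)

/-- The term with poles on the antidiagonal. -/
def S_TJ2 : Prop := ∀ S : Setup, S.TH → ∀ G, S.GH G → ∀ Λ, S.LamAPI Λ →
  ∀ (d : ℕ) (t : Fin d → S.A) (σ : Fin d → ℂ) (θ : ℂ → ℚ) (φ : S.A →+ ℂ) (k : ℂ)
    (F : Finset S.A), Even d → ∑ j, t j = 0 →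
    (∀ y, S.PP σ y = S.PP (fun j => S.x₁ (t j)) y ∧ S.PP σ y = S.PP (fun j => S.x₂ (t j)) y) →
    S.Thr t θ → (∀ z, φ (S.ι z) = k * z) → (∀ ω ∈ S.Ω, φ ω = S.η (S.x₁ ω + S.x₂ ω)) →
    S.Reps F (fun y => S.x₁ y + S.x₂ y ∈ S.M ∧ θ (S.x₂ y) ≤ S.kk y ∧ S.kk y < θ (S.x₂ y) + 1) →
    ∃ f, S.Tame f (S.clT θ) ∧ S.AE f (fun y => S.WW G t y *
        (S.PP σ (-S.x₁ y) * S.PP σ (-S.x₂ y) * (S.zt (S.x₁ y + S.x₂ y) - φ y) -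
          S.PP σ (S.x₁ y) * S.PP σ (S.x₂ y) * (S.zt (S.x₁ y + S.x₂ y) - φ (y + (S.p + S.q))))) ∧
      Λ f (S.clT θ) =
        S.κ * ∑ y ∈ F, (∏ j, (G (t j + y) * G (t j - y + S.p + S.q))) / (S.ε + 1)

/-- The two exact terms. -/
def S_TV : Prop := ∀ S : Setup, S.TH → ∀ G, S.GH G → ∀ Λ, S.LamAPI Λ →
  ∀ (d : ℕ) (t : Fin d → S.A) (σ : Fin d → ℂ) (cl : S.A → Prop) (φ : S.A →+ ℂ) (k α : ℂ),
    Even d → d ≠ 0 → ∑ j, t j = 0 → ∑ j, σ j = 0 →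
    (∀ y, S.PP σ y = S.PP (fun j => S.x₁ (t j)) y ∧ S.PP σ y = S.PP (fun j => S.x₂ (t j)) y) →
    S.Sep t cl → (∀ z, φ (S.ι z) = k * z) →
    ((∀ ω ∈ S.Ω, φ ω = S.η (S.x₂ ω)) → ∃ f, S.Tame f cl ∧ Λ f cl = 0 ∧
      S.AE f fun y => S.WW G t y *
        (S.PP σ (S.x₁ y) * (S.GG σ (S.x₂ y) -
            φ (y + S.p) * (S.PP σ (S.x₂ y) + S.PP σ (-S.x₂ y)) + α * S.PP σ (S.x₂ y)) -
          S.PP σ (-S.x₁ y) * (S.GG σ (S.x₂ y) -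
            φ y * (S.PP σ (S.x₂ y) + S.PP σ (-S.x₂ y)) + α * S.PP σ (S.x₂ y)))) ∧
    ((∀ ω ∈ S.Ω, φ ω = S.η (S.x₁ ω)) → ∃ f, S.Tame f cl ∧ Λ f cl = 0 ∧
      S.AE f fun y => S.WW G t y *
        (S.PP σ (S.x₂ y) * (S.GG σ (S.x₁ y) -
            φ (y + S.q) * (S.PP σ (S.x₁ y) + S.PP σ (-S.x₁ y)) + α * S.PP σ (S.x₁ y)) -
          S.PP σ (-S.x₂ y) * (S.GG σ (S.x₁ y) -
            φ y * (S.PP σ (S.x₁ y) + S.PP σ (-S.x₁ y)) + α * S.PP σ (S.x₁ y))))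

/-- The telescoping identity. -/
def S_TEL : Prop := ∀ S : Setup, S.TH → ∀ G, S.GH G → ∀ Λ, S.LamAPI Λ →
  ∀ (d : ℕ) (t : Fin d → S.A) (σ : Fin d → ℂ) (θ : ℂ → ℚ) (F₁ F₂ : Finset S.A),
    Even d → d ≠ 0 → ∑ j, t j = 0 → ∑ j, σ j = 0 →
    (∀ y, S.PP σ y = S.PP (fun j => S.x₁ (t j)) y ∧ S.PP σ y = S.PP (fun j => S.x₂ (t j)) y) →
    S.Thr t θ →
    S.Reps F₁ (fun y => S.x₁ y - S.x₂ y ∈ S.M ∧ θ (S.x₂ y) - 1 ≤ S.kk y ∧ S.kk y < θ (S.x₂ y)) →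
    S.Reps F₂ (fun y => S.x₁ y + S.x₂ y ∈ S.M ∧ θ (S.x₂ y) ≤ S.kk y ∧ S.kk y < θ (S.x₂ y) + 1) →
    S.Tame (fun y => S.WW G t y * S.BB σ (S.x₁ y) (S.x₂ y)) (S.clT θ) ∧
    Λ (fun y => S.WW G t y * S.BB σ (S.x₁ y) (S.x₂ y)) (S.clT θ) =
      S.κ * (∑ y ∈ F₁, (∏ j, (G (t j + y + S.q) * G (t j - y + S.p))) / (S.ε - 1) +
        ∑ y ∈ F₂, (∏ j, (G (t j + y) * G (t j - y + S.p + S.q))) / (S.ε + 1))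

/-! ### The finite identities -/

/-- The values with the convention at lattice points. -/
def S_FB : Prop := ∀ S : Setup, S.TH → ∀ G, S.GH G → S.FB G

/-- The two finite groups. -/
def S_GRP : Prop := ∀ S : Setup,
  (∃ XP XQ X : Finset (ℂ ⧸ S.L), S.IsX X ∧ (S.Count →
    FinSys S.Gp S.Gm XP XQ X S.ε⁻¹ (1 / (S.ε - 1)) (1 / (S.ε + 1)) S.μ ∧
    1 + S.ε⁻¹ ^ 2 ≠ XQ.card * (1 / (S.ε + 1)) ^ 2)) ∧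
  (∀ g ∈ S.Gp, S.Diag (S.rep g) ∧ S.cls (S.rep g) = g) ∧
  (∀ g ∈ S.Gm, g ∉ S.Gp → S.Anti (S.rep g) ∧ S.cls (S.rep g) = g ∧ 2 * S.x₁ (S.rep g) ∉ S.L) ∧
  (∀ x, S.Diag x → S.cls x ∈ S.Gp) ∧ (∀ x, S.Anti x → S.cls x ∈ S.Gm) ∧
  (∀ g ∈ S.Gp, g ∈ S.Gm ↔ 2 • g = 0) ∧ (∀ g ∈ S.Gm, g ∈ S.Gp ↔ 2 • g = 0) ∧
  ∀ s w : ℂ ⧸ S.L, ∃ u ∈ S.Gp, 3 • u = 0 ∧ u ∉ AddSubgroup.closure {s, w}

/-- Independence of the lift. -/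
def S_IPER : Prop := ∀ S : Setup, S.TH → ∀ G, S.GH G → S.FB G →
  ∀ (d : ℕ) (t : Fin d → S.A) (e : Equiv.Perm (Fin d)), Even d → S.Adm t e →
    ∀ y y' : S.A, S.x₁ y - S.x₁ y' ∈ S.L →
      (S.Diag y ∧ S.Diag y') ∨ (S.Anti y ∧ S.Anti y' ∧ 2 * S.x₁ y ∉ S.L) →
      S.WW (S.fb G) t y = S.WW (S.fb G) t y'

/-- The points of order two. -/
def S_MERGE : Prop := ∀ S : Setup, S.TH → ∀ G, S.GH G →
  ∀ (d : ℕ) (t : Fin d → S.A) (y y' : S.A), Even d → ∑ j, t j = 0 →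
    S.x₁ y + S.x₂ y ∈ S.M → S.x₁ y' - S.x₂ y' ∈ S.M → S.Lat (y - y') → S.kk y' = S.kk y - 1 →
    (∀ j, S.Lat (t j + y) → S.a (S.x₂ (t j + y)) < 0 ∧ S.a (S.x₁ (t j + y)) ≤ 0 ∧
      S.a (S.x₁ (t j + y')) ≤ 0) →
    (∀ j, S.Lat (t j - y) → S.a (S.x₂ (t j - y)) ≤ 0 ∧ S.a (S.x₁ (t j - y)) < 0 ∧
      S.a (S.x₁ (t j - y')) < 0) →
    ∏ j, (G (t j + y) * G (t j - y + S.p + S.q)) = ∏ j, (G (t j + y' + S.q) * G (t j - y' + S.p))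

/-- Good representatives of the parameters. -/
def S_THR : Prop := ∀ (S : Setup) (d : ℕ) (t : Fin (d + 2) → S.A) (e : Equiv.Perm (Fin (d + 2))),
  Even d → S.Adm t e → S.Diag (t 0) → S.Diag (t 1) → (∀ l, ¬ S.Lat (t 0 + t l)) →
  ∃ (k : Fin (d + 2) → ℤ) (θ : ℂ → ℚ), (∀ j, k (e j) = k j) ∧ ∑ j, S.sh t k j = 0 ∧
    S.Thr (S.sh t k) θ ∧ (∀ j, j ≠ 0 → S.a (S.x₁ (S.sh t k j)) < 0) ∧
    ∀ j, j ≠ 0 → j ≠ 1 → S.a (S.x₁ (S.sh t k 1)) < S.a (S.x₁ (S.sh t k j))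

/-- The residue sum as a sum over the two finite groups. -/
def S_CONV : Prop := ∀ S : Setup, S.TH → ∀ G, S.GH G → S.FB G → ∀ Λ, S.LamAPI Λ →
  ∀ (d : ℕ) (t : Fin d → S.A) (e : Equiv.Perm (Fin d)) (k : Fin d → ℤ) (θ : ℂ → ℚ)
    (X : Finset (ℂ ⧸ S.L)), Even d → d ≠ 0 → S.Adm t e → (∀ j, k (e j) = k j) →
    ∑ j, S.sh t k j = 0 → S.Thr (S.sh t k) θ → S.IsX X →
    S.Tame (fun y => S.WW G (S.sh t k) y *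
      S.BB (fun j => S.x₁ (S.sh t k j)) (S.x₁ y) (S.x₂ y)) (S.clT θ) ∧
    Λ (fun y => S.WW G (S.sh t k) y * S.BB (fun j => S.x₁ (S.sh t k j)) (S.x₁ y) (S.x₂ y))
      (S.clT θ) = S.κ * ∑ g ∈ X, S.μ g * S.WW (S.fb G) t (S.rep g)

/-- The identity with four parameters. -/
def S_ST4 : Prop := ∀ S : Setup, S.TH → ∀ G, S.GH G → S.FB G →
  ∀ (t : Fin 4 → S.A) (X : Finset (ℂ ⧸ S.L)), (∀ j, S.Diag (t j)) → ∑ j, t j = 0 →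
    (∀ l, ¬ S.Lat (t 0 + t l)) → S.IsX X → ∑ g ∈ X, S.μ g * S.WW (S.fb G) t (S.rep g) = 0

/-- The integral of the kernel for six parameters. -/
def S_ST6A : Prop := ∀ S : Setup, S.TH → ∀ G, S.GH G → ∀ Λ, S.LamAPI Λ → ∃ c : ℂ,
  ∀ (t : Fin 6 → S.A) (e : Equiv.Perm (Fin 6)) (θ : ℂ → ℚ), ∑ j, t j = 0 →
    (∀ j, S.x₁ (t (e j)) = S.x₂ (t j)) → e 0 = 0 → e 1 = 1 → (∀ l, ¬ S.Lat (t 0 + t l)) →
    (∀ j, j ≠ 0 → S.a (S.x₁ (t j)) < 0) →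
    (∀ j, j ≠ 0 → j ≠ 1 → S.a (S.x₁ (t 1)) < S.a (S.x₁ (t j))) → S.Thr t θ →
    S.Tame (fun y => S.WW G t y * S.BB (fun j => S.x₁ (t j)) (S.x₁ y) (S.x₂ y)) (S.clT θ) →
    Λ (fun y => S.WW G t y * S.BB (fun j => S.x₁ (t j)) (S.x₁ y) (S.x₂ y)) (S.clT θ) =
      c * S.PG (fun x => G (x + S.q)) t

/-- The identity with six parameters. -/
def ST6 (S : Setup) (G : S.A → ℂ) (c : ℂ) : Prop :=
  ∀ (t : Fin 6 → S.A) (e : Equiv.Perm (Fin 6)) (X : Finset (ℂ ⧸ S.L)), S.Adm t e →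
    S.Diag (t 0) → S.Diag (t 1) → (∀ l, ¬ S.Lat (t 0 + t l)) → S.IsX X →
    ∑ g ∈ X, S.μ g * S.WW (S.fb G) t (S.rep g) = c * S.PG (S.fb G) t

/-- The identity with six parameters holds with some constant. -/
def S_ST6 : Prop := ∀ S : Setup, S.TH → ∀ G, S.GH G → S.FB G → ∃ c, ST6 S G c

/-- Reflection for an edge. -/
def S_KREF : Prop := ∀ S : Setup, S.TH → ∀ G, S.FB G → ∀ s x y : S.A, S.Diag s →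
  2 * S.x₁ s ∉ S.L → (S.Diag x ∨ (S.Anti x ∧ 2 * S.x₁ x ∉ S.L)) →
  (S.Diag y ∨ (S.Anti y ∧ 2 * S.x₁ y ∉ S.L)) →
  S.KK (S.fb G) s x y * S.KK (S.fb G) (-s) x y = S.ε⁻¹ ^ Nz (S.cls s) (S.cls x) (S.cls y)

/-- The constant. -/
def S_CVAL : Prop := ∀ S : Setup, S.TH → ∀ G, S.GH G → S.FB G → ∀ c, ST6 S G c →
  c = -2 * S.fb G 0

/-- Faces that are not triangles. -/
def S_FACE1 : Prop := ∀ S : Setup, S.TH → ∀ G, S.FB G → ∀ c, ST6 S G c →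
  ∀ (s₁ s₂ s₃ w : S.A) (X : Finset (ℂ ⧸ S.L)), S.Diag s₁ → S.Diag s₂ → S.Diag s₃ → S.Diag w →
    s₁ + s₂ + s₃ = 0 → Gen (S.cls s₁) (S.cls s₂) (S.cls s₃) (S.cls w) → S.IsX X →
    ∀ x ∈ X, ∀ y ∈ X, ¬ (Nz (S.cls s₁) (S.cls w) x ≠ 0 ∧ Nz (S.cls s₂) (S.cls w) y ≠ 0 ∧
      Nz (S.cls s₃) x y ≠ 0) →
    ∑ z ∈ X, S.μ z * S.Φ (S.fb G) s₁ s₂ s₃ w (S.rep x) (S.rep y) (S.rep z) =
      c * S.ε⁻¹ ^ (Nz (S.cls s₁) (S.cls w) x + Nz (S.cls s₂) (S.cls w) y + Nz (S.cls s₃) x y)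

/-- Triangles. -/
def S_FACE2 : Prop := ∀ S : Setup, S.TH → ∀ G, S.GH G → S.FB G → S.Count →
  ∀ (s₁ s₂ s₃ w : S.A) (X : Finset (ℂ ⧸ S.L)), S.Diag s₁ → S.Diag s₂ → S.Diag s₃ → S.Diag w →
    s₁ + s₂ + s₃ = 0 → Gen (S.cls s₁) (S.cls s₂) (S.cls s₃) (S.cls w) → S.IsX X →
    ∀ x ∈ X, ∀ y ∈ X, Nz (S.cls s₁) (S.cls w) x ≠ 0 → Nz (S.cls s₂) (S.cls w) y ≠ 0 →
      Nz (S.cls s₃) x y ≠ 0 →
    ∑ z ∈ X, S.μ z * S.Φ (S.fb G) s₁ s₂ s₃ w (S.rep x) (S.rep y) (S.rep z) =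
      -2 * S.fb G 0 * Face S.ε⁻¹ (S.cls s₁) (S.cls s₂) (S.cls s₃) (S.cls w) x y

/-! ### Rigidity -/

/-- The symmetrised values. -/
def S_UP : Prop := ∀ S : Setup, S.TH → ∀ G, S.GH G → S.FB G →
  (∀ x ∈ S.V, S.UU G x ≠ 0 ∧ IsAlgebraic ℚ (S.UU G x * S.UU G (-x))) ∧
  (∀ ω, S.Lat ω → ∃ (b : S.V →+ S.V →+ ℂ) (l : S.V →+ ℂ) (c : ℂ), (∀ x y, b x y = b y x) ∧
    ∀ x : S.V, S.UU G (x + ω) = Complex.exp (b x x + l x + c) * S.UU G x) ∧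
  (∀ x, S.Diag x → x ∈ S.V ∧ S.UU G x = S.fb G x ^ 2) ∧
  (∀ x, S.Anti x → x ∈ S.V) ∧ (∀ x, S.Lat x → x ∈ S.V) ∧ (∀ x ∈ S.V, S.Lat (S.N • x)) ∧
  ∀ s x y, S.Diag s → S.Diag x ∨ S.Anti x → S.Diag y ∨ S.Anti y →
    S.KK (S.UU G) s x y = S.KK (S.fb G) s x y ^ 2

/-- Removing the polynomial part. -/
def S_GAUGE : Prop := ∀ (H : Type) [AddCommGroup H] (Λ : AddSubgroup H) (N : ℕ) (d₀ d : H → ℂ),
  N ≠ 0 → (∀ x : H, N • x ∈ Λ) → (∀ x, d₀ (-x) = -d₀ x) →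
  (∀ ω ∈ Λ, ∃ (b : H →+ H →+ ℂ) (l : H →+ ℂ) (c : ℂ), (∀ x y, b x y = b y x) ∧
    ∀ x, d₀ (x + ω) = d₀ x + (b x x + l x + c)) →
  (∀ x, d x = (6 * (N : ℂ) ^ 3)⁻¹ * ∑ j : Fin 4, cc N j * d₀ (tt N j • x)) →
  (∀ x, d (-x) = -d x) ∧ (∀ ω ∈ Λ, ∀ x, d (x + ω) = d x) ∧
    ∀ s₁ s₂ s₃ w x y z : H, s₁ + s₂ + s₃ = 0 → EE d s₁ s₂ s₃ w x y z = EE d₀ s₁ s₂ s₃ w x y z

/-- The weights of the averaged relation. -/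
def S_RIGW : Prop := ∀ (H : Type) [AddCommGroup H] (P Q : AddSubgroup H) (XP XQ X : Finset H)
  (a μp μm : ℂ) (μ : H → ℂ), FinSys P Q XP XQ X a μp μm μ → ∀ s₁ ∈ P, ∀ s₂ ∈ P, ∀ s₃ ∈ P,
    ∀ w ∈ P, Gen s₁ s₂ s₃ w → ∀ x ∈ X, ∀ y ∈ X,
      μ x * μ y * Face a s₁ s₂ s₃ w x y = Wt P a μp μ s₁ s₂ s₃ w x y

/-- The total weight, and the edge through the fixed spin. -/
def S_RIGB : Prop := ∀ (H : Type) [AddCommGroup H] (P Q : AddSubgroup H) (XP XQ X : Finset H)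
  (a μp μm : ℂ) (μ d : H → ℂ), FinSys P Q XP XQ X a μp μm μ → (∀ x, d (-x) = -d x) →
    ∀ s₁ ∈ P, ∀ s₂ ∈ P, ∀ s₃ ∈ P, ∀ w ∈ P, Gen s₁ s₂ s₃ w →
      ∑ x ∈ X, ∑ y ∈ X, Wt P a μp μ s₁ s₂ s₃ w x y =
        (2 - 2 * a) ^ 2 - 4 * XP.card * a * μp + 24 * a ^ 2 ∧
      ∑ x ∈ X, ∑ y ∈ X, Wt P a μp μ s₁ s₂ s₃ w x y * kap d s₁ w x =
        2 * (2 - 2 * a) * μm * npm XQ d w s₁ +
          2 * (6 * a ^ 2 - 2 * a) * (2 * d (2 • s₁) + dpm d w s₁) -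
          4 * a ^ 2 * (2 * d (2 • s₂) + dpm d w s₂ + (2 * d (2 • s₃) + dpm d w s₃))

/-- The edge opposite to the fixed spin. -/
def S_RIGC : Prop := ∀ (H : Type) [AddCommGroup H] (P Q : AddSubgroup H) (XP XQ X : Finset H)
  (a μp μm : ℂ) (μ d : H → ℂ), FinSys P Q XP XQ X a μp μm μ → (∀ x, d (-x) = -d x) →
    ∀ s₁ ∈ P, ∀ s₂ ∈ P, ∀ s₃ ∈ P, ∀ w ∈ P, Gen s₁ s₂ s₃ w →
      ∑ x ∈ X, ∑ y ∈ X, Wt P a μp μ s₁ s₂ s₃ w x y * kap d s₃ x y =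
        4 * (XQ.card * μm ^ 2 * nu XQ d s₃ -
          a * μm * (npm XQ d w (s₃ - s₁) + npm XQ d w (s₃ - s₂) - npm XQ d w s₁ - npm XQ d w s₂) -
          a * μp * XP.card * d (2 • s₃) +
          a ^ 2 * (8 * d (2 • s₃) + dpm d w s₃ - 2 * d (2 • s₁) - dpm d w s₁ - 2 * d (2 • s₂) -
            dpm d w s₂ + dpm d w (s₃ - s₁) + dpm d w (s₃ - s₂)))

/-- The averaged relation. -/
def S_RIG1 : Prop := ∀ (H : Type) [AddCommGroup H] (P Q : AddSubgroup H) (XP XQ X : Finset H)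
  (a μp μm : ℂ) (μ d : H → ℂ), FinSys P Q XP XQ X a μp μm μ → (∀ x, d (-x) = -d x) →
    ∀ s₁ ∈ P, ∀ s₂ ∈ P, ∀ s₃ ∈ P, ∀ w ∈ P, Gen s₁ s₂ s₃ w →
      Tm X a μ d s₁ s₂ s₃ w + Tm X a μ d s₂ s₃ s₁ w + Tm X a μ d s₃ s₁ s₂ w =
        4 * (chw XQ a μm d w s₁ + chw XQ a μm d w s₂ + chw XQ a μm d w s₃)

/-- The averaged relation has only the trivial solution. -/
def S_RIG2 : Prop := ∀ (H : Type) [AddCommGroup H] (P Q : AddSubgroup H) (XP XQ X : Finset H)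
  (a μp μm : ℂ) (μ d : H → ℂ), FinSys P Q XP XQ X a μp μm μ → (∀ x, d (-x) = -d x) →
    1 + a ^ 2 ≠ XQ.card * μm ^ 2 →
    (∀ s w : H, ∃ u ∈ P, 3 • u = 0 ∧ u ∉ AddSubgroup.closure {s, w}) →
    (∀ s₁ ∈ P, ∀ s₂ ∈ P, ∀ s₃ ∈ P, ∀ w ∈ P, Gen s₁ s₂ s₃ w →
      chw XQ a μm d w s₁ + chw XQ a μm d w s₂ + chw XQ a μm d w s₃ = 0) →
    ∀ s ∈ P, d (2 • s) = 0

/-- Derivations detect transcendence. -/
def S_DER : Prop :=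
  (∀ z : ℂ, (∀ D : Derivation ℚ ℂ ℂ, D z = 0) → IsAlgebraic ℚ z) ∧
  ∀ (z : ℂ) (D : Derivation ℚ ℂ ℂ), IsAlgebraic ℚ z → D z = 0

/-- The normalised values are algebraic. -/
def S_ALG : Prop := ∀ S : Setup, S.Count → ∀ G, S.GH G → ∀ v : ℂ, (S.ε - 1) * v / 2 ∈ S.L →
  v ∉ S.L → IsAlgebraic ℚ (S.al G v)

end

end Pool.Agent.P.MP_29cb78_nt.E
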