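import Pool.Agent.P.MP_29cb78_nt.E.Fb

/-!
Independence of the lift.
-/

namespace Pool.Agent.P.MP_29cb78_nt.E

open scoped Classical

noncomputable section

namespace Iper

variable {S : Setup} {G : S.A → ℂ}

/-- Shifting a family that is stable under transposition. -/
lemma prodT (hF : S.FB G) {ι : Type} [Fintype ι] (x : ι → S.A) (e : ι → ι) (k : ι → ℤ)
    (he : ∀ j, e (e j) = j) (hk : ∀ j, k (e j) = k j) (h1 : ∀ j, S.x₁ (x (e j)) = S.x₂ (x j))
    (h2 : ∀ j, S.x₂ (x (e j)) = S.x₁ (x j)) :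
    ∏ j, S.fb G (x j + k j • (S.p - S.q)) = ∏ j, S.fb G (x j) := by
  have h : ∏ j, (S.fb G (x j + k j • (S.p - S.q)) / S.fb G (x j)) = 1 := by
    refine Finset.prod_involution (fun j _ => e j) (fun j _ => ?_) (fun j _ hj hej => hj ?_)
      (fun _ _ => Finset.mem_univ _) (fun j _ => he j)
    · rw [div_mul_div_comm, hk, hF.tsh _ _ _ (h1 j) (h2 j)]
      exact div_self (mul_ne_zero (hF.ne _) (hF.ne _))
    · have : S.Diag (x j) := by
        have := h1 j
        rwa [show e j = j from hej] at this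
      rw [hF.tshD _ _ this, div_self (hF.ne _)]
  rw [Finset.prod_div_distrib, div_eq_one_iff_eq (Finset.prod_ne_zero_iff.2 fun j _ => hF.ne _)] at h
  exact h

variable {d : ℕ} {t : Fin d → S.A} {e : Equiv.Perm (Fin d)}

lemma diagT (hF : S.FB G) (ht : S.Adm t e) {y : S.A} (hy : S.Diag y) (k : ℤ) :
    S.WW (S.fb G) t (y + k • (S.p - S.q)) = S.WW (S.fb G) t y := by
  have hy' : S.x₂ y = S.x₁ y := hy.symm
  have h1 := prodT hF (fun j => t j + y) e (fun _ => k) ht.inv (fun _ => rfl)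
    (fun j => by simp [ht.sw₁, hy']) (fun j => by simp [ht.sw₂, hy'])
  have h2 := prodT hF (fun j => t j - y) e (fun _ => -k) ht.inv (fun _ => rfl)
    (fun j => by simp [ht.sw₁, hy']) (fun j => by simp [ht.sw₂, hy'])
  simp only [Setup.WW, Finset.prod_mul_distrib]
  rw [← h1, ← h2]
  congr 1 <;> refine Finset.prod_congr rfl fun j _ => ?_ <;> congr 1 <;> module

lemma anti_nl (ht : S.Adm t e) {y : S.A} (hy : S.Anti y) (h2 : 2 * S.x₁ y ∉ S.L) (j : Fin d) :
    ¬ S.Lat (t j + y) := by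
  intro h
  have h' := S.lat_iff.1 h
  have hy' : S.x₂ y = -S.x₁ y := by rw [show S.x₁ y = -S.x₂ y from hy, neg_neg]
  simp only [Setup.Lat, map_add, hy'] at h h'
  rcases ht.tw j with hd | hd
  · apply h2
    convert S.L.sub_mem h h' using 1
    rw [show S.x₁ (t j) = S.x₂ (t j) from hd]
    ring
  · apply hd.2
    convert S.L.add_mem h h' using 1
    ring

lemma anti_neg {y : S.A} (hy : S.Anti y) : S.Anti (-y) := by
  simp only [Setup.Anti, map_neg] at hy ⊢
  rw [hy]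

lemma anti_nl' (ht : S.Adm t e) {y : S.A} (hy : S.Anti y) (h2 : 2 * S.x₁ y ∉ S.L) (j : Fin d) :
    ¬ S.Lat (t j - y) := by
  rw [sub_eq_add_neg]
  exact anti_nl ht (anti_neg hy) (fun h => h2 (by simpa using h)) j

lemma antiU1 (hF : S.FB G) (ht : S.Adm t e) {y : S.A} (hy : S.Anti y)
    (h2 : 2 * S.x₁ y ∉ S.L) : S.WW (S.fb G) t (y + (S.p + S.q)) = S.WW (S.fb G) t y := by
  have hy' : S.x₂ y = -S.x₁ y := by rw [show S.x₁ y = -S.x₂ y from hy, neg_neg]
  have a1 : ∀ j, S.fb G (t j + (y + (S.p + S.q))) =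
      S.ϑ (S.x₁ (t j) + S.x₁ y + S.lam) * S.ϑ (S.x₂ (t j) - S.x₁ y) * S.fb G (t j + y) := by
    intro j
    have n := anti_nl ht hy h2 j
    rw [show t j + (y + (S.p + S.q)) = t j + y + S.q + S.p by abel,
      hF.shp _ (by rwa [S.lat_add_iff S.lat_q]), hF.shq _ n]
    simp [hy', sub_eq_add_neg, mul_assoc]
  have a2 : ∀ j, S.fb G (t j - y) = S.ϑ (S.x₂ (t j) + S.x₁ y + S.lam) *
      S.ϑ (S.x₁ (t j) - S.x₁ y) * S.fb G (t j - (y + (S.p + S.q))) := by
    intro j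
    have n : ¬ S.Lat (t j - (y + (S.p + S.q))) := fun h => anti_nl' ht hy h2 j (by
      convert h.add (S.lat_p.add S.lat_q) using 1; abel)
    rw [show t j - y = t j - (y + (S.p + S.q)) + S.p + S.q by abel,
      hF.shq _ (by rwa [S.lat_add_iff S.lat_p]), hF.shp _ n, mul_assoc]
    congr 2
    · simp [hy']; ring
    · simp; congr 1; ring
  have b1 : ∏ j, S.ϑ (S.x₂ (t j) + S.x₁ y + S.lam) = ∏ j, S.ϑ (S.x₁ (t j) + S.x₁ y + S.lam) := by
    rw [← Equiv.prod_comp e fun j => S.ϑ (S.x₁ (t j) + S.x₁ y + S.lam)]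
    simp only [ht.sw₁]
  have b2 : ∏ j, S.ϑ (S.x₂ (t j) - S.x₁ y) = ∏ j, S.ϑ (S.x₁ (t j) - S.x₁ y) := by
    rw [← Equiv.prod_comp e fun j => S.ϑ (S.x₁ (t j) - S.x₁ y)]
    simp only [ht.sw₁]
  simp only [Setup.WW, a1, a2, Finset.prod_mul_distrib, b1, b2]
  ring

lemma antiU (hF : S.FB G) (ht : S.Adm t e) {y : S.A} (hy : S.Anti y)
    (h2 : 2 * S.x₁ y ∉ S.L) (k : ℤ) :
    S.WW (S.fb G) t (y + k • (S.p + S.q)) = S.WW (S.fb G) t y := by
  refine Fb.int_ind (P := fun k => S.WW (S.fb G) t (y + k • (S.p + S.q)) = S.WW (S.fb G) t y)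
    (by simp) (fun k => ?_) k
  have := antiU1 hF ht (y := y + k • (S.p + S.q)) (by
    simp only [Setup.Anti, map_add, map_zsmul] at hy ⊢
    simp [hy]; ring) (fun h => h2 (by
      convert S.L.sub_mem h (S.L.zsmul_mem S.lam_mem (2 * k)) using 1
      simp; ring))
  rw [add_zsmul, one_zsmul, ← add_assoc, this]

lemma mult_neg (hT : S.TH) (m z : ℂ) : S.mult (-m) (-z) = S.mult m z := by
  have h : deriv S.ϑ (-m) = deriv S.ϑ m := by
    have h1 : (fun z => S.ϑ (-z)) = fun z => -S.ϑ z := funext hT.odd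
    have h2 := congrArg (fun f => deriv f m) h1
    simp only [deriv_comp_neg, deriv.fun_neg] at h2
    exact neg_injective h2
  simp [Setup.mult, h]

variable {ω : S.A} {Q : S.A → ℂ}

lemma QT (hQ : S.QD G ω Q) (hd : S.Diag ω) {x : S.A} (hx : S.Diag x) :
    Complex.exp (Q (x + S.p)) = Complex.exp (Q (x + S.q)) := by
  rw [hQ.shp, hQ.shq, show S.x₁ ω = S.x₂ ω from hd, show S.x₁ x = S.x₂ x from hx]

lemma fb_per (hQ : S.QD G ω Q) (hω : ω ∈ S.Ω) {x : S.A}
    (hx : S.Lat x → S.Diag x ∧ S.Diag ω) :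
    S.fb G (x + ω) = Complex.exp (Q (x + S.p)) * S.fb G x := by
  by_cases h : S.Lat x
  · obtain ⟨h1, h2⟩ := hx h
    have hr : S.red (x + ω) = S.red x + ω := by
      simp only [Setup.red, map_add, (S.mem_M.1 hω.1).2, (S.mem_M.1 hω.2).2, add_zero]
      abel
    obtain ⟨d1, d2⟩ := Fb.diag_red h1
    rw [Setup.fb, Setup.fb, if_pos h, if_pos (h.add (S.lat_Ω hω)), hr, add_right_comm, hQ.per,
      ← QT hQ h2 d1]
    congr 1
    have key : ∀ k : ℤ, Complex.exp (Q (S.red x + k • (S.p - S.q) + S.p)) =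
        Complex.exp (Q (S.red x + S.p)) := by
      refine Fb.int_ind (by simp) fun k => ?_
      have := QT hQ h2 (x := S.red x + (k + 1) • (S.p - S.q)) (by
        have h : S.x₂ (S.red x) = S.x₁ (S.red x) := d1.symm
        simp [Setup.Diag, h])
      rw [this, show S.red x + (k + 1) • (S.p - S.q) + S.q = S.red x + k • (S.p - S.q) + S.p by
        module]
    rw [← key ⌊S.a (S.x₁ x)⌋, ← d2]
  · rw [Setup.fb, Setup.fb, if_neg h, if_neg (by rwa [S.lat_add_iff (S.lat_Ω hω)]), add_right_comm,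
      hQ.per]

lemma per (hT : S.TH) (hQ : S.QD G ω Q) (hω : ω ∈ S.Ω) (hd : Even d)
    (hs : ∑ j, t j = 0) {y : S.A} (h1 : ∀ j, S.Lat (t j + y) → S.Diag (t j + y) ∧ S.Diag ω)
    (h2 : ∀ j, S.Lat (t j - (y + ω)) → S.Diag (t j - (y + ω)) ∧ S.Diag ω)
    (h3 : S.mult (S.x₁ ω) (S.x₁ y) = S.mult (S.x₂ ω) (S.x₂ y)) :
    S.WW (S.fb G) t (y + ω) = S.WW (S.fb G) t y := by
  obtain ⟨b, l, c, hb, hf⟩ := hQ.form
  have a1 : ∀ j, S.fb G (t j + (y + ω)) = Complex.exp (Q (t j + y + S.p)) * S.fb G (t j + y) :=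
    fun j => by rw [← add_assoc, fb_per hQ hω (h1 j)]
  have a2 : ∀ j, S.fb G (t j - y) =
      S.χ ω * Complex.exp (Q (y + S.q - t j)) * S.fb G (t j - (y + ω)) := fun j => by
    have := fb_per hQ hω (h2 j)
    rw [hQ.sym, show t j - (y + ω) + ω = t j - y by abel,
      show S.p + S.q - ω - (t j - (y + ω) + S.p) = y + S.q - t j by abel] at this
    exact this
  have a3 : ∑ j, Q (t j + y + S.p) = ∑ j, Q (y + S.q - t j) + d * (Q (y + S.p) - Q (y + S.q)) := by
    have e1 : ∀ j, Q (t j + y + S.p) = Q (y + S.q - t j) + (Q (y + S.p) - Q (y + S.q)) +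
        2 * (b (y + y + S.p + S.q) (t j) + l (t j)) := fun j => by
      simp only [hf, map_add, map_sub, AddMonoidHom.add_apply, AddMonoidHom.sub_apply,
        hb (t j) y, hb (t j) S.p, hb (t j) S.q]
      ring
    simp only [e1, Finset.sum_add_distrib, ← Finset.mul_sum, ← map_sum, hs]
    simp [mul_sub]
  have a4 : Complex.exp (d * (Q (y + S.p) - Q (y + S.q))) = 1 := by
    rw [Complex.exp_nat_mul, Complex.exp_sub, hQ.shp, hQ.shq, h3, div_self, one_pow]
    exact mul_ne_zero (hT.mult_ne _ hω.2 _) (Complex.exp_ne_zero _)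
  have a5 : S.χ ω ^ d = 1 := by
    obtain ⟨k, rfl⟩ := hd
    rw [pow_add, ← mul_pow, S.χ_sq, one_pow]
  simp only [Setup.WW, a1, a2, Finset.prod_mul_distrib, ← Complex.exp_sum, a3, Complex.exp_add, a4,
    Finset.prod_const, Finset.card_univ, Fintype.card_fin, a5]
  ring

lemma diag_lat (ht : S.Adm t e) {y : S.A} (hy : S.Diag y) (j : Fin d) (h : S.Lat (t j + y)) :
    S.Diag (t j + y) := by
  have h' := S.lat_iff.1 h
  simp only [Setup.Lat, Setup.Diag, map_add] at h h' hy ⊢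
  rcases ht.tw j with hd | hd
  · rw [show S.x₁ (t j) = S.x₂ (t j) from hd, hy]
  · exact (hd.1 (by convert S.L.sub_mem h h' using 1; rw [hy]; ring)).elim

end Iper

open Iper

theorem iper_thm (hqd : S_QD) : S_IPER := by
  intro S hT G hG hF d t e hd ht y y' hyy h
  have hm := S.sub_mem_M hyy
  set i := ⌊S.a (S.x₁ y - S.x₁ y')⌋
  set m := S.x₁ y - S.x₁ y' - i * S.lam with hmdef
  rcases h with ⟨hy, hy'⟩ | ⟨hy, hy', h2⟩
  · obtain ⟨hω, e1, e2⟩ := S.pt_mem_Ω hm hm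
    obtain ⟨Q, hQ⟩ := hqd S hT G hG _ hω
    have hdω : S.Diag (S.pt m m) := by rw [Setup.Diag, e1, e2]
    have hz : S.x₂ y = S.x₁ y := hy.symm
    have hz' : S.x₂ y' = S.x₁ y' := hy'.symm
    have hyeq : y = y' + S.pt m m + i • (S.p - S.q) :=
      S.ext (by simp [e1]; rw [hmdef]; ring) (by simp [e2, hz, hz']; rw [hmdef]; ring)
    have hd2 : S.Diag (y' + S.pt m m) := by simp [Setup.Diag, e1, e2, hz']
    rw [hyeq, diagT hF ht hd2]
    refine per hT hQ hω hd ht.sum (fun j h => ⟨diag_lat ht hy' j h, hdω⟩) (fun j h => ⟨?_, hdω⟩)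
      (by rw [e1, e2, hz'])
    rw [sub_eq_add_neg] at h ⊢
    refine diag_lat ht ?_ j h
    simp only [Setup.Diag, map_neg] at hd2 ⊢
    rw [hd2]
  · obtain ⟨hω, e1, e2⟩ := S.pt_mem_Ω hm (S.M.neg_mem hm)
    obtain ⟨Q, hQ⟩ := hqd S hT G hG _ hω
    have hz : S.x₂ y = -S.x₁ y := by rw [show S.x₁ y = -S.x₂ y from hy, neg_neg]
    have hz' : S.x₂ y' = -S.x₁ y' := by rw [show S.x₁ y' = -S.x₂ y' from hy', neg_neg]
    have hyeq : y = y' + S.pt m (-m) + i • (S.p + S.q) :=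
      S.ext (by simp [e1]; rw [hmdef]; ring) (by simp [e2, hz, hz']; rw [hmdef]; ring)
    have h2' : 2 * S.x₁ y' ∉ S.L := fun h => h2 (by
      convert S.L.add_mem h (S.L.add_mem hyy hyy) using 1; ring)
    have ha : S.Anti (y' + S.pt m (-m)) := by simp [Setup.Anti, e1, e2, hz', add_comm]
    have ha2 : 2 * S.x₁ (y' + S.pt m (-m)) ∉ S.L := fun h => h2' (by
      convert S.L.sub_mem h (S.L.add_mem hm.1 hm.1) using 1
      rw [map_add, e1]; ring)
    rw [hyeq, antiU hF ht ha ha2]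
    exact per hT hQ hω hd ht.sum (fun j h => (anti_nl ht hy' h2' j h).elim)
      (fun j h => (anti_nl' ht ha ha2 j h).elim) (by rw [e1, e2, hz', mult_neg hT])

end

end Pool.Agent.P.MP_29cb78_nt.E
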