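import Pool.Agent.P.MP_29cb78_nt.E.KIface

namespace Pool.Agent.P.MP_29cb78_nt.E

open Filter Topology MeasureTheory Set NumberField NumberField.InfinitePlace
open scoped Classical Real Matrix

namespace KCount

variable {k : Type} [Field k] [NumberField k]

theorem card_Kr (σ : k →+* ℂ) (J : Ideal (𝓞 k)) (hJ : J ≠ ⊥) (S : Setup) (hL : S.L = latt σ J)
    (η : 𝓞 k) (hη : σ η ≠ 0) : Nat.card (S.Kr (σ η)) = Ideal.absNorm (Ideal.span {η}) := by
  have hmem : ∀ z, z ∈ S.L ↔ ∃ j ∈ J, σ (j : k) = z := fun z => by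
    rw [hL]
    exact AddSubgroup.mem_map
  let φ : J.toAddSubgroup →+ ℂ ⧸ S.L :=
    { toFun := fun j => ((σ ((j : 𝓞 k) : k) / σ η : ℂ) : ℂ ⧸ S.L)
      map_zero' := by simp
      map_add' := fun a b => by
        rw [← QuotientAddGroup.mk_add, ← add_div, ← map_add]
        rfl }
  have hr : φ.range = S.Kr (σ η) := by
    ext g
    constructor
    · rintro ⟨j, rfl⟩
      refine ⟨σ ((j : 𝓞 k) : k) / σ η, ?_, rfl⟩
      change σ η * (σ ((j : 𝓞 k) : k) / σ η) ∈ S.L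
      rw [mul_div_cancel₀ _ hη]
      exact (hmem _).2 ⟨j, j.2, rfl⟩
    · rintro ⟨z, hz, rfl⟩
      obtain ⟨j, hj, e⟩ := (hmem _).1 (show σ η * z ∈ S.L from hz)
      refine ⟨⟨j, hj⟩, ?_⟩
      change ((σ (j : k) / σ η : ℂ) : ℂ ⧸ S.L) = (z : ℂ ⧸ S.L)
      rw [e, mul_div_cancel_left₀ _ hη]
  have hk : φ.ker = (Ideal.span {η} * J).toAddSubgroup.addSubgroupOf J.toAddSubgroup := by
    ext j
    rw [AddMonoidHom.mem_ker, AddSubgroup.mem_addSubgroupOf]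
    change ((σ ((j : 𝓞 k) : k) / σ η : ℂ) : ℂ ⧸ S.L) = 0 ↔ (j : 𝓞 k) ∈ Ideal.span {η} * J
    rw [QuotientAddGroup.eq_zero_iff, hmem, Ideal.mem_span_singleton_mul]
    refine exists_congr fun i => and_congr_right fun _ => ?_
    rw [eq_div_iff hη, ← map_mul, σ.injective.eq_iff, mul_comm]
    exact ⟨fun h => RingOfIntegers.ext h, fun h => congrArg (fun x : 𝓞 k => (x : k)) h⟩
  have h1 := AddSubgroup.index_ker φ
  rw [hr, hk] at h1
  have h2 := AddSubgroup.relIndex_mul_index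
    (show (Ideal.span {η} * J).toAddSubgroup ≤ J.toAddSubgroup from
      fun x hx => (Ideal.mul_le_right : Ideal.span {η} * J ≤ J) hx)
  rw [← Ideal.absNorm_eq_index, ← Ideal.absNorm_eq_index, map_mul] at h2
  rw [← h1]
  exact Nat.eq_of_mul_eq_mul_right
    (Nat.pos_of_ne_zero (mt Ideal.absNorm_eq_zero_iff.1 hJ)) h2

theorem absNorm_eq {ρ : k →+* ℝ} {σ : k →+* ℂ} (h : Emb ρ σ) (η : 𝓞 k) (hη : 0 < ρ η) :
    (Ideal.absNorm (Ideal.span {η}) : ℂ) = ρ η * (σ η * (starRingEnd ℂ) (σ η)) := by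
  have h1 : ((Ideal.absNorm (Ideal.span {η}) : ℕ) : ℝ) = ρ η * ‖σ η‖ ^ 2 := by
    rw [Ideal.absNorm_span_singleton, Nat.cast_natAbs, Int.cast_abs]
    have h2 : ((Algebra.norm ℤ η : ℤ) : ℝ) = ρ η * ‖σ η‖ ^ 2 := by
      rw [← h.norm, ← Algebra.coe_norm_int, Rat.cast_intCast]
    rw [h2, abs_of_nonneg (by positivity)]
  rw [Complex.mul_conj, Complex.normSq_eq_norm_sq]
  exact_mod_cast h1

end KCount

theorem k_count : K_COUNT := by
  intro k _ _ ρ σ h J u hJ hu S hL hε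
  have h1 := S.ε_sub_ne
  have h2 := S.ε_add_ne
  have h0 := S.ε_ne
  have e1 : σ ((u - 1 : 𝓞 k) : k) = S.ε - 1 := by rw [hε]; simp
  have e2 : σ ((u + 1 : 𝓞 k) : k) = S.ε + 1 := by rw [hε]; simp
  have r1 : ρ ((u - 1 : 𝓞 k) : k) = ρ (u : 𝓞 k) - 1 := by simp
  have r2 : ρ ((u + 1 : 𝓞 k) : k) = ρ (u : 𝓞 k) + 1 := by simp
  have c1 := KCount.card_Kr σ J hJ S hL (u - 1) (by rwa [e1])
  have c2 := KCount.card_Kr σ J hJ S hL (u + 1) (by rwa [e2])
  have n1 := KCount.absNorm_eq h (u - 1) (by rw [r1]; linarith)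
  have n2 := KCount.absNorm_eq h (u + 1) (by rw [r2]; linarith)
  have n0 := KCount.absNorm_eq h u (by linarith)
  rw [Ideal.span_singleton_eq_top.2 u.isUnit, Ideal.absNorm_top, ← hε] at n0
  rw [← c1, e1, r1] at n1
  rw [← c2, e2, r2] at n2
  unfold Setup.Count Setup.Gp Setup.Gm
  rw [n1, n2, map_sub, map_add, map_one]
  push_cast at n0 ⊢
  field_simp
  linear_combination (-2) * n0

end Pool.Agent.P.MP_29cb78_nt.E
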