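import Pool.Agent.P.MP_29cb78_nt.E.KIface

/-!
The error function and the sum over a row.
-/

namespace Pool.Agent.P.MP_29cb78_nt.E

open Filter Topology MeasureTheory Set
open scoped Classical Real

noncomputable section

namespace KErf

lemma cont : Continuous fun u : ℝ => Real.exp (-π * u ^ 2) := by fun_prop

lemma deriv_Er (y : ℝ) : HasDerivAt Er (Real.exp (-π * y ^ 2)) y :=
  (cont.integral_hasStrictDerivAt 0 y).hasDerivAt

lemma Er_neg (y : ℝ) : Er (-y) = -Er y := by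
  have h := intervalIntegral.integral_comp_neg (a := 0) (b := y)
    (fun u : ℝ => Real.exp (-π * u ^ 2))
  simp only [neg_sq, neg_zero] at h
  rw [Er, Er, h, intervalIntegral.integral_symm]

lemma Er_zero : Er 0 = 0 := by simp [Er]

lemma Er_mono : Monotone Er :=
  monotone_of_deriv_nonneg (fun y => (deriv_Er y).differentiableAt) fun y => by
    rw [(deriv_Er y).deriv]
    exact (Real.exp_pos _).le

lemma Er_lim : Tendsto Er atTop (𝓝 (1 / 2)) := by
  have h := intervalIntegral_tendsto_integral_Ioi (μ := volume) 0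
    (integrable_exp_neg_mul_sq Real.pi_pos).integrableOn tendsto_id
  rw [integral_gaussian_Ioi, div_self Real.pi_ne_zero, Real.sqrt_one] at h
  exact h

lemma Er_le (y : ℝ) : Er y ≤ 1 / 2 := Er_mono.ge_of_tendsto Er_lim y

lemma tail {y : ℝ} (hy : 0 ≤ y) : 1 / 2 - Er y ≤ Real.exp (-π * y ^ 2) / 2 := by
  refine le_of_tendsto (Er_lim.sub_const (Er y)) ?_
  filter_upwards [eventually_ge_atTop y] with b hb
  have h1 : Er b - Er y = ∫ u in y..b, Real.exp (-π * u ^ 2) :=
    intervalIntegral.integral_interval_sub_left (cont.intervalIntegrable _ _)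
      (cont.intervalIntegrable _ _)
  have h2 : ∫ u in y..b, Real.exp (-π * y ^ 2) * Real.exp (-π * (u - y) ^ 2) =
      Real.exp (-π * y ^ 2) * Er (b - y) := by
    rw [intervalIntegral.integral_const_mul,
      intervalIntegral.integral_comp_sub_right (fun u : ℝ => Real.exp (-π * u ^ 2)), sub_self, Er]
  have h3 : ∫ u in y..b, Real.exp (-π * u ^ 2) ≤
      ∫ u in y..b, Real.exp (-π * y ^ 2) * Real.exp (-π * (u - y) ^ 2) := by
    refine intervalIntegral.integral_mono_on hb (cont.intervalIntegrable _ _)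
      (Continuous.intervalIntegrable (by fun_prop) _ _) fun u hu => ?_
    rw [← Real.exp_add, Real.exp_le_exp]
    nlinarith [mul_nonneg Real.pi_pos.le (mul_nonneg hy (sub_nonneg.2 hu.1))]
  have h4 := mul_le_mul_of_nonneg_left (Er_le (b - y)) (Real.exp_pos (-π * y ^ 2)).le
  linarith

lemma hs_bound (y : ℝ) : |hs y - Er y| ≤ Real.exp (-π * y ^ 2) / 2 := by
  unfold hs
  split_ifs with h
  · rw [abs_of_nonneg (by linarith [Er_le y])]
    exact tail h.le
  · have h1 := tail (y := -y) (by linarith)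
    have h2 := Er_le (-y)
    rw [Er_neg] at h1 h2
    rw [neg_sq] at h1
    rw [abs_of_nonpos (by linarith)]
    linarith

lemma hs_mul {μ : ℝ} (hμ : 0 < μ) (y : ℝ) : hs (μ * y) = hs y := by
  simp only [hs, mul_pos_iff_of_pos_left hμ]

lemma summable_d (x θ : ℝ) : Summable fun n : ℤ => |hs (x + n - θ) - hs (x + n)| := by
  refine summable_of_hasFiniteSupport ((Set.finite_Icc ⌊-|θ| - x⌋ ⌈|θ| - x⌉).subset fun n hn => ?_)
  by_contra hc
  apply hn
  have h1 := le_abs_self θ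
  have h2 := neg_abs_le θ
  have h3 := abs_nonneg θ
  rw [Set.mem_Icc, not_and_or, not_le, not_le] at hc
  rcases hc with hc | hc
  · have : (n : ℝ) < -|θ| - x := lt_of_lt_of_le (by exact_mod_cast hc) (Int.floor_le _)
    simp only [hs]
    rw [if_neg (by linarith), if_neg (by linarith), sub_self, abs_zero]
  · have : |θ| - x < (n : ℝ) := lt_of_le_of_lt (Int.le_ceil _) (by exact_mod_cast hc)
    simp only [hs]
    rw [if_pos (by linarith), if_pos (by linarith), sub_self, abs_zero]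

lemma abs_le_d {μ : ℝ} (hμ : 0 < μ) (y θ : ℝ) : |hs (y - θ) - Er (μ * y)| ≤
    |hs (y - θ) - hs y| + Real.exp (-π * (μ * y) ^ 2) / 2 := by
  have h := hs_bound (μ * y)
  rw [hs_mul hμ] at h
  linarith [abs_sub_le (hs (y - θ)) (hs y) (Er (μ * y))]

lemma summable_f {μ : ℝ} (hμ : 0 < μ) (x θ : ℝ)
    (h : Summable fun n : ℤ => Real.exp (-π * (μ * (x + n)) ^ 2)) :
    Summable fun n : ℤ => |hs (x + n - θ) - Er (μ * (x + n))| :=
  Summable.of_nonneg_of_le (fun _ => abs_nonneg _) (fun _ => abs_le_d hμ _ _)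
    ((summable_d x θ).add (h.div_const 2))

lemma sum_zero {μ : ℝ} : ∑' j : ℤ, (hs (1 / 2 + j) - Er (μ * (1 / 2 + j))) = 0 := by
  have h := (Equiv.subLeft (-1 : ℤ)).tsum_eq
    fun j : ℤ => hs (1 / 2 + j) - Er (μ * (1 / 2 + j))
  have e : ∀ j : ℤ, hs (1 / 2 + ((Equiv.subLeft (-1 : ℤ)) j : ℤ)) -
      Er (μ * (1 / 2 + ((Equiv.subLeft (-1 : ℤ)) j : ℤ))) =
      -(hs (1 / 2 + j) - Er (μ * (1 / 2 + j))) := by
    intro j
    have e1 : (1 / 2 : ℝ) + ((Equiv.subLeft (-1 : ℤ)) j : ℤ) = -(1 / 2 + j) := by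
      simp only [Equiv.subLeft_apply]
      push_cast
      ring
    rw [e1, mul_neg, Er_neg]
    have e2 : hs (-(1 / 2 + j)) = -hs (1 / 2 + j) := by
      simp only [hs]
      rcases le_or_gt 0 j with hj | hj
      · have : (0 : ℝ) ≤ j := by exact_mod_cast hj
        rw [if_neg (by linarith), if_pos (by linarith)]
      · have : (j : ℝ) ≤ -1 := by exact_mod_cast Int.le_sub_one_of_lt hj
        rw [if_pos (by linarith), if_neg (by linarith), neg_neg]
    rw [e2]
    ring
  simp only [e, tsum_neg] at h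
  linarith

lemma key {μ E : ℝ} (hμ : 0 < μ) (θ : ℝ)
    (h : ∀ u : ℝ, (Summable fun n : ℤ => Real.exp (-π * (μ * (u + n)) ^ 2)) ∧
      |∑' n : ℤ, Real.exp (-π * (μ * (u + n)) ^ 2) - μ⁻¹| ≤ E)
    (hs : Summable fun j : ℤ => Er (μ * (θ + 1 / 2 + j)) - Er (μ * (1 / 2 + j))) :
    |∑' j : ℤ, (Er (μ * (θ + 1 / 2 + j)) - Er (μ * (1 / 2 + j))) - θ| ≤ μ * E * |θ| := by
  have ftc : ∀ j : ℤ, ∫ u in (0 : ℝ)..θ, μ * Real.exp (-π * (μ * (u + 1 / 2 + j)) ^ 2) =
      Er (μ * (θ + 1 / 2 + j)) - Er (μ * (1 / 2 + j)) := by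
    intro j
    have := intervalIntegral.integral_eq_sub_of_hasDerivAt (a := 0) (b := θ)
      (f := fun u => Er (μ * (u + 1 / 2 + j)))
      (f' := fun u => μ * Real.exp (-π * (μ * (u + 1 / 2 + j)) ^ 2)) (fun u _ => ?_)
      (Continuous.intervalIntegrable (by fun_prop) _ _)
    · rw [this, zero_add]
    · have h1 : HasDerivAt (fun u : ℝ => μ * (u + 1 / 2 + j)) μ u := by
        simpa using (((hasDerivAt_id u).add_const (1 / 2 : ℝ)).add_const (j : ℝ)).const_mul μ
      have h2 := (deriv_Er _).comp u h1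
      rw [mul_comm] at h2
      exact h2
  have lim := intervalIntegral.tendsto_integral_filter_of_dominated_convergence
    (μ := volume) (a := 0) (b := θ) (l := atTop)
    (F := fun (s : Finset ℤ) u => ∑ j ∈ s, μ * Real.exp (-π * (μ * (u + 1 / 2 + j)) ^ 2) - 1)
    (f := fun u => μ * ∑' j : ℤ, Real.exp (-π * (μ * (u + 1 / 2 + j)) ^ 2) - 1)
    (fun _ => μ * (μ⁻¹ + E) + 1)
    (Eventually.of_forall fun s => Continuous.aestronglyMeasurable (by fun_prop))
    (Eventually.of_forall fun s => Eventually.of_forall fun u _ => ?_)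
    intervalIntegrable_const (Eventually.of_forall fun u _ => ?_)
  · have e : ∀ s : Finset ℤ, ∫ u in (0 : ℝ)..θ,
        (∑ j ∈ s, μ * Real.exp (-π * (μ * (u + 1 / 2 + j)) ^ 2) - 1) =
        ∑ j ∈ s, (Er (μ * (θ + 1 / 2 + j)) - Er (μ * (1 / 2 + j))) - θ := by
      intro s
      rw [intervalIntegral.integral_sub (Continuous.intervalIntegrable (by fun_prop) _ _)
        intervalIntegrable_const, intervalIntegral.integral_finsetSum
        fun j _ => Continuous.intervalIntegrable (by fun_prop) _ _]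
      simp only [ftc]
      simp
    simp only [e] at lim
    rw [tendsto_nhds_unique (Tendsto.sub_const hs.hasSum θ) lim]
    have := intervalIntegral.norm_integral_le_of_norm_le_const (a := 0) (b := θ) (C := μ * E)
      (f := fun u => μ * ∑' j : ℤ, Real.exp (-π * (μ * (u + 1 / 2 + j)) ^ 2) - 1) fun u _ => ?_
    · simpa using this
    · rw [show μ * ∑' j : ℤ, Real.exp (-π * (μ * (u + 1 / 2 + j)) ^ 2) - 1 =
        μ * (∑' j : ℤ, Real.exp (-π * (μ * (u + 1 / 2 + j)) ^ 2) - μ⁻¹) by field_simp,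
        Real.norm_eq_abs, abs_mul, abs_of_pos hμ]
      exact mul_le_mul_of_nonneg_left (h _).2 hμ.le
  · rw [← Finset.mul_sum, Real.norm_eq_abs]
    have h1 := (h (u + 1 / 2)).1.sum_le_tsum s fun _ _ => (Real.exp_pos _).le
    have h2 := (abs_le.1 (h (u + 1 / 2)).2).2
    have h3 : 0 ≤ ∑ j ∈ s, Real.exp (-π * (μ * (u + 1 / 2 + j)) ^ 2) :=
      Finset.sum_nonneg fun _ _ => (Real.exp_pos _).le
    have h4 := mul_le_mul_of_nonneg_left (show ∑ j ∈ s,
      Real.exp (-π * (μ * (u + 1 / 2 + j)) ^ 2) ≤ μ⁻¹ + E by linarith) hμ.le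
    have h5 := mul_nonneg hμ.le h3
    rw [abs_le]
    constructor <;> linarith
  · simp only [← Finset.mul_sum]
    exact (Tendsto.const_mul μ (h (u + 1 / 2)).1.hasSum).sub_const 1

end KErf

open KErf in
theorem k_erf : K_ERF :=
  ⟨deriv_Er, Er_neg, hs_bound, fun y => abs_le.2 ⟨by linarith [Er_le (-y), Er_neg y], Er_le y⟩⟩

open KErf in
theorem k_row (_h1 : K_ERF) (h2 : K_ISO1) : K_ROW := by
  rintro x θ κ K hκ ⟨k, hk⟩
  obtain ⟨C, hC⟩ := h2 κ K hκ
  have hC0 : 0 ≤ C := by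
    simpa using (abs_nonneg _).trans (hC 1 ⟨one_pos, le_rfl⟩ 0).2
  set D := ∑' n : ℤ, |hs (x + n - θ) - hs (x + n)| with hD
  have hD0 : 0 ≤ D := tsum_nonneg fun _ => abs_nonneg _
  refine ⟨D + (κ⁻¹ + C) / 2 + κ * C * |θ|, fun t ht => ?_⟩
  have hμ : 0 < κ * t := mul_pos hκ ht.1
  have hκ' : 0 < κ⁻¹ := inv_pos.2 hκ
  have hpos : 0 ≤ κ * C * |θ| := by positivity
  have htK : t ^ K ≤ 1 := pow_le_one₀ ht.1.le ht.2
  have s1 := summable_f hμ x θ (hC t ht x).1
  refine ⟨s1.of_abs, ?_, ?_⟩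
  · have h3 := s1.tsum_le_tsum (fun _ => abs_le_d hμ _ _)
      ((summable_d x θ).add ((hC t ht x).1.div_const 2))
    rw [(summable_d x θ).tsum_add ((hC t ht x).1.div_const 2), tsum_div_const, ← hD] at h3
    have h4 := (abs_le.1 (hC t ht x).2).2
    refine h3.trans ?_
    rw [le_div_iff₀ ht.1]
    have h5 : (κ * t)⁻¹ * t = κ⁻¹ := by have := ht.1.ne'; field_simp
    have h6 : C * t ^ K * t ≤ C := by
      nlinarith [mul_nonneg hC0 (sub_nonneg.2 (mul_le_one₀ htK ht.1.le ht.2))]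
    have h7 := mul_le_mul_of_nonneg_right (show ∑' n : ℤ,
      Real.exp (-π * (κ * t * (x + n)) ^ 2) ≤ (κ * t)⁻¹ + C * t ^ K by linarith) ht.1.le
    nlinarith [mul_nonneg hD0 (sub_nonneg.2 ht.2)]
  · have r := (Equiv.addRight (k + 1)).tsum_eq
      fun n : ℤ => hs (x + n - θ) - Er (κ * t * (x + n))
    have e1 : ∀ j : ℤ, x + ((Equiv.addRight (k + 1)) j : ℤ) = θ + 1 / 2 + j := by
      intro j
      simp only [Equiv.coe_addRight]
      push_cast
      linarith
    have e2 : ∀ j : ℤ, θ + 1 / 2 + j - θ = 1 / 2 + j := fun j => by ring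
    simp only [e1, e2] at r
    have s2 := (summable_f hμ (θ + 1 / 2) θ (hC t ht _).1).of_abs
    have s3 := (summable_f hμ (1 / 2) 0 (hC t ht _).1).of_abs
    simp only [e2] at s2
    simp only [sub_zero] at s3
    have s4 : Summable fun j : ℤ => Er (κ * t * (θ + 1 / 2 + j)) - Er (κ * t * (1 / 2 + j)) := by
      simpa using s3.sub s2
    have h3 := key hμ θ (hC t ht) s4
    have h4 := s3.tsum_sub s2
    rw [sum_zero] at h4
    simp only [sub_sub_sub_cancel_left] at h4
    rw [← r, ← abs_neg, neg_add, ← sub_eq_add_neg, ← zero_sub, ← h4]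
    refine h3.trans ?_
    have h5 : 0 ≤ t ^ K := pow_nonneg ht.1.le K
    nlinarith [mul_nonneg (mul_nonneg hpos h5) (sub_nonneg.2 ht.2), mul_nonneg hD0 h5,
      mul_nonneg hκ'.le h5, mul_nonneg hC0 h5]

end

end Pool.Agent.P.MP_29cb78_nt.E
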