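import Pool.Agent.P.MP_29cb78_nt.E.KIface
import Pool.Agent.P.MP_29cb78_nt.E.Iface

/-!
The Stark invariants of complex cubic fields are algebraic.
-/

namespace Pool.Agent.P.MP_29cb78_nt.E

open Filter Topology Set NumberField NumberField.InfinitePlace
open scoped Classical Real

noncomputable section

namespace KFin

lemma alg_norm_sq {z : ℂ} (hz : IsAlgebraic ℚ z) : IsAlgebraic ℚ (‖z‖ ^ 2) := by
  have h1 : IsAlgebraic ℚ ((starRingEnd ℂ) z) :=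
    hz.algHom (starRingEnd ℂ).toRatAlgHom
  have h2 : IsAlgebraic ℚ (((‖z‖ ^ 2 : ℝ)) : ℂ) := by
    have : ((‖z‖ ^ 2 : ℝ) : ℂ) = z * (starRingEnd ℂ) z := by
      rw [Complex.mul_conj, Complex.normSq_eq_norm_sq]
    rw [this]
    exact hz.mul h1
  exact (isAlgebraic_algebraMap_iff (R := ℚ) (S := ℝ) (A := ℂ) Complex.ofReal_injective).1 h2

lemma alg_exp {x y : ℂ} (hx : IsAlgebraic ℚ x) (hy : IsAlgebraic ℚ y) (hx0 : x ≠ 0) (hy0 : y ≠ 0)
    {n : ℕ} (hn : n ≠ 0) :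
    IsAlgebraic ℚ (Real.exp ((Real.log (‖x‖ ^ 2) - Real.log (‖y‖ ^ 2)) / n)) := by
  have px : 0 < ‖x‖ ^ 2 := by positivity
  have py : 0 < ‖y‖ ^ 2 := by positivity
  refine IsAlgebraic.of_pow (Nat.pos_of_ne_zero hn) ?_
  have hn' : (n : ℝ) ≠ 0 := by exact_mod_cast hn
  rw [← Real.exp_nat_mul, mul_div_cancel₀ _ hn', Real.exp_sub, Real.exp_log px, Real.exp_log py,
    div_eq_mul_inv]
  exact (alg_norm_sq hx).mul (alg_norm_sq hy).inv

end KFin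

open KFin in
theorem k_fin (hGH : S_GH) (hALG : S_ALG) (hK : K_KLF) (hE : K_EMB) (hU : K_UNIT) (hP : K_PRE)
    (hM : K_MK) (hC : K_COUNT) (hcls : K_CLS) (hZ : K_ZETA)
    (k : Type) [Field k] [NumberField k] (h3 : Module.finrank ℚ k = 3)
    (hc : nrComplexPlaces k = 1) (f b : Ideal (𝓞 k)) (hf : f ≠ ⊥) (hf1 : f ≠ ⊤)
    (hbf : IsCoprime b f) :
    ∃ u : ℝ, 0 < u ∧ IsAlgebraic ℚ u ∧ Cont (rayZ f b) (Real.log u : ℝ) := by
  obtain ⟨ρ, σ, hemb⟩ := hE k h3 hc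
  have hb : b ≠ ⊥ := by
    rintro rfl
    apply hf1
    simpa using Ideal.isCoprime_iff_sup_eq.1 hbf
  obtain ⟨c, ν, hc0, hν1, hνc, hνn, hray, hdiv⟩ := hcls k ρ σ hemb f b hf hf1 hb hbf
  have h6 : Ideal.span {(6 : 𝓞 k)} * f ≠ ⊥ :=
    mul_ne_zero (by simp) hf
  obtain ⟨u, hu1, hu6⟩ := hU k ρ σ hemb _ h6
  obtain ⟨η, hη, hηu⟩ := Ideal.mem_span_singleton_mul.1 hu1
  have huf : (u : 𝓞 k) - 1 ∈ f := hηu ▸ f.mul_mem_left _ hη
  have hu1' : 1 < ρ (u : 𝓞 k) := by linarith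
  have hJ : f * c ≠ ⊥ := mul_ne_zero hf hc0
  obtain ⟨r, N, hr, hpre, hhalf, hnot⟩ := hP k ρ σ hemb (f * c) ν η u hJ hνn hηu.symm
    (Ideal.mul_mem_mul hη hνc) hu6
  obtain ⟨S, hSL, hSε, hR⟩ := hM _ _ _ _ _ _ hpre
  have hcount := hC k ρ σ hemb (f * c) u hJ hu1' S hSL hSε
  obtain ⟨G, hG⟩ := hGH S
  obtain ⟨n1, n2, hcont⟩ := hK S G _ r _ hG hR
  have a1 := hALG S hcount G hG (σ ν) (by rw [hSL, hSε]; exact hhalf) (by rw [hSL]; exact hnot)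
  have a2 := hALG S hcount G hG (-σ ν)
    (by
      rw [hSL, hSε]
      convert (latt σ (f * c)).neg_mem hhalf using 1
      ring)
    (by rw [hSL]; exact fun h => hnot (by simpa using (latt σ (f * c)).neg_mem h))
  obtain ⟨e, he, hz⟩ := hZ k ρ σ hemb f b c ν u r hc0 hν1 hνc huf hu1' hr hray hdiv
  have hn : 12 * S.N ^ 3 * e ≠ 0 := mul_ne_zero (mul_ne_zero (by norm_num) (pow_ne_zero _ S.N_ne)) he
  refine ⟨_, Real.exp_pos _, alg_exp a1 a2 n1 n2 hn, ?_⟩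
  have hcn : (Ideal.absNorm c : ℂ) ≠ 0 := by
    exact_mod_cast Ideal.absNorm_eq_zero_iff.not.2 hc0
  have hent : Differentiable ℂ fun s : ℂ => (Ideal.absNorm c : ℂ) ^ s / e :=
    (differentiable_id.const_cpow (Or.inl hcn)).div_const _
  refine (hcont.mul_entire hent).congr (fun s hs => ?_) ?_
  · rw [hz s hs, hSL]
  · rw [Real.log_exp, Complex.cpow_zero]
    have he' : (e : ℂ) ≠ 0 := by exact_mod_cast he
    have hN : (S.N : ℂ) ≠ 0 := by exact_mod_cast S.N_ne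
    push_cast
    field_simp

end

end Pool.Agent.P.MP_29cb78_nt.E
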