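import Pool.Agent.P.MP_29cb78_nt.E.KIface

/-!
Gaussian sums at large scales, integrability of series, and the integral over the units.
-/

namespace Pool.Agent.P.MP_29cb78_nt.E

open Filter Topology MeasureTheory Set
open scoped Classical Real Matrix

noncomputable section

namespace KGb

lemma summ (x : Fin 3 → ℝ) {a : ℝ} (ha : 0 < a) :
    Summable fun n : Z3 => Real.exp (-a * nrm x n) := by
  refine Summable.of_nonneg_of_le (fun n => (Real.exp_pos _).le) (fun n => ?_)
    ((Theta.summable_pi (ι := Fin 3) (half_pos ha)).mul_left (Real.exp (a * ∑ i, x i ^ 2)))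
  rw [← Real.exp_add]
  apply Real.exp_le_exp.2
  have h : (∑ i, (n i : ℝ) ^ 2) / 2 - ∑ i, x i ^ 2 ≤ nrm x n := by
    rw [nrm, Finset.sum_div, ← Finset.sum_sub_distrib]
    exact Finset.sum_le_sum fun i _ => by nlinarith [sq_nonneg (2 * x i + n i)]
  nlinarith

lemma exists_low (x : Fin 3 → ℝ) (hx : ∀ n, 0 < nrm x n) : ∃ μ : ℝ, 0 < μ ∧ ∀ n, μ ≤ nrm x n := by
  have h := (summ x one_pos).tendsto_cofinite_zero.eventually
    (gt_mem_nhds (Real.exp_pos (-nrm x 0 - 1)))
  rw [eventually_cofinite] at h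
  obtain ⟨m, -, hm⟩ := Set.exists_min_image _ (nrm x) h ⟨0, by
    simp only [mem_ofPred_eq, not_lt]
    exact Real.exp_le_exp.2 (by linarith)⟩
  have h0 := hm 0 (by
    simp only [mem_ofPred_eq, not_lt]
    exact Real.exp_le_exp.2 (by linarith))
  refine ⟨nrm x m, hx m, fun n => ?_⟩
  by_contra hn
  push Not at hn
  refine absurd (hm n ?_) (not_le.2 hn)
  simp only [mem_ofPred_eq, not_lt]
  exact Real.exp_le_exp.2 (by linarith)

lemma abs_mul_exp (y : ℝ) : |y| * Real.exp (-π * y ^ 2) ≤ Real.exp (-(π / 2) * y ^ 2) := by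
  have h1 : |y| ≤ Real.exp (π / 2 * y ^ 2) := by
    have h2 := Real.add_one_le_exp (π / 2 * y ^ 2)
    have h3 : y ^ 2 ≤ π / 2 * y ^ 2 := by nlinarith [Real.two_le_pi, sq_nonneg y]
    have h4 : |y| ≤ y ^ 2 + 1 := by
      rw [← sq_abs y]
      nlinarith [sq_nonneg (|y| - 1), abs_nonneg y]
    linarith
  calc |y| * Real.exp (-π * y ^ 2) ≤ Real.exp (π / 2 * y ^ 2) * Real.exp (-π * y ^ 2) := by
        gcongr
    _ = _ := by rw [← Real.exp_add]; congr 1; ring

end KGb

open KGb

theorem k_gb : K_GB := by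
  intro x hx c hc
  refine ⟨fun t ht => ?_, ?_⟩
  · simpa only [neg_mul] using summ x (a := c * t ^ 2) (by positivity)
  · obtain ⟨μ, hμ, h⟩ := exists_low x hx
    have hs := summ x (half_pos hc)
    refine ⟨∑' n : Z3, Real.exp (-(c / 2) * nrm x n), c * μ / 2, by positivity, fun t ht => ?_⟩
    rw [← tsum_mul_right]
    have h1 : Summable fun n : Z3 => Real.exp (-c * t ^ 2 * nrm x n) := by
      simpa only [neg_mul] using summ x (a := c * t ^ 2) (by positivity)
    refine h1.tsum_le_tsum (fun n => ?_) (hs.mul_right _)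
    rw [← Real.exp_add]
    apply Real.exp_le_exp.2
    have h2 : 1 ≤ t ^ 2 := one_le_pow₀ ht
    have h3 : nrm x n ≤ t ^ 2 * nrm x n := le_mul_of_one_le_left (hx n).le h2
    have h4 : μ * t ^ 2 ≤ t ^ 2 * nrm x n := by nlinarith [h n]
    nlinarith

theorem k_pkg (h1 : K_GB) : K_PKG := by
  intro x hx F c C₀ hc hF hb
  obtain ⟨hs, C, c', hc', hC⟩ := h1 x hx c hc
  have hC₀ : 0 ≤ C₀ :=
    nonneg_of_mul_nonneg_left ((abs_nonneg _).trans (hb 1 one_pos 0)) (Real.exp_pos _)
  have hsum : ∀ t : ℝ, 0 < t → Summable (F t) := fun t ht =>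
    Summable.of_norm_bounded ((hs t ht).mul_left C₀) fun n => hb t ht n
  refine ⟨hsum, fun ⟨C₁, hC₁⟩ => ?_⟩
  have hcont : Continuous fun r : ℝ => ∑' n, F (Real.exp r) n := by
    refine continuous_iff_continuousAt.2 fun r => ?_
    have h2 : ContinuousOn (fun r : ℝ => ∑' n, F (Real.exp r) n) (Ioi (r - 1)) := by
      refine continuousOn_tsum (fun n => ?_) ((hs _ (Real.exp_pos (r - 1))).mul_left C₀)
        fun n u hu => (hb _ (Real.exp_pos u) n).trans ?_
      · exact (hF n).comp Real.continuous_exp.continuousOn fun u _ => Real.exp_pos u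
      · refine mul_le_mul_of_nonneg_left (Real.exp_le_exp.2 ?_) hC₀
        have h3 : Real.exp (r - 1) ^ 2 ≤ Real.exp u ^ 2 :=
          pow_le_pow_left₀ (Real.exp_pos _).le (Real.exp_le_exp.2 (le_of_lt hu)) 2
        have h4 := mul_le_mul_of_nonneg_right h3 (mul_pos hc (hx n)).le
        nlinarith
    exact h2.continuousAt (Ioi_mem_nhds (by linarith))
  rw [← integrableOn_univ, ← Iic_union_Ioi (a := (0 : ℝ))]
  refine IntegrableOn.union ?_ ?_
  · refine Integrable.mono' ((integrableOn_exp_Iic 0).const_mul C₁)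
      hcont.aestronglyMeasurable ((ae_restrict_iff' measurableSet_Iic).2
        (Eventually.of_forall fun r hr => ?_))
    exact hC₁ _ ⟨Real.exp_pos r, Real.exp_le_one_iff.2 hr⟩
  · refine Integrable.mono' ((exp_neg_integrableOn_Ioi 0 hc').const_mul (C₀ * |C|))
      hcont.aestronglyMeasurable ((ae_restrict_iff' measurableSet_Ioi).2
        (Eventually.of_forall fun r hr => ?_))
    have hr' : (0 : ℝ) ≤ r := le_of_lt hr
    have h2 : 1 ≤ Real.exp r := Real.one_le_exp hr'
    have h3 : ‖∑' n, F (Real.exp r) n‖ ≤ ∑' n : Z3, C₀ * Real.exp (-c * Real.exp r ^ 2 * nrm x n) :=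
      tsum_of_norm_bounded ((hs _ (Real.exp_pos r)).mul_left C₀).hasSum
        fun n => hb _ (Real.exp_pos r) n
    rw [tsum_mul_left] at h3
    refine h3.trans ?_
    rw [mul_assoc]
    refine mul_le_mul_of_nonneg_left ((hC _ h2).trans ?_) hC₀
    have h4 : r ≤ Real.exp r ^ 2 := by nlinarith [Real.add_one_le_exp r]
    calc C * Real.exp (-c' * Real.exp r ^ 2) ≤ |C| * Real.exp (-c' * Real.exp r ^ 2) := by
          gcongr
          exact le_abs_self C
      _ ≤ |C| * Real.exp (-c' * r) := by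
          gcongr ?_ * Real.exp ?_
          nlinarith

theorem k_tf (h1 : K_ERF) (h2 : K_LOW) (h3 : K_GB) : K_TF := by
  intro D r
  obtain ⟨-, ⟨c₀, hc₀, hlow⟩, -⟩ := h2.1 _ _ _ _ D.frm
  have hx := h2.2.2 D.z D.x D.S_ne
  have hL : 0 < D.L := mul_pos (by norm_num) (Real.log_pos D.ρ_gt)
  have hs := (h3 D.x hx (π / 2 * c₀) (by positivity)).1 _ (Real.exp_pos r)
  have hcont : ∀ n, Continuous fun c : ℝ => term 1 D.L (D.R n) ‖D.S n‖ (r, c) := fun n => by
    unfold term
    fun_prop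
  have hb : ∀ n, ∀ c ∈ Ioc (0 : ℝ) 1, ‖term 1 D.L (D.R n) ‖D.S n‖ (r, c)‖ ≤
      Real.exp (-(π / 2 * c₀) * Real.exp r ^ 2 * nrm D.x n) := by
    intro n c hc
    have e1 : 1 ≤ Real.exp (c * D.L) := Real.one_le_exp (mul_pos hc.1 hL).le
    have e2 : (Real.exp r * D.R n) ^ 2 ≤ (Real.exp (r + c * D.L) * D.R n) ^ 2 := by
      rw [Real.exp_add, mul_right_comm, mul_pow _ (Real.exp (c * D.L))]
      exact le_mul_of_one_le_right (sq_nonneg _) (one_le_pow₀ e1)
    have e3 := mul_le_mul_of_nonneg_left (hlow D.x n) (sq_nonneg (Real.exp r))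
    have e4 : 0 ≤ Real.exp r ^ 2 * ‖D.S n‖ ^ 2 := by positivity
    simp only [term, pow_one, Real.norm_eq_abs, abs_mul _ (Real.exp _), Real.abs_exp]
    refine (mul_le_mul_of_nonneg_right (abs_mul_exp _) (Real.exp_pos _).le).trans ?_
    rw [← Real.exp_add]
    apply Real.exp_le_exp.2
    change _ ≤ Real.exp r ^ 2 * (D.R n ^ 2 + ‖D.S n‖ ^ 2) at e3
    have e5 : c₀ * Real.exp r ^ 2 * nrm D.x n ≤
        (Real.exp (r + c * D.L) * D.R n) ^ 2 + 2 * (Real.exp r ^ 2 * ‖D.S n‖ ^ 2) := by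
      nlinarith
    nlinarith [Real.pi_pos]
  have hint : ∀ n, Integrable (fun c : ℝ => term 1 D.L (D.R n) ‖D.S n‖ (r, c))
      (volume.restrict (Ioc 0 1)) := fun n => (hcont n).integrableOn_Ioc
  have hsn : Summable fun n => ∫ c in Ioc (0 : ℝ) 1, ‖term 1 D.L (D.R n) ‖D.S n‖ (r, c)‖ := by
    refine Summable.of_nonneg_of_le (fun n => integral_nonneg fun _ => norm_nonneg _)
      (fun n => ?_) hs
    have := setIntegral_mono_on (hint n).norm (integrableOn_const (by simp)) measurableSet_Ioc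
      (hb n)
    simpa using this
  unfold Dat.Th Dat.T
  rw [← integral_tsum_of_summable_integral_norm hint hsn, ← tsum_mul_left]
  refine tsum_congr fun n => ?_
  rw [← integral_const_mul, ← intervalIntegral.integral_of_le zero_le_one]
  have hd : ∀ c ∈ uIcc (0 : ℝ) 1, HasDerivAt
      (fun c => Er (Real.exp (r + c * D.L) * D.R n) * D.g (Real.exp r) n)
      (D.L * term 1 D.L (D.R n) ‖D.S n‖ (r, c)) c := by
    intro c _
    have d1 : HasDerivAt (fun c => Real.exp (r + c * D.L) * D.R n)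
        (Real.exp (r + c * D.L) * (1 * D.L) * D.R n) c :=
      (((hasDerivAt_id c).mul_const D.L).const_add r).exp.mul_const _
    have d2 := ((h1.1 _).comp c d1).mul_const (D.g (Real.exp r) n)
    refine d2.congr_deriv ?_
    simp only [term, Dat.g]
    ring
  rw [intervalIntegral.integral_eq_sub_of_hasDerivAt hd
    ((continuous_const.mul (hcont n)).intervalIntegrable _ _)]
  simp only [one_mul, zero_mul, add_zero, Real.exp_add]
  rw [mul_comm (Real.exp r) (Real.exp D.L)]
  ring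

end

end Pool.Agent.P.MP_29cb78_nt.E
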