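import Pool.Agent.P.MP_29cb78_nt.E.KIface

/-!
The cone of the double product and its zero modes.
-/

namespace Pool.Agent.P.MP_29cb78_nt.E

open Filter Topology Set
open scoped Real

namespace KHc

lemma geo {a b : ℝ} (ha : 0 < a) (hb : 0 < b) :
    HasSum (fun p : ℕ × ℕ => Real.exp (-(p.1 * a + p.2 * b)))
      ((1 - Real.exp (-a))⁻¹ * (1 - Real.exp (-b))⁻¹) := by
  have h : ∀ {a : ℝ}, 0 < a → HasSum (fun n : ℕ => Real.exp (-a) ^ n) (1 - Real.exp (-a))⁻¹ :=
    fun ha => hasSum_geometric_of_lt_one (Real.exp_pos _).le 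
      (Real.exp_lt_one_iff.2 (neg_neg_of_pos ha))
  have := (h ha).mul (h hb) ((h ha).summable.mul_of_nonneg (h hb).summable
    (fun _ => by positivity) fun _ => by positivity)
  refine this.congr_fun fun p => ?_
  rw [← Real.exp_nat_mul, ← Real.exp_nat_mul, ← Real.exp_add]
  congr 1
  ring

lemma inv_le {c m : ℝ} (hc : 0 < c) (hm : m ∈ Ioc (0 : ℝ) 1) :
    (1 - Real.exp (-(m * c)))⁻¹ ≤ (1 + c) / c / m := by
  have h0 := hm.1
  have h1 : Real.exp (-(m * c)) ≤ (m * c + 1)⁻¹ := by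
    rw [Real.exp_neg]
    exact inv_anti₀ (by positivity) (Real.add_one_le_exp _)
  calc (1 - Real.exp (-(m * c)))⁻¹ ≤ (m * c / (m * c + 1))⁻¹ := by
        refine inv_anti₀ (by positivity) (le_trans (le_of_eq ?_) (sub_le_sub_left h1 1))
        field_simp
        ring
    _ = (1 + m * c) / c / m := by field_simp; ring
    _ ≤ _ := by
      gcongr
      exact mul_le_of_le_one_left hc.le hm.2

end KHc

open KHc in
theorem k_ss : K_SS := by
  intro S
  refine ⟨⟨(1 + 2 * π * S.h S.p) / (2 * π * S.h S.p) * ((1 + 2 * π * S.h S.q) / (2 * π * S.h S.q)),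
    fun m hm k => ?_⟩, fun m k k' h => tsum_congr fun p => if_congr ?_ rfl rfl⟩
  · have hp : 0 < 2 * π * S.h S.p := by have := S.h_p_pos; positivity
    have hq : 0 < 2 * π * S.h S.q := by have := S.h_q_pos; positivity
    have h0 := hm.1
    have g := geo (mul_pos h0 hp) (mul_pos h0 hq)
    rw [← Real.norm_eq_abs]
    refine (tsum_of_norm_bounded g fun p => ?_).trans ?_
    · split_ifs
      · rw [Real.norm_of_nonneg (Real.exp_pos _).le]
        refine le_of_eq (congrArg _ ?_)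
        ring
      · simpa using (Real.exp_pos _).le
    · refine (mul_le_mul (inv_le hp hm) (inv_le hq hm) (inv_nonneg.2 (sub_nonneg.2
        (Real.exp_le_one_iff.2 (neg_nonpos.2 (by positivity))))) (by positivity)).trans_eq ?_
      ring
  · rw [show k + p.1 * S.ν S.p + p.2 = k - k' + (k' + p.1 * S.ν S.p + p.2) by ring]
    exact dvd_add_right h

open KHc in
theorem k_hc (h1 : K_CONE) : K_HC := by
  classical
  intro S x hx
  have hs : (S.s : ℤ) ≠ 0 := by exact_mod_cast S.s_pos.ne'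
  let ι := {p : ℕ × ℕ // (S.s : ℤ) ∣ S.ν x + p.1 * S.ν S.p + p.2}
  let z : ι → ℂ := fun p => S.w (x + p.1.1 • S.p + p.1.2 • S.q)
  let φ : ι → ℤ × ℤ := fun p => (p.1.1, (S.ν x + p.1.1 * S.ν S.p + p.1.2) / S.s)
  have hν : ∀ p : ℕ × ℕ, S.ν (x + p.1 • S.p + p.2 • S.q) = S.ν x + p.1 * S.ν S.p + p.2 :=
    fun p => by simp
  have hφ : ∀ p, S.s * (φ p).2 = S.ν x + p.1.1 * S.ν S.p + p.1.2 :=
    fun p => Int.mul_ediv_cancel' p.2
  have zl : ∀ p, z p = S.ln (S.x₁ x) (φ p) / S.γ := fun p => by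
    have := S.s_mul_τq
    simp only [z, S.w_def, hν, ← hφ, Setup.ln, add_div, mul_div_assoc, ← this]
    simp [φ, add_div, mul_div_assoc]
    ring
  have zi : ∀ p, (z p).im = S.h x + (p.1.1 * S.h S.p + p.1.2 * S.h S.q) := fun p => by
    simp [z, S.h_def, add_assoc]
  have inj : Function.Injective φ := fun p p' h => by
    have a := hφ p
    have b : (p.1.1 : ℤ) = p'.1.1 := congrArg Prod.fst h
    rw [h, hφ, b] at a
    exact Subtype.ext (Prod.ext (by omega) (by omega))
  have rg : ∀ m, Function.support (S.hc m x) ⊆ range φ := fun m p hp => by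
    obtain ⟨a, b⟩ : 0 ≤ p.1 ∧ S.ν x + p.1 * S.ν S.p ≤ S.s * p.2 := by
      by_contra h
      exact hp (if_neg h)
    obtain ⟨i, hi⟩ := Int.eq_ofNat_of_zero_le a
    obtain ⟨k, hk⟩ := Int.eq_ofNat_of_zero_le (sub_nonneg.2 b)
    have e : S.ν x + i * S.ν S.p + k = S.s * p.2 := by rw [← hk, hi]; ring
    exact ⟨⟨(i, k), e ▸ dvd_mul_right _ _⟩, Prod.ext hi.symm (by
      simp only [φ, e, Int.mul_ediv_cancel_left _ hs])⟩
  have ev : ∀ m p, S.hc m x (φ p) = JJ m (z p) := fun m p => by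
    rw [Setup.hc, if_pos ⟨Int.natCast_nonneg _, by rw [hφ]; exact le_add_of_nonneg_right (by simp)⟩,
      zl]
  obtain ⟨c1, c2, -, c4⟩ := h1 ι z (fun c hc => by
    have := ((geo (mul_pos hc S.h_p_pos) (mul_pos hc S.h_q_pos)).summable.mul_left
      (Real.exp (-(c * S.h x)))).subtype {p : ℕ × ℕ | (S.s : ℤ) ∣ S.ν x + p.1 * S.ν S.p + p.2}
    refine this.congr fun p => ?_
    rw [zi, Function.comp, ← Real.exp_add]
    congr 1
    ring) fun p => by
      rw [zl]
      refine hx _ ((S.mem_L _).2 ⟨(φ p).1, 0, (φ p).2, ?_⟩)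
      simp [Setup.ln, add_assoc]
  have den : ∏' p, (1 - ee (z p)) = S.Den x := by
    rw [Setup.Den, ← (Subtype.val_injective (p := fun p : ℕ × ℕ =>
      (S.s : ℤ) ∣ S.ν x + p.1 * S.ν S.p + p.2)).tprod_eq fun p hp => ?_]
    · exact tprod_congr fun p => by rw [Setup.Ex, hν, if_pos p.2]
    · by_contra h
      exact hp (by simp only [Setup.Ex, hν]; rw [if_neg (by simpa using h), sub_zero])
  rw [den] at c2 c4
  refine ⟨fun m hm => (inj.summable_iff fun p hp => ?_).1 ((c1 m hm).congr fun p => (ev m p).symm),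
    c2.congr fun m => ?_, c4⟩
  · by_contra h
    exact hp (rg m h)
  · rw [← inj.tsum_eq (rg m), Setup.SS, ← (Subtype.val_injective (p := fun p : ℕ × ℕ =>
      (S.s : ℤ) ∣ S.ν x + p.1 * S.ν S.p + p.2)).tsum_eq fun p hp => ?_, ← tsum_mul_left]
    · simp only [ev]
      congr 1
      refine tsum_congr fun p => ?_
      rw [if_pos p.2, zi, zm, zm, mul_add, neg_add, Real.exp_add]
      ring
    · by_contra h
      exact hp (if_neg (by simpa using h))

end Pool.Agent.P.MP_29cb78_nt.E
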