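import Pool.Agent.P.MP_29cb78_nt.E.KIface

/-! The limit of the extrapolated line sums. -/

namespace Pool.Agent.P.MP_29cb78_nt.E

open Filter Topology Set
open scoped Classical Real

noncomputable section

namespace KK7

/-- Negligible families. -/
def Neg (N : ℕ) (F : ℝ → ℤ → ℝ) : Prop := Tendsto (fun m => Fn N (F m)) (𝓝[>] 0) (𝓝 0)

theorem Fn_add (N : ℕ) (f g : ℤ → ℝ) : Fn N (fun t => f t + g t) = Fn N f + Fn N g := by
  simp only [Fn, ← Finset.sum_add_distrib]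
  exact Finset.sum_congr rfl fun j _ => by ring

theorem Fn_sub (N : ℕ) (f g : ℤ → ℝ) : Fn N (fun t => f t - g t) = Fn N f - Fn N g := by
  simp only [Fn, ← Finset.sum_sub_distrib]
  exact Finset.sum_congr rfl fun j _ => by ring

variable {N : ℕ} {F F' : ℝ → ℤ → ℝ}

theorem Neg.add (h : Neg N F) (h' : Neg N F') : Neg N fun m t => F m t + F' m t := by
  simpa only [Neg, Fn_add, add_zero] using Tendsto.add h h'

theorem Neg.sub (h : Neg N F) (h' : Neg N F') : Neg N fun m t => F m t - F' m t := by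
  simpa only [Neg, Fn_sub, sub_zero] using Tendsto.sub h h'

theorem Neg.congr (h : Neg N F) (e : ∀ m t, F' m t = F m t) : Neg N F' := by
  rwa [show F' = F from funext₂ e]

theorem neg_pt (Q : ℤ → Prop) (q1 : ∀ j, Q (tt N j)) (q2 : ∀ j, Q (-tt N j))
    (h : ∀ t, Q t → Tendsto (fun m => F m t) (𝓝[>] 0) (𝓝 0)) : Neg N F := by
  have := tendsto_finsetSum Finset.univ fun j _ =>
    ((h _ (q1 j)).sub (h _ (q2 j))).const_mul (cc N j : ℝ)
  simp only [sub_zero, mul_zero, Finset.sum_const_zero] at this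
  exact this

theorem neg_poly (h1 : K_NEG) (c₀ c₁ c₂ c₃ : ℝ) :
    Neg N fun _ t => c₀ + c₁ * t + c₂ * t ^ 2 + c₃ * t ^ 3 := by
  simp only [Neg, (h1.1 N).2.2.1]
  exact tendsto_const_nhds

theorem neg_zm (h1 : K_NEG) {s : ℝ → ℝ} {C : ℝ} (hs : ∀ m ∈ Ioc (0 : ℝ) 1, |s m| ≤ C / m ^ 2)
    (a b : ℝ) : Neg N fun m t => s m * zm m (a * t + b) := by
  refine Neg.congr (F := fun m t => s m / m * Real.exp (m * (-(2 * π * a) * t + -(2 * π * b))))
    ((h1.1 N).2.2.2 _ _ C _ fun m hm => ?_) fun m t => ?_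
  · rw [abs_div, abs_of_pos hm.1, pow_succ, ← div_div]
    exact div_le_div_of_nonneg_right (hs m hm) hm.1.le
  · rw [zm, show -(2 * π * m * (a * t + b)) = m * (-(2 * π * a) * t + -(2 * π * b)) by ring]
    ring

theorem bnd (h1 : K_NEG) {c c' : ℝ} (hc : c ≠ 0) (hc' : c' ≠ 0) : ∃ C : ℝ, ∀ m ∈ Ioc (0 : ℝ) 1,
    |(1 - Real.exp (m * c))⁻¹ * (1 - Real.exp (m * c'))⁻¹| ≤ C / m ^ 2 := by
  obtain ⟨C, hC⟩ := h1.2 c hc
  obtain ⟨C', hC'⟩ := h1.2 c' hc'
  refine ⟨C * C', fun m hm => ?_⟩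
  rw [abs_mul, sq, ← div_mul_div_comm]
  exact mul_le_mul (hC m hm).2 (hC' m hm).2 (abs_nonneg _) ((abs_nonneg _).trans (hC m hm).2)

theorem neg_phi (h1 : K_NEG) (S : Setup) (hl : (S.lam / S.γ).im ≠ 0) (a b : ℝ) (c e : ℤ) :
    Neg N fun m t => S.Phi m (a * t + b) (c * t + e) := by
  have hπ := Real.pi_ne_zero
  have hτ := S.βγ_pos.ne'
  set l := (S.lam / S.γ).im with hl'
  set τ := (S.β / S.γ).im with hτ'
  obtain ⟨C, hC⟩ := bnd h1 (c := -(2 * π * τ)) (c' := -(2 * π * l)) (by simp [hπ, hτ])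
    (by simp [hπ, hl])
  obtain ⟨C', hC'⟩ := bnd h1 (c := -(2 * π * τ)) (c' := 2 * π * l) (by simp [hπ, hτ])
    (by simp [hπ, hl])
  refine Neg.congr ((((neg_zm h1 hC a b).sub (neg_zm h1 hC (a + c * l) (b + e * l))).add
    ((neg_zm h1 hC' (-a) (τ - b)).sub (neg_zm h1 hC' (-a - c * l) (τ - b - e * l)))).add
    (neg_poly h1 (2 * π * (e * b + e * (e - 1) / 2 * l))
      (2 * π * (c * b + e * a + c * (2 * e - 1) / 2 * l)) (2 * π * (c * a + c ^ 2 / 2 * l)) 0))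
    fun m t => ?_
  rw [Setup.Phi, ← hl', ← hτ']
  push_cast
  rw [show a * t + b + (c * t + e) * l = (a + c * l) * t + (b + e * l) by ring,
    show τ - (a * t + b) - (c * t + e) * l = (-a - c * l) * t + (τ - b - e * l) by ring,
    show τ - (a * t + b) = -a * t + (τ - b) by ring,
    show -(2 * π * m * τ) = m * -(2 * π * τ) by ring,
    show -(2 * π * m * l) = m * -(2 * π * l) by ring,
    show 2 * π * m * l = m * (2 * π * l) by ring]
  ring

theorem neg_ss (h1 : K_NEG) (h2 : K_SS) (S : Setup) (x y : S.A) (hy : S.n y = 0) :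
    Neg N fun m t => zm m (S.h (x + t • y)) * S.SS m (S.ν (x + t • y)) := by
  obtain ⟨⟨C, hC⟩, h3⟩ := h2 S
  refine Neg.congr (neg_zm h1 (s := fun m => S.SS m (S.ν x)) (fun m hm => hC m hm _) (S.h y)
    (S.h x)) fun m t => ?_
  have h4 : (S.s : ℤ) ∣ S.ν y := (S.dvd_iff y).2 (by simp [hy])
  rw [h3 m (S.ν (x + t • y)) (S.ν x) (by simpa using h4.mul_left t), map_add, map_zsmul,
    zsmul_eq_mul, mul_comm, add_comm, mul_comm (t : ℝ)]

theorem off_add {S : Setup} {ζ ζ' : ℂ} (h : S.Off ζ) (e : ζ' - ζ ∈ S.L) : S.Off ζ' :=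
  fun b hb => h b (by simpa using S.L.add_mem hb e)

theorem off_neg {S : Setup} {ζ : ℂ} (h : S.Off ζ) : S.Off (-ζ) := fun b hb => by
  have := h (-b) (by
    have h1 := S.L.neg_mem hb
    rwa [show -(b - -ζ) = -b - ζ by ring] at h1)
  rwa [neg_div, Complex.neg_im, neg_ne_zero] at this

theorem ne_zero {S : Setup} {G : S.A → ℂ} (hG : S.GH G) {x : S.A} (h : S.Off (S.x₁ x)) :
    G x ≠ 0 := by
  have h1 : ¬ S.Lat x := fun hx => h 0 (by simpa [Setup.Lat] using hx) (by simp)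
  exact hG.ne_zero (fun hp => h1 (S.pole_iff.1 hp).1) fun hp => h1 (S.zero_iff.1 hp).1

theorem log_prod (g : Fin 4 → ℂ) (c : Fin 4 → ℤ) (hg : ∀ j, g j ≠ 0) :
    Real.log (‖∏ j, g j ^ c j‖ ^ 2) = ∑ j, (c j : ℝ) * Real.log (‖g j‖ ^ 2) := by
  rw [Real.log_pow, norm_prod, Real.log_prod fun j _ => norm_ne_zero_iff.2 (zpow_ne_zero _ (hg j)),
    Finset.mul_sum]
  refine Finset.sum_congr rfl fun j _ => ?_
  rw [norm_zpow, Real.log_zpow, Real.log_pow]
  ring

end KK7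

open KK7 in
theorem k_k7 (h1 : K_NEG) (h2 : K_SS) (h3 : K_GAMS) (h4 : K_STEP) : K_K7 := by
  intro S G hG hl v hv hoff
  have hv' : v - S.ε * v ∈ S.L := by
    have := S.L.neg_mem hv
    rwa [show -((S.ε - 1) * v) = v - S.ε * v by ring] at this
  set d := S.pt v v with hd
  have d1 : S.x₁ d = v := S.x₁_pt hv'
  have d2 : S.x₂ d = v := S.x₂_pt hv'
  have hpt : ∀ t : ℤ, S.pt (t * v) (t * v) = t • d := fun t => by
    have := S.pt_self (t • d)
    rwa [map_zsmul, map_zsmul, d1, d2, zsmul_eq_mul] at this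
  have hN : (S.N : ℂ) * v ∈ S.L := S.N_mul v (by
    have := S.L.add_mem (S.mul_mem hv) hv
    rwa [show S.ε * ((S.ε - 1) * v) + (S.ε - 1) * v = (S.ε ^ 2 - 1) * v by ring] at this)
  have o1 : ∀ j, S.Off ((tt S.N j : ℤ) * v) := fun j => off_add hoff (by
    have := S.L.nsmul_mem hN j
    rw [nsmul_eq_mul] at this
    rw [tt]
    push_cast
    rwa [show (1 + (j : ℕ) * (S.N : ℂ)) * v - v = (j : ℕ) * (S.N * v) by ring])
  have o2 : ∀ j, S.Off ((-tt S.N j : ℤ) * v) := fun j => by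
    have := off_neg (o1 j)
    rwa [← neg_mul, ← Int.cast_neg] at this
  have o3 : ∀ t : ℤ, S.Off (t * v) → ∀ k : ℤ, S.Off (S.x₁ (t • d + k • S.p)) := fun t ht k =>
    off_add ht (by simpa [d1] using S.L.zsmul_mem S.lam_mem k)
  have g1 : ∀ t : ℤ, S.Off (t * v) → G (t • d + S.p) ≠ 0 := fun t ht =>
    ne_zero hG (by simpa only [one_smul] using o3 t ht 1)
  have a1 : S.al G v = ∏ j, G (tt S.N j • d + S.p) ^ cc S.N j := by
    simp only [Setup.al, hpt]
  have a2 : S.al G (-v) = ∏ j, G ((-tt S.N j) • d + S.p) ^ cc S.N j := by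
    simp only [Setup.al, ← hpt, Int.cast_neg, mul_neg, neg_mul]
  refine ⟨a1 ▸ Finset.prod_ne_zero_iff.2 fun j _ => zpow_ne_zero _ (g1 _ (o1 j)),
    a2 ▸ Finset.prod_ne_zero_iff.2 fun j _ => zpow_ne_zero _ (g1 _ (o2 j)), ?_⟩
  obtain ⟨nc, P, hP, hGP⟩ := hG.struct
  set y := d - S.n d • S.p with hy
  have hy0 : S.n y = 0 := by simp [hy]
  have key : ∀ t : ℤ, S.Off (t * v) → Tendsto (fun m => S.DD G m (t • d + S.p) +
      S.Phi m (S.x₁ (nc • S.p + t • y) / S.γ).im (S.n d * t + (1 - nc)) -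
      (zm m (S.h (nc • S.p + t • y)) * S.SS m (S.ν (nc • S.p + t • y)) -
        zm m (S.h (S.p + S.q - (nc • S.p + t • y))) *
          S.SS m (S.ν (S.p + S.q - (nc • S.p + t • y)))) +
      2 * (P (nc • S.p + t • y)).re) (𝓝[>] 0) (𝓝 0) := fun t ht => by
    have e1 : nc • S.p + t • y = t • d + (nc - t * S.n d) • S.p := by
      rw [hy]; module
    have e2 : nc • S.p + t • y + (S.n d * t + (1 - nc)) • S.p = t • d + S.p := by
      rw [hy]; module
    have ho : S.Off (S.x₁ (nc • S.p + t • y)) := e1 ▸ o3 t ht _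
    have s1 := h4 S G hG hl _ ho (S.n d * t + (1 - nc))
    obtain ⟨-, s2, s3⟩ := h3 S _ ho
    rw [e2] at s1
    have s4 : Real.log (‖G (nc • S.p + t • y)‖ ^ 2) =
        Real.log (‖S.Gam (nc • S.p + t • y)‖ ^ 2) + 2 * (P (nc • S.p + t • y)).re := by
      rw [hGP _ (by simp [hy0]), norm_mul, Complex.norm_exp, Real.log_pow, Real.log_pow,
        Real.log_mul (norm_ne_zero_iff.2 s3) (Real.exp_ne_zero _), Real.log_exp]
      push_cast
      ring
    have s5 := s1.add (s2.sub_const (Real.log (‖S.Gam (nc • S.p + t • y)‖ ^ 2)))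
    rw [sub_self, add_zero] at s5
    refine s5.congr fun m => ?_
    rw [Setup.DD, Setup.DD, s4]
    ring
  obtain ⟨c₀, c₁, c₂, c₃, hc⟩ := hP (nc • S.p) y
  have n1 : Neg S.N fun m t => S.DD G m (t • d + S.p) := by
    refine Neg.congr ((((neg_pt (fun t => S.Off (t * v)) o1 o2 key).sub
      (neg_phi h1 S hl (S.x₁ y / S.γ).im (S.x₁ (nc • S.p) / S.γ).im (S.n d) (1 - nc))).add
      ((neg_ss h1 h2 S (nc • S.p) y hy0).sub
        (neg_ss h1 h2 S (S.p + S.q - nc • S.p) (-y) (by simp [hy0])))).sub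
      (neg_poly h1 (2 * c₀.re) (2 * c₁.re) (2 * c₂.re) (2 * c₃.re))) fun m t => ?_
    have e1 : (S.x₁ (nc • S.p + t • y) / S.γ).im =
        (S.x₁ y / S.γ).im * t + (S.x₁ (nc • S.p) / S.γ).im := by
      rw [map_add, map_zsmul S.x₁ t, zsmul_eq_mul, add_div, mul_div_assoc, Complex.add_im,
        ← Complex.ofReal_intCast, Complex.im_ofReal_mul]
      ring
    have e2 : S.p + S.q - nc • S.p + t • -y = S.p + S.q - (nc • S.p + t • y) := by module
    have e3 : (P (nc • S.p + t • y)).re = c₀.re + c₁.re * t + c₂.re * t ^ 2 + c₃.re * t ^ 3 := by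
      rw [hc, ← Complex.ofReal_intCast, ← Complex.ofReal_pow, ← Complex.ofReal_pow]
      simp only [Complex.add_re, Complex.re_mul_ofReal]
    rw [e1, e2, e3]
    ring
  have n2 := Tendsto.add_const (Fn S.N fun t => Real.log (‖G (t • d + S.p)‖ ^ 2)) n1
  rw [zero_add] at n2
  rw [a1, a2, log_prod _ _ fun j => g1 _ (o1 j), log_prod _ _ fun j => g1 _ (o2 j),
    ← Finset.sum_sub_distrib]
  simp only [← mul_sub, hpt]
  refine Tendsto.congr (fun m => ?_) n2
  rw [← Fn_add]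
  simp only [Setup.DD, sub_add_cancel]

end

end Pool.Agent.P.MP_29cb78_nt.E
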