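import Pool.Agent.P.MP_29cb78_nt.E.KIface

/-!
The integral of a theta series as a limit of line sums.
-/

namespace Pool.Agent.P.MP_29cb78_nt.E

open Filter Topology MeasureTheory Set
open scoped Classical Real

noncomputable section

namespace KLim

/-- The theta series of a line. -/
def Θ (z : ℂ) (r : ℝ) : ℝ := ∑' k : ℤ, Real.exp (-π * Real.exp r ^ 2 * ‖z + k‖ ^ 2)

/-- The cut-off. -/
def φ (m r : ℝ) : ℝ := Real.exp (-π * m ^ 2 / Real.exp r ^ 2)

theorem Θ_nonneg (z : ℂ) (r : ℝ) : 0 ≤ Θ z r := tsum_nonneg fun _ => (Real.exp_pos _).le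

theorem φ_pos (m r : ℝ) : 0 < φ m r := Real.exp_pos _

theorem φ_le (m r : ℝ) : φ m r ≤ 1 := by
  rw [φ, Real.exp_le_one_iff, neg_mul, neg_div, neg_nonpos]
  positivity

theorem JJ_eq (m : ℝ) (z : ℂ) : JJ m z = 2 * ∫ r : ℝ, Θ z r * φ m r := rfl

/-- Lines and points of the lines. -/
def e3 : (ℤ × ℤ) × ℤ ≃ Z3 where
  toFun q := ![q.1.1, q.2, q.1.2]
  invFun n := ((n 0, n 2), n 1)
  left_inv _ := rfl
  right_inv n := by
    funext i
    fin_cases i <;> rfl

theorem S_eq (D : Dat) (h : D.z 1 ≠ 0) (q : (ℤ × ℤ) × ℤ) :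
    D.S (e3 q) = D.z 1 * (D.S ![q.1.1, 0, q.1.2] / D.z 1 + q.2) := by
  rw [mul_add, mul_div_cancel₀ _ h, show e3 q = ![q.1.1, q.2, q.1.2] from rfl]
  simp only [Dat.S, lc, Fin.sum_univ_three, Matrix.cons_val_zero,
    Matrix.cons_val_one, Matrix.cons_val]
  push_cast
  ring

theorem tw_eq (D : Dat) (W : Z3 → ℝ) (hW : ∀ n, W n = W ![n 0, 0, n 2]) (h : D.z 1 ≠ 0)
    (hs : ∀ t : ℝ, 0 < t → Summable fun n => W n * D.g t n) (r : ℝ) :
    D.tw W (Real.exp (r - Real.log ‖D.z 1‖)) =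
      ∑' p : ℤ × ℤ, W ![p.1, 0, p.2] * Θ (D.S ![p.1, 0, p.2] / D.z 1) r := by
  have hz : 0 < ‖D.z 1‖ := norm_pos_iff.2 h
  have h1 := (e3.summable_iff (f := fun n => W n * D.g (Real.exp (r - Real.log ‖D.z 1‖)) n)).2
    (hs _ (Real.exp_pos _))
  rw [Dat.tw, ← e3.tsum_eq]
  refine (h1.tsum_prod).trans (tsum_congr fun p => ?_)
  rw [Θ, ← tsum_mul_left]
  refine tsum_congr fun k => ?_
  simp only [Function.comp]
  rw [hW, Dat.g, S_eq D h, norm_mul, Real.exp_sub, Real.exp_log hz]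
  congr 2
  field_simp

theorem sum_eq (h1 : K_LINE) (D : Dat) (W : Z3 → ℝ) (hW : ∀ n, W n = W ![n 0, 0, n 2])
    (him : ∀ n, (D.S n / D.z 1).im ≠ 0) (h : D.z 1 ≠ 0)
    (hs : ∀ t : ℝ, 0 < t → Summable fun n => W n * D.g t n) {m : ℝ} (hm : 0 < m)
    (hJ : Summable fun p : ℤ × ℤ => W ![p.1, 0, p.2] * JJ m (D.S ![p.1, 0, p.2] / D.z 1)) :
    ∑' p : ℤ × ℤ, W ![p.1, 0, p.2] * JJ m (D.S ![p.1, 0, p.2] / D.z 1) =
      2 * ∫ r : ℝ, D.tw W (Real.exp (r - Real.log ‖D.z 1‖)) * φ m r := by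
  have key := integral_tsum_of_summable_integral_norm (μ := (volume : Measure ℝ))
    (F := fun (p : ℤ × ℤ) (r : ℝ) =>
      W ![p.1, 0, p.2] * (Θ (D.S ![p.1, 0, p.2] / D.z 1) r * φ m r))
    (fun p => ((h1 _ (him _)).1 m hm).1.const_mul _) ((hJ.abs.div_const 2).congr fun p => by
      have e : ∀ r, ‖W ![p.1, 0, p.2] * (Θ (D.S ![p.1, 0, p.2] / D.z 1) r * φ m r)‖ =
          |W ![p.1, 0, p.2]| * (Θ (D.S ![p.1, 0, p.2] / D.z 1) r * φ m r) := fun r => by
        rw [Real.norm_eq_abs, abs_mul,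
          abs_of_nonneg (mul_nonneg (Θ_nonneg _ _) (φ_pos _ _).le)]
      simp only [e]
      rw [integral_const_mul, JJ_eq, abs_mul, abs_mul, abs_two,
        abs_of_nonneg (integral_nonneg fun r => mul_nonneg (Θ_nonneg _ _) (φ_pos _ _).le)]
      ring)
  simp only [tw_eq D W hW h hs, ← tsum_mul_right, mul_assoc]
  rw [← key, ← tsum_mul_left]
  refine tsum_congr fun p => ?_
  rw [integral_const_mul, JJ_eq]
  ring

theorem lim {f : ℝ → ℝ} (hf : Integrable f) :
    Tendsto (fun m => ∫ r : ℝ, f r * φ m r) (𝓝[>] 0) (𝓝 (∫ r, f r)) := by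
  refine tendsto_integral_filter_of_dominated_convergence (fun r => ‖f r‖)
    (Eventually.of_forall fun m => hf.aestronglyMeasurable.mul
      (Continuous.aestronglyMeasurable ?_))
    (Eventually.of_forall fun m => Eventually.of_forall fun r => ?_) hf.norm
    (Eventually.of_forall fun r => ?_)
  · unfold φ
    exact Real.continuous_exp.comp (continuous_const.div (by fun_prop) fun r => by positivity)
  · rw [norm_mul, Real.norm_of_nonneg (φ_pos _ _).le]
    exact mul_le_of_le_one_right (norm_nonneg _) (φ_le _ _)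
  · have c : Continuous fun m => f r * φ m r := by
      unfold φ
      fun_prop
    have := (c.tendsto 0).mono_left (nhdsWithin_le_nhds (s := Ioi 0))
    simpa [φ] using this

end KLim

open KLim in
theorem k_lim (h1 : K_LINE) : K_LIM := by
  intro D W hW him hs hi hJ
  have h : D.z 1 ≠ 0 := fun h => him 0 (by rw [h, div_zero, Complex.zero_im])
  have hi' := hi.comp_sub_right (Real.log ‖D.z 1‖)
  have := (lim hi').const_mul 2
  rw [integral_sub_right_eq_self (fun r => D.tw W (Real.exp r))] at this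
  refine this.congr' ?_
  filter_upwards [self_mem_nhdsWithin] with m hm
  exact (sum_eq h1 D W hW him h hs hm (hJ m hm)).symm

end

end Pool.Agent.P.MP_29cb78_nt.E
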