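import Pool.Agent.P.MP_29cb78_nt.E.KIface
import Pool.Agent.P.MP_29cb78_nt.C.KlfbAux

/-! The regularised sum over one line. -/

namespace Pool.Agent.P.MP_29cb78_nt.E

open Filter Topology MeasureTheory Set HurwitzZeta
open scoped Real

noncomputable section

namespace KLine

lemma integrable_tsum {F : ℕ → ℝ → ℝ} (hI : ∀ i, Integrable (F i))
    (hS : Summable fun i => ∫ x, ‖F i x‖) : Integrable fun x => ∑' i, F i x := by
  refine ⟨AEStronglyMeasurable.tsum fun i => (hI i).1, ?_⟩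
  have h1 : ∫⁻ x, ‖∑' i, F i x‖ₑ ≤ ∑' i, ∫⁻ x, ‖F i x‖ₑ := by
    rw [← lintegral_tsum fun i => (hI i).1.enorm]
    exact lintegral_mono fun x => enorm_tsum_le_tsum_enorm
  refine lt_of_le_of_lt h1 (lt_top_iff_ne_top.2 ?_)
  have h2 (i : ℕ) : ∫⁻ x, ‖F i x‖ₑ = ‖∫ x, ‖F i x‖‖ₑ := by
    rw [← ofReal_integral_norm_eq_lintegral_enorm (hI i), Real.enorm_eq_ofReal]
    exact integral_nonneg fun _ => norm_nonneg _
  rw [funext h2]
  exact ENNReal.tsum_coe_ne_top_iff_summable.2 <| NNReal.summable_coe.1 hS.abs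

/-- The kernel. -/
def G (p q r : ℝ) : ℝ :=
  (Real.exp r)⁻¹ * Real.exp (-π * Real.exp r ^ 2 * p ^ 2 - π * q ^ 2 / Real.exp r ^ 2)

lemma G_int {p q : ℝ} (hp : 0 < p) (hq : 0 < q) :
    2 * ∫ r, G p q r = Real.exp (-(2 * π * p * q)) / q := by
  have e : (fun r => Real.exp r ^ 2) '' univ = Ioi 0 := by
    refine Subset.antisymm (by rintro _ ⟨r, -, rfl⟩; exact pow_pos (Real.exp_pos r) 2)
      fun t ht => ⟨Real.log t / 2, trivial, ?_⟩
    simp only
    rw [← Real.exp_nat_mul, Nat.cast_ofNat, mul_div_cancel₀ _ two_ne_zero, Real.exp_log ht]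
  rw [← C.Klfb.bessel hp hq, ← e, integral_image_eq_integral_abs_deriv_smul
    (f' := fun r => 2 * Real.exp r ^ 2) MeasurableSet.univ (fun r _ =>
      (((Real.hasDerivAt_exp r).fun_pow 2).congr_deriv (by simp; ring)).hasDerivWithinAt)
      fun a _ b _ h => Real.exp_injective
        ((pow_left_inj₀ (Real.exp_pos a).le (Real.exp_pos b).le two_ne_zero).1 h),
    Measure.restrict_univ, ← integral_const_mul]
  refine integral_congr_ae (Eventually.of_forall fun r => ?_)
  have := Real.exp_pos r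
  simp only [G, smul_eq_mul]
  rw [abs_of_pos (by positivity), Real.rpow_neg (by positivity), ← Real.sqrt_eq_rpow,
    Real.sqrt_sq this.le]
  field_simp

lemma G_integrable {p q : ℝ} (hp : 0 < p) (hq : 0 < q) : Integrable (G p q) :=
  Integrable.of_integral_ne_zero fun h => by
    have := G_int hp hq
    rw [h, mul_zero] at this
    exact (div_pos (Real.exp_pos _) hq).ne this

/-- The frequencies. -/
def qq (m : ℝ) (n : ℕ) : ℝ := √((n + 1) ^ 2 + m ^ 2)

lemma le_qq (m : ℝ) (n : ℕ) : (n : ℝ) + 1 ≤ qq m n :=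
  Real.le_sqrt_of_sq_le (by nlinarith [sq_nonneg m])

lemma qq_pos (m : ℝ) (n : ℕ) : 0 < qq m n := lt_of_lt_of_le (by positivity) (le_qq m n)

lemma four (z : ℂ) (m r : ℝ) :
    HasSum (fun n : ℕ => 2 * Real.cos (2 * π * z.re * (n + 1)) * G z.im (qq m n) r)
      ((∑' k : ℤ, Real.exp (-π * Real.exp r ^ 2 * ‖z + k‖ ^ 2)) *
        Real.exp (-π * m ^ 2 / Real.exp r ^ 2) - G z.im m r) := by
  have h0 := Real.exp_pos r
  have ht : 0 < Real.exp r ^ 2 := by positivity
  have h1 := (hasSum_int_evenKernel z.re ht).mul_left (Real.exp (-π * Real.exp r ^ 2 * z.im ^ 2))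
  rw [evenKernel_functional_equation, ← Real.sqrt_eq_rpow, Real.sqrt_sq h0.le] at h1
  have h2 := (hasSum_nat_cosKernel₀ z.re (one_div_pos.2 ht)).mul_left (G z.im m r)
  rw [(h1.congr_fun (g := fun k : ℤ => Real.exp (-π * Real.exp r ^ 2 * ‖z + k‖ ^ 2))
    fun k => by
      rw [← Real.exp_add, Complex.sq_norm, Complex.normSq_apply]
      congr 1
      simp
      ring).tsum_eq]
  have e : ∀ q, G z.im q r = (Real.exp r)⁻¹ * Real.exp (-π * Real.exp r ^ 2 * z.im ^ 2) *
      Real.exp (-π * q ^ 2 / Real.exp r ^ 2) := fun q => by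
    rw [G, mul_assoc _ (Real.exp _), ← Real.exp_add]
    congr 2
    ring
  rw [show ∀ a b c : ℝ, a * (1 / Real.exp r * b) * c = (Real.exp r)⁻¹ * a * c * b from
    fun a b c => by ring, ← e, ← mul_sub_one]
  refine h2.congr_fun fun n => ?_
  rw [e, e, qq, Real.sq_sqrt (by positivity), mul_add (-π), add_div, Real.exp_add, mul_one_div]
  ring

/-- The terms of the expansion. -/
def cc (z : ℂ) (m : ℝ) (n : ℕ) : ℝ :=
  2 * Real.cos (2 * π * z.re * (n + 1)) * (Real.exp (-(2 * π * z.im * qq m n)) / qq m n)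

lemma bd {y : ℝ} (hy : 0 < y) (m : ℝ) (n : ℕ) : Real.exp (-(2 * π * y * qq m n)) / qq m n ≤
    Real.exp (-(2 * π * y)) ^ (n + 1) / (n + 1) := by
  have h := le_qq m n
  refine div_le_div₀ (by positivity) ?_ (by positivity) h
  rw [← Real.exp_nat_mul, Real.exp_le_exp]
  push_cast
  nlinarith [mul_pos Real.pi_pos hy]

lemma two_cos (t : ℝ) : |2 * Real.cos t| ≤ 2 := by
  rw [abs_mul, abs_two]
  linarith [Real.abs_cos_le_one t]

lemma cc_le {z : ℂ} (hy : 0 < z.im) (m : ℝ) (n : ℕ) :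
    ‖cc z m n‖ ≤ 2 * (Real.exp (-(2 * π * z.im)) ^ (n + 1) / (n + 1)) := by
  have := qq_pos m n
  rw [cc, Real.norm_eq_abs, abs_mul, abs_of_pos (div_pos (Real.exp_pos _) this)]
  exact mul_le_mul (two_cos _) (bd hy m n) (by positivity) (by positivity)

lemma geo {y : ℝ} (hy : 0 < y) :
    HasSum (fun n : ℕ => 2 * (Real.exp (-(2 * π * y)) ^ (n + 1) / (n + 1)))
      (-2 * Real.log (1 - Real.exp (-(2 * π * y)))) := by
  have := (Real.hasSum_pow_div_log_of_abs_lt_one (x := Real.exp (-(2 * π * y))) (by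
    rw [Real.abs_exp, Real.exp_lt_one_iff]
    linarith [mul_pos Real.pi_pos hy])).mul_left 2
  rwa [mul_neg, ← neg_mul 2 (Real.log _)] at this

lemma expand {z : ℂ} (hy : 0 < z.im) {m : ℝ} (hm : 0 < m) :
    (Integrable fun r : ℝ => (∑' k : ℤ, Real.exp (-π * Real.exp r ^ 2 * ‖z + k‖ ^ 2)) *
      Real.exp (-π * m ^ 2 / Real.exp r ^ 2)) ∧ HasSum (cc z m) (JJ m z - zm m z.im) := by
  have hI : ∀ n : ℕ, Integrable fun r =>
      2 * Real.cos (2 * π * z.re * (n + 1)) * G z.im (qq m n) r :=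
    fun n => (G_integrable hy (qq_pos m n)).const_mul _
  have hS : Summable fun n : ℕ =>
      ∫ r, ‖2 * Real.cos (2 * π * z.re * (n + 1)) * G z.im (qq m n) r‖ := by
    refine Summable.of_nonneg_of_le (fun n => integral_nonneg fun _ => norm_nonneg _)
      (fun n => ?_) (geo hy).summable
    have a1 := G_int hy (qq_pos m n)
    have a2 := bd hy m n
    rw [← integral_const_mul] at a1
    refine (integral_mono (hI n).norm ((G_integrable hy (qq_pos m n)).const_mul 2)
      fun r => ?_).trans (a1.le.trans (a2.trans (le_mul_of_one_le_left (by positivity) one_le_two)))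
    have : 0 < G z.im (qq m n) r := by unfold G; positivity
    simp only
    rw [norm_mul, Real.norm_of_nonneg this.le]
    exact mul_le_mul_of_nonneg_right (two_cos _) this.le
  have h1 := integrable_tsum hI hS
  have h2 := (hasSum_integral_of_summable_integral_norm hI hS).mul_left 2
  simp only [(four z m _).tsum_eq] at h1 h2
  have h3 := h1.add (G_integrable hy hm)
  have h4 : Integrable fun r : ℝ => (∑' k : ℤ, Real.exp (-π * Real.exp r ^ 2 * ‖z + k‖ ^ 2)) *
      Real.exp (-π * m ^ 2 / Real.exp r ^ 2) :=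
    h3.congr (Eventually.of_forall fun r => sub_add_cancel _ _)
  refine ⟨h4, ?_⟩
  rw [integral_sub h4 (G_integrable hy hm), mul_sub, G_int hy hm, mul_right_comm (2 * π)] at h2
  refine h2.congr_fun fun n => ?_
  rw [integral_const_mul, cc, ← G_int hy (qq_pos m n)]
  ring

lemma norm_ee (x : ℂ) : ‖ee x‖ = Real.exp (-(2 * π * x.im)) := by
  simp [ee, Complex.norm_exp]

lemma norm_lt {z : ℂ} (hy : 0 < z.im) : ‖ee z‖ < 1 := by
  rw [norm_ee, Real.exp_lt_one_iff]
  linarith [mul_pos Real.pi_pos hy]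

lemma at_zero {z : ℂ} (hy : 0 < z.im) : HasSum (cc z 0) (-Real.log (‖1 - ee z‖ ^ 2)) := by
  have h := (Complex.hasSum_re ((hasSum_nat_add_iff' 1).2
    (Complex.hasSum_taylorSeries_neg_log (norm_lt hy)))).mul_left 2
  rw [show -Real.log (‖1 - ee z‖ ^ 2) = 2 * (-Complex.log (1 - ee z) -
    ∑ i ∈ Finset.range 1, ee z ^ i / i).re by simp [Complex.log_re]]
  refine h.congr_fun fun n => ?_
  have e : qq 0 n = n + 1 := by
    rw [qq, zero_pow two_ne_zero, add_zero, Real.sqrt_sq (by positivity)]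
  rw [cc, e, Complex.div_natCast_re, ee, ← Complex.exp_nat_mul, Complex.exp_re]
  simp
  ring_nf

lemma lim {z : ℂ} (hy : 0 < z.im) :
    Tendsto (fun m => JJ m z - zm m z.im) (𝓝[>] 0) (𝓝 (-Real.log (‖1 - ee z‖ ^ 2))) := by
  rw [← (at_zero hy).tsum_eq]
  refine (tendsto_tsum_of_dominated_convergence (f := cc z) (geo hy).summable (fun n => ?_)
    (Eventually.of_forall (cc_le hy))).congr' ?_
  · have c1 : Continuous fun m => qq m n := by unfold qq; fun_prop
    have c2 : Continuous fun m => cc z m n :=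
      continuous_const.mul (Continuous.div (by fun_prop) c1 fun m => (qq_pos m n).ne')
    exact (c2.tendsto 0).mono_left nhdsWithin_le_nhds
  · filter_upwards [self_mem_nhdsWithin] with m hm using (expand hy hm).2.tsum_eq

lemma sum_neg (t : ℝ) (z : ℂ) :
    ∑' k : ℤ, Real.exp (t * ‖-z + k‖ ^ 2) = ∑' k : ℤ, Real.exp (t * ‖z + k‖ ^ 2) := by
  rw [← (Equiv.neg ℤ).tsum_eq]
  simp only [Equiv.neg_apply, Int.cast_neg, ← neg_add, norm_neg]

end KLine

open KLine

theorem k_jsym : K_JSYM := fun m z => by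
  refine ⟨mul_nonneg zero_le_two (integral_nonneg fun r => mul_nonneg
    (tsum_nonneg fun _ => (Real.exp_pos _).le) (Real.exp_pos _).le), by simp only [JJ, sum_neg],
    fun k => ?_⟩
  simp only [JJ]
  congr 2
  funext r
  rw [← (Equiv.addLeft k).tsum_eq fun j : ℤ => Real.exp (-π * Real.exp r ^ 2 * ‖z + j‖ ^ 2)]
  simp only [Equiv.coe_addLeft, Int.cast_add, add_assoc]

theorem k_line : K_LINE := fun z hz => by
  rcases hz.lt_or_gt with hy | hy
  swap
  · rw [abs_of_pos hy]
    exact ⟨fun m hm => ⟨(expand hy hm).1,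
      (expand hy hm).2.norm_le_of_bounded (geo hy) (cc_le hy m)⟩, lim hy⟩
  have hy' : 0 < (-z).im := by simpa using hy
  rw [abs_of_neg hy, ← Complex.neg_im]
  refine ⟨fun m hm => ⟨by simpa only [sum_neg] using (expand hy' hm).1, ?_⟩, ?_⟩
  · rw [← (k_jsym m z).2.1]
    exact (expand hy' hm).2.norm_le_of_bounded (geo hy') (cc_le hy' m)
  have d : ∀ y : ℝ, HasDerivAt (fun m : ℝ => Real.exp (-(2 * π * m * y))) (-(2 * π * y)) 0 :=
    fun y => by
      simpa using ((((hasDerivAt_id (0 : ℝ)).const_mul (2 * π)).mul_const y).neg).exp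
  have h1 := ((d (-z).im).sub (d z.im)).tendsto_slope_zero_right
  convert (lim hy').add h1 using 2
  · rw [(k_jsym _ z).2.1]
    simp [zm]
    ring
  · have e : 1 - ee z = -ee z * (1 - ee (-z)) := by
      have : ee z * ee (-z) = 1 := by rw [ee, ee, ← Complex.exp_add]; simp
      linear_combination -this
    have n : 1 - ee (-z) ≠ 0 := fun h => (norm_lt hy').ne (by rw [← sub_eq_zero.1 h, norm_one])
    rw [e, norm_mul, norm_neg, norm_ee, mul_pow, Real.log_mul (by positivity) (by positivity),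
      Real.log_pow (Real.exp _), Real.log_exp, Complex.neg_im]
    push_cast
    ring

end

end Pool.Agent.P.MP_29cb78_nt.E
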