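import Pool.Agent.P.MP_29cb78_nt.E.KIface

/-!
Lower bounds for the forms on a lattice of rank three and Gaussian domination.
-/

namespace Pool.Agent.P.MP_29cb78_nt.E

open Filter Topology MeasureTheory Set NumberField
open scoped Classical Real Matrix

namespace KLow

lemma det_ne {r : Fin 3 → ℝ} {z : Fin 3 → ℂ} {α : ℝ} {w : ℂ} (h : Frm r z α w) :
    det3 r z ≠ 0 := by
  intro h0
  obtain ⟨y, hy, hB⟩ := Matrix.exists_mulVec_eq_zero_iff.mpr h0
  have e0 := congrFun hB 0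
  have e1 := congrFun hB 1
  have e2 := congrFun hB 2
  simp [Matrix.mulVec, dotProduct, Fin.sum_univ_three] at e0 e1 e2
  have f0 := h.form 0
  have f1 := h.form 1
  have f2 := h.form 2
  simp [Complex.mul_re] at f0 f1 f2
  have hy0 : y 0 = 0 := by
    linear_combination α * e0 + w.re * e1 - w.im * e2 - y 0 * f0 - y 1 * f1 - y 2 * f2
  have hΔ : (z 2).im * (z 1).re - (z 2).re * (z 1).im ≠ 0 := by
    intro hz
    apply h.im_ne
    rw [Complex.div_im, ← sub_div, hz, zero_div]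
  rw [hy0] at e1 e2
  have hy1 : y 1 = 0 := by
    apply mul_left_cancel₀ hΔ
    linear_combination (z 2).im * e1 - (z 2).re * e2
  have hy2 : y 2 = 0 := by
    apply mul_left_cancel₀ hΔ
    linear_combination (z 1).re * e2 - (z 1).im * e1
  apply hy
  funext i
  fin_cases i
  · exact hy0
  · exact hy1
  · exact hy2

lemma lc_re (z : Fin 3 → ℂ) (x : Fin 3 → ℝ) (n : Z3) :
    (lc z x n).re = ∑ i, (z i).re * (x i + n i) := by
  simp [lc, Fin.sum_univ_three]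

lemma lc_im (z : Fin 3 → ℂ) (x : Fin 3 → ℝ) (n : Z3) :
    (lc z x n).im = ∑ i, (z i).im * (x i + n i) := by
  simp [lc, Fin.sum_univ_three]

lemma low {r : Fin 3 → ℝ} {z : Fin 3 → ℂ} (h : det3 r z ≠ 0) :
    ∃ c : ℝ, 0 < c ∧ ∀ x n, c * nrm x n ≤ lr r x n ^ 2 + ‖lc z x n‖ ^ 2 := by
  obtain ⟨c, hc, hl⟩ := Theta.lower _ h
  refine ⟨c, hc, fun x n => ?_⟩
  have := hl fun i => x i + n i
  rw [Complex.sq_norm, Complex.normSq_apply, lc_re, lc_im]
  simp only [nrm, lr]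
  refine this.trans (le_of_eq ?_)
  simp [Matrix.mulVec, dotProduct, Fin.sum_univ_three]
  ring

lemma form {r : Fin 3 → ℝ} {z : Fin 3 → ℂ} {α : ℝ} {w : ℂ} (h : Frm r z α w) (x : Fin 3 → ℝ)
    (n : Z3) : α * lr r x n + (w * lc z x n).re = x 0 + n 0 := by
  have f0 := h.form 0
  have f1 := h.form 1
  have f2 := h.form 2
  simp [Complex.mul_re] at f0 f1 f2
  rw [Complex.mul_re, lc_re, lc_im]
  simp only [lr, Fin.sum_univ_three]
  linear_combination (x 0 + n 0) * f0 + (x 1 + n 1) * f1 + (x 2 + n 2) * f2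

lemma fin (x : Fin 3 → ℝ) (M : ℝ) : {n : Z3 | nrm x n ≤ M}.Finite := by
  refine (Set.Finite.pi (t := fun i => Icc ⌊-x i - M - 1⌋ ⌈-x i + M + 1⌉)
    fun i => Set.finite_Icc _ _).subset fun n hn i _ => ?_
  have h1 : (x i + n i) ^ 2 ≤ M :=
    (Finset.single_le_sum (f := fun i => (x i + n i) ^ 2) (fun j _ => sq_nonneg _)
      (Finset.mem_univ i)).trans hn
  constructor
  · have : -x i - M - 1 ≤ (n i : ℝ) := by nlinarith [sq_nonneg (x i + n i + 1)]
    exact (Int.floor_le_floor this).trans (by simp)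
  · have : (n i : ℝ) ≤ -x i + M + 1 := by nlinarith [sq_nonneg (x i + n i - 1)]
    exact le_trans (by simp) (Int.ceil_le_ceil this)

lemma pos_low {ι : Type} {s : Set ι} (hs : s.Finite) (f : ι → ℝ) (hf : ∀ i, 0 < f i) :
    ∃ δ : ℝ, 0 < δ ∧ ∀ i ∈ s, δ ≤ f i := by
  rcases s.eq_empty_or_nonempty with h | h
  · exact ⟨1, one_pos, by simp [h]⟩
  · obtain ⟨i, -, hi⟩ := Set.exists_min_image s f hs h
    exact ⟨f i, hf i, hi⟩

lemma nrm_nonneg (x : Fin 3 → ℝ) (n : Z3) : 0 ≤ nrm x n :=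
  Finset.sum_nonneg fun _ _ => sq_nonneg _

lemma bad {r : Fin 3 → ℝ} {z : Fin 3 → ℂ} {x : Fin 3 → ℝ} {c0 : ℝ} (hc0 : 0 < c0)
    (hl : ∀ n, c0 * nrm x n ≤ lr r x n ^ 2 + ‖lc z x n‖ ^ 2) (hS : ∀ n, lc z x n ≠ 0)
    (A B : ℝ) (hA : 0 ≤ A) (hB : 0 ≤ B) :
    ∃ c : ℝ, 0 < c ∧ ∀ n, lr r x n ^ 2 ≤ A * ‖lc z x n‖ ^ 2 + B →
      c * nrm x n ≤ ‖lc z x n‖ ^ 2 := by
  obtain ⟨δ, hδ, hd⟩ := pos_low (fin x (2 * B / c0)) (fun n => ‖lc z x n‖ ^ 2)
    fun n => pow_pos (norm_pos_iff.mpr (hS n)) 2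
  have hK : 0 < A + 1 + B / δ := by positivity
  refine ⟨c0 / (2 * (A + 1 + B / δ)), by positivity, fun n hn => ?_⟩
  rw [div_mul_eq_mul_div, div_le_iff₀ (by positivity)]
  have h1 := hl n
  have hX : 0 ≤ ‖lc z x n‖ ^ 2 := sq_nonneg _
  have hq : 0 ≤ B / δ := by positivity
  by_cases hm : nrm x n ≤ 2 * B / c0
  · have h2 : δ ≤ ‖lc z x n‖ ^ 2 := hd n hm
    have h3 : B ≤ B / δ * ‖lc z x n‖ ^ 2 := by
      calc B = B / δ * δ := by field_simp
        _ ≤ _ := mul_le_mul_of_nonneg_left h2 hq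
    nlinarith [mul_nonneg hq hX, mul_nonneg hA hX]
  · have h2 : 2 * B < c0 * nrm x n := by
      rw [not_le, div_lt_iff₀ hc0] at hm
      linarith
    nlinarith [mul_nonneg hq hX, mul_nonneg hA hX]

lemma hs_abs (y : ℝ) : |hs y| ≤ 1 / 2 := by
  unfold hs
  split_ifs
  · rw [abs_of_pos (by norm_num)]
  · rw [abs_neg, abs_of_pos (by norm_num)]

end KLow

theorem k_low : K_LOW := by
  refine ⟨fun r z α w h => ⟨KLow.det_ne h, KLow.low (KLow.det_ne h), KLow.form h⟩, ?_, ?_⟩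
  · intro r z κ w
    simp [det3, Matrix.det_fin_three, Complex.mul_re]
    ring
  · intro z x h n
    refine lt_of_le_of_ne (KLow.nrm_nonneg x n) fun h0 => h n ?_
    have h1 := (Finset.sum_eq_zero_iff_of_nonneg fun i _ => sq_nonneg (x i + n i)).mp h0.symm
    refine Finset.sum_eq_zero fun i hi => ?_
    rw [pow_eq_zero_iff two_ne_zero |>.mp (h1 i hi)]
    simp

theorem k_dom (h1 : K_ERF) (h2 : K_LOW) : K_DOM := by
  intro r z x α w hF hS κ θ hκ
  obtain ⟨-, ⟨c0, hc0, hl⟩, hf⟩ := h2.1 r z α w hF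
  have hα := hF.α_pos
  obtain ⟨c1, hc1, hb⟩ := KLow.bad hc0 (hl x) hS (2 * ‖w‖ ^ 2 / α ^ 2) (2 * θ ^ 2 / α ^ 2)
    (by positivity) (by positivity)
  have hm : 0 < min (κ ^ 2) 1 := lt_min (by positivity) one_pos
  refine ⟨π * min (min (κ ^ 2) 1 * c0) c1, mul_pos Real.pi_pos (lt_min (by positivity) hc1),
    fun t ht n => ?_⟩
  have hN := KLow.nrm_nonneg x n
  have hpt : 0 ≤ π * t ^ 2 := by positivity
  by_cases he : hs (x 0 + n 0 - θ) = hs (κ * t * lr r x n)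
  · rw [he]
    have e1 : |hs (κ * t * lr r x n) - Er (κ * t * lr r x n)| ≤
        Real.exp (-π * (κ * t * lr r x n) ^ 2) :=
      (h1.2.2.1 _).trans (half_le_self (Real.exp_pos _).le)
    refine (mul_le_mul_of_nonneg_right e1 (Real.exp_pos _).le).trans ?_
    rw [← Real.exp_add, Real.exp_le_exp]
    have a1 : min (min (κ ^ 2) 1 * c0) c1 * nrm x n ≤
        κ ^ 2 * lr r x n ^ 2 + ‖lc z x n‖ ^ 2 := by
      calc _ ≤ min (κ ^ 2) 1 * c0 * nrm x n := mul_le_mul_of_nonneg_right (min_le_left _ _) hN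
        _ = min (κ ^ 2) 1 * (c0 * nrm x n) := by ring
        _ ≤ min (κ ^ 2) 1 * (lr r x n ^ 2 + ‖lc z x n‖ ^ 2) :=
          mul_le_mul_of_nonneg_left (hl x n) hm.le
        _ ≤ _ := by
          rw [mul_add]
          exact add_le_add (mul_le_mul_of_nonneg_right (min_le_left _ _) (sq_nonneg _))
            (mul_le_of_le_one_left (sq_nonneg _) (min_le_right _ _))
    nlinarith [mul_le_mul_of_nonneg_left a1 hpt]
  · have e1 : |hs (x 0 + n 0 - θ) - Er (κ * t * lr r x n)| ≤ 1 := by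
      have := abs_sub (hs (x 0 + n 0 - θ)) (Er (κ * t * lr r x n))
      linarith [KLow.hs_abs (x 0 + n 0 - θ), h1.2.2.2 (κ * t * lr r x n)]
    refine (mul_le_of_le_one_left (Real.exp_pos _).le e1).trans ?_
    rw [Real.exp_le_exp]
    have hre : |(w * lc z x n).re| ≤ ‖w‖ * ‖lc z x n‖ :=
      (Complex.abs_re_le_norm _).trans (norm_mul_le _ _)
    have hab : |α * lr r x n| ≤ ‖w‖ * ‖lc z x n‖ + |θ| := by
      have hfn := hf x n
      have hkt : 0 < κ * t := mul_pos hκ ht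
      have r1 := abs_le.mp hre
      have r2 := le_abs_self θ
      have r3 := neg_abs_le θ
      unfold hs at he
      by_cases p1 : 0 < x 0 + n 0 - θ
      · have p2 : ¬ 0 < κ * t * lr r x n := fun p2 => he (by rw [if_pos p1, if_pos p2])
        have p3 : lr r x n ≤ 0 := by
          by_contra p3
          exact p2 (mul_pos hkt (not_le.mp p3))
        rw [abs_of_nonpos (mul_nonpos_of_nonneg_of_nonpos hα.le p3)]
        linarith [r1.2]
      · have p2 : 0 < κ * t * lr r x n := by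
          by_contra p2
          exact he (by rw [if_neg p1, if_neg p2])
        have p3 : 0 < lr r x n := (mul_pos_iff_of_pos_left hkt).mp p2
        rw [abs_of_pos (mul_pos hα p3)]
        linarith [r1.1, not_lt.mp p1]
    have hsq : lr r x n ^ 2 ≤ 2 * ‖w‖ ^ 2 / α ^ 2 * ‖lc z x n‖ ^ 2 + 2 * θ ^ 2 / α ^ 2 := by
      rw [div_mul_eq_mul_div, ← add_div, le_div_iff₀ (by positivity)]
      have q1 : (α * lr r x n) ^ 2 ≤ (‖w‖ * ‖lc z x n‖ + |θ|) ^ 2 := by
        rw [← sq_abs (α * lr r x n)]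
        exact pow_le_pow_left₀ (abs_nonneg _) hab 2
      have q2 : |θ| ^ 2 = θ ^ 2 := sq_abs θ
      nlinarith [sq_nonneg (‖w‖ * ‖lc z x n‖ - |θ|)]
    have a1 : min (min (κ ^ 2) 1 * c0) c1 * nrm x n ≤ ‖lc z x n‖ ^ 2 :=
      (mul_le_mul_of_nonneg_right (min_le_right _ _) hN).trans (hb n hsq)
    nlinarith [mul_le_mul_of_nonneg_left a1 hpt]

end Pool.Agent.P.MP_29cb78_nt.E
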