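import Pool.Agent.P.MP_29cb78_nt.E.KIface

/-!
The choice of an adapted basis.
-/

namespace Pool.Agent.P.MP_29cb78_nt.E

namespace KMk

/-- The determinant of two complex numbers. -/
def dt (u v : ℂ) : ℝ := u.re * v.im - u.im * v.re

lemma dt_of_im {u v : ℂ} (h : (v / u).im ≠ 0) : dt u v ≠ 0 := by
  intro h0
  apply h
  rw [Complex.div_im, ← sub_div]
  unfold dt at h0
  rw [show v.im * u.re - v.re * u.im = 0 by linarith, zero_div]

lemma ne_of_dt {u v : ℂ} (h : dt u v ≠ 0) : u ≠ 0 := by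
  rintro rfl
  exact h (by simp [dt])

lemma ind {u v w : ℂ} (h : dt u v ≠ 0) (h1 : (w * u).re = 0) (h2 : (w * v).re = 0) : w = 0 := by
  rw [Complex.mul_re] at h1 h2
  unfold dt at h
  apply Complex.ext
  · have : w.re * (u.re * v.im - u.im * v.re) = 0 := by linear_combination v.im * h1 - u.im * h2
    simpa [h] using this
  · have : w.im * (u.re * v.im - u.im * v.re) = 0 := by linear_combination v.re * h1 - u.re * h2
    simpa [h] using this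

lemma solve {u v : ℂ} (h : dt u v ≠ 0) (r₁ r₂ : ℝ) :
    ∃ w : ℂ, (w * u).re = r₁ ∧ (w * v).re = r₂ := by
  obtain ⟨d, hd⟩ : ∃ d, d = dt u v := ⟨_, rfl⟩
  rw [← hd] at h
  unfold dt at hd
  refine ⟨⟨(r₁ * v.im - r₂ * u.im) / d, (r₁ * v.re - r₂ * u.re) / d⟩, ?_, ?_⟩
  · rw [Complex.mul_re]
    simp only
    field_simp
    rw [hd]
    ring
  · rw [Complex.mul_re]
    simp only
    field_simp
    rw [hd]
    ring

lemma rat_mulR (f : ℂ →+ ℝ) (y : ℚ) (z : ℂ) : f (y * z) = y * f z := by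
  have := map_ratCast_smul f ℂ ℝ y z
  simpa using this

lemma rat_mulQ (f : ℂ →+ ℚ) (y : ℚ) (z : ℂ) : f (y * z) = y * f z := by
  have := map_ratCast_smul f ℂ ℚ y z
  simpa using this

lemma int_mulR (f : ℂ →+ ℝ) (y : ℤ) (z : ℂ) : f (y * z) = y * f z := by
  have := map_zsmul f y z
  simpa using this

lemma int_mulQ (f : ℂ →+ ℚ) (y : ℤ) (z : ℂ) : f (y * z) = y * f z := by
  have := map_zsmul f y z
  simpa using this

lemma re_rat (w z : ℂ) (y : ℚ) : (w * (y * z)).re = y * (w * z).re := by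
  rw [show w * (y * z) = ((y : ℝ) : ℂ) * (w * z) by push_cast; ring, Complex.re_ofReal_mul]

lemma re_int (w z : ℂ) (y : ℤ) : (w * (y * z)).re = y * (w * z).re := by
  rw [show w * (y * z) = ((y : ℝ) : ℂ) * (w * z) by push_cast; ring, Complex.re_ofReal_mul]

/-- A basis in which `a` is the first coordinate, with the relation between the forms. -/
structure Bas (L : AddSubgroup ℂ) (v : ℂ) (r : ℂ →+ ℝ) (a : ℂ →+ ℚ) (α : ℝ) (w e₀ e₁ e₂ : ℂ) :
    Prop where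
  mem : ∀ z, z ∈ L ↔ ∃ i j k : ℤ, z = i * e₀ + j * e₁ + k * e₂
  a₀ : a e₀ = 1
  a₁ : a e₁ = 0
  a₂ : a e₂ = 0
  det : dt e₁ e₂ ≠ 0
  co : ∃ x₀ x₁ x₂ : ℚ, v = x₀ * e₀ + x₁ * e₁ + x₂ * e₂ ∧ ∀ k : ℤ, x₀ ≠ k
  pos : 0 < α
  f₀ : α * r e₀ + (w * e₀).re = 1
  f₁ : α * r e₁ + (w * e₁).re = 0
  f₂ : α * r e₂ + (w * e₂).re = 0

variable {L : AddSubgroup ℂ} {ε v : ℂ} {r : ℂ →+ ℝ} {ρ : ℝ} {N : ℕ} {a : ℂ →+ ℚ} {α : ℝ}
  {w e₀ e₁ e₂ γ β : ℂ}

lemma Bas.chg (h : Bas L v r a α w e₀ e₁ e₂) {A B C D A' B' C' D' : ℤ}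
    (h1 : e₁ = A * γ + B * β) (h2 : e₂ = C * γ + D * β) (h3 : γ = A' * e₁ + B' * e₂)
    (h4 : β = C' * e₁ + D' * e₂) : Bas L v r a α w e₀ γ β where
  mem z := by
    rw [h.mem]
    constructor
    · rintro ⟨i, j, k, rfl⟩
      refine ⟨i, j * A + k * C, j * B + k * D, ?_⟩
      rw [h1, h2]
      push_cast
      ring
    · rintro ⟨i, j, k, rfl⟩
      refine ⟨i, j * A' + k * C', j * B' + k * D', ?_⟩
      rw [h3, h4]
      push_cast
      ring
  a₀ := h.a₀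
  a₁ := by rw [h3, map_add, int_mulQ, int_mulQ, h.a₁, h.a₂]; ring
  a₂ := by rw [h4, map_add, int_mulQ, int_mulQ, h.a₁, h.a₂]; ring
  det := by
    intro h0
    apply h.det
    have : dt e₁ e₂ = (A * D - B * C) * dt γ β := by
      rw [h1, h2]
      simp [dt]
      ring
    rw [this, h0, mul_zero]
  co := by
    obtain ⟨x₀, x₁, x₂, hv, hx⟩ := h.co
    refine ⟨x₀, x₁ * A + x₂ * C, x₁ * B + x₂ * D, ?_, hx⟩
    rw [hv, h1, h2]
    push_cast
    ring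
  pos := h.pos
  f₀ := h.f₀
  f₁ := by
    rw [h3, map_add, int_mulR, int_mulR, mul_add w, Complex.add_re, re_int, re_int]
    linear_combination A' * h.f₁ + B' * h.f₂
  f₂ := by
    rw [h4, map_add, int_mulR, int_mulR, mul_add w, Complex.add_re, re_int, re_int]
    linear_combination C' * h.f₁ + D' * h.f₂

lemma Bas.m₀ (h : Bas L v r a α w e₀ e₁ e₂) : e₀ ∈ L := (h.mem _).2 ⟨1, 0, 0, by simp⟩

lemma Bas.m₁ (h : Bas L v r a α w e₀ e₁ e₂) : e₁ ∈ L := (h.mem _).2 ⟨0, 1, 0, by simp⟩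

lemma Bas.m₂ (h : Bas L v r a α w e₀ e₁ e₂) : e₂ ∈ L := (h.mem _).2 ⟨0, 0, 1, by simp⟩

lemma Bas.form (h : Bas L v r a α w e₀ e₁ e₂) {b : ℂ} (hb : b ∈ L) :
    (a b : ℝ) = α * r b + (w * b).re := by
  obtain ⟨i, j, k, rfl⟩ := (h.mem b).1 hb
  simp only [map_add, int_mulQ, int_mulR, mul_add w, Complex.add_re, re_int, h.a₀, h.a₁, h.a₂]
  push_cast
  linear_combination -i * h.f₀ - j * h.f₁ - k * h.f₂

lemma Bas.int (h : Bas L v r a α w e₀ e₁ e₂) {b : ℂ} (hb : b ∈ L) : ∃ i : ℤ, a b = i := by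
  obtain ⟨i, j, k, rfl⟩ := (h.mem b).1 hb
  refine ⟨i, ?_⟩
  simp only [map_add, int_mulQ, h.a₀, h.a₁, h.a₂]
  ring

lemma Bas.span (h : Bas L v r a α w e₀ e₁ e₂) {b : ℂ} (hb : b - v ∈ L) :
    ∃ y₀ y₁ y₂ : ℚ, b = y₀ * e₀ + y₁ * e₁ + y₂ * e₂ ∧ y₀ ≠ 0 := by
  obtain ⟨i, j, k, hb⟩ := (h.mem _).1 hb
  obtain ⟨x₀, x₁, x₂, hv, hx⟩ := h.co
  refine ⟨x₀ + i, x₁ + j, x₂ + k, ?_, fun h0 => hx (-i) ?_⟩
  · push_cast
    linear_combination hb + hv
  · push_cast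
    linarith

lemma ε_ne (P : Pre L ε v r ρ N) : ε ≠ 0 := fun h => P.ε_im (by rw [h]; rfl)

lemma div_mem (P : Pre L ε v r ρ N) {b : ℂ} (hb : b ∈ L) : b / ε ∈ L := by
  rw [← P.ε_mul, mul_div_cancel₀ _ (ε_ne P)]
  exact hb

lemma ε_norm (P : Pre L ε v r ρ N) : ‖ε‖ < 1 := by
  by_contra h
  have h1 : 1 ≤ ‖ε‖ := not_lt.1 h
  have h2 : 1 ≤ ‖ε‖ ^ 2 := one_le_pow₀ h1
  nlinarith [P.norm, P.ρ_gt]

lemma not_rat (P : Pre L ε v r ρ N) {x y : ℚ} (hx : x ≠ 0) : (x : ℝ) - ρ * y ≠ 0 := by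
  intro h
  have hy : y ≠ 0 := by
    rintro rfl
    apply hx
    have : (x : ℝ) = 0 := by simpa using h
    exact_mod_cast this
  have hy' : (y : ℝ) ≠ 0 := by exact_mod_cast hy
  apply P.irr
  refine ⟨x / y, ?_⟩
  push_cast
  field_simp
  linarith

lemma Bas.diff (h : Bas L v r a α w e₀ e₁ e₂) (P : Pre L ε v r ρ N) {b : ℂ} (hb : b ∈ L) :
    (a b : ℝ) - ρ * a (b / ε) = (w * (1 - ρ / ε) * b).re := by
  have h1 := h.form hb
  have h2 := h.form (div_mem P hb)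
  have h3 := P.r_ε _ (div_mem P hb)
  rw [mul_div_cancel₀ _ (ε_ne P)] at h3
  rw [show w * (1 - ρ / ε) * b = w * b - (ρ : ℂ) * (w * (b / ε)) by ring, Complex.sub_re,
    Complex.re_ofReal_mul, h1, h2, h3]
  ring

lemma Bas.diffQ (h : Bas L v r a α w e₀ e₁ e₂) (P : Pre L ε v r ρ N) (y₀ y₁ y₂ : ℚ) :
    (y₀ : ℝ) - ρ * a ((y₀ * e₀ + y₁ * e₁ + y₂ * e₂) / ε) =
      (w * (1 - ρ / ε) * (y₀ * e₀ + y₁ * e₁ + y₂ * e₂)).re := by
  have h0 := h.diff P h.m₀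
  have h1 := h.diff P h.m₁
  have h2 := h.diff P h.m₂
  rw [h.a₀] at h0
  rw [h.a₁] at h1
  rw [h.a₂] at h2
  rw [add_div, add_div, mul_div_assoc, mul_div_assoc, mul_div_assoc]
  simp only [map_add, rat_mulQ, mul_add (w * (1 - ρ / ε)), Complex.add_re, re_rat]
  push_cast at h0 h1 h2 ⊢
  linear_combination y₀ * h0 + y₁ * h1 + y₂ * h2

lemma fin (P : Pre L ε v r ρ N) (h : Bas L v r a α w e₀ γ β) {s : ℕ} (hs : 0 < s)
    (hγ : a (γ / ε) = 0) (hβ : a (β / ε) = -s) (hk : (w * (1 - ρ / ε) * γ).im < 0) :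
    ∃ S : Setup, S.L = L ∧ S.ε = ε ∧ S.RealStr v r ρ := by
  have hγ0 : γ ≠ 0 := ne_of_dt h.det
  have hre : (w * (1 - ρ / ε) * γ).re = 0 := by
    rw [← h.diff P h.m₁, h.a₁, hγ]
    simp
  obtain ⟨κ, hκ⟩ : ∃ κ : ℝ, κ = -(w * (1 - ρ / ε) * γ).im := ⟨_, rfl⟩
  have hκ0 : 0 < κ := by rw [hκ]; linarith
  have key : ∀ b : ℂ, (w * (1 - ρ / ε) * b).re = κ * (b / γ).im := fun b => by
    rw [show w * (1 - ρ / ε) * b = w * (1 - ρ / ε) * γ * (b / γ) by field_simp, Complex.mul_re,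
      hre, hκ]
    ring
  have hsR : (0 : ℝ) < s := by exact_mod_cast hs
  have hρ := P.ρ_gt
  have k0 : κ * (e₀ / γ).im = 1 - ρ * a (e₀ / ε) := by
    rw [← key, ← h.diff P h.m₀, h.a₀]
    simp
  have k2 : κ * (β / γ).im = ρ * s := by
    rw [← key, ← h.diff P h.m₂, h.a₂, hβ]
    simp
  have e2 : (β / (s * γ)).im = ρ / κ := by
    rw [show β / (s * γ) = (((s : ℝ)⁻¹ : ℝ) : ℂ) * (β / γ) by push_cast; field_simp,
      Complex.im_ofReal_mul]
    field_simp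
    linarith
  have e0 : (e₀ / γ + a (e₀ / ε) * (β / (s * γ))).im = 1 / κ := by
    rw [Complex.add_im, show ((a (e₀ / ε) : ℚ) : ℂ) = (((a (e₀ / ε) : ℚ) : ℝ) : ℂ) by simp,
      Complex.im_ofReal_mul, e2]
    field_simp
    linarith
  refine ⟨{ L := L, a := a, ε := ε, lam := e₀, γ := γ, β := β, s := s, N := N
            mem_L := h.mem, a_lam := h.a₀, a_γ := h.a₁, a_β := h.a₂, ε_mul := P.ε_mul
            a_γε := hγ, a_βε := hβ, s_pos := hs
            hp_pos := by rw [e0]; positivity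
            hp_lt := by
              rw [e0, e2, ← mul_div_assoc]
              exact div_lt_div_of_pos_right (by linarith) hκ0
            six := P.six, N_ne := P.N_ne, N_mul := P.N_mul, ε_im := P.ε_im
            ε_norm := ε_norm P, ε_alg := P.ε_alg }, rfl, rfl, ?_, P.fix, by linarith, P.norm,
    ?_, P.r_ne, ⟨α, w, h.pos, ?_, ?_⟩, ?_, ?_⟩
  · obtain ⟨x₀, x₁, x₂, hv, -⟩ := h.co
    exact ⟨![x₀, x₁, x₂], hv⟩
  · intro b hb
    obtain ⟨y₀, y₁, y₂, rfl, -⟩ := h.span hb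
    change r (ε * _) = _
    rw [show ε * (y₀ * e₀ + y₁ * γ + y₂ * β) = y₀ * (ε * e₀) + y₁ * (ε * γ) + y₂ * (ε * β) by ring]
    simp only [map_add, rat_mulR, P.r_ε _ h.m₀, P.r_ε _ h.m₁, P.r_ε _ h.m₂]
    ring
  · intro i
    fin_cases i
    · exact h.f₀
    · exact h.f₁
    · exact h.f₂
  · change (β / γ).im ≠ 0
    intro h0
    rw [h0] at k2
    nlinarith
  · intro b hb
    obtain ⟨y₀, y₁, y₂, rfl, hy⟩ := h.span hb
    change (_ / γ).im ≠ 0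
    intro h0
    have := h.diffQ P y₀ y₁ y₂
    rw [key, h0, mul_zero] at this
    exact not_rat P hy this
  · change (e₀ / γ).im ≠ 0
    intro h0
    rw [h0, mul_zero] at k0
    exact not_rat P (x := 1) (y := a (e₀ / ε)) one_ne_zero (by simpa using k0.symm)

lemma fin' (P : Pre L ε v r ρ N) (h : Bas L v r a α w e₀ γ β) {s : ℕ} (hs : 0 < s)
    (hγ : a (γ / ε) = 0) (hβ : a (β / ε) = -s) :
    ∃ S : Setup, S.L = L ∧ S.ε = ε ∧ S.RealStr v r ρ := by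
  rcases lt_trichotomy (w * (1 - ρ / ε) * γ).im 0 with hk | hk | hk
  · exact fin P h hs hγ hβ hk
  · exfalso
    have hre : (w * (1 - ρ / ε) * γ).re = 0 := by
      rw [← h.diff P h.m₁, h.a₁, hγ]
      simp
    have h0 : w * (1 - ρ / ε) * γ = 0 := Complex.ext hre hk
    have h1 : w * (1 - ρ / ε) = 0 := (mul_eq_zero.1 h0).resolve_right (ne_of_dt h.det)
    have := h.diff P h.m₀
    rw [h1, h.a₀, zero_mul] at this
    exact not_rat P one_ne_zero this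
  · refine fin P (h.chg (γ := -γ) (β := β) (A := -1) (B := 0) (C := 0) (D := 1) (A' := -1)
      (B' := 0) (C' := 0) (D' := 1) (by simp) (by simp) (by simp) (by simp)) hs ?_ hβ ?_
    · rw [neg_div, map_neg, hγ, neg_zero]
    · rw [mul_neg, Complex.neg_im]
      linarith

lemma step (P : Pre L ε v r ρ N) (h : Bas L v r a α w e₀ e₁ e₂) :
    ∃ S : Setup, S.L = L ∧ S.ε = ε ∧ S.RealStr v r ρ := by
  obtain ⟨p, hp⟩ := h.int (div_mem P h.m₁)
  obtain ⟨q, hq⟩ := h.int (div_mem P h.m₂)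
  have hg : 0 < Int.gcd p q := by
    rw [Int.gcd_pos_iff]
    by_contra h0
    obtain ⟨hp0, hq0⟩ : p = 0 ∧ q = 0 := by tauto
    have h1 := h.diff P h.m₁
    have h2 := h.diff P h.m₂
    rw [h.a₁, hp, hp0] at h1
    rw [h.a₂, hq, hq0] at h2
    have h3 : w * (1 - ρ / ε) = 0 := ind h.det (by simpa using h1.symm) (by simpa using h2.symm)
    have := h.diff P h.m₀
    rw [h3, h.a₀, zero_mul] at this
    exact not_rat P one_ne_zero this
  obtain ⟨p', hp'⟩ := Int.gcd_dvd_left p q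
  obtain ⟨q', hq'⟩ := Int.gcd_dvd_right p q
  have hb := Int.gcd_eq_gcd_ab p q
  obtain ⟨u, hu⟩ : ∃ u, u = Int.gcdA p q := ⟨_, rfl⟩
  obtain ⟨u', hu'⟩ : ∃ u, u = Int.gcdB p q := ⟨_, rfl⟩
  rw [← hu, ← hu'] at hb
  obtain ⟨s, hs⟩ : ∃ s, s = Int.gcd p q := ⟨_, rfl⟩
  rw [← hs] at hg hp' hq' hb
  have hs0 : (s : ℤ) ≠ 0 := by exact_mod_cast hg.ne'
  have h1 : p' * u + q' * u' = 1 := by
    apply mul_left_cancel₀ hs0
    linear_combination -hb - u * hp' - u' * hq'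
  have h1C : (p' : ℂ) * u + q' * u' = 1 := by exact_mod_cast h1
  have hpQ : (p : ℚ) = s * p' := by exact_mod_cast hp'
  have hqQ : (q : ℚ) = s * q' := by exact_mod_cast hq'
  have hbQ : (s : ℚ) = p * u + q * u' := by exact_mod_cast hb
  refine fin' P (h.chg (γ := q' * e₁ + (-p' : ℤ) * e₂) (β := (-u : ℤ) * e₁ + (-u' : ℤ) * e₂)
    (A := u') (B := -p') (C := -u) (D := -q') ?_ ?_ rfl rfl) hg ?_ ?_
  · push_cast
    linear_combination -e₁ * h1C
  · push_cast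
    linear_combination -e₂ * h1C
  · rw [add_div, mul_div_assoc, mul_div_assoc, map_add, int_mulQ, int_mulQ, hp, hq, hpQ, hqQ]
    push_cast
    ring
  · rw [add_div, mul_div_assoc, mul_div_assoc, map_add, int_mulQ, int_mulQ, hp, hq, hbQ]
    push_cast
    ring

end KMk

open KMk in
theorem k_mk : K_MK := by
  intro L ε v r ρ N P
  obtain ⟨e, a, x, hm, a0, a1, a2, him, hv, hx⟩ := P.basis
  have hd := dt_of_im him
  obtain ⟨w, w1, w2⟩ := solve hd (r (e 1)) (r (e 2))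
  obtain ⟨c, hc⟩ : ∃ c, c = r (e 0) - (w * e 0).re := ⟨_, rfl⟩
  have hw : ∀ (t : ℝ) (z : ℂ), ((t : ℂ) * w * z).re = t * (w * z).re := fun t z => by
    rw [mul_assoc, Complex.re_ofReal_mul]
  rcases lt_trichotomy c 0 with h | h | h
  · refine step P (a := -a) (α := -c⁻¹) (w := (c⁻¹ : ℝ) * w) (e₀ := -e 0) (e₁ := e 1) (e₂ := e 2)
      ⟨fun z => ?_, by simp [a0], by simp [a1], by simp [a2], hd,
        ⟨-x 0, x 1, x 2, ?_, fun k hk => hx (-k) ?_⟩, neg_pos.2 (inv_lt_zero.2 h), ?_, ?_, ?_⟩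
    · rw [hm]
      constructor <;> rintro ⟨i, j, k, rfl⟩ <;> exact ⟨-i, j, k, by push_cast; ring⟩
    · rw [hv]
      push_cast
      ring
    · push_cast
      linarith
    · rw [hw, map_neg, mul_neg w, Complex.neg_re]
      have := h.ne
      field_simp
      linarith
    · rw [hw, w1]
      ring
    · rw [hw, w2]
      ring
  · exfalso
    have hr : ∀ b ∈ L, r b = (w * b).re := fun b hb => by
      obtain ⟨i, j, k, rfl⟩ := (hm b).1 hb
      simp only [map_add, int_mulR, mul_add w, Complex.add_re, re_int, w1, w2]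
      rw [show r (e 0) = (w * e 0).re by linarith]
    have m0 : e 0 ∈ L := (hm _).2 ⟨1, 0, 0, by simp⟩
    have m1 : e 1 ∈ L := (hm _).2 ⟨0, 1, 0, by simp⟩
    have m2 : e 2 ∈ L := (hm _).2 ⟨0, 0, 1, by simp⟩
    have hz : ∀ b ∈ L, (w * (ε - ρ) * b).re = 0 := fun b hb => by
      rw [show w * (ε - ρ) * b = w * (ε * b) - (ρ : ℂ) * (w * b) by ring, Complex.sub_re,
        Complex.re_ofReal_mul, ← hr _ hb, ← hr _ ((P.ε_mul b).2 hb), P.r_ε b hb, sub_self]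
    have h0 : w = 0 := (mul_eq_zero.1 (ind hd (hz _ m1) (hz _ m2))).resolve_right fun h1 =>
      P.ε_im (by rw [sub_eq_zero.1 h1]; rfl)
    apply P.r_ne v (by simp)
    rw [hv]
    simp only [map_add, rat_mulR, hr _ m0, hr _ m1, hr _ m2, h0]
    simp
  · refine step P (a := a) (α := c⁻¹) (w := (-c⁻¹ : ℝ) * w) (e₀ := e 0) (e₁ := e 1) (e₂ := e 2)
      ⟨hm, a0, a1, a2, hd, ⟨x 0, x 1, x 2, hv, hx⟩, inv_pos.2 h, ?_, ?_, ?_⟩
    · rw [hw]
      have := h.ne'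
      field_simp
      linarith
    · rw [hw, w1]
      ring
    · rw [hw, w2]
      ring

end Pool.Agent.P.MP_29cb78_nt.E
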