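import Pool.Agent.P.MP_29cb78_nt.E.KIface

/-!
The extrapolation functional.
-/

namespace Pool.Agent.P.MP_29cb78_nt.E

open Filter Topology Set

namespace KNeg

/-- The remainder of the cubic Taylor polynomial of the exponential. -/
noncomputable def E (x : ℝ) : ℝ := Real.exp x - (1 + x + x ^ 2 / 2 + x ^ 3 / 6)

theorem E_le {x : ℝ} (hx : |x| ≤ 1) : |E x| ≤ |x| ^ 4 := by
  have h := Real.exp_bound hx (n := 4) (by norm_num)
  have e : ∑ m ∈ Finset.range 4, x ^ m / (m.factorial : ℝ) = 1 + x + x ^ 2 / 2 + x ^ 3 / 6 := by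
    simp [Finset.sum_range_succ, Nat.factorial]
  rw [e] at h
  refine h.trans ?_
  refine mul_le_of_le_one_right (by positivity) ?_
  norm_num [Nat.factorial]

theorem tend (a C : ℝ) (s : ℝ → ℝ) (hs : ∀ m ∈ Ioc (0 : ℝ) 1, |s m| ≤ C / m ^ 3) :
    Tendsto (fun m => s m * E (m * a)) (𝓝[>] 0) (𝓝 0) := by
  have h1 : Tendsto (fun m : ℝ => C * |a| ^ 4 * m) (𝓝[>] 0) (𝓝 0) := by
    have : Tendsto (fun m : ℝ => C * |a| ^ 4 * m) (𝓝 0) (𝓝 (C * |a| ^ 4 * 0)) :=
      tendsto_const_nhds.mul tendsto_id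
    rw [mul_zero] at this
    exact this.mono_left nhdsWithin_le_nhds
  have h2 : ∀ᶠ m : ℝ in 𝓝[>] 0, |m * a| ≤ 1 := by
    have : Tendsto (fun m : ℝ => |m * a|) (𝓝 0) (𝓝 |0 * a|) :=
      (tendsto_id.mul tendsto_const_nhds).abs
    rw [zero_mul, abs_zero] at this
    exact (this.mono_left nhdsWithin_le_nhds).eventually (eventually_le_nhds one_pos)
  refine squeeze_zero_norm' ?_ h1
  filter_upwards [h2, Ioc_mem_nhdsGT (one_pos : (0 : ℝ) < 1)] with m hm hm1
  have hm0 : 0 < m := hm1.1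
  have h3 := hs m hm1
  rw [Real.norm_eq_abs, abs_mul]
  refine (mul_le_mul h3 (E_le hm) (abs_nonneg _) ((abs_nonneg _).trans h3)).trans (le_of_eq ?_)
  rw [abs_mul, abs_of_pos hm0]
  field_simp

theorem low (x : ℝ) : |x| * Real.exp (-|x|) ≤ |1 - Real.exp x| := by
  rcases le_total 0 x with h | h
  · have h1 := Real.add_one_le_exp x
    have h2 : Real.exp (-x) ≤ 1 := Real.exp_le_one_iff.mpr (by linarith)
    rw [abs_of_nonneg h, abs_of_nonpos (by linarith)]
    nlinarith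
  · have h1 := Real.add_one_le_exp (-x)
    have h2 : Real.exp x ≤ 1 := Real.exp_le_one_iff.mpr h
    have h3 : Real.exp x * Real.exp (-x) = 1 := by rw [← Real.exp_add]; simp
    have h4 := Real.exp_pos x
    rw [abs_of_nonpos h, abs_of_nonneg (by linarith), neg_neg]
    nlinarith

end KNeg

theorem k_neg : K_NEG := by
  refine ⟨fun N => ⟨?_, ?_, fun c₀ c₁ c₂ c₃ => ?_, fun κ κ₀ C s hs => ?_⟩, fun c hc => ?_⟩
  · simp [Fin.sum_univ_four, cc, tt]
    ring
  · simp [Fin.sum_univ_four, cc, tt]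
    ring
  · simp [Fn, Fin.sum_univ_four, cc, tt]
    ring
  · have e : ∀ m : ℝ, (Fn N fun t => s m * Real.exp (m * (κ * t + κ₀))) =
        ∑ j : Fin 4, (cc N j : ℝ) * (s m * KNeg.E (m * (κ * (tt N j : ℝ) + κ₀)) -
          s m * KNeg.E (m * (κ * ((-tt N j : ℤ) : ℝ) + κ₀))) := fun m => by
      simp [Fn, KNeg.E, Fin.sum_univ_four, cc, tt]
      ring
    simp only [e]
    have h := tendsto_finset_sum (Finset.univ : Finset (Fin 4)) fun j _ =>
      ((KNeg.tend (κ * (tt N j : ℝ) + κ₀) C s hs).sub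
        (KNeg.tend (κ * ((-tt N j : ℤ) : ℝ) + κ₀) C s hs)).const_mul (cc N j : ℝ)
    simpa only [sub_self, mul_zero, Finset.sum_const_zero] using h
  · have hc0 : 0 < |c| := abs_pos.mpr hc
    refine ⟨(|c| * Real.exp (-|c|))⁻¹, fun m hm => ?_⟩
    have hm0 : 0 < m := hm.1
    have h1 : m * (|c| * Real.exp (-|c|)) ≤ |1 - Real.exp (m * c)| := by
      refine le_trans ?_ (KNeg.low (m * c))
      rw [abs_mul, abs_of_pos hm0, ← mul_assoc]
      refine mul_le_mul_of_nonneg_left (Real.exp_le_exp.mpr ?_) (by positivity)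
      nlinarith [hm.2]
    have h2 : 0 < m * (|c| * Real.exp (-|c|)) := by positivity
    refine ⟨abs_pos.mp (h2.trans_le h1), ?_⟩
    rw [abs_inv]
    refine (inv_anti₀ h2 h1).trans (le_of_eq ?_)
    field_simp

end Pool.Agent.P.MP_29cb78_nt.E
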