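import Pool.Agent.P.MP_29cb78_nt.E.KZeta

/-! The lattice data attached to an ideal of a complex cubic field. -/

namespace Pool.Agent.P.MP_29cb78_nt.E

open NumberField

namespace KPre

theorem basis {k : Type} [Field k] [NumberField k] (h3 : Module.finrank ℚ k = 3)
    {J : Ideal (𝓞 k)} (hJ : J ≠ ⊥) {ν : 𝓞 k} (hν : ν ∉ J) : ∃ b : Module.Basis (Fin 3) ℚ k,
      (∀ x : k, (∃ j ∈ J, (j : k) = x) ↔ ∃ i j l : ℤ, x = i * b 0 + j * b 1 + l * b 2) ∧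
      ∀ n : ℤ, b.repr ν 0 ≠ n := by
  let bJ := Ideal.selfBasis
    (Module.finBasisOfFinrankEq ℤ (𝓞 k) ((RingOfIntegers.rank k).trans h3)) J hJ
  let f : J →ₗ[ℤ] k := (algebraMap (𝓞 k) k).toIntAlgHom.toLinearMap ∘ₗ J.subtype.restrictScalars ℤ
  have li := (LinearIndependent.iff_fractionRing ℤ ℚ).1 (bJ.linearIndependent.map' f
    (LinearMap.ker_eq_bot.2 (RingOfIntegers.coe_injective.comp Subtype.val_injective)))
  let b := basisOfLinearIndependentOfCardEqFinrank li (by simp [h3])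
  have hb : ∀ x : k, x ∈ Submodule.span ℤ (Set.range b) ↔ ∃ j ∈ J, (j : k) = x := fun x => by
    rw [coe_basisOfLinearIndependentOfCardEqFinrank, Set.range_comp, ← Submodule.map_span,
      bJ.span_eq, Submodule.map_top]
    exact ⟨fun ⟨j, h⟩ => ⟨j, j.2, h⟩, fun ⟨j, h, h'⟩ => ⟨⟨j, h⟩, h'⟩⟩
  obtain ⟨i, hi⟩ := not_forall.1 fun h => by
    obtain ⟨j, h1, h2⟩ := (hb _).1 ((b.mem_span_iff_repr_mem ℤ (ν : k)).2 h)
    exact hν (RingOfIntegers.coe_injective h2 ▸ h1)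
  refine ⟨b.reindex (Equiv.swap 0 i), fun x => ?_, fun n h => hi ⟨n, ?_⟩⟩
  · rw [← hb, ← b.range_reindex (Equiv.swap 0 i), Submodule.mem_span_range_iff_exists_fun]
    simp only [Fin.sum_univ_three, zsmul_eq_mul]
    exact ⟨fun ⟨c, h⟩ => ⟨_, _, _, h.symm⟩, fun ⟨i, j, l, h⟩ => ⟨![i, j, l], h.symm⟩⟩
  · simpa using h.symm

end KPre

theorem k_pre : K_PRE := by
  intro k _ _ ρ σ hE J ν η u hJ hν hu hη hρ
  obtain ⟨π, hπ⟩ := LinearMap.exists_leftInverse_of_injective σ.toRatAlgHom.toLinearMap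
    (LinearMap.ker_eq_bot.2 σ.injective)
  replace hπ : ∀ x, π (σ x) = x := fun x => LinearMap.congr_fun hπ x
  obtain ⟨b, hb, hx⟩ := KPre.basis hE.rank hJ hν
  have hm : ∀ {z}, z ∈ latt σ J ↔ ∃ j ∈ J, σ (j : 𝓞 k) = z := Iff.rfl
  have hu' : σ (u : 𝓞 k) - 1 = 6 * σ η := by
    simpa [map_ofNat] using congrArg (fun x : 𝓞 k => σ x) hu
  have hn : ρ (u : 𝓞 k) * ‖σ (u : 𝓞 k)‖ ^ 2 = 1 := by
    rw [KZeta.nrm hE _ (by linarith), Ideal.span_singleton_eq_top.2 u.isUnit]; simp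
  have him : (σ (u : 𝓞 k)).im ≠ 0 := fun h => by
    obtain ⟨c, hc⟩ := hE.rat _ h
    rw [hc, map_ratCast] at hρ hn
    rw [map_ratCast, Complex.norm_ratCast, sq_abs] at hn
    nlinarith
  have hui : σ ((u⁻¹ : (𝓞 k)ˣ) : 𝓞 k) * σ (u : 𝓞 k) = 1 := by
    simpa only [map_mul, map_one] using congrArg (fun x : 𝓞 k => σ (algebraMap _ k x)) u.inv_mul
  obtain ⟨η', hη'⟩ := Ideal.mem_span_singleton'.1
    (Ideal.absNorm_mem (Ideal.span {(u : 𝓞 k) ^ 2 - 1}))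
  refine ⟨ρ.toAddMonoidHom.comp π.toAddMonoidHom, Ideal.absNorm (Ideal.span {(u : 𝓞 k) ^ 2 - 1}),
    fun x => congrArg ρ (hπ x), ⟨⟨fun i => σ (b i), (b.coord 0 ∘ₗ π).toAddMonoidHom, b.repr ν,
      fun z => ⟨fun ⟨j, h, h'⟩ => ?_, fun ⟨i, j, l, h⟩ => ?_⟩, by simp [hπ], by simp [hπ],
      by simp [hπ], fun h => ?_, ?_, hx⟩, fun z => ⟨fun ⟨j, h, h'⟩ => ?_, ?_⟩, ?_, ?_,
      fun z ⟨j, h, h'⟩ => ?_, him, ?_, ?_, hρ, hn, fun ⟨c, hc⟩ => him ?_, ?_,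
      fun z ⟨j, h, h'⟩ h0 => hν ?_⟩, ?_, fun ⟨j, h, h'⟩ => hν ?_⟩
  · obtain ⟨i, j, l, h⟩ := (hb _).1 ⟨j, h, rfl⟩
    exact ⟨i, j, l, h'.symm.trans (by simpa using congrArg σ h)⟩
  · obtain ⟨y, h1, h2⟩ := (hb _).2 ⟨i, j, l, rfl⟩
    exact hm.2 ⟨y, h1, by simp [h2, h]⟩
  · obtain ⟨c, hc⟩ := hE.rat (b 2 / b 1) (by rwa [map_div₀])
    rw [div_eq_iff (b.ne_zero 1), ← Rat.smul_def] at hc
    simpa using congrArg (fun x => b.repr x 2) hc
  · simpa [Fin.sum_univ_three, Rat.smul_def] using congrArg σ (b.sum_repr ν).symm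
  · refine hm.2 ⟨_, J.mul_mem_left (u⁻¹ : (𝓞 k)ˣ) h, ?_⟩
    replace h' : σ j = _ := h'
    rw [← one_mul z, ← hui, mul_assoc, ← h']
    simp
  · rintro ⟨j, h, rfl⟩
    exact hm.2 ⟨_, J.mul_mem_left u h, by simp⟩
  · rintro _ ⟨j, h, rfl⟩
    exact hm.2 ⟨_, J.mul_mem_left η h, by rw [hu']; simp; ring⟩
  · rw [Ne, Ideal.absNorm_eq_zero_iff, Ideal.span_singleton_eq_bot]
    intro h
    have : ρ (u : 𝓞 k) ^ 2 - 1 = 0 := by simpa using congrArg (fun x : 𝓞 k => ρ x) h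
    nlinarith
  · refine hm.2 ⟨_, J.mul_mem_left η' h, ?_⟩
    replace h' : σ j = _ := h'
    have := congrArg (fun x : 𝓞 k => σ (algebraMap _ k x)) hη'
    simp only [map_mul, map_sub, map_pow, map_one, map_natCast] at this
    rw [← this, mul_assoc, ← h']
    simp
  · exact (Algebra.IsAlgebraic.isAlgebraic _).algHom σ.toRatAlgHom
  · exact hm.2 ⟨_, J.mul_mem_left 6 hη, by rw [hu']; simp [mul_assoc, map_ofNat]⟩
  · rw [ρ.injective (hc.symm.trans (map_ratCast ρ c).symm)]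
    simp
  · rintro _ ⟨j, h, rfl⟩
    change ρ (π (_ * σ j)) = _ * ρ (π (σ j))
    rw [← map_mul, hπ, hπ, map_mul]
  · replace h' : σ j = _ := h'
    rw [← sub_add_cancel z (σ ν), ← h', ← map_add] at h0
    have h1 : algebraMap _ k (j + ν) = 0 := by
      simpa using (map_eq_zero ρ).1 ((congrArg ρ (hπ _)).symm.trans h0)
    rw [eq_neg_of_add_eq_zero_right ((map_eq_zero_iff _ RingOfIntegers.coe_injective).1 h1)]
    exact J.neg_mem h
  · exact hm.2 ⟨_, J.mul_mem_left 3 hη, by rw [hu']; simp [map_ofNat]; ring⟩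
  · exact RingOfIntegers.coe_injective (σ.injective h') ▸ h

end Pool.Agent.P.MP_29cb78_nt.E
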