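import Pool.Agent.P.MP_29cb78_nt.E.KIface

namespace Pool.Agent.P.MP_29cb78_nt.E

open Filter Topology MeasureTheory Set
open scoped Real

namespace KSingle

theorem exp_cpow (y : ℝ) (z : ℂ) : ((Real.exp y : ℝ) : ℂ) ^ z = Complex.exp (y * z) := by
  rw [Complex.cpow_def_of_ne_zero (Complex.ofReal_ne_zero.2 (Real.exp_pos y).ne'),
    ← Complex.ofReal_log (Real.exp_pos y).le, Real.log_exp]

theorem one (β : ℝ) {z : ℂ} (hz : 0 < z.re) :
    Integrable (fun p : ℝ => (Real.exp (-Real.exp (β + 2 * p)) : ℂ) * Complex.exp (2 * z * p)) ∧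
      ∫ p : ℝ, (Real.exp (-Real.exp (β + 2 * p)) : ℂ) * Complex.exp (2 * z * p) =
        1 / 2 * Complex.exp (-(β * z)) * Complex.Gamma z := by
  have h1 : ∀ p ∈ (univ : Set ℝ), HasDerivWithinAt (fun p => Real.exp (β + 2 * p))
      (Real.exp (β + 2 * p) * 2) univ p := fun p _ => by
    simpa using (((hasDerivAt_id p).const_mul 2).const_add β).exp
  have h2 : InjOn (fun p => Real.exp (β + 2 * p)) univ := fun a _ b _ h => by
    have := Real.exp_injective h
    linarith
  have h3 : (fun p => Real.exp (β + 2 * p)) '' univ = Ioi 0 := by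
    ext u
    refine ⟨fun ⟨p, _, h⟩ => h ▸ Real.exp_pos _, fun h => ⟨(Real.log u - β) / 2, trivial, ?_⟩⟩
    rw [← Real.exp_log h, Real.log_exp]
    exact congrArg Real.exp (by ring)
  have h4 : ∀ p : ℝ, (Real.exp (-Real.exp (β + 2 * p)) : ℂ) * Complex.exp (2 * z * p) =
      1 / 2 * Complex.exp (-(β * z)) * (|Real.exp (β + 2 * p) * 2| •
        ((Real.exp (-Real.exp (β + 2 * p)) : ℂ) * (Real.exp (β + 2 * p) : ℂ) ^ (z - 1))) := by
    intro p
    have : Complex.exp (2 * z * p) = Complex.exp (-(β * z)) * Complex.exp (β + 2 * p : ℝ) *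
        Complex.exp ((β + 2 * p : ℝ) * (z - 1)) := by
      rw [← Complex.exp_add, ← Complex.exp_add]
      exact congrArg Complex.exp (by push_cast; ring)
    rw [abs_of_pos (by positivity), exp_cpow, this, Complex.real_smul, Complex.ofReal_mul,
      Complex.ofReal_exp (β + 2 * p)]
    push_cast
    ring
  simp only [h4]
  constructor
  · refine Integrable.const_mul (integrableOn_univ.1 ?_) _
    exact (integrableOn_image_iff_integrableOn_abs_deriv_smul MeasurableSet.univ h1 h2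
      fun u => (Real.exp (-u) : ℂ) * (u : ℂ) ^ (z - 1)).1 (h3 ▸ Complex.GammaIntegral_convergent hz)
  · rw [integral_const_mul, Complex.Gamma_eq_integral hz, Complex.GammaIntegral, ← h3,
      integral_image_eq_integral_abs_deriv_smul MeasurableSet.univ h1 h2, Measure.restrict_univ]

theorem two {A B : ℝ → ℂ} (hA : Integrable A) (hB : Integrable B) {L : ℝ} (hL : 0 < L) :
    Integrable (fun p : ℝ × ℝ => B p.1 * A (p.1 + p.2 * L)) ∧
      L * ∫ p : ℝ × ℝ, B p.1 * A (p.1 + p.2 * L) = (∫ p, B p) * ∫ p, A p := by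
  have h1 : MeasurePreserving (fun p : ℝ × ℝ => (p.1, p.1 / L + p.2)) (volume.prod volume)
      (volume.prod volume) :=
    (MeasurePreserving.id volume).skew_product (g := fun r c => r / L + c) (by fun_prop)
      (Eventually.of_forall fun r => map_add_left_eq_self volume (r / L))
  have h2 : Integrable (fun p : ℝ × ℝ => B p.1 * A (p.1 + p.2 * L)) (volume.prod volume) := by
    refine (h1.integrable_comp_of_integrable (hB.mul_prod (hA.comp_mul_right' hL.ne'))).congr
      (Eventually.of_forall fun p => ?_)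
    simp only [Function.comp_apply, add_mul, div_mul_cancel₀ _ hL.ne']
  refine ⟨h2, ?_⟩
  have h3 : ∀ r : ℝ, ∫ c : ℝ, B r * A (r + c * L) = B r * ((L : ℂ)⁻¹ * ∫ p, A p) := fun r => by
    rw [integral_const_mul, Measure.integral_comp_mul_right (fun y => A (r + y)),
      integral_add_left_eq_self, abs_of_pos (inv_pos.2 hL), Complex.real_smul, Complex.ofReal_inv]
  have h4 : (L : ℂ) ≠ 0 := Complex.ofReal_ne_zero.2 hL.ne'
  rw [Measure.volume_eq_prod, integral_prod _ h2]
  simp only [h3]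
  rw [integral_mul_const]
  field_simp

theorem main (j : ℕ) {L : ℝ} (hL : 0 < L) (s : ℂ) (R X : ℝ) (hs : 0 < s.re) (hR : R ≠ 0)
    (hX : 0 < X) :
    Integrable (fun p : ℝ × ℝ => (term j L R X p : ℂ) * Complex.exp (s * NN L p)) ∧
    L * ∫ p : ℝ × ℝ, (term j L R X p : ℂ) * Complex.exp (s * NN L p) =
      ((R / |R| : ℝ) : ℂ) ^ j * gamj j s * ((|R| * X ^ 2 : ℝ) : ℂ) ^ (-s) := by
  obtain ⟨a, ha⟩ : ∃ a, Real.exp a = |R| := ⟨_, Real.exp_log (abs_pos.2 hR)⟩
  obtain ⟨b, rfl⟩ : ∃ b, Real.exp b = X := ⟨_, Real.exp_log hX⟩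
  obtain ⟨c, hc⟩ : ∃ c, Real.exp c = π := ⟨_, Real.exp_log Real.pi_pos⟩
  have hz : 0 < ((s + j) / 2).re := by
    rw [Complex.div_ofNat_re, Complex.add_re, Complex.natCast_re]
    positivity
  obtain ⟨a1, a2⟩ := one (c + 2 * a) hz
  obtain ⟨b1, b2⟩ := one (c + 2 * b) hs
  obtain ⟨c1, c2⟩ := two (a1.const_mul ((R : ℂ) ^ j)) b1 hL
  have e1 : ∀ p y : ℝ, Real.exp (c + 2 * y + 2 * p) = π * Real.exp p ^ 2 * Real.exp y ^ 2 :=
    fun p y => by
      rw [← hc, ← Real.exp_nat_mul, ← Real.exp_nat_mul, ← Real.exp_add, ← Real.exp_add]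
      exact congrArg Real.exp (by push_cast; ring)
  have e2 : ∀ p : ℝ × ℝ, (term j L R (Real.exp b) p : ℂ) * Complex.exp (s * NN L p) =
      (Real.exp (-Real.exp (c + 2 * b + 2 * p.1)) : ℂ) * Complex.exp (2 * s * p.1) *
        ((R : ℂ) ^ j * ((Real.exp (-Real.exp (c + 2 * a + 2 * (p.1 + p.2 * L))) : ℂ) *
          Complex.exp (2 * ((s + j) / 2) * (p.1 + p.2 * L : ℝ)))) := fun p => by
    have k : Complex.exp (2 * s * p.1) * Complex.exp (2 * ((s + j) / 2) * (p.1 + p.2 * L : ℝ)) =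
        Complex.exp (p.1 + p.2 * L : ℝ) ^ j * Complex.exp (s * NN L p) := by
      rw [← Complex.exp_nat_mul, ← Complex.exp_add, ← Complex.exp_add, NN]
      exact congrArg Complex.exp (by push_cast; ring)
    rw [e1, e1, ha, sq_abs, term, mul_pow, mul_pow, neg_mul, neg_mul, neg_mul, ← mul_assoc π,
      Complex.ofReal_mul, Complex.ofReal_mul, Complex.ofReal_mul, Complex.ofReal_pow,
      Complex.ofReal_pow, Complex.ofReal_exp (p.1 + p.2 * L)]
    linear_combination -((R : ℂ) ^ j * (Real.exp (-(π * Real.exp p.1 ^ 2 * Real.exp b ^ 2)) : ℂ) *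
      (Real.exp (-(π * Real.exp (p.1 + p.2 * L) ^ 2 * R ^ 2)) : ℂ)) * k
  simp only [e2]
  refine ⟨c1, ?_⟩
  have k : Complex.exp (-((c + 2 * b : ℝ) * s)) * Complex.exp (-((c + 2 * a : ℝ) * ((s + j) / 2))) *
      Complex.exp a ^ j = Complex.exp (c * (-(3 * s + j) / 2)) *
        Complex.exp ((a + (2 : ℕ) * b : ℝ) * -s) := by
    rw [← Complex.exp_nat_mul, ← Complex.exp_add, ← Complex.exp_add, ← Complex.exp_add]
    exact congrArg Complex.exp (by push_cast; ring)
  rw [c2, integral_const_mul, a2, b2, gamj, ← ha, ← hc, ← Real.exp_nat_mul, ← Real.exp_add,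
    exp_cpow, exp_cpow, Complex.ofReal_div, Complex.ofReal_exp, div_pow, div_mul_eq_mul_div,
    div_mul_eq_mul_div ((R : ℂ) ^ j), div_mul_eq_mul_div ((R : ℂ) ^ j * _),
    eq_div_iff (pow_ne_zero j (Complex.exp_ne_zero a))]
  linear_combination (1 / 4 * Complex.Gamma s * Complex.Gamma ((s + j) / 2) * (R : ℂ) ^ j) * k

end KSingle

theorem k_single : K_SINGLE := fun j L hL => ⟨KSingle.main j hL, fun σ hσ => by
  refine ⟨L⁻¹ * (1 / 4 * π ^ (-(3 * σ + j) / 2) * Real.Gamma ((σ + j) / 2) * Real.Gamma σ), ?_,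
    fun R X hR hX => ?_⟩
  · have := Real.Gamma_pos_of_pos hσ
    have := Real.Gamma_pos_of_pos (show 0 < (σ + j) / 2 by positivity)
    positivity
  have h1 := (KSingle.main j hL σ |R| X hσ (abs_ne_zero.2 hR) hX).2
  have h2 : ∀ p : ℝ × ℝ, (term j L |R| X p : ℂ) * Complex.exp (σ * NN L p) =
      ((|term j L R X p| * Real.exp (σ * NN L p) : ℝ) : ℂ) := fun p => by
    rw [term, term, abs_mul, abs_mul, abs_pow, abs_mul, Real.abs_exp, Real.abs_exp, Real.abs_exp,
      mul_pow _ |R| 2, sq_abs, ← mul_pow]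
    push_cast
    rfl
  simp only [h2] at h1
  rw [integral_complex_ofReal, abs_abs, div_self (abs_ne_zero.2 hR), Complex.ofReal_one, one_pow,
    one_mul, gamj, ← Complex.ofReal_neg, ← Complex.ofReal_cpow (by positivity),
    Complex.Gamma_ofReal, show ((σ : ℂ) + j) / 2 = ((σ + j) / 2 : ℝ) by push_cast; rfl,
    Complex.Gamma_ofReal, show -(3 * (σ : ℂ) + j) / 2 = (-(3 * σ + j) / 2 : ℝ) by push_cast; rfl,
    ← Complex.ofReal_cpow Real.pi_pos.le] at h1
  rw [mul_assoc, eq_inv_mul_iff_mul_eq₀ hL.ne']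
  refine Complex.ofReal_injective ?_
  rw [Complex.ofReal_mul, h1]
  push_cast
  rfl⟩

end Pool.Agent.P.MP_29cb78_nt.E
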