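import Pool.Agent.P.MP_29cb78_nt.E.KIface

/-!
Bounds for the theta series.
-/

namespace Pool.Agent.P.MP_29cb78_nt.E

open Filter Topology MeasureTheory Set
open scoped Classical Real

namespace KThb

lemma pow_le {j : ℕ} (hj : j ≤ 1) (y : ℝ) : |y| ^ j ≤ Real.exp (π / 2 * y ^ 2) := by
  have h1 := Real.add_one_le_exp (π / 2 * y ^ 2)
  have h2 : 3 / 2 * y ^ 2 ≤ π / 2 * y ^ 2 := by
    have := Real.pi_gt_three
    gcongr
  have h3 := sq_abs y
  rcases Nat.le_one_iff_eq_zero_or_eq_one.1 hj with rfl | rfl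
  · rw [pow_zero]
    nlinarith [sq_nonneg y]
  · rw [pow_one]
    nlinarith [sq_nonneg (|y| - 1)]

lemma term_le {j : ℕ} (hj : j ≤ 1) {L R X c N m : ℝ} (p : ℝ × ℝ) (h0 : 0 ≤ m) (h1 : m ≤ 1)
    (h2 : m ≤ Real.exp (p.2 * L) ^ 2) (h : c * N ≤ R ^ 2 + X ^ 2) :
    |term j L R X p| ≤ Real.exp (-(π / 2 * m * c) * Real.exp p.1 ^ 2 * N) := by
  rw [term, abs_mul, abs_mul, abs_pow, Real.abs_exp, Real.abs_exp]
  refine (mul_le_mul_of_nonneg_right (mul_le_mul_of_nonneg_right (pow_le hj _)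
    (Real.exp_pos _).le) (Real.exp_pos _).le).trans ?_
  rw [← Real.exp_add, ← Real.exp_add, Real.exp_le_exp, Real.exp_add]
  have a0 : 0 ≤ π / 2 * Real.exp p.1 ^ 2 := by positivity
  have a1 : m * (c * N) ≤ Real.exp (p.2 * L) ^ 2 * R ^ 2 + 2 * X ^ 2 := by
    have b1 := mul_le_mul_of_nonneg_left h h0
    have b2 := mul_le_mul_of_nonneg_right h2 (sq_nonneg R)
    have b3 := mul_le_mul_of_nonneg_right h1 (sq_nonneg X)
    nlinarith [sq_nonneg X]
  have := mul_le_mul_of_nonneg_left a1 a0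
  nlinarith

lemma int_abs : Integrable fun r : ℝ => Real.exp (-|r|) := by
  rw [← integrableOn_univ, ← Iic_union_Ioi (a := (0 : ℝ))]
  refine IntegrableOn.union ((integrableOn_exp_Iic 0).congr_fun (fun r hr => ?_) measurableSet_Iic)
    ((integrableOn_exp_neg_Ioi 0).congr_fun (fun r hr => ?_) measurableSet_Ioi)
  · simp only [abs_of_nonpos (mem_Iic.1 hr), neg_neg]
  · simp only [abs_of_pos (mem_Ioi.1 hr)]

lemma L_pos (D : Dat) : 0 < D.L := by
  have := Real.log_pos D.ρ_gt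
  rw [Dat.L]
  positivity

lemma small (h1 : K_ISO3) (h2 : K_LOW) (D : Dat) {j : ℕ} (hj : j ≤ 1) (K : ℕ) : ∃ C : ℝ, 0 ≤ C ∧
    ∀ p : ℝ × ℝ, p.1 < 0 → p.2 ∈ Ioc (0 : ℝ) 1 →
      |D.Th j p - D.sub j p| ≤ C * Real.exp p.1 ^ K := by
  have hL := L_pos D
  have hd := abs_pos.2 (h2.1 _ _ _ _ D.frm).1
  obtain ⟨C, hC⟩ := h1 (Real.exp D.L * ∑ i, (|D.r i| + ‖D.z i‖)) _ K hd
  refine ⟨|C|, abs_nonneg _, fun p hp hq => ?_⟩
  have u1 : 1 ≤ Real.exp (p.2 * D.L) := Real.one_le_exp (mul_nonneg hq.1.le hL.le)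
  have u2 : Real.exp (p.2 * D.L) ≤ Real.exp D.L :=
    Real.exp_le_exp.2 (mul_le_of_le_one_left hL.le hq.2)
  have hs : ∀ i, |D.r i| + ‖D.z i‖ ≤ ∑ i, (|D.r i| + ‖D.z i‖) := fun i =>
    Finset.single_le_sum (f := fun i => |D.r i| + ‖D.z i‖) (fun _ _ => by positivity)
      (Finset.mem_univ i)
  have hdet : det3 (fun i => Real.exp (p.2 * D.L) * D.r i) D.z =
      Real.exp (p.2 * D.L) * det3 D.r D.z := by
    simpa using h2.2.1 D.r D.z (Real.exp (p.2 * D.L)) 0
  have hlr : ∀ n, Real.exp p.1 * lr (fun i => Real.exp (p.2 * D.L) * D.r i) D.x n =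
      Real.exp (p.1 + p.2 * D.L) * D.R n := fun n => by
    simp only [lr, Dat.R, Real.exp_add, mul_assoc, ← Finset.mul_sum]
  obtain ⟨k0, k1, -⟩ := hC (Real.exp p.1) ⟨Real.exp_pos _, Real.exp_le_one_iff.2 hp.le⟩
    (fun i => Real.exp (p.2 * D.L) * D.r i) D.z D.x
    (fun i => by
      rw [abs_mul, Real.abs_exp]
      exact mul_le_mul u2 ((le_add_of_nonneg_right (norm_nonneg _)).trans (hs i)) (abs_nonneg _)
        (Real.exp_pos _).le)
    (fun i => ((le_add_of_nonneg_left (abs_nonneg _)).trans (hs i)).trans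
      (le_mul_of_one_le_left (Finset.sum_nonneg fun _ _ => by positivity) (u1.trans u2)))
    (by
      rw [hdet, abs_mul, Real.abs_exp]
      exact le_mul_of_one_le_left hd.le u1)
  simp only [hlr] at k0 k1
  refine le_trans ?_ (mul_le_mul_of_nonneg_right (le_abs_self C) (by positivity))
  rcases Nat.le_one_iff_eq_zero_or_eq_one.1 hj with rfl | rfl
  · have e : (Real.exp p.1 ^ 3 * |det3 (fun i => Real.exp (p.2 * D.L) * D.r i) D.z|)⁻¹ =
        |det3 D.r D.z|⁻¹ * Real.exp (-NN D.L p) := by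
      rw [hdet, abs_mul, Real.abs_exp, NN, Real.exp_neg, Real.exp_add, ← mul_inv,
        show (3 : ℝ) * p.1 = (3 : ℕ) * p.1 by norm_num, Real.exp_nat_mul]
      congr 1
      ring
    rw [e] at k0
    simpa only [Dat.Th, Dat.sub, term, pow_zero, one_mul, hp, and_self, if_true, Dat.S] using k0
  · simpa only [Dat.Th, Dat.sub, term, pow_one, one_ne_zero, false_and, if_false, sub_zero, Dat.S]
      using k1

end KThb

open KThb in
theorem k_thb (h1 : K_ISO3) (h2 : K_LOW) (h3 : K_GB) : K_THB := by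
  intro D j hj
  have hL := L_pos D
  obtain ⟨-, ⟨c, hc, hlow⟩, -⟩ := h2.1 _ _ _ _ D.frm
  have hG := h3 D.x (h2.2.2 _ _ D.S_ne)
  have hπ := Real.pi_pos
  have hsum : ∀ p, Summable fun n : Z3 => term j D.L (D.R n) ‖D.S n‖ p := fun p => by
    have hm : 0 < min 1 (Real.exp (p.2 * D.L) ^ 2) := lt_min one_pos (by positivity)
    exact Summable.of_norm_bounded ((hG _ (by positivity)).1 _ (Real.exp_pos p.1)) fun n =>
      term_le hj p hm.le (min_le_left _ _) (min_le_right _ _) (hlow D.x n)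
  refine ⟨hsum, fun σ => ?_⟩
  obtain ⟨hG1, C₂, c', hc', hG2⟩ := hG (π / 2 * 1 * c) (by positivity)
  obtain ⟨K, hK⟩ := exists_nat_ge (1 - 3 * σ)
  obtain ⟨C₁, hC₁, hS⟩ := small h1 h2 D hj K
  have hmeas : Measurable fun p => (D.Th j p - D.sub j p) * Real.exp (σ * NN D.L p) := by
    have a1 : Measurable (D.Th j) := by
      unfold Dat.Th term
      fun_prop
    have a2 : Measurable (NN D.L) := by
      unfold NN
      fun_prop
    have a3 : Measurable (D.sub j) :=
      Measurable.ite (by measurability) (by fun_prop) measurable_const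
    fun_prop
  refine Integrable.mono' (((int_abs.const_mul ((C₁ + |C₂| *
    Real.exp ((3 * σ + 1) ^ 2 / (4 * c'))) * Real.exp (|σ| * D.L))).comp_fst _))
    hmeas.aestronglyMeasurable ?_
  filter_upwards [Measure.quasiMeasurePreserving_snd.ae (ae_restrict_mem measurableSet_Ioc)]
    with p hp
  have e1 : Real.exp (σ * NN D.L p) ≤ Real.exp (|σ| * D.L) * Real.exp (3 * σ * p.1) := by
    rw [← Real.exp_add, Real.exp_le_exp, NN]
    have a1 : σ * p.2 ≤ |σ| := (mul_le_mul_of_nonneg_right (le_abs_self σ) hp.1.le).trans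
      (mul_le_of_le_one_right (abs_nonneg σ) hp.2)
    nlinarith [mul_le_mul_of_nonneg_right a1 hL.le]
  have key : |D.Th j p - D.sub j p| * Real.exp (3 * σ * p.1) ≤
      (C₁ + |C₂| * Real.exp ((3 * σ + 1) ^ 2 / (4 * c'))) * Real.exp (-|p.1|) := by
    rcases lt_or_ge p.1 0 with hr | hr
    · refine (mul_le_mul_of_nonneg_right (hS p hr hp) (Real.exp_pos _).le).trans ?_
      rw [mul_assoc, ← Real.exp_nat_mul, ← Real.exp_add, abs_of_neg hr, neg_neg]
      refine mul_le_mul (le_add_of_nonneg_right (by positivity)) (Real.exp_le_exp.2 ?_)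
        (Real.exp_pos _).le (by positivity)
      nlinarith
    · have t1 : 1 ≤ Real.exp p.1 := Real.one_le_exp hr
      have a1 : |D.Th j p - D.sub j p| ≤ |C₂| * Real.exp (-c' * Real.exp p.1 ^ 2) := by
        rw [Dat.sub, if_neg fun h => hr.not_gt h.2, sub_zero]
        refine le_trans (tsum_of_norm_bounded (f := fun n => term j D.L (D.R n) ‖D.S n‖ p)
          (hG1 _ (Real.exp_pos p.1)).hasSum fun n =>
          term_le hj p zero_le_one le_rfl (one_le_pow₀ (Real.one_le_exp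
            (mul_nonneg hp.1.le hL.le))) (hlow D.x n)) ((hG2 _ t1).trans ?_)
        exact mul_le_mul_of_nonneg_right (le_abs_self _) (Real.exp_pos _).le
      refine (mul_le_mul_of_nonneg_right a1 (Real.exp_pos _).le).trans ?_
      refine le_trans ?_ (mul_le_mul_of_nonneg_right (le_add_of_nonneg_left hC₁)
        (Real.exp_pos _).le)
      rw [mul_assoc |C₂|, mul_assoc |C₂|, ← Real.exp_add, ← Real.exp_add, abs_of_nonneg hr]
      refine mul_le_mul_of_nonneg_left (Real.exp_le_exp.2 ?_) (abs_nonneg _)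
      have a2 : p.1 ^ 2 ≤ Real.exp p.1 ^ 2 :=
        pow_le_pow_left₀ hr (by linarith [Real.add_one_le_exp p.1]) 2
      have a3 : (3 * σ + 1) * p.1 - c' * p.1 ^ 2 ≤ (3 * σ + 1) ^ 2 / (4 * c') := by
        rw [le_div_iff₀ (by positivity)]
        nlinarith [sq_nonneg (3 * σ + 1 - 2 * c' * p.1)]
      nlinarith [mul_le_mul_of_nonneg_left a2 hc'.le]
  rw [Real.norm_eq_abs, abs_mul, Real.abs_exp]
  calc _ ≤ |D.Th j p - D.sub j p| * (Real.exp (|σ| * D.L) * Real.exp (3 * σ * p.1)) :=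
        mul_le_mul_of_nonneg_left e1 (abs_nonneg _)
    _ = Real.exp (|σ| * D.L) * (|D.Th j p - D.sub j p| * Real.exp (3 * σ * p.1)) := by ring
    _ ≤ _ := mul_le_mul_of_nonneg_left key (Real.exp_pos _).le
    _ = _ := by ring

end Pool.Agent.P.MP_29cb78_nt.E
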