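import Pool.Agent.P.MP_29cb78_nt.E.KIface

/-! The sum over the rows. -/

namespace Pool.Agent.P.MP_29cb78_nt.E

open Filter Topology MeasureTheory Set
open scoped Classical Real

namespace KU1

theorem rows {ι κ : Type} {w : ι → ℝ} {G : ι → κ → ℝ} {B η : ℝ} (hw : Summable w)
    (h0 : ∀ i p, 0 ≤ G i p) (hG : ∀ i, Summable (G i)) (hB : ∀ i, |∑' p, G i p - B| ≤ η) :
    |∑' q : ι × κ, w q.1 * G q.1 q.2| ≤ |B| * |∑' i, w i| + η * ∑' i, |w i| := by
  have h1 : Summable fun q : ι × κ => |w q.1| * G q.1 q.2 := by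
    refine (summable_prod_of_nonneg fun q => mul_nonneg (abs_nonneg _) (h0 _ _)).2
      ⟨fun i => (hG i).mul_left |w i|, ?_⟩
    refine Summable.of_nonneg_of_le
      (fun i => tsum_nonneg fun p => mul_nonneg (abs_nonneg _) (h0 _ _)) (fun i => ?_)
      (hw.abs.mul_right (B + η))
    simp only [tsum_mul_left]
    exact mul_le_mul_of_nonneg_left (by linarith [(abs_le.1 (hB i)).2]) (abs_nonneg _)
  have h2 : Summable fun q : ι × κ => w q.1 * G q.1 q.2 :=
    Summable.of_abs (by simpa only [abs_mul, fun i p => abs_of_nonneg (h0 i p)] using h1)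
  have h3 : ∀ i, ‖w i * (∑' p, G i p - B)‖ ≤ η * |w i| := fun i => by
    rw [Real.norm_eq_abs, abs_mul, mul_comm]
    exact mul_le_mul_of_nonneg_right (hB i) (abs_nonneg _)
  have h4 : Summable fun i => w i * (∑' p, G i p - B) :=
    Summable.of_norm_bounded (hw.abs.mul_left η) h3
  have h5 := tsum_of_norm_bounded (hw.abs.mul_left η).hasSum h3
  rw [tsum_mul_left, Real.norm_eq_abs] at h5
  have h6 : ∑' q : ι × κ, w q.1 * G q.1 q.2 =
      B * ∑' i, w i + ∑' i, w i * (∑' p, G i p - B) := by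
    rw [h2.tsum_prod, ← tsum_mul_left, ← (hw.mul_left B).tsum_add h4]
    refine tsum_congr fun i => ?_
    simp only [tsum_mul_left]
    ring
  rw [h6]
  refine (abs_add_le _ _).trans ?_
  rw [abs_mul]
  linarith

/-- Coordinates. -/
def eq3 : ℤ × ℤ × ℤ ≃ Z3 where
  toFun q := ![q.1, q.2.1, q.2.2]
  invFun n := (n 0, n 1, n 2)
  left_inv _ := rfl
  right_inv n := by funext i; fin_cases i <;> rfl

end KU1

theorem k_u1 (h1 : K_ISO2) (h2 : K_ROW) : K_U1 := by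
  intro D J _ c θ hF κ hκ
  obtain ⟨A, C, hA⟩ := h1 (D.z 1) (D.z 2) 2 D.frm.im_ne
  choose K hK using fun j => h2 (D.x 0) (θ j) κ 3 hκ (hF.half j)
  refine ⟨(|A| + C) * ∑ j, |c j| * K j, fun t ht => ?_⟩
  have t0 := ht.1
  have s1 : ∀ j, Summable fun i : ℤ => c j * (hs (D.x 0 + i - θ j) - Er (κ * t * (D.x 0 + i))) :=
    fun j => (hK j t ht).1.mul_left _
  have e : ∀ q : ℤ × ℤ × ℤ, D.S (KU1.eq3 q) =
      D.S ![q.1, 0, 0] + q.2.1 * D.z 1 + q.2.2 * D.z 2 := fun q => by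
    show D.S ![q.1, q.2.1, q.2.2] = _
    simp [Dat.S, lc, Fin.sum_univ_three]
    ring
  have h3 := KU1.rows (summable_sum (s := Finset.univ) fun j _ => s1 j)
    (G := fun (i : ℤ) (p : ℤ × ℤ) => Real.exp (-π * t ^ 2 * ‖D.S ![i, 0, 0] + p.1 * D.z 1 + p.2 * D.z 2‖ ^ 2))
    (fun _ _ => (Real.exp_pos _).le) (fun i => (hA t ht (D.S ![i, 0, 0])).1)
    fun i => (hA t ht (D.S ![i, 0, 0])).2
  have h4 : |∑' i : ℤ, ∑ j, c j * (hs (D.x 0 + i - θ j) - Er (κ * t * (D.x 0 + i)))| ≤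
      (∑ j, |c j| * K j) * t ^ 3 := by
    rw [Summable.tsum_finsetSum fun j _ => s1 j, ← add_zero (∑ j, _), ← hF.mom,
      ← Finset.sum_add_distrib, Finset.sum_mul]
    refine (Finset.abs_sum_le_sum_abs _ _).trans (Finset.sum_le_sum fun j _ => ?_)
    rw [tsum_mul_left, ← mul_add, abs_mul, mul_assoc]
    exact mul_le_mul_of_nonneg_left (hK j t ht).2.2 (abs_nonneg _)
  have h5 : ∑' i : ℤ, |∑ j, c j * (hs (D.x 0 + i - θ j) - Er (κ * t * (D.x 0 + i)))| ≤
      (∑ j, |c j| * K j) / t := by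
    refine ((summable_sum (s := Finset.univ) fun j _ => s1 j).abs.tsum_le_tsum
      (fun i => Finset.abs_sum_le_sum_abs _ _)
      (summable_sum fun j _ => (s1 j).abs)).trans ?_
    rw [Summable.tsum_finsetSum fun j _ => (s1 j).abs, Finset.sum_div]
    refine Finset.sum_le_sum fun j _ => ?_
    simp only [abs_mul, tsum_mul_left]
    rw [mul_div_assoc]
    exact mul_le_mul_of_nonneg_left (hK j t ht).2.1 (abs_nonneg _)
  have h6 : 0 ≤ C * t ^ 2 := (abs_nonneg _).trans (hA t ht 0).2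
  have ea : ∀ q : ℤ × ℤ × ℤ, D.a (KU1.eq3 q) = D.x 0 + q.1 := fun _ => rfl
  rw [← KU1.eq3.tsum_eq]
  simp only [Dat.g, e, ea]
  refine h3.trans ((add_le_add (mul_le_mul_of_nonneg_left h4 (abs_nonneg _))
    (mul_le_mul_of_nonneg_left h5 h6)).trans_eq ?_)
  rw [abs_div, abs_of_pos (pow_pos t0 2)]
  field_simp

end Pool.Agent.P.MP_29cb78_nt.E
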