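import Pool.Agent.P.MP_29cb78_nt.E.KIface

/-! The change of the linear form in the error function. -/

namespace Pool.Agent.P.MP_29cb78_nt.E

open Filter Topology MeasureTheory Set
open scoped Classical Real

namespace KU2

lemma lr_eq (r : Fin 3 → ℝ) (z : Fin 3 → ℂ) (κ : ℝ) (w : ℂ) (x : Fin 3 → ℝ) (n : Z3) :
    lr (fun i => κ * (r i + (w * z i).re)) x n = κ * (lr r x n + (w * lc z x n).re) := by
  simp only [lr, lc, Fin.sum_univ_three, mul_add w, ← mul_assoc w, Complex.add_re,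
    Complex.re_mul_ofReal]
  ring

lemma ftc (h2 : K_ERF) (k R u : ℝ) :
    ∫ s in (0 : ℝ)..1, k * u * Real.exp (-π * (k * (R + s * u)) ^ 2) =
      Er (k * (R + u)) - Er (k * R) := by
  rw [intervalIntegral.integral_eq_sub_of_hasDerivAt (f := fun s => Er (k * (R + s * u)))
    (fun s _ => ?_) (Continuous.intervalIntegrable (by fun_prop) _ _)]
  · simp
  · have h : HasDerivAt (fun s : ℝ => k * (R + s * u)) (k * u) s := by
      simpa using (((hasDerivAt_id s).mul_const u).const_add R).const_mul k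
    exact ((h2.1 _).comp s h).congr_deriv (mul_comm _ _)

lemma one (y : ℝ) : y * Real.exp (-(π * y ^ 2 / 2)) ≤ 1 := by
  rw [Real.exp_neg, ← div_eq_mul_inv, div_le_one (Real.exp_pos _)]
  refine le_trans ?_ (Real.add_one_le_exp _)
  nlinarith [Real.pi_gt_three, sq_nonneg (y - 1), sq_nonneg y]

lemma bound {κ t W X R u s b N : ℝ} (hκ : 0 < κ) (ht : 0 < t) (hW : 0 ≤ W) (hX : 0 ≤ X)
    (hu : |u| ≤ W * X) (hs : s ∈ Icc (0 : ℝ) 1) (hb0 : 0 ≤ b) (hb1 : 2 * b ≤ κ ^ 2)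
    (hb2 : b * (2 * W ^ 2 + 1) ≤ 1 / 2) (hN : N ≤ R ^ 2 + X ^ 2) :
    |κ * (t * u * Real.exp (-π * (t * (κ * (R + s * u))) ^ 2) * Real.exp (-π * t ^ 2 * X ^ 2))| ≤
      κ * W * Real.exp (-(π * t ^ 2 * (b * N))) := by
  have h1 : (s * u) ^ 2 ≤ (W * X) ^ 2 := by
    rw [sq_le_sq, abs_mul, abs_of_nonneg hs.1, abs_of_nonneg (mul_nonneg hW hX)]
    exact (mul_le_of_le_one_left (abs_nonneg _) hs.2).trans hu
  have h2 : R ^ 2 ≤ 2 * (R + s * u) ^ 2 + 2 * (W * X) ^ 2 := by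
    nlinarith [sq_nonneg (R + 2 * (s * u))]
  have h3 : b * N ≤ κ ^ 2 * (R + s * u) ^ 2 + X ^ 2 / 2 := by
    have a1 := mul_le_mul_of_nonneg_left (hN.trans (add_le_add h2 le_rfl)) hb0
    have a2 := mul_le_mul_of_nonneg_right hb1 (sq_nonneg (R + s * u))
    have a3 := mul_le_mul_of_nonneg_right hb2 (sq_nonneg X)
    nlinarith
  have h4 : Real.exp (-π * (t * (κ * (R + s * u))) ^ 2) * Real.exp (-π * t ^ 2 * X ^ 2) ≤
      Real.exp (-(π * (t * X) ^ 2 / 2)) * Real.exp (-(π * t ^ 2 * (b * N))) := by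
    rw [← Real.exp_add, ← Real.exp_add, Real.exp_le_exp]
    have := mul_le_mul_of_nonneg_left h3 (show 0 ≤ π * t ^ 2 by positivity)
    nlinarith
  rw [mul_assoc (t * u), abs_mul, abs_mul, abs_mul, abs_of_pos hκ, abs_of_pos ht,
    abs_of_pos (a := Real.exp _ * Real.exp _) (by positivity), mul_assoc κ]
  refine mul_le_mul_of_nonneg_left ?_ hκ.le
  refine (mul_le_mul (mul_le_mul_of_nonneg_left hu ht.le) h4 (by positivity)
    (by positivity)).trans ?_
  have := mul_le_mul_of_nonneg_left (one (t * X))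
    (show 0 ≤ W * Real.exp (-(π * t ^ 2 * (b * N))) by positivity)
  nlinarith

end KU2

open KU2 in
theorem k_u2 (h1 : K_ISO3) (h2 : K_ERF) (h3 : K_LOW) (h4 : K_GB) : K_U2 := by
  intro D κ hκ
  obtain ⟨hdet, ⟨c, hc, hlow⟩, hform⟩ := h3.1 D.r D.z D.α D.w D.frm
  have hα := D.frm.α_pos
  set w' : ℂ := ((D.α⁻¹ : ℝ) : ℂ) * D.w with hw'
  let u : Z3 → ℝ := fun n => (w' * D.S n).re
  have hu : ∀ n, κ / D.α * D.a n = κ * (D.R n + u n) := fun n => by
    simp only [u, hw', mul_assoc, Complex.re_ofReal_mul, Dat.a, Dat.R, Dat.S, ← hform D.x n]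
    field_simp
  have hu' : ∀ n, |u n| ≤ ‖w'‖ * ‖D.S n‖ := fun n =>
    (Complex.abs_re_le_norm _).trans (norm_mul_le _ _)
  set M : ℝ := ∑ i, (κ * (|D.r i| + ‖w'‖ * ‖D.z i‖) + ‖D.z i‖) with hM
  have hM' : ∀ i, κ * (|D.r i| + ‖w'‖ * ‖D.z i‖) + ‖D.z i‖ ≤ M := fun i =>
    Finset.single_le_sum (f := fun i => κ * (|D.r i| + ‖w'‖ * ‖D.z i‖) + ‖D.z i‖)
      (fun i _ => by positivity) (Finset.mem_univ i)
  obtain ⟨C, hC⟩ := h1 M (κ * |det3 D.r D.z|) 1 (mul_pos hκ (abs_pos.2 hdet))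
  refine ⟨κ * (C * ‖w'‖), fun t ht => ?_⟩
  set b : ℝ := min (κ ^ 2 / 2) (1 / 2 / (2 * ‖w'‖ ^ 2 + 1)) with hb
  have hb0 : 0 < b := lt_min (by positivity) (by positivity)
  have hb1 : 2 * b ≤ κ ^ 2 := by linarith [min_le_left (κ ^ 2 / 2) (1 / 2 / (2 * ‖w'‖ ^ 2 + 1))]
  have hb2 : b * (2 * ‖w'‖ ^ 2 + 1) ≤ 1 / 2 := (le_div_iff₀ (by positivity)).1 (min_le_right _ _)
  let F : Z3 → ℝ → ℝ := fun n s => κ * (t * u n *
    Real.exp (-π * (t * (κ * (D.R n + s * u n))) ^ 2) * Real.exp (-π * t ^ 2 * ‖D.S n‖ ^ 2))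
  have hsum : Summable fun n : Z3 => κ * ‖w'‖ * Real.exp (-(π * t ^ 2 * (b * (c * nrm D.x n)))) := by
    refine ((h4 D.x (h3.2.2 D.z D.x D.S_ne) (π * b * c) (by positivity)).1 t ht.1).mul_left
      (κ * ‖w'‖) |>.congr fun n => ?_
    congr 2
    ring
  have hbd : ∀ n, ∀ s ∈ Icc (0 : ℝ) 1, ‖F n s‖ ≤
      κ * ‖w'‖ * Real.exp (-(π * t ^ 2 * (b * (c * nrm D.x n)))) := fun n s hs =>
    bound hκ ht.1 (norm_nonneg _) (norm_nonneg _) (hu' n) hs hb0.le hb1 hb2 (hlow D.x n)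
  have hI : ∀ s ∈ uIoc (0 : ℝ) 1, s ∈ Icc (0 : ℝ) 1 := fun s hs => by
    rw [uIoc_of_le zero_le_one] at hs
    exact Ioc_subset_Icc_self hs
  have hS := intervalIntegral.hasSum_integral_of_dominated_convergence (μ := volume) (a := 0)
    (b := 1) (F := F) (f := fun s => ∑' n, F n s)
    (fun n _ => κ * ‖w'‖ * Real.exp (-(π * t ^ 2 * (b * (c * nrm D.x n)))))
    (fun n => Continuous.aestronglyMeasurable (by fun_prop))
    (fun n => Eventually.of_forall fun s hs => hbd n s (hI s hs))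
    (Eventually.of_forall fun _ _ => hsum) intervalIntegrable_const
    (Eventually.of_forall fun s hs =>
      (Summable.of_norm_bounded hsum fun n => hbd n s (hI s hs)).hasSum)
  have e : ∀ n, (Er (κ / D.α * t * D.a n) - Er (κ * t * D.R n)) * D.g t n =
      ∫ s in (0 : ℝ)..1, F n s := fun n => by
    rw [mul_right_comm (κ / D.α), hu, show κ * (D.R n + u n) * t = κ * t * (D.R n + u n) by ring,
      ← ftc h2, ← intervalIntegral.integral_mul_const]
    refine intervalIntegral.integral_congr fun s _ => ?_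
    simp only [F, Dat.g]
    rw [show κ * t * (D.R n + s * u n) = t * (κ * (D.R n + s * u n)) by ring]
    ring
  simp only [e]
  rw [hS.tsum_eq]
  rw [← Real.norm_eq_abs]
  refine (intervalIntegral.norm_integral_le_of_norm_le_const (C := κ * (C * ‖w'‖) * t)
    fun s hs => ?_).trans (by rw [sub_zero, abs_one, mul_one])
  obtain ⟨s0, s1⟩ := hI s hs
  have h5 := (hC t ht (fun i => κ * (D.r i + ((s : ℂ) * w' * D.z i).re)) D.z D.x (fun i => ?_)
    (fun i => ?_) (by rw [h3.2.1, abs_mul, abs_of_pos hκ])).2.2 w'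
  · simp only [lr_eq] at h5
    simp only [mul_assoc (s : ℂ), Complex.re_ofReal_mul, pow_one] at h5
    simp only [F]
    rw [tsum_mul_left, norm_mul, Real.norm_eq_abs, abs_of_pos hκ, mul_assoc κ]
    exact mul_le_mul_of_nonneg_left h5 hκ.le
  · refine le_trans ?_ ((le_add_of_nonneg_right (norm_nonneg _)).trans (hM' i))
    rw [abs_mul, abs_of_pos hκ]
    refine mul_le_mul_of_nonneg_left ((abs_add_le _ _).trans (add_le_add le_rfl ?_)) hκ.le
    rw [mul_assoc, Complex.re_ofReal_mul, abs_mul, abs_of_nonneg s0]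
    exact (mul_le_of_le_one_left (abs_nonneg _) s1).trans
      ((Complex.abs_re_le_norm _).trans (norm_mul_le _ _))
  · exact (le_add_of_nonneg_left (by positivity)).trans (hM' i)

end Pool.Agent.P.MP_29cb78_nt.E
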