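import Pool.Agent.P.MP_29cb78_nt.E.KIface

/-! Unfolding of the theta integral. -/

namespace Pool.Agent.P.MP_29cb78_nt.E

open Filter Topology MeasureTheory Set
open scoped Classical Real

noncomputable section

namespace KUnf

variable (D : Dat)

lemma ρ_pos : 0 < D.ρ := one_pos.trans D.ρ_gt

lemma pow_e (n : Z3) (k : ℤ) : D.R ((D.e ^ k) n) = D.ρ ^ k * D.R n ∧
    D.ρ ^ k * ‖D.S ((D.e ^ k) n)‖ ^ 2 = ‖D.S n‖ ^ 2 := by
  have h0 := (ρ_pos D).ne'
  induction k using Int.induction_on with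
  | zero => simp
  | succ k ih =>
    rw [add_comm, zpow_one_add, zpow_add₀ h0, zpow_one, Equiv.Perm.mul_apply]
    exact ⟨by rw [mul_assoc, ← ih.1]; exact D.R_e _, by
      rw [← ih.2, mul_comm D.ρ, mul_assoc]; exact congrArg _ (D.S_e _)⟩
  | pred k ih =>
    have e : (D.e ^ (-(k : ℤ))) n = D.e ((D.e ^ (-(k : ℤ) - 1)) n) := by
      rw [← Equiv.Perm.mul_apply, ← zpow_one_add]; congr 2; ring
    have h1 : D.R _ = D.ρ * D.R _ := D.R_e ((D.e ^ (-(k : ℤ) - 1)) n)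
    have h2 : D.ρ * ‖D.S _‖ ^ 2 = ‖D.S _‖ ^ 2 := D.S_e ((D.e ^ (-(k : ℤ) - 1)) n)
    rw [e] at ih
    rw [zpow_sub_one₀ h0, ← h2, ← ih.2, mul_comm _ D.ρ⁻¹, mul_assoc, ← ih.1, h1]
    constructor <;> field_simp

/-- The fundamental domain. -/
def F : Set Z3 := {n | 1 ≤ 1 * D.R n ∧ 1 * D.R n < D.ρ} ∪ {n | 1 ≤ -1 * D.R n ∧ -1 * D.R n < D.ρ}

lemma mem_F {n : Z3} : n ∈ F D ↔ 1 ≤ |D.R n| ∧ |D.R n| < D.ρ := by
  simp only [F, mem_union, mem_ofPred_eq]
  rcases abs_cases (D.R n) with h | h <;> rw [h.1] <;> constructor <;> intro c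
  · rcases c with c | c <;> constructor <;> linarith [c.1, c.2, h.2]
  · exact Or.inl (by simpa using c)
  · rcases c with c | c <;> constructor <;> linarith [c.1, c.2, h.2]
  · exact Or.inr (by simpa using c)

lemma bij : Function.Bijective fun x : F D × ℤ => (D.e ^ x.2) x.1.1 := by
  have h0 := ρ_pos D
  have ab : ∀ n (k : ℤ), |D.R ((D.e ^ k) n)| = D.ρ ^ k * |D.R n| := fun n k => by
    rw [(pow_e D n k).1, abs_mul, abs_of_pos (zpow_pos h0 k)]
  constructor
  · have lt : ∀ (n n' : F D) (k k' : ℤ), (D.e ^ k) n.1 = (D.e ^ k') n'.1 → k < k' + 1 :=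
      fun n n' k k' h => by
        have h1 := ab n.1 k
        rw [h, ab] at h1
        rw [← zpow_lt_zpow_iff_right₀ D.ρ_gt, zpow_add_one₀ h0.ne']
        have := mul_le_mul_of_nonneg_left ((mem_F D).1 n.2).1 (zpow_pos h0 k).le
        have := mul_lt_mul_of_pos_left ((mem_F D).1 n'.2).2 (zpow_pos h0 k')
        linarith
    rintro ⟨n, k⟩ ⟨n', k'⟩ h
    obtain rfl : k = k' := by
      have := lt _ _ _ _ h
      have := lt _ _ _ _ h.symm
      omega
    exact Prod.ext (Subtype.ext ((D.e ^ k).injective h)) rfl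
  · intro n
    obtain ⟨k, h1, h2⟩ := exists_mem_Ico_zpow (abs_pos.2 (D.R_ne n)) D.ρ_gt
    refine ⟨(⟨(D.e ^ (-k)) n, (mem_F D).2 ?_⟩, k), by simp⟩
    rw [ab, zpow_neg, inv_mul_lt_iff₀ (zpow_pos h0 k), le_inv_mul_iff₀ (zpow_pos h0 k), mul_one,
      ← zpow_add_one₀ h0.ne']
    exact ⟨h1, h2⟩

/-- One term of the integrand. -/
def f (j : ℕ) (s : ℂ) (n : Z3) (p : ℝ × ℝ) : ℂ :=
  (term j D.L (D.R n) ‖D.S n‖ p : ℂ) * Complex.exp (s * NN D.L p)

lemma f_e (j : ℕ) (s : ℂ) (n : Z3) (k : ℤ) (p : ℝ × ℝ) :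
    f D j s ((D.e ^ k) n) p = f D j s n (p.1 - k * (D.L / 3), p.2 + k) := by
  have h1 : D.ρ ^ k = Real.exp (k * Real.log D.ρ) := by
    rw [mul_comm, Real.exp_mul, Real.exp_log (ρ_pos D), Real.rpow_intCast]
  have e1 : Real.exp (p.1 + p.2 * D.L) * D.R ((D.e ^ k) n) =
      Real.exp (p.1 - k * (D.L / 3) + (p.2 + k) * D.L) * D.R n := by
    rw [(pow_e D n k).1, h1, ← mul_assoc, ← Real.exp_add, Dat.L]; congr 2; ring
  have e2 : -π * Real.exp p.1 ^ 2 * ‖D.S ((D.e ^ k) n)‖ ^ 2 =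
      -π * Real.exp (p.1 - k * (D.L / 3)) ^ 2 * ‖D.S n‖ ^ 2 := by
    rw [← (pow_e D n k).2, h1, ← mul_assoc, mul_assoc _ _ (Real.exp _), sq (Real.exp _),
      sq (Real.exp _), ← Real.exp_add, ← Real.exp_add, ← Real.exp_add, Dat.L]
    congr 3; ring
  have e3 : NN D.L p = NN D.L (p.1 - k * (D.L / 3), p.2 + k) := by unfold NN; ring
  simp only [f, term, e1, e2, ← e3]

lemma norm_f (j : ℕ) (s : ℂ) (n : Z3) (p : ℝ × ℝ) :
    ‖f D j s n p‖ = |term j D.L (D.R n) ‖D.S n‖ p| * Real.exp (s.re * NN D.L p) := by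
  simp [f, Complex.norm_exp]

end KUnf

open KUnf

theorem k_unf (h1 : K_SINGLE) (h2 : K_STRIP) (h3 : K_SUB) (h4 : K_THB) (_h5 : K_ENT) : K_UNF := by
  intro D j s hj hs
  have hL : 0 < D.L := mul_pos (by norm_num) (Real.log_pos D.ρ_gt)
  have s0 : 0 < s.re := one_pos.trans hs
  have R0 : ∀ n, D.R n ≠ 0 := D.R_ne
  have X0 : ∀ n, 0 < ‖D.S n‖ := fun n => norm_pos_iff.2 (D.S_ne n)
  have P0 : ∀ n, 0 < |D.R n| * ‖D.S n‖ ^ 2 := fun n =>
    mul_pos (abs_pos.2 (R0 n)) (pow_pos (X0 n) 2)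
  have i1 : ∀ j n, Integrable (f D j s n) := fun j n =>
    ((h1 j D.L hL).1 s _ _ s0 (R0 n) (X0 n)).1
  have i2 : ∀ j n, Integrable (f D j s n) μS := fun j n => by
    simpa using (h2 ℂ _ (D.L / 3) (i1 j n)).1 0
  set E := Equiv.ofBijective _ (bij D)
  have hn : ∀ j, ∃ c : ℝ, 0 < c ∧ ∀ n : F D, HasSum (fun k : ℤ => ∫ p, ‖f D j s (E (n, k)) p‖ ∂μS)
      (c * (|D.R n| * ‖D.S n‖ ^ 2) ^ (-s.re)) := fun j => by
    obtain ⟨c, c0, hc⟩ := (h1 j D.L hL).2 s.re s0
    refine ⟨c, c0, fun n => ?_⟩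
    have := (h2 ℝ _ (D.L / 3) (i1 j n).norm).2
    rw [← hc (D.R n) _ (R0 n) (X0 n)]
    simpa only [← f_e, ← norm_f, E, Equiv.ofBijective_apply] using this
  have sm : Summable fun n : F D => (|D.R n| * ‖D.S n‖ ^ 2) ^ (-s.re) := by
    obtain ⟨c, c0, hc⟩ := hn 0
    have i3 := ((h4 D 0 zero_le_one).2 s.re).add (h3 D 0 s hs).1.norm
    have : Summable fun n => ∫ p, ‖f D 0 s n p‖ ∂μS := by
      refine summable_of_sum_le (fun n => integral_nonneg fun p => norm_nonneg _) fun U =>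
        (integral_finsetSum _ fun n _ => (i2 0 n).norm).symm.trans_le
          (integral_mono (integrable_finsetSum _ fun n _ => (i2 0 n).norm) i3 fun p => ?_)
      have t0 : ∀ n, 0 ≤ term 0 D.L (D.R n) ‖D.S n‖ p := fun n => by unfold term; positivity
      have := ((h4 D 0 zero_le_one).1 p).sum_le_tsum U fun n _ => t0 n
      simp only [norm_f, abs_of_nonneg (t0 _), ← Finset.sum_mul, Pi.add_apply, norm_mul,
        Complex.norm_exp, Complex.norm_real, Complex.mul_re, Complex.ofReal_re, Complex.ofReal_im,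
        mul_zero, sub_zero, ← add_mul, Real.norm_eq_abs]
      exact mul_le_mul_of_nonneg_right (this.trans (by
        linarith [le_abs_self (D.sub 0 p), show ∑' n, term 0 D.L (D.R n) ‖D.S n‖ p = D.Th 0 p
          from rfl])) (Real.exp_pos _).le
    exact (summable_mul_left_iff c0.ne').1
      ((E.summable_iff.2 this).hasSum.prod_fiberwise hc).summable
  have sn : Summable fun n => ∫ p, ‖f D j s n p‖ ∂μS := by
    obtain ⟨c, c0, hc⟩ := hn j
    refine E.summable_iff.1 ((summable_prod_of_nonneg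
      fun x => integral_nonneg fun p => norm_nonneg _).2 ⟨fun n => (hc n).summable, ?_⟩)
    simpa only [Function.comp_def, fun n => (hc n).tsum_eq] using sm.mul_left c
  have H := ((E.hasSum_iff.2 (hasSum_integral_of_summable_integral_norm (i2 j) sn)).prod_fiberwise
    (g := fun n : F D => ∫ p, f D j s n p) fun n => by
      simpa only [← f_e, E, Equiv.ofBijective_apply, Function.comp_def] using
        (h2 ℂ _ (D.L / 3) (i1 j n)).2).mul_left (D.L : ℂ)
  set φ : Z3 → ℂ := fun n => ((D.R n / |D.R n| : ℝ) : ℂ) ^ j *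
    ((|D.R n| * ‖D.S n‖ ^ 2 : ℝ) : ℂ) ^ (-s) with hφ
  have e1 : ∀ n : F D, D.L * ∫ p, f D j s n p = gamj j s * φ n := fun n =>
    ((h1 j D.L hL).1 s _ _ s0 (R0 n) (X0 n)).2.trans (by simp only [hφ]; ring)
  have e2 : ∀ p, ∑' n, f D j s n p = (D.Th j p : ℂ) * Complex.exp (s * NN D.L p) := fun p => by
    simp only [f, tsum_mul_right, Dat.Th, Complex.ofReal_tsum]
  have sφ : Summable fun n : F D => φ n := by
    refine Summable.of_norm (sm.congr fun n => ?_)
    rw [hφ, norm_mul, norm_pow, Complex.norm_real, norm_div, Real.norm_eq_abs, Real.norm_eq_abs,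
      abs_abs, div_self (abs_pos.2 (R0 n)).ne', one_pow, one_mul,
      Complex.norm_cpow_eq_rpow_re_of_pos (P0 n), Complex.neg_re]
  simp only [e1, e2] at H
  have k : ∀ A : Set Z3, A ⊆ F D → Summable (φ ∘ (↑) : A → ℂ) := fun A hA => by
    simpa only [Function.comp_def] using sφ.comp_injective (inclusion_injective hA)
  rw [← H.tsum_eq, tsum_mul_left, F, (k _ subset_union_left).tsum_union_disjoint
    (disjoint_left.2 fun n a b => by linarith [a.1, b.1]) (k _ subset_union_right), Dat.Z, Dat.Z,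
    ← tsum_mul_left]
  congr 2
  · refine tsum_congr fun n => ?_
    have : 0 < D.R n := by linarith [n.2.1]
    simp [hφ, abs_of_pos this, this.ne']
  · refine tsum_congr fun n => ?_
    have : D.R n < 0 := by linarith [n.2.1]
    simp [hφ, abs_of_neg this, this.ne, div_neg]

end

end Pool.Agent.P.MP_29cb78_nt.E
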