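import Pool.Agent.P.MP_29cb78_nt.E.KIface

/-!
The continuation of the zeta function and its derivative at the origin.
-/

namespace Pool.Agent.P.MP_29cb78_nt.E

open Filter Topology MeasureTheory Set
open scoped Real

namespace KZc

/-- The inverse of the gamma factor, divided by `s`. -/
noncomputable def ig (j : ℕ) (s : ℂ) : ℂ :=
  4 * (π : ℂ) ^ ((3 * s + j) / 2) * (Complex.Gamma ((s + j) / 2))⁻¹ * (Complex.Gamma (s + 1))⁻¹

lemma pi_ne : (π : ℂ) ≠ 0 := by exact_mod_cast Real.pi_ne_zero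

lemma ig_diff (j : ℕ) : Differentiable ℂ (ig j) := by
  have h := Complex.differentiable_one_div_Gamma
  exact (((Differentiable.const_cpow (by fun_prop) (Or.inl pi_ne)).const_mul _).mul
    (h.comp (f := fun s : ℂ => (s + j) / 2) (by fun_prop))).mul
    (h.comp (f := fun s : ℂ => s + 1) (by fun_prop))

lemma ig_mul (j : ℕ) {s : ℂ} (hs : 0 < s.re) : gamj j s * (s * ig j s) = 1 := by
  have h0 : s ≠ 0 := fun h => by simp [h] at hs
  have h1 := Complex.Gamma_ne_zero_of_re_pos hs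
  have h2 : Complex.Gamma ((s + j) / 2) ≠ 0 := Complex.Gamma_ne_zero_of_re_pos (by
    simp only [Complex.div_ofNat_re, Complex.add_re, Complex.natCast_re]
    positivity)
  have h3 : (π : ℂ) ^ ((3 * s + j) / 2) ≠ 0 := by simp
  rw [gamj, ig, Complex.Gamma_add_one _ h0, neg_div, Complex.cpow_neg]
  field_simp

lemma ig_zero : ig 0 0 = 0 := by simp [ig]

lemma ig_one : ig 1 0 = 4 := by
  have h3 : (π : ℂ) ^ (1 / 2 : ℂ) ≠ 0 := by simp
  simp only [ig, mul_zero, zero_add, Nat.cast_one, Complex.Gamma_one_half_eq, Complex.Gamma_one]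
  field_simp

end KZc

open KZc in
theorem k_zc (h1 : K_ENT) (h2 : K_SUB) (h3 : K_THB) (h4 : K_UNF) (h5 : K_TF) : K_ZC := by
  intro D
  have hL : 0 < D.L := mul_pos (by norm_num) (Real.log_pos D.ρ_gt)
  have hL' : (D.L : ℂ) ≠ 0 := by exact_mod_cast hL.ne'
  have s1 : ∀ p, D.sub 1 p = 0 := fun p => by simp [Dat.sub]
  have i1 : Integrable (D.Th 1) μS := by simpa [s1] using (h3 D 1 le_rfl).2 0
  have e1 : (fun r => D.T (Real.exp r)) = fun r => D.L * ∫ c in Ioc (0 : ℝ) 1, D.Th 1 (r, c) :=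
    funext fun r => (h5 D r).symm
  refine ⟨e1 ▸ (Integrable.integral_prod_left i1).const_mul _, ?_⟩
  have en := fun j hj => h1 _ μS (fun p => D.Th j p - D.sub j p) (NN D.L)
    (by unfold NN; fun_prop) (h3 D j hj).2
  obtain ⟨Λ, hΛ⟩ : ∃ Λ : ℕ → ℂ → ℂ, ∀ j, Λ j = fun s =>
    ∫ p, ((D.Th j p - D.sub j p : ℝ) : ℂ) * Complex.exp (s * NN D.L p) ∂μS := ⟨_, fun _ => rfl⟩
  have dΛ : ∀ j ≤ 1, Differentiable ℂ (Λ j) := fun j hj => hΛ j ▸ (en j hj).2
  have sp : ∀ j ≤ 1, ∀ s : ℂ, 1 < s.re →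
      ∫ p, (D.Th j p : ℂ) * Complex.exp (s * NN D.L p) ∂μS =
        Λ j s + ∫ p, (D.sub j p : ℂ) * Complex.exp (s * NN D.L p) ∂μS := fun j hj s hs => by
    rw [hΛ, ← integral_add ((en j hj).1 s) (h2 D j s hs).1]
    congr 1
    funext p
    push_cast
    ring
  have d0 := dΛ 0 zero_le_one
  have d1 := dΛ 1 le_rfl
  have g0 := ig_diff 0
  have g1 := ig_diff 1
  refine (cont_of_quot (g := fun s => D.L / 2 * ((Λ 0 s * (s - 1) ^ 2 + (|det3 D.r D.z|⁻¹ : ℝ) *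
    (Complex.exp ((s - 1) * D.L) - 1) / (3 * D.L)) * ig 0 s + Λ 1 s * (s - 1) ^ 2 * ig 1 s))
    (g' := fun s => (s - 1) ^ 2) (by fun_prop) (by fun_prop) (by simp) 0 fun s hs => ?_).congr
    (fun _ _ => rfl) ?_
  · have a0 := h4 D 0 s zero_le_one hs
    have a1 := h4 D 1 s le_rfl hs
    rw [sp _ zero_le_one s hs, (h2 D 0 s hs).2, if_pos rfl] at a0
    rw [sp _ le_rfl s hs, (h2 D 1 s hs).2, if_neg one_ne_zero] at a1
    have b0 := ig_mul 0 (zero_lt_one.trans hs)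
    have b1 := ig_mul 1 (zero_lt_one.trans hs)
    have n1 : s - 1 ≠ 0 := fun h => by simp [sub_eq_zero.1 h] at hs
    obtain ⟨k, hk⟩ : ∃ k : ℂ, k = (|det3 D.r D.z|⁻¹ : ℝ) * (Complex.exp ((s - 1) * D.L) - 1) /
      (3 * D.L * (s - 1) ^ 2) := ⟨_, rfl⟩
    have : (|det3 D.r D.z|⁻¹ : ℝ) * (Complex.exp ((s - 1) * D.L) - 1) / (3 * D.L) =
      k * (s - 1) ^ 2 := by rw [hk]; field_simp
    rw [← hk] at a0
    rw [this, div_eq_iff (pow_ne_zero 2 n1)]
    linear_combination (s - 1) ^ 2 / 2 * (s * ig 0 s * a0 + s * ig 1 s * a1 +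
      (D.Z 1 s + D.Z (-1) s) * b0 + (D.Z 1 s - D.Z (-1) s) * b1)
  · have : Λ 1 0 = (∫ r : ℝ, ∫ c in Ioc (0 : ℝ) 1, D.Th 1 (r, c) : ℝ) := by
      rw [← integral_prod _ i1, hΛ, ← integral_complex_ofReal]
      simp [s1, μS]
    rw [if_pos rfl, ig_zero, ig_one, e1, integral_const_mul, this]
    push_cast
    ring

end Pool.Agent.P.MP_29cb78_nt.E
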