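import Pool.Agent.P.MP_29cb78_nt.E.KCone
import Pool.Agent.P.MP_29cb78_nt.E.KCount
import Pool.Agent.P.MP_29cb78_nt.E.KEmb
import Pool.Agent.P.MP_29cb78_nt.E.KErf
import Pool.Agent.P.MP_29cb78_nt.E.KFib
import Pool.Agent.P.MP_29cb78_nt.E.KFin
import Pool.Agent.P.MP_29cb78_nt.E.KGams
import Pool.Agent.P.MP_29cb78_nt.E.KGb
import Pool.Agent.P.MP_29cb78_nt.E.KHc
import Pool.Agent.P.MP_29cb78_nt.E.KIso
import Pool.Agent.P.MP_29cb78_nt.E.KK7
import Pool.Agent.P.MP_29cb78_nt.E.KKl1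
import Pool.Agent.P.MP_29cb78_nt.E.KKlf
import Pool.Agent.P.MP_29cb78_nt.E.KLim
import Pool.Agent.P.MP_29cb78_nt.E.KLine
import Pool.Agent.P.MP_29cb78_nt.E.KLow
import Pool.Agent.P.MP_29cb78_nt.E.KMk
import Pool.Agent.P.MP_29cb78_nt.E.KNeg
import Pool.Agent.P.MP_29cb78_nt.E.KPois
import Pool.Agent.P.MP_29cb78_nt.E.KPre
import Pool.Agent.P.MP_29cb78_nt.E.KSingle
import Pool.Agent.P.MP_29cb78_nt.E.KStep
import Pool.Agent.P.MP_29cb78_nt.E.KStrip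
import Pool.Agent.P.MP_29cb78_nt.E.KThb
import Pool.Agent.P.MP_29cb78_nt.E.KU1
import Pool.Agent.P.MP_29cb78_nt.E.KU2
import Pool.Agent.P.MP_29cb78_nt.E.KUnf
import Pool.Agent.P.MP_29cb78_nt.E.KZc
import Pool.Agent.P.MP_29cb78_nt.E.KZeta

/-!
The wiring of the Kronecker limit formula and of the dictionary.
-/

namespace Pool.Agent.P.MP_29cb78_nt.E

open NumberField NumberField.InfinitePlace

theorem iso3' : K_ISO3 := k_iso3 k_pois k_est

theorem thb' : K_THB := k_thb iso3' k_low k_gb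

theorem zc' : K_ZC :=
  k_zc k_ent k_sub thb' (k_unf k_single k_strip k_sub thb' k_ent) (k_tf k_erf k_low k_gb)

theorem kl1' : K_KL1 :=
  k_kl1 k_low (k_dom k_erf k_low) (k_pkg k_gb)
    (k_u1 (k_iso2 k_pois k_est) (k_row k_erf (k_iso1 k_pois k_est)))
    (k_u2 iso3' k_erf k_low k_gb) zc' k_erf

theorem cone' : K_CONE := k_cone k_line k_jsym

theorem gams' : K_GAMS := k_gams (k_hc cone') k_jsym

theorem klf' : K_KLF :=
  k_klf k_neg (k_llb k_jsym) gams'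
    (k_k7 k_neg k_ss gams' (k_step gams' (k_rs cone' k_jsym) (k_llb k_jsym))) k_dat zc' kl1'
    (k_lim k_line)

theorem fin' (hGH : S_GH) (hALG : S_ALG) (k : Type) [Field k] [NumberField k]
    (h3 : Module.finrank ℚ k = 3) (hc : nrComplexPlaces k = 1) (f b : Ideal (𝓞 k)) (hf : f ≠ ⊥)
    (hf1 : f ≠ ⊤) (hbf : IsCoprime b f) :
    ∃ u : ℝ, 0 < u ∧ IsAlgebraic ℚ u ∧ Cont (rayZ f b) (Real.log u : ℝ) :=
  k_fin hGH hALG klf' k_emb k_unit k_pre k_mk k_count k_cls (k_zeta k_fib) k h3 hc f b hf hf1 hbf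

end Pool.Agent.P.MP_29cb78_nt.E
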