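import Pool.Agent.P.MP_29cb78_nt.E.KIface

/-! A family of lines that goes up. -/

namespace Pool.Agent.P.MP_29cb78_nt.E

open Filter Topology Set
open scoped Real

namespace KCone

lemma norm_ee (z : ℂ) : ‖ee z‖ = Real.exp (-(2 * π * z.im)) := by
  rw [ee, Complex.norm_exp]
  simp

lemma prod {ι : Type} {z : ι → ℂ} (hs : Summable fun i => Real.exp (-(2 * π * (z i).im)))
    (h0 : ∀ i, (z i).im ≠ 0) :
    ∑' i, -Real.log (‖1 - ee (z i)‖ ^ 2) = -Real.log (‖∏' i, (1 - ee (z i))‖ ^ 2) ∧
      (Multipliable fun i => 1 - ee (z i)) ∧ ∏' i, (1 - ee (z i)) ≠ 0 := by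
  have h1 : Summable fun i => ‖-ee (z i)‖ := by simpa only [norm_neg, norm_ee] using hs
  have h2 : ∀ i, 1 + -ee (z i) ≠ 0 := fun i h => by
    have := norm_ee (z i)
    rw [← add_neg_eq_zero.1 h, norm_one, eq_comm, Real.exp_eq_one_iff] at this
    exact h0 i (by simpa [Real.pi_ne_zero] using this)
  have h3 := multipliable_one_add_of_summable h1
  have h4 := h3.hasProd.norm.unique (h1.summable_log_norm_one_add.hasSum.rexp.congr_fun fun i =>
    (Real.exp_log (norm_pos_iff.2 (h2 i))).symm)
  simp only [sub_eq_add_neg]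
  refine ⟨?_, h3, tprod_one_add_ne_zero_of_summable h2 h1⟩
  simp only [h4, Real.log_pow, Real.log_exp, tsum_neg, tsum_mul_left]

end KCone

theorem k_cone (h1 : K_LINE) (_h2 : K_JSYM) : K_CONE := by
  classical
  intro ι z hs h0
  have s1 := hs _ Real.two_pi_pos
  obtain ⟨p1, p2⟩ := KCone.prod s1 h0
  have fin : ∀ᶠ i in cofinite, 0 < (z i).im := by
    filter_upwards [(hs 1 one_pos).tendsto_cofinite_zero.eventually_lt_const one_pos] with i hi
    simpa using hi
  have s2 : Summable fun i => -2 * Real.log (1 + -Real.exp (-(2 * π * (z i).im))) :=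
    (Real.summable_log_one_add_of_summable s1.neg).mul_left _
  have bd : ∀ m : ℝ, 0 < m → ∀ i, 0 < (z i).im → ‖JJ m (z i) - zm m (z i).im‖ ≤
      -2 * Real.log (1 + -Real.exp (-(2 * π * (z i).im))) := fun m hm i hi => by
    have := ((h1 _ (h0 i)).1 m hm).2
    rwa [abs_of_pos hi] at this
  have s3 : ∀ m : ℝ, 0 < m → Summable fun i => zm m (z i).im := fun m hm =>
    (hs (2 * π * m) (by positivity)).div_const m
  have s4 : ∀ m : ℝ, 0 < m → Summable fun i => JJ m (z i) := fun m hm => by
    simpa using (s2.of_norm_bounded_eventually (fin.mono (bd m hm))).add (s3 m hm)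
  refine ⟨s4, ?_, p2⟩
  rw [← p1]
  refine (tendsto_tsum_of_dominated_convergence (f := fun m i => JJ m (z i) - zm m (z i).im)
    (bound := fun i => if 0 < (z i).im then -2 * Real.log (1 + -Real.exp (-(2 * π * (z i).im)))
      else ‖-Real.log (‖1 - ee (z i)‖ ^ 2)‖ + 1)
    (s2.congr_cofinite (fin.mono fun i hi => (if_pos hi).symm))
    (fun i => (h1 _ (h0 i)).2) ?_).congr' ?_
  · filter_upwards [self_mem_nhdsWithin, (eventually_all_finite (eventually_cofinite.1 fin)).2
      fun i _ => (h1 _ (h0 i)).2.norm.eventually_le_const (lt_add_one _)] with m hm h i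
    split_ifs with b
    exacts [bd m hm i b, h i b]
  · filter_upwards [self_mem_nhdsWithin] with m hm
    exact (s4 m hm).tsum_sub (s3 m hm)

end Pool.Agent.P.MP_29cb78_nt.E
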