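import Pool.Agent.P.MP_29cb78_nt.E.Basic
import Pool.Agent.P.MP_29cb78_nt.Theta
import Pool.Agent.P.MP_29cb78_nt.Cont

/-!
Definitions for the Kronecker limit formula of complex cubic fields.
-/

namespace Pool.Agent.P.MP_29cb78_nt.E

open Filter Topology MeasureTheory Set NumberField
open scoped Classical Real Matrix

noncomputable section

/-! ### Functions of one variable -/

/-- The error function. -/
def Er (y : ℝ) : ℝ := ∫ u in (0 : ℝ)..y, Real.exp (-π * u ^ 2)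

/-- Half of the sign. -/
def hs (y : ℝ) : ℝ := if 0 < y then 1 / 2 else -(1 / 2)

/-- The regularised sum of `- log |z + k| ^ 2` over the integers `k`. -/
def JJ (m : ℝ) (z : ℂ) : ℝ :=
  2 * ∫ r : ℝ, (∑' k : ℤ, Real.exp (-π * Real.exp r ^ 2 * ‖z + k‖ ^ 2)) *
    Real.exp (-π * m ^ 2 / Real.exp r ^ 2)

/-- The zero mode. -/
def zm (m y : ℝ) : ℝ := Real.exp (-(2 * π * m * y)) / m

/-- The extrapolation functional. -/
def Fn (N : ℕ) (f : ℤ → ℝ) : ℝ := ∑ j : Fin 4, (cc N j : ℝ) * (f (tt N j) - f (-tt N j))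

/-- The gamma factors. -/
def gamj (j : ℕ) (s : ℂ) : ℂ :=
  1 / 4 * (π : ℂ) ^ (-(3 * s + j) / 2) * Complex.Gamma ((s + j) / 2) * Complex.Gamma s

/-- The measure on the strip. -/
def μS : Measure (ℝ × ℝ) := (volume : Measure ℝ).prod (volume.restrict (Ioc (0 : ℝ) 1))

/-- One term of the theta integrand. -/
def term (j : ℕ) (L R X : ℝ) (p : ℝ × ℝ) : ℝ :=
  (Real.exp (p.1 + p.2 * L) * R) ^ j * Real.exp (-π * (Real.exp (p.1 + p.2 * L) * R) ^ 2) *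
    Real.exp (-π * Real.exp p.1 ^ 2 * X ^ 2)

/-- The logarithm of the norm variable. -/
def NN (L : ℝ) (p : ℝ × ℝ) : ℝ := 3 * p.1 + p.2 * L

/-! ### Lattices of rank three -/

/-- Integer vectors. -/
abbrev Z3 := Fin 3 → ℤ

/-- The sum over the dual lattice without the origin. -/
def dual {ι : Type} [Fintype ι] [DecidableEq ι] (B : Matrix ι ι ℝ) : ℝ :=
  ∑' k : {k : ι → ℤ // k ≠ 0},
    Real.exp (-(π / 2) * ∑ j, ((B⁻¹)ᵀ.mulVec (Theta.cst k.1) j) ^ 2)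

/-- A real linear form at a point of the shifted lattice. -/
def lr (r x : Fin 3 → ℝ) (n : Z3) : ℝ := ∑ i, r i * (x i + n i)

/-- A complex linear form at a point of the shifted lattice. -/
def lc (z : Fin 3 → ℂ) (x : Fin 3 → ℝ) (n : Z3) : ℂ := ∑ i, z i * ((x i + n i : ℝ) : ℂ)

/-- The squared length of a point of the shifted lattice. -/
def nrm (x : Fin 3 → ℝ) (n : Z3) : ℝ := ∑ i, (x i + n i) ^ 2

/-- The covolume, with a sign. -/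
def det3 (r : Fin 3 → ℝ) (z : Fin 3 → ℂ) : ℝ :=
  (Matrix.of ![r, fun i => (z i).re, fun i => (z i).im]).det

/-- The first coordinate is `α r + re (w z)`, and `z 1`, `z 2` span a lattice. -/
structure Frm (r : Fin 3 → ℝ) (z : Fin 3 → ℂ) (α : ℝ) (w : ℂ) : Prop where
  α_pos : 0 < α
  form : ∀ i, α * r i + (w * z i).re = if i = 0 then 1 else 0
  im_ne : (z 2 / z 1).im ≠ 0

/-- A shifted lattice with a real form, a complex form and a unit. -/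
structure Dat where
  r : Fin 3 → ℝ
  z : Fin 3 → ℂ
  x : Fin 3 → ℝ
  α : ℝ
  w : ℂ
  ρ : ℝ
  e : Equiv.Perm Z3
  frm : Frm r z α w
  ρ_gt : 1 < ρ
  R_e : ∀ n, lr r x (e n) = ρ * lr r x n
  S_e : ∀ n, ρ * ‖lc z x (e n)‖ ^ 2 = ‖lc z x n‖ ^ 2
  R_ne : ∀ n, lr r x n ≠ 0
  S_ne : ∀ n, lc z x n ≠ 0

namespace Dat

variable (D : Dat)

/-- The real form. -/
def R (n : Z3) : ℝ := lr D.r D.x n

/-- The complex form. -/
def S (n : Z3) : ℂ := lc D.z D.x n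

/-- The rational form. -/
def a (n : Z3) : ℝ := D.x 0 + n 0

/-- The period in the direction of the units. -/
def L : ℝ := 3 / 2 * Real.log D.ρ

/-- The Gaussian of the complex form. -/
def g (t : ℝ) (n : Z3) : ℝ := Real.exp (-π * t ^ 2 * ‖D.S n‖ ^ 2)

/-- The theta series. -/
def Th (j : ℕ) (p : ℝ × ℝ) : ℝ := ∑' n : Z3, term j D.L (D.R n) ‖D.S n‖ p

/-- The zero mode of the theta series, at small scales. -/
def sub (j : ℕ) (p : ℝ × ℝ) : ℝ :=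
  if j = 0 ∧ p.1 < 0 then |det3 D.r D.z|⁻¹ * Real.exp (-NN D.L p) else 0

/-- The zeta function of the points where the real form has the sign `u`. -/
def Z (u : ℝ) (s : ℂ) : ℂ :=
  ∑' n : {n : Z3 // 1 ≤ u * D.R n ∧ u * D.R n < D.ρ},
    ((u * D.R n * ‖D.S n‖ ^ 2 : ℝ) : ℂ) ^ (-s)

/-- The odd theta series, integrated over the units. -/
def T (t : ℝ) : ℝ :=
  ∑' n : Z3, (Er (Real.exp D.L * t * D.R n) - Er (t * D.R n)) * D.g t n

/-- The weight of the wedge with vertex `θ`. -/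
def wt (θ : ℝ) (n : Z3) : ℝ := hs (D.a n - θ) - hs (D.a (D.e.symm n) - θ)

/-- The theta series with weights `W`. -/
def tw (W : Z3 → ℝ) (t : ℝ) : ℝ := ∑' n : Z3, W n * D.g t n

/-- A family of vertices with weights of vanishing first moment. -/
structure Fam {J : Type} [Fintype J] (c θ : J → ℝ) : Prop where
  half : ∀ j, ∃ k : ℤ, θ j = D.x 0 + k + 1 / 2
  mom : ∑ j, c j * θ j = 0

end Dat

/-! ### Line sums -/

namespace Setup

variable (S : Setup)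

/-- The point of the line with indices `p`. -/
def ln (ζ : ℂ) (p : ℤ × ℤ) : ℂ := ζ + p.1 * S.lam + p.2 * S.β

/-- The weight of the wedge with vertices `θ₁`, `θ₂`. -/
def wg (θ₁ θ₂ : ℝ) (b : ℂ) : ℝ := hs (S.a b - θ₁) - hs (S.a (b / S.ε) - θ₂)

/-- The sum over the lines of the wedge. -/
def LL (m : ℝ) (ζ : ℂ) (θ₁ θ₂ : ℝ) : ℝ :=
  ∑' p : ℤ × ℤ, S.wg θ₁ θ₂ (S.ln ζ p) * JJ m (S.ln ζ p / S.γ)

/-- The sum is absolutely convergent. -/
def LLs (m : ℝ) (ζ : ℂ) (θ₁ θ₂ : ℝ) : Prop :=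
  Summable fun p : ℤ × ℤ => S.wg θ₁ θ₂ (S.ln ζ p) * JJ m (S.ln ζ p / S.γ)

/-- The line sum of a point of `A`. -/
def LS (m : ℝ) (x : S.A) : ℝ :=
  S.LL m (S.x₁ x) (S.a (S.x₁ x) - 1 / 2) (S.a (S.x₂ x) + 1 / 2)

/-- The terms of the sum over the cone of the double product. -/
def hc (m : ℝ) (x : S.A) (p : ℤ × ℤ) : ℝ :=
  if 0 ≤ p.1 ∧ S.ν x + p.1 * S.ν S.p ≤ S.s * p.2 then JJ m (S.ln (S.x₁ x) p / S.γ) else 0

/-- The zero modes of the cone. -/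
def SS (m : ℝ) (k : ℤ) : ℝ :=
  ∑' p : ℕ × ℕ, if (S.s : ℤ) ∣ k + p.1 * S.ν S.p + p.2 then
    Real.exp (-(2 * π * m * (p.1 * S.h S.p + p.2 * S.h S.q))) else 0

/-- The sum over the lines of a row. -/
def RS (m : ℝ) (ζ : ℂ) : ℝ := ∑' k : ℤ, JJ m ((ζ + k * S.β) / S.γ)

/-- The zero modes and the linear terms of `k` consecutive rows. -/
def Phi (m y : ℝ) (k : ℤ) : ℝ :=
  (1 - Real.exp (-(2 * π * m * (S.β / S.γ).im)))⁻¹ *
    ((zm m y - zm m (y + k * (S.lam / S.γ).im)) *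
        (1 - Real.exp (-(2 * π * m * (S.lam / S.γ).im)))⁻¹ +
      (zm m ((S.β / S.γ).im - y) - zm m ((S.β / S.γ).im - y - k * (S.lam / S.γ).im)) *
        (1 - Real.exp (2 * π * m * (S.lam / S.γ).im))⁻¹) +
    2 * π * (k * y + k * (k - 1) / 2 * (S.lam / S.γ).im)

/-- The difference between the line sum and the logarithm of the gamma function. -/
def DD (G : S.A → ℂ) (m : ℝ) (x : S.A) : ℝ := S.LS m x - Real.log (‖G x‖ ^ 2)

/-- No line of `ζ + L` is real. -/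
def Off (ζ : ℂ) : Prop := ∀ b, b - ζ ∈ S.L → (b / S.γ).im ≠ 0

/-- The real place, seen from the class of `v`. -/
structure RealStr (v : ℂ) (r : ℂ →+ ℝ) (ρ : ℝ) : Prop where
  coord : ∃ x : Fin 3 → ℚ, v = x 0 * S.lam + x 1 * S.γ + x 2 * S.β
  fix : (S.ε - 1) * v ∈ S.L
  ρ_gt : 1 < ρ
  norm : ρ * ‖S.ε‖ ^ 2 = 1
  r_ε : ∀ b, b - v ∈ S.L → r (S.ε * b) = ρ * r b
  r_ne : ∀ b, b - v ∈ S.L → r b ≠ 0
  frm : ∃ (α : ℝ) (w : ℂ), Frm ![r S.lam, r S.γ, r S.β] ![S.lam, S.γ, S.β] α w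
  off : S.Off v
  lam_im : (S.lam / S.γ).im ≠ 0

end Setup

/-- The zeta function of the class of `v`. -/
def Zv (L : AddSubgroup ℂ) (v : ℂ) (r : ℂ →+ ℝ) (ρ : ℝ) (s : ℂ) : ℂ :=
  ∑' b : {b : ℂ // b - v ∈ L ∧ 1 ≤ r b ∧ r b < ρ}, ((r b * ‖b.1‖ ^ 2 : ℝ) : ℂ) ^ (-s)

/-! ### The dictionary -/

/-- The data that come from a cubic field, before the choice of an adapted basis. -/
structure Pre (L : AddSubgroup ℂ) (ε v : ℂ) (r : ℂ →+ ℝ) (ρ : ℝ) (N : ℕ) : Prop where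
  basis : ∃ (e : Fin 3 → ℂ) (a : ℂ →+ ℚ) (x : Fin 3 → ℚ),
    (∀ z, z ∈ L ↔ ∃ i j k : ℤ, z = i * e 0 + j * e 1 + k * e 2) ∧
    a (e 0) = 1 ∧ a (e 1) = 0 ∧ a (e 2) = 0 ∧ (e 2 / e 1).im ≠ 0 ∧
    v = x 0 * e 0 + x 1 * e 1 + x 2 * e 2 ∧ ∀ k : ℤ, x 0 ≠ k
  ε_mul : ∀ z, ε * z ∈ L ↔ z ∈ L
  six : ∀ z ∈ L, (ε - 1) * z / 6 ∈ L
  N_ne : N ≠ 0
  N_mul : ∀ z, (ε ^ 2 - 1) * z ∈ L → N * z ∈ L
  ε_im : ε.im ≠ 0
  ε_alg : IsAlgebraic ℚ ε
  fix : (ε - 1) * v ∈ L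
  ρ_gt : 6 < ρ
  norm : ρ * ‖ε‖ ^ 2 = 1
  irr : Irrational ρ
  r_ε : ∀ b ∈ L, r (ε * b) = ρ * r b
  r_ne : ∀ b, b - v ∈ L → r b ≠ 0

/-- The two embeddings of a complex cubic field. -/
structure Emb {k : Type} [Field k] [NumberField k] (ρ : k →+* ℝ) (σ : k →+* ℂ) : Prop where
  rank : Module.finrank ℚ k = 3
  rk : NumberField.Units.rank k = 1
  uniq : ∀ φ : k →+* ℝ, φ = ρ
  norm : ∀ x : k, ((Algebra.norm ℚ x : ℚ) : ℝ) = ρ x * ‖σ x‖ ^ 2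
  rat : ∀ x : k, (σ x).im = 0 → ∃ c : ℚ, x = c
  fin : ∀ B : ℝ, {x : 𝓞 k | |ρ x| ≤ B ∧ ‖σ x‖ ≤ B}.Finite

/-- The image of an ideal under the complex embedding. -/
def latt {k : Type} [Field k] (σ : k →+* ℂ) (J : Ideal (𝓞 k)) : AddSubgroup ℂ :=
  J.toAddSubgroup.map (σ.comp (algebraMap (𝓞 k) k)).toAddMonoidHom

/-- Narrow ray equivalence modulo `f`. -/
def NRay {k : Type} [Field k] (f I J : Ideal (𝓞 k)) : Prop :=
  ∃ x y : 𝓞 k, IsCoprime (Ideal.span {y}) f ∧ x - y ∈ f ∧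
    (∀ φ : k →+* ℝ, 0 < φ x * φ y) ∧ Ideal.span {y} * I = Ideal.span {x} * J

/-- The zeta function of a narrow ray class. -/
def rayZ {k : Type} [Field k] [NumberField k] (f b : Ideal (𝓞 k)) (s : ℂ) : ℂ :=
  LSeries (fun n => (Nat.card {I : Ideal (𝓞 k) // NRay f I b ∧ Ideal.absNorm I = n} : ℂ)) s

end

end Pool.Agent.P.MP_29cb78_nt.E
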