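import Pool.Agent.P.MP_29cb78_nt.E.KDefs

/-!
Statements of the pieces of the proof of the Kronecker limit formula for complex cubic fields.
-/

namespace Pool.Agent.P.MP_29cb78_nt.E

open Filter Topology MeasureTheory Set NumberField NumberField.InfinitePlace
open scoped Classical Real Matrix

noncomputable section

/-! ### Gaussian sums -/

/-- Poisson summation with a shift, for the Gaussian and for a linear form times the Gaussian. -/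
def K_POIS : Prop :=
  ∀ (ι : Type) [Fintype ι] [DecidableEq ι] (B : Matrix ι ι ℝ) (x : ι → ℝ), B.det ≠ 0 →
    |∑' n : ι → ℤ, Theta.G B (x + Theta.cst n) - |B.det|⁻¹| ≤ |B.det|⁻¹ * dual B ∧
    ∀ j, (Summable fun n : ι → ℤ =>
        B.mulVec (x + Theta.cst n) j * Theta.G B (x + Theta.cst n)) ∧
      |∑' n : ι → ℤ, B.mulVec (x + Theta.cst n) j * Theta.G B (x + Theta.cst n)| ≤
        |B.det|⁻¹ * dual B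

/-- The dual sum is small at small scales. -/
def K_EST : Prop :=
  ∀ (ι : Type) [Fintype ι] [DecidableEq ι] (M : ℝ) (K : ℕ), ∃ C : ℝ, ∀ t ∈ Ioc (0 : ℝ) 1,
    ∀ B : Matrix ι ι ℝ, B.det ≠ 0 → (∀ i j, |B i j| ≤ M * t) → dual B ≤ C * t ^ K

/-- Gaussian sums in dimension one. -/
def K_ISO1 : Prop := ∀ (κ : ℝ) (K : ℕ), 0 < κ → ∃ C : ℝ, ∀ t ∈ Ioc (0 : ℝ) 1, ∀ x : ℝ,
  (Summable fun k : ℤ => Real.exp (-π * (κ * t * (x + k)) ^ 2)) ∧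
    |∑' k : ℤ, Real.exp (-π * (κ * t * (x + k)) ^ 2) - (κ * t)⁻¹| ≤ C * t ^ K

/-- Gaussian sums in dimension two. -/
def K_ISO2 : Prop := ∀ (γ β : ℂ) (K : ℕ), (β / γ).im ≠ 0 → ∃ A C : ℝ, ∀ t ∈ Ioc (0 : ℝ) 1,
  ∀ ζ : ℂ, (Summable fun p : ℤ × ℤ => Real.exp (-π * t ^ 2 * ‖ζ + p.1 * γ + p.2 * β‖ ^ 2)) ∧
    |∑' p : ℤ × ℤ, Real.exp (-π * t ^ 2 * ‖ζ + p.1 * γ + p.2 * β‖ ^ 2) - A / t ^ 2| ≤ C * t ^ K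

/-- Gaussian sums in dimension three. -/
def K_ISO3 : Prop := ∀ (M d : ℝ) (K : ℕ), 0 < d → ∃ C : ℝ, ∀ t ∈ Ioc (0 : ℝ) 1,
  ∀ (r : Fin 3 → ℝ) (z : Fin 3 → ℂ) (x : Fin 3 → ℝ), (∀ i, |r i| ≤ M) → (∀ i, ‖z i‖ ≤ M) →
    d ≤ |det3 r z| →
    |∑' n : Z3, Real.exp (-π * (t * lr r x n) ^ 2) * Real.exp (-π * t ^ 2 * ‖lc z x n‖ ^ 2) -
      (t ^ 3 * |det3 r z|)⁻¹| ≤ C * t ^ K ∧
    |∑' n : Z3, t * lr r x n * Real.exp (-π * (t * lr r x n) ^ 2) *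
      Real.exp (-π * t ^ 2 * ‖lc z x n‖ ^ 2)| ≤ C * t ^ K ∧
    ∀ w : ℂ, |∑' n : Z3, t * (w * lc z x n).re * Real.exp (-π * (t * lr r x n) ^ 2) *
      Real.exp (-π * t ^ 2 * ‖lc z x n‖ ^ 2)| ≤ C * ‖w‖ * t ^ K

/-- The error function. -/
def K_ERF : Prop :=
  (∀ y, HasDerivAt Er (Real.exp (-π * y ^ 2)) y) ∧ (∀ y, Er (-y) = -Er y) ∧
    (∀ y, |hs y - Er y| ≤ Real.exp (-π * y ^ 2) / 2) ∧ ∀ y, |Er y| ≤ 1 / 2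

/-- The sum of the sign minus the error function over a row. -/
def K_ROW : Prop := ∀ (x θ κ : ℝ) (K : ℕ), 0 < κ → (∃ k : ℤ, θ = x + k + 1 / 2) →
  ∃ C : ℝ, ∀ t ∈ Ioc (0 : ℝ) 1,
    (Summable fun n : ℤ => hs (x + n - θ) - Er (κ * t * (x + n))) ∧
    ∑' n : ℤ, |hs (x + n - θ) - Er (κ * t * (x + n))| ≤ C / t ∧
    |∑' n : ℤ, (hs (x + n - θ) - Er (κ * t * (x + n))) + θ| ≤ C * t ^ K

/-- Gaussian sums at large scales. -/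
def K_GB : Prop := ∀ x : Fin 3 → ℝ, (∀ n, 0 < nrm x n) → ∀ c : ℝ, 0 < c →
  (∀ t : ℝ, 0 < t → Summable fun n : Z3 => Real.exp (-c * t ^ 2 * nrm x n)) ∧
    ∃ C c' : ℝ, 0 < c' ∧ ∀ t : ℝ, 1 ≤ t →
      ∑' n : Z3, Real.exp (-c * t ^ 2 * nrm x n) ≤ C * Real.exp (-c' * t ^ 2)

/-- Integrability of a series with Gaussian bounds. -/
def K_PKG : Prop := ∀ x : Fin 3 → ℝ, (∀ n, 0 < nrm x n) → ∀ (F : ℝ → Z3 → ℝ) (c C₀ : ℝ), 0 < c →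
  (∀ n, ContinuousOn (fun t => F t n) (Ioi 0)) →
  (∀ t : ℝ, 0 < t → ∀ n, |F t n| ≤ C₀ * Real.exp (-c * t ^ 2 * nrm x n)) →
  (∀ t : ℝ, 0 < t → Summable (F t)) ∧
    ((∃ C : ℝ, ∀ t ∈ Ioc (0 : ℝ) 1, |∑' n, F t n| ≤ C * t) →
      Integrable fun r : ℝ => ∑' n, F (Real.exp r) n)

/-- The two forms control the length. -/
def K_LOW : Prop :=
  (∀ r z α w, Frm r z α w → det3 r z ≠ 0 ∧
    (∃ c : ℝ, 0 < c ∧ ∀ x n, c * nrm x n ≤ lr r x n ^ 2 + ‖lc z x n‖ ^ 2) ∧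
    ∀ x n, α * lr r x n + (w * lc z x n).re = x 0 + n 0) ∧
  (∀ (r : Fin 3 → ℝ) (z : Fin 3 → ℂ) (κ : ℝ) (w : ℂ),
    det3 (fun i => κ * (r i + (w * z i).re)) z = κ * det3 r z) ∧
  ∀ z x, (∀ n, lc z x n ≠ 0) → ∀ n, 0 < nrm x n

/-- Gaussian domination of the sign minus the error function. -/
def K_DOM : Prop := ∀ r z x α w, Frm r z α w → (∀ n, lc z x n ≠ 0) → ∀ κ θ : ℝ, 0 < κ →
  ∃ c : ℝ, 0 < c ∧ ∀ t : ℝ, 0 < t → ∀ n : Z3,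
    |hs (x 0 + n 0 - θ) - Er (κ * t * lr r x n)| * Real.exp (-π * t ^ 2 * ‖lc z x n‖ ^ 2) ≤
      Real.exp (-c * t ^ 2 * nrm x n)

/-- The sum over the rows. -/
def K_U1 : Prop := ∀ (D : Dat) (J : Type) [Fintype J] (c θ : J → ℝ), D.Fam c θ → ∀ κ : ℝ, 0 < κ →
  ∃ C : ℝ, ∀ t ∈ Ioc (0 : ℝ) 1,
    |∑' n : Z3, (∑ j, c j * (hs (D.a n - θ j) - Er (κ * t * D.a n))) * D.g t n| ≤ C * t

/-- The change of the linear form in the error function. -/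
def K_U2 : Prop := ∀ (D : Dat) (κ : ℝ), 0 < κ → ∃ C : ℝ, ∀ t ∈ Ioc (0 : ℝ) 1,
  |∑' n : Z3, (Er (κ / D.α * t * D.a n) - Er (κ * t * D.R n)) * D.g t n| ≤ C * t

/-! ### The Mellin transform -/

/-- The integral of one term. -/
def K_SINGLE : Prop := ∀ (j : ℕ) (L : ℝ), 0 < L →
  (∀ (s : ℂ) (R X : ℝ), 0 < s.re → R ≠ 0 → 0 < X →
    Integrable (fun p : ℝ × ℝ => (term j L R X p : ℂ) * Complex.exp (s * NN L p)) ∧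
    L * ∫ p : ℝ × ℝ, (term j L R X p : ℂ) * Complex.exp (s * NN L p) =
      ((R / |R| : ℝ) : ℂ) ^ j * gamj j s * ((|R| * X ^ 2 : ℝ) : ℂ) ^ (-s)) ∧
  ∀ σ : ℝ, 0 < σ → ∃ c : ℝ, 0 < c ∧ ∀ R X : ℝ, R ≠ 0 → 0 < X →
    ∫ p : ℝ × ℝ, |term j L R X p| * Real.exp (σ * NN L p) = c * (|R| * X ^ 2) ^ (-σ)

/-- The plane is tiled by sheared translates of the strip. -/
def K_STRIP : Prop :=
  ∀ (V : Type) [NormedAddCommGroup V] [NormedSpace ℝ V] [CompleteSpace V] (g : ℝ × ℝ → V)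
    (δ : ℝ), Integrable g →
    (∀ k : ℤ, Integrable (fun p : ℝ × ℝ => g (p.1 - k * δ, p.2 + k)) μS) ∧
      HasSum (fun k : ℤ => ∫ p : ℝ × ℝ, g (p.1 - k * δ, p.2 + k) ∂μS) (∫ p, g p)

/-- Laplace integrals that converge everywhere are entire. -/
def K_ENT : Prop := ∀ (X : Type) [MeasurableSpace X] (μ : Measure X) (f N : X → ℝ),
  Measurable N → (∀ σ : ℝ, Integrable (fun x => f x * Real.exp (σ * N x)) μ) →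
    (∀ s : ℂ, Integrable (fun x => (f x : ℂ) * Complex.exp (s * N x)) μ) ∧
    Differentiable ℂ fun s : ℂ => ∫ x, (f x : ℂ) * Complex.exp (s * N x) ∂μ

/-- The integral of the zero mode. -/
def K_SUB : Prop := ∀ (D : Dat) (j : ℕ) (s : ℂ), 1 < s.re →
  Integrable (fun p => (D.sub j p : ℂ) * Complex.exp (s * NN D.L p)) μS ∧
    ∫ p, (D.sub j p : ℂ) * Complex.exp (s * NN D.L p) ∂μS = if j = 0 then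
      (|det3 D.r D.z|⁻¹ : ℝ) * (Complex.exp ((s - 1) * D.L) - 1) / (3 * D.L * (s - 1) ^ 2) else 0

/-- Bounds for the theta series. -/
def K_THB : Prop := ∀ (D : Dat) (j : ℕ), j ≤ 1 →
  (∀ p, Summable fun n : Z3 => term j D.L (D.R n) ‖D.S n‖ p) ∧
    ∀ σ : ℝ, Integrable (fun p => (D.Th j p - D.sub j p) * Real.exp (σ * NN D.L p)) μS

/-- Unfolding. -/
def K_UNF : Prop := ∀ (D : Dat) (j : ℕ) (s : ℂ), j ≤ 1 → 1 < s.re →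
  D.L * ∫ p, (D.Th j p : ℂ) * Complex.exp (s * NN D.L p) ∂μS =
    gamj j s * (D.Z 1 s + (-1) ^ j * D.Z (-1) s)

/-- The integral over the units of the odd theta series. -/
def K_TF : Prop := ∀ (D : Dat) (r : ℝ),
  D.L * ∫ c in Ioc (0 : ℝ) 1, D.Th 1 (r, c) = D.T (Real.exp r)

/-- The continuation of the zeta function and its derivative at the origin. -/
def K_ZC : Prop := ∀ D : Dat, (Integrable fun r : ℝ => D.T (Real.exp r)) ∧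
  Cont (D.Z 1) ((2 * ∫ r : ℝ, D.T (Real.exp r) : ℝ) : ℂ)

/-- The theta series of a family of wedges. -/
def K_KL1 : Prop := ∀ (D : Dat) (J : Type) [Fintype J] (c θ : J → ℝ), D.Fam c θ →
  (∀ t : ℝ, 0 < t → Summable fun n : Z3 => (∑ j, c j * D.wt (θ j) n) * D.g t n) ∧
  (Integrable fun r : ℝ => D.tw (fun n => ∑ j, c j * D.wt (θ j) n) (Real.exp r)) ∧
  ∫ r : ℝ, D.tw (fun n => ∑ j, c j * D.wt (θ j) n) (Real.exp r) =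
    (∑ j, c j) * ∫ r : ℝ, D.T (Real.exp r)

/-! ### Lines -/

/-- One line. -/
def K_LINE : Prop := ∀ z : ℂ, z.im ≠ 0 →
  (∀ m : ℝ, 0 < m →
    (Integrable fun r : ℝ => (∑' k : ℤ, Real.exp (-π * Real.exp r ^ 2 * ‖z + k‖ ^ 2)) *
      Real.exp (-π * m ^ 2 / Real.exp r ^ 2)) ∧
    abs (JJ m z - zm m |z.im|) ≤ -2 * Real.log (1 - Real.exp (-(2 * π * |z.im|)))) ∧
  Tendsto (fun m => JJ m z - zm m z.im) (𝓝[>] 0) (𝓝 (-Real.log (‖1 - ee z‖ ^ 2)))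

/-- Symmetries of the line sum. -/
def K_JSYM : Prop := ∀ (m : ℝ) (z : ℂ),
  0 ≤ JJ m z ∧ JJ m (-z) = JJ m z ∧ ∀ k : ℤ, JJ m (z + k) = JJ m z

/-- A family of lines that goes up. -/
def K_CONE : Prop := ∀ (ι : Type) (z : ι → ℂ),
  (∀ c : ℝ, 0 < c → Summable fun i => Real.exp (-(c * (z i).im))) → (∀ i, (z i).im ≠ 0) →
  (∀ m : ℝ, 0 < m → Summable fun i => JJ m (z i)) ∧
  Tendsto (fun m => ∑' i, JJ m (z i) - ∑' i, zm m (z i).im) (𝓝[>] 0)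
    (𝓝 (-Real.log (‖∏' i, (1 - ee (z i))‖ ^ 2))) ∧
  (Multipliable fun i => 1 - ee (z i)) ∧ ∏' i, (1 - ee (z i)) ≠ 0

/-- The integral of a theta series as a limit of line sums. -/
def K_LIM : Prop := ∀ (D : Dat) (W : Z3 → ℝ), (∀ n, W n = W ![n 0, 0, n 2]) →
  (∀ n, (D.S n / D.z 1).im ≠ 0) → (∀ t : ℝ, 0 < t → Summable fun n => W n * D.g t n) →
  (Integrable fun r : ℝ => D.tw W (Real.exp r)) →
  (∀ m : ℝ, 0 < m →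
    Summable fun p : ℤ × ℤ => W ![p.1, 0, p.2] * JJ m (D.S ![p.1, 0, p.2] / D.z 1)) →
  Tendsto (fun m => ∑' p : ℤ × ℤ, W ![p.1, 0, p.2] * JJ m (D.S ![p.1, 0, p.2] / D.z 1))
    (𝓝[>] 0) (𝓝 (2 * ∫ r : ℝ, D.tw W (Real.exp r)))

/-- The extrapolation functional. -/
def K_NEG : Prop :=
  (∀ N : ℕ, ∑ j : Fin 4, (cc N j : ℝ) = 6 * (N : ℝ) ^ 3 ∧ ∑ j : Fin 4, (cc N j : ℝ) * tt N j = 0 ∧
    (∀ c₀ c₁ c₂ c₃ : ℝ, Fn N (fun t => c₀ + c₁ * t + c₂ * t ^ 2 + c₃ * t ^ 3) = 0) ∧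
    ∀ (κ κ₀ C : ℝ) (s : ℝ → ℝ), (∀ m ∈ Ioc (0 : ℝ) 1, |s m| ≤ C / m ^ 3) →
      Tendsto (fun m => Fn N fun t => s m * Real.exp (m * (κ * t + κ₀))) (𝓝[>] 0) (𝓝 0)) ∧
  ∀ c : ℝ, c ≠ 0 → ∃ C : ℝ, ∀ m ∈ Ioc (0 : ℝ) 1,
    1 - Real.exp (m * c) ≠ 0 ∧ |(1 - Real.exp (m * c))⁻¹| ≤ C / m

/-- Changes of the indices of the lines. -/
def K_LLB : Prop := ∀ (S : Setup) (m : ℝ),
  (∀ (ζ : ℂ) (θ₁ θ₂ : ℝ), ∀ l ∈ S.L, S.LL m (ζ + l) θ₁ θ₂ = S.LL m ζ θ₁ θ₂ ∧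
    (S.LLs m (ζ + l) θ₁ θ₂ ↔ S.LLs m ζ θ₁ θ₂)) ∧
  (∀ (ζ : ℂ) (θ₁ θ₂ : ℝ), (∀ b, b - ζ ∈ S.L → (S.a b : ℝ) ≠ θ₁ ∧ (S.a (b / S.ε) : ℝ) ≠ θ₂) →
    S.LL m (-ζ) (-θ₁) (-θ₂) = -S.LL m ζ θ₁ θ₂ ∧
    (S.LLs m (-ζ) (-θ₁) (-θ₂) ↔ S.LLs m ζ θ₁ θ₂)) ∧
  ∀ x : S.A, S.LLs m (S.x₁ x) (S.a (S.x₁ x) - 1 / 2) (S.a (S.x₂ x) + 1 / 2) →
    (Summable fun k : ℤ => JJ m ((S.x₁ x + k * S.β) / S.γ)) →
    S.LS m (x + S.p) = S.LS m x - S.RS m (S.x₁ x)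

/-- The zero modes of the cone. -/
def K_SS : Prop := ∀ S : Setup,
  (∃ C : ℝ, ∀ m ∈ Ioc (0 : ℝ) 1, ∀ k, |S.SS m k| ≤ C / m ^ 2) ∧
    ∀ m k k', (S.s : ℤ) ∣ k - k' → S.SS m k = S.SS m k'

/-- The cone of the double product. -/
def K_HC : Prop := ∀ (S : Setup) (x : S.A), S.Off (S.x₁ x) →
  (∀ m : ℝ, 0 < m → Summable (S.hc m x)) ∧
  Tendsto (fun m => ∑' p, S.hc m x p - zm m (S.h x) * S.SS m (S.ν x)) (𝓝[>] 0)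
    (𝓝 (-Real.log (‖S.Den x‖ ^ 2))) ∧ S.Den x ≠ 0

/-- The line sum and the gamma function. -/
def K_GAMS : Prop := ∀ (S : Setup) (x : S.A), S.Off (S.x₁ x) →
  (∀ m : ℝ, 0 < m → S.LLs m (S.x₁ x) (S.a (S.x₁ x) - 1 / 2) (S.a (S.x₂ x) + 1 / 2)) ∧
  Tendsto (fun m => S.LS m x - (zm m (S.h x) * S.SS m (S.ν x) -
      zm m (S.h (S.p + S.q - x)) * S.SS m (S.ν (S.p + S.q - x)))) (𝓝[>] 0)
    (𝓝 (Real.log (‖S.Gam x‖ ^ 2))) ∧ S.Gam x ≠ 0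

/-- A row and the theta function. -/
def K_RS : Prop := ∀ (S : Setup) (ζ : ℂ), S.Off ζ →
  (∀ m : ℝ, 0 < m → Summable fun k : ℤ => JJ m ((ζ + k * S.β) / S.γ)) ∧
  Tendsto (fun m => S.RS m ζ - (1 - Real.exp (-(2 * π * m * (S.β / S.γ).im)))⁻¹ *
      (zm m (ζ / S.γ).im + zm m ((S.β / S.γ).im - (ζ / S.γ).im))) (𝓝[>] 0)
    (𝓝 (-Real.log (‖th0 (ζ / S.γ) (S.β / S.γ)‖ ^ 2))) ∧ th0 (ζ / S.γ) (S.β / S.γ) ≠ 0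

/-- Change of the level. -/
def K_STEP : Prop := ∀ (S : Setup) (G : S.A → ℂ), S.GH G → (S.lam / S.γ).im ≠ 0 →
  ∀ x : S.A, S.Off (S.x₁ x) → ∀ k : ℤ,
    Tendsto (fun m => S.DD G m (x + k • S.p) - S.DD G m x + S.Phi m (S.x₁ x / S.γ).im k)
      (𝓝[>] 0) (𝓝 0)

/-- The limit of the extrapolated line sums. -/
def K_K7 : Prop := ∀ (S : Setup) (G : S.A → ℂ), S.GH G → (S.lam / S.γ).im ≠ 0 →
  ∀ v : ℂ, (S.ε - 1) * v ∈ S.L → S.Off v →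
    S.al G v ≠ 0 ∧ S.al G (-v) ≠ 0 ∧
    Tendsto (fun m => Fn S.N fun t => S.LS m (S.pt (t * v) (t * v) + S.p)) (𝓝[>] 0)
      (𝓝 (Real.log (‖S.al G v‖ ^ 2) - Real.log (‖S.al G (-v)‖ ^ 2)))

/-- Coordinates on the class of `v`. -/
def K_DAT : Prop := ∀ (S : Setup) (v : ℂ) (r : ℂ →+ ℝ) (ρ : ℝ), S.RealStr v r ρ → ∃ D : Dat,
  D.z 1 = S.γ ∧ D.x 0 = S.a v ∧ (∀ n, D.S n - v ∈ S.L) ∧
  (∀ p : ℤ × ℤ, D.S ![p.1, 0, p.2] = S.ln v p) ∧ (∀ θ n, D.wt θ n = S.wg θ θ (D.S n)) ∧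
  (∀ θ n, D.wt θ n = D.wt θ ![n 0, 0, n 2]) ∧ ∀ s, D.Z 1 s = Zv S.L v r ρ s

/-- The Kronecker limit formula. -/
def K_KLF : Prop := ∀ (S : Setup) (G : S.A → ℂ) (v : ℂ) (r : ℂ →+ ℝ) (ρ : ℝ), S.GH G →
  S.RealStr v r ρ → S.al G v ≠ 0 ∧ S.al G (-v) ≠ 0 ∧
    Cont (Zv S.L v r ρ) (((Real.log (‖S.al G v‖ ^ 2) - Real.log (‖S.al G (-v)‖ ^ 2)) /
      (12 * (S.N : ℝ) ^ 3) : ℝ) : ℂ)

/-! ### The dictionary -/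

/-- The embeddings. -/
def K_EMB : Prop := ∀ (k : Type) [Field k] [NumberField k], Module.finrank ℚ k = 3 →
  nrComplexPlaces k = 1 → ∃ (ρ : k →+* ℝ) (σ : k →+* ℂ), Emb ρ σ

/-- Large units that are congruent to one. -/
def K_UNIT : Prop := ∀ (k : Type) [Field k] [NumberField k] (ρ : k →+* ℝ) (σ : k →+* ℂ),
  Emb ρ σ → ∀ I : Ideal (𝓞 k), I ≠ ⊥ → ∃ u : (𝓞 k)ˣ, (u : 𝓞 k) - 1 ∈ I ∧ 6 < ρ (u : 𝓞 k)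

/-- The data attached to an ideal and a class. -/
def K_PRE : Prop := ∀ (k : Type) [Field k] [NumberField k] (ρ : k →+* ℝ) (σ : k →+* ℂ),
  Emb ρ σ → ∀ (J : Ideal (𝓞 k)) (ν η : 𝓞 k) (u : (𝓞 k)ˣ), J ≠ ⊥ → ν ∉ J →
    (u : 𝓞 k) - 1 = 6 * η → η * ν ∈ J → 6 < ρ (u : 𝓞 k) →
    ∃ (r : ℂ →+ ℝ) (N : ℕ), (∀ x : k, r (σ x) = ρ x) ∧
      Pre (latt σ J) (σ (u : 𝓞 k)) (σ ν) r (ρ (u : 𝓞 k)) N ∧
      (σ (u : 𝓞 k) - 1) * σ ν / 2 ∈ latt σ J ∧ σ ν ∉ latt σ J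

/-- The adapted basis. -/
def K_MK : Prop := ∀ L ε v r ρ N, Pre L ε v r ρ N →
  ∃ S : Setup, S.L = L ∧ S.ε = ε ∧ S.RealStr v r ρ

/-- The orders of the two finite groups. -/
def K_COUNT : Prop := ∀ (k : Type) [Field k] [NumberField k] (ρ : k →+* ℝ) (σ : k →+* ℂ),
  Emb ρ σ → ∀ (J : Ideal (𝓞 k)) (u : (𝓞 k)ˣ), J ≠ ⊥ → 1 < ρ (u : 𝓞 k) →
    ∀ S : Setup, S.L = latt σ J → S.ε = σ (u : 𝓞 k) → S.Count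

/-- The number of generators in the fundamental domain. -/
def K_FIB : Prop := ∀ (k : Type) [Field k] [NumberField k] (ρ : k →+* ℝ) (σ : k →+* ℂ),
  Emb ρ σ → ∀ (f c : Ideal (𝓞 k)) (ν : 𝓞 k) (u : (𝓞 k)ˣ), ν - 1 ∈ f → ν ∈ c →
    (u : 𝓞 k) - 1 ∈ f → 1 < ρ (u : 𝓞 k) → ∃ e : ℕ, e ≠ 0 ∧
      ∀ β₀ : 𝓞 k, β₀ - ν ∈ f * c → 0 < ρ β₀ →
        Nat.card {β : 𝓞 k // β - ν ∈ f * c ∧ 1 ≤ ρ β ∧ ρ β < ρ (u : 𝓞 k) ∧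
          Ideal.span {β} = Ideal.span {β₀}} = e

/-- The ideals of the class. -/
def K_CLS : Prop := ∀ (k : Type) [Field k] [NumberField k] (ρ : k →+* ℝ) (σ : k →+* ℂ),
  Emb ρ σ → ∀ f b : Ideal (𝓞 k), f ≠ ⊥ → f ≠ ⊤ → b ≠ ⊥ → IsCoprime b f →
    ∃ (c : Ideal (𝓞 k)) (ν : 𝓞 k), c ≠ ⊥ ∧ ν - 1 ∈ f ∧ ν ∈ c ∧ ν ∉ f * c ∧
      (∀ I, NRay f I b ↔ ∃ β : 𝓞 k, β - ν ∈ f * c ∧ 0 < ρ β ∧ I * c = Ideal.span {β}) ∧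
      ∀ β : 𝓞 k, β - ν ∈ f * c → ∃ I, I * c = Ideal.span {β}

/-- The zeta function of the ray class. -/
def K_ZETA : Prop := ∀ (k : Type) [Field k] [NumberField k] (ρ : k →+* ℝ) (σ : k →+* ℂ),
  Emb ρ σ → ∀ (f b c : Ideal (𝓞 k)) (ν : 𝓞 k) (u : (𝓞 k)ˣ) (r : ℂ →+ ℝ), c ≠ ⊥ → ν - 1 ∈ f →
    ν ∈ c → (u : 𝓞 k) - 1 ∈ f → 1 < ρ (u : 𝓞 k) → (∀ x : k, r (σ x) = ρ x) →
    (∀ I, NRay f I b ↔ ∃ β : 𝓞 k, β - ν ∈ f * c ∧ 0 < ρ β ∧ I * c = Ideal.span {β}) →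
    (∀ β : 𝓞 k, β - ν ∈ f * c → ∃ I, I * c = Ideal.span {β}) →
    ∃ e : ℕ, e ≠ 0 ∧ ∀ s : ℂ, 1 < s.re → rayZ f b s =
      Zv (latt σ (f * c)) (σ ν) r (ρ (u : 𝓞 k)) s * ((Ideal.absNorm c : ℂ) ^ s / e)

end

end Pool.Agent.P.MP_29cb78_nt.E
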