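import Pool.Agent.P.MP_29cb78_nt.E.KIface

/-! The theta series of a family of wedges. -/

namespace Pool.Agent.P.MP_29cb78_nt.E

open Filter Topology MeasureTheory Set
open scoped Classical Real

noncomputable section

namespace KKl1

/-- One term with the form `r`. -/
def V (D : Dat) (r : Fin 3 → ℝ) (κ θ t : ℝ) (n : Z3) : ℝ :=
  (hs (D.a n - θ) - Er (κ * t * lr r D.x n)) * D.g t n

theorem V_cont (h7 : K_ERF) (D : Dat) (r : Fin 3 → ℝ) (κ θ : ℝ) (n : Z3) :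
    Continuous fun t => V D r κ θ t n := by
  have : Continuous Er := continuous_iff_continuousAt.2 fun y => (h7.1 y).continuousAt
  unfold V Dat.g
  fun_prop

theorem V_bound (h2 : K_DOM) (D : Dat) {r : Fin 3 → ℝ} {α : ℝ} {w : ℂ} (hr : Frm r D.z α w)
    {κ : ℝ} (hκ : 0 < κ) (θ : ℝ) : ∃ c : ℝ, 0 < c ∧ ∀ t : ℝ, 0 < t → ∀ n,
      |V D r κ θ t n| ≤ Real.exp (-c * t ^ 2 * nrm D.x n) := by
  obtain ⟨c, hc, h⟩ := h2 r D.z D.x α w hr D.S_ne κ θ hκ
  refine ⟨c, hc, fun t ht n => ?_⟩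
  rw [V, abs_mul, Dat.g, Real.abs_exp]
  exact h t ht n

theorem V_sum (h1 : K_LOW) (h2 : K_DOM) (h3 : K_PKG) (h7 : K_ERF) (D : Dat) {r : Fin 3 → ℝ}
    {α : ℝ} {w : ℂ} (hr : Frm r D.z α w) {κ : ℝ} (hκ : 0 < κ) (θ : ℝ) {t : ℝ} (ht : 0 < t) :
    Summable (V D r κ θ t) := by
  obtain ⟨c, hc, h⟩ := V_bound h2 D hr hκ θ
  exact (h3 D.x (h1.2.2 D.z D.x D.S_ne) (V D r κ θ) c 1 hc
    (fun n => (V_cont h7 D r κ θ n).continuousOn) (by simpa only [one_mul] using h)).1 t ht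

theorem frm0 (D : Dat) : Frm ![1, 0, 0] D.z 1 0 where
  α_pos := one_pos
  form i := by fin_cases i <;> simp
  im_ne := D.frm.im_ne

theorem lr0 (D : Dat) (n : Z3) : lr ![1, 0, 0] D.x n = D.a n := by
  simp [lr, Dat.a, Fin.sum_univ_three]

variable {J : Type} [Fintype J]

/-- The weighted term. -/
def u (D : Dat) (c θ : J → ℝ) (t : ℝ) (n : Z3) : ℝ :=
  ∑ j, c j * V D D.r (Real.exp D.L) (θ j) t n

theorem u_int (h1 : K_LOW) (h2 : K_DOM) (h3 : K_PKG) (h4 : K_U1) (h5 : K_U2) (h7 : K_ERF)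
    (D : Dat) (c θ : J → ℝ) (hF : D.Fam c θ) :
    (∀ t : ℝ, 0 < t → Summable (u D c θ t)) ∧
      Integrable fun r : ℝ => ∑' n, u D c θ (Real.exp r) n := by
  have hκ := Real.exp_pos D.L
  have hκ' := div_pos hκ D.frm.α_pos
  choose b hb hB using fun j => V_bound h2 D D.frm hκ (θ j)
  obtain ⟨b₀, hb₀, hb₁⟩ : ∃ b₀ : ℝ, 0 < b₀ ∧ ∀ j, b₀ ≤ b j := by
    have : ∀ᶠ x in 𝓝[>] (0 : ℝ), ∀ j, x ≤ b j := eventually_all.2 fun j =>
      (eventually_le_nhds (hb j)).filter_mono nhdsWithin_le_nhds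
    exact (eventually_mem_nhdsWithin.and this).exists
  have hn := h1.2.2 D.z D.x D.S_ne
  obtain ⟨k1, k2⟩ := h3 D.x hn (u D c θ) b₀ (∑ j, |c j|) hb₀
    (fun n => (continuous_finsetSum _ fun j _ =>
      continuous_const.mul (V_cont h7 D _ _ _ n)).continuousOn) fun t ht n => by
      rw [Finset.sum_mul]
      refine (Finset.abs_sum_le_sum_abs _ _).trans (Finset.sum_le_sum fun j _ => ?_)
      rw [abs_mul]
      refine mul_le_mul_of_nonneg_left ((hB j t ht n).trans (Real.exp_le_exp.2 ?_)) (abs_nonneg _)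
      have := mul_le_mul_of_nonneg_right (hb₁ j) (mul_pos (pow_pos ht 2) (hn n)).le
      linarith
  refine ⟨k1, k2 ?_⟩
  obtain ⟨C₁, hC₁⟩ := h4 D J c θ hF _ hκ'
  obtain ⟨C₂, hC₂⟩ := h5 D _ hκ
  refine ⟨C₁ + |∑ j, c j| * C₂, fun t ht => ?_⟩
  have s1 : Summable fun n => (∑ j, c j *
      (hs (D.a n - θ j) - Er (Real.exp D.L / D.α * t * D.a n))) * D.g t n := by
    refine (summable_sum (s := Finset.univ) fun j _ =>
      (V_sum h1 h2 h3 h7 D (frm0 D) hκ' (θ j) ht.1).mul_left (c j)).congr fun n => ?_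
    simp only [V, lr0, Finset.sum_mul, mul_assoc]
  have s2 : Summable fun n => (Er (Real.exp D.L / D.α * t * D.a n) -
      Er (Real.exp D.L * t * D.R n)) * D.g t n := by
    refine ((V_sum h1 h2 h3 h7 D D.frm hκ 0 ht.1).sub
      (V_sum h1 h2 h3 h7 D (frm0 D) hκ' 0 ht.1)).congr fun n => ?_
    simp only [V, lr0, Dat.R]
    ring
  have e := (s1.hasSum.add (s2.hasSum.mul_left (∑ j, c j))).tsum_eq
  rw [tsum_congr (g := u D c θ t) fun n => by
    simp only [u, V, Dat.R, Finset.sum_mul, ← Finset.sum_add_distrib]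
    exact Finset.sum_congr rfl fun j _ => by ring] at e
  rw [e]
  refine (abs_add_le _ _).trans ?_
  rw [abs_mul]
  have := mul_le_mul_of_nonneg_left (hC₂ t ht) (abs_nonneg (∑ j, c j))
  linarith [hC₁ t ht]

theorem point (D : Dat) (c θ : J → ℝ) (t : ℝ) (n : Z3) :
    (∑ j, c j * D.wt (θ j) n) * D.g t n = u D c θ t n -
      u D c θ (t / Real.exp (Real.log D.ρ / 2)) (D.e.symm n) +
      (∑ j, c j) * ((Er (Real.exp D.L * t * D.R n) - Er (t * D.R n)) * D.g t n) := by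
  obtain ⟨m, rfl⟩ := D.e.surjective n
  have hρ : 0 < D.ρ := one_pos.trans D.ρ_gt
  set s := Real.exp (Real.log D.ρ / 2) with hs'
  have h0 : s ≠ 0 := (Real.exp_pos _).ne'
  have h1 : D.ρ = s ^ 2 := by
    rw [hs', ← Real.exp_nat_mul]
    conv_lhs => rw [← Real.exp_log hρ]
    congr 1
    push_cast
    ring
  have h2 : Real.exp D.L = s ^ 3 := by
    rw [hs', ← Real.exp_nat_mul, Dat.L]
    congr 1
    push_cast
    ring
  have h3 : Real.exp D.L * (t / s) * lr D.r D.x m = t * lr D.r D.x (D.e m) := by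
    rw [D.R_e, h1, h2]
    field_simp
  have h4 : D.g (t / s) m = D.g t (D.e m) := by
    simp only [Dat.g, Dat.S]
    rw [← D.S_e m, h1]
    congr 1
    field_simp
  simp only [u, V, Dat.wt, Dat.R, Equiv.symm_apply_apply, h3, h4, Finset.sum_mul,
    ← Finset.sum_add_distrib, ← Finset.sum_sub_distrib]
  exact Finset.sum_congr rfl fun j _ => by ring

end KKl1

open KKl1 in
theorem k_kl1 (h1 : K_LOW) (h2 : K_DOM) (h3 : K_PKG) (h4 : K_U1) (h5 : K_U2) (h6 : K_ZC)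
    (h7 : K_ERF) : K_KL1 := by
  intro D J _ c θ hF
  obtain ⟨k1, k2⟩ := u_int h1 h2 h3 h4 h5 h7 D c θ hF
  have hs := Real.exp_pos (Real.log D.ρ / 2)
  have sT : ∀ t : ℝ, 0 < t → Summable fun n =>
      (Er (Real.exp D.L * t * D.R n) - Er (t * D.R n)) * D.g t n := fun t ht => by
    refine ((V_sum h1 h2 h3 h7 D D.frm one_pos 0 ht).sub
      (V_sum h1 h2 h3 h7 D D.frm (Real.exp_pos D.L) 0 ht)).congr fun n => ?_
    simp only [V, Dat.R, one_mul]
    ring
  have sU : ∀ t : ℝ, 0 < t → Summable fun n =>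
      u D c θ (t / Real.exp (Real.log D.ρ / 2)) (D.e.symm n) := fun t ht =>
    D.e.symm.summable_iff.2 (k1 _ (div_pos ht hs))
  have e : (fun r : ℝ => D.tw (fun n => ∑ j, c j * D.wt (θ j) n) (Real.exp r)) = fun r =>
      ∑' n, u D c θ (Real.exp r) n - ∑' n, u D c θ (Real.exp (r - Real.log D.ρ / 2)) n +
        (∑ j, c j) * D.T (Real.exp r) := by
    funext r
    have ht := Real.exp_pos r
    simp only [Dat.tw, point, Dat.T]
    rw [((k1 _ ht).sub (sU _ ht)).tsum_add ((sT _ ht).mul_left _), (k1 _ ht).tsum_sub (sU _ ht),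
      tsum_mul_left, D.e.symm.tsum_eq (u D c θ _), Real.exp_sub]
  have k3 := k2.comp_sub_right (Real.log D.ρ / 2)
  have k4 := (h6 D).1.const_mul (∑ j, c j)
  refine ⟨fun t ht => ?_, ?_, ?_⟩
  · simp only [point]
    exact ((k1 _ ht).sub (sU _ ht)).add ((sT _ ht).mul_left _)
  · rw [e]
    exact (k2.sub k3).add k4
  · rw [e, integral_add (by exact k2.sub k3) k4, integral_sub k2 k3,
      integral_sub_right_eq_self (fun r => ∑' n, u D c θ (Real.exp r) n), integral_const_mul]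
    ring

end

end Pool.Agent.P.MP_29cb78_nt.E
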