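import Pool.Agent.P.MP_29cb78_nt.E.KIface

/-! Three facts on integrals over the strip. -/

namespace Pool.Agent.P.MP_29cb78_nt.E

open Filter Topology MeasureTheory Set

theorem k_strip : K_STRIP := by
  intro V _ _ _ g δ hg
  have e : μS = (volume : Measure (ℝ × ℝ)).restrict (univ ×ˢ Ioc 0 1) := by
    rw [μS, Measure.volume_eq_prod, ← Measure.prod_restrict, Measure.restrict_univ]
  have mp : ∀ k : ℤ, MeasurePreserving (fun p : ℝ × ℝ => p + (-(k * δ), (k : ℝ))) :=
    fun k => by
      rw [Measure.volume_eq_prod]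
      exact (measurePreserving_add_right volume _).prod (measurePreserving_add_right volume _)
  have pe : ∀ k : ℤ, (fun p : ℝ × ℝ => p + (-(k * δ), (k : ℝ))) ⁻¹' (univ ×ˢ Ioc (k : ℝ) (k + 1)) =
      univ ×ˢ Ioc 0 1 := fun k => by
    ext p
    simp only [mem_preimage, mem_prod, mem_univ, Prod.snd_add, mem_Ioc, true_and]
    constructor <;> rintro ⟨a, b⟩ <;> constructor <;> linarith
  have fe : ∀ k : ℤ, (fun p : ℝ × ℝ => g (p.1 - k * δ, p.2 + k)) =
      fun p => g (p + (-(k * δ), (k : ℝ))) := fun k => funext fun p => by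
    rw [sub_eq_add_neg]; rfl
  refine ⟨fun k => ?_, ?_⟩
  · rw [e, fe]
    exact ((mp k).integrable_comp_of_integrable hg).integrableOn
  · have h := hasSum_integral_iUnion (μ := (volume : Measure (ℝ × ℝ))) (f := g)
      (s := fun k : ℤ => univ ×ˢ Ioc (k : ℝ) (k + 1))
      (fun k => MeasurableSet.univ.prod measurableSet_Ioc)
      (fun k l hkl => Disjoint.set_prod_right (pairwise_disjoint_Ioc_intCast ℝ hkl) _ _)
      hg.integrableOn
    rw [← prod_iUnion, iUnion_Ioc_intCast, univ_prod_univ, Measure.restrict_univ] at h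
    convert h using 2 with k
    rw [e, fe, ← pe k]
    exact (mp k).setIntegral_preimage_emb (measurableEmbedding_addRight _) g _

theorem k_ent : K_ENT := by
  intro X _ μ f N hN h
  have f0 : AEStronglyMeasurable f μ := by simpa using (h 0).1
  have me : ∀ s : ℂ, AEStronglyMeasurable (fun x => (f x : ℂ) * Complex.exp (s * N x)) μ :=
    fun s => (Complex.continuous_ofReal.comp_aestronglyMeasurable f0).mul
      (by fun_prop : Measurable fun x => Complex.exp (s * N x)).aestronglyMeasurable
  have nr : ∀ (s : ℂ) x, ‖(f x : ℂ) * Complex.exp (s * N x)‖ = ‖f x * Real.exp (s.re * N x)‖ :=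
    fun s x => by simp [Complex.norm_exp]
  have i1 : ∀ s : ℂ, Integrable (fun x => (f x : ℂ) * Complex.exp (s * N x)) μ := fun s =>
    (h s.re).norm.mono' (me s) (ae_of_all _ fun x => (nr s x).le)
  refine ⟨i1, fun s₀ => ?_⟩
  refine (hasDerivAt_integral_of_dominated_loc_of_deriv_le (Metric.ball_mem_nhds s₀ one_pos)
    (F' := fun s x => (f x : ℂ) * Complex.exp (s * N x) * N x)
    (bound := fun x => ‖f x * Real.exp ((s₀.re + 2) * N x)‖ + ‖f x * Real.exp ((s₀.re - 2) * N x)‖)
    (Eventually.of_forall me) (i1 s₀) ((me s₀).mul (by fun_prop : Measurable fun x =>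
      (N x : ℂ)).aestronglyMeasurable) (ae_of_all _ fun x s hs => ?_)
    ((h _).norm.add (h _).norm) (ae_of_all _ fun x s _ => ?_)).2.differentiableAt
  · have a := abs_lt.1 ((Complex.abs_re_le_norm (s - s₀)).trans_lt (mem_ball_iff_norm.1 hs))
    rw [Complex.sub_re] at a
    rw [norm_mul, nr, Complex.norm_real]
    simp only [norm_mul, Real.norm_eq_abs, Real.abs_exp]
    rw [← mul_add, mul_assoc]
    refine mul_le_mul_of_nonneg_left ?_ (abs_nonneg _)
    have b : |N x| ≤ Real.exp |N x| := by linarith [Real.add_one_le_exp |N x|]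
    refine (mul_le_mul_of_nonneg_left b (Real.exp_pos _).le).trans ?_
    rw [← Real.exp_add]
    rcases abs_cases (N x) with ⟨c, d⟩ | ⟨c, d⟩ <;> rw [c]
    · exact le_add_of_le_of_nonneg (Real.exp_le_exp.2 (by nlinarith)) (Real.exp_pos _).le
    · exact le_add_of_nonneg_of_le (Real.exp_pos _).le (Real.exp_le_exp.2 (by nlinarith))
  · rw [mul_assoc]
    exact ((hasDerivAt_mul_const (N x : ℂ)).cexp).const_mul _

theorem k_sub : K_SUB := by
  intro D j s hs
  by_cases hj : j = 0
  swap
  · simp [Dat.sub, hj]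
  have L0 : 0 < D.L := mul_pos (by norm_num) (Real.log_pos D.ρ_gt)
  have s1 : s - 1 ≠ 0 := fun a => by
    rw [sub_eq_zero.1 a] at hs
    simp at hs
  have L1 : (D.L : ℂ) ≠ 0 := by exact_mod_cast L0.ne'
  have a0 : 0 < (3 * (s - 1)).re := by simpa using hs
  have e : (fun p : ℝ × ℝ => (D.sub j p : ℂ) * Complex.exp (s * NN D.L p)) = fun p =>
      (Iio (0 : ℝ)).indicator (fun r : ℝ => Complex.exp (3 * (s - 1) * r)) p.1 *
        (((|det3 D.r D.z|⁻¹ : ℝ) : ℂ) * Complex.exp ((s - 1) * D.L * p.2)) := funext fun p => by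
    simp only [Dat.sub, hj, true_and, indicator, mem_Iio]
    split_ifs
    · rw [Complex.ofReal_mul, Complex.ofReal_exp, mul_assoc, ← Complex.exp_add,
        mul_left_comm (Complex.exp _), ← Complex.exp_add, NN]
      congr 2
      push_cast
      ring
    · simp
  have i1 : Integrable ((Iio (0 : ℝ)).indicator fun r : ℝ => Complex.exp (3 * (s - 1) * r)) :=
    (integrable_indicator_iff measurableSet_Iio).2
      ((integrableOn_exp_mul_complex_Iic a0 0).mono_set Iio_subset_Iic_self)
  have i2 : Integrable (fun c : ℝ => ((|det3 D.r D.z|⁻¹ : ℝ) : ℂ) *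
      Complex.exp ((s - 1) * D.L * c)) (volume.restrict (Ioc (0 : ℝ) 1)) :=
    (Continuous.integrableOn_Icc (by fun_prop)).mono_set Ioc_subset_Icc_self
  rw [e, μS]
  refine ⟨i1.mul_prod i2, ?_⟩
  rw [integral_prod_mul (f := (Iio (0 : ℝ)).indicator fun r : ℝ => Complex.exp (3 * (s - 1) * r))
      (g := fun c : ℝ => ((|det3 D.r D.z|⁻¹ : ℝ) : ℂ) * Complex.exp ((s - 1) * D.L * c)),
    integral_indicator measurableSet_Iio, ← integral_Iic_eq_integral_Iio,
    integral_exp_mul_complex_Iic a0, ← intervalIntegral.integral_of_le zero_le_one,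
    intervalIntegral.integral_const_mul, integral_exp_mul_complex (mul_ne_zero s1 L1), if_pos hj]
  simp only [Complex.ofReal_zero, mul_zero, Complex.exp_zero, Complex.ofReal_one, mul_one]
  field_simp

end Pool.Agent.P.MP_29cb78_nt.E
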