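import Pool.Agent.P.MP_29cb78_nt.E.Ghq

/-!
The multiplier of the correcting factor in the first coordinate.
-/

namespace Pool.Agent.P.MP_29cb78_nt.E

open Ghq in
theorem rho_thm (_hthq : S_THQ) : S_RHO := by
  intro S T D nc ψ P B hB m hm
  obtain ⟨h0, h1, h2⟩ := S.pt_mem_Ω hm S.M.zero_mem
  have n0 : S.n (S.pt m 0) = 0 := by
    apply Int.cast_injective (α := ℚ)
    rw [S.n_cast, h1, h2]
    simpa using (S.mem_M.1 hm).2
  have nψ := ne P.expq
  have cψ := ct P.expq
  have cm : Ct S fun x => S.mult m (S.x₁ x) := fun x => by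
    simp only [map_add, Setup.x₁_ι, Setup.mult]
    fun_prop
  have st : ∀ x, ψ (x + S.pt m 0 + S.p) * ψ x =
      S.mult m (S.x₁ x) * (ψ (x + S.p) * ψ (x + S.pt m 0)) :=
    ext T (((cψ.add _).add _).mul cψ) (cm.mul ((cψ.add _).mul (cψ.add _))) fun x h => by
      have a := P.shp x
      have b := P.shp (x + S.pt m 0)
      rw [D.θper _ h0, map_add, h1, T.shift m hm] at b
      refine mul_right_cancel₀ (mt (T.zero_iff _).1 h.1) ?_
      linear_combination ψ (x + S.p) * b - ψ (x + S.pt m 0 + S.p) * a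
  obtain ⟨f, hf⟩ : ∃ f : S.A → ℂ, ∀ x, f x = (S.n x - nc : ℤ) * (S.η m * S.x₁ x + B m m) -
      S.η m * S.lam * (S.n x - nc : ℤ) * ((S.n x - nc : ℤ) + 1) / 2 := ⟨_, fun _ => rfl⟩
  have sf : ∀ x, Complex.exp (f (x + S.p)) = S.mult m (S.x₁ x) * Complex.exp (f x) := fun x => by
    rw [hB m hm, ← Complex.exp_add, hf, hf]
    congr 1
    simp only [map_add, S.n_p, S.x₁_p]
    push_cast
    ring
  have key : ∀ x, ψ (x + S.p + S.pt m 0) = Complex.exp (f (x + S.p)) * ψ (x + S.p) ↔
      ψ (x + S.pt m 0) = Complex.exp (f x) * ψ x := fun x => by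
    rw [add_right_comm, sf, ← mul_left_inj' (nψ x), st,
      ← mul_right_inj' (mul_ne_zero (T.mult_ne m hm (S.x₁ x)) (nψ (x + S.p)))
        (b := ψ (x + S.pt m 0))]
    constructor <;> intro h <;> linear_combination h
  have main : ∀ (k : ℤ) x, S.n x - nc = k → ψ (x + S.pt m 0) = Complex.exp (f x) * ψ x := by
    intro k
    induction k using Int.induction_on with
    | zero =>
      intro x hx
      rw [P.one x (by omega), P.one _ (by rw [map_add, n0]; omega), hf, hx]
      simp
    | succ k ih =>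
      intro x hx
      have := (key (x - S.p)).2 (ih _ (by rw [map_sub, S.n_p]; omega))
      rwa [sub_add_cancel] at this
    | pred k ih =>
      intro x hx
      exact (key x).1 (ih _ (by rw [map_add, S.n_p]; omega))
  intro x
  rw [main _ x rfl, hf]

end Pool.Agent.P.MP_29cb78_nt.E
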