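import Pool.Agent.P.MP_29cb78_nt.E.Basic

/-! Products of gamma functions times entire functions: tameness and exact terms. -/

namespace Pool.Agent.P.MP_29cb78_nt.E

open Filter Topology

namespace Tame

variable {S : Setup} {G g : S.A → ℂ} {d : ℕ} {t t' : Fin d → S.A} {cl : S.A → Prop}

theorem reg (hG : S.GH G) (hg : ∀ x, AnalyticAt ℂ (S.sl g x) 0) {x : S.A}
    (h : ¬ S.Reg (fun y => (∏ j, (G (t j + y) * G (t' j - y))) * g y) x) :
    ∃ j, S.Pole (t j + x) ∨ S.Pole (t' j - x) := by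
  by_contra! h'
  exact h (Setup.Reg.of_analyticAt ((Finset.analyticAt_fun_prod
    (f := fun j z => G (t j + (x + S.ι z)) * G (t' j - (x + S.ι z))) _ fun j _ =>
      (hG.analyticAt_add (h' j).1).mul (hG.analyticAt_sub (h' j).2)).mul (hg x)))

theorem tame0 (hG : S.GH G) (hg : ∀ x, AnalyticAt ℂ (S.sl g x) 0)
    (hc : ∀ ω ∈ S.Ω, ∀ x, cl (x + ω) ↔ cl x) (lo : ∀ j y, S.Pole (t j + y) → ¬ cl y)
    (up : ∀ j y, S.Pole (t' j - y) → cl y)
    (per : ∀ ω ∈ S.Ω, S.AE (fun y => (∏ j, (G (t j + (y + ω)) * G (t' j - (y + ω)))) * g (y + ω))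
      fun y => (∏ j, (G (t j + y) * G (t' j - y))) * g y) :
    S.Tame (fun y => (∏ j, (G (t j + y) * G (t' j - y))) * g y) cl where
  mer x := (MeromorphicAt.fun_prod
    (F := fun j z => G (t j + (x + S.ι z)) * G (t' j - (x + S.ι z))) fun j _ =>
      (hG.mer_add (t j) x).mul (hG.mer_sub (t' j) x)).mul (hg x).meromorphicAt
  per := per
  clper := hc
  bdd := by
    refine ⟨1 + ∑ j, (|S.h (t j)| + |S.h (t' j)|), fun x hx => ?_⟩
    obtain ⟨j, hj⟩ := reg hG hg hx
    have h1 := Finset.single_le_sum (f := fun j => |S.h (t j)| + |S.h (t' j)|)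
      (fun j _ => by positivity) (Finset.mem_univ j)
    have h2 := neg_abs_le (S.h (t j))
    have h3 := neg_abs_le (S.h (t' j))
    have h4 := abs_nonneg (S.h (t j))
    have h5 := abs_nonneg (S.h (t' j))
    rcases hj with h | h <;> have h6 := h.h_le
    · rw [map_add] at h6
      exact ⟨fun c => (lo j x h c).elim, fun _ => by linarith⟩
    · rw [map_sub] at h6
      exact ⟨fun _ => by linarith, fun c => (c (up j x h)).elim⟩

theorem exa (hT : S.TH) (hG : S.GH G) {Λ : (S.A → ℂ) → (S.A → Prop) → ℂ} (hΛ : S.LamAPI Λ)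
    (c : S.A) (x : S.A →+ ℂ) (sh : ∀ y, ¬ S.Pole y → G (y + c) = S.ϑ (x y) * G y)
    (hp : ∀ y, S.Pole (y + c) → S.Pole y) (hs : S.Sep t cl) {P : ℂ → ℂ}
    (hP : ∀ y, P y = S.PP (fun j => x (t j)) y) (hg : ∀ x, AnalyticAt ℂ (S.sl g x) 0)
    (per : ∀ ω ∈ S.Ω, S.AE (fun y => S.WW G t (y + ω) * (P (-x (y + ω)) * g (y + ω)))
      fun y => S.WW G t y * (P (-x y) * g y)) :
    S.Tame (fun y => S.WW G t y * (P (x y) * g (y + c) - P (-x y) * g y)) cl ∧
      Λ (fun y => S.WW G t y * (P (x y) * g (y + c) - P (-x y) * g y)) cl = 0 := by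
  have ae : ∀ {f f' : S.A → ℂ}, (∀ y, (∀ j, ¬ S.Pole (t j + y) ∧ ¬ S.Pole (t j - y)) →
      f y = f' y) → S.AE f f' := fun h => Setup.AE.of_eventually _
    (fun x => eventually_all.2 fun _ => (hT.not_pole_add _ x).and (hT.not_pole_sub _ x)) h
  have e1 : S.AE (fun y => (∏ j, (G (t j + y) * G (t j + c - y))) * g y)
      fun y => S.WW G t y * (P (-x y) * g y) := ae fun y hy => by
    rw [Finset.prod_congr rfl fun j _ => by rw [add_sub_right_comm, sh _ (hy j).2], hP]
    simp only [Setup.WW, Setup.PP, Finset.prod_mul_distrib, map_sub, ← sub_eq_add_neg]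
    ring
  have per' := fun ω hω => ((e1.shift ω).trans (per ω hω)).trans e1.symm
  have lo : ∀ j y, S.Pole (t j + y) → ¬ cl (y - c) := fun j y h =>
    hs.lower j _ (hp _ (by convert h using 1; abel))
  have up : ∀ j y, S.Pole (t j + c - y) → cl y := fun j y h =>
    hs.upper j _ (hp _ (by convert h using 1; abel))
  have up' : ∀ j y, S.Pole (t j + c - y) → cl (y - c) := fun j y h =>
    hs.upper j _ (by convert h using 1; abel)
  obtain ⟨h1, h2⟩ := hΛ.exact c (tame0 hG hg hs.clper hs.lower up per')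
    (tame0 hG hg (fun ω hω y => by rw [add_sub_right_comm]; exact hs.clper ω hω _) lo up' per')
    fun y hy => by
      obtain ⟨j, h | h⟩ := reg hG hg hy
      exacts [iff_of_false (hs.lower j y h) (lo j y h), iff_of_true (up j y h) (up' j y h)]
  have e2 : S.AE (fun y => (∏ j, (G (t j + (y + c)) * G (t j + c - (y + c)))) * g (y + c))
      fun y => S.WW G t y * (P (x y) * g (y + c)) := ae fun y hy => by
    rw [Finset.prod_congr rfl fun j _ => by
      rw [← add_assoc, sh _ (hy j).1, add_sub_add_right_eq_sub], hP]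
    simp only [Setup.WW, Setup.PP, Finset.prod_mul_distrib, map_add]
    ring
  have e3 := e2.sub e1
  simp only [← mul_sub] at e3
  exact ⟨h1.congr e3, by rw [← hΛ.congr _ _ _ h1 e3, h2]⟩

theorem an₁ {f : ℂ → ℂ} (hf : Differentiable ℂ f) (x : S.A) :
    AnalyticAt ℂ (S.sl (fun y => f (S.x₁ y)) x) 0 := by
  have : S.sl (fun y => f (S.x₁ y)) x = f ∘ fun z => S.x₁ x + S.ε * z := by
    funext z; simp [Setup.sl]
  rw [this]
  exact (hf.comp (by fun_prop)).analyticAt 0

theorem an₂ {f : ℂ → ℂ} (hf : Differentiable ℂ f) (x : S.A) :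
    AnalyticAt ℂ (S.sl (fun y => f (S.x₂ y)) x) 0 := by
  have : S.sl (fun y => f (S.x₂ y)) x = f ∘ fun z => S.x₂ x + z := by
    funext z; simp [Setup.sl]
  rw [this]
  exact (hf.comp (by fun_prop)).analyticAt 0

end Tame

end Pool.Agent.P.MP_29cb78_nt.E
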