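import Pool.Agent.P.MP_29cb78_nt.E.Basic

/-! The telescoping identity. -/

namespace Pool.Agent.P.MP_29cb78_nt.E

theorem tel_thm (hphi : S_PHI) (htj1 : S_TJ1) (htj2 : S_TJ2) (htv : S_TV) : S_TEL := by
  intro S hT G hG Λ hΛ d t σ θ F₁ F₂ hd hd0 ht hσ0 hσ hθ hF₁ hF₂
  obtain ⟨φ₁, φ₂, k₁, k₂, hk, hΩ⟩ := hphi S
  obtain ⟨f₁, t₁, e₁, v₁⟩ := htj1 S hT G hG Λ hΛ d t σ θ (φ₁ - φ₂) (k₁ - k₂) F₁ hd ht hσ hθ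
    (fun z => by simp [hk z, sub_mul]) (fun ω hω => by simp [hΩ ω hω]) hF₁
  obtain ⟨f₂, t₂, e₂, v₂⟩ := htj2 S hT G hG Λ hΛ d t σ θ (φ₁ + φ₂) (k₁ + k₂) F₂ hd ht hσ hθ
    (fun z => by simp [hk z, add_mul]) (fun ω hω => by simp [hΩ ω hω]) hF₂
  obtain ⟨f₃, t₃, v₃, e₃⟩ := (htv S hT G hG Λ hΛ d t σ _ φ₂ k₂ (-φ₁ S.q) hd hd0 ht hσ0 hσ hθ.sep
    fun z => (hk z).2).1 fun ω hω => (hΩ ω hω).2
  obtain ⟨f₄, t₄, v₄, e₄⟩ := (htv S hT G hG Λ hΛ d t σ _ φ₁ k₁ (φ₁ S.q - φ₂ S.q - φ₁ S.p) hd hd0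
    ht hσ0 hσ hθ.sep fun z => (hk z).1).2 fun ω hω => (hΩ ω hω).1
  have e : S.AE (fun y => f₁ y + f₂ y + (f₃ y + f₄ y))
      fun y => S.WW G t y * S.BB σ (S.x₁ y) (S.x₂ y) := by
    convert (e₁.add e₂).add (e₃.add e₄) using 2 with y
    simp only [Setup.BB, Setup.Pm, map_add, map_sub, AddMonoidHom.add_apply,
      AddMonoidHom.sub_apply]
    ring
  have h := (t₁.add t₂).add (t₃.add t₄)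
  refine ⟨h.congr e, ?_⟩
  rw [← hΛ.congr _ _ _ h e, hΛ.add _ _ _ (t₁.add t₂) (t₃.add t₄), hΛ.add _ _ _ t₁ t₂,
    hΛ.add _ _ _ t₃ t₄, v₁, v₂, v₃, v₄]
  ring

end Pool.Agent.P.MP_29cb78_nt.E
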