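import Pool.Agent.P.MP_29cb78_nt.E.Basic

/-! The short theta product. -/

namespace Pool.Agent.P.MP_29cb78_nt.E

open Filter Topology Set
open scoped Classical Real

noncomputable section

namespace Th

theorem ee_add (x y : ℂ) : ee (x + y) = ee x * ee y := by
  simp only [ee, mul_add, Complex.exp_add]

theorem ee_ne (x : ℂ) : ee x ≠ 0 := Complex.exp_ne_zero _

theorem ee_zero : ee 0 = 1 := by simp [ee]

theorem ee_one : ee 1 = 1 := by simp [ee]

theorem ee_neg_mul (x : ℂ) : ee (-x) * ee x = 1 := by rw [← ee_add, neg_add_cancel, ee_zero]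

theorem ee_half : ee (1 / 2) = -1 := by
  rw [ee, ← Complex.exp_pi_mul_I]; congr 1; ring

theorem ee_neg_half : ee (-(1 / 2)) = -1 := by
  have := ee_neg_mul (1 / 2)
  rw [ee_half] at this
  linear_combination -this

theorem ee_eq_one {x : ℂ} : ee x = 1 ↔ ∃ n : ℤ, x = n := by
  rw [ee, Complex.exp_eq_one_iff]
  have h : (2 * π * Complex.I : ℂ) ≠ 0 := by simp [Real.pi_ne_zero]
  constructor
  · rintro ⟨n, hn⟩
    exact ⟨n, mul_left_cancel₀ h (by rw [hn]; ring)⟩
  · rintro ⟨n, rfl⟩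
    exact ⟨n, by ring⟩

theorem ee_nat_mul (n : ℕ) (x : ℂ) : ee (n * x) = ee x ^ n := by
  rw [ee, ee, ← Complex.exp_nat_mul]; congr 1; ring

theorem ee_add_int (x : ℂ) (n : ℤ) : ee (x + n) = ee x := by
  rw [ee_add, (ee_eq_one (x := n)).2 ⟨n, rfl⟩, mul_one]

@[fun_prop]
theorem ee_diff : Differentiable ℂ ee := by
  unfold ee; fun_prop

theorem ee_hasDerivAt (x : ℂ) : HasDerivAt ee (2 * π * Complex.I * ee x) x := by
  have := ((hasDerivAt_id x).const_mul (2 * π * Complex.I : ℂ)).cexp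
  rw [mul_one, mul_comm (Complex.exp _)] at this
  exact this

theorem norm_ee_lt {τ : ℂ} (h : 0 < τ.im) : ‖ee τ‖ < 1 := by
  rw [ee, Complex.norm_exp, Real.exp_lt_one_iff]
  simp
  positivity

/-- One half of the theta product. -/
def G (τ z : ℂ) : ℂ := ∏' n : ℕ, (1 - ee (n * τ + z))

theorem summ {τ : ℂ} (h : 0 < τ.im) (z : ℂ) : Summable fun n : ℕ => ‖-ee (n * τ + z)‖ := by
  simp only [norm_neg, ee_add, ee_nat_mul, norm_mul, norm_pow]
  exact (summable_geometric_of_lt_one (norm_nonneg _) (norm_ee_lt h)).mul_right _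

theorem mult {τ : ℂ} (h : 0 < τ.im) (z : ℂ) : Multipliable fun n : ℕ => 1 - ee (n * τ + z) :=
  multipliable_one_add_of_summable (f := fun n : ℕ => -ee (n * τ + z)) (summ h z)

theorem G_diff {τ : ℂ} (h : 0 < τ.im) : Differentiable ℂ (G τ) := by
  have h1 : HasProdLocallyUniformlyOn (fun (n : ℕ) z => 1 + -ee (n * τ + z))
      (fun z => ∏' n : ℕ, (1 + -ee (n * τ + z))) univ := by
    apply hasProdLocallyUniformlyOn_of_forall_compact isOpen_univ
    intro K _ hK
    obtain ⟨C, hC⟩ := hK.exists_bound_of_continuousOn ee_diff.continuous.continuousOn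
    refine ((summable_geometric_of_lt_one (norm_nonneg _) (norm_ee_lt h)).mul_right
      C).hasProdUniformlyOn_nat_one_add hK (.of_forall fun n x hx => ?_) fun _ => ?_
    · rw [norm_neg, ee_add, ee_nat_mul, norm_mul, norm_pow]
      exact mul_le_mul_of_nonneg_left (hC x hx) (by positivity)
    · exact (Differentiable.continuous (𝕜 := ℂ) (by fun_prop)).continuousOn
  rw [← differentiableOn_univ]
  have h2 := h1.differentiableOn (.of_forall fun s => by
    simpa [Finset.prod_fn] using DifferentiableOn.finsetProd (u := s)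
      (f := fun (n : ℕ) z => 1 + -ee (n * τ + z)) (fun _ _ => by fun_prop)) isOpen_univ
  exact h2.congr fun z _ => by simp only [G, sub_eq_add_neg]

theorem G_shift {τ : ℂ} (h : 0 < τ.im) (z : ℂ) : G τ z = (1 - ee z) * G τ (z + τ) := by
  have h1 : Multipliable fun n : ℕ => 1 - ee (((n + 1 : ℕ) : ℂ) * τ + z) := by
    refine (mult h (z + τ)).congr fun n => ?_
    push_cast; congr 2; ring
  have h2 := tprod_eq_zero_mul' (f := fun n : ℕ => 1 - ee ((n : ℂ) * τ + z)) h1
  have h3 : G τ (z + τ) = ∏' n : ℕ, (1 - ee ((n + 1) * τ + z)) := by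
    unfold G; congr 1; ext n; congr 2; ring
  rw [h3]
  simpa [G] using h2

theorem G_int (τ z : ℂ) (k : ℤ) : G τ (z + k) = G τ z := by
  unfold G; congr 1; ext n
  rw [← add_assoc, ee_add_int]

theorem G_eq_zero {τ : ℂ} (h : 0 < τ.im) {z : ℂ} :
    G τ z = 0 ↔ ∃ n : ℕ, ∃ k : ℤ, n * τ + z = k := by
  constructor
  · intro h0
    by_contra hc
    push Not at hc
    refine tprod_one_add_ne_zero_of_summable (f := fun n : ℕ => -ee (n * τ + z))
      (fun n h1 => ?_) (summ h z) h0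
    obtain ⟨k, hk⟩ := ee_eq_one.1 (show ee (n * τ + z) = 1 by linear_combination -h1)
    exact hc n k hk
  · rintro ⟨n, k, hk⟩
    exact tprod_of_exists_eq_zero ⟨n, by rw [ee_eq_one.2 ⟨k, hk⟩, sub_self]⟩

theorem G_ne {τ : ℂ} (h : 0 < τ.im) {z : ℂ} (hz : 0 < z.im) : G τ z ≠ 0 := by
  rw [Ne, G_eq_zero h]
  rintro ⟨n, k, hk⟩
  have h1 := congrArg Complex.im hk
  simp at h1
  have := mul_nonneg (Nat.cast_nonneg (α := ℝ) n) h.le
  linarith

theorem th0_eq {τ : ℂ} (h : 0 < τ.im) (z : ℂ) : th0 z τ = G τ z * G τ (τ - z) := by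
  rw [th0, G, G, ← (mult h _).tprod_mul (mult h _)]
  congr 1; ext n; congr 3 <;> ring

theorem th0_diff {τ : ℂ} (h : 0 < τ.im) : Differentiable ℂ fun z => th0 z τ := by
  have h2 := G_diff h
  simp only [th0_eq h]
  fun_prop

theorem th0_int {τ : ℂ} (h : 0 < τ.im) (z : ℂ) (k : ℤ) : th0 (z + k) τ = th0 z τ := by
  rw [th0_eq h, th0_eq h, G_int, ← G_int τ (τ - (z + k)) k]
  congr 2; ring

theorem th0_neg {τ : ℂ} (h : 0 < τ.im) (z : ℂ) : th0 (-z) τ = -ee (-z) * th0 z τ := by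
  rw [th0_eq h, th0_eq h, G_shift h (-z), G_shift h z, show -z + τ = τ - z by ring,
    show τ - -z = z + τ by ring]
  linear_combination (-(G τ (τ - z) * G τ (z + τ))) * ee_neg_mul z

theorem th0_tau {τ : ℂ} (h : 0 < τ.im) (z : ℂ) : th0 (z + τ) τ = -ee (-z) * th0 z τ := by
  rw [← th0_neg h, th0_eq h, th0_eq h, mul_comm]
  congr 2 <;> ring

theorem th0_eq_zero {τ : ℂ} (h : 0 < τ.im) {z : ℂ} :
    th0 z τ = 0 ↔ ∃ j k : ℤ, z = j + k * τ := by
  rw [th0_eq h, mul_eq_zero, G_eq_zero h, G_eq_zero h]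
  constructor
  · rintro (⟨n, k, hk⟩ | ⟨n, k, hk⟩)
    · exact ⟨k, -n, by push_cast; linear_combination hk⟩
    · exact ⟨-k, n + 1, by push_cast; linear_combination -hk⟩
  · rintro ⟨j, k, rfl⟩
    rcases le_or_gt k 0 with hk | hk
    · obtain ⟨n, hn⟩ := Int.eq_ofNat_of_zero_le (neg_nonneg.2 hk)
      have : (k : ℂ) = -n := by rw [← Int.cast_natCast, ← hn]; simp
      exact Or.inl ⟨n, j, by rw [this]; ring⟩
    · obtain ⟨n, hn⟩ := Int.eq_ofNat_of_zero_le (show 0 ≤ k - 1 by omega)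
      have : (k : ℂ) = n + 1 := by rw [← Int.cast_natCast, ← hn]; simp
      exact Or.inr ⟨n, -j, by rw [this]; push_cast; ring⟩

theorem th0_hasDerivAt {τ : ℂ} (h : 0 < τ.im) :
    HasDerivAt (fun z => th0 z τ) (-(2 * π * Complex.I) * G τ τ ^ 2) 0 := by
  have h2 := G_diff h
  have h3 : DifferentiableAt ℂ (fun z => G τ (z + τ) * G τ (τ - z)) 0 := by fun_prop
  have h4 := ((ee_hasDerivAt 0).const_sub 1).mul h3.hasDerivAt
  have h5 : (fun z => th0 z τ) = fun z => (1 - ee z) * (G τ (z + τ) * G τ (τ - z)) := by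
    ext z; rw [th0_eq h, G_shift h z, mul_assoc]
  rw [h5]
  refine HasDerivAt.congr_deriv h4 ?_
  simp [ee_zero, sq]

end Th

end

end Pool.Agent.P.MP_29cb78_nt.E
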